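import Pool.Agent.CDC.Cover

/-!
# Acyclic complement

If no circuit avoids `V(C)`, then the edges can be coloured with three colours properly at all
vertices off `C`.
-/

set_option autoImplicit false

namespace Pool.Agent.CDC

variable {V E : Type} {G : MGraph V E}

theorem other_end (G : MGraph V E) {v : V} {e : E} (h : G.inc v e) :
    ∃ w, w ≠ v ∧ ∀ x, G.inc x e ↔ x = v ∨ x = w := by
  obtain ⟨u, w, huw, hS⟩ := Set.ncard_eq_two.1 (G.two e)
  have hS' : ∀ z, G.inc z e ↔ z = u ∨ z = w := by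
    intro z
    have : z ∈ {v | G.inc v e} ↔ z ∈ ({u, w} : Set V) := by rw [hS]
    simpa using this
  rcases (hS' v).1 h with rfl | rfl
  · exact ⟨w, huw.symm, hS'⟩
  · exact ⟨u, huw, fun x => by rw [hS']; exact or_comm⟩

/-- a sequence of vertices and edges without immediate reversal contains a circuit -/
theorem circuit_of_seq [Finite V] (v : ℕ → V) (e : ℕ → E)
    (h1 : ∀ i w, G.inc w (e i) ↔ w = v i ∨ w = v (i + 1)) (h2 : ∀ i, v i ≠ v (i + 1))
    (h3 : ∀ i, e i ≠ e (i + 1)) : ∃ D, G.IsCircuit D ∧ ∀ w ∈ G.verts D, ∃ i, w = v i := by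
  classical
  have hex : ∃ j, ∃ i, i < j ∧ v i = v j := by
    obtain ⟨a, b, hab, h⟩ := Finite.exists_ne_map_eq_of_infinite v
    rcases lt_or_gt_of_ne hab with h' | h'
    · exact ⟨b, a, h', h⟩
    · exact ⟨a, b, h', h.symm⟩
  obtain ⟨i, hij, hvij⟩ := Nat.find_spec hex
  set j := Nat.find hex with hj
  have hmin : ∀ a b, a < b → b < j → v a ≠ v b := by
    intro a b hab hbj h
    exact Nat.find_min hex hbj ⟨a, hab, h⟩
  have hlen : i + 2 ≤ j := by
    by_contra hcon
    have : j = i + 1 := by omega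
    rw [this] at hvij
    exact h2 i hvij
  obtain ⟨n, hn⟩ : ∃ n, j = i + (n + 2) := ⟨j - i - 2, by omega⟩
  refine ⟨Set.range (fun k : Fin (n + 2) => e (i + k.1)), ⟨n, fun k => v (i + k.1),
    fun k => e (i + k.1), ?_, ?_, ?_, rfl⟩, ?_⟩
  · intro a b hab
    by_contra hne
    have hne' : a.1 ≠ b.1 := fun h => hne (Fin.ext h)
    rcases lt_or_gt_of_ne hne' with h | h
    · exact hmin (i + a.1) (i + b.1) (by omega) (by have := b.2; omega) hab
    · exact hmin (i + b.1) (i + a.1) (by omega) (by have := a.2; omega) hab.symm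
  · have key : ∀ a b : Fin (n + 2), a.1 < b.1 → e (i + a.1) ≠ e (i + b.1) := by
      intro a b h hab
      have h4 : G.inc (v (i + b.1)) (e (i + a.1)) := by
        rw [hab, h1]; exact Or.inl rfl
      rw [h1] at h4
      rcases h4 with h4 | h4
      · exact hmin (i + a.1) (i + b.1) (by omega) (by have := b.2; omega) h4.symm
      · have h5 : i + a.1 + 1 = i + b.1 := by
          by_contra hne
          exact hmin (i + a.1 + 1) (i + b.1) (by omega) (by have := b.2; omega) h4.symm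
        rw [← h5] at hab
        exact h3 _ hab
    intro a b hab
    by_contra hne
    have hne' : a.1 ≠ b.1 := fun h => hne (Fin.ext h)
    rcases lt_or_gt_of_ne hne' with h | h
    · exact key a b h hab
    · exact key b a h hab.symm
  · intro k w
    rw [h1]
    by_cases hk : k = Fin.last (n + 1)
    · subst hk
      rw [Fin.last_add_one]
      have h4 : v (i + (Fin.last (n + 1)).1 + 1) = v (i + (0 : Fin (n + 2)).1) := by
        rw [show i + (Fin.last (n + 1)).1 + 1 = j by rw [hn]; simp [Fin.last]; omega]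
        rw [← hvij]
        simp
      show w = v (i + (Fin.last (n + 1)).1) ∨ w = v (i + (Fin.last (n + 1)).1 + 1) ↔
        w = v (i + (Fin.last (n + 1)).1) ∨ w = v (i + (0 : Fin (n + 2)).1)
      rw [h4]
    · have h4 : (k + 1).1 = k.1 + 1 := Fin.val_add_one_of_lt (Fin.lt_last_iff_ne_last.2 hk)
      show w = v (i + k.1) ∨ w = v (i + k.1 + 1) ↔ w = v (i + k.1) ∨ w = v (i + (k + 1).1)
      rw [h4, add_assoc]
  · rintro w ⟨f, ⟨k, rfl⟩, hw⟩
    rcases (h1 _ _).1 hw with h | h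
    · exact ⟨_, h⟩
    · exact ⟨_, h⟩

/-- a nonempty set of vertices such that no circuit lies inside has a vertex with at most one edge
to the others -/
theorem exists_leaf [Finite V] (A : Set V) (hA : A.Nonempty)
    (hac : ∀ D, G.IsCircuit D → ∃ w ∈ G.verts D, w ∉ A) :
    ∃ v ∈ A, ∀ e f, G.inc v e → G.inc v f → (∃ w ∈ A, w ≠ v ∧ G.inc w e) →
      (∃ w ∈ A, w ≠ v ∧ G.inc w f) → e = f := by
  classical
  by_contra hcon
  push Not at hcon
  -- states: a vertex of `A` and an edge to a vertex of `A`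
  let St := {p : V × E // p.1 ∈ A ∧ G.inc p.1 p.2 ∧ ∃ w ∈ A, w ≠ p.1 ∧ G.inc w p.2}
  have step : ∀ s : St, ∃ t : St, t.1.1 ≠ s.1.1 ∧ G.inc t.1.1 s.1.2 ∧ t.1.2 ≠ s.1.2 := by
    rintro ⟨⟨v, e⟩, hv, he, w, hw, hwv, hwe⟩
    obtain ⟨e', f', he', hf', h3, h4, hne⟩ := hcon w hw
    by_cases h : e' = e
    · refine ⟨⟨(w, f'), hw, hf', h4⟩, hwv, hwe, ?_⟩
      rintro rfl
      exact hne h
    · exact ⟨⟨(w, e'), hw, he', h3⟩, hwv, hwe, h⟩
  choose nx hnx1 hnx2 hnx3 using step
  obtain ⟨v0, hv0⟩ := hA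
  obtain ⟨e', f', he', hf', h3, h4, hne⟩ := hcon v0 hv0
  let s : ℕ → St := fun n => Nat.rec ⟨(v0, e'), hv0, he', h3⟩ (fun _ t => nx t) n
  have hs : ∀ n, s (n + 1) = nx (s n) := fun n => rfl
  have g1 : ∀ i w, G.inc w (s i).1.2 ↔ w = (s i).1.1 ∨ w = (s (i + 1)).1.1 := by
    intro i w
    obtain ⟨w', hw', hx⟩ := other_end G (s i).2.2.1
    have h5 : (s (i + 1)).1.1 = w' := by
      rw [hs]
      rcases (hx _).1 (hnx2 (s i)) with h | h
      · exact absurd h (hnx1 (s i))
      · exact h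
    rw [h5]
    exact hx w
  have g2 : ∀ i, (s i).1.1 ≠ (s (i + 1)).1.1 := by
    intro i
    rw [hs]
    exact (hnx1 (s i)).symm
  have g3 : ∀ i, (s i).1.2 ≠ (s (i + 1)).1.2 := by
    intro i
    rw [hs]
    exact (hnx3 (s i)).symm
  obtain ⟨D, hD, hDv⟩ := circuit_of_seq (G := G) (fun n => (s n).1.1) (fun n => (s n).1.2)
    g1 g2 g3
  obtain ⟨w, hw, hwA⟩ := hac D hD
  obtain ⟨i, rfl⟩ := hDv w hw
  exact hwA (s i).2.1

/-- proper colouring at the vertices of a set without circuits -/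
theorem exists_col [Finite V] (hG : G.Cubic) (n : ℕ) : ∀ A : Set V, A.ncard = n →
    (∀ D, G.IsCircuit D → ∃ w ∈ G.verts D, w ∉ A) →
    ∃ col : E → ZMod 3, ∀ v ∈ A, ∀ e f, G.inc v e → G.inc v f → e ≠ f → col e ≠ col f := by
  classical
  induction n with
  | zero =>
    intro A hA _
    rw [Set.ncard_eq_zero] at hA
    subst hA
    exact ⟨fun _ => 0, fun v hv => absurd hv (Set.notMem_empty v)⟩
  | succ n ih =>
    intro A hA hac
    have hne : A.Nonempty := by
      rw [← Set.ncard_pos]; omega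
    obtain ⟨v, hv, hleaf⟩ := exists_leaf A hne hac
    obtain ⟨col, hcol⟩ := ih (A \ {v}) (by rw [Set.ncard_diff_singleton_of_mem hv, hA]; rfl)
      (fun D hD => by
        obtain ⟨w, hw, hwA⟩ := hac D hD
        exact ⟨w, hw, fun h => hwA h.1⟩)
    -- the star of `v`, first the edge to `A`
    obtain ⟨e₁, e₂, e₃, h12, h13, h23, hs, h2, h3⟩ : ∃ e₁ e₂ e₃, e₁ ≠ e₂ ∧ e₁ ≠ e₃ ∧ e₂ ≠ e₃ ∧
        (∀ e, G.inc v e ↔ e = e₁ ∨ e = e₂ ∨ e = e₃) ∧
        (∀ w ∈ A, w ≠ v → ¬ G.inc w e₂) ∧ (∀ w ∈ A, w ≠ v → ¬ G.inc w e₃) := by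
      by_cases hex : ∃ e, G.inc v e ∧ ∃ w ∈ A, w ≠ v ∧ G.inc w e
      · obtain ⟨e, he, hw⟩ := hex
        obtain ⟨f, g, hef, heg, hfg, hs⟩ := star_off' hG v he
        refine ⟨e, f, g, hef, heg, hfg, hs, fun w hwA hwv hwf => ?_, fun w hwA hwv hwg => ?_⟩
        · exact hef (hleaf e f he ((hs f).2 (by simp)) hw ⟨w, hwA, hwv, hwf⟩)
        · exact heg (hleaf e g he ((hs g).2 (by simp)) hw ⟨w, hwA, hwv, hwg⟩)
      · push Not at hex
        obtain ⟨e₁, e₂, e₃, h12, h13, h23, hs⟩ := star_off hG v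
        exact ⟨e₁, e₂, e₃, h12, h13, h23, hs, hex e₂ ((hs _).2 (by simp)),
          hex e₃ ((hs _).2 (by simp))⟩
    refine ⟨Function.update (Function.update col e₂ (col e₁ + 1)) e₃ (col e₁ + 2),
      fun w hw e f he hf hef => ?_⟩
    by_cases hwv : w = v
    · subst hwv
      have c1 : Function.update (Function.update col e₂ (col e₁ + 1)) e₃ (col e₁ + 2) e₁ =
          col e₁ := by
        rw [Function.update_of_ne h13, Function.update_of_ne h12]
      have c2 : Function.update (Function.update col e₂ (col e₁ + 1)) e₃ (col e₁ + 2) e₂ =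
          col e₁ + 1 := by
        rw [Function.update_of_ne h23, Function.update_self]
      have c3 : Function.update (Function.update col e₂ (col e₁ + 1)) e₃ (col e₁ + 2) e₃ =
          col e₁ + 2 := by
        rw [Function.update_self]
      have q1 : ∀ x : ZMod 3, x ≠ x + 1 := by decide
      have q2 : ∀ x : ZMod 3, x ≠ x + 2 := by decide
      have q3 : ∀ x : ZMod 3, x + 1 ≠ x + 2 := by decide
      rcases (hs e).1 he with rfl | rfl | rfl <;> rcases (hs f).1 hf with rfl | rfl | rfl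
      · exact absurd rfl hef
      · rw [c1, c2]; exact q1 _
      · rw [c1, c3]; exact q2 _
      · rw [c1, c2]; exact (q1 _).symm
      · exact absurd rfl hef
      · rw [c2, c3]; exact q3 _
      · rw [c1, c3]; exact (q2 _).symm
      · rw [c2, c3]; exact (q3 _).symm
      · exact absurd rfl hef
    · have ne2 : ∀ g, G.inc w g → g ≠ e₂ := fun g hg h => h2 w hw hwv (h ▸ hg)
      have ne3 : ∀ g, G.inc w g → g ≠ e₃ := fun g hg h => h3 w hw hwv (h ▸ hg)
      rw [Function.update_of_ne (ne3 e he), Function.update_of_ne (ne2 e he),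
        Function.update_of_ne (ne3 f hf), Function.update_of_ne (ne2 f hf)]
      exact hcol w ⟨hw, hwv⟩ e f he hf hef

end Pool.Agent.CDC
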