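import Pool.Agent.CDC.ArcRun

/-!
# Three arcs with chords: the main claim

Three lists `A`, `B`, `C` in which every chord (pair `z`, `M z`) occurs exactly twice.
-/

set_option autoImplicit false

namespace Pool.Agent.CDC.Arc

variable {V : Type} {M : V → V} {A B C : List V}

/-- the elements of the three lists -/
def Act (A B C : List V) (z : V) : Prop := z ∈ A ∨ z ∈ B ∨ z ∈ C

/-- three lists with a fixed point free involution on their elements -/
structure Inst (M : V → V) (A B C : List V) : Prop where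
  na : A.Nodup
  nb : B.Nodup
  nc : C.Nodup
  ab : ∀ z ∈ A, z ∉ B
  ac : ∀ z ∈ A, z ∉ C
  bc : ∀ z ∈ B, z ∉ C
  cl : ∀ z, Act A B C z → Act A B C (M z)
  inv : ∀ z, Act A B C z → M (M z) = z
  ne : ∀ z, Act A B C z → M z ≠ z

theorem act12 {z : V} : Act A B C z ↔ Act B A C z := by unfold Act; tauto

theorem act23 {z : V} : Act A B C z ↔ Act A C B z := by unfold Act; tauto

theorem act_rev {z : V} : Act A B C z ↔ Act A.reverse B C z := by
  unfold Act; rw [List.mem_reverse]

theorem Inst.swap12 (h : Inst M A B C) : Inst M B A C where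
  na := h.nb
  nb := h.na
  nc := h.nc
  ab z hz hz' := h.ab z hz' hz
  ac := h.bc
  bc := h.ac
  cl z hz := act12.1 (h.cl z (act12.2 hz))
  inv z hz := h.inv z (act12.2 hz)
  ne z hz := h.ne z (act12.2 hz)

theorem Inst.swap23 (h : Inst M A B C) : Inst M A C B where
  na := h.na
  nb := h.nc
  nc := h.nb
  ab := h.ac
  ac := h.ab
  bc z hz hz' := h.bc z hz' hz
  cl z hz := act23.1 (h.cl z (act23.2 hz))
  inv z hz := h.inv z (act23.2 hz)
  ne z hz := h.ne z (act23.2 hz)

theorem Inst.rev (h : Inst M A B C) : Inst M A.reverse B C where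
  na := List.nodup_reverse.2 h.na
  nb := h.nb
  nc := h.nc
  ab z hz := h.ab z (List.mem_reverse.1 hz)
  ac z hz := h.ac z (List.mem_reverse.1 hz)
  bc := h.bc
  cl z hz := act_rev.1 (h.cl z (act_rev.2 hz))
  inv z hz := h.inv z (act_rev.2 hz)
  ne z hz := h.ne z (act_rev.2 hz)

/-- the list `A` has exactly one chord to other lists, and it goes to `B` -/
def Leaf (M : V → V) (A B : List V) : Prop := ∃ x ∈ A, M x ∈ B ∧ ∀ z ∈ A, z ≠ x → M z ∈ A

/-- one pair of lists found by Kotzig's theorem -/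
theorem leaf_of {X : Set V} (h : Inst M A B C)
    (hA : (∀ z ∈ A, z ∈ X) ∨ ∀ z ∈ A, z ∉ X) (hB : (∀ z ∈ B, z ∈ X) ∨ ∀ z ∈ B, z ∉ X)
    (hC : (∀ z ∈ C, z ∈ X) ∨ ∀ z ∈ C, z ∉ X) (v : V) (hvX : v ∈ X) (hMvX : M v ∉ X)
    (hX : ∀ z, Act A B C z → z ∈ X → z ≠ v → M z ∈ X) (hv : v ∈ A) (hMv : M v ∈ B) :
    Leaf M A B ∨ Leaf M B A := by
  have hA' : ∀ z ∈ A, z ∈ X := by
    rcases hA with h | h
    · exact h
    · exact absurd hvX (h v hv)
  have hB' : ∀ z ∈ B, z ∉ X := by
    rcases hB with h | h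
    · exact absurd (h _ hMv) hMvX
    · exact h
  rcases hC with hC | hC
  · right
    refine ⟨M v, hMv, ?_, fun z hz hzv => ?_⟩
    · rw [h.inv v (Or.inl hv)]; exact hv
    · have hact := h.cl z (Or.inr (Or.inl hz))
      by_contra hcon
      have hMz : M z ∈ X := by
        rcases hact with h1 | h1 | h1
        · exact hA' _ h1
        · exact absurd h1 hcon
        · exact hC _ h1
      have hne : M z ≠ v := by
        intro h1
        apply hzv
        rw [← h1, h.inv z (Or.inr (Or.inl hz))]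
      have h2 := hX (M z) hact hMz hne
      rw [h.inv z (Or.inr (Or.inl hz))] at h2
      exact hB' z hz h2
  · left
    refine ⟨v, hv, hMv, fun z hz hzv => ?_⟩
    have hMz := hX z (Or.inl hz) (hA' z hz) hzv
    rcases h.cl z (Or.inl hz) with h1 | h1 | h1
    · exact h1
    · exact absurd hMz (hB' _ h1)
    · exact absurd hMz (hC _ h1)

/-- the three cases of the induction -/
theorem red (h : Inst M A B C) : (A = [] ∧ B = [] ∧ C = []) ∨
    (∃ (Z : Set V) (A' B' C' : List V), Del Z A A' ∧ Del Z B B' ∧ Del Z C C' ∧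
      (∀ z, Act A B C z → z ∈ Z → M z ∈ Z) ∧ ∃ z ∈ Z, Act A B C z) ∨
    (Leaf M A B ∨ Leaf M A C ∨ Leaf M B A ∨ Leaf M B C ∨ Leaf M C A ∨ Leaf M C B) := by
  classical
  by_cases hemp : ∃ z, Act A B C z
  · right
    let W := {z : V // Act A B C z}
    have : Nonempty W := by
      obtain ⟨z, hz⟩ := hemp
      exact ⟨⟨z, hz⟩⟩
    have : Finite W := by
      have : {z : V | Act A B C z} ⊆ ↑((A ++ B ++ C).toFinset) := by
        intro z hz
        simp only [List.coe_toFinset, Set.mem_ofPred_eq, List.mem_append]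
        rcases hz with h | h | h
        · exact Or.inl (Or.inl h)
        · exact Or.inl (Or.inr h)
        · exact Or.inr h
      exact ((Finset.finite_toSet _).subset this).to_subtype
    let E : W → W → Prop := fun x y => Adj A x.1 y.1 ∨ Adj B x.1 y.1 ∨ Adj C x.1 y.1
    let M' : W → W := fun x => ⟨M x.1, h.cl x.1 x.2⟩
    by_cases hno : ∃ (Z : Set W) (ν : W → W), Z.Nonempty ∧ (∀ z ∈ Z, M' z ∈ Z) ∧
        ∀ z ∈ Z, ν z ∈ Z ∧ ν (ν z) = z ∧ E z (ν z)
    · left
      obtain ⟨Z, ν, hZ1, hZ2, hZ3⟩ := hno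
      let Z' : Set V := {z | ∃ hz : Act A B C z, (⟨z, hz⟩ : W) ∈ Z}
      let ν' : V → V := fun z => if hz : Act A B C z then (ν ⟨z, hz⟩).1 else z
      have hν' : ∀ z (hz : Act A B C z), ν' z = (ν ⟨z, hz⟩).1 := fun z hz => dif_pos hz
      have key : ∀ z ∈ Z', ν' z ∈ Z' ∧ ν' (ν' z) = z ∧
          (Adj A z (ν' z) ∨ Adj B z (ν' z) ∨ Adj C z (ν' z)) := by
        rintro z ⟨hz, hzZ⟩
        obtain ⟨h1, h2, h3⟩ := hZ3 _ hzZ
        have h4 : ν' (ν' z) = z := by
          rw [hν' z hz, hν' _ (ν ⟨z, hz⟩).2, Subtype.coe_eta, h2]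
        refine ⟨?_, h4, ?_⟩
        · rw [hν' z hz]
          exact ⟨(ν ⟨z, hz⟩).2, by rw [Subtype.coe_eta]; exact h1⟩
        · rw [hν' z hz]
          exact h3
      obtain ⟨A', hA'⟩ := exists_del (Z := Z') (ν := ν') _ A le_rfl h.na (by
        intro z hz hzZ
        obtain ⟨h1, h2, h3⟩ := key z hzZ
        refine ⟨h1, h2, ?_⟩
        rcases h3 with h3 | h3 | h3
        · exact h3
        · exact absurd h3.left (h.ab z hz)
        · exact absurd h3.left (h.ac z hz))
      obtain ⟨B', hB'⟩ := exists_del (Z := Z') (ν := ν') _ B le_rfl h.nb (by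
        intro z hz hzZ
        obtain ⟨h1, h2, h3⟩ := key z hzZ
        refine ⟨h1, h2, ?_⟩
        rcases h3 with h3 | h3 | h3
        · exact absurd hz (h.ab z h3.left)
        · exact h3
        · exact absurd h3.left (h.bc z hz))
      obtain ⟨C', hC'⟩ := exists_del (Z := Z') (ν := ν') _ C le_rfl h.nc (by
        intro z hz hzZ
        obtain ⟨h1, h2, h3⟩ := key z hzZ
        refine ⟨h1, h2, ?_⟩
        rcases h3 with h3 | h3 | h3
        · exact absurd hz (h.ac z h3.left)
        · exact absurd hz (h.bc z h3.left)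
        · exact h3)
      refine ⟨Z', A', B', C', hA', hB', hC', ?_, ?_⟩
      · rintro z hz ⟨hz', hzZ⟩
        exact ⟨h.cl z hz', hZ2 _ hzZ⟩
      · obtain ⟨z, hz⟩ := hZ1
        exact ⟨z.1, ⟨z.2, hz⟩, z.2⟩
    · right
      obtain ⟨X, v, h1, h2, h3, h4⟩ := kotzig E (by
          rintro x y (h | h | h)
          · exact Or.inl h.symm
          · exact Or.inr (Or.inl h.symm)
          · exact Or.inr (Or.inr h.symm)) M' (fun v => Subtype.ext (h.inv v.1 v.2))
          (fun v hv => h.ne v.1 v.2 (congrArg Subtype.val hv)) hno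
      let X' : Set V := {z | ∃ hz : Act A B C z, (⟨z, hz⟩ : W) ∈ X}
      have hE : ∀ z y, z ∈ X' → (Adj A z y ∨ Adj B z y ∨ Adj C z y) → y ∈ X' := by
        rintro z y ⟨hz, hzX⟩ hzy
        have hy : Act A B C y := by
          rcases hzy with h | h | h
          · exact Or.inl h.right
          · exact Or.inr (Or.inl h.right)
          · exact Or.inr (Or.inr h.right)
        exact ⟨hy, h4 _ hzX ⟨y, hy⟩ hzy⟩
      have hA := all_or_none (X := X') (l := A) (fun z hz y hzy => hE z y hz (Or.inl hzy))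
      have hB := all_or_none (X := X') (l := B) (fun z hz y hzy => hE z y hz (Or.inr (Or.inl hzy)))
      have hC := all_or_none (X := X') (l := C) (fun z hz y hzy => hE z y hz (Or.inr (Or.inr hzy)))
      have hvX : v.1 ∈ X' := ⟨v.2, h1⟩
      have hMvX : M v.1 ∉ X' := by
        rintro ⟨hz, hzX⟩
        exact h2 hzX
      have hX : ∀ z, Act A B C z → z ∈ X' → z ≠ v.1 → M z ∈ X' := by
        rintro z hz ⟨hz', hzX⟩ hzv
        exact ⟨h.cl z hz, h3 _ hzX (fun h => hzv (congrArg Subtype.val h))⟩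
      have hvv : ∀ {L : List V}, ((∀ z ∈ L, z ∈ X') ∨ ∀ z ∈ L, z ∉ X') → v.1 ∈ L → M v.1 ∈ L →
          False := by
        rintro L (hL | hL) hv hMv
        · exact hMvX (hL _ hMv)
        · exact hL _ hv hvX
      rcases v.2 with hv | hv | hv <;> rcases h.cl _ v.2 with hMv | hMv | hMv
      · exact (hvv hA hv hMv).elim
      · rcases leaf_of h hA hB hC v.1 hvX hMvX hX hv hMv with h | h
        · exact Or.inl h
        · exact Or.inr (Or.inr (Or.inl h))
      · rcases leaf_of h.swap23 hA hC hB v.1 hvX hMvX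
          (fun z hz => hX z (act23.2 hz)) hv hMv with h | h
        · exact Or.inr (Or.inl h)
        · exact Or.inr (Or.inr (Or.inr (Or.inr (Or.inl h))))
      · rcases leaf_of h.swap12 hB hA hC v.1 hvX hMvX
          (fun z hz => hX z (act12.2 hz)) hv hMv with h | h
        · exact Or.inr (Or.inr (Or.inl h))
        · exact Or.inl h
      · exact (hvv hB hv hMv).elim
      · rcases leaf_of h.swap12.swap23 hB hC hA v.1 hvX hMvX
          (fun z hz => hX z (act12.2 (act23.2 hz))) hv hMv with h | h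
        · exact Or.inr (Or.inr (Or.inr (Or.inl h)))
        · exact Or.inr (Or.inr (Or.inr (Or.inr (Or.inr h))))
      · rcases leaf_of h.swap23.swap12 hC hA hB v.1 hvX hMvX
          (fun z hz => hX z (act23.2 (act12.2 hz))) hv hMv with h | h
        · exact Or.inr (Or.inr (Or.inr (Or.inr (Or.inl h))))
        · exact Or.inr (Or.inl h)
      · rcases leaf_of h.swap23.swap12.swap23 hC hB hA v.1 hvX hMvX
          (fun z hz => hX z (act23.2 (act12.2 (act23.2 hz)))) hv hMv with h | h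
        · exact Or.inr (Or.inr (Or.inr (Or.inr (Or.inr h))))
        · exact Or.inr (Or.inr (Or.inr (Or.inl h)))
      · exact (hvv hC hv hMv).elim
  · left
    refine ⟨?_, ?_, ?_⟩
    · exact List.eq_nil_iff_forall_not_mem.2 (fun z hz => hemp ⟨z, Or.inl hz⟩)
    · exact List.eq_nil_iff_forall_not_mem.2 (fun z hz => hemp ⟨z, Or.inr (Or.inl hz)⟩)
    · exact List.eq_nil_iff_forall_not_mem.2 (fun z hz => hemp ⟨z, Or.inr (Or.inr hz)⟩)

/-- deleting pairs -/
theorem Inst.del (h : Inst M A B C) {Z : Set V} {A' B' C' : List V} (hA : Del Z A A')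
    (hB : Del Z B B') (hC : Del Z C C') (hZ : ∀ z, Act A B C z → z ∈ Z → M z ∈ Z) :
    Inst M A' B' C' := by
  have hact : ∀ z, Act A' B' C' z ↔ Act A B C z ∧ z ∉ Z := by
    intro z
    unfold Act
    rw [hA.mem, hB.mem, hC.mem]
    tauto
  refine ⟨hA.sublist.nodup h.na, hB.sublist.nodup h.nb, hC.sublist.nodup h.nc, ?_, ?_, ?_, ?_,
    ?_, ?_⟩
  · intro z hz hz'
    exact h.ab z ((hA.mem z).1 hz).1 ((hB.mem z).1 hz').1
  · intro z hz hz'
    exact h.ac z ((hA.mem z).1 hz).1 ((hC.mem z).1 hz').1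
  · intro z hz hz'
    exact h.bc z ((hB.mem z).1 hz).1 ((hC.mem z).1 hz').1
  · intro z hz
    rw [hact] at hz ⊢
    refine ⟨h.cl z hz.1, fun hMZ => hz.2 ?_⟩
    have := hZ _ (h.cl z hz.1) hMZ
    rwa [h.inv z hz.1] at this
  · intro z hz
    exact h.inv z ((hact z).1 hz).1
  · intro z hz
    exact h.ne z ((hact z).1 hz).1

/-- a list with exactly one chord to other lists has odd length -/
theorem Inst.odd (h : Inst M A B C) {x : V} (hx : x ∈ A) (hMx : M x ∈ B)
    (hA : ∀ z ∈ A, z ≠ x → M z ∈ A) : A.length % 2 = 1 := by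
  classical
  have h1 : ∑ z ∈ A.toFinset.erase x, (1 : ZMod 2) = 0 := by
    refine Finset.sum_involution (fun z _ => M z) ?_ ?_ ?_ ?_
    · intro z _; decide
    · intro z hz _
      exact h.ne z (Or.inl (List.mem_toFinset.1 (Finset.mem_of_mem_erase hz)))
    · intro z hz
      rw [Finset.mem_erase, List.mem_toFinset] at hz ⊢
      refine ⟨?_, hA z hz.2 hz.1⟩
      intro he
      have : z = M x := by rw [← he, h.inv z (Or.inl hz.2)]
      exact h.ab z hz.2 (this ▸ hMx)
    · intro z hz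
      exact h.inv z (Or.inl (List.mem_toFinset.1 (Finset.mem_of_mem_erase hz)))
  rw [Finset.sum_const, nsmul_eq_mul, mul_one, ZMod.natCast_eq_zero_iff_even] at h1
  have h2 := Finset.card_erase_add_one (List.mem_toFinset.2 hx)
  rw [List.toFinset_card_of_nodup h.na] at h2
  rw [Nat.even_iff] at h1
  omega

/-- removing a list with one outgoing chord -/
theorem Inst.leaf (h : Inst M A B C) {x : V} (hx : x ∈ A) {B' B'' : List V}
    (hB : B = B' ++ M x :: B'') (hA : ∀ z ∈ A, z ≠ x → M z ∈ A) : Inst M B' B'' C := by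
  subst hB
  have hact : ∀ z, Act B' B'' C z → Act A (B' ++ M x :: B'') C z ∧ z ∉ A ∧ z ≠ M x := by
    intro z hz
    have hn := h.nb
    rw [List.nodup_append, List.nodup_cons] at hn
    rcases hz with hz | hz | hz
    · refine ⟨Or.inr (Or.inl (by simp [hz])), fun h' => h.ab z h' (by simp [hz]), ?_⟩
      exact hn.2.2 z hz _ (by simp)
    · refine ⟨Or.inr (Or.inl (by simp [hz])), fun h' => h.ab z h' (by simp [hz]), ?_⟩
      rintro rfl
      exact hn.2.1.1 hz
    · refine ⟨Or.inr (Or.inr hz), fun h' => h.ac z h' hz, ?_⟩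
      rintro rfl
      exact h.bc (M x) (by simp) hz
  have hact' : ∀ z, Act A (B' ++ M x :: B'') C z → z ∉ A → z ≠ M x → Act B' B'' C z := by
    rintro z (hz | hz | hz) h1 h2
    · exact absurd hz h1
    · rw [List.mem_append, List.mem_cons] at hz
      rcases hz with hz | hz | hz
      · exact Or.inl hz
      · exact absurd hz h2
      · exact Or.inr (Or.inl hz)
    · exact Or.inr (Or.inr hz)
  have hn := h.nb
  rw [List.nodup_append, List.nodup_cons] at hn
  refine ⟨hn.1, hn.2.1.2, h.nc, ?_, ?_, ?_, ?_, ?_, ?_⟩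
  · intro z hz hz'
    exact hn.2.2 z hz z (by simp [hz']) rfl
  · intro z hz
    exact h.bc z (by simp [hz])
  · intro z hz
    exact h.bc z (by simp [hz])
  · intro z hz
    obtain ⟨h1, h2, h3⟩ := hact z hz
    refine hact' _ (h.cl z h1) ?_ ?_
    · intro hMz
      by_cases hzx : M z = x
      · exact h3 (by rw [← hzx, h.inv z h1])
      · have := hA _ hMz hzx
        rw [h.inv z h1] at this
        exact h2 this
    · intro hMz
      apply h2
      have : z = M (M x) := by rw [← hMz, h.inv z h1]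
      rw [this, h.inv x (Or.inl hx)]
      exact hx
  · intro z hz
    exact h.inv z (hact z hz).1
  · intro z hz
    exact h.ne z (hact z hz).1

/-! ### the two claims -/

/-- the three arcs join three vertices `a`, `b`, `c`, which have one more edge each, with three
different labels -/
def Tr (M : V → V) (A B C : List V) : Prop := ∃ f : V → F4,
  (∀ z, Act A B C z → f (M z) = f z) ∧ ∃ al ar bl br cl cr : F4,
    al ≠ 0 ∧ ar ≠ 0 ∧ bl ≠ 0 ∧ br ≠ 0 ∧ cl ≠ 0 ∧ cr ≠ 0 ∧ al ≠ ar ∧ bl ≠ br ∧ cl ≠ cr ∧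
    al + ar ≠ bl + br ∧ al + ar ≠ cl + cr ∧ bl + br ≠ cl + cr ∧
    Run f ar 0 A bl 0 ∧ Run f br 0 B cl 0 ∧ Run f cr 0 C al 0

/-- the three arcs join two vertices -/
def Th (M : V → V) (A B C : List V) : Prop := ∃ f : V → F4,
  (∀ z, Act A B C z → f (M z) = f z) ∧ ∃ a b c a' b' c' : F4,
    a ≠ 0 ∧ b ≠ 0 ∧ c ≠ 0 ∧ a ≠ b ∧ a ≠ c ∧ b ≠ c ∧
    a' ≠ 0 ∧ b' ≠ 0 ∧ c' ≠ 0 ∧ a' ≠ b' ∧ a' ≠ c' ∧ b' ≠ c' ∧
    Run f a 0 A a' 0 ∧ Run f b 0 B b' 0 ∧ Run f c 0 C c' 0

theorem Th.swap12 (h : Th M B A C) : Th M A B C := by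
  obtain ⟨f, hf, a, b, c, a', b', c', h1, h2, h3, h4, h5, h6, h7, h8, h9, h10, h11, h12, h13, h14,
    h15⟩ := h
  exact ⟨f, fun z hz => hf z (act12.1 hz), b, a, c, b', a', c', h2, h1, h3, h4.symm, h6, h5, h8,
    h7, h9, h10.symm, h12, h11, h14, h13, h15⟩

theorem Th.swap23 (h : Th M A C B) : Th M A B C := by
  obtain ⟨f, hf, a, b, c, a', b', c', h1, h2, h3, h4, h5, h6, h7, h8, h9, h10, h11, h12, h13, h14,
    h15⟩ := h
  exact ⟨f, fun z hz => hf z (act23.1 hz), a, c, b, a', c', b', h1, h3, h2, h5, h4, h6.symm, h7,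
    h9, h8, h11, h10, h12.symm, h13, h15, h14⟩

theorem Tr.rot (h : Tr M B C A) : Tr M A B C := by
  obtain ⟨f, hf, al, ar, bl, br, cl, cr, h1, h2, h3, h4, h5, h6, h7, h8, h9, h10, h11, h12, h13,
    h14, h15⟩ := h
  exact ⟨f, fun z hz => hf z (by unfold Act at *; tauto), cl, cr, al, ar, bl, br, h5, h6, h1, h2,
    h3, h4, h9, h7, h8, h11.symm, h12.symm, h10, h15, h13, h14⟩

theorem Tr.refl (h : Tr M C.reverse B.reverse A.reverse) : Tr M A B C := by
  obtain ⟨f, hf, al, ar, bl, br, cl, cr, h1, h2, h3, h4, h5, h6, h7, h8, h9, h10, h11, h12, h13,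
    h14, h15⟩ := h
  refine ⟨f, fun z hz => hf z ?_, ar, al, cr, cl, br, bl, h2, h1, h6, h5, h4, h3, h7.symm,
    h9.symm, h8.symm, ?_, ?_, ?_, ?_, ?_, ?_⟩
  · unfold Act at *
    rw [List.mem_reverse, List.mem_reverse, List.mem_reverse]
    tauto
  · rw [add_comm ar, add_comm cr]; exact h11
  · rw [add_comm ar, add_comm br]; exact h10
  · rw [add_comm cr, add_comm br]; exact h12.symm
  · have := run_reverse h6 h15
    rwa [List.reverse_reverse] at this
  · have := run_reverse h4 h14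
    rwa [List.reverse_reverse] at this
  · have := run_reverse h2 h13
    rwa [List.reverse_reverse] at this

/-- closing up a leaf -/
theorem leaf_label (h : Inst M A B C) {x : V} (hx : x ∈ A) {B' B'' : List V}
    (hB : B = B' ++ M x :: B'') (hA : ∀ z ∈ A, z ≠ x → M z ∈ A) (f : V → F4) (c : F4)
    (hc : c ≠ 0) (hf : ∀ z, Act B' B'' C z → f (M z) = f z) :
    ∃ g : V → F4, (∀ z, Act A B C z → g (M z) = g z) ∧
      (∀ s s', s ≠ 0 → s' ≠ 0 → s + s' = c → Run g s 0 A s' 0) ∧
      (∀ s p q s', p ≠ 0 → q ≠ 0 → p + q = c → Run f s 0 B' p 0 → Run f q 0 B'' s' 0 →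
        Run g s 0 B s' 0) ∧
      ∀ s s', Run f s 0 C s' 0 → Run g s 0 C s' 0 := by
  classical
  have hodd := h.odd hx (by rw [hB]; simp) hA
  subst hB
  have hMx : M x ∉ A := fun h' => h.ab _ h' (by simp)
  have hn := h.nb
  rw [List.nodup_append, List.nodup_cons] at hn
  refine ⟨fun z => if z ∈ A ∨ z = M x then c else f z, ?_, ?_, ?_, ?_⟩
  · intro z hz
    have hinv := h.inv z hz
    have hiff : (M z ∈ A ∨ M z = M x) ↔ (z ∈ A ∨ z = M x) := by
      constructor
      · rintro (h1 | h1)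
        · by_cases hzx : M z = x
          · right; rw [← hzx, hinv]
          · left
            have := hA _ h1 hzx
            rwa [hinv] at this
        · left
          have : z = M (M x) := by rw [← h1, hinv]
          rw [this, h.inv x (Or.inl hx)]
          exact hx
      · rintro (h1 | h1)
        · by_cases hzx : z = x
          · right; rw [hzx]
          · left; exact hA z h1 hzx
        · left; rw [h1, h.inv x (Or.inl hx)]; exact hx
    show (if M z ∈ A ∨ M z = M x then c else f (M z)) = if z ∈ A ∨ z = M x then c else f z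
    by_cases h1 : z ∈ A ∨ z = M x
    · rw [if_pos h1, if_pos (hiff.2 h1)]
    · rw [if_neg h1, if_neg (fun h2 => h1 (hiff.1 h2))]
      push Not at h1
      apply hf
      rcases hz with hz | hz | hz
      · exact absurd hz h1.1
      · rw [List.mem_append, List.mem_cons] at hz
        rcases hz with hz | hz | hz
        · exact Or.inl hz
        · exact absurd hz h1.2
        · exact Or.inr (Or.inl hz)
      · exact Or.inr (Or.inr hz)
  · intro s s' hs hs' hss
    have h1 : s ≠ c := by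
      rintro rfl
      apply hs'
      have : ∀ a b : F4, a + b = a → b = 0 := by decide
      exact this _ _ hss
    have h2 : s' = s + c := by
      rw [← hss, ← add_assoc, f4_add_self, zero_add]
    rw [h2]
    exact run_const hc (fun z hz => if_pos (Or.inl hz)) hodd hs h1
  · intro s p q s' hp hq hpq h1 h2
    have hgy : (fun z => if z ∈ A ∨ z = M x then c else f z) (M x) = c := if_pos (Or.inr rfl)
    rw [run_append]
    refine ⟨p, 0, run_congr ?_ h1, Or.inr ⟨?_, rfl, ?_, ?_⟩⟩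
    · intro z hz
      refine (if_neg ?_).symm
      rintro (h' | h')
      · exact h.ab z h' (by simp [hz])
      · exact hn.2.2 z hz _ (by simp) h'
    · rw [hgy]; exact hc
    · rw [hgy, ← hpq, ← add_assoc, f4_add_self, zero_add]; exact hq
    · rw [hgy, ← hpq, ← add_assoc, f4_add_self, zero_add]
      refine run_congr ?_ h2
      intro z hz
      refine (if_neg ?_).symm
      rintro (h' | h')
      · exact h.ab z h' (by simp [hz])
      · rw [h'] at hz
        exact hn.2.1.1 hz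
  · intro s s' h1
    refine run_congr ?_ h1
    intro z hz
    refine (if_neg ?_).symm
    rintro (h' | h')
    · exact h.ac z h' hz
    · rw [h'] at hz
      exact h.bc (M x) (by simp) hz

theorem Tr_of_leaf (h : Inst M A B C) {x : V} (hx : x ∈ A) {B' B'' : List V}
    (hB : B = B' ++ M x :: B'') (hA : ∀ z ∈ A, z ≠ x → M z ∈ A)
    (hT : Th M B' B''.reverse C) : Tr M A B C := by
  obtain ⟨f, hf, p, q, r, p', q', r', h1, h2, h3, h4, h5, h6, h7, h8, h9, h10, h11, h12, h13, h14,
    h15⟩ := hT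
  obtain ⟨g, hg, k1, k2, k3⟩ := leaf_label h hx hB hA f r' h9 (fun z hz => hf z (by
    unfold Act at *
    rw [List.mem_reverse]
    exact hz))
  have key1 : ∀ p r' : F4, ∃ bl : F4, bl ≠ 0 ∧ bl ≠ r' ∧ bl ≠ p := by decide
  have key2 : ∀ a b c : F4, a ≠ 0 → b ≠ 0 → c ≠ 0 → a ≠ b → a ≠ c → b ≠ c → b + c = a := by
    decide
  have key3 : ∀ r' bl : F4, bl ≠ 0 → r' ≠ r' + bl := by decide
  have key4 : ∀ p r' bl : F4, p ≠ 0 → r' + (r' + bl) ≠ bl + p := by decide
  have key5 : ∀ p r' bl : F4, bl ≠ p → r' + (r' + bl) ≠ p := by decide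
  have key6 : ∀ p bl : F4, bl ≠ 0 → bl + p ≠ p := by decide
  obtain ⟨bl, m1, m2, m3⟩ := key1 p r'
  have m4 : r' + bl ≠ 0 := f4_add_ne _ _ m2.symm
  have m5 := key3 r' bl m1
  have m6 := key4 p r' bl h1
  have m7 := key5 p r' bl m3
  have m8 := key6 p bl m1
  have m9 : (r' + bl) + bl = r' := f4_add_add _ _
  have hqr := key2 _ _ _ h1 h2 h3 h4 h5 h6
  have hpq : p' + q' = r' := by
    have : ∀ a b c : F4, a ≠ 0 → b ≠ 0 → c ≠ 0 → a ≠ b → a ≠ c → b ≠ c → a + b = c := by decide
    exact this _ _ _ h7 h8 h9 h10 h11 h12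
  have h14' := run_reverse h2 h14
  rw [List.reverse_reverse] at h14'
  exact ⟨g, hg, r', r' + bl, bl, p, q, r, h9, m4, m1, h1, h2, h3, m5, m3, h6, m6, hqr ▸ m7,
    hqr ▸ m8, k1 _ _ m4 m1 m9, k2 _ _ _ _ h7 h8 hpq h13 h14', k3 _ _ h15⟩

theorem Th_of_leaf (h : Inst M A B C) {x : V} (hx : x ∈ A) {B' B'' : List V}
    (hB : B = B' ++ M x :: B'') (hA : ∀ z ∈ A, z ≠ x → M z ∈ A)
    (hT : Tr M B' B'' C.reverse) : Th M A B C := by
  obtain ⟨f, hf, al, ar, bl, br, cl, cr, h1, h2, h3, h4, h5, h6, h7, h8, h9, h10, h11, h12, h13,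
    h14, h15⟩ := hT
  obtain ⟨g, hg, k1, k2, k3⟩ := leaf_label h hx hB hA f (bl + br) (f4_add_ne _ _ h8)
    (fun z hz => hf z (by
      unfold Act at *
      rw [List.mem_reverse]
      exact hz))
  have h15' := run_reverse h6 h15
  rw [List.reverse_reverse] at h15'
  have key : ∀ a b c : F4, a ≠ 0 → b ≠ 0 → c ≠ 0 → a ≠ b → a ≠ c → b ≠ c → a + c = b := by decide
  have key2 : ∀ a b : F4, a ≠ 0 → b ≠ 0 → a + b ≠ a ∧ a + b ≠ b := by decide
  refine ⟨g, hg, al + ar, ar, al, cl + cr, cl, cr, f4_add_ne _ _ h7, h2, h1, (key2 _ _ h1 h2).2,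
    (key2 _ _ h1 h2).1, h7.symm, f4_add_ne _ _ h9, h5, h6, (key2 _ _ h5 h6).1,
    (key2 _ _ h5 h6).2, h9, k1 _ _ (f4_add_ne _ _ h7) (f4_add_ne _ _ h9) ?_,
    k2 _ _ _ _ h3 h4 rfl h13 h14, k3 _ _ h15'⟩
  exact key _ _ _ (f4_add_ne _ _ h7) (f4_add_ne _ _ h8) (f4_add_ne _ _ h9) h10 h11 h12

theorem leaf_split {x : V} (h : M x ∈ B) : ∃ B' B'', B = B' ++ M x :: B'' :=
  List.append_of_mem h

/-- **main claim** -/
theorem arcs_main (N : ℕ) : ∀ A B C : List V, A.length + B.length + C.length ≤ N →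
    Inst M A B C → Tr M A B C ∧ Th M A B C := by
  induction N using Nat.strong_induction_on with
  | _ N ih =>
  intro A B C hN h
  have trl : ∀ A B C : List V, A.length + B.length + C.length ≤ N → Inst M A B C → Leaf M A B →
      Tr M A B C := by
    rintro A B C hN h ⟨x, hx, hMx, hA⟩
    obtain ⟨B', B'', hB⟩ := leaf_split hMx
    have hi := h.leaf hx hB hA
    refine Tr_of_leaf h hx hB hA (ih (B'.length + B''.length + C.length) ?_ _ _ _ ?_
      hi.swap12.rev.swap12).2
    · rw [hB, List.length_append, List.length_cons] at hN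
      omega
    · rw [List.length_reverse]
  have thl : ∀ A B C : List V, A.length + B.length + C.length ≤ N → Inst M A B C → Leaf M A B →
      Th M A B C := by
    rintro A B C hN h ⟨x, hx, hMx, hA⟩
    obtain ⟨B', B'', hB⟩ := leaf_split hMx
    have hi := h.leaf hx hB hA
    refine Th_of_leaf h hx hB hA (ih (B'.length + B''.length + C.length) ?_ _ _ _ ?_
      hi.swap23.swap12.rev.swap12.swap23).1
    · rw [hB, List.length_append, List.length_cons] at hN
      omega
    · rw [List.length_reverse]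
  have leafrev : ∀ {A B : List V}, Leaf M A B → Leaf M A.reverse B.reverse := by
    rintro A B ⟨x, hx, hMx, hA⟩
    exact ⟨x, List.mem_reverse.2 hx, List.mem_reverse.2 hMx, fun z hz hzx =>
      List.mem_reverse.2 (hA z (List.mem_reverse.1 hz) hzx)⟩
  have hrev : ∀ {A B C : List V}, Inst M A B C → Inst M C.reverse B.reverse A.reverse := fun h =>
    h.rev.swap12.rev.swap23.swap12.rev
  rcases red h with ⟨rfl, rfl, rfl⟩ | ⟨Z, A', B', C', hA', hB', hC', hZ, z₀, hz₀, hz₀'⟩ | hl
  · constructor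
    · refine ⟨fun _ => 0, fun _ _ => rfl, (1, 1), (1, 0), (1, 0), (0, 1), (0, 1), (1, 1), ?_⟩
      refine ⟨?_, ?_, ?_, ?_, ?_, ?_, ?_, ?_, ?_, ?_, ?_, ?_, ⟨rfl, rfl⟩, ⟨rfl, rfl⟩, ⟨rfl, rfl⟩⟩
        <;> decide
    · refine ⟨fun _ => 0, fun _ _ => rfl, (1, 0), (0, 1), (1, 1), (1, 0), (0, 1), (1, 1), ?_⟩
      refine ⟨?_, ?_, ?_, ?_, ?_, ?_, ?_, ?_, ?_, ?_, ?_, ?_, ⟨rfl, rfl⟩, ⟨rfl, rfl⟩, ⟨rfl, rfl⟩⟩
        <;> decide
  · classical
    have hlt : A'.length + B'.length + C'.length < N := by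
      have a1 := hA'.sublist.length_le
      have a2 := hB'.sublist.length_le
      have a3 := hC'.sublist.length_le
      rcases hz₀' with h' | h' | h'
      · have := hA'.length_lt h' hz₀
        omega
      · have := hB'.length_lt h' hz₀
        omega
      · have := hC'.length_lt h' hz₀
        omega
    obtain ⟨h1, h2⟩ := ih _ hlt A' B' C' le_rfl (h.del hA' hB' hC' hZ)
    have hact : ∀ z, Act A B C z → z ∉ Z → Act A' B' C' z := by
      intro z hz hzZ
      unfold Act
      rw [hA'.mem, hB'.mem, hC'.mem]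
      rcases hz with hz | hz | hz
      · exact Or.inl ⟨hz, hzZ⟩
      · exact Or.inr (Or.inl ⟨hz, hzZ⟩)
      · exact Or.inr (Or.inr ⟨hz, hzZ⟩)
    have key : ∀ f : V → F4, (∀ z, Act A' B' C' z → f (M z) = f z) → ∃ g : V → F4,
        (∀ z, Act A B C z → g (M z) = g z) ∧
        (∀ (L L' : List V) s s', Del Z L L' → Run f s 0 L' s' 0 → Run g s 0 L s' 0) := by
      intro f hf
      refine ⟨fun z => if z ∈ Z then 0 else f z, ?_, ?_⟩
      · intro z hz
        show (if M z ∈ Z then (0 : F4) else f (M z)) = if z ∈ Z then 0 else f z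
        by_cases hzZ : z ∈ Z
        · rw [if_pos hzZ, if_pos (hZ z hz hzZ)]
        · rw [if_neg hzZ, if_neg, hf z (hact z hz hzZ)]
          intro hMZ
          have := hZ _ (h.cl z hz) hMZ
          rw [h.inv z hz] at this
          exact hzZ this
      · intro L L' s s' hL hr
        refine hL.run (fun z hz => if_pos hz) (run_congr (fun z hz => ?_) hr)
        exact (if_neg ((hL.mem z).1 hz).2).symm
    constructor
    · obtain ⟨f, hf, al, ar, bl, br, cl, cr, k1, k2, k3, k4, k5, k6, k7, k8, k9, k10, k11, k12,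
        k13, k14, k15⟩ := h1
      obtain ⟨g, hg, hg'⟩ := key f hf
      exact ⟨g, hg, al, ar, bl, br, cl, cr, k1, k2, k3, k4, k5, k6, k7, k8, k9, k10, k11, k12,
        hg' _ _ _ _ hA' k13, hg' _ _ _ _ hB' k14, hg' _ _ _ _ hC' k15⟩
    · obtain ⟨f, hf, al, ar, bl, br, cl, cr, k1, k2, k3, k4, k5, k6, k7, k8, k9, k10, k11, k12,
        k13, k14, k15⟩ := h2
      obtain ⟨g, hg, hg'⟩ := key f hf
      exact ⟨g, hg, al, ar, bl, br, cl, cr, k1, k2, k3, k4, k5, k6, k7, k8, k9, k10, k11, k12,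
        hg' _ _ _ _ hA' k13, hg' _ _ _ _ hB' k14, hg' _ _ _ _ hC' k15⟩
  · have hN1 : B.length + A.length + C.length ≤ N := by omega
    have hN2 : A.length + C.length + B.length ≤ N := by omega
    have hN3 : B.length + C.length + A.length ≤ N := by omega
    have hN4 : C.length + A.length + B.length ≤ N := by omega
    have hN5 : C.length + B.length + A.length ≤ N := by omega
    rcases hl with hl | hl | hl | hl | hl | hl
    · exact ⟨trl A B C hN h hl, thl A B C hN h hl⟩
    · -- A → C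
      refine ⟨?_, (thl A C B hN2 h.swap23 hl).swap23⟩
      refine Tr.refl (Tr.rot (Tr.rot (trl _ _ _ ?_ ?_ (leafrev hl))))
      · rw [List.length_reverse, List.length_reverse, List.length_reverse]; exact hN2
      · exact (hrev h).swap23.swap12
    · -- B → A
      refine ⟨?_, (thl B A C hN1 h.swap12 hl).swap12⟩
      refine Tr.refl (Tr.rot (trl _ _ _ ?_ ?_ (leafrev hl)))
      · rw [List.length_reverse, List.length_reverse, List.length_reverse]; exact hN1
      · exact (hrev h).swap12.swap23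
    · -- B → C
      refine ⟨Tr.rot (trl _ _ _ hN3 h.swap12.swap23 hl), ?_⟩
      exact Th.swap12 (Th.swap23 (thl _ _ _ hN3 h.swap12.swap23 hl))
    · -- C → A
      refine ⟨Tr.rot (Tr.rot (trl _ _ _ hN4 h.swap23.swap12 hl)), ?_⟩
      exact Th.swap23 (Th.swap12 (thl _ _ _ hN4 h.swap23.swap12 hl))
    · -- C → B
      refine ⟨?_, ?_⟩
      · refine Tr.refl (trl _ _ _ ?_ (hrev h) (leafrev hl))
        rw [List.length_reverse, List.length_reverse, List.length_reverse]; exact hN5
      · exact Th.swap12 (Th.swap23 (Th.swap12 (thl _ _ _ hN5 h.swap23.swap12.swap23 hl)))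

end Pool.Agent.CDC.Arc
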