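import Mathlib

/-!
# The colours: `ZMod 2 × ZMod 2`, its alternating form and quadratic form
-/

set_option autoImplicit false

namespace Pool.Agent.CDC

open Finset

/-- the four colours -/
abbrev F4 := ZMod 2 × ZMod 2

/-- the three nonzero elements -/
def th (a : ZMod 3) : F4 := if a = 0 then (1, 0) else if a = 1 then (0, 1) else (1, 1)

/-- the alternating form -/
def om (x y : F4) : ZMod 2 := x.1 * y.2 + x.2 * y.1

/-- the quadratic form with value `1` on nonzero elements -/
def qf (x : F4) : ZMod 2 := x.1 + x.2 + x.1 * x.2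

theorem om_add_left (x y z : F4) : om (x + y) z = om x z + om y z := by
  simp only [om, Prod.fst_add, Prod.snd_add]; ring

theorem om_add_right (x y z : F4) : om x (y + z) = om x y + om x z := by
  simp only [om, Prod.fst_add, Prod.snd_add]; ring

@[simp] theorem om_zero_left (x : F4) : om 0 x = 0 := by simp [om]

@[simp] theorem om_zero_right (x : F4) : om x 0 = 0 := by simp [om]

theorem om_comm (x y : F4) : om x y = om y x := by simp only [om]; ring

@[simp] theorem qf_zero : qf 0 = 0 := by simp [qf]

theorem qf_add (x y : F4) : qf (x + y) = qf x + qf y + om x y := by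
  simp only [qf, om, Prod.fst_add, Prod.snd_add]; ring

theorem qf_th (a : ZMod 3) : qf (th a) = 1 := by revert a; decide

theorem f4_add_self (x : F4) : x + x = 0 := by revert x; decide

theorem z2_add_self (x : ZMod 2) : x + x = 0 := by revert x; decide

theorem om_sum_left {α : Type} (s : Finset α) (f : α → F4) (y : F4) :
    om (∑ i ∈ s, f i) y = ∑ i ∈ s, om (f i) y := by
  classical
  induction s using Finset.induction_on with
  | empty => simp
  | insert a s ha ih => rw [Finset.sum_insert ha, Finset.sum_insert ha, om_add_left, ih]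

theorem om_sum_right {α : Type} (s : Finset α) (x : F4) (f : α → F4) :
    om x (∑ i ∈ s, f i) = ∑ i ∈ s, om x (f i) := by
  rw [om_comm, om_sum_left]
  exact Finset.sum_congr rfl (fun i _ => om_comm _ _)

theorem sum_th (a : ZMod 3) : ∑ x : ZMod 3, th (a + x) = 0 := by revert a; decide

/-- the interaction of two sequences -/
def Om (N : ℕ) (y y' : ℕ → F4) : ZMod 2 := ∑ i ∈ range N, om (y i) (∑ j ∈ range i, y' j)

theorem Om_symm (N : ℕ) (y y' : ℕ → F4) : Om N y y' + Om N y' y =
    om (∑ i ∈ range N, y i) (∑ i ∈ range N, y' i) + ∑ i ∈ range N, om (y i) (y' i) := by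
  induction N with
  | zero => simp [Om]
  | succ N ih =>
    unfold Om at ih ⊢
    rw [Finset.sum_range_succ, Finset.sum_range_succ, Finset.sum_range_succ,
      Finset.sum_range_succ, Finset.sum_range_succ, om_add_left, om_add_right, om_add_right]
    have e1 := om_comm (y' N) (∑ j ∈ range N, y j)
    have e2 := z2_add_self (om (y N) (y' N))
    linear_combination ih + e1 - e2

theorem Om_self (N : ℕ) (y : ℕ → F4) :
    Om N y y = qf (∑ i ∈ range N, y i) + ∑ i ∈ range N, qf (y i) := by
  induction N with
  | zero => simp [Om]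
  | succ N ih =>
    unfold Om at ih ⊢
    rw [Finset.sum_range_succ, Finset.sum_range_succ, Finset.sum_range_succ, qf_add]
    have e1 := om_comm (y N) (∑ j ∈ range N, y j)
    have e2 := z2_add_self (qf (y N))
    linear_combination ih + e1 - e2

theorem Om_sum_right {α : Type} (N : ℕ) (y : ℕ → F4) (s : Finset α) (f : α → ℕ → F4) :
    Om N y (fun i => ∑ k ∈ s, f k i) = ∑ k ∈ s, Om N y (f k) := by
  unfold Om
  rw [Finset.sum_comm]
  refine Finset.sum_congr rfl (fun i _ => ?_)
  rw [Finset.sum_comm, om_sum_right]

/-- sum over a parameter on the left -/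
theorem Om_sum_left {α : Type} (N : ℕ) (y : ℕ → F4) (s : Finset α) (f : α → ℕ → F4) :
    ∑ k ∈ s, Om N (f k) y = Om N (fun i => ∑ k ∈ s, f k i) y := by
  unfold Om
  rw [Finset.sum_comm]
  refine Finset.sum_congr rfl (fun i _ => ?_)
  rw [om_sum_left]

end Pool.Agent.CDC
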