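import Pool.Agent.CDC.Kotzig
import Pool.Agent.CDC.F4

/-!
# Walks along lists of chord ends
-/

set_option autoImplicit false

namespace Pool.Agent.CDC.Arc

variable {V : Type} {f g : V → F4} {s s' : F4} {t t' : ZMod 2}

/-- the walk along a list: the label `0` changes the parity `t`, other labels are only allowed at
parity `0`, and the walk in the nonzero elements must not meet `0` -/
def Run (f : V → F4) : F4 → ZMod 2 → List V → F4 → ZMod 2 → Prop
  | s, t, [], s', t' => s = s' ∧ t = t'
  | s, t, x :: l, s', t' => (f x = 0 ∧ Run f s (t + 1) l s' t') ∨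
      (f x ≠ 0 ∧ t = 0 ∧ s + f x ≠ 0 ∧ Run f (s + f x) t l s' t')

theorem run_nil : Run f s t [] s' t' ↔ s = s' ∧ t = t' := Iff.rfl

theorem run_cons {x : V} {l : List V} : Run f s t (x :: l) s' t' ↔
    (f x = 0 ∧ Run f s (t + 1) l s' t') ∨
      (f x ≠ 0 ∧ t = 0 ∧ s + f x ≠ 0 ∧ Run f (s + f x) t l s' t') := Iff.rfl

theorem run_append {l₁ l₂ : List V} : Run f s t (l₁ ++ l₂) s' t' ↔
    ∃ m u, Run f s t l₁ m u ∧ Run f m u l₂ s' t' := by
  induction l₁ generalizing s t with
  | nil =>
    constructor
    · intro h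
      exact ⟨s, t, ⟨rfl, rfl⟩, h⟩
    · rintro ⟨m, u, ⟨rfl, rfl⟩, h⟩
      exact h
  | cons x l ih =>
    rw [List.cons_append, run_cons, ih, ih]
    constructor
    · rintro (⟨h, m, u, h1, h2⟩ | ⟨h, h', h'', m, u, h1, h2⟩)
      · exact ⟨m, u, Or.inl ⟨h, h1⟩, h2⟩
      · exact ⟨m, u, Or.inr ⟨h, h', h'', h1⟩, h2⟩
    · rintro ⟨m, u, (⟨h, h1⟩ | ⟨h, h', h'', h1⟩), h2⟩
      · exact Or.inl ⟨h, m, u, h1, h2⟩
      · exact Or.inr ⟨h, h', h'', m, u, h1, h2⟩

theorem run_congr {l : List V} (h : ∀ x ∈ l, f x = g x) :
    Run f s t l s' t' → Run g s t l s' t' := by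
  induction l generalizing s t with
  | nil => exact id
  | cons x l ih =>
    rw [run_cons, run_cons, ← h x (by simp)]
    have h' : ∀ x ∈ l, f x = g x := fun y hy => h y (List.mem_cons_of_mem _ hy)
    rintro (⟨h1, h2⟩ | ⟨h1, h2, h3, h4⟩)
    · exact Or.inl ⟨h1, ih h' h2⟩
    · exact Or.inr ⟨h1, h2, h3, ih h' h4⟩

theorem run_ne {l : List V} (hs : s ≠ 0) (h : Run f s t l s' t') : s' ≠ 0 := by
  induction l generalizing s t with
  | nil => exact h.1 ▸ hs
  | cons x l ih =>
    rcases h with ⟨-, h⟩ | ⟨-, -, h2, h3⟩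
    · exact ih hs h
    · exact ih h2 h3

theorem f4_add_add (a b : F4) : a + b + b = a := by revert a b; decide

theorem z2_add_one_one (t : ZMod 2) : t + 1 + 1 = t := by revert t; decide

theorem f4_add_ne (a b : F4) (h : a ≠ b) : a + b ≠ 0 := by revert a b; decide

theorem run_reverse {l : List V} (hs : s ≠ 0) (h : Run f s t l s' t') :
    Run f s' t' l.reverse s t := by
  induction l generalizing s t with
  | nil => exact ⟨h.1.symm, h.2.symm⟩
  | cons x l ih =>
    rw [List.reverse_cons, run_append]
    rcases h with ⟨h1, h⟩ | ⟨h1, h2, h3, h⟩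
    · exact ⟨s, t + 1, ih hs h, Or.inl ⟨h1, rfl, z2_add_one_one t⟩⟩
    · refine ⟨s + f x, t, ih h3 h, Or.inr ⟨h1, h2, ?_, ?_, rfl⟩⟩
      · rw [f4_add_add]; exact hs
      · exact f4_add_add _ _

/-- a constant label on an odd list -/
theorem run_const {c : F4} (hc : c ≠ 0) {l : List V} (hl : ∀ x ∈ l, f x = c)
    (ho : l.length % 2 = 1) (hs : s ≠ 0) (hsc : s ≠ c) : Run f s 0 l (s + c) 0 := by
  have hne : s + c ≠ 0 := f4_add_ne s c hsc
  have key : ∀ (k : ℕ) (l : List V), l.length = k → (∀ x ∈ l, f x = c) →
      Run f s 0 l (if k % 2 = 1 then s + c else s) 0 ∧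
      Run f (s + c) 0 l (if k % 2 = 1 then s else s + c) 0 := by
    intro k
    induction k with
    | zero =>
      intro l hl _
      rw [List.length_eq_zero_iff] at hl
      subst hl
      exact ⟨⟨by simp, rfl⟩, ⟨by simp, rfl⟩⟩
    | succ k ih =>
      intro l hl hlc
      obtain ⟨x, l, rfl⟩ := List.exists_cons_of_length_eq_add_one hl
      have hx : f x = c := hlc x (by simp)
      obtain ⟨h1, h2⟩ := ih l (by simpa using hl) (fun y hy => hlc y (List.mem_cons_of_mem _ hy))
      constructor
      · refine Or.inr ⟨hx ▸ hc, rfl, ?_, ?_⟩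
        · rw [hx]; exact hne
        · rw [hx]
          by_cases hk : k % 2 = 1
          · rw [if_pos hk] at h2
            rw [if_neg (by omega)]; exact h2
          · rw [if_neg hk] at h2
            rw [if_pos (by omega)]; exact h2
      · refine Or.inr ⟨hx ▸ hc, rfl, ?_, ?_⟩
        · rw [hx, f4_add_add]; exact hs
        · rw [hx, f4_add_add]
          by_cases hk : k % 2 = 1
          · rw [if_pos hk] at h1
            rw [if_neg (by omega)]; exact h1
          · rw [if_neg hk] at h1
            rw [if_pos (by omega)]; exact h1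
  have := (key _ l rfl hl).1
  rwa [if_pos ho] at this

/-! ### deleting adjacent pairs -/

/-- `l'` is obtained from `l` by deleting the elements of `Z`, which come in adjacent pairs -/
inductive Del (Z : Set V) : List V → List V → Prop
  | nil : Del Z [] []
  | keep {x : V} {l l' : List V} : x ∉ Z → Del Z l l' → Del Z (x :: l) (x :: l')
  | del {x y : V} {l l' : List V} : x ∈ Z → y ∈ Z → Del Z l l' → Del Z (x :: y :: l) l'

theorem Del.mem {Z : Set V} {l l' : List V} (h : Del Z l l') (x : V) :
    x ∈ l' ↔ x ∈ l ∧ x ∉ Z := by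
  induction h with
  | nil => simp
  | keep hx _ ih =>
    rw [List.mem_cons, List.mem_cons, ih]
    constructor
    · rintro (rfl | h)
      · exact ⟨Or.inl rfl, hx⟩
      · exact ⟨Or.inr h.1, h.2⟩
    · rintro ⟨rfl | h, h'⟩
      · exact Or.inl rfl
      · exact Or.inr ⟨h, h'⟩
  | del hx hy _ ih =>
    rw [List.mem_cons, List.mem_cons, ih]
    constructor
    · rintro ⟨h, h'⟩
      exact ⟨Or.inr (Or.inr h), h'⟩
    · rintro ⟨rfl | rfl | h, h'⟩
      · exact absurd hx h'
      · exact absurd hy h'
      · exact ⟨h, h'⟩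

theorem Del.sublist {Z : Set V} {l l' : List V} (h : Del Z l l') : l'.Sublist l := by
  induction h with
  | nil => exact List.Sublist.refl _
  | keep hx _ ih => exact ih.cons_cons _
  | del hx hy _ ih => exact (ih.cons _).cons _

theorem Del.length_lt {Z : Set V} {l l' : List V} (h : Del Z l l') {x : V} (hx : x ∈ l)
    (hxZ : x ∈ Z) : l'.length < l.length := by
  refine lt_of_le_of_ne h.sublist.length_le (fun he => ?_)
  have h1 := h.sublist.eq_of_length he
  rw [← h1] at hx
  exact ((h.mem x).1 hx).2 hxZ

theorem Del.run {Z : Set V} {l l' : List V} (h : Del Z l l') (hf : ∀ z ∈ Z, f z = 0) :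
    Run f s t l' s' t' → Run f s t l s' t' := by
  induction h generalizing s t with
  | nil => exact id
  | keep hx _ ih =>
    rintro (⟨h1, h2⟩ | ⟨h1, h2, h3, h4⟩)
    · exact Or.inl ⟨h1, ih h2⟩
    · exact Or.inr ⟨h1, h2, h3, ih h4⟩
  | del hx hy _ ih =>
    intro h
    refine Or.inl ⟨hf _ hx, Or.inl ⟨hf _ hy, ih ?_⟩⟩
    rw [z2_add_one_one]
    exact h

/-- adjacent in a list -/
def Adj (l : List V) (x y : V) : Prop := [x, y] <:+: l ∨ [y, x] <:+: l

theorem Adj.symm {l : List V} {x y : V} (h : Adj l x y) : Adj l y x := Or.symm h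

theorem Adj.left {l : List V} {x y : V} (h : Adj l x y) : x ∈ l := by
  rcases h with h | h
  · exact h.subset (by simp)
  · exact h.subset (by simp)

theorem Adj.right {l : List V} {x y : V} (h : Adj l x y) : y ∈ l := h.symm.left

theorem infix_cons {x y a : V} {l : List V} (h : [x, y] <:+: a :: l) (hx : x ≠ a) :
    [x, y] <:+: l := by
  rw [List.infix_cons_iff] at h
  rcases h with h | h
  · rw [List.cons_prefix_cons] at h
    exact absurd h.1 hx
  · exact h

theorem Adj.tail {x y a : V} {l : List V} (h : Adj (a :: l) x y) (hx : x ≠ a) (hy : y ≠ a) :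
    Adj l x y := by
  rcases h with h | h
  · exact Or.inl (infix_cons h hx)
  · exact Or.inr (infix_cons h hy)

theorem Adj.head {y a : V} {l : List V} (hn : (a :: l).Nodup) (h : Adj (a :: l) a y) :
    ∃ l', l = y :: l' := by
  have ha : a ∉ l := (List.nodup_cons.1 hn).1
  rcases h with h | h
  · rw [List.infix_cons_iff] at h
    rcases h with h | h
    · rw [List.cons_prefix_cons] at h
      obtain ⟨l', hl'⟩ := h.2
      exact ⟨l', hl'.symm⟩
    · exact absurd (h.subset (by simp)) ha
  · rw [List.infix_cons_iff] at h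
    rcases h with h | h
    · rw [List.cons_prefix_cons] at h
      exact absurd (h.2.subset (by simp)) ha
    · exact absurd (h.subset (by simp)) ha

theorem exists_del {Z : Set V} {ν : V → V} : ∀ (k : ℕ) (l : List V), l.length ≤ k → l.Nodup →
    (∀ z ∈ l, z ∈ Z → ν z ∈ Z ∧ ν (ν z) = z ∧ Adj l z (ν z)) → ∃ l', Del Z l l' := by
  intro k
  induction k with
  | zero =>
    intro l hl _ _
    have : l = [] := List.length_eq_zero_iff.1 (by omega)
    subst this
    exact ⟨[], Del.nil⟩
  | succ k ih =>
    intro l hl hn hν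
    cases l with
    | nil => exact ⟨[], Del.nil⟩
    | cons x l =>
      have hn' := List.nodup_cons.1 hn
      by_cases hx : x ∈ Z
      · obtain ⟨h1, h2, h3⟩ := hν x (by simp) hx
        obtain ⟨l₂, rfl⟩ := h3.head hn
        have hn'' := List.nodup_cons.1 hn'.2
        obtain ⟨l', hl'⟩ := ih l₂ (by simp at hl; omega) hn''.2 (by
          intro z hz hzZ
          obtain ⟨h4, h5, h6⟩ := hν z (by simp [hz]) hzZ
          refine ⟨h4, h5, ?_⟩
          have hzx : z ≠ x := by
            rintro rfl
            exact hn'.1 (by simp [hz])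
          have hzy : z ≠ ν x := by
            rintro rfl
            exact hn''.1 hz
          have hvx : ν z ≠ x := by
            intro h
            apply hzy
            rw [← h, h5]
          have hvy : ν z ≠ ν x := by
            intro h
            apply hzx
            rw [← h5, h, h2]
          exact (h6.tail hzx hvx).tail hzy hvy)
        exact ⟨l', Del.del hx h1 hl'⟩
      · obtain ⟨l', hl'⟩ := ih l (by simp at hl; omega) hn'.2 (by
          intro z hz hzZ
          obtain ⟨h4, h5, h6⟩ := hν z (by simp [hz]) hzZ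
          refine ⟨h4, h5, h6.tail ?_ ?_⟩
          · rintro rfl
            exact hx hzZ
          · intro h
            exact hx (h ▸ h4))
        exact ⟨x :: l', Del.keep hx hl'⟩

/-- a set closed under adjacency contains all elements of the list or none -/
theorem all_or_none {X : Set V} {l : List V} (h : ∀ z ∈ X, ∀ y, Adj l z y → y ∈ X) :
    (∀ z ∈ l, z ∈ X) ∨ ∀ z ∈ l, z ∉ X := by
  induction l with
  | nil => left; simp
  | cons x l ih =>
    have ih' := ih (fun z hz y hy => h z hz y (by
      rcases hy with hy | hy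
      · exact Or.inl (hy.trans (List.suffix_cons x l).isInfix)
      · exact Or.inr (hy.trans (List.suffix_cons x l).isInfix)))
    cases l with
    | nil =>
      by_cases hx : x ∈ X
      · left; simpa using hx
      · right; simpa using hx
    | cons y l =>
      have hadj : Adj (x :: y :: l) x y := Or.inl ⟨[], l, by simp⟩
      rcases ih' with ih' | ih'
      · left
        intro z hz
        rw [List.mem_cons] at hz
        rcases hz with rfl | hz
        · exact h y (ih' y (by simp)) _ hadj.symm
        · exact ih' z hz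
      · right
        intro z hz
        rw [List.mem_cons] at hz
        rcases hz with rfl | hz
        · intro hzX
          exact ih' y (by simp) (h _ hzX _ hadj)
        · exact ih' z hz

end Pool.Agent.CDC.Arc
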