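import Pool.Agent.CDC.TwoClass
import Pool.Agent.CDC.ArcMain

/-!
# An odd circuit with at least three spokes has a local solution without missed vertices, using
three spokes and chords
-/

set_option autoImplicit false

namespace Pool.Agent.CDC

open Finset Arc

section lists

variable {V : Type}

theorem run_states {f : V → F4} {l : List V} {s s' : F4} {t t' : ZMod 2}
    (h : Run f s t l s' t') : ∃ (X : ℕ → F4) (T : ℕ → ZMod 2), X 0 = s ∧ T 0 = t ∧
      X l.length = s' ∧ T l.length = t' ∧ ∀ (k : ℕ) (hk : k < l.length),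
        (f l[k] ≠ 0 → X (k + 1) ≠ 0) ∧ X (k + 1) = X k + f l[k] ∧
        T (k + 1) = T k + (if f l[k] = 0 then 1 else 0) ∧ (f l[k] ≠ 0 → T k = 0) := by
  induction l generalizing s t with
  | nil =>
    obtain ⟨rfl, rfl⟩ := h
    exact ⟨fun _ => s, fun _ => t, rfl, rfl, rfl, rfl, fun k hk => absurd hk (by simp)⟩
  | cons x l ih =>
    rcases h with ⟨h1, h⟩ | ⟨h1, h2, h3, h⟩
    · obtain ⟨X, T, a1, a2, a3, a4, a5⟩ := ih h
      refine ⟨fun k => Nat.casesOn k s X, fun k => Nat.casesOn k t T, rfl, rfl, a3, a4, ?_⟩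
      intro k hk
      cases k with
      | zero =>
        refine ⟨fun h' => absurd h1 h', ?_, ?_, fun h' => absurd h1 h'⟩
        · show X 0 = s + f x
          rw [a1, h1, add_zero]
        · show T 0 = t + (if f x = 0 then 1 else 0)
          rw [a2, if_pos h1]
      | succ k => exact a5 k (by simpa using hk)
    · obtain ⟨X, T, a1, a2, a3, a4, a5⟩ := ih h
      refine ⟨fun k => Nat.casesOn k s X, fun k => Nat.casesOn k t T, rfl, rfl, a3, a4, ?_⟩
      intro k hk
      cases k with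
      | zero =>
        refine ⟨fun _ => ?_, ?_, ?_, fun _ => h2⟩
        · show X 0 ≠ 0
          rw [a1]; exact h3
        · show X 0 = s + f x
          rw [a1]
        · show T 0 = t + (if f x = 0 then 1 else 0)
          rw [a2, if_neg h1, add_zero]
      | succ k => exact a5 k (by simpa using hk)

theorem adj_getElem (l : List V) (k : ℕ) (h : k + 1 < l.length) :
    Arc.Adj l l[k] l[k + 1] := by
  refine Or.inl ⟨l.take k, l.drop (k + 2), ?_⟩
  have h1 : l.drop k = l[k] :: l.drop (k + 1) := List.drop_eq_getElem_cons (by omega)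
  have h2 : l.drop (k + 1) = l[k + 1] :: l.drop (k + 2) := List.drop_eq_getElem_cons h
  have h3 := List.take_append_drop k l
  rw [h1, h2] at h3
  rw [List.append_assoc]
  exact h3

theorem two_split {l : List V} {b c : V} (hb : b ∈ l) (hc : c ∈ l) (hbc : b ≠ c) :
    ∃ b' c' A B C, l = A ++ b' :: (B ++ c' :: C) ∧ ((b' = b ∧ c' = c) ∨ (b' = c ∧ c' = b)) := by
  obtain ⟨X, Y, rfl⟩ := List.append_of_mem hb
  rw [List.mem_append, List.mem_cons] at hc
  rcases hc with hc | hc | hc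
  · obtain ⟨A, B, rfl⟩ := List.append_of_mem hc
    exact ⟨c, b, A, B, Y, by simp, Or.inr ⟨rfl, rfl⟩⟩
  · exact absurd hc.symm hbc
  · obtain ⟨B, C, rfl⟩ := List.append_of_mem hc
    exact ⟨b, c, X, B, C, rfl, Or.inl ⟨rfl, rfl⟩⟩

end lists

/-! ### the orbit of two involutions -/

theorem orbit_two {P : Type} [Finite P] (M ν : P → P) (hM : ∀ x, M (M x) = x)
    (hν : ∀ x, ν (ν x) = x) (b : P) (hb : M b = b) :
    ∃ U : Set P, b ∈ U ∧ (∀ x ∈ U, M x ∈ U) ∧ (∀ x ∈ U, ν x ∈ U) ∧
      ((∀ x ∈ U, ν x ≠ x) → ∃ c ∈ U, c ≠ b ∧ M c = c ∧ ∀ x ∈ U, M x = x → x = b ∨ x = c) ∧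
      ∀ z, M z = z → ν z = z → z ≠ b → z ∉ U := by
  classical
  let μ : Equiv.Perm P := ⟨M, M, hM, hM⟩
  let η : Equiv.Perm P := ⟨ν, ν, hν, hν⟩
  let π : Equiv.Perm P := η * μ
  have hμ2 : μ * μ = 1 := by ext x; exact hM x
  have hη2 : η * η = 1 := by ext x; exact hν x
  have hμi : μ⁻¹ = μ := inv_eq_of_mul_eq_one_left hμ2
  have hηi : η⁻¹ = η := inv_eq_of_mul_eq_one_left hη2
  have hconj : μ * π * μ⁻¹ = π⁻¹ := by
    simp only [π]
    rw [mul_inv_rev, hμi, hηi, mul_assoc, mul_assoc, hμ2, mul_one]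
  have hz : ∀ k : ℤ, μ * π ^ k = (π ^ k)⁻¹ * μ := by
    intro k
    have := conj_zpow (i := k) (a := μ) (b := π)
    rw [hconj, inv_zpow] at this
    rw [this, inv_mul_cancel_right]
  have hMk : ∀ k : ℤ, M ((π ^ k) b) = (π ^ (-k)) b := by
    intro k
    have := congrArg (fun g : Equiv.Perm P => g b) (hz k)
    simp only [Equiv.Perm.mul_apply] at this
    rw [← zpow_neg] at this
    have h2 : μ b = b := hb
    rw [h2] at this
    exact this
  have hνπ : ∀ x, ν x = π (M x) := by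
    intro x
    show ν x = ν (M (M x))
    rw [hM]
  have hνk : ∀ k : ℤ, ν ((π ^ k) b) = (π ^ (1 - k)) b := by
    intro k
    rw [hνπ, hMk, ← Equiv.Perm.mul_apply, ← zpow_one_add]
    rfl
  have hper : ∀ k : ℤ, (π ^ k) b = b ↔ ((Function.minimalPeriod (π • ·) b : ℕ) : ℤ) ∣ k := by
    intro k
    exact MulAction.zpow_smul_eq_iff_minimalPeriod_dvd (a := π) (b := b) (n := k)
  set N := Function.minimalPeriod (π • ·) b with hN
  have hNpos : 0 < N := by
    have h1 : 0 < orderOf π := (isOfFinOrder_of_finite π).orderOf_pos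
    refine Function.IsPeriodicPt.minimalPeriod_pos h1 ?_
    rw [MulAction.isPeriodicPt_smul_iff, pow_orderOf_eq_one, one_smul]
  refine ⟨{z | ∃ k : ℤ, (π ^ k) b = z}, ⟨0, rfl⟩, ?_, ?_, ?_, ?_⟩
  · rintro x ⟨k, rfl⟩
    exact ⟨-k, (hMk k).symm⟩
  · rintro x ⟨k, rfl⟩
    exact ⟨1 - k, (hνk k).symm⟩
  · intro hfree
    have hNe : Even N := by
      rw [← Nat.not_odd_iff_even]
      rintro ⟨m, hm⟩
      refine hfree ((π ^ ((m : ℤ) + 1)) b) ⟨_, rfl⟩ ?_
      rw [hνk]
      have h1 : (π ^ ((N : ℕ) : ℤ)) b = b := (hper _).2 dvd_rfl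
      have h2 : (m : ℤ) + 1 = (1 - ((m : ℤ) + 1)) + ((N : ℕ) : ℤ) := by
        rw [hm]; push_cast; ring
      conv_rhs => rw [h2, zpow_add, Equiv.Perm.mul_apply, h1]
    obtain ⟨m, hm⟩ := hNe
    have hm0 : 0 < m := by omega
    refine ⟨(π ^ (m : ℤ)) b, ⟨_, rfl⟩, ?_, ?_, ?_⟩
    · intro h
      rw [hper, Int.natCast_dvd_natCast] at h
      have := Nat.le_of_dvd hm0 h
      omega
    · rw [hMk]
      have h1 : (π ^ ((N : ℕ) : ℤ)) b = b := (hper _).2 dvd_rfl
      have h2 : (m : ℤ) = -(m : ℤ) + ((N : ℕ) : ℤ) := by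
        rw [hm]; push_cast; ring
      conv_rhs => rw [h2, zpow_add, Equiv.Perm.mul_apply, h1]
    · rintro x ⟨k, rfl⟩ hx
      rw [hMk] at hx
      have h1 : (π ^ (2 * k)) b = b := by
        have h2 : 2 * k = k + k := by ring
        rw [h2, zpow_add, Equiv.Perm.mul_apply, ← hx, ← Equiv.Perm.mul_apply, ← zpow_add,
          add_neg_cancel, zpow_zero]
        rfl
      rw [hper, hm] at h1
      have h3 : (m : ℤ) ∣ k := by
        obtain ⟨q, hq⟩ := h1
        refine ⟨q, ?_⟩
        push_cast at hq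
        linarith
      obtain ⟨q, hq⟩ := h3
      have hNb : ∀ j : ℤ, (π ^ (((N : ℕ) : ℤ) * j)) b = b := fun j => (hper _).2 (dvd_mul_right _ _)
      rcases Int.even_or_odd q with ⟨j, hj⟩ | ⟨j, hj⟩
      · left
        have : k = ((N : ℕ) : ℤ) * j := by
          rw [hq, hj, hm]; push_cast; ring
        rw [this, hNb]
      · right
        have : k = (m : ℤ) + ((N : ℕ) : ℤ) * j := by
          rw [hq, hj, hm]; push_cast; ring
        rw [this, zpow_add, Equiv.Perm.mul_apply, hNb]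
  · rintro z hz1 hz2 hzb ⟨k, hk⟩
    have h1 : π z = z := by
      show ν (M z) = z
      rw [hz1, hz2]
    have h2 : (π ^ k) z = z := by
      have := (Equiv.Perm.zpow_apply_eq_self_of_apply_eq_self h1 k)
      exact this
    apply hzb
    have h3 : (π ^ k) z = (π ^ k) b := by rw [h2, hk]
    exact (π ^ k).injective h3

section circ

variable {V E : Type} [Fintype V] [Fintype E] {G : MGraph V E} {C : Set E} {n : ℕ}

omit [Fintype E] in
/-- local solutions from a closed walk -/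
theorem locJ_of_run (K : Circ G C n) (hG : G.Cubic) (w : E → F4) (F : Fin (n + 2) → F4)
    (hw : ∀ i, w (K.h hG i) = F i) (s : F4) (hs : s ≠ 0)
    (hr : Run F s 0 (List.finRange (n + 2)) s 0) : LocJ G C w 0 := by
  classical
  obtain ⟨X, T, hX0, hT0, hXN, hTN, hst⟩ := run_states hr
  rw [List.length_finRange] at hXN hTN
  have hst' : ∀ i : Fin (n + 2), (F i ≠ 0 → X (i.1 + 1) ≠ 0) ∧ X (i.1 + 1) = X i.1 + F i ∧
      T (i.1 + 1) = T i.1 + (if F i = 0 then 1 else 0) ∧ (F i ≠ 0 → T i.1 = 0) := by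
    intro i
    have h1 := hst i.1 (by rw [List.length_finRange]; exact i.2)
    have h2 : (List.finRange (n + 2))[i.1]'(by rw [List.length_finRange]; exact i.2) = i := by
      rw [List.getElem_finRange]
      rfl
    rw [h2] at h1
    exact h1
  have hXne : ∀ k : ℕ, k ≤ n + 2 → X k ≠ 0 := by
    intro k
    induction k with
    | zero => intro _; rw [hX0]; exact hs
    | succ k ih =>
      intro hk
      have h1 := hst' ⟨k, by omega⟩
      by_cases hF : F ⟨k, by omega⟩ = 0
      · rw [h1.2.1, hF, add_zero]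
        exact ih (by omega)
      · exact h1.1 hF
  obtain ⟨x, hx⟩ : ∃ x : E → F4, ∀ i : Fin (n + 2), x (K.a i) = X (i.1 + 1) := by
    refine ⟨fun e => if h : ∃ i, K.a i = e then X (h.choose.1 + 1) else 0, fun i => ?_⟩
    have h : ∃ j, K.a j = K.a i := ⟨i, rfl⟩
    simp only [dif_pos h]
    rw [K.ainj h.choose_spec]
  obtain ⟨t, ht⟩ : ∃ t : E → ZMod 2, ∀ i : Fin (n + 2), t (K.a i) = T (i.1 + 1) := by
    refine ⟨fun e => if h : ∃ i, K.a i = e then T (h.choose.1 + 1) else 0, fun i => ?_⟩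
    have h : ∃ j, K.a j = K.a i := ⟨i, rfl⟩
    simp only [dif_pos h]
    rw [K.ainj h.choose_spec]
  have hpred : ∀ i : Fin (n + 2), x (K.a (i - 1)) = X i.1 ∧ t (K.a (i - 1)) = T i.1 := by
    intro i
    rw [hx, ht]
    by_cases hi : i = 0
    · subst hi
      have h1 : ((0 : Fin (n + 2)) - 1).1 = n + 1 := by
        rw [zero_sub]
        simp [Fin.val_neg]
      rw [h1]
      exact ⟨hXN.trans hX0.symm, hTN.trans hT0.symm⟩
    · have h1 : 0 < i.1 := Nat.pos_of_ne_zero (fun h => hi (Fin.ext h))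
      have h2 : (i - 1).1 = i.1 - 1 := by
        rw [Fin.sub_val_of_le]
        · simp
        · rw [Fin.le_def]
          simp
          omega
      have h3 : (i - 1).1 + 1 = i.1 := by omega
      rw [h3]
      exact ⟨rfl, rfl⟩
  have hstep : ∀ i : Fin (n + 2), x (K.a i) = x (K.a (i - 1)) + w (K.h hG i) ∧
      t (K.a i) = t (K.a (i - 1)) + (if w (K.h hG i) = 0 then 1 else 0) := by
    intro i
    rw [hx, ht, (hpred i).1, (hpred i).2, hw]
    exact ⟨(hst' i).2.1, (hst' i).2.2.1⟩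
  refine ⟨x, t, ?_, ?_, ?_⟩
  · intro e he
    obtain ⟨i, rfl⟩ := (K.mem_iff e).1 he
    rw [hx]
    exact hXne _ (by have := i.2; omega)
  · intro v e f h he hf hh hef hve hvf hvh
    have hv : v ∈ G.verts C := ⟨e, he, hve⟩
    obtain ⟨i, rfl⟩ := (K.mem_verts v).1 hv
    have hh' : h = K.h hG i := (K.not_mem_inc hG i h).1 ⟨hh, hvh⟩
    subst hh'
    have key : ∀ e, e ∈ C → G.inc (K.v i) e → e = K.a i ∨ e = K.a (i - 1) := by
      intro e he hve
      rcases (K.inc_iff hG i e).1 hve with h | h | h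
      · exact Or.inl h
      · exact Or.inr h
      · exact absurd (h ▸ he) (K.h_notMem hG i)
    have f4 : ∀ a b : F4, a + b + a = b := by decide
    have f5 : ∀ a b : F4, a + (a + b) = b := by decide
    have g4 : ∀ a b : ZMod 2, a + b + a = b := by decide
    have g5 : ∀ a b : ZMod 2, a + (a + b) = b := by decide
    obtain ⟨k1, k2⟩ := hstep i
    rcases key e he hve with h1 | h1 <;> rcases key f hf hvf with h2 | h2
    · exact absurd (h1.trans h2.symm) hef
    · rw [h1, h2, k1, k2]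
      exact ⟨f4 _ _, g4 _ _⟩
    · rw [h1, h2, k1, k2]
      exact ⟨f5 _ _, g5 _ _⟩
    · exact absurd (h1.trans h2.symm) hef
  · rw [Nat.le_zero, Set.ncard_eq_zero (Set.toFinite _), Set.eq_empty_iff_forall_notMem]
    rintro v ⟨e, h, he, hh, hve, hvh, hwh, hte⟩
    have hv : v ∈ G.verts C := ⟨e, he, hve⟩
    obtain ⟨i, rfl⟩ := (K.mem_verts v).1 hv
    have hh' : h = K.h hG i := (K.not_mem_inc hG i h).1 ⟨hh, hvh⟩
    subst hh'
    rw [hw] at hwh
    have h1 := (hst' i).2.2.2 hwh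
    have h2 := (hst' i).2.2.1
    rw [if_neg hwh, h1, add_zero] at h2
    have h01 : (0 : ZMod 2) ≠ 1 := by decide
    rcases (K.inc_iff hG i e).1 hve with h3 | h3 | h3
    · rw [h3, ht, h2] at hte
      exact h01 hte
    · rw [h3, (hpred i).2, h1] at hte
      exact h01 hte
    · exact absurd (h3 ▸ he) (K.h_notMem hG _)

theorem f4_third : ∀ a b c : F4, a ≠ 0 → b ≠ 0 → c ≠ 0 → a ≠ b → a ≠ c → b ≠ c → c = a + b := by
  decide

theorem f4_three' : ∀ a b x : F4, a ≠ 0 → b ≠ 0 → a ≠ b → x ≠ 0 → x = a ∨ x = b ∨ x = a + b := by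
  decide

theorem f4_three (a b c x : F4) (ha : a ≠ 0) (hb : b ≠ 0) (hc : c ≠ 0) (h1 : a ≠ b) (h2 : a ≠ c)
    (h3 : b ≠ c) (hx : x ≠ 0) : x = a ∨ x = b ∨ x = c := by
  rw [f4_third a b c ha hb hc h1 h2 h3]
  exact f4_three' a b x ha hb h1 hx

theorem th_inj3 : ∀ r r' : Fin 3, th (r : ZMod 3) = th (r' : ZMod 3) → r = r' := by decide

theorem th_surj3 : ∀ x : F4, x ≠ 0 → ∃ r : Fin 3, x = th (r : ZMod 3) := by decide

theorem arcs0 (K : Circ G C n) (hG : G.Cubic) {S : Set E} (hS : Spk K hG S) (hn : n % 2 = 1)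
    (h3 : 3 ≤ S.ncard) (h0 : K.h hG 0 ∈ S) :
    ∃ (p : Fin 3 → Fin (n + 2)) (F : Fin (n + 2) → F4) (s : F4), s ≠ 0 ∧ Function.Injective p ∧
      (∀ r, K.h hG (p r) ∈ S) ∧ (∀ i, K.h hG i ∈ S →
        F i = ∑ r : Fin 3, if i = p r then th (r : ZMod 3) else 0) ∧
      (∀ i j, K.h hG i = K.h hG j → F i = F j) ∧ Run F s 0 (List.finRange (n + 2)) s 0 := by
  classical
  -- the chords
  choose! f hf hf' using hS.two
  let M : Fin (n + 2) → Fin (n + 2) := fun i => if K.h hG i ∈ S then i else f i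
  have hM1 : ∀ i, K.h hG i ∈ S → M i = i := fun i hi => if_pos hi
  have hM2 : ∀ i, K.h hG i ∉ S → M i = f i := fun i hi => if_neg hi
  have hMh : ∀ i, K.h hG (M i) = K.h hG i := by
    intro i
    by_cases hi : K.h hG i ∈ S
    · rw [hM1 i hi]
    · rw [hM2 i hi, hf' i hi]
  have hMfix : ∀ i, M i = i → K.h hG i ∈ S := by
    intro i hi
    by_contra h
    rw [hM2 i h] at hi
    exact hf i h hi
  have hMu : ∀ i j, K.h hG i = K.h hG j → j = i ∨ j = M i := by
    intro i j hij
    by_cases hi : K.h hG i ∈ S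
    · exact Or.inl (hS.uni i j hi hij).symm
    · rcases hS.only i (M i) j (hMh i).symm hij with h | h | h
      · exact absurd (hMfix i h.symm) hi
      · exact Or.inl h.symm
      · exact Or.inr h.symm
  have hMM : ∀ i, M (M i) = i := by
    intro i
    rcases hMu (M i) i (hMh i) with h | h
    · rw [← h, ← h]
    · exact h.symm
  -- the edges of the circuit
  have hlt : ∀ i : Fin (n + 2), i.1 % 2 = 1 → i.1 + 1 < n + 2 := by
    intro i hi
    have := i.2
    omega
  let ν : Fin (n + 2) → Fin (n + 2) := fun i => if h : i.1 % 2 = 1 then ⟨i.1 + 1, hlt i h⟩ else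
    ⟨i.1 - 1, by have := i.2; omega⟩
  have hν1 : ∀ i : Fin (n + 2), i.1 % 2 = 1 → (ν i).1 = i.1 + 1 := by
    intro i hi
    simp only [ν]
    rw [dif_pos hi]
  have hν2 : ∀ i : Fin (n + 2), i.1 % 2 = 0 → (ν i).1 = i.1 - 1 := by
    intro i hi
    simp only [ν]
    rw [dif_neg (by omega)]
  have hνν : ∀ i, ν (ν i) = i := by
    intro i
    rcases Nat.mod_two_eq_zero_or_one i.1 with hi | hi
    · have h1 := hν2 i hi
      by_cases hi0 : i.1 = 0
      · have h2 : ν i = i := Fin.ext (by rw [h1, hi0])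
        rw [h2, h2]
      · have h2 := hν1 (ν i) (by omega)
        exact Fin.ext (by rw [h2, h1]; omega)
    · have h1 := hν1 i hi
      have h2 := hν2 (ν i) (by omega)
      exact Fin.ext (by rw [h2, h1]; omega)
  have hνne : ∀ i, i ≠ 0 → ν i ≠ i := by
    intro i hi h
    have hi' : i.1 ≠ 0 := fun h => hi (Fin.ext h)
    have h' := congrArg Fin.val h
    rcases Nat.mod_two_eq_zero_or_one i.1 with h1 | h1
    · have := hν2 i h1
      omega
    · have := hν1 i h1
      omega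
  -- a second spoke
  obtain ⟨b, hb, hb0⟩ : ∃ b ∈ spos K hG S, b ≠ 0 :=
    Finset.exists_mem_ne (by rw [card_spos hS]; omega) 0
  have hbS := mem_spos.1 hb
  obtain ⟨U, hbU, hMU, hνU, hU, hU0⟩ := orbit_two M ν hMM hνν b (hM1 b hbS)
  have h0U : (0 : Fin (n + 2)) ∉ U := hU0 0 (hM1 0 h0) (Fin.ext (hν2 0 rfl)) hb0.symm
  have hUne : ∀ x ∈ U, x ≠ 0 := fun x hx h => h0U (h ▸ hx)
  obtain ⟨c, hcU, hcb, hcfix, hcu⟩ := hU (fun x hx => hνne x (hUne x hx))
  have hcS := hMfix c hcfix
  -- the list of positions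
  set L₁ : List (Fin (n + 2)) := (List.finRange (n + 1)).map Fin.succ with hL₁
  have hL : List.finRange (n + 2) = 0 :: L₁ := List.finRange_succ
  have hL₁mem : ∀ z, z ∈ L₁ ↔ z ≠ 0 := by
    intro z
    rw [hL₁, List.mem_map]
    constructor
    · rintro ⟨y, -, rfl⟩
      exact Fin.succ_ne_zero y
    · intro hz
      obtain ⟨y, rfl⟩ := Fin.exists_succ_eq.2 hz
      exact ⟨y, List.mem_finRange y, rfl⟩
  have hL₁nd : L₁.Nodup := by
    have := List.nodup_finRange (n + 2)
    rw [hL] at this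
    exact (List.nodup_cons.1 this).2
  have hL₁len : L₁.length = n + 1 := by rw [hL₁, List.length_map, List.length_finRange]
  have hL₁get : ∀ (k : ℕ) (hk : k < L₁.length), (L₁[k]).1 = k + 1 := by
    intro k hk
    simp [hL₁]
  have hadj : ∀ z : Fin (n + 2), z.1 % 2 = 1 → Arc.Adj L₁ z (ν z) := by
    intro z hz
    have h1 := hlt z hz
    have h2 := adj_getElem L₁ (z.1 - 1) (by omega)
    have h3 : L₁[z.1 - 1]'(by omega) = z := Fin.ext (by rw [hL₁get]; omega)
    have h4 : L₁[z.1 - 1 + 1]'(by omega) = ν z := Fin.ext (by rw [hL₁get, hν1 z hz]; omega)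
    rw [h3, h4] at h2
    exact h2
  obtain ⟨L', hL'⟩ := exists_del (Z := {z | z ≠ 0 ∧ z ∉ U}) (ν := ν) _ L₁ le_rfl hL₁nd (by
    rintro z - ⟨hz0, hzU⟩
    refine ⟨⟨?_, fun h => hzU ?_⟩, hνν z, ?_⟩
    · intro h
      apply hz0
      rw [← hνν z, h]
      exact Fin.ext (hν2 0 rfl)
    · have := hνU _ h
      rwa [hνν] at this
    · rcases Nat.mod_two_eq_zero_or_one z.1 with hz | hz
      · have hz' : z.1 ≠ 0 := fun h => hz0 (Fin.ext h)
        have h1 := hadj (ν z) (by rw [hν2 z hz]; omega)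
        rw [hνν] at h1
        exact h1.symm
      · exact hadj z hz)
  have hmem : ∀ z, z ∈ L' ↔ z ∈ U := by
    intro z
    rw [hL'.mem, hL₁mem]
    constructor
    · rintro ⟨h1, h2⟩
      by_contra h
      exact h2 ⟨h1, h⟩
    · intro h
      exact ⟨hUne z h, fun h' => h'.2 h⟩
  obtain ⟨b', c', A, B, D, hLs, hbc⟩ := two_split ((hmem b).2 hbU) ((hmem c).2 hcU) hcb.symm
  have hnd : L'.Nodup := hL'.sublist.nodup hL₁nd
  rw [hLs] at hnd
  have hb'U : b' ∈ U := by rcases hbc with ⟨h, -⟩ | ⟨h, -⟩ <;> rw [h] <;> assumption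
  have hc'U : c' ∈ U := by rcases hbc with ⟨-, h⟩ | ⟨-, h⟩ <;> rw [h] <;> assumption
  have hb'S : K.h hG b' ∈ S := by rcases hbc with ⟨h, -⟩ | ⟨h, -⟩ <;> rw [h] <;> assumption
  have hc'S : K.h hG c' ∈ S := by rcases hbc with ⟨-, h⟩ | ⟨-, h⟩ <;> rw [h] <;> assumption
  have hb'c' : b' ≠ c' := by
    rcases hbc with ⟨h, h'⟩ | ⟨h, h'⟩
    · rw [h, h']; exact hcb.symm
    · rw [h, h']; exact hcb
  have hfix : ∀ x ∈ U, M x = x → x = b' ∨ x = c' := by
    intro x hx hMx
    rcases hbc with ⟨h, h'⟩ | ⟨h, h'⟩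
    · rw [h, h']; exact hcu x hx hMx
    · rw [h, h']; exact (hcu x hx hMx).symm
  clear_value L₁
  simp only [List.nodup_append, List.nodup_cons, List.mem_append, List.mem_cons] at hnd
  obtain ⟨n1, ⟨n2, n3, ⟨n4, n5⟩, n6⟩, n7⟩ := hnd
  have hact : ∀ z, Act A B D z ↔ z ∈ U ∧ z ≠ b' ∧ z ≠ c' := by
    intro z
    rw [← hmem, hLs]
    simp only [List.mem_append, List.mem_cons]
    constructor
    · rintro (h | h | h)
      · exact ⟨Or.inl h, n7 z h _ (Or.inl rfl), n7 z h _ (Or.inr (Or.inr (Or.inl rfl)))⟩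
      · exact ⟨Or.inr (Or.inr (Or.inl h)), fun h' => n2 (Or.inl (h' ▸ h)),
          n6 z h _ (Or.inl rfl)⟩
      · refine ⟨Or.inr (Or.inr (Or.inr (Or.inr h))), fun h' => n2 (Or.inr (Or.inr (h' ▸ h))),
          fun h' => n4 (h' ▸ h)⟩
    · rintro ⟨h | h | h | h | h, h1, h2⟩
      · exact Or.inl h
      · exact absurd h h1
      · exact Or.inr (Or.inl h)
      · exact absurd h h2
      · exact Or.inr (Or.inr h)
  have hInst : Inst M A B D := by
    refine ⟨n1, n3, n5, ?_, ?_, ?_, ?_, ?_, ?_⟩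
    · intro z h1 h2
      exact n7 z h1 z (Or.inr (Or.inl h2)) rfl
    · intro z h1 h2
      exact n7 z h1 z (Or.inr (Or.inr (Or.inr h2))) rfl
    · intro z h1 h2
      exact n6 z h1 z (Or.inr h2) rfl
    · intro z hz
      rw [hact] at hz ⊢
      refine ⟨hMU z hz.1, ?_, ?_⟩
      · intro h
        apply hz.2.1
        rw [← hMM z, h, hM1 b' hb'S]
      · intro h
        apply hz.2.2
        rw [← hMM z, h, hM1 c' hc'S]
    · intro z _
      exact hMM z
    · intro z hz h
      rw [hact] at hz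
      rcases hfix z hz.1 h with h' | h'
      · exact hz.2.1 h'
      · exact hz.2.2 h'
  obtain ⟨g, hg, al, ar, bl, br, cl, cr, k1, k2, k3, k4, k5, k6, k7, k8, k9, k10, k11, k12, k13,
    k14, k15⟩ := (arcs_main _ A B D le_rfl hInst).1
  -- the labels
  let F : Fin (n + 2) → F4 := fun z => if z = 0 then al + ar else if z = b' then bl + br else
    if z = c' then cl + cr else if z ∈ U then g z else 0
  have hb'0 := hUne b' hb'U
  have hc'0 := hUne c' hc'U
  have hF0 : F 0 = al + ar := if_pos rfl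
  have hFb : F b' = bl + br := (if_neg hb'0).trans (if_pos rfl)
  have hFc : F c' = cl + cr := (if_neg hc'0).trans ((if_neg hb'c'.symm).trans (if_pos rfl))
  have hFg : ∀ z, Act A B D z → F z = g z := by
    intro z hz
    rw [hact] at hz
    exact (if_neg (hUne z hz.1)).trans ((if_neg hz.2.1).trans ((if_neg hz.2.2).trans (if_pos hz.1)))
  have hFo : ∀ z, z ≠ 0 → z ∉ U → F z = 0 := by
    intro z h1 h2
    refine (if_neg h1).trans ((if_neg ?_).trans ((if_neg ?_).trans (if_neg h2)))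
    · rintro rfl
      exact h2 hb'U
    · rintro rfl
      exact h2 hc'U
  have hFM : ∀ z, F (M z) = F z := by
    intro z
    by_cases hz : K.h hG z ∈ S
    · rw [hM1 z hz]
    · have hz0 : z ≠ 0 := fun h => hz (h ▸ h0)
      have hzb : z ≠ b' := fun h => hz (h ▸ hb'S)
      have hzc : z ≠ c' := fun h => hz (h ▸ hc'S)
      by_cases hzU : z ∈ U
      · have ha : Act A B D z := (hact z).2 ⟨hzU, hzb, hzc⟩
        rw [hFg z ha, hFg _ (hInst.cl z ha), hg z ha]
      · rw [hFo z hz0 hzU, hFo]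
        · intro h
          apply hz
          rw [← hMM z, h, hM1 0 h0]
          exact h0
        · intro h
          apply hzU
          have := hMU _ h
          rwa [hMM] at this
  have hrun : Run F al 0 (List.finRange (n + 2)) al 0 := by
    rw [hL]
    refine Or.inr ⟨?_, rfl, ?_, ?_⟩
    · rw [hF0]; exact f4_add_ne _ _ k7
    · rw [hF0, ← add_assoc, f4_add_self, zero_add]; exact k2
    · rw [hF0, ← add_assoc, f4_add_self, zero_add]
      refine hL'.run (fun z hz => hFo z hz.1 hz.2) ?_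
      rw [hLs, run_append]
      refine ⟨bl, 0, run_congr (fun z hz => (hFg z (Or.inl hz)).symm) k13, Or.inr ⟨?_, rfl, ?_, ?_⟩⟩
      · rw [hFb]; exact f4_add_ne _ _ k8
      · rw [hFb, ← add_assoc, f4_add_self, zero_add]; exact k4
      · rw [hFb, ← add_assoc, f4_add_self, zero_add, run_append]
        refine ⟨cl, 0, run_congr (fun z hz => (hFg z (Or.inr (Or.inl hz))).symm) k14,
          Or.inr ⟨?_, rfl, ?_, ?_⟩⟩
        · rw [hFc]; exact f4_add_ne _ _ k9
        · rw [hFc, ← add_assoc, f4_add_self, zero_add]; exact k6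
        · rw [hFc, ← add_assoc, f4_add_self, zero_add]
          exact run_congr (fun z hz => (hFg z (Or.inr (Or.inr hz))).symm) k15
  -- the three spokes
  have hex : ∀ r : Fin 3, ∃ i, (i = 0 ∨ i = b' ∨ i = c') ∧ F i = th (r : ZMod 3) := by
    intro r
    rcases f4_three (al + ar) (bl + br) (cl + cr) (th (r : ZMod 3)) (f4_add_ne _ _ k7)
      (f4_add_ne _ _ k8) (f4_add_ne _ _ k9) k10 k11 k12 (th_ne_zero _) with h | h | h
    · exact ⟨0, Or.inl rfl, by rw [hF0, h]⟩
    · exact ⟨b', Or.inr (Or.inl rfl), by rw [hFb, h]⟩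
    · exact ⟨c', Or.inr (Or.inr rfl), by rw [hFc, h]⟩
  choose p hp hpF using hex
  have hFinj : ∀ i j, (i = 0 ∨ i = b' ∨ i = c') → (j = 0 ∨ j = b' ∨ j = c') → F i = F j →
      i = j := by
    rintro i j (rfl | rfl | rfl) (rfl | rfl | rfl) hij
    · rfl
    · rw [hF0, hFb] at hij; exact absurd hij k10
    · rw [hF0, hFc] at hij; exact absurd hij k11
    · rw [hF0, hFb] at hij; exact absurd hij.symm k10
    · rfl
    · rw [hFc, hFb] at hij; exact absurd hij k12
    · rw [hF0, hFc] at hij; exact absurd hij.symm k11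
    · rw [hFc, hFb] at hij; exact absurd hij.symm k12
    · rfl
  have hpinj : Function.Injective p := by
    intro r r' h
    apply th_inj3
    rw [← hpF, ← hpF, h]
  refine ⟨p, F, al, k1, hpinj, ?_, ?_, ?_, hrun⟩
  · intro r
    rcases hp r with h | h | h <;> rw [h] <;> assumption
  · intro i hi
    by_cases hr : ∃ r, i = p r
    · obtain ⟨r, rfl⟩ := hr
      rw [Finset.sum_eq_single r, if_pos rfl, hpF]
      · intro r' _ hr'
        rw [if_neg (fun h => hr' (hpinj h).symm)]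
      · intro h
        exact absurd (mem_univ _) h
    · push Not at hr
      refine Eq.trans ?_ (Finset.sum_eq_zero (fun r _ => if_neg (hr r))).symm
      have hnot : ¬ (i = 0 ∨ i = b' ∨ i = c') := by
        intro hi'
        have hne : F i ≠ 0 := by
          rcases hi' with h | h | h
          · rw [h, hF0]; exact f4_add_ne _ _ k7
          · rw [h, hFb]; exact f4_add_ne _ _ k8
          · rw [h, hFc]; exact f4_add_ne _ _ k9
        obtain ⟨r, hr'⟩ := th_surj3 _ hne
        exact hr r (hFinj i (p r) hi' (hp r) (by rw [hr', hpF]))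
      push Not at hnot
      refine hFo i hnot.1 ?_
      intro hiU
      rcases hfix i hiU (hM1 i hi) with h | h
      · exact hnot.2.1 h
      · exact hnot.2.2 h
  · intro i j hij
    rcases hMu i j hij with h | h
    · rw [h]
    · rw [h, hFM]

open Classical in
/-- **arcs.** An odd circuit with at least three spokes: labels on three spokes and on some chords
with a local solution without missed vertices -/
theorem arcs (K : Circ G C n) (hG : G.Cubic) {S : Set E} (hS : Spk K hG S) (hn : n % 2 = 1)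
    (h3 : 3 ≤ S.ncard) : ∃ (e : Fin 3 → E) (w : E → F4), Function.Injective e ∧
      (∀ r, e r ∈ S) ∧ (∀ x, (∀ i, x ≠ K.h hG i) ∨ x ∈ S → w x = lab3 e x) ∧ LocJ G C w 0 := by
  obtain ⟨x₀, hx₀⟩ : S.Nonempty := by
    rw [Set.nonempty_iff_ne_empty]
    rintro rfl
    rw [Set.ncard_empty] at h3
    omega
  obtain ⟨i₀, hi₀⟩ := hS.one x₀ hx₀
  obtain ⟨p, F, s, hs, hp, hpS, hF1, hF2, hrun⟩ := arcs0 (K.rot i₀) hG (hS.rot i₀) hn h3 (by
    rw [K.rot_h, zero_add, hi₀]; exact hx₀)
  set K' := K.rot i₀ with hK'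
  have hS' := hS.rot i₀
  have hinj : Function.Injective (fun r => K'.h hG (p r)) := by
    intro r r' h
    exact hp (hS'.uni _ _ (hpS r) h)
  obtain ⟨w, hw1, hw2⟩ : ∃ w : E → F4,
      (∀ x, (∀ i, x ≠ K.h hG i) ∨ x ∈ S → w x = lab3 (fun r => K'.h hG (p r)) x) ∧
      ∀ i, w (K'.h hG i) = F i := by
    refine ⟨fun x => if h : (∃ i, K'.h hG i = x) ∧ x ∉ S then F h.1.choose else
      lab3 (fun r => K'.h hG (p r)) x, ?_, ?_⟩
    · intro x hx
      refine dif_neg ?_
      rintro ⟨⟨i, hi⟩, hxS⟩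
      rcases hx with hx | hx
      · exact hx _ (by rw [← hi, K.rot_h])
      · exact hxS hx
    · intro i
      by_cases hi : K'.h hG i ∈ S
      · refine (dif_neg (fun h => h.2 hi)).trans ?_
        rw [hF1 i hi]
        unfold lab3
        refine Finset.sum_congr rfl (fun r _ => if_congr ?_ rfl rfl)
        exact ⟨fun h => hS'.uni _ _ hi h, fun h => by rw [h]⟩
      · have h : (∃ j, K'.h hG j = K'.h hG i) ∧ K'.h hG i ∉ S := ⟨⟨i, rfl⟩, hi⟩
        refine (dif_pos h).trans ?_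
        exact hF2 _ _ h.1.choose_spec
  exact ⟨fun r => K'.h hG (p r), w, hinj, hpS, hw1, locJ_of_run K' hG w F hw2 s hs hrun⟩

end circ

end Pool.Agent.CDC
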