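import Pool.Agent.CDC.Defs

/-!
# Double counting and joins
-/

set_option autoImplicit false

namespace Pool.Agent.CDC

open Finset

variable {V E : Type} [Fintype V] [Fintype E]

open Classical in
theorem double_count (G : MGraph V E) (H : Finset E) (P : V → Prop)
    (hP : ∀ e ∈ H, ∀ v w, G.inc v e → G.inc w e → (P v ↔ P w)) {A : Type} [AddCommGroup A]
    (hA : ∀ a : A, a + a = 0) (φ : E → A) :
    ∑ w ∈ univ.filter P, ∑ e ∈ H.filter (fun e => G.inc w e), φ e = 0 := by
  have h1 : ∑ w ∈ univ.filter P, ∑ e ∈ H.filter (fun e => G.inc w e), φ e =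
      ∑ e ∈ H, ∑ w ∈ (univ.filter P).filter (fun w => G.inc w e), φ e := by
    refine Finset.sum_comm' (fun w e => ?_)
    simp only [mem_filter, mem_univ, true_and]
    tauto
  rw [h1]
  refine Finset.sum_eq_zero (fun e he => ?_)
  obtain ⟨u, w, huw, hS⟩ := Set.ncard_eq_two.1 (G.two e)
  have hu : G.inc u e := by
    have : u ∈ {v | G.inc v e} := by rw [hS]; simp
    exact this
  have hw : G.inc w e := by
    have : w ∈ {v | G.inc v e} := by rw [hS]; simp
    exact this
  have hS' : ∀ z, G.inc z e ↔ z = u ∨ z = w := by
    intro z
    have : z ∈ {v | G.inc v e} ↔ z ∈ ({u, w} : Set V) := by rw [hS]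
    simpa using this
  by_cases hPu : P u
  · have hPw : P w := (hP e he u w hu hw).1 hPu
    have h2 : (univ.filter P).filter (fun w => G.inc w e) = {u, w} := by
      ext z
      simp only [mem_filter, mem_univ, true_and, mem_insert, mem_singleton, hS' z]
      constructor
      · exact fun h => h.2
      · rintro (rfl | rfl)
        · exact ⟨hPu, Or.inl rfl⟩
        · exact ⟨hPw, Or.inr rfl⟩
    rw [h2, Finset.sum_pair huw]
    exact hA _
  · have hPw : ¬ P w := fun h => hPu ((hP e he u w hu hw).2 h)
    have h2 : (univ.filter P).filter (fun w => G.inc w e) = ∅ := by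
      ext z
      simp only [mem_filter, mem_univ, true_and, hS' z, notMem_empty, iff_false, not_and]
      rintro h (rfl | rfl)
      · exact hPu h
      · exact hPw h
    rw [h2, Finset.sum_empty]

open Classical in
/-- linear algebra: a function `b` with zero sum on every component of `H` is the degree sequence
modulo `2` of a set of edges of `H` -/
theorem exists_join (G : MGraph V E) (H : Finset E) (b : V → ZMod 2)
    (hb : ∀ g : V → ZMod 2, (∀ e ∈ H, ∀ v w, G.inc v e → G.inc w e → g v = g w) →
      ∑ v, b v * g v = 0) :
    ∃ c : E → ZMod 2, ∀ v, ∑ e ∈ H.filter (fun e => G.inc v e), c e = b v := by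
  let f : (V → ZMod 2) →ₗ[ZMod 2] (E → ZMod 2) :=
    { toFun := fun g e => if e ∈ H then ∑ v ∈ univ.filter (fun v => G.inc v e), g v else 0
      map_add' := by
        intro g g'
        funext e
        simp only [Pi.add_apply]
        split_ifs
        · rw [Finset.sum_add_distrib]
        · simp
      map_smul' := by
        intro r g
        funext e
        simp only [Pi.smul_apply, smul_eq_mul, RingHom.id_apply]
        split_ifs
        · rw [Finset.mul_sum]
        · simp }
  have hker : ∀ g, f g = 0 → ∀ e ∈ H, ∀ v w, G.inc v e → G.inc w e → g v = g w := by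
    intro g hg e he v w hv hw
    have h1 := congrFun hg e
    simp only [f, LinearMap.coe_mk, AddHom.coe_mk, if_pos he, Pi.zero_apply] at h1
    by_cases hvw : v = w
    · rw [hvw]
    obtain ⟨u, u', huu, hS⟩ := Set.ncard_eq_two.1 (G.two e)
    have hS' : ∀ z, G.inc z e ↔ z = u ∨ z = u' := by
      intro z
      have : z ∈ {v | G.inc v e} ↔ z ∈ ({u, u'} : Set V) := by rw [hS]
      simpa using this
    have h2 : univ.filter (fun v => G.inc v e) = {v, w} := by
      ext z
      simp only [mem_filter, mem_univ, true_and, mem_insert, mem_singleton, hS' z]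
      rw [hS'] at hv hw
      rcases hv with rfl | rfl <;> rcases hw with rfl | rfl
      · exact absurd rfl hvw
      · rfl
      · exact or_comm
      · exact absurd rfl hvw
    rw [h2, Finset.sum_pair hvw] at h1
    exact (CharTwo.add_eq_zero).1 h1
  let β : Module.Dual (ZMod 2) (V → ZMod 2) :=
    { toFun := fun g => ∑ v, b v * g v
      map_add' := by
        intro g g'
        simp only [Pi.add_apply, mul_add, Finset.sum_add_distrib]
      map_smul' := by
        intro r g
        simp only [Pi.smul_apply, smul_eq_mul, RingHom.id_apply, Finset.mul_sum]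
        exact Finset.sum_congr rfl (fun v _ => by ring) }
  have hβ : β ∈ (LinearMap.ker f).dualAnnihilator := by
    rw [Submodule.mem_dualAnnihilator]
    intro g hg
    exact hb g (hker g hg)
  rw [← LinearMap.range_dualMap_eq_dualAnnihilator_ker] at hβ
  obtain ⟨γ, hγ⟩ := hβ
  refine ⟨fun e => γ (Pi.single e 1), fun v => ?_⟩
  have h1 : β (Pi.single v 1) = b v := by
    simp only [β, LinearMap.coe_mk, AddHom.coe_mk]
    rw [Finset.sum_eq_single v]
    · simp
    · intro w _ hwv
      simp [Pi.single_eq_of_ne hwv]
    · intro h; exact absurd (mem_univ v) h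
  have h2 : f (Pi.single v 1) = ∑ e ∈ H.filter (fun e => G.inc v e), Pi.single e 1 := by
    funext e
    simp only [f, LinearMap.coe_mk, AddHom.coe_mk]
    rw [Finset.sum_apply]
    by_cases he : e ∈ H
    · rw [if_pos he]
      by_cases hv : G.inc v e
      · rw [Finset.sum_eq_single e]
        · rw [Finset.sum_eq_single v]
          · simp
          · intro w _ hwv
            exact Pi.single_eq_of_ne hwv _
          · intro h; exact absurd (by simpa using hv) h
        · intro e' _ hne
          exact Pi.single_eq_of_ne (Ne.symm hne) _
        · intro h; exact absurd (by simp [he, hv]) h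
      · rw [Finset.sum_eq_zero, Finset.sum_eq_zero]
        · intro e' he'
          rw [mem_filter] at he'
          have : e ≠ e' := fun h => hv (h ▸ he'.2)
          exact Pi.single_eq_of_ne this _
        · intro w hw
          have hw' : G.inc w e := by simpa using hw
          have : w ≠ v := fun h => hv (h ▸ hw')
          exact Pi.single_eq_of_ne this _
    · rw [if_neg he, Finset.sum_eq_zero]
      intro e' he'
      rw [mem_filter] at he'
      have : e ≠ e' := fun h => he (h ▸ he'.1)
      exact Pi.single_eq_of_ne this _
  rw [← h1, ← hγ, LinearMap.dualMap_apply, h2, map_sum]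

end Pool.Agent.CDC
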