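import Pool.Agent.CDC.Defs

/-!
# The edges at a vertex
-/

set_option autoImplicit false

namespace Pool.Agent.CDC

variable {V E : Type}

theorem three_of_two {α : Type} {S : Set α} (hS : S.ncard = 3) {p q : α} (hp : p ∈ S) (hq : q ∈ S)
    (hpq : p ≠ q) : ∃ r, r ≠ p ∧ r ≠ q ∧ ∀ x, x ∈ S ↔ x = p ∨ x = q ∨ x = r := by
  obtain ⟨x, y, z, hxy, hxz, hyz, rfl⟩ := Set.ncard_eq_three.1 hS
  simp only [Set.mem_insert_iff, Set.mem_singleton_iff] at hp hq ⊢
  rcases hp with rfl | rfl | rfl <;> rcases hq with rfl | rfl | rfl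
  · exact absurd rfl hpq
  · exact ⟨z, hxz.symm, hyz.symm, fun w => by tauto⟩
  · exact ⟨y, hxy.symm, hyz, fun w => by tauto⟩
  · exact ⟨z, hyz.symm, hxz.symm, fun w => by tauto⟩
  · exact absurd rfl hpq
  · exact ⟨x, hxy, hxz, fun w => by tauto⟩
  · exact ⟨y, hyz, hxy.symm, fun w => by tauto⟩
  · exact ⟨x, hxz, hxy, fun w => by tauto⟩
  · exact absurd rfl hpq

/-- circuit data -/
structure Circ (G : MGraph V E) (C : Set E) (n : ℕ) where
  v : Fin (n + 2) → V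
  a : Fin (n + 2) → E
  vinj : Function.Injective v
  ainj : Function.Injective a
  hinc : ∀ i w, G.inc w (a i) ↔ w = v i ∨ w = v (i + 1)
  ran : Set.range a = C

theorem MGraph.IsCircuit.circ {G : MGraph V E} {C : Set E} (h : G.IsCircuit C) :
    ∃ n, Nonempty (Circ G C n) := by
  obtain ⟨n, v, a, h1, h2, h3, h4⟩ := h
  exact ⟨n, ⟨⟨v, a, h1, h2, h3, h4⟩⟩⟩

variable {G : MGraph V E} {C : Set E} {n : ℕ}

theorem pred_ne (i : Fin (n + 2)) : i - 1 ≠ i := by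
  intro h
  have h1 : (1 : Fin (n + 2)) = 0 := by
    have := congrArg (fun x => i - x) h
    simpa using this
  exact absurd h1 (by simp)

namespace Circ

theorem mem_iff (K : Circ G C n) (e : E) : e ∈ C ↔ ∃ i, K.a i = e := by
  have h := K.ran
  constructor
  · intro he
    have : e ∈ Set.range K.a := by rw [h]; exact he
    exact this
  · intro he
    have : e ∈ Set.range K.a := he
    rwa [h] at this

theorem mem (K : Circ G C n) (i : Fin (n + 2)) : K.a i ∈ C := (K.mem_iff _).2 ⟨i, rfl⟩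

theorem mem_verts (K : Circ G C n) (w : V) : w ∈ G.verts C ↔ ∃ i, K.v i = w := by
  constructor
  · rintro ⟨e, he, hw⟩
    obtain ⟨i, rfl⟩ := (K.mem_iff e).1 he
    rcases (K.hinc i w).1 hw with h | h
    · exact ⟨i, h.symm⟩
    · exact ⟨i + 1, h.symm⟩
  · rintro ⟨i, rfl⟩
    exact ⟨K.a i, K.mem i, (K.hinc i _).2 (Or.inl rfl)⟩

/-- the edges at a vertex of the circuit -/
theorem edges_at (K : Circ G C n) (hG : G.Cubic) (i : Fin (n + 2)) :
    ∃ h, h ∉ C ∧ K.a i ≠ K.a (i - 1) ∧ ∀ e, G.inc (K.v i) e ↔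
      e = K.a i ∨ e = K.a (i - 1) ∨ e = h := by
  have h1 : K.a i ≠ K.a (i - 1) := fun h => pred_ne i (K.ainj h).symm
  have h2 : G.inc (K.v i) (K.a i) := (K.hinc i _).2 (Or.inl rfl)
  have h3 : G.inc (K.v i) (K.a (i - 1)) := (K.hinc _ _).2 (Or.inr (by rw [sub_add_cancel]))
  obtain ⟨h, h4, h5, h6⟩ := three_of_two (hG (K.v i)) (p := K.a i) (q := K.a (i - 1)) h2 h3 h1
  refine ⟨h, ?_, h1, h6⟩
  intro hC
  obtain ⟨j, rfl⟩ := (K.mem_iff h).1 hC
  have h7 : G.inc (K.v i) (K.a j) := (h6 _).2 (Or.inr (Or.inr rfl))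
  rcases (K.hinc j _).1 h7 with h8 | h8
  · exact h4 (by rw [K.vinj h8])
  · have : j = i - 1 := by rw [K.vinj h8]; simp
    exact h5 (by rw [this])

/-- the third edge at a vertex of the circuit -/
noncomputable def h (K : Circ G C n) (hG : G.Cubic) (i : Fin (n + 2)) : E :=
  (K.edges_at hG i).choose

theorem h_notMem (K : Circ G C n) (hG : G.Cubic) (i : Fin (n + 2)) : K.h hG i ∉ C :=
  (K.edges_at hG i).choose_spec.1

theorem a_ne (K : Circ G C n) (i : Fin (n + 2)) : K.a i ≠ K.a (i - 1) :=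
  fun h => pred_ne i (K.ainj h).symm

theorem inc_iff (K : Circ G C n) (hG : G.Cubic) (i : Fin (n + 2)) (e : E) :
    G.inc (K.v i) e ↔ e = K.a i ∨ e = K.a (i - 1) ∨ e = K.h hG i :=
  (K.edges_at hG i).choose_spec.2.2 e

theorem h_inc (K : Circ G C n) (hG : G.Cubic) (i : Fin (n + 2)) : G.inc (K.v i) (K.h hG i) :=
  (K.inc_iff hG i _).2 (Or.inr (Or.inr rfl))

theorem not_mem_inc (K : Circ G C n) (hG : G.Cubic) (i : Fin (n + 2)) (e : E) :
    (e ∉ C ∧ G.inc (K.v i) e) ↔ e = K.h hG i := by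
  constructor
  · rintro ⟨h1, h2⟩
    rcases (K.inc_iff hG i e).1 h2 with rfl | rfl | h
    · exact absurd (K.mem _) h1
    · exact absurd (K.mem _) h1
    · exact h
  · rintro rfl
    exact ⟨K.h_notMem hG i, K.h_inc hG i⟩

end Circ

theorem not_mem_of_off {w : V} (hw : w ∉ G.verts C) {e : E} (he : G.inc w e) : e ∉ C :=
  fun h => hw ⟨e, h, he⟩

theorem star_off (hG : G.Cubic) (w : V) :
    ∃ e₁ e₂ e₃, e₁ ≠ e₂ ∧ e₁ ≠ e₃ ∧ e₂ ≠ e₃ ∧ ∀ e, G.inc w e ↔ e = e₁ ∨ e = e₂ ∨ e = e₃ := by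
  obtain ⟨x, y, z, hxy, hxz, hyz, h⟩ := Set.ncard_eq_three.1 (hG w)
  refine ⟨x, y, z, hxy, hxz, hyz, fun e => ?_⟩
  have : e ∈ {e | G.inc w e} ↔ e ∈ ({x, y, z} : Set E) := by rw [h]
  simpa using this

end Pool.Agent.CDC
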