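import Pool.Agent.CDC.Parity
import Pool.Agent.CDC.F4
import Pool.Agent.CDC.Join
import Pool.Agent.CDC.Local

/-!
# The main construction

`C` a circuit of a cubic graph, `col` a colouring of the edges with three colours which is proper
at the vertices off `C`. We find new colours `dd` (a cyclic shift of `col` on every component of
the edges off `C`), `c` and colours `xe` of the edges of `C` from which a double cover is read off.
-/

set_option autoImplicit false

namespace Pool.Agent.CDC

open Finset

section

variable {V E : Type} [Fintype V] [Fintype E] {G : MGraph V E} {C : Set E} {n : ℕ}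

/-- two vertices joined by an edge off `C` -/
def Adj (G : MGraph V E) (C : Set E) (v w : V) : Prop := ∃ e, e ∉ C ∧ G.inc v e ∧ G.inc w e

/-- components of the edges off `C` -/
def Comp (G : MGraph V E) (C : Set E) : Type := Quot (Adj G C)

/-- the component of a vertex -/
def kap (G : MGraph V E) (C : Set E) (v : V) : Comp G C := Quot.mk _ v

theorem kap_eq {e : E} (he : e ∉ C) {v w : V} (hv : G.inc v e) (hw : G.inc w e) :
    kap G C v = kap G C w := Quot.sound ⟨e, he, hv, hw⟩

noncomputable instance : Fintype (Comp G C) := by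
  classical
  exact Fintype.ofSurjective (fun v : V => kap G C v) (fun q => by
    obtain ⟨v, hv⟩ := Quot.exists_rep q
    exact ⟨v, hv⟩)

noncomputable instance : DecidableEq (Comp G C) := Classical.decEq _

/-- an end of an edge -/
theorem exists_end (G : MGraph V E) (e : E) : ∃ v, G.inc v e := by
  obtain ⟨u, w, -, hS⟩ := Set.ncard_eq_two.1 (G.two e)
  refine ⟨u, ?_⟩
  have : u ∈ {v | G.inc v e} := by rw [hS]; simp
  exact this

/-- the component of an edge -/
noncomputable def kapE (G : MGraph V E) (C : Set E) (e : E) : Comp G C :=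
  kap G C (exists_end G e).choose

theorem kapE_eq {e : E} (he : e ∉ C) {v : V} (hv : G.inc v e) : kapE G C e = kap G C v :=
  kap_eq he (exists_end G e).choose_spec hv

open Classical in
/-- the edges off `C` -/
noncomputable def offE (E : Type) [Fintype E] (C : Set E) : Finset E := univ.filter (fun e => e ∉ C)

theorem mem_offE {e : E} : e ∈ offE E C ↔ e ∉ C := by simp [offE]

variable (K : Circ G C n) (hG : G.Cubic) (col : E → ZMod 3)

open Classical in
theorem sum_offE_circ {A : Type} [AddCommMonoid A] (φ : E → A) (i : Fin (n + 2)) :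
    ∑ e ∈ (offE E C).filter (fun e => G.inc (K.v i) e), φ e = φ (K.h hG i) := by
  have h1 : (offE E C).filter (fun e => G.inc (K.v i) e) = {K.h hG i} := by
    ext e
    rw [mem_filter, mem_offE, mem_singleton]
    exact K.not_mem_inc hG i e
  rw [h1, Finset.sum_singleton]

open Classical in
theorem sum_offE_off {A : Type} [AddCommMonoid A] (φ : E → A) {w : V} (hw : w ∉ G.verts C)
    {e₁ e₂ e₃ : E} (h12 : e₁ ≠ e₂) (h13 : e₁ ≠ e₃) (h23 : e₂ ≠ e₃)
    (hs : ∀ e, G.inc w e ↔ e = e₁ ∨ e = e₂ ∨ e = e₃) :
    ∑ e ∈ (offE E C).filter (fun e => G.inc w e), φ e = φ e₁ + (φ e₂ + φ e₃) := by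
  have h1 : (offE E C).filter (fun e => G.inc w e) = {e₁, e₂, e₃} := by
    ext e
    rw [mem_filter, mem_offE]
    simp only [mem_insert, mem_singleton]
    rw [← hs e]
    exact ⟨fun h => h.2, fun h => ⟨not_mem_of_off hw h, h⟩⟩
  rw [h1, Finset.sum_insert (by simp [h12, h13]), Finset.sum_insert (by simp [h23]),
    Finset.sum_singleton]

theorem sum_th_distinct {a b c : ZMod 3} (hab : a ≠ b) (hac : a ≠ c) (hbc : b ≠ c)
    (x : ZMod 3) : th (a + x) + (th (b + x) + th (c + x)) = 0 := by
  revert a b c x; decide

open Classical in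
/-- leaves of a component have zero total colour -/
theorem closure_sum (hcol : ∀ w, w ∉ G.verts C → ∀ e f, G.inc w e → G.inc w f → e ≠ f →
    col e ≠ col f) (κ : Comp G C) (x : ZMod 3) :
    ∑ i : Fin (n + 2), (if kap G C (K.v i) = κ then th (col (K.h hG i) + x) else 0) = 0 := by
  have h := double_count G (offE E C) (fun w => kap G C w = κ) (fun e he v w hv hw => by
    rw [kap_eq (mem_offE.1 he) hv hw]) f4_add_self (fun e => th (col e + x))
  rw [Finset.sum_filter] at h
  refine Eq.trans ?_ h
  refine Fintype.sum_of_injective K.v K.vinj _ _ (fun w hw => ?_) (fun i => ?_)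
  · split_ifs with hk
    · have hoff : w ∉ G.verts C := by
        rw [K.mem_verts]; exact hw
      obtain ⟨e₁, e₂, e₃, h12, h13, h23, hs⟩ := star_off hG w
      rw [sum_offE_off (fun e => th (col e + x)) hoff h12 h13 h23 hs]
      exact sum_th_distinct (hcol w hoff _ _ ((hs _).2 (by simp)) ((hs _).2 (by simp)) h12)
        (hcol w hoff _ _ ((hs _).2 (by simp)) ((hs _).2 (by simp)) h13)
        (hcol w hoff _ _ ((hs _).2 (by simp)) ((hs _).2 (by simp)) h23) x
    · rfl
  · split_ifs
    · rw [sum_offE_circ K hG]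
    · rfl

include K hG in
open Classical in
/-- a component has an even number of vertices -/
theorem even_vertices (κ : Comp G C) :
    ∑ w ∈ univ.filter (fun w => kap G C w = κ), (1 : ZMod 2) = 0 := by
  have h := double_count G (offE E C) (fun w => kap G C w = κ) (fun e he v w hv hw => by
    rw [kap_eq (mem_offE.1 he) hv hw]) z2_add_self (fun _ => (1 : ZMod 2))
  rw [← h]
  refine Finset.sum_congr rfl (fun w _ => ?_)
  by_cases hw : w ∈ G.verts C
  · obtain ⟨i, rfl⟩ := (K.mem_verts w).1 hw
    rw [sum_offE_circ K hG]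
  · obtain ⟨e₁, e₂, e₃, h12, h13, h23, hs⟩ := star_off hG w
    rw [sum_offE_off (fun _ => (1 : ZMod 2)) hw h12 h13 h23 hs]
    decide

/-- position number `i` -/
def pos (n i : ℕ) : Fin (n + 2) := ⟨i % (n + 2), Nat.mod_lt _ (by omega)⟩

theorem pos_val (i : Fin (n + 2)) : pos n i.1 = i := by
  apply Fin.ext
  simp [pos, Nat.mod_eq_of_lt i.2]

theorem sum_pos {A : Type} [AddCommMonoid A] (f : Fin (n + 2) → A) :
    ∑ i ∈ range (n + 2), f (pos n i) = ∑ i, f i := by
  rw [Finset.sum_range]
  exact Finset.sum_congr rfl (fun i _ => by rw [pos_val])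

/-- the sequence of the component `κ`, colours shifted by `x` -/
noncomputable def yy (κ : Comp G C) (x : ZMod 3) (i : ℕ) : F4 :=
  if kap G C (K.v (pos n i)) = κ then th (col (K.h hG (pos n i)) + x) else 0

/-- interaction of two components -/
noncomputable def BB (κ κ' : Comp G C) (x y : ZMod 3) : ZMod 2 :=
  Om (n + 2) (yy K hG col κ x) (yy K hG col κ' y)

variable (hcol : ∀ w, w ∉ G.verts C → ∀ e f, G.inc w e → G.inc w f → e ≠ f → col e ≠ col f)

include hcol in
theorem yy_sum (κ : Comp G C) (x : ZMod 3) : ∑ i ∈ range (n + 2), yy K hG col κ x i = 0 := by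
  have h := closure_sum K hG col hcol κ x
  rw [← sum_pos] at h
  rw [← h]
  refine Finset.sum_congr rfl (fun i _ => ?_)
  unfold yy
  congr

include hcol in
theorem BB_symm {κ κ' : Comp G C} (h : κ ≠ κ') (x y : ZMod 3) :
    BB K hG col κ κ' x y = BB K hG col κ' κ y x := by
  have h1 := Om_symm (n + 2) (yy K hG col κ x) (yy K hG col κ' y)
  rw [yy_sum K hG col hcol, yy_sum K hG col hcol, om_zero_left, zero_add,
    Finset.sum_eq_zero] at h1
  · exact CharTwo.add_eq_zero.1 h1
  · intro i _
    unfold yy
    by_cases hk : kap G C (K.v (pos n i)) = κ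
    · rw [if_neg (fun h' => h (hk ▸ h'))]
      simp
    · rw [if_neg hk]
      simp

theorem BB_even (κ κ' : Comp G C) (y : ZMod 3) : ∑ x, BB K hG col κ κ' x y = 0 := by
  unfold BB
  rw [Om_sum_left]
  have h1 : (fun i => ∑ x : ZMod 3, yy K hG col κ x i) = fun _ => 0 := by
    funext i
    unfold yy
    by_cases hk : kap G C (K.v (pos n i)) = κ
    · simp only [if_pos hk]
      exact sum_th _
    · simp only [if_neg hk, Finset.sum_const_zero]
  rw [h1]
  simp [Om]

end

end Pool.Agent.CDC
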