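import Pool.Agent.CDC.Acyclic

/-!
# Counting the vertices off a dominating circuit
-/

set_option autoImplicit false

namespace Pool.Agent.CDC

variable {V E : Type} {G : MGraph V E} {C : Set E}

theorem card_off_add [Finite V] (S : Set V) :
    Nat.card {v // v ∉ S} + Nat.card {v // v ∈ S} = Nat.card V := by
  classical
  have := Fintype.ofFinite V
  rw [Nat.card_eq_fintype_card, Nat.card_eq_fintype_card, Nat.card_eq_fintype_card,
    Fintype.card_subtype_compl, Nat.sub_add_cancel]
  exact Fintype.card_subtype_le _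

/-- if every edge has an end on the circuit, then at most a quarter of the vertices is off it -/
theorem four_mul_off [Finite V] (hG : G.Cubic) (hC : G.IsCircuit C)
    (hdom : ∀ e, ∃ v, v ∈ G.verts C ∧ G.inc v e) :
    4 * {v | v ∉ G.verts C}.ncard ≤ Nat.card V := by
  classical
  obtain ⟨n, ⟨K⟩⟩ := hC.circ
  -- three edges at every vertex off the circuit
  have hst : ∀ v : {v // v ∉ G.verts C}, ∃ st : Fin 3 → E, Function.Injective st ∧
      ∀ k, G.inc v.1 (st k) := by
    intro v
    obtain ⟨e₁, e₂, e₃, h12, h13, h23, hs⟩ := star_off hG v.1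
    refine ⟨![e₁, e₂, e₃], ?_, ?_⟩
    · intro a b hab
      fin_cases a <;> fin_cases b <;> simp_all
    · intro k
      fin_cases k
      · exact (hs _).2 (Or.inl rfl)
      · exact (hs _).2 (Or.inr (Or.inl rfl))
      · exact (hs _).2 (Or.inr (Or.inr rfl))
  choose st hst1 hst2 using hst
  choose w hw1 hw2 using fun p : {v // v ∉ G.verts C} × Fin 3 => hdom (st p.1 p.2)
  have hinj : Function.Injective (fun p : {v // v ∉ G.verts C} × Fin 3 =>
      (⟨w p, hw1 p⟩ : {v // v ∈ G.verts C})) := by
    rintro ⟨v, k⟩ ⟨v', k'⟩ h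
    have h0 : w (v, k) = w (v', k') := congrArg Subtype.val h
    obtain ⟨i, hi⟩ := (K.mem_verts _).1 (hw1 (v, k))
    have h1 : st v k = K.h hG i := by
      rw [← K.not_mem_inc hG i]
      exact ⟨not_mem_of_off v.2 (hst2 v k), hi ▸ hw2 (v, k)⟩
    have h2 : st v' k' = K.h hG i := by
      rw [← K.not_mem_inc hG i]
      refine ⟨not_mem_of_off v'.2 (hst2 v' k'), ?_⟩
      rw [hi, h0]
      exact hw2 (v', k')
    have h3 : st v k = st v' k' := h1.trans h2.symm
    have h4 : v.1 = v'.1 := by
      obtain ⟨x, hx, hx'⟩ := other_end G (hw2 (v, k))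
      have h5 : v.1 = x := by
        rcases (hx' _).1 (hst2 v k) with h | h
        · exact absurd (h ▸ hw1 (v, k)) v.2
        · exact h
      have h6 : v'.1 = x := by
        have h7 : G.inc v'.1 (st v k) := h3 ▸ hst2 v' k'
        rcases (hx' _).1 h7 with h | h
        · exact absurd (h ▸ hw1 (v, k)) v'.2
        · exact h
      rw [h5, h6]
    have h4' : v = v' := Subtype.ext h4
    subst h4'
    rw [hst1 v h3]
  have hle := Nat.card_le_card_of_injective _ hinj
  rw [Nat.card_prod, Nat.card_fin] at hle
  have htot := card_off_add (G.verts C)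
  have hn : {v | v ∉ G.verts C}.ncard = Nat.card {v // v ∉ G.verts C} :=
    (Nat.card_coe_set_eq _).symm
  rw [hn]
  omega

end Pool.Agent.CDC
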