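import Pool.Agent.CDC.Defs
import Pool.Agent.CDC.Local

/-!
# Expansion of vertices into triangles
-/

set_option autoImplicit false

namespace Pool.Agent.CDC

theorem ncard_range_inj {α β : Type} (φ : α → β) (h : Function.Injective φ) :
    (Set.range φ).ncard = Nat.card α := by
  rw [← Nat.card_coe_set_eq]
  exact Nat.card_congr (Equiv.ofInjective φ h).symm

namespace MGraph

variable {V E : Type} (G : MGraph V E)

/-- the end in `G_U` of an old edge -/
noncomputable def endU (U : Set V) (e : E) (v : {v // G.inc v e}) : G.ExpV U := by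
  classical
  exact if h : v.1 ∈ U then (Sum.inr ⟨(v.1, e), h, v.2⟩) else Sum.inl ⟨v.1, h⟩

theorem endU_of_mem (U : Set V) (e : E) (v : {v // G.inc v e}) (h : v.1 ∈ U) :
    G.endU U e v = Sum.inr ⟨(v.1, e), h, v.2⟩ := dif_pos h

theorem endU_of_notMem (U : Set V) (e : E) (v : {v // G.inc v e}) (h : v.1 ∉ U) :
    G.endU U e v = Sum.inl ⟨v.1, h⟩ := dif_neg h

theorem endU_injective (U : Set V) (e : E) : Function.Injective (G.endU U e) := by
  rintro ⟨v, hv⟩ ⟨w, hw⟩ h
  by_cases h1 : v ∈ U
  · rw [endU_of_mem G U e ⟨v, hv⟩ h1] at h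
    by_cases h2 : w ∈ U
    · rw [endU_of_mem G U e ⟨w, hw⟩ h2] at h
      have h3 := congrArg (fun x : G.ExpV U => match x with
        | Sum.inl x => x.1
        | Sum.inr x => x.1.1) h
      exact Subtype.ext h3
    · rw [endU_of_notMem G U e ⟨w, hw⟩ h2] at h
      cases h
  · rw [endU_of_notMem G U e ⟨v, hv⟩ h1] at h
    by_cases h2 : w ∈ U
    · rw [endU_of_mem G U e ⟨w, hw⟩ h2] at h
      cases h
    · rw [endU_of_notMem G U e ⟨w, hw⟩ h2] at h
      have h3 := congrArg (fun x : G.ExpV U => match x with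
        | Sum.inl x => x.1
        | Sum.inr x => x.1.1) h
      exact Subtype.ext h3

theorem expInc_two (hG : G.Cubic) (U : Set V) (e : G.ExpE U) : {v | G.expInc U v e}.ncard = 2 := by
  classical
  rcases e with e | ⟨⟨w, f⟩, hw, hf⟩
  · have h1 : {v : G.ExpV U | G.expInc U v (Sum.inl e)} = Set.range (G.endU U e) := by
      ext x
      constructor
      · intro hx
        rcases x with ⟨v, hv⟩ | ⟨⟨v, e'⟩, hv, hv'⟩
        · exact ⟨⟨v, hx⟩, G.endU_of_notMem U e _ hv⟩
        · have h2 : e' = e := hx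
          subst h2
          exact ⟨⟨v, hv'⟩, G.endU_of_mem U _ _ hv⟩
      · rintro ⟨⟨v, hv⟩, rfl⟩
        by_cases h : v ∈ U
        · rw [G.endU_of_mem U e _ h]
          show e = e
          rfl
        · rw [G.endU_of_notMem U e _ h]
          exact hv
    rw [h1, ncard_range_inj _ (G.endU_injective U e), ← G.two e]
    rfl
  · -- the triangle edge opposite to `(w, f)`
    have h3 : ({e | G.inc w e} \ {f}).ncard = 2 := by
      rw [Set.ncard_diff_singleton_of_mem (show f ∈ {e | G.inc w e} from hf), hG w]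
    let φ : {e // e ∈ ({e | G.inc w e} \ {f} : Set E)} → G.ExpV U :=
      fun e => Sum.inr ⟨(w, e.1), hw, e.2.1⟩
    have hφ : Function.Injective φ := by
      rintro ⟨v, hv⟩ ⟨w', hw'⟩ h
      have h3 := congrArg (fun x : G.ExpV U => match x with
        | Sum.inl _ => f
        | Sum.inr x => x.1.2) h
      exact Subtype.ext h3
    have h1 : {v : G.ExpV U | G.expInc U v (Sum.inr ⟨(w, f), hw, hf⟩)} = Set.range φ := by
      ext x
      constructor
      · intro hx
        rcases x with ⟨v, hv⟩ | ⟨⟨v, e'⟩, hv, hv'⟩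
        · exact absurd hx (by simp [expInc])
        · obtain ⟨h4, h5⟩ : v = w ∧ e' ≠ f := hx
          subst h4
          exact ⟨⟨e', hv', h5⟩, rfl⟩
      · rintro ⟨⟨e', he', hne⟩, rfl⟩
        exact ⟨rfl, hne⟩
    rw [h1, ncard_range_inj _ hφ, ← h3]
    exact Nat.card_coe_set_eq _

/-- the graph `G_U`: every vertex of `U` is expanded into a triangle -/
def expand (hG : G.Cubic) (U : Set V) : MGraph (G.ExpV U) (G.ExpE U) :=
  ⟨G.expInc U, G.expInc_two hG U⟩

end MGraph

end Pool.Agent.CDC
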