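import Pool.Agent.CDC.Main
import Pool.Agent.CDC.Expand

/-!
# From colours to double covers and to perfect matchings
-/

set_option autoImplicit false

namespace Pool.Agent.CDC

open Finset

/-- the four elements -/
def zz : Fin 4 → F4 := ![(0, 0), (0, 1), (1, 0), (1, 1)]

/-! ### finite checks -/

theorem chk_circ_even (X z : F4) (d : ZMod 3) :
    Even ((if X + th d = z then 1 else 0) + (if X = z then 1 else 0) +
      (if om (th d) z = om (th d) X then 1 else 0)) := by
  revert X z d; decide

theorem chk_off_even (d₁ d₂ d₃ : ZMod 3) (c₁ c₂ c₃ : ZMod 2) (z : F4) (h12 : d₁ ≠ d₂)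
    (h13 : d₁ ≠ d₃) (h23 : d₂ ≠ d₃) (hc : c₁ + (c₂ + c₃) = 1) :
    Even ((if om (th d₁) z = c₁ then 1 else 0) + (if om (th d₂) z = c₂ then 1 else 0) +
      (if om (th d₃) z = c₃ then 1 else 0)) := by
  have h0 : th d₁ + (th d₂ + th d₃) = 0 := by
    have := sum_th_distinct h12 h13 h23 0
    simpa using this
  have h1 : om (th d₁) z + (om (th d₂) z + om (th d₃) z) = 0 := by
    rw [← om_add_left, ← om_add_left, h0, om_zero_left]
  generalize om (th d₁) z = x₁ at h1 ⊢
  generalize om (th d₂) z = x₂ at h1 ⊢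
  generalize om (th d₃) z = x₃ at h1 ⊢
  clear h0 h12 h13 h23
  revert x₁ x₂ x₃ c₁ c₂ c₃
  decide

theorem chk_two_off (d : ZMod 3) (c : ZMod 2) :
    ∑ j : Fin 4, (if om (th d) (zz j) = c then 1 else 0) = 2 := by
  revert d c; decide

theorem chk_one_circ (x : F4) : ∑ j : Fin 4, (if x = zz j then 1 else 0) = 1 := by
  revert x; decide

theorem exists_zz (x : F4) : ∃ j, zz j = x := by revert x; decide

theorem chk_cover_off (d : ZMod 3) (c : ZMod 2) : ∃ j, om (th d) (zz j) ≠ c := by
  revert d c; decide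

theorem chk_cover_tri (d d' : ZMod 3) (c c' : ZMod 2) (h : d ≠ d') :
    ∃ j, om (th d) (zz j) = c ∧ om (th d') (zz j) = c' := by
  revert d d' c c'; decide

theorem chk_circ_a (X : F4) (d : ZMod 3) : X + th d ≠ X := by
  revert X d; decide

theorem chk_circ_b (X : F4) (d : ZMod 3) : om (th d) (X + th d) = om (th d) X := by
  revert X d; decide

theorem chk_circ_c (X z : F4) (d : ZMod 3) (h1 : X ≠ z) (h2 : X + th d ≠ z) :
    om (th d) z ≠ om (th d) X := by
  revert X z d; decide

theorem chk_off (d₁ d₂ d₃ : ZMod 3) (c₁ c₂ c₃ : ZMod 2) (z : F4) (h12 : d₁ ≠ d₂)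
    (h13 : d₁ ≠ d₃) (h23 : d₂ ≠ d₃) (hc : c₁ + (c₂ + c₃) = 1) (h1 : om (th d₁) z = c₁) :
    (om (th d₂) z = c₂ ∧ om (th d₃) z ≠ c₃) ∨ (om (th d₂) z ≠ c₂ ∧ om (th d₃) z = c₃) := by
  have h0 : th d₁ + (th d₂ + th d₃) = 0 := by
    have := sum_th_distinct h12 h13 h23 0
    simpa using this
  have h4 : om (th d₁) z + (om (th d₂) z + om (th d₃) z) = 0 := by
    rw [← om_add_left, ← om_add_left, h0, om_zero_left]
  generalize om (th d₁) z = x₁ at h1 h4 ⊢
  generalize om (th d₂) z = x₂ at h4 ⊢
  generalize om (th d₃) z = x₃ at h4 ⊢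
  clear h0 h12 h13 h23
  revert x₁ x₂ x₃ c₁ c₂ c₃
  decide

theorem even_congr {p q r p' q' r' : Prop} {_ : Decidable p} {_ : Decidable q}
    {_ : Decidable r} {_ : Decidable p'} {_ : Decidable q'} {_ : Decidable r'} (hp : p ↔ p') (hq : q ↔ q') (hr : r ↔ r')
    (h : Even ((if p' then 1 else 0) + (if q' then 1 else 0) + (if r' then 1 else 0))) :
    Even ((if p then 1 else 0) + (if q then 1 else 0) + (if r then 1 else 0)) := by
  rw [if_congr hp rfl rfl, if_congr hq rfl rfl, if_congr hr rfl rfl]
  exact h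

theorem one_congr {p p' : Prop} {_ : Decidable p} {_ : Decidable p'} (hp : p ↔ p') :
    (if p then 1 else 0) = (if p' then 1 else 0) := if_congr hp rfl rfl

/-! ### counting -/

section

variable {V E : Type} {G : MGraph V E} {C : Set E} {n : ℕ}

open Classical in
theorem ncard_star {w : V} {e₁ e₂ e₃ : E} (h12 : e₁ ≠ e₂) (h13 : e₁ ≠ e₃) (h23 : e₂ ≠ e₃)
    (hs : ∀ e, G.inc w e ↔ e = e₁ ∨ e = e₂ ∨ e = e₃) (D : Set E) :
    {e | e ∈ D ∧ G.inc w e}.ncard =
      (if e₁ ∈ D then 1 else 0) + (if e₂ ∈ D then 1 else 0) + (if e₃ ∈ D then 1 else 0) := by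
  have h1 : {e | e ∈ D ∧ G.inc w e} = ↑(({e₁, e₂, e₃} : Finset E).filter (fun e => e ∈ D)) := by
    ext e
    simp only [Set.mem_setOf_eq, coe_filter, mem_insert, mem_singleton]
    rw [hs e]
    exact and_comm
  rw [h1, Set.ncard_coe_finset, Finset.card_filter,
    Finset.sum_insert (by simp [h12, h13]), Finset.sum_insert (by simp [h23]),
    Finset.sum_singleton, add_assoc]

theorem star_off' (hG : G.Cubic) (w : V) {e : E} (he : G.inc w e) :
    ∃ f g, e ≠ f ∧ e ≠ g ∧ f ≠ g ∧ ∀ x, G.inc w x ↔ x = e ∨ x = f ∨ x = g := by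
  obtain ⟨e₁, e₂, e₃, h12, h13, h23, hs⟩ := star_off hG w
  rcases (hs e).1 he with rfl | rfl | rfl
  · exact ⟨e₂, e₃, h12, h13, h23, hs⟩
  · exact ⟨e₁, e₃, h12.symm, h23, h13, fun x => by rw [hs]; tauto⟩
  · exact ⟨e₁, e₂, h13.symm, h23.symm, h12, fun x => by rw [hs]; tauto⟩

variable [Fintype V] [Fintype E]

/-- the double cover and the matchings from the colours -/
theorem cover_of_core (K : Circ G C n) (hG : G.Cubic) (dd : E → ZMod 3) (c : E → ZMod 2)
    (xe : E → F4)
    (h1 : ∀ w, w ∉ G.verts C → ∀ e f, G.inc w e → G.inc w f → e ≠ f → dd e ≠ dd f)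
    (h2 : ∀ w, w ∉ G.verts C → ∀ e₁ e₂ e₃, e₁ ≠ e₂ → e₁ ≠ e₃ → e₂ ≠ e₃ →
      (∀ e, G.inc w e ↔ e = e₁ ∨ e = e₂ ∨ e = e₃) → c e₁ + (c e₂ + c e₃) = 1)
    (h3 : ∀ i, xe (K.a i) = xe (K.a (i - 1)) + th (dd (K.h hG i)) ∧
      c (K.h hG i) = om (th (dd (K.h hG i))) (xe (K.a (i - 1)))) :
    (∃ D : Fin 5 → Set E, G.IsCDC D ∧ D 0 = C) ∧
      (G.expand hG {w | w ∉ G.verts C}).Coverable4 := by
  classical
  have hne1 : ∀ i, K.a i ≠ K.h hG i := fun i h => K.h_notMem hG i (h ▸ K.mem i)
  have hne2 : ∀ i, K.a (i - 1) ≠ K.h hG i := fun i h => K.h_notMem hG i (h ▸ K.mem _)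
  constructor
  · let P : F4 → E → Prop := fun z e => if e ∈ C then xe e = z else om (th (dd e)) z = c e
    have hP1 : ∀ z e, e ∈ C → (P z e ↔ xe e = z) := fun z e he => by simp [P, he]
    have hP2 : ∀ z e, e ∉ C → (P z e ↔ om (th (dd e)) z = c e) := fun z e he => by simp [P, he]
    refine ⟨Fin.cons C (fun j => {e | P (zz j) e}), ⟨?_, ?_⟩, rfl⟩
    · intro i
      refine Fin.cases ?_ (fun j => ?_) i
      · intro w
        rw [Fin.cons_zero]
        by_cases hw : w ∈ G.verts C
        · obtain ⟨i, rfl⟩ := (K.mem_verts w).1 hw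
          rw [ncard_star (K.a_ne i) (hne1 i) (hne2 i) (K.inc_iff hG i), if_pos (K.mem i),
            if_pos (K.mem _), if_neg (K.h_notMem hG i)]
          decide
        · have h4 : {e | e ∈ C ∧ G.inc w e} = ∅ := by
            ext e
            simp only [Set.mem_setOf_eq, Set.mem_empty_iff_false, iff_false, not_and]
            exact fun h5 h6 => not_mem_of_off hw h6 h5
          rw [h4]
          simp
      · intro w
        rw [Fin.cons_succ]
        by_cases hw : w ∈ G.verts C
        · obtain ⟨i, rfl⟩ := (K.mem_verts w).1 hw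
          rw [ncard_star (K.a_ne i) (hne1 i) (hne2 i) (K.inc_iff hG i)]
          have h5 := chk_circ_even (xe (K.a (i - 1))) (zz j) (dd (K.h hG i))
          rw [← (h3 i).1, ← (h3 i).2] at h5
          exact even_congr (hP1 _ _ (K.mem i)) (hP1 _ _ (K.mem _)) (hP2 _ _ (K.h_notMem hG i)) h5
        · obtain ⟨e₁, e₂, e₃, h12, h13, h23, hs⟩ := star_off hG w
          have i1 := (hs e₁).2 (Or.inl rfl)
          have i2 := (hs e₂).2 (Or.inr (Or.inl rfl))
          have i3 := (hs e₃).2 (Or.inr (Or.inr rfl))
          rw [ncard_star h12 h13 h23 hs]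
          have h5 := chk_off_even (dd e₁) (dd e₂) (dd e₃) (c e₁) (c e₂) (c e₃) (zz j)
            (h1 w hw _ _ i1 i2 h12) (h1 w hw _ _ i1 i3 h13) (h1 w hw _ _ i2 i3 h23)
            (h2 w hw _ _ _ h12 h13 h23 hs)
          exact even_congr (hP2 _ _ (not_mem_of_off hw i1)) (hP2 _ _ (not_mem_of_off hw i2))
            (hP2 _ _ (not_mem_of_off hw i3)) h5
    · intro e
      have h4 : {i : Fin 5 | e ∈ (Fin.cons C (fun j => {e | P (zz j) e}) : Fin 5 → Set E) i} =
          ↑((univ : Finset (Fin 5)).filter (fun i =>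
            e ∈ (Fin.cons C (fun j => {e | P (zz j) e}) : Fin 5 → Set E) i)) := by
        ext i; simp
      rw [h4, Set.ncard_coe_finset, Finset.card_filter, Fin.sum_univ_succ]
      simp only [Fin.cons_zero, Fin.cons_succ, Set.mem_setOf_eq]
      by_cases he : e ∈ C
      · rw [if_pos he]
        have h5 := chk_one_circ (xe e)
        have h6 : (∑ j : Fin 4, if P (zz j) e then 1 else 0) =
            ∑ j : Fin 4, (if xe e = zz j then 1 else 0) :=
          Finset.sum_congr rfl (fun j _ => one_congr (hP1 (zz j) e he))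
        rw [h6, h5]
      · rw [if_neg he]
        have h5 := chk_two_off (dd e) (c e)
        have h6 : (∑ j : Fin 4, if P (zz j) e then 1 else 0) =
            ∑ j : Fin 4, (if om (th (dd e)) (zz j) = c e then 1 else 0) :=
          Finset.sum_congr rfl (fun j _ => one_congr (hP2 (zz j) e he))
        rw [h6, h5]
  · refine ⟨fun j => {x | match x with
      | Sum.inl e => (e ∈ C ∧ xe e = zz j) ∨ (e ∉ C ∧ om (th (dd e)) (zz j) ≠ c e)
      | Sum.inr p => ∀ e, G.inc p.1.1 e → e ≠ p.1.2 → om (th (dd e)) (zz j) = c e}, ?_, ?_⟩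
    · intro j x
      rcases x with ⟨w, hw⟩ | ⟨⟨w, e⟩, hw, he⟩
      · have hw' : w ∈ G.verts C := by
          by_contra h
          exact hw h
        obtain ⟨i, rfl⟩ := (K.mem_verts w).1 hw'
        obtain ⟨h31, h32⟩ := h3 i
        by_cases hz1 : xe (K.a (i - 1)) = zz j
        · refine ⟨Sum.inl (K.a (i - 1)), ⟨Or.inl ⟨K.mem _, hz1⟩,
            (K.inc_iff hG i _).2 (Or.inr (Or.inl rfl))⟩, ?_⟩
          rintro (e | q) ⟨hM, hinc⟩
          · rcases (K.inc_iff hG i e).1 hinc with rfl | rfl | rfl
            · rcases hM with hM | hM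
              · exact absurd (h31.symm.trans (hM.2.trans hz1.symm)) (chk_circ_a _ _)
              · exact absurd (K.mem i) hM.1
            · rfl
            · rcases hM with hM | hM
              · exact absurd hM.1 (K.h_notMem hG i)
              · exact absurd (by rw [h32, hz1]) hM.2
          · exact absurd hinc (by simp [MGraph.expand, MGraph.expInc])
        · by_cases hz2 : xe (K.a i) = zz j
          · refine ⟨Sum.inl (K.a i), ⟨Or.inl ⟨K.mem _, hz2⟩,
              (K.inc_iff hG i _).2 (Or.inl rfl)⟩, ?_⟩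
            rintro (e | q) ⟨hM, hinc⟩
            · rcases (K.inc_iff hG i e).1 hinc with rfl | rfl | rfl
              · rfl
              · rcases hM with hM | hM
                · exact absurd hM.2 hz1
                · exact absurd (K.mem _) hM.1
              · rcases hM with hM | hM
                · exact absurd hM.1 (K.h_notMem hG i)
                · exact absurd (by rw [h32, ← hz2, h31, chk_circ_b]) hM.2
            · exact absurd hinc (by simp [MGraph.expand, MGraph.expInc])
          · refine ⟨Sum.inl (K.h hG i), ⟨Or.inr ⟨K.h_notMem hG i, ?_⟩, K.h_inc hG i⟩, ?_⟩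
            · rw [h32]
              exact chk_circ_c _ _ _ hz1 (by rw [← h31]; exact hz2)
            · rintro (e | q) ⟨hM, hinc⟩
              · rcases (K.inc_iff hG i e).1 hinc with rfl | rfl | rfl
                · rcases hM with hM | hM
                  · exact absurd hM.2 hz2
                  · exact absurd (K.mem _) hM.1
                · rcases hM with hM | hM
                  · exact absurd hM.2 hz1
                  · exact absurd (K.mem _) hM.1
                · rfl
              · exact absurd hinc (by simp [MGraph.expand, MGraph.expInc])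
      · have hw' : w ∉ G.verts C := hw
        have he' : G.inc w e := he
        obtain ⟨f, g, hef, heg, hfg, hs⟩ := star_off' hG w he'
        have hf : G.inc w f := (hs f).2 (Or.inr (Or.inl rfl))
        have hg : G.inc w g := (hs g).2 (Or.inr (Or.inr rfl))
        by_cases hz : om (th (dd e)) (zz j) = c e
        · rcases chk_off (dd e) (dd f) (dd g) (c e) (c f) (c g) (zz j) (h1 w hw' _ _ he' hf hef)
            (h1 w hw' _ _ he' hg heg) (h1 w hw' _ _ hf hg hfg) (h2 w hw' _ _ _ hef heg hfg hs) hz
            with ⟨hf1, hg1⟩ | ⟨hf1, hg1⟩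
          · refine ⟨Sum.inr ⟨(w, g), hw, hg⟩, ⟨?_, rfl, heg⟩, ?_⟩
            · intro e' he1 he2
              rcases (hs e').1 he1 with rfl | rfl | rfl
              · exact hz
              · exact hf1
              · exact absurd rfl he2
            · rintro (e' | ⟨⟨w', f'⟩, hw1, hf'⟩) ⟨hM, hinc⟩
              · have h5 : e = e' := hinc
                subst h5
                rcases hM with hM | hM
                · exact absurd hM.1 (not_mem_of_off hw' he')
                · exact absurd hz hM.2
              · obtain ⟨h5, h6⟩ : w = w' ∧ e ≠ f' := hinc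
                subst h5
                rcases (hs f').1 hf' with rfl | rfl | rfl
                · exact absurd rfl h6
                · exact absurd (hM g hg (Ne.symm hfg)) hg1
                · rfl
          · refine ⟨Sum.inr ⟨(w, f), hw, hf⟩, ⟨?_, rfl, hef⟩, ?_⟩
            · intro e' he1 he2
              rcases (hs e').1 he1 with rfl | rfl | rfl
              · exact hz
              · exact absurd rfl he2
              · exact hg1
            · rintro (e' | ⟨⟨w', f'⟩, hw1, hf'⟩) ⟨hM, hinc⟩
              · have h5 : e = e' := hinc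
                subst h5
                rcases hM with hM | hM
                · exact absurd hM.1 (not_mem_of_off hw' he')
                · exact absurd hz hM.2
              · obtain ⟨h5, h6⟩ : w = w' ∧ e ≠ f' := hinc
                subst h5
                rcases (hs f').1 hf' with rfl | rfl | rfl
                · exact absurd rfl h6
                · rfl
                · exact absurd (hM f hf hfg) hf1
        · refine ⟨Sum.inl e, ⟨Or.inr ⟨not_mem_of_off hw' he', hz⟩, rfl⟩, ?_⟩
          rintro (e' | ⟨⟨w', f'⟩, hw1, hf'⟩) ⟨hM, hinc⟩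
          · have h5 : e = e' := hinc
            subst h5
            rfl
          · obtain ⟨h5, h6⟩ : w = w' ∧ e ≠ f' := hinc
            subst h5
            exact absurd (hM e he' h6) hz
    · rintro (e | ⟨⟨w, f⟩, hw, hf⟩)
      · by_cases he : e ∈ C
        · obtain ⟨j, hj⟩ := exists_zz (xe e)
          exact ⟨j, Or.inl ⟨he, hj.symm⟩⟩
        · obtain ⟨j, hj⟩ := chk_cover_off (dd e) (c e)
          exact ⟨j, Or.inr ⟨he, hj⟩⟩
      · have hf' : G.inc w f := hf
        have hw' : w ∉ G.verts C := hw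
        obtain ⟨e, g, hfe, hfg, heg, hs⟩ := star_off' hG w hf'
        have he : G.inc w e := (hs e).2 (Or.inr (Or.inl rfl))
        have hg : G.inc w g := (hs g).2 (Or.inr (Or.inr rfl))
        obtain ⟨j, hj1, hj2⟩ := chk_cover_tri (dd e) (dd g) (c e) (c g) (h1 w hw' _ _ he hg heg)
        refine ⟨j, ?_⟩
        intro e' he1 he2
        rcases (hs e').1 he1 with rfl | rfl | rfl
        · exact absurd rfl he2
        · exact hj1
        · exact hj2

end

end Pool.Agent.CDC
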