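import Pool.Agent.CDC.Join
import Pool.Agent.CDC.Cover

/-!
# Edge cuts
-/

set_option autoImplicit false

namespace Pool.Agent.CDC

open Finset

variable {V E : Type}

/-- the edges with one end in `S` and one end outside `S` -/
def MGraph.cut (G : MGraph V E) (S : Set V) : Set E :=
  {e | (∃ v ∈ S, G.inc v e) ∧ ∃ v, v ∉ S ∧ G.inc v e}

/-- no cut consists of one edge -/
def MGraph.Bridgeless (G : MGraph V E) : Prop := ∀ S : Set V, (G.cut S).ncard ≠ 1

theorem exists_ends (G : MGraph V E) (e : E) :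
    ∃ u w, u ≠ w ∧ ∀ z, G.inc z e ↔ z = u ∨ z = w := by
  obtain ⟨u, w, huw, hS⟩ := Set.ncard_eq_two.1 (G.two e)
  refine ⟨u, w, huw, fun z => ?_⟩
  have : z ∈ {v | G.inc v e} ↔ z ∈ ({u, w} : Set V) := by rw [hS]
  simpa using this

theorem mem_cut_iff {G : MGraph V E} {e : E} {u w : V} (h : ∀ z, G.inc z e ↔ z = u ∨ z = w)
    (S : Set V) : e ∈ G.cut S ↔ (u ∈ S ∧ w ∉ S) ∨ (u ∉ S ∧ w ∈ S) := by
  constructor
  · rintro ⟨⟨v, hv, hv'⟩, z, hz, hz'⟩
    rw [h] at hv' hz'
    rcases hv' with rfl | rfl <;> rcases hz' with rfl | rfl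
    · exact absurd hv hz
    · exact Or.inl ⟨hv, hz⟩
    · exact Or.inr ⟨hz, hv⟩
    · exact absurd hv hz
  · rintro (⟨h1, h2⟩ | ⟨h1, h2⟩)
    · exact ⟨⟨u, h1, (h u).2 (Or.inl rfl)⟩, w, h2, (h w).2 (Or.inr rfl)⟩
    · exact ⟨⟨w, h2, (h w).2 (Or.inr rfl)⟩, u, h1, (h u).2 (Or.inl rfl)⟩

theorem cut_compl (G : MGraph V E) (S : Set V) : G.cut Sᶜ = G.cut S := by
  ext e
  obtain ⟨u, w, -, h⟩ := exists_ends G e
  rw [mem_cut_iff h, mem_cut_iff h]
  simp only [Set.mem_compl_iff, not_not]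
  tauto

open Classical in
/-- sum over the stars of the vertices of `S` -/
theorem cut_sum [Fintype V] [Fintype E] (G : MGraph V E) (S : Set V) {A : Type} [AddCommGroup A]
    (hA : ∀ a : A, a + a = 0) (φ : E → A) :
    ∑ v ∈ univ.filter (fun v => v ∈ S), ∑ e ∈ univ.filter (fun e => G.inc v e), φ e =
      ∑ e ∈ univ.filter (fun e => e ∈ G.cut S), φ e := by
  have h1 : ∑ v ∈ univ.filter (fun v => v ∈ S), ∑ e ∈ univ.filter (fun e => G.inc v e), φ e =
      ∑ e, ∑ v ∈ (univ.filter (fun v => v ∈ S)).filter (fun v => G.inc v e), φ e := by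
    refine Finset.sum_comm' (fun v e => ?_)
    simp only [mem_filter, mem_univ, true_and, and_true]
  rw [h1, Finset.sum_filter]
  refine Finset.sum_congr rfl (fun e _ => ?_)
  obtain ⟨u, w, huw, h⟩ := exists_ends G e
  have h2 : (univ.filter (fun v => v ∈ S)).filter (fun v => G.inc v e) =
      ({u, w} : Finset V).filter (fun v => v ∈ S) := by
    ext z
    simp only [mem_filter, mem_univ, true_and, mem_insert, mem_singleton, h z]
    tauto
  rw [h2, Finset.sum_filter, Finset.sum_pair huw]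
  have h3 := mem_cut_iff h S
  by_cases hu : u ∈ S <;> by_cases hw : w ∈ S
  · rw [if_pos hu, if_pos hw, if_neg (by rw [h3]; tauto)]
    exact hA _
  · rw [if_pos hu, if_neg hw, if_pos (by rw [h3]; tauto), add_zero]
  · rw [if_neg hu, if_pos hw, if_pos (by rw [h3]; tauto), zero_add]
  · rw [if_neg hu, if_neg hw, if_neg (by rw [h3]; tauto), add_zero]

open Classical in
theorem sum_star [Fintype E] {G : MGraph V E} {A : Type} [AddCommMonoid A] (φ : E → A) {w : V}
    {e₁ e₂ e₃ : E} (h12 : e₁ ≠ e₂) (h13 : e₁ ≠ e₃) (h23 : e₂ ≠ e₃)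
    (hs : ∀ e, G.inc w e ↔ e = e₁ ∨ e = e₂ ∨ e = e₃) :
    ∑ e ∈ univ.filter (fun e => G.inc w e), φ e = φ e₁ + (φ e₂ + φ e₃) := by
  have h1 : univ.filter (fun e => G.inc w e) = {e₁, e₂, e₃} := by
    ext e
    rw [mem_filter]
    simp only [mem_insert, mem_singleton, mem_univ, true_and]
    exact hs e
  rw [h1, Finset.sum_insert (by simp [h12, h13]), Finset.sum_insert (by simp [h23]),
    Finset.sum_singleton]

/-- the parity of a cut in a cubic graph -/
theorem cut_parity [Finite V] [Finite E] {G : MGraph V E} (hG : G.Cubic) (S : Set V) :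
    ((G.cut S).ncard : ZMod 2) = (S.ncard : ZMod 2) := by
  classical
  have := Fintype.ofFinite V
  have := Fintype.ofFinite E
  have h := cut_sum G S z2_add_self (fun _ => (1 : ZMod 2))
  have h1 : ∀ v ∈ univ.filter (fun v => v ∈ S),
      ∑ e ∈ univ.filter (fun e => G.inc v e), (1 : ZMod 2) = 1 := by
    intro v _
    obtain ⟨e₁, e₂, e₃, h12, h13, h23, hs⟩ := star_off hG v
    rw [sum_star (fun _ => (1 : ZMod 2)) h12 h13 h23 hs]
    decide
  rw [Finset.sum_congr rfl h1, Finset.sum_const, Finset.sum_const, nsmul_eq_mul, nsmul_eq_mul,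
    mul_one, mul_one] at h
  have e1 : (univ.filter (fun v => v ∈ S)).card = S.ncard := by
    rw [← Set.ncard_coe_finset]
    congr 1
    ext v; simp
  have e2 : (univ.filter (fun e => e ∈ G.cut S)).card = (G.cut S).ncard := by
    rw [← Set.ncard_coe_finset]
    congr 1
    ext v; simp
  rw [← e1, ← e2]
  exact h.symm

/-- adding a vertex to one side -/
theorem cut_insert {G : MGraph V E} (S : Set V) {v : V} (hv : v ∉ S) (e : E) :
    e ∈ G.cut (insert v S) ↔ (e ∈ G.cut S ∧ ¬ G.inc v e) ∨ (e ∉ G.cut S ∧ G.inc v e) := by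
  obtain ⟨u, w, huw, h⟩ := exists_ends G e
  rw [mem_cut_iff h, mem_cut_iff h, h v]
  simp only [Set.mem_insert_iff]
  by_cases h1 : v = u
  · subst h1
    have : ¬ w = v := fun h' => huw h'.symm
    tauto
  · by_cases h2 : v = w
    · subst h2
      tauto
    · have : ¬ u = v := fun h' => h1 h'.symm
      have : ¬ w = v := fun h' => h2 h'.symm
      tauto

theorem card_cut_insert [Finite E] {G : MGraph V E} (hG : G.Cubic) (S : Set V) {v : V}
    (hv : v ∉ S) : (G.cut (insert v S)).ncard + 2 * {e | e ∈ G.cut S ∧ G.inc v e}.ncard =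
      (G.cut S).ncard + 3 := by
  have h1 : G.cut (insert v S) = {e | e ∈ G.cut S ∧ ¬ G.inc v e} ∪ {e | e ∉ G.cut S ∧ G.inc v e} := by
    ext e
    exact cut_insert S hv e
  have h2 : (G.cut (insert v S)).ncard = {e | e ∈ G.cut S ∧ ¬ G.inc v e}.ncard +
      {e | e ∉ G.cut S ∧ G.inc v e}.ncard := by
    rw [h1]
    refine Set.ncard_union_eq ?_ (Set.toFinite _) (Set.toFinite _)
    rw [Set.disjoint_left]
    exact fun e h3 h4 => h4.1 h3.1
  have h3 : (G.cut S).ncard = {e | e ∈ G.cut S ∧ G.inc v e}.ncard +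
      {e | e ∈ G.cut S ∧ ¬ G.inc v e}.ncard := by
    rw [← Set.ncard_union_eq _ (Set.toFinite _) (Set.toFinite _)]
    · congr 1
      ext e
      simp only [Set.mem_union, Set.mem_setOf_eq]
      tauto
    · rw [Set.disjoint_left]
      exact fun e h3 h4 => h4.2 h3.2
  have h4 : 3 = {e | e ∈ G.cut S ∧ G.inc v e}.ncard + {e | e ∉ G.cut S ∧ G.inc v e}.ncard := by
    rw [← Set.ncard_union_eq _ (Set.toFinite _) (Set.toFinite _), ← hG v]
    · congr 1
      ext e
      simp only [Set.mem_union, Set.mem_setOf_eq]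
      tauto
    · rw [Set.disjoint_left]
      exact fun e h3 h4 => h4.1 h3.1
  omega

end Pool.Agent.CDC
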