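import Mathlib

/-!
# Cubic multigraphs, circuits, double covers, expansion of vertices into triangles

Graphs are finite and loopless, parallel edges are allowed: a graph is given by its incidence
relation, every edge is incident with exactly two vertices.
-/

set_option autoImplicit false

namespace Pool.Agent.CDC

/-- loopless multigraph with vertex set `V` and edge set `E`, given by the incidence relation -/
structure MGraph (V E : Type) where
  inc : V → E → Prop
  two : ∀ e, {v | inc v e}.ncard = 2

namespace MGraph

variable {V E : Type} (G : MGraph V E)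

/-- every vertex is incident with exactly three edges -/
def Cubic : Prop := ∀ v, {e | G.inc v e}.ncard = 3

/-- the set of edges `C` is (the edge set of) a circuit: there are distinct vertices
`v 0, …, v (n+1)` and distinct edges `a 0, …, a (n+1)`, `n + 2 ≥ 2` of each, such that `a i` joins
`v i` and `v (i + 1)` (indices modulo `n + 2`), and `C` consists of the edges `a i` -/
def IsCircuit (C : Set E) : Prop :=
  ∃ (n : ℕ) (v : Fin (n + 2) → V) (a : Fin (n + 2) → E), Function.Injective v ∧
    Function.Injective a ∧ (∀ i w, G.inc w (a i) ↔ w = v i ∨ w = v (i + 1)) ∧ Set.range a = C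

/-- the vertices which are incident with an edge of `C` -/
def verts (C : Set E) : Set V := {v | ∃ e ∈ C, G.inc v e}

/-- `D` is the edge set of an even subgraph -/
def IsEven (D : Set E) : Prop := ∀ v, Even {e | e ∈ D ∧ G.inc v e}.ncard

/-- `D 0, …, D (k - 1)` are even subgraphs and every edge lies in exactly two of them -/
def IsCDC {k : ℕ} (D : Fin k → Set E) : Prop :=
  (∀ i, G.IsEven (D i)) ∧ ∀ e, {i | e ∈ D i}.ncard = 2

/-- `M` is a perfect matching -/
def IsPM (M : Set E) : Prop := ∀ v, ∃! e, e ∈ M ∧ G.inc v e

/-- four perfect matchings (not necessarily distinct) cover all edges -/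
def Coverable4 : Prop := ∃ M : Fin 4 → Set E, (∀ i, G.IsPM (M i)) ∧ ∀ e, ∃ i, e ∈ M i

/-- vertices of `G_U`: the vertices outside `U`, and for every `v ∈ U` three vertices `(v, e)`, one
for every edge `e` at `v` -/
def ExpV (U : Set V) : Type := {v : V // v ∉ U} ⊕ {p : V × E // p.1 ∈ U ∧ G.inc p.1 p.2}

/-- edges of `G_U`: the edges of `G`, and for every `v ∈ U` three edges `(v, f)`, one for every
edge `f` at `v`: the edge of the triangle opposite to the vertex `(v, f)` -/
def ExpE (U : Set V) : Type := E ⊕ {p : V × E // p.1 ∈ U ∧ G.inc p.1 p.2}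

/-- incidence of `G_U`: an old vertex keeps its edges; the vertex `(v, e)` is incident with the
edge `e` and with the two triangle edges `(v, f)`, `f ≠ e` -/
def expInc (U : Set V) : G.ExpV U → G.ExpE U → Prop
  | Sum.inl v, Sum.inl e => G.inc v.1 e
  | Sum.inl _, Sum.inr _ => False
  | Sum.inr p, Sum.inl e => p.1.2 = e
  | Sum.inr p, Sum.inr q => p.1.1 = q.1.1 ∧ p.1.2 ≠ q.1.2

end MGraph

end Pool.Agent.CDC
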