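import Pool.Agent.CDC.ThreeJ

/-!
# Cubic graphs with a 2-factor with at most two odd circuits
-/

set_option autoImplicit false

namespace Pool.Agent.CDC

open Finset AFlow

variable {V E : Type} {G : MGraph V E}

/-- `G` is cyclically `c`-edge-connected: every edge cut both sides of which contain circuits has
at least `c` edges -/
def MGraph.CyclicConn (G : MGraph V E) (c : ℕ) : Prop :=
  ∀ S : Set V, (∃ C, G.IsCircuit C ∧ G.verts C ⊆ S) → (∃ C, G.IsCircuit C ∧ G.verts C ⊆ Sᶜ) →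
    c ≤ (G.cut S).ncard

theorem card_circs (M : Set E) :
    Nat.card (G.Circs M) = {C | G.IsCircuit C ∧ C ⊆ Mᶜ}.ncard := by
  rw [← Nat.card_coe_set_eq]
  rfl

namespace FD

variable {M : Set E} {κ : V → G.Circs M} {me : V → E} {μ : V → V}

/-- all circuits even -/
theorem no_odd [Fintype V] [Finite E] (_h : FD G M κ me μ) (hG : G.Cubic)
    (hev : ∀ i : G.Circs M, Even i.1.ncard) :
    ∃ D : Fin 5 → Set E, G.IsCDC D ∧ {v | v ∉ G.verts (D 0)}.ncard = 0 := by
  classical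
  have := Fintype.ofFinite (G.Circs M)
  obtain ⟨D, hD, hD'⟩ := jmain hG (fun i : G.Circs M => i.1) (fun i => i.2.1) (fun v =>
    ⟨κ v, _h.mem v, fun i hi => (_h.uniq v i hi).symm⟩) (fun _ => 0) (fun _ => 0) (fun i => by
      obtain ⟨n, ⟨K⟩⟩ := i.2.1.circ
      refine local_zero hG K ?_ _ (fun _ => rfl)
      have h1 := hev i
      rw [K.ncard_eq] at h1
      obtain ⟨m, hm⟩ := h1
      exact ⟨m - 1, by omega⟩)
  refine ⟨D, hD, ?_⟩
  have h1 : ∑ _i : G.Circs M, 0 = 0 := Finset.sum_const_zero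
  rw [h1] at hD'
  exact Nat.le_zero.1 hD'

open Classical in
/-- the number of odd circuits is not one -/
theorem not_one [Fintype V] [Finite E] (h : FD G M κ me μ) (hG : G.Cubic) (a : G.Circs M)
    (ha : Odd a.1.ncard) (hev : ∀ i, i ≠ a → Even i.1.ncard) : False := by
  have := Fintype.ofFinite (G.Circs M)
  have h1 := h.card_union (univ : Finset (G.Circs M))
  have h2 : {v | κ v ∈ (univ : Finset (G.Circs M))} = Set.univ := by
    ext v; simp
  rw [h2] at h1
  have h3 := cut_parity hG (Set.univ : Set V)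
  have h4 : G.cut (Set.univ : Set V) = ∅ := by
    ext e
    simp [MGraph.cut]
  rw [h4, h1] at h3
  push_cast at h3
  rw [Finset.sum_eq_single a] at h3
  · rw [(ZMod.natCast_eq_one_iff_odd).2 ha] at h3
    simp at h3
  · intro i _ hi
    rw [ZMod.natCast_eq_zero_iff_even]
    exact hev i hi
  · intro h'; exact absurd (mem_univ _) h'

end FD

/-- **at most two odd circuits** -/
theorem few_odd [Finite V] [Finite E] (hG : G.Cubic) (hb : G.Bridgeless) {M : Set E}
    (hM : G.IsPM M) (ho : (G.oddCircuits M).ncard ≤ 2) :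
    ∃ D : Fin 5 → Set E, G.IsCDC D ∧
      {v | v ∉ G.verts (D 0)}.ncard ≤ 3 * {C | G.IsCircuit C ∧ C ⊆ Mᶜ}.ncard - 4 ∧
      (G.oddCircuits M = ∅ → {v | v ∉ G.verts (D 0)}.ncard = 0) ∧
      ∀ r, 1 ≤ r → G.CyclicConn (2 * r) → {v | v ∉ G.verts (D 0)}.ncard = 0 ∨
        (4 * r + 2) * ({v | v ∉ G.verts (D 0)}.ncard + 1) ≤ 3 * Nat.card V := by
  classical
  have := Fintype.ofFinite V
  obtain ⟨κ, me, μ, h⟩ := exists_FD hG hM
  have hno : ∀ i : G.Circs M, i.1 ∉ G.oddCircuits M → Even i.1.ncard := by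
    intro i hi
    rw [← Nat.not_odd_iff_even]
    exact fun h' => hi ⟨i.2.1, i.2.2, h'⟩
  have hcases : (G.oddCircuits M).ncard = 0 ∨ (G.oddCircuits M).ncard = 1 ∨
      (G.oddCircuits M).ncard = 2 := by omega
  rcases hcases with h0 | h0 | h0
  · rw [Set.ncard_eq_zero] at h0
    obtain ⟨D, hD, hD'⟩ := h.no_odd hG (fun i => hno i (by rw [h0]; exact Set.notMem_empty _))
    exact ⟨D, hD, by rw [hD']; exact Nat.zero_le _, fun _ => hD', fun r _ _ => Or.inl hD'⟩
  · exfalso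
    obtain ⟨C, hC⟩ := Set.ncard_eq_one.1 h0
    have hCm : C ∈ G.oddCircuits M := by rw [hC]; exact Set.mem_singleton _
    refine h.not_one hG ⟨C, hCm.1, hCm.2.1⟩ hCm.2.2 (fun i hi => hno i (fun h' => ?_))
    rw [hC, Set.mem_singleton_iff] at h'
    exact hi (Subtype.ext h')
  · obtain ⟨C₁, C₂, hne, hC⟩ := Set.ncard_eq_two.1 h0
    have hC₁ : C₁ ∈ G.oddCircuits M := by rw [hC]; simp
    have hC₂ : C₂ ∈ G.oddCircuits M := by rw [hC]; simp
    obtain ⟨D, hD, h1, h2⟩ := h.two_odd hG hb (a := ⟨C₁, hC₁.1, hC₁.2.1⟩)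
      (z := ⟨C₂, hC₂.1, hC₂.2.1⟩) (fun h' => hne (congrArg Subtype.val h')) hC₁.2.2 hC₂.2.2
      (fun i hi1 hi2 => hno i (fun h' => by
        rw [hC] at h'
        rcases h' with h' | h'
        · exact hi1 (Subtype.ext h')
        · exact hi2 (Subtype.ext h')))
    refine ⟨D, hD, ?_, fun h' => ?_, fun r hr hcc => ?_⟩
    · rw [card_circs] at h1
      omega
    · rw [h', Set.ncard_empty] at h0
      exact absurd h0 (by norm_num)
    · right
      have h3 := h2 (2 * r - 2) (fun S haS hzS => by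
        have h4 : 2 * r ≤ (G.cut {v | κ v ∈ S}).ncard := by
          refine hcc _ ⟨C₁, hC₁.1, fun v hv => ?_⟩ ⟨C₂, hC₂.1, fun v hv => ?_⟩
          · rw [Set.mem_setOf_eq, h.uniq v ⟨C₁, hC₁.1, hC₁.2.1⟩ hv]
            exact haS
          · rw [Set.mem_compl_iff, Set.mem_setOf_eq, h.uniq v ⟨C₂, hC₂.1, hC₂.2.1⟩ hv]
            exact hzS
        have h5 := cut_parity hG {v | κ v ∈ S}
        rw [h.card_union] at h5
        have h6 : ((∑ i ∈ S, i.1.ncard : ℕ) : ZMod 2) = 1 := by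
          push_cast
          rw [Finset.sum_eq_single (⟨C₁, hC₁.1, hC₁.2.1⟩ : G.Circs M)]
          · rw [ZMod.natCast_eq_one_iff_odd]
            exact hC₁.2.2
          · intro i hi hia
            rw [ZMod.natCast_eq_zero_iff_even]
            refine hno i (fun h' => ?_)
            rw [hC] at h'
            rcases h' with h' | h'
            · exact hia (Subtype.ext h')
            · have h7 : i = ⟨C₂, hC₂.1, hC₂.2.1⟩ := Subtype.ext h'
              exact hzS (h7 ▸ hi)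
          · intro h'; exact absurd haS h'
        rw [h6, ZMod.natCast_eq_one_iff_odd] at h5
        obtain ⟨k, hk⟩ := h5
        omega)
      have h4 : 2 * (2 * r - 2 + 3) = 4 * r + 2 := by omega
      rw [h4] at h3
      exact h3

/-- **three disjoint matchings of the odd circuits** -/
theorem three_matchings [Finite V] [Finite E] (hG : G.Cubic) {M : Set E} (hM : G.IsPM M)
    (J : Fin 3 → Set E) (hJ : ∀ l, J l ⊆ M) (hdis : ∀ k l, k ≠ l → Disjoint (J k) (J l))
    (hodd : ∀ C, G.IsCircuit C → C ⊆ Mᶜ → Odd C.ncard → ∀ l,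
      (G.verts C ∩ G.verts (J l)).ncard = 1)
    (heven : ∀ C, G.IsCircuit C → C ⊆ Mᶜ → Even C.ncard → ∃ l,
      Even (G.verts C ∩ G.verts (J l)).ncard ∧ ∀ k, k ≠ l → G.verts C ∩ G.verts (J k) = ∅) :
    ∃ D : Fin 5 → Set E, G.IsCDC D ∧
      2 * {v | v ∉ G.verts (D 0)}.ncard + (G.oddCircuits M).ncard ≤ 2 * (⋃ l, J l).ncard ∧
      ((∀ C, G.IsCircuit C → C ⊆ Mᶜ → Even C.ncard → ∀ l, G.verts C ∩ G.verts (J l) = ∅) →
        {v | v ∉ G.verts (D 0)}.ncard ≤ (G.oddCircuits M).ncard) := by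
  classical
  have := Fintype.ofFinite V
  obtain ⟨κ, me, μ, h⟩ := exists_FD hG hM
  obtain ⟨D, hD, hD', hD''⟩ := h.three_J hG J hJ hdis (fun i hi => hodd i.1 i.2.1 i.2.2 hi)
    (fun i hi => heven i.1 i.2.1 i.2.2 hi)
  refine ⟨D, hD, ?_⟩
  have h1 : {i : G.Circs M | Odd i.1.ncard}.ncard = (G.oddCircuits M).ncard := by
    rw [← Set.ncard_image_of_injective _ Subtype.val_injective]
    congr 1
    ext C
    constructor
    · rintro ⟨i, hi, rfl⟩
      exact ⟨i.2.1, i.2.2, hi⟩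
    · rintro ⟨h1, h2, h3⟩
      exact ⟨⟨C, h1, h2⟩, h3, rfl⟩
  rw [h1] at hD' hD''
  refine ⟨hD', fun hno => ?_⟩
  have h2 := hD'' (fun i hi l => hno i.1 i.2.1 i.2.2 hi l)
  omega

end Pool.Agent.CDC
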