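import Mathlib

/-!
# Integral flows with capacities one

A graph is given by its darts `D` with an involution `μ` without fixed points and by the tail map
`κ : D → ι`. A flow is a function `f : D → ℤ` with `f (μ d) = - f d`.
-/

set_option autoImplicit false

namespace Pool.Agent.CDC

open Finset

variable {D ι : Type} [Fintype D] [DecidableEq D] [DecidableEq ι] (μ : D → D) (κ : D → ι)

/-- the divergence at `i` -/
def dv (g : D → ℤ) (i : ι) : ℤ := ∑ d ∈ univ.filter (fun d => κ d = i), g d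

/-- the elementary flow along a dart -/
def el (d₀ : D) (d : D) : ℤ := (if d = d₀ then 1 else 0) - (if μ d = d₀ then 1 else 0)

/-- simple paths to `z` with darts in `Q`; the finset is the set of vertices -/
inductive SP (Q : D → Prop) (z : ι) : ι → Finset ι → Prop
  | nil : SP Q z z {z}
  | cons (d : D) (s : Finset ι) : Q d → κ d ∉ s → SP Q z (κ (μ d)) s → SP Q z (κ d) (insert (κ d) s)

variable {μ κ}

theorem SP.start_mem {Q : D → Prop} {z a : ι} {s : Finset ι} (h : SP μ κ Q z a s) : a ∈ s := by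
  cases h with
  | nil => simp
  | cons d s _ _ _ => simp

theorem SP.end_mem {Q : D → Prop} {z a : ι} {s : Finset ι} (h : SP μ κ Q z a s) : z ∈ s := by
  induction h with
  | nil => simp
  | cons d s _ _ _ ih => exact Finset.mem_insert_of_mem ih

theorem SP.sub {Q : D → Prop} {z a : ι} {s : Finset ι} (h : SP μ κ Q z a s) :
    ∀ b ∈ s, ∃ t, t ⊆ s ∧ SP μ κ Q z b t := by
  induction h with
  | nil =>
    intro b hb
    rw [Finset.mem_singleton] at hb
    subst hb
    exact ⟨_, Finset.Subset.refl _, SP.nil⟩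
  | cons d s hq hd h ih =>
    intro b hb
    rw [Finset.mem_insert] at hb
    rcases hb with rfl | hb
    · exact ⟨_, Finset.Subset.refl _, SP.cons d s hq hd h⟩
    · obtain ⟨t, ht, h'⟩ := ih b hb
      exact ⟨t, ht.trans (Finset.subset_insert _ _), h'⟩

/-- the set of vertices from which `z` can be reached is closed under predecessors -/
theorem SP.step {Q : D → Prop} {z : ι} {d : D} (hq : Q d) (h : ∃ s, SP μ κ Q z (κ (μ d)) s) :
    ∃ s, SP μ κ Q z (κ d) s := by
  obtain ⟨s, h⟩ := h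
  by_cases hd : κ d ∈ s
  · obtain ⟨t, -, ht⟩ := h.sub _ hd
    exact ⟨t, ht⟩
  · exact ⟨_, SP.cons d s hq hd h⟩

theorem el_anti (hμ : ∀ d, μ (μ d) = d) (d₀ d : D) : el μ d₀ (μ d) = - el μ d₀ d := by
  unfold el
  rw [hμ]
  ring

theorem el_self (hne : ∀ d, μ d ≠ d) (d₀ : D) : el μ d₀ d₀ = 1 := by
  unfold el
  rw [if_pos rfl, if_neg (hne d₀)]
  rfl

theorem dv_add (g h : D → ℤ) (i : ι) : dv κ (fun d => g d + h d) i = dv κ g i + dv κ h i := by
  unfold dv
  rw [Finset.sum_add_distrib]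

theorem dv_sub (g h : D → ℤ) (i : ι) : dv κ (fun d => g d - h d) i = dv κ g i - dv κ h i := by
  unfold dv
  rw [Finset.sum_sub_distrib]

theorem dv_el (hμ : ∀ d, μ (μ d) = d) (d₀ : D) (i : ι) :
    dv κ (el μ d₀) i = (if i = κ d₀ then 1 else 0) - (if i = κ (μ d₀) then 1 else 0) := by
  unfold dv el
  rw [Finset.sum_sub_distrib]
  congr 1
  · rw [Finset.sum_ite_eq']
    simp only [mem_filter, mem_univ, true_and, eq_comm]
  · have h1 : ∀ d, (if μ d = d₀ then (1 : ℤ) else 0) = if d = μ d₀ then 1 else 0 := by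
      intro d
      refine if_congr ?_ rfl rfl
      constructor
      · rintro rfl; rw [hμ]
      · rintro rfl; rw [hμ]
    rw [Finset.sum_congr rfl (fun d _ => h1 d), Finset.sum_ite_eq']
    simp only [mem_filter, mem_univ, true_and, eq_comm]

/-- the flow along a simple path -/
theorem SP.flow (hμ : ∀ d, μ (μ d) = d) (hne : ∀ d, μ d ≠ d) {Q : D → Prop} {z a : ι}
    {s : Finset ι} (h : SP μ κ Q z a s) :
    ∃ g : D → ℤ, (∀ d, g (μ d) = - g d) ∧
      (∀ d, g d = 0 ∨ (g d = 1 ∧ Q d) ∨ (g d = -1 ∧ Q (μ d))) ∧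
      (∀ d, g d ≠ 0 → κ d ∈ s ∧ κ (μ d) ∈ s) ∧
      (∀ i, dv κ g i = (if i = a then 1 else 0) - (if i = z then 1 else 0)) ∧
      (∀ d, g d = 1 → κ d ≠ z) := by
  induction h with
  | nil =>
    refine ⟨fun _ => 0, by simp, by simp, by simp, fun i => ?_, by simp⟩
    simp [dv]
  | cons d₀ s hq hd h ih =>
    obtain ⟨g, h1, h2, h3, h4, h5⟩ := ih
    have hg0 : g d₀ = 0 := by
      by_contra hc
      exact hd (h3 _ hc).1
    have hg1 : g (μ d₀) = 0 := by rw [h1, hg0, neg_zero]
    have hel : ∀ d, d ≠ d₀ → d ≠ μ d₀ → el μ d₀ d = 0 := by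
      intro d hd1 hd2
      unfold el
      rw [if_neg hd1, if_neg, sub_zero]
      rintro h
      exact hd2 (by rw [← h, hμ])
    have hel1 : el μ d₀ (μ d₀) = -1 := by rw [el_anti hμ, el_self hne]
    refine ⟨fun d => g d + el μ d₀ d, ?_, ?_, ?_, ?_, ?_⟩
    · intro d
      show g (μ d) + el μ d₀ (μ d) = -(g d + el μ d₀ d)
      rw [h1, el_anti hμ]
      ring
    · intro d
      show g d + el μ d₀ d = 0 ∨ (g d + el μ d₀ d = 1 ∧ Q d) ∨ (g d + el μ d₀ d = -1 ∧ Q (μ d))
      by_cases hd1 : d = d₀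
      · rw [hd1]
        exact Or.inr (Or.inl ⟨by rw [hg0, el_self hne]; rfl, hq⟩)
      · by_cases hd2 : d = μ d₀
        · rw [hd2]
          exact Or.inr (Or.inr ⟨by rw [hg1, hel1]; rfl, by rw [hμ]; exact hq⟩)
        · rw [hel d hd1 hd2, add_zero]
          exact h2 d
    · intro d hgd
      have hgd' : g d + el μ d₀ d ≠ 0 := hgd
      by_cases hd1 : d = d₀
      · rw [hd1]
        exact ⟨Finset.mem_insert_self _ _, Finset.mem_insert_of_mem h.start_mem⟩
      · by_cases hd2 : d = μ d₀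
        · rw [hd2, hμ]
          exact ⟨Finset.mem_insert_of_mem h.start_mem, Finset.mem_insert_self _ _⟩
        · rw [hel d hd1 hd2, add_zero] at hgd'
          exact ⟨Finset.mem_insert_of_mem (h3 d hgd').1, Finset.mem_insert_of_mem (h3 d hgd').2⟩
    · intro i
      rw [dv_add, h4, dv_el hμ]
      ring
    · intro d hgd
      have hgd' : g d + el μ d₀ d = 1 := hgd
      by_cases hd1 : d = d₀
      · rw [hd1]
        intro hz
        exact hd (hz ▸ h.end_mem)
      · by_cases hd2 : d = μ d₀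
        · rw [hd2, hg1, hel1] at hgd'
          omega
        · rw [hel d hd1 hd2, add_zero] at hgd'
          exact h5 d hgd'

/-- the total divergence of a set is the flow over its boundary -/
theorem dv_cut [Fintype ι] (hμ : ∀ d, μ (μ d) = d) {f : D → ℤ} (hf : ∀ d, f (μ d) = - f d)
    (S : Finset ι) :
    ∑ i ∈ S, dv κ f i = ∑ d ∈ univ.filter (fun d => κ d ∈ S ∧ κ (μ d) ∉ S), f d := by
  have h1 : ∑ i ∈ S, dv κ f i = ∑ d ∈ univ.filter (fun d => κ d ∈ S), f d := by
    unfold dv
    have e1 : ∀ i ∈ S, ∑ d ∈ univ.filter (fun d => κ d = i), f d =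
        ∑ d ∈ (univ.filter (fun d => κ d ∈ S)).filter (fun d => κ d = i), f d := by
      intro i hi
      refine Finset.sum_congr ?_ (fun _ _ => rfl)
      ext d
      simp only [mem_filter, mem_univ, true_and]
      constructor
      · rintro rfl; exact ⟨hi, rfl⟩
      · exact fun h => h.2
    rw [Finset.sum_congr rfl e1]
    exact Finset.sum_fiberwise_of_maps_to (fun d hd => (mem_filter.1 hd).2) _
  have h2 : univ.filter (fun d => κ d ∈ S) =
      univ.filter (fun d => κ d ∈ S ∧ κ (μ d) ∉ S) ∪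
        univ.filter (fun d => κ d ∈ S ∧ κ (μ d) ∈ S) := by
    ext d
    simp only [mem_filter, mem_univ, true_and, mem_union]
    tauto
  have h3 : Disjoint (univ.filter (fun d => κ d ∈ S ∧ κ (μ d) ∉ S))
      (univ.filter (fun d => κ d ∈ S ∧ κ (μ d) ∈ S)) := by
    rw [Finset.disjoint_left]
    intro d
    simp only [mem_filter, mem_univ, true_and]
    tauto
  have h4 : ∑ d ∈ univ.filter (fun d => κ d ∈ S ∧ κ (μ d) ∈ S), f d = 0 := by
    have e1 : ∑ d ∈ univ.filter (fun d => κ d ∈ S ∧ κ (μ d) ∈ S), f d =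
        ∑ d ∈ univ.filter (fun d => κ d ∈ S ∧ κ (μ d) ∈ S), f (μ d) := by
      refine Finset.sum_nbij' μ μ ?_ ?_ ?_ ?_ ?_
      · intro d
        simp only [mem_filter, mem_univ, true_and, hμ]
        tauto
      · intro d
        simp only [mem_filter, mem_univ, true_and, hμ]
        tauto
      · intro d _; exact hμ d
      · intro d _; exact hμ d
      · intro d _; rw [hμ]
    have e2 : ∑ d ∈ univ.filter (fun d => κ d ∈ S ∧ κ (μ d) ∈ S), f (μ d) =
        - ∑ d ∈ univ.filter (fun d => κ d ∈ S ∧ κ (μ d) ∈ S), f d := by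
      rw [← Finset.sum_neg_distrib]
      exact Finset.sum_congr rfl (fun d _ => hf d)
    linarith
  rw [h1, h2, Finset.sum_union h3, h4, add_zero]

/-- one augmentation step: either the value can be increased by one, keeping all darts into the
sink `z` which carry flow, or there is a cut all of whose darts carry flow -/
theorem augment [Fintype ι] (hμ : ∀ d, μ (μ d) = d) (hne : ∀ d, μ d ≠ d) {f : D → ℤ}
    (hf : ∀ d, f (μ d) = - f d) (hf1 : ∀ d, f d ≤ 1) (a z : ι) :
    (∃ f' : D → ℤ, (∀ d, f' (μ d) = - f' d) ∧ (∀ d, f' d ≤ 1) ∧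
      (∀ i, dv κ f' i = dv κ f i + ((if i = a then 1 else 0) - (if i = z then 1 else 0))) ∧
      (∀ d, κ (μ d) = z → f d = 1 → f' d = 1)) ∨
    (∃ S : Finset ι, a ∈ S ∧ z ∉ S ∧ ∀ d, κ d ∈ S → κ (μ d) ∉ S → f d = 1) := by
  classical
  by_cases h : ∃ s, SP μ κ (fun d => f d < 1) z a s
  · left
    obtain ⟨s, h⟩ := h
    obtain ⟨g, h1, h2, h3, h4, h5⟩ := h.flow hμ hne
    refine ⟨fun d => f d + g d, ?_, ?_, ?_, ?_⟩
    · intro d
      show f (μ d) + g (μ d) = -(f d + g d)
      rw [hf, h1]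
      ring
    · intro d
      show f d + g d ≤ 1
      rcases h2 d with h | ⟨h, hq⟩ | ⟨h, -⟩
      · rw [h, add_zero]; exact hf1 d
      · rw [h]; omega
      · rw [h]; have := hf1 d; omega
    · intro i
      rw [dv_add, h4]
    · intro d hdz hfd
      have h6 : g d = 0 := by
        rcases h2 d with h | ⟨h, hq⟩ | ⟨h, -⟩
        · exact h
        · exact absurd hfd (ne_of_lt hq)
        · exact absurd hdz (h5 _ (by rw [h1, h]; rfl))
      show f d + g d = 1
      rw [h6, add_zero, hfd]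
  · right
    refine ⟨univ.filter (fun i => ¬ ∃ s, SP μ κ (fun d => f d < 1) z i s), ?_, ?_, ?_⟩
    · rw [mem_filter]; exact ⟨mem_univ _, h⟩
    · rw [mem_filter]
      rintro ⟨-, h'⟩
      exact h' ⟨_, SP.nil⟩
    · intro d hd1 hd2
      rw [mem_filter] at hd1 hd2
      simp only [mem_univ, true_and, not_not] at hd1 hd2
      by_contra hc
      have hlt : f d < 1 := lt_of_le_of_ne (hf1 d) hc
      exact hd1 (SP.step hlt hd2)

/-- **Menger's theorem** for edge cuts, flow form -/
theorem exists_flow [Fintype ι] (hμ : ∀ d, μ (μ d) = d) (hne : ∀ d, μ d ≠ d) (a z : ι) (haz : a ≠ z)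
    (k : ℕ) (hcut : ∀ S : Finset ι, a ∈ S → z ∉ S →
      k ≤ (univ.filter (fun d => κ d ∈ S ∧ κ (μ d) ∉ S)).card) :
    ∃ f : D → ℤ, (∀ d, f (μ d) = - f d) ∧ (∀ d, f d ≤ 1) ∧
      ∀ i, dv κ f i = k * ((if i = a then 1 else 0) - (if i = z then 1 else 0)) := by
  induction k with
  | zero =>
    refine ⟨fun _ => 0, by simp, by simp, fun i => ?_⟩
    simp [dv]
  | succ k ih =>
    obtain ⟨f, h1, h2, h3⟩ := ih (fun S ha hz => (Nat.le_succ k).trans (hcut S ha hz))
    rcases augment (κ := κ) hμ hne h1 h2 a z with ⟨f', g1, g2, g3, -⟩ | ⟨S, ha, hz, hS⟩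
    · refine ⟨f', g1, g2, fun i => ?_⟩
      rw [g3, h3]
      push_cast
      ring
    · exfalso
      have e1 := dv_cut (κ := κ) hμ h1 S
      have e2 : ∑ i ∈ S, dv κ f i = k := by
        rw [Finset.sum_eq_single a]
        · rw [h3, if_pos rfl, if_neg haz]
          ring
        · intro i hi hia
          rw [h3, if_neg hia, if_neg (fun h : i = z => hz (h ▸ hi))]
          ring
        · intro h; exact absurd ha h
      have e3 : ∑ d ∈ univ.filter (fun d => κ d ∈ S ∧ κ (μ d) ∉ S), f d =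
          ((univ.filter (fun d => κ d ∈ S ∧ κ (μ d) ∉ S)).card : ℤ) := by
        rw [Finset.sum_congr rfl (fun d hd => ?_), Finset.sum_const, nsmul_eq_mul, mul_one]
        rw [mem_filter] at hd
        exact hS d hd.2.1 hd.2.2
      have e4 := hcut S ha hz
      rw [e2, e3] at e1
      have e5 : (k : ℤ) = ((univ.filter (fun d => κ d ∈ S ∧ κ (μ d) ∉ S)).card : ℤ) := e1
      have e6 : k = (univ.filter (fun d => κ d ∈ S ∧ κ (μ d) ∉ S)).card := by exact_mod_cast e5
      omega

end Pool.Agent.CDC
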