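import Pool.Agent.CDC.Flow
import Pool.Agent.CDC.F4

/-!
# Labels from a flow of value three

`V` a finite set with an involution `μ` without fixed points and a map `κ : V → ι`; every cut
between `a` and `z` has at least three elements. We take a flow of value `3` with minimal support;
it is acyclic, and we go through the vertices in topological order. At every vertex `i ≠ a, z` the
labels of the incoming darts are given and the labels of the outgoing darts are a rearrangement.
-/

set_option autoImplicit false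

namespace Pool.Agent.CDC

open Finset

variable {V ι : Type} [Fintype V] [DecidableEq V] [Fintype ι] [DecidableEq ι]
  {μ : V → V} {κ : V → ι}

theorem SP.trans' {Q : V → Prop} {a b z : ι} {s : Finset ι} (h : SP μ κ Q b a s)
    (h' : ∃ t, SP μ κ Q z b t) : ∃ t, SP μ κ Q z a t := by
  induction h with
  | nil => exact h'
  | cons d s hq hd h ih => exact SP.step hq ih

/-- strict reachability by darts with flow one -/
def TT (μ : V → V) (κ : V → ι) (f : V → ℤ) (i j : ι) : Prop :=
  ∃ d, f d = 1 ∧ κ d = i ∧ ∃ s, SP μ κ (fun d => f d = 1) j (κ (μ d)) s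

theorem TT.trans {f : V → ℤ} {i j k : ι} (h : TT μ κ f i j) (h' : TT μ κ f j k) :
    TT μ κ f i k := by
  obtain ⟨d, hd, rfl, s, hs⟩ := h
  obtain ⟨d', hd', rfl, hs'⟩ := h'
  exact ⟨d, hd, rfl, hs.trans' (SP.step (Q := fun d => f d = 1) hd' hs')⟩

theorem TT.of_dart {f : V → ℤ} {d : V} (hd : f d = 1) : TT μ κ f (κ d) (κ (μ d)) :=
  ⟨d, hd, rfl, _, SP.nil⟩

/-- the support of a flow -/
def supp (f : V → ℤ) : Finset V := univ.filter (fun d => f d ≠ 0)

/-- a flow of value three with minimal support -/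
theorem exists_min (hμ : ∀ d, μ (μ d) = d) (hne : ∀ d, μ d ≠ d) (a z : ι) (haz : a ≠ z)
    (hcut : ∀ S : Finset ι, a ∈ S → z ∉ S →
      3 ≤ (univ.filter (fun d => κ d ∈ S ∧ κ (μ d) ∉ S)).card) :
    ∃ f : V → ℤ, ((∀ d, f (μ d) = - f d) ∧ (∀ d, f d ≤ 1) ∧
      ∀ i, dv κ f i = 3 * ((if i = a then 1 else 0) - (if i = z then 1 else 0))) ∧
      (∀ i, ¬ TT μ κ f i i) ∧
      ∀ g : V → ℤ, (∀ d, g (μ d) = - g d) → (∀ d, g d ≤ 1) →
        (∀ i, dv κ g i = 3 * ((if i = a then 1 else 0) - (if i = z then 1 else 0))) →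
        (supp f).card ≤ (supp g).card := by
  classical
  have hex : ∃ n : ℕ, ∃ f : V → ℤ, ((∀ d, f (μ d) = - f d) ∧ (∀ d, f d ≤ 1) ∧
      ∀ i, dv κ f i = 3 * ((if i = a then 1 else 0) - (if i = z then 1 else 0))) ∧
      (supp f).card = n := by
    obtain ⟨f, h1, h2, h3⟩ := exists_flow (κ := κ) hμ hne a z haz 3 hcut
    exact ⟨_, f, ⟨h1, h2, h3⟩, rfl⟩
  obtain ⟨f, ⟨h1, h2, h3⟩, hcard⟩ := Nat.find_spec hex
  refine ⟨f, ⟨h1, h2, h3⟩, ?_, fun g k1 k2 k3 => by
    rw [hcard]
    exact Nat.find_min' hex ⟨g, ⟨k1, k2, k3⟩, rfl⟩⟩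
  rintro i ⟨d, hd, rfl, s, hs⟩
  obtain ⟨g, g1, g2, g3, g4, g5⟩ := hs.flow hμ hne
  have hgd : g d = 0 := by
    rcases g2 d with h | ⟨h, -⟩ | ⟨-, h⟩
    · exact h
    · exact absurd rfl (g5 d h)
    · rw [h1, hd] at h
      omega
  have hgd' : g (μ d) = 0 := by rw [g1, hgd, neg_zero]
  have hel : ∀ x, x ≠ d → x ≠ μ d → el μ d x = 0 := by
    intro x hx1 hx2
    unfold el
    rw [if_neg hx1, if_neg, sub_zero]
    rintro h
    exact hx2 (by rw [← h, hμ])
  have hlt : (supp (fun x => f x - (g x + el μ d x))).card < (supp f).card := by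
    refine Finset.card_lt_card ⟨fun x hx => ?_, fun hsub => ?_⟩
    · unfold supp at hx ⊢
      rw [mem_filter] at hx ⊢
      refine ⟨mem_univ _, fun hfx => hx.2 ?_⟩
      by_cases hx1 : x = d
      · rw [hx1] at hfx
        rw [hd] at hfx
        exact absurd hfx one_ne_zero
      · by_cases hx2 : x = μ d
        · rw [hx2, h1, hd] at hfx
          exact absurd hfx (by norm_num)
        · show f x - (g x + el μ d x) = 0
          rw [hel x hx1 hx2, hfx]
          rcases g2 x with h | ⟨-, h⟩ | ⟨-, h⟩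
          · rw [h]; rfl
          · rw [hfx] at h; exact absurd h (by norm_num)
          · rw [h1, hfx] at h; exact absurd h (by norm_num)
    · have hdm : d ∈ supp f := by
        unfold supp
        rw [mem_filter, hd]
        exact ⟨mem_univ _, one_ne_zero⟩
      have h4 := hsub hdm
      unfold supp at h4
      rw [mem_filter] at h4
      apply h4.2
      show f d - (g d + el μ d d) = 0
      rw [hgd, el_self hne, hd]
      rfl
  refine Nat.find_min hex (m := (supp (fun x => f x - (g x + el μ d x))).card) ?_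
    ⟨fun x => f x - (g x + el μ d x), ⟨?_, ?_, ?_⟩, rfl⟩
  · rw [← hcard]
    exact hlt
  · intro x
    show f (μ x) - (g (μ x) + el μ d (μ x)) = -(f x - (g x + el μ d x))
    rw [h1, g1, el_anti hμ]
    ring
  · intro x
    show f x - (g x + el μ d x) ≤ 1
    by_cases hx1 : x = d
    · rw [hx1, hgd, el_self hne, hd]
      norm_num
    · by_cases hx2 : x = μ d
      · rw [hx2, hgd', el_anti hμ, el_self hne, h1, hd]
        norm_num
      · rw [hel x hx1 hx2]
        rcases g2 x with h | ⟨h, h'⟩ | ⟨h, h'⟩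
        · rw [h]; simpa using h2 x
        · rw [h, h']; norm_num
        · rw [h1] at h'
          rw [h]
          omega
  · intro i
    rw [dv_sub, dv_add, g4, dv_el hμ, h3]
    ring

/-- data: an acyclic flow of value three -/
structure AFlow (μ : V → V) (κ : V → ι) (a z : ι) (f : V → ℤ) : Prop where
  inv : ∀ d, μ (μ d) = d
  haz : a ≠ z
  anti : ∀ d, f (μ d) = - f d
  le : ∀ d, f d ≤ 1
  dv : ∀ i, dv κ f i = 3 * ((if i = a then 1 else 0) - (if i = z then 1 else 0))
  acyc : ∀ i, ¬ TT μ κ f i i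

namespace AFlow

variable {a z : ι} {f : V → ℤ}

theorem ge (h : AFlow μ κ a z f) (d : V) : -1 ≤ f d := by
  have h1 := h.le (μ d)
  rw [h.anti] at h1
  omega

theorem wf (h : AFlow μ κ a z f) : WellFounded (TT μ κ f) := by
  have : IsTrans ι (TT μ κ f) := ⟨fun _ _ _ => TT.trans⟩
  have : Std.Irrefl (TT μ κ f) := ⟨h.acyc⟩
  exact Finite.wellFounded_of_trans_of_irrefl _

theorem wf' (h : AFlow μ κ a z f) : WellFounded (fun i j => TT μ κ f j i) := by
  have : IsTrans ι (fun i j => TT μ κ f j i) := ⟨fun _ _ _ h h' => TT.trans h' h⟩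
  have : Std.Irrefl (fun i j => TT μ κ f j i) := ⟨h.acyc⟩
  exact Finite.wellFounded_of_trans_of_irrefl _

/-- the darts out of `i` carrying flow -/
def outs (κ : V → ι) (f : V → ℤ) (i : ι) : Finset V := univ.filter (fun d => κ d = i ∧ f d = 1)

/-- the darts of `i` at which flow arrives -/
def ins (κ : V → ι) (f : V → ℤ) (i : ι) : Finset V := univ.filter (fun d => κ d = i ∧ f d = -1)

theorem dv_eq (h : AFlow μ κ a z f) (i : ι) :
    Pool.Agent.CDC.dv κ f i = ((outs κ f i).card : ℤ) - ((ins κ f i).card : ℤ) := by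
  unfold Pool.Agent.CDC.dv outs ins
  have h1 : ∀ d ∈ univ.filter (fun d => κ d = i), f d =
      (if f d = 1 then 1 else 0) - (if f d = -1 then 1 else 0) := by
    intro d _
    have h2 := h.le d
    have h3 := h.ge d
    have h4 : f d = 1 ∨ f d = 0 ∨ f d = -1 := by omega
    rcases h4 with h4 | h4 | h4 <;> rw [h4] <;> norm_num
  rw [Finset.sum_congr rfl h1, Finset.sum_sub_distrib, ← Finset.sum_filter, ← Finset.sum_filter,
    Finset.filter_filter, Finset.filter_filter, Finset.sum_const, Finset.sum_const]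
  simp

/-- nothing enters `a` -/
theorem ins_a (h : AFlow μ κ a z f) : ∀ d, κ d = a → f d ≠ -1 := by
  intro d hd hfd
  have hne : {x | TT μ κ f x a}.Nonempty := by
    refine ⟨κ (μ d), ?_⟩
    have h1 : f (μ d) = 1 := by rw [h.anti, hfd]; rfl
    have h2 := TT.of_dart (μ := μ) (κ := κ) h1
    rw [h.inv, hd] at h2
    exact h2
  obtain ⟨m, hm, hmin⟩ := h.wf.has_min _ hne
  have hno : (ins κ f m).card = 0 := by
    unfold ins
    rw [Finset.card_eq_zero, Finset.filter_eq_empty_iff]
    rintro x - ⟨hx, hfx⟩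
    have h1 : f (μ x) = 1 := by rw [h.anti, hfx]; rfl
    have h2 := TT.of_dart (μ := μ) (κ := κ) h1
    rw [h.inv, hx] at h2
    exact hmin _ (h2.trans hm) h2
  have hout : 0 < (outs κ f m).card := by
    obtain ⟨x, hx, hx', -⟩ := hm
    rw [Finset.card_pos]
    exact ⟨x, by unfold outs; rw [mem_filter]; exact ⟨mem_univ _, hx', hx⟩⟩
  have h1 := h.dv m
  rw [h.dv_eq, hno] at h1
  have hma : m ≠ a := by
    rintro rfl
    exact h.acyc _ hm
  rw [if_neg hma] at h1
  split_ifs at h1 <;> push_cast at h1 <;> omega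

/-- nothing leaves `z` -/
theorem outs_z (h : AFlow μ κ a z f) : ∀ d, κ d = z → f d ≠ 1 := by
  intro d hd hfd
  have hne : {x | TT μ κ f z x}.Nonempty := by
    refine ⟨κ (μ d), ?_⟩
    have h2 := TT.of_dart (μ := μ) (κ := κ) hfd
    rw [hd] at h2
    exact h2
  obtain ⟨m, hm, hmin⟩ := h.wf'.has_min _ hne
  have hno : (outs κ f m).card = 0 := by
    unfold outs
    rw [Finset.card_eq_zero, Finset.filter_eq_empty_iff]
    rintro x - ⟨hx, hfx⟩
    have h2 := TT.of_dart (μ := μ) (κ := κ) hfx
    rw [hx] at h2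
    exact hmin _ (TT.trans hm h2) h2
  have hin : 0 < (ins κ f m).card := by
    -- the last dart of a path to `m`
    have key : ∀ (x : ι) (s : Finset ι), SP μ κ (fun d => f d = 1) m x s →
        x = m ∨ 0 < (ins κ f m).card := by
      intro x s hs
      induction hs with
      | nil => exact Or.inl rfl
      | cons y s hy hd' h' ih =>
        right
        rcases ih with h3 | h3
        · rw [Finset.card_pos]
          refine ⟨μ y, ?_⟩
          unfold ins
          rw [mem_filter, h.anti, hy]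
          exact ⟨mem_univ _, h3, rfl⟩
        · exact h3
    obtain ⟨x, hx, hx', s, hs⟩ := hm
    rcases key _ s hs with h3 | h3
    · rw [Finset.card_pos]
      refine ⟨μ x, ?_⟩
      unfold ins
      rw [mem_filter, h.anti, hx]
      exact ⟨mem_univ _, h3, rfl⟩
    · exact h3
  have h1 := h.dv m
  rw [h.dv_eq, hno] at h1
  have hmz : m ≠ z := by
    rintro rfl
    exact h.acyc _ hm
  rw [if_neg hmz] at h1
  split_ifs at h1 <;> push_cast at h1 <;> omega

/-- sets closed under predecessors -/
def Closed (μ : V → V) (κ : V → ι) (a z : ι) (f : V → ℤ) (S : Finset ι) : Prop :=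
  a ∈ S ∧ z ∉ S ∧ ∀ d, f d = 1 → κ (μ d) ∈ S → κ d ∈ S

/-- the boundary darts -/
def bd (μ : V → V) (κ : V → ι) (f : V → ℤ) (S : Finset ι) : Finset V :=
  univ.filter (fun d => κ d ∈ S ∧ κ (μ d) ∉ S ∧ f d = 1)

theorem closed_a (h : AFlow μ κ a z f) : Closed μ κ a z f {a} := by
  refine ⟨Finset.mem_singleton_self _, ?_, fun d hd hd' => ?_⟩
  · rw [Finset.mem_singleton]
    exact h.haz.symm
  · rw [Finset.mem_singleton] at hd'
    exact absurd (by rw [h.anti, hd]) (h.ins_a _ hd')

theorem bd_card (h : AFlow μ κ a z f) {S : Finset ι} (hS : Closed μ κ a z f S) :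
    (bd μ κ f S).card = 3 := by
  have h1 := dv_cut (κ := κ) h.inv h.anti S
  have h2 : ∑ i ∈ S, Pool.Agent.CDC.dv κ f i = 3 := by
    rw [Finset.sum_eq_single a]
    · rw [h.dv, if_pos rfl, if_neg h.haz]
      norm_num
    · intro i hi hia
      rw [h.dv, if_neg hia, if_neg (fun h' : i = z => hS.2.1 (h' ▸ hi))]
      norm_num
    · intro h'; exact absurd hS.1 h'
  have h3 : ∑ d ∈ univ.filter (fun d => κ d ∈ S ∧ κ (μ d) ∉ S), f d = ((bd μ κ f S).card : ℤ) := by
    have h4 : ∀ d ∈ univ.filter (fun d => κ d ∈ S ∧ κ (μ d) ∉ S), f d =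
        if f d = 1 then 1 else 0 := by
      intro d hd
      rw [mem_filter] at hd
      have h5 := h.le d
      have h6 := h.ge d
      have h7 : f d ≠ -1 := by
        intro h8
        have h9 : f (μ d) = 1 := by rw [h.anti, h8]; rfl
        have h10 := hS.2.2 (μ d) h9
        rw [h.inv] at h10
        exact hd.2.2 (h10 hd.2.1)
      have h8 : f d = 1 ∨ f d = 0 := by omega
      rcases h8 with h8 | h8 <;> rw [h8] <;> norm_num
    rw [Finset.sum_congr rfl h4, ← Finset.sum_filter, Finset.filter_filter]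
    unfold bd
    simp only [Finset.sum_const, smul_eq_mul, mul_one, nsmul_eq_mul, and_assoc]
  rw [h2, h3] at h1
  exact_mod_cast h1.symm

/-- a closed set can be extended by one vertex -/
theorem extend (h : AFlow μ κ a z f) {S : Finset ι} (hS : Closed μ κ a z f S)
    (hne : ∃ i, i ∉ S ∧ i ≠ z) :
    ∃ i, i ∉ S ∧ i ≠ z ∧ Closed μ κ a z f (insert i S) ∧
      ∀ d, κ d = i → f d = -1 → κ (μ d) ∈ S := by
  obtain ⟨i, ⟨hiS, hiz⟩, hmin⟩ := h.wf.has_min {i | i ∉ S ∧ i ≠ z} hne
  have hpred : ∀ d, f d = 1 → κ (μ d) = i → κ d ∈ S := by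
    intro d hd hdi
    by_contra hc
    have hdz : κ d ≠ z := fun h' => h.outs_z d h' hd
    have h2 := TT.of_dart (μ := μ) (κ := κ) hd
    rw [hdi] at h2
    exact hmin (κ d) ⟨hc, hdz⟩ h2
  refine ⟨i, hiS, hiz, ⟨Finset.mem_insert_of_mem hS.1, ?_, fun d hd hd' => ?_⟩, fun d hd hd' => ?_⟩
  · rw [Finset.mem_insert]
    rintro (h' | h')
    · exact hiz h'.symm
    · exact hS.2.1 h'
  · rw [Finset.mem_insert] at hd' ⊢
    rcases hd' with hd' | hd'
    · exact Or.inr (hpred d hd hd')
    · exact Or.inr (hS.2.2 d hd hd')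
  · refine hpred (μ d) ?_ ?_
    · rw [h.anti, hd']; rfl
    · rw [h.inv]; exact hd

theorem mem_outs {i : ι} {d : V} : d ∈ outs κ f i ↔ κ d = i ∧ f d = 1 := by
  unfold outs; simp

theorem mem_ins {i : ι} {d : V} : d ∈ ins κ f i ↔ κ d = i ∧ f d = -1 := by
  unfold ins; simp

theorem mem_bd {S : Finset ι} {d : V} :
    d ∈ bd μ κ f S ↔ κ d ∈ S ∧ κ (μ d) ∉ S ∧ f d = 1 := by
  unfold bd; simp

theorem anti_one (h : AFlow μ κ a z f) {d : V} (hd : f d = 1) : f (μ d) = -1 := by
  rw [h.anti, hd]

theorem anti_neg (h : AFlow μ κ a z f) {d : V} (hd : f d = -1) : f (μ d) = 1 := by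
  rw [h.anti, hd]; rfl

/-- no loops -/
theorem no_loop (h : AFlow μ κ a z f) {d : V} (hd : f d = 1) : κ (μ d) ≠ κ d := by
  intro h'
  have h2 := TT.of_dart (μ := μ) (κ := κ) hd
  rw [h'] at h2
  exact h.acyc _ h2

/-- **labels in topological order** -/
theorem exists_labels (h : AFlow μ κ a z f) (Good : ι → (V → ZMod 3) → Prop)
    (hcongr : ∀ i β β', (∀ d, κ d = i → f d ≠ 0 → β d = β' d) → Good i β → Good i β')
    (ha : ∀ β, Set.InjOn β (outs κ f a) → Good a β)
    (hz : ∀ β, Set.InjOn β (ins κ f z) → Good z β)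
    (hrule : ∀ i, i ≠ a → i ≠ z → ∀ α : V → ZMod 3, Set.InjOn α (ins κ f i) →
      ∃ β : V → ZMod 3, (∀ d ∈ ins κ f i, β d = α d) ∧ Set.InjOn β (outs κ f i) ∧
        (∀ d ∈ outs κ f i, ∃ e ∈ ins κ f i, β d = α e) ∧ Good i β) :
    ∃ ℓ : V → ZMod 3, (∀ d, ℓ (μ d) = ℓ d) ∧ ∀ i, Good i ℓ := by
  classical
  have key : ∀ m : ℕ, m + 2 ≤ Fintype.card ι → ∃ (S : Finset ι) (ℓ : V → ZMod 3),
      Closed μ κ a z f S ∧ S.card = m + 1 ∧ (∀ d, ℓ (μ d) = ℓ d) ∧
      Set.InjOn ℓ (bd μ κ f S) ∧ ∀ i ∈ S, Good i ℓ := by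
    intro m
    induction m with
    | zero =>
      intro _
      have hcard := h.bd_card h.closed_a
      let e := Finset.equivFinOfCardEq hcard
      have hbd : ∀ d, d ∈ bd μ κ f {a} → μ d ∉ bd μ κ f {a} := by
        intro d hd hd'
        rw [mem_bd] at hd hd'
        have := h.anti_one hd.2.2
        rw [hd'.2.2] at this
        norm_num at this
      let ℓ : V → ZMod 3 := fun d => if hd : d ∈ bd μ κ f {a} then (e ⟨d, hd⟩ : Fin 3) else
        if hd' : μ d ∈ bd μ κ f {a} then (e ⟨μ d, hd'⟩ : Fin 3) else 0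
      have hℓ1 : ∀ d (hd : d ∈ bd μ κ f {a}), ℓ d = (e ⟨d, hd⟩ : Fin 3) := by
        intro d hd
        simp only [ℓ, dif_pos hd]
      have hinj : Set.InjOn ℓ (bd μ κ f {a}) := by
        intro d hd d' hd' hdd
        rw [Finset.mem_coe] at hd hd'
        rw [hℓ1 d hd, hℓ1 d' hd'] at hdd
        exact congrArg Subtype.val (e.injective hdd)
      refine ⟨{a}, ℓ, h.closed_a, Finset.card_singleton a, ?_, hinj, ?_⟩
      · intro d
        by_cases hd : d ∈ bd μ κ f {a}
        · have h1 := hbd d hd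
          have h2 : μ (μ d) ∈ bd μ κ f {a} := by rw [h.inv]; exact hd
          have h3 : (⟨μ (μ d), h2⟩ : {x // x ∈ bd μ κ f {a}}) = ⟨d, hd⟩ := Subtype.ext (h.inv d)
          simp only [ℓ, dif_pos hd, dif_neg h1, dif_pos h2, h3]
        · by_cases hd' : μ d ∈ bd μ κ f {a}
          · simp only [ℓ, dif_neg hd, dif_pos hd']
          · have h2 : μ (μ d) ∉ bd μ κ f {a} := by rw [h.inv]; exact hd
            simp only [ℓ, dif_neg hd, dif_neg hd', dif_neg h2]
      · intro i hi
        rw [Finset.mem_singleton] at hi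
        subst hi
        refine ha _ ?_
        refine hinj.mono ?_
        intro d hd
        rw [Finset.mem_coe, mem_outs] at hd
        rw [Finset.mem_coe, mem_bd, Finset.mem_singleton, Finset.mem_singleton]
        refine ⟨hd.1, ?_, hd.2⟩
        rw [← hd.1]
        exact h.no_loop hd.2
    | succ m ih =>
      intro hm
      obtain ⟨S, ℓ, hS, hScard, hℓ, hinj, hgood⟩ := ih (by omega)
      have hex : ∃ i, i ∉ S ∧ i ≠ z := by
        by_contra hcon
        push Not at hcon
        have h1 : (univ : Finset ι) ⊆ insert z S := by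
          intro i _
          rw [Finset.mem_insert]
          by_cases hi : i ∈ S
          · exact Or.inr hi
          · exact Or.inl (hcon i hi)
        have h2 := Finset.card_le_card h1
        have h3 := Finset.card_insert_le z S
        rw [Finset.card_univ] at h2
        omega
      obtain ⟨i, hiS, hiz, hclosed, hpred⟩ := h.extend hS hex
      have hia : i ≠ a := fun h' => hiS (h' ▸ hS.1)
      have hinbd : ∀ d ∈ ins κ f i, μ d ∈ bd μ κ f S := by
        intro d hd
        rw [mem_ins] at hd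
        rw [mem_bd, h.inv, hd.1]
        exact ⟨hpred d hd.1 hd.2, hiS, h.anti_neg hd.2⟩
      obtain ⟨β, hβ1, hβ2, hβ3, hβ4⟩ := hrule i hia hiz ℓ (by
        intro d hd d' hd' hdd
        have h1 : μ d = μ d' := hinj (hinbd d hd) (hinbd d' hd') (by rw [hℓ, hℓ]; exact hdd)
        have h2 := congrArg μ h1
        rwa [h.inv, h.inv] at h2)
      have hout : ∀ d, d ∈ outs κ f i → μ d ∉ outs κ f i := by
        intro d hd hd'
        rw [mem_outs] at hd hd'
        have := h.anti_one hd.2
        rw [hd'.2] at this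
        norm_num at this
      let ℓ' : V → ZMod 3 := fun d => if d ∈ outs κ f i then β d else
        if μ d ∈ outs κ f i then β (μ d) else ℓ d
      have e1 : ∀ d, d ∈ outs κ f i → ℓ' d = β d := fun d hd => by
        simp only [ℓ', if_pos hd]
      have e2 : ∀ d, d ∉ outs κ f i → μ d ∉ outs κ f i → ℓ' d = ℓ d := fun d hd hd' => by
        simp only [ℓ', if_neg hd, if_neg hd']
      have hSold : ∀ d, κ d ∈ S → d ∉ outs κ f i ∧ μ d ∉ outs κ f i := by
        intro d hd
        refine ⟨fun h1 => ?_, fun h1 => ?_⟩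
        · rw [mem_outs] at h1
          exact hiS (h1.1 ▸ hd)
        · rw [mem_outs] at h1
          have h2 := hS.2.2 (μ d) h1.2 (by rw [h.inv]; exact hd)
          rw [h1.1] at h2
          exact hiS h2
      refine ⟨insert i S, ℓ', hclosed, ?_, ?_, ?_, ?_⟩
      · rw [Finset.card_insert_of_notMem hiS, hScard]
      · intro d
        by_cases hd : d ∈ outs κ f i
        · have h1 := hout d hd
          have h2 : μ (μ d) ∈ outs κ f i := by rw [h.inv]; exact hd
          simp only [ℓ', if_pos hd, if_neg h1, if_pos h2]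
          rw [h.inv]
        · by_cases hd' : μ d ∈ outs κ f i
          · simp only [ℓ', if_neg hd, if_pos hd']
          · have h2 : μ (μ d) ∉ outs κ f i := by rw [h.inv]; exact hd
            simp only [ℓ', if_neg hd, if_neg hd', if_neg h2]
            exact hℓ d
      · -- injectivity on the new boundary
        have split : ∀ d, d ∈ bd μ κ f (insert i S) →
            (d ∈ outs κ f i) ∨ (d ∈ bd μ κ f S ∧ κ (μ d) ≠ i ∧ ℓ' d = ℓ d) := by
          intro d hd
          rw [mem_bd, Finset.mem_insert, Finset.mem_insert, not_or] at hd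
          obtain ⟨h1, ⟨h2, h3⟩, h4⟩ := hd
          rcases h1 with h1 | h1
          · left
            rw [mem_outs]
            exact ⟨h1, h4⟩
          · right
            refine ⟨?_, h2, e2 d (hSold d h1).1 (hSold d h1).2⟩
            rw [mem_bd]
            exact ⟨h1, h3, h4⟩
        have mixed : ∀ d d', d ∈ outs κ f i → d' ∈ bd μ κ f S → κ (μ d') ≠ i → β d ≠ ℓ d' := by
          intro d d' hd hd' hne hβ
          obtain ⟨e, he, hbe⟩ := hβ3 d hd
          have h1 : ℓ (μ e) = ℓ d' := by rw [hℓ, ← hbe, hβ]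
          have h2 : μ e = d' := hinj (hinbd e he) hd' h1
          rw [← h2, h.inv] at hne
          exact hne (mem_ins.1 he).1
        intro d hd d' hd' hdd
        rw [Finset.mem_coe] at hd hd'
        rcases split d hd with h1 | ⟨h1, h2, h3⟩ <;> rcases split d' hd' with g1 | ⟨g1, g2, g3⟩
        · rw [e1 d h1, e1 d' g1] at hdd
          exact hβ2 h1 g1 hdd
        · rw [e1 d h1, g3] at hdd
          exact absurd hdd (mixed d d' h1 g1 g2)
        · rw [e1 d' g1, h3] at hdd
          exact absurd hdd.symm (mixed d' d g1 h1 h2)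
        · rw [h3, g3] at hdd
          exact hinj h1 g1 hdd
      · intro j hj
        rw [Finset.mem_insert] at hj
        rcases hj with rfl | hj
        · refine hcongr _ β ℓ' (fun d hd hfd => ?_) hβ4
          have h5 : f d = 1 ∨ f d = -1 := by
            have := h.le d
            have := h.ge d
            omega
          rcases h5 with h5 | h5
          · exact (e1 d (mem_outs.2 ⟨hd, h5⟩)).symm
          · have h6 : d ∈ ins κ f j := mem_ins.2 ⟨hd, h5⟩
            rw [hβ1 d h6, e2 d]
            · intro h7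
              rw [mem_outs, h5] at h7
              exact absurd h7.2 (by norm_num)
            · intro h7
              rw [mem_outs] at h7
              have h8 := hpred d hd h5
              rw [h7.1] at h8
              exact hiS h8
        · refine hcongr _ ℓ ℓ' (fun d hd _ => ?_) (hgood j hj)
          have h5 := hSold d (hd ▸ hj)
          exact (e2 d h5.1 h5.2).symm
  have hcard2 : 2 ≤ Fintype.card ι := by
    have h1 : ({a, z} : Finset ι).card ≤ Fintype.card ι := Finset.card_le_univ _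
    rwa [Finset.card_pair h.haz] at h1
  obtain ⟨S, ℓ, hS, hScard, hℓ, hinj, hgood⟩ := key (Fintype.card ι - 2) (by omega)
  refine ⟨ℓ, hℓ, fun i => ?_⟩
  have hall : ∀ i, i ≠ z → i ∈ S := by
    intro i hi
    by_contra hiS
    have h1 : insert i (insert z S) ⊆ univ := Finset.subset_univ _
    have h2 := Finset.card_le_card h1
    rw [Finset.card_insert_of_notMem, Finset.card_insert_of_notMem hS.2.1, Finset.card_univ] at h2
    · omega
    · rw [Finset.mem_insert]
      rintro (h3 | h3)
      · exact hi h3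
      · exact hiS h3
  by_cases hi : i = z
  · subst hi
    refine hz ℓ ?_
    intro d hd d' hd' hdd
    have hb : ∀ d, d ∈ ins κ f i → μ d ∈ bd μ κ f S := by
      intro d hd
      rw [mem_ins] at hd
      rw [mem_bd, h.inv, hd.1]
      refine ⟨hall _ (fun h5 => h.outs_z _ h5 (h.anti_neg hd.2)), hS.2.1, h.anti_neg hd.2⟩
    have h1 : μ d = μ d' := hinj (hb d hd) (hb d' hd') (by rw [hℓ, hℓ]; exact hdd)
    have h2 := congrArg μ h1
    rwa [h.inv, h.inv] at h2
  · exact hgood i (hall i hi)

end AFlow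

end Pool.Agent.CDC
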