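import Pool.Agent.CDC.FlowLab

/-!
# Decomposition of flows, short flows of value three
-/

set_option autoImplicit false

namespace Pool.Agent.CDC

open Finset

variable {V ι : Type} [Fintype V] [DecidableEq V] [Fintype ι] [DecidableEq ι]
  {μ : V → V} {κ : V → ι}

/-- a flow of positive value contains a unit flow -/
theorem unit_sub (hμ : ∀ d, μ (μ d) = d) (hne : ∀ d, μ d ≠ d) {a z : ι} (haz : a ≠ z) {k : ℕ}
    {f : V → ℤ} (h1 : ∀ d, f (μ d) = - f d) (h2 : ∀ d, f d ≤ 1)
    (h3 : ∀ i, dv κ f i = (k + 1 : ℕ) * ((if i = a then 1 else 0) - (if i = z then 1 else 0))) :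
    ∃ g : V → ℤ, (∀ d, g (μ d) = - g d) ∧ (∀ d, g d = 0 ∨ g d = f d) ∧
      ∀ i, dv κ g i = (if i = a then 1 else 0) - (if i = z then 1 else 0) := by
  classical
  by_cases h : ∃ s, SP μ κ (fun d => f d = 1) z a s
  · obtain ⟨s, hs⟩ := h
    obtain ⟨g, g1, g2, g3, g4, g5⟩ := hs.flow hμ hne
    refine ⟨g, g1, fun d => ?_, g4⟩
    rcases g2 d with h | ⟨h, h'⟩ | ⟨h, h'⟩
    · exact Or.inl h
    · right; rw [h, h']
    · right
      rw [h1] at h'
      omega
  · exfalso
    set S : Finset ι := univ.filter (fun i => ¬ ∃ s, SP μ κ (fun d => f d = 1) z i s) with hS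
    have haS : a ∈ S := by rw [hS, mem_filter]; exact ⟨mem_univ _, h⟩
    have hzS : z ∉ S := by
      rw [hS, mem_filter]
      rintro ⟨-, h'⟩
      exact h' ⟨_, SP.nil⟩
    have e1 := dv_cut (κ := κ) hμ h1 S
    have e2 : ∑ i ∈ S, dv κ f i = (k + 1 : ℕ) := by
      rw [Finset.sum_eq_single a]
      · rw [h3, if_pos rfl, if_neg haz]
        ring
      · intro i hi hia
        rw [h3, if_neg hia, if_neg (fun h : i = z => hzS (h ▸ hi))]
        ring
      · intro h; exact absurd haS h
    have e3 : ∑ d ∈ univ.filter (fun d => κ d ∈ S ∧ κ (μ d) ∉ S), f d ≤ 0 := by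
      refine Finset.sum_nonpos (fun d hd => ?_)
      rw [mem_filter] at hd
      have h4 : f d ≠ 1 := by
        intro h5
        have h6 := hd.2.1
        have h7 := hd.2.2
        rw [hS, mem_filter] at h6 h7
        simp only [mem_univ, true_and, not_not] at h6 h7
        exact h6 (SP.step (Q := fun d => f d = 1) h5 h7)
      have := h2 d
      omega
    rw [e2] at e1
    push_cast at e1
    have : (0 : ℤ) ≤ (k : ℤ) := Int.natCast_nonneg k
    omega

/-- decomposition into unit flows with disjoint supports -/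
theorem decomp (hμ : ∀ d, μ (μ d) = d) (hne : ∀ d, μ d ≠ d) {a z : ι} (haz : a ≠ z) (k : ℕ) :
    ∀ f : V → ℤ, (∀ d, f (μ d) = - f d) → (∀ d, f d ≤ 1) →
    (∀ i, dv κ f i = (k : ℕ) * ((if i = a then 1 else 0) - (if i = z then 1 else 0))) →
    ∃ g : Fin k → V → ℤ, (∀ j d, g j (μ d) = - g j d) ∧ (∀ j d, g j d = 0 ∨ g j d = f d) ∧
      (∀ j i, dv κ (g j) i = (if i = a then 1 else 0) - (if i = z then 1 else 0)) ∧
      ∀ j j' d, j ≠ j' → g j d = 0 ∨ g j' d = 0 := by
  induction k with
  | zero =>
    intro f _ _ _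
    exact ⟨fun j => j.elim0, fun j => j.elim0, fun j => j.elim0, fun j => j.elim0,
      fun j => j.elim0⟩
  | succ k ih =>
    intro f h1 h2 h3
    obtain ⟨g₀, g1, g2, g3⟩ := unit_sub (κ := κ) hμ hne haz h1 h2 h3
    obtain ⟨g, k1, k2, k3, k4⟩ := ih (fun d => f d - g₀ d) (fun d => by
      show f (μ d) - g₀ (μ d) = -(f d - g₀ d)
      rw [h1, g1]; ring) (fun d => by
      show f d - g₀ d ≤ 1
      rcases g2 d with h | h
      · rw [h, sub_zero]; exact h2 d
      · rw [h, sub_self]; norm_num) (fun i => by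
      rw [dv_sub, h3, g3]
      push_cast
      ring)
    have k2' : ∀ j d, g j d = 0 ∨ (g j d = f d ∧ g₀ d = 0) := by
      intro j d
      rcases k2 j d with h | h
      · exact Or.inl h
      · rcases g2 d with h' | h'
        · right
          refine ⟨?_, h'⟩
          rw [h, h', sub_zero]
        · left
          rw [h, h', sub_self]
    refine ⟨Fin.cons g₀ g, ?_, ?_, ?_, ?_⟩
    · intro j
      refine Fin.cases ?_ (fun j => ?_) j
      · rw [Fin.cons_zero]; exact g1
      · rw [Fin.cons_succ]; exact k1 j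
    · intro j
      refine Fin.cases ?_ (fun j => ?_) j
      · rw [Fin.cons_zero]; exact g2
      · rw [Fin.cons_succ]
        intro d
        rcases k2' j d with h | ⟨h, -⟩
        · exact Or.inl h
        · exact Or.inr h
    · intro j
      refine Fin.cases ?_ (fun j => ?_) j
      · rw [Fin.cons_zero]; exact g3
      · rw [Fin.cons_succ]; exact k3 j
    · intro j j'
      refine Fin.cases ?_ (fun j => ?_) j <;> refine Fin.cases ?_ (fun j' => ?_) j'
      · intro d h; exact absurd rfl h
      · intro d _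
        rw [Fin.cons_zero, Fin.cons_succ]
        rcases k2' j' d with h | ⟨-, h⟩
        · exact Or.inr h
        · exact Or.inl h
      · intro d _
        rw [Fin.cons_zero, Fin.cons_succ]
        rcases k2' j d with h | ⟨-, h⟩
        · exact Or.inl h
        · exact Or.inr h
      · intro d h
        rw [Fin.cons_succ, Fin.cons_succ]
        exact k4 j j' d (fun h' => h (by rw [h']))

/-- three smallest numbers -/
theorem three_small {α : Type} [DecidableEq α] (s : α → ℕ) (c : ℕ) :
    ∀ A : Finset α, A.card = c + 3 → ∃ T ⊆ A, T.card = 3 ∧ (c + 3) * ∑ t ∈ T, s t ≤ 3 * ∑ t ∈ A, s t := by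
  induction c with
  | zero =>
    intro A hA
    exact ⟨A, Finset.Subset.refl _, hA, by rw [zero_add]⟩
  | succ c ih =>
    intro A hA
    have hne : A.Nonempty := by
      rw [← Finset.card_pos]
      omega
    obtain ⟨a, ha, hmax⟩ := Finset.exists_max_image A s hne
    obtain ⟨T, hT, hT3, hTs⟩ := ih (A.erase a) (by rw [Finset.card_erase_of_mem ha]; omega)
    refine ⟨T, hT.trans (Finset.erase_subset _ _), hT3, ?_⟩
    have h1 : ∑ t ∈ T, s t ≤ 3 * s a := by
      have h2 : ∑ t ∈ T, s t ≤ ∑ _t ∈ T, s a :=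
        Finset.sum_le_sum (fun t ht => hmax t (Finset.mem_of_mem_erase (hT ht)))
      rwa [Finset.sum_const, hT3, smul_eq_mul] at h2
    have h2 : ∑ t ∈ A, s t = s a + ∑ t ∈ A.erase a, s t := (Finset.add_sum_erase A s ha).symm
    rw [h2]
    have h3 : (c + 1 + 3) * ∑ t ∈ T, s t = (c + 3) * ∑ t ∈ T, s t + ∑ t ∈ T, s t := by ring
    rw [h3]
    omega

/-- a short flow of value three -/
theorem short_flow (hμ : ∀ d, μ (μ d) = d) (hne : ∀ d, μ d ≠ d) {a z : ι} (haz : a ≠ z) (c : ℕ)
    (hcut : ∀ S : Finset ι, a ∈ S → z ∉ S →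
      c + 3 ≤ (univ.filter (fun d => κ d ∈ S ∧ κ (μ d) ∉ S)).card) :
    ∃ f : V → ℤ, (∀ d, f (μ d) = - f d) ∧ (∀ d, f d ≤ 1) ∧
      (∀ i, dv κ f i = 3 * ((if i = a then 1 else 0) - (if i = z then 1 else 0))) ∧
      (c + 3) * (supp f).card ≤ 3 * Fintype.card V := by
  classical
  obtain ⟨f, h1, h2, h3⟩ := exists_flow (κ := κ) hμ hne a z haz (c + 3) hcut
  obtain ⟨g, g1, g2, g3, g4⟩ := decomp (κ := κ) hμ hne haz (c + 3) f h1 h2 h3
  obtain ⟨T, -, hT3, hTs⟩ := three_small (fun j => (supp (g j)).card) c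
    (univ : Finset (Fin (c + 3))) (by rw [Finset.card_univ, Fintype.card_fin])
  have hle : ∀ d, (∑ j ∈ T, g j d) = 0 ∨ (∑ j ∈ T, g j d) = f d := by
    intro d
    by_cases hj : ∃ j ∈ T, g j d ≠ 0
    · obtain ⟨j, hjT, hj⟩ := hj
      right
      rw [Finset.sum_eq_single j]
      · rcases g2 j d with h | h
        · exact absurd h hj
        · exact h
      · intro j' _ hj'
        rcases g4 j' j d hj' with h | h
        · exact h
        · exact absurd h hj
      · intro h; exact absurd hjT h
    · push Not at hj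
      exact Or.inl (Finset.sum_eq_zero hj)
  refine ⟨fun d => ∑ j ∈ T, g j d, ?_, ?_, ?_, ?_⟩
  · intro d
    rw [← Finset.sum_neg_distrib]
    exact Finset.sum_congr rfl (fun j _ => g1 j d)
  · intro d
    show (∑ j ∈ T, g j d) ≤ 1
    rcases hle d with h | h
    · rw [h]; norm_num
    · rw [h]; exact h2 d
  · intro i
    have h4 : dv κ (fun d => ∑ j ∈ T, g j d) i = ∑ j ∈ T, dv κ (g j) i := by
      unfold dv
      exact Finset.sum_comm
    rw [h4, Finset.sum_congr rfl (fun j _ => g3 j i), Finset.sum_const, hT3]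
    simp
  · have h4 : (supp (fun d => ∑ j ∈ T, g j d)).card ≤ ∑ j ∈ T, (supp (g j)).card := by
      have h5 : supp (fun d => ∑ j ∈ T, g j d) ⊆ T.biUnion (fun j => supp (g j)) := by
        intro d hd
        unfold supp at hd
        rw [mem_filter] at hd
        rw [mem_biUnion]
        by_contra hc
        push Not at hc
        apply hd.2
        refine Finset.sum_eq_zero (fun j hj => ?_)
        have h6 := hc j hj
        unfold supp at h6
        rw [mem_filter] at h6
        by_contra h7
        exact h6 ⟨mem_univ _, h7⟩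
      exact (Finset.card_le_card h5).trans Finset.card_biUnion_le
    have h5 : ∑ j : Fin (c + 3), (supp (g j)).card ≤ Fintype.card V := by
      rw [← Finset.card_biUnion]
      · exact Finset.card_le_univ _
      · intro j _ j' _ hjj
        rw [Function.onFun, Finset.disjoint_left]
        intro d hd hd'
        unfold supp at hd hd'
        rw [mem_filter] at hd hd'
        rcases g4 j j' d hjj with h | h
        · exact hd.2 h
        · exact hd'.2 h
    calc (c + 3) * (supp (fun d => ∑ j ∈ T, g j d)).card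
        ≤ (c + 3) * ∑ j ∈ T, (supp (g j)).card := Nat.mul_le_mul_left _ h4
      _ ≤ 3 * ∑ j : Fin (c + 3), (supp (g j)).card := hTs
      _ ≤ 3 * Fintype.card V := Nat.mul_le_mul_left _ h5

end Pool.Agent.CDC
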