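import Pool.Agent.CDC.Cover

/-!
# From 5-cycle double covers to four perfect matchings

If `D 0, …, D 4` is a 5-cycle double cover of a cubic graph, then expanding the vertices missed by
`D 0` gives a graph which is coverable by four perfect matchings; some `D i` misses at most two
fifths of the vertices.
-/

set_option autoImplicit false

namespace Pool.Agent.CDC

open Finset

/-- the ten pairs of indices -/
def two (k : Fin 10) (i : Fin 5) : Bool :=
  decide (i = (![0, 0, 0, 0, 1, 1, 1, 2, 2, 3] : Fin 10 → Fin 5) k ∨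
    i = (![1, 2, 3, 4, 2, 3, 4, 3, 4, 4] : Fin 10 → Fin 5) k)

theorem exists_two (a b : Fin 5) (h : a ≠ b) : ∃ k, ∀ i, (i = a ∨ i = b) ↔ two k i = true := by
  revert a b; decide

/-- three labels which may occur at a vertex -/
def Gd (a b c : Fin 10) : Prop := ∀ i : Fin 5, Even ((if two a i = true then 1 else 0) +
  (if two b i = true then 1 else 0) + (if two c i = true then 1 else 0))

instance (a b c : Fin 10) : Decidable (Gd a b c) := by unfold Gd; infer_instance

theorem gd_one (a b c : Fin 10) (h : Gd a b c)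
    (h0 : two a 0 = true ∨ two b 0 = true ∨ two c 0 = true) (j : Fin 4) :
    ((two a 0 = two a j.succ) ∧ ¬ (two b 0 = two b j.succ) ∧ ¬ (two c 0 = two c j.succ)) ∨
    (¬ (two a 0 = two a j.succ) ∧ (two b 0 = two b j.succ) ∧ ¬ (two c 0 = two c j.succ)) ∨
    (¬ (two a 0 = two a j.succ) ∧ ¬ (two b 0 = two b j.succ) ∧ (two c 0 = two c j.succ)) := by
  revert a b c j; decide

theorem gd_next (a b c : Fin 10) (h : Gd a b c) (j : Fin 4) (ha : two a j.succ = true) :
    (two b j.succ = true ∧ two c j.succ = false) ∨ (two b j.succ = false ∧ two c j.succ = true) := by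
  revert a b c j; decide

theorem gd_common (a b c : Fin 10) (h : Gd a b c)
    (h0 : two a 0 = false ∧ two b 0 = false ∧ two c 0 = false) :
    ∃ j : Fin 4, two b j.succ = true ∧ two c j.succ = true := by
  revert a b c; decide

theorem gd_count (a b c : Fin 10) (h : Gd a b c) :
    (univ.filter (fun i : Fin 5 => two a i = false ∧ two b i = false ∧ two c i = false)).card = 2 := by
  revert a b c; decide

theorem two_cover (a : Fin 10) : ∃ j : Fin 4, two a 0 = two a j.succ := by
  revert a; decide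

variable {V E : Type} {G : MGraph V E}

/-- labels of a double cover -/
theorem exists_lab {D : Fin 5 → Set E} (hD : G.IsCDC D) :
    ∃ lab : E → Fin 10, ∀ e i, e ∈ D i ↔ two (lab e) i = true := by
  have h : ∀ e, ∃ k : Fin 10, ∀ i, e ∈ D i ↔ two k i = true := by
    intro e
    obtain ⟨a, b, hab, hS⟩ := Set.ncard_eq_two.1 (hD.2 e)
    obtain ⟨k, hk⟩ := exists_two a b hab
    refine ⟨k, fun i => ?_⟩
    rw [← hk i]
    have : i ∈ {i | e ∈ D i} ↔ i ∈ ({a, b} : Set (Fin 5)) := by rw [hS]
    simpa using this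
  choose lab hlab using h
  exact ⟨lab, hlab⟩

theorem gd_star {D : Fin 5 → Set E} (hD : G.IsCDC D) {lab : E → Fin 10}
    (hlab : ∀ e i, e ∈ D i ↔ two (lab e) i = true) {w : V} {e₁ e₂ e₃ : E} (h12 : e₁ ≠ e₂)
    (h13 : e₁ ≠ e₃) (h23 : e₂ ≠ e₃) (hs : ∀ e, G.inc w e ↔ e = e₁ ∨ e = e₂ ∨ e = e₃) :
    Gd (lab e₁) (lab e₂) (lab e₃) := by
  classical
  intro i
  have h1 := hD.1 i w
  rw [ncard_star h12 h13 h23 hs] at h1
  exact even_congr (hlab e₁ i).symm (hlab e₂ i).symm (hlab e₃ i).symm h1

/-- **5-cycle double covers and four perfect matchings** -/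
theorem coverable_of_cdc (hG : G.Cubic) (D : Fin 5 → Set E) (hD : G.IsCDC D) :
    (G.expand hG {v | v ∉ G.verts (D 0)}).Coverable4 := by
  classical
  obtain ⟨lab, hlab⟩ := exists_lab hD
  have hfalse : ∀ e i, e ∉ D i ↔ two (lab e) i = false := by
    intro e i
    rw [hlab e i, Bool.not_eq_true]
  have hM : ∀ e (j : Fin 4), (e ∈ D 0 ↔ e ∈ D j.succ) ↔ two (lab e) 0 = two (lab e) j.succ := by
    intro e j
    rw [hlab e 0, hlab e j.succ]
    generalize two (lab e) 0 = x
    generalize two (lab e) j.succ = y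
    revert x y
    decide
  refine ⟨fun j => {x | match x with
    | Sum.inl e => (e ∈ D 0 ↔ e ∈ D j.succ)
    | Sum.inr p => ∀ e, G.inc p.1.1 e → e ≠ p.1.2 → e ∈ D j.succ}, ?_, ?_⟩
  · intro j x
    rcases x with ⟨w, hw⟩ | ⟨⟨w, e⟩, hw, he⟩
    · have hw' : w ∈ G.verts (D 0) := by
        by_contra h
        exact hw h
      obtain ⟨e₁, e₂, e₃, h12, h13, h23, hs⟩ := star_off hG w
      have hgd := gd_star hD hlab h12 h13 h23 hs
      have h0 : two (lab e₁) 0 = true ∨ two (lab e₂) 0 = true ∨ two (lab e₃) 0 = true := by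
        obtain ⟨e, he, hwe⟩ := hw'
        rw [hlab] at he
        rcases (hs e).1 hwe with rfl | rfl | rfl
        · exact Or.inl he
        · exact Or.inr (Or.inl he)
        · exact Or.inr (Or.inr he)
      have key : ∃ e, ((e ∈ D 0 ↔ e ∈ D j.succ) ∧ G.inc w e) ∧
          ∀ f, ((f ∈ D 0 ↔ f ∈ D j.succ) ∧ G.inc w f) → f = e := by
        rcases gd_one _ _ _ hgd h0 j with ⟨g1, g2, g3⟩ | ⟨g1, g2, g3⟩ | ⟨g1, g2, g3⟩
        · refine ⟨e₁, ⟨(hM _ _).2 g1, (hs _).2 (Or.inl rfl)⟩, ?_⟩
          rintro f ⟨hf1, hf2⟩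
          rw [hM] at hf1
          rcases (hs f).1 hf2 with rfl | rfl | rfl
          · rfl
          · exact absurd hf1 g2
          · exact absurd hf1 g3
        · refine ⟨e₂, ⟨(hM _ _).2 g2, (hs _).2 (Or.inr (Or.inl rfl))⟩, ?_⟩
          rintro f ⟨hf1, hf2⟩
          rw [hM] at hf1
          rcases (hs f).1 hf2 with rfl | rfl | rfl
          · exact absurd hf1 g1
          · rfl
          · exact absurd hf1 g3
        · refine ⟨e₃, ⟨(hM _ _).2 g3, (hs _).2 (Or.inr (Or.inr rfl))⟩, ?_⟩
          rintro f ⟨hf1, hf2⟩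
          rw [hM] at hf1
          rcases (hs f).1 hf2 with rfl | rfl | rfl
          · exact absurd hf1 g1
          · exact absurd hf1 g2
          · rfl
      obtain ⟨e, ⟨he1, he2⟩, hu⟩ := key
      refine ⟨Sum.inl e, ⟨he1, he2⟩, ?_⟩
      rintro (f | q) ⟨hf1, hf2⟩
      · rw [hu f ⟨hf1, hf2⟩]
      · exact absurd hf2 (by simp [MGraph.expand, MGraph.expInc])
    · have hw' : w ∉ G.verts (D 0) := hw
      have he' : G.inc w e := he
      obtain ⟨f, g, hef, heg, hfg, hs⟩ := star_off' hG w he'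
      have hf : G.inc w f := (hs f).2 (Or.inr (Or.inl rfl))
      have hg : G.inc w g := (hs g).2 (Or.inr (Or.inr rfl))
      have hgd := gd_star hD hlab hef heg hfg hs
      have hoff : ∀ e', G.inc w e' → e' ∉ D 0 := fun e' h1 h2 => hw' ⟨e', h2, h1⟩
      by_cases hz : e ∈ D j.succ
      · rcases gd_next _ _ _ hgd j ((hlab _ _).1 hz) with ⟨hf1, hg1⟩ | ⟨hf1, hg1⟩
        · rw [← hlab] at hf1
          rw [← hfalse] at hg1
          refine ⟨Sum.inr ⟨(w, g), hw, hg⟩, ⟨?_, rfl, heg⟩, ?_⟩
          · intro e' he1 he2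
            rcases (hs e').1 he1 with rfl | rfl | rfl
            · exact hz
            · exact hf1
            · exact absurd rfl he2
          · rintro (e' | ⟨⟨w', f'⟩, hw1, hf'⟩) ⟨hM', hinc⟩
            · have h5 : e = e' := hinc
              subst h5
              exact absurd (hM'.2 hz) (hoff e he')
            · obtain ⟨h5, h6⟩ : w = w' ∧ e ≠ f' := hinc
              subst h5
              rcases (hs f').1 hf' with rfl | rfl | rfl
              · exact absurd rfl h6
              · exact absurd (hM' g hg (Ne.symm hfg)) hg1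
              · rfl
        · rw [← hlab] at hg1
          rw [← hfalse] at hf1
          refine ⟨Sum.inr ⟨(w, f), hw, hf⟩, ⟨?_, rfl, hef⟩, ?_⟩
          · intro e' he1 he2
            rcases (hs e').1 he1 with rfl | rfl | rfl
            · exact hz
            · exact absurd rfl he2
            · exact hg1
          · rintro (e' | ⟨⟨w', f'⟩, hw1, hf'⟩) ⟨hM', hinc⟩
            · have h5 : e = e' := hinc
              subst h5
              exact absurd (hM'.2 hz) (hoff e he')
            · obtain ⟨h5, h6⟩ : w = w' ∧ e ≠ f' := hinc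
              subst h5
              rcases (hs f').1 hf' with rfl | rfl | rfl
              · exact absurd rfl h6
              · rfl
              · exact absurd (hM' f hf hfg) hf1
      · refine ⟨Sum.inl e, ⟨⟨fun h => absurd h (hoff e he'), fun h => absurd h hz⟩, rfl⟩, ?_⟩
        rintro (e' | ⟨⟨w', f'⟩, hw1, hf'⟩) ⟨hM', hinc⟩
        · have h5 : e = e' := hinc
          subst h5
          rfl
        · obtain ⟨h5, h6⟩ : w = w' ∧ e ≠ f' := hinc
          subst h5
          exact absurd (hM' e he' h6) hz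
  · rintro (e | ⟨⟨w, f⟩, hw, hf⟩)
    · obtain ⟨j, hj⟩ := two_cover (lab e)
      exact ⟨j, (hM e j).2 hj⟩
    · have hf' : G.inc w f := hf
      have hw' : w ∉ G.verts (D 0) := hw
      obtain ⟨e, g, hfe, hfg, heg, hs⟩ := star_off' hG w hf'
      have he : G.inc w e := (hs e).2 (Or.inr (Or.inl rfl))
      have hg : G.inc w g := (hs g).2 (Or.inr (Or.inr rfl))
      have hgd := gd_star hD hlab hfe hfg heg hs
      have hoff : ∀ e', G.inc w e' → e' ∉ D 0 := fun e' h1 h2 => hw' ⟨e', h2, h1⟩
      obtain ⟨j, hj1, hj2⟩ := gd_common _ _ _ hgd ⟨(hfalse _ _).1 (hoff _ hf'),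
        (hfalse _ _).1 (hoff _ he), (hfalse _ _).1 (hoff _ hg)⟩
      refine ⟨j, ?_⟩
      intro e' he1 he2
      rcases (hs e').1 he1 with rfl | rfl | rfl
      · exact absurd rfl he2
      · exact (hlab _ _).2 hj1
      · exact (hlab _ _).2 hj2

/-- every vertex is missed by exactly two members -/
theorem missed_two (hG : G.Cubic) (D : Fin 5 → Set E) (hD : G.IsCDC D) (v : V) :
    {i | v ∉ G.verts (D i)}.ncard = 2 := by
  classical
  obtain ⟨lab, hlab⟩ := exists_lab hD
  obtain ⟨e₁, e₂, e₃, h12, h13, h23, hs⟩ := star_off hG v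
  have hgd := gd_star hD hlab h12 h13 h23 hs
  rw [← gd_count _ _ _ hgd, ← Set.ncard_coe_finset]
  congr 1
  ext i
  simp only [Set.mem_setOf_eq, coe_filter, mem_univ, true_and]
  have hfalse : ∀ e, e ∉ D i ↔ two (lab e) i = false := by
    intro e
    rw [hlab e i, Bool.not_eq_true]
  rw [← hfalse, ← hfalse, ← hfalse]
  constructor
  · intro h
    exact ⟨fun h' => h ⟨_, h', (hs _).2 (Or.inl rfl)⟩,
      fun h' => h ⟨_, h', (hs _).2 (Or.inr (Or.inl rfl))⟩,
      fun h' => h ⟨_, h', (hs _).2 (Or.inr (Or.inr rfl))⟩⟩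
  · rintro ⟨h1, h2, h3⟩ ⟨e, he, hv⟩
    rcases (hs e).1 hv with rfl | rfl | rfl
    · exact h1 he
    · exact h2 he
    · exact h3 he

/-- some member misses at most two fifths of the vertices -/
theorem two_fifths [Finite V] (hG : G.Cubic) (D : Fin 5 → Set E) (hD : G.IsCDC D) :
    ∃ i, 5 * {v | v ∉ G.verts (D i)}.ncard ≤ 2 * Nat.card V := by
  classical
  have := Fintype.ofFinite V
  by_contra hcon
  push Not at hcon
  have h1 : ∀ i, {v | v ∉ G.verts (D i)}.ncard = ∑ v : V, if v ∉ G.verts (D i) then 1 else 0 := by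
    intro i
    rw [← Finset.card_filter, ← Set.ncard_coe_finset]
    congr 1
    ext v
    simp
  have h2 : ∑ i : Fin 5, {v | v ∉ G.verts (D i)}.ncard = 2 * Nat.card V := by
    rw [Finset.sum_congr rfl (fun i _ => h1 i), Finset.sum_comm]
    have h3 : ∀ v : V, (∑ i : Fin 5, if v ∉ G.verts (D i) then 1 else 0) = 2 := by
      intro v
      rw [← Finset.card_filter, ← missed_two hG D hD v, ← Set.ncard_coe_finset]
      congr 1
      ext i
      simp
    rw [Finset.sum_congr rfl (fun v _ => h3 v), Finset.sum_const, Finset.card_univ,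
      Nat.card_eq_fintype_card, smul_eq_mul, mul_comm]
  have h4 : ∑ i : Fin 5, (2 * Nat.card V + 1) ≤ ∑ i : Fin 5, 5 * {v | v ∉ G.verts (D i)}.ncard :=
    Finset.sum_le_sum (fun i _ => hcon i)
  rw [← Finset.mul_sum, h2, Finset.sum_const, Finset.card_univ, Fintype.card_fin] at h4
  simp only [smul_eq_mul] at h4
  omega

/-- a 5-cycle double cover gives a set `U` with `5 |U| ≤ 2 |V|` -/
theorem coverable_two_fifths [Finite V] (hG : G.Cubic) (D : Fin 5 → Set E) (hD : G.IsCDC D) :
    ∃ U : Set V, 5 * U.ncard ≤ 2 * Nat.card V ∧ (G.expand hG U).Coverable4 := by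
  obtain ⟨i, hi⟩ := two_fifths hG D hD
  have hD' : G.IsCDC (fun j => D (Equiv.swap 0 i j)) := by
    refine ⟨fun j => hD.1 _, fun e => ?_⟩
    rw [← hD.2 e]
    have h1 : {j | e ∈ D (Equiv.swap 0 i j)} = (Equiv.swap 0 i) '' {j | e ∈ D j} := by
      ext j
      simp only [Set.mem_setOf_eq, Set.mem_image]
      constructor
      · intro h
        exact ⟨_, h, by simp⟩
      · rintro ⟨k, hk, rfl⟩
        simpa using hk
    rw [h1, Set.ncard_image_of_injective _ (Equiv.injective _)]
  have h := coverable_of_cdc hG _ hD'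
  rw [Equiv.swap_apply_left] at h
  exact ⟨_, hi, h⟩

end Pool.Agent.CDC
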