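import Pool.Agent.CDC.Cut
import Pool.Agent.CDC.Lab

/-!
# Contraction of one side of a cut, gluing double covers over 3-cuts
-/

set_option autoImplicit false

namespace Pool.Agent.CDC

open Finset

variable {V E : Type}

theorem ncard_sub {p q : E → Prop} (h : ∀ e, q e → p e) :
    {x : {e // p e} | q x.1}.ncard = {e | q e}.ncard := by
  rw [← Set.ncard_image_of_injective _ Subtype.val_injective]
  congr 1
  ext e
  simp only [Set.mem_image, Set.mem_setOf_eq, Subtype.exists, exists_and_left, exists_prop,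
    exists_eq_right_right]
  exact ⟨fun h' => h'.1, fun h' => ⟨h', h e h'⟩⟩

namespace MGraph

variable (G : MGraph V E)

/-- incidence in the graph obtained by contracting the complement of `S` to one vertex `none` -/
def ctrInc (S : Set V) : Option {v // v ∈ S} → {e // ∃ v ∈ S, G.inc v e} → Prop
  | some v, e => G.inc v.1 e.1
  | none, e => ∃ v, v ∉ S ∧ G.inc v e.1

theorem ctrInc_two (S : Set V) (e : {e // ∃ v ∈ S, G.inc v e}) :
    {x | G.ctrInc S x e}.ncard = 2 := by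
  obtain ⟨u, w, huw, h⟩ := exists_ends G e.1
  have key : ∀ u w : V, u ≠ w → (∀ z, G.inc z e.1 ↔ z = u ∨ z = w) → u ∈ S →
      {x | G.ctrInc S x e}.ncard = 2 := by
    intro u w huw h hu
    by_cases hw : w ∈ S
    · have h1 : {x | G.ctrInc S x e} = {some ⟨u, hu⟩, some ⟨w, hw⟩} := by
        ext x
        rcases x with _ | ⟨z, hz⟩
        · simp only [Set.mem_setOf_eq, Set.mem_insert_iff, reduceCtorEq, Set.mem_singleton_iff,
            or_self, iff_false]
          rintro ⟨z, hz, hz'⟩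
          rw [h] at hz'
          rcases hz' with rfl | rfl
          · exact hz hu
          · exact hz hw
        · simp only [Set.mem_setOf_eq, Set.mem_insert_iff, Set.mem_singleton_iff,
            Option.some.injEq, Subtype.mk.injEq]
          exact h z
      rw [h1, Set.ncard_pair]
      intro h'
      exact huw (congrArg Subtype.val (Option.some.inj h'))
    · have h1 : {x | G.ctrInc S x e} = {some ⟨u, hu⟩, none} := by
        ext x
        rcases x with _ | ⟨z, hz⟩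
        · simp only [Set.mem_setOf_eq, Set.mem_insert_iff, reduceCtorEq, Set.mem_singleton_iff,
            or_true, iff_true]
          exact ⟨w, hw, (h w).2 (Or.inr rfl)⟩
        · simp only [Set.mem_setOf_eq, Set.mem_insert_iff, Set.mem_singleton_iff,
            Option.some.injEq, Subtype.mk.injEq, reduceCtorEq, or_false]
          constructor
          · intro h2
            rcases (h z).1 h2 with h3 | h3
            · exact h3
            · exact absurd (h3 ▸ hz) hw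
          · intro h2
            exact (h z).2 (Or.inl h2)
      rw [h1, Set.ncard_pair (by simp)]
  obtain ⟨v, hv, hve⟩ := e.2
  rcases (h v).1 hve with rfl | rfl
  · exact key v w huw h hv
  · exact key v u huw.symm (fun z => by rw [h z, or_comm]) hv

/-- the graph obtained by contracting the complement of `S` -/
def ctr (S : Set V) : MGraph (Option {v // v ∈ S}) {e // ∃ v ∈ S, G.inc v e} :=
  ⟨G.ctrInc S, G.ctrInc_two S⟩

variable {G}

theorem ctr_cubic (hG : G.Cubic) {S : Set V} (h3 : (G.cut S).ncard = 3) : (G.ctr S).Cubic := by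
  intro x
  rcases x with _ | ⟨v, hv⟩
  · rw [← h3]
    have h1 : {e | (G.ctr S).inc none e} =
        {e : {e // ∃ v ∈ S, G.inc v e} | (e.1 ∈ G.cut S)} := by
      ext e
      constructor
      · exact fun h => ⟨e.2, h⟩
      · exact fun h => h.2
    rw [h1]
    exact ncard_sub (fun e he => he.1)
  · rw [← hG v]
    exact ncard_sub (fun e he => ⟨v, hv, he⟩)

/-- the set of vertices of `G` belonging to a set of vertices of the contraction -/
def lift (S : Set V) (T : Set (Option {v // v ∈ S})) : Set V :=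
  {v | (∃ h : v ∈ S, some ⟨v, h⟩ ∈ T) ∨ (v ∉ S ∧ none ∈ T)}

theorem mem_ctr_cut {S : Set V} (T : Set (Option {v // v ∈ S})) (e : {e // ∃ v ∈ S, G.inc v e}) :
    e ∈ (G.ctr S).cut T ↔ e.1 ∈ G.cut (lift S T) := by
  constructor
  · rintro ⟨⟨x, hx, hx'⟩, y, hy, hy'⟩
    refine ⟨?_, ?_⟩
    · rcases x with _ | ⟨v, hv⟩
      · obtain ⟨z, hz, hz'⟩ := hx'
        exact ⟨z, Or.inr ⟨hz, hx⟩, hz'⟩
      · exact ⟨v, Or.inl ⟨hv, hx⟩, hx'⟩
    · rcases y with _ | ⟨v, hv⟩
      · obtain ⟨z, hz, hz'⟩ := hy'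
        refine ⟨z, ?_, hz'⟩
        rintro (⟨h, h'⟩ | ⟨h', h⟩)
        · exact hz h
        · exact hy h
      · refine ⟨v, ?_, hy'⟩
        rintro (⟨h', h⟩ | ⟨h, h'⟩)
        · exact hy h
        · exact h hv
  · rintro ⟨⟨v, hv, hv'⟩, z, hz, hz'⟩
    refine ⟨?_, ?_⟩
    · rcases hv with ⟨h, h'⟩ | ⟨h, h'⟩
      · exact ⟨some ⟨v, h⟩, h', hv'⟩
      · exact ⟨none, h', v, h, hv'⟩
    · by_cases h : z ∈ S
      · exact ⟨some ⟨z, h⟩, fun h' => hz (Or.inl ⟨h, h'⟩), hz'⟩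
      · exact ⟨none, fun h' => hz (Or.inr ⟨h, h'⟩), z, h, hz'⟩

theorem ctr_cut_ncard {S : Set V} (T : Set (Option {v // v ∈ S})) :
    ((G.ctr S).cut T).ncard = (G.cut (lift S T)).ncard := by
  have h1 : (G.ctr S).cut T = {e : {e // ∃ v ∈ S, G.inc v e} | e.1 ∈ G.cut (lift S T)} := by
    ext e
    exact mem_ctr_cut T e
  rw [h1]
  refine ncard_sub (fun e he => ?_)
  by_contra hcon
  push Not at hcon
  obtain ⟨⟨v, hv, hv'⟩, z, hz, hz'⟩ := he
  have hvS : v ∉ S := fun h => hcon v h hv'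
  have hzS : z ∉ S := fun h => hcon z h hz'
  rcases hv with ⟨h, -⟩ | ⟨-, h⟩
  · exact hvS h
  · exact hz (Or.inr ⟨hzS, h⟩)

theorem ctr_bridgeless (hB : G.Bridgeless) (S : Set V) : (G.ctr S).Bridgeless := by
  intro T
  rw [ctr_cut_ncard]
  exact hB _

theorem ctr_card [Finite V] {S : Set V} : Nat.card (Option {v // v ∈ S}) = S.ncard + 1 := by
  rw [Finite.card_option]
  rfl

end MGraph

/-! ### colourings -/

/-- the colouring is proper at `v` -/
def ProperAt (G : MGraph V E) (col : E → ZMod 3) (v : V) : Prop :=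
  ∀ e f, G.inc v e → G.inc v f → e ≠ f → col e ≠ col f

theorem th_sum_distinct (a b c : ZMod 3) (h : th a + (th b + th c) = 0) :
    a ≠ b ∧ a ≠ c ∧ b ≠ c := by
  revert a b c; decide

theorem ncard_three {α : Type} {S : Set α} (h : S.ncard = 3) :
    ∃ x y z, x ≠ y ∧ x ≠ z ∧ y ≠ z ∧ ∀ a, a ∈ S ↔ a = x ∨ a = y ∨ a = z := by
  obtain ⟨x, y, z, hxy, hxz, hyz, rfl⟩ := Set.ncard_eq_three.1 h
  exact ⟨x, y, z, hxy, hxz, hyz, fun a => by simp⟩

/-- the parity lemma for a 3-cut -/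
theorem parity_three [Finite V] [Finite E] {G : MGraph V E} (hG : G.Cubic) {S : Set V}
    (h3 : (G.cut S).ncard = 3) (col : E → ZMod 3) (hcol : ∀ v ∈ S, ProperAt G col v) :
    ∀ e f, e ∈ G.cut S → f ∈ G.cut S → e ≠ f → col e ≠ col f := by
  classical
  have := Fintype.ofFinite V
  have := Fintype.ofFinite E
  obtain ⟨x, y, z, hxy, hxz, hyz, hs⟩ := ncard_three h3
  have h := cut_sum G S f4_add_self (fun e => th (col e))
  have h1 : ∀ v ∈ univ.filter (fun v => v ∈ S),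
      ∑ e ∈ univ.filter (fun e => G.inc v e), th (col e) = 0 := by
    intro v hv
    rw [mem_filter] at hv
    obtain ⟨e₁, e₂, e₃, h12, h13, h23, hst⟩ := star_off hG v
    rw [sum_star (fun e => th (col e)) h12 h13 h23 hst]
    have := sum_th_distinct (hcol v hv.2 _ _ ((hst _).2 (by simp)) ((hst _).2 (by simp)) h12)
      (hcol v hv.2 _ _ ((hst _).2 (by simp)) ((hst _).2 (by simp)) h13)
      (hcol v hv.2 _ _ ((hst _).2 (by simp)) ((hst _).2 (by simp)) h23) 0
    simpa using this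
  rw [Finset.sum_congr rfl h1, Finset.sum_const_zero] at h
  have h2 : univ.filter (fun e => e ∈ G.cut S) = {x, y, z} := by
    ext e
    rw [mem_filter]
    simp only [mem_insert, mem_singleton, mem_univ, true_and]
    exact hs e
  rw [h2, Finset.sum_insert (by simp [hxy, hxz]), Finset.sum_insert (by simp [hyz]),
    Finset.sum_singleton] at h
  obtain ⟨k1, k2, k3⟩ := th_sum_distinct _ _ _ h.symm
  intro e f he hf hef
  rcases (hs e).1 he with rfl | rfl | rfl <;> rcases (hs f).1 hf with rfl | rfl | rfl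
  · exact absurd rfl hef
  · exact k1
  · exact k2
  · exact k1.symm
  · exact absurd rfl hef
  · exact k3
  · exact k2.symm
  · exact k3.symm
  · exact absurd rfl hef

/-- a colouring with few improper vertices goes down to the contraction -/
theorem ctr_col [Finite V] [Finite E] {G : MGraph V E} (hG : G.Cubic) {S : Set V}
    (h3 : (G.cut S).ncard = 3) (col : E → ZMod 3) (X : Set V)
    (hcol : ∀ v, v ∉ X → ProperAt G col v) :
    ∃ X' : Set (Option {v // v ∈ S}), X'.ncard ≤ X.ncard ∧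
      ∀ x, x ∉ X' → ProperAt (G.ctr S) (fun e => col e.1) x := by
  classical
  have hsome : ∀ v : {v // v ∈ S}, v.1 ∉ X → ProperAt (G.ctr S) (fun e => col e.1) (some v) := by
    intro v hv e f he hf hef
    exact hcol v.1 hv e.1 f.1 he hf (fun h => hef (Subtype.ext h))
  have hinj : ∀ A : Set V, {x : Option {v // v ∈ S} | ∃ v : {v // v ∈ S}, x = some v ∧ v.1 ∈ A}.ncard
      ≤ (A ∩ S).ncard := by
    intro A
    have h1 : {x : Option {v // v ∈ S} | ∃ v : {v // v ∈ S}, x = some v ∧ v.1 ∈ A} =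
        some '' {v : {v // v ∈ S} | v.1 ∈ A} := by
      ext x
      simp only [Set.mem_setOf_eq, Set.mem_image]
      exact ⟨fun ⟨v, h, h'⟩ => ⟨v, h', h.symm⟩, fun ⟨v, h, h'⟩ => ⟨v, h'.symm, h⟩⟩
    rw [h1]
    refine (Set.ncard_image_le (Set.toFinite _)).trans ?_
    rw [← Set.ncard_image_of_injective _ Subtype.val_injective]
    refine Set.ncard_le_ncard ?_ (Set.toFinite _)
    rintro _ ⟨v, hv, rfl⟩
    exact ⟨hv, v.2⟩
  by_cases hX : ∃ v ∈ X, v ∉ S
  · refine ⟨insert none {x | ∃ v : {v // v ∈ S}, x = some v ∧ v.1 ∈ X}, ?_, ?_⟩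
    · refine (Set.ncard_insert_le _ _).trans ?_
      have h1 := hinj X
      obtain ⟨v, hv, hvS⟩ := hX
      have h2 : (X ∩ S).ncard < X.ncard := by
        refine Set.ncard_lt_ncard ?_ (Set.toFinite _)
        refine ⟨Set.inter_subset_left, fun h => ?_⟩
        exact hvS (h hv).2
      omega
    · intro x hx
      rcases x with _ | v
      · exact absurd (Set.mem_insert _ _) hx
      · exact hsome v (fun h => hx (Set.mem_insert_of_mem _ ⟨v, rfl, h⟩))
  · push Not at hX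
    refine ⟨{x | ∃ v : {v // v ∈ S}, x = some v ∧ v.1 ∈ X}, ?_, ?_⟩
    · refine (hinj X).trans (Set.ncard_le_ncard Set.inter_subset_left (Set.toFinite _))
    · intro x hx
      rcases x with _ | v
      · have h3' : (G.cut Sᶜ).ncard = 3 := by rw [cut_compl]; exact h3
        have hpar := parity_three hG h3' col (fun v hv => hcol v (fun h => hv (hX v h)))
        intro e f he hf hef
        refine hpar e.1 f.1 ?_ ?_ (fun h => hef (Subtype.ext h))
        · rw [cut_compl]; exact ⟨e.2, he⟩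
        · rw [cut_compl]; exact ⟨f.2, hf⟩
      · exact hsome v (fun h => hx ⟨v, rfl, h⟩)

/-! ### gluing -/

theorem gd_tri (a b c : Fin 10) (h : Gd a b c) : ∃ u v w : Fin 5, u ≠ v ∧ u ≠ w ∧ v ≠ w ∧
    (∀ i, two a i = true ↔ i = u ∨ i = v) ∧ (∀ i, two b i = true ↔ i = u ∨ i = w) ∧
    (∀ i, two c i = true ↔ i = v ∨ i = w) := by
  revert a b c; decide

theorem exists_perm {α : Type} [DecidableEq α] {u v w u' v' w' : α} (h1 : u ≠ v) (h2 : u ≠ w)
    (h3 : v ≠ w) (h1' : u' ≠ v') (h2' : u' ≠ w') (h3' : v' ≠ w') :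
    ∃ π : Equiv.Perm α, π u' = u ∧ π v' = v ∧ π w' = w := by
  set σ₁ : Equiv.Perm α := Equiv.swap u' u with hσ₁
  have a1 : σ₁ u' = u := Equiv.swap_apply_left _ _
  have a2 : σ₁ v' ≠ u := fun h => h1' (σ₁.injective (a1.trans h.symm))
  set σ₂ : Equiv.Perm α := Equiv.swap (σ₁ v') v with hσ₂
  have b1 : σ₂ u = u := Equiv.swap_apply_of_ne_of_ne a2.symm h1
  have b2 : σ₂ (σ₁ v') = v := Equiv.swap_apply_left _ _
  have b3 : σ₂ (σ₁ w') ≠ u := fun h => h2' (σ₁.injective (σ₂.injective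
    ((a1.symm ▸ b1 : σ₂ (σ₁ u') = u).trans h.symm)))
  have b4 : σ₂ (σ₁ w') ≠ v := fun h => h3' (σ₁.injective (σ₂.injective (b2.trans h.symm)))
  set σ₃ : Equiv.Perm α := Equiv.swap (σ₂ (σ₁ w')) w with hσ₃
  have c1 : σ₃ u = u := Equiv.swap_apply_of_ne_of_ne b3.symm h2
  have c2 : σ₃ v = v := Equiv.swap_apply_of_ne_of_ne b4.symm h3
  have c3 : σ₃ (σ₂ (σ₁ w')) = w := Equiv.swap_apply_left _ _
  refine ⟨(σ₁.trans σ₂).trans σ₃, ?_, ?_, ?_⟩
  · show σ₃ (σ₂ (σ₁ u')) = u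
    rw [a1, b1, c1]
  · show σ₃ (σ₂ (σ₁ v')) = v
    rw [b2, c2]
  · exact c3

theorem ncard_sub' {p q : E → Prop} (A : Set {e // p e}) :
    {x : {e // p e} | x ∈ A ∧ q x.1}.ncard = {e | (∃ h : p e, (⟨e, h⟩ : {e // p e}) ∈ A) ∧ q e}.ncard := by
  rw [← Set.ncard_image_of_injective _ Subtype.val_injective]
  congr 1
  ext e
  constructor
  · rintro ⟨x, ⟨hx, hq⟩, rfl⟩
    exact ⟨⟨x.2, hx⟩, hq⟩
  · rintro ⟨⟨h, hx⟩, hq⟩
    exact ⟨⟨e, h⟩, ⟨hx, hq⟩, rfl⟩

/-- **gluing double covers over a 3-cut** -/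
theorem glue_three {G : MGraph V E} {S : Set V} (h3 : (G.cut S).ncard = 3)
    (D₁ : Fin 5 → Set {e // ∃ v ∈ S, G.inc v e}) (hD₁ : (G.ctr S).IsCDC D₁)
    (D₂ : Fin 5 → Set {e // ∃ v ∈ Sᶜ, G.inc v e}) (hD₂ : (G.ctr Sᶜ).IsCDC D₂) :
    ∃ D : Fin 5 → Set E, G.IsCDC D := by
  classical
  obtain ⟨x, y, z, hxy, hxz, hyz, hs⟩ := ncard_three h3
  have hx := (hs x).2 (Or.inl rfl)
  have hy := (hs y).2 (Or.inr (Or.inl rfl))
  have hz := (hs z).2 (Or.inr (Or.inr rfl))
  have e1 : ∀ e, e ∈ G.cut S → ∃ v ∈ S, G.inc v e := fun e he => he.1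
  have e2 : ∀ e, e ∈ G.cut S → ∃ v ∈ Sᶜ, G.inc v e := fun e he => he.2
  obtain ⟨l₁, hl₁⟩ := exists_lab hD₁
  obtain ⟨l₂, hl₂⟩ := exists_lab hD₂
  have g1 : Gd (l₁ ⟨x, e1 x hx⟩) (l₁ ⟨y, e1 y hy⟩) (l₁ ⟨z, e1 z hz⟩) := by
    refine gd_star hD₁ hl₁ (w := none) (fun h => hxy (congrArg Subtype.val h))
      (fun h => hxz (congrArg Subtype.val h)) (fun h => hyz (congrArg Subtype.val h)) (fun e => ?_)
    constructor
    · intro h
      rcases (hs e.1).1 ⟨e.2, h⟩ with h | h | h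
      · exact Or.inl (Subtype.ext h)
      · exact Or.inr (Or.inl (Subtype.ext h))
      · exact Or.inr (Or.inr (Subtype.ext h))
    · rintro (rfl | rfl | rfl)
      · exact hx.2
      · exact hy.2
      · exact hz.2
  have g2 : Gd (l₂ ⟨x, e2 x hx⟩) (l₂ ⟨y, e2 y hy⟩) (l₂ ⟨z, e2 z hz⟩) := by
    have hno : ∀ e, e ∈ G.cut S → ∃ v, v ∉ Sᶜ ∧ G.inc v e := by
      rintro e ⟨⟨v, hv, hv'⟩, -⟩
      exact ⟨v, fun h => h hv, hv'⟩
    refine gd_star hD₂ hl₂ (w := none) (fun h => hxy (congrArg Subtype.val h))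
      (fun h => hxz (congrArg Subtype.val h)) (fun h => hyz (congrArg Subtype.val h)) (fun e => ?_)
    constructor
    · rintro ⟨v, hv, hv'⟩
      have hv'' : v ∈ S := by
        by_contra hc
        exact hv hc
      rcases (hs e.1).1 ⟨⟨v, hv'', hv'⟩, e.2⟩ with h | h | h
      · exact Or.inl (Subtype.ext h)
      · exact Or.inr (Or.inl (Subtype.ext h))
      · exact Or.inr (Or.inr (Subtype.ext h))
    · rintro (rfl | rfl | rfl)
      · exact hno _ hx
      · exact hno _ hy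
      · exact hno _ hz
  obtain ⟨u, v, w, huv, huw, hvw, ta, tb, tc⟩ := gd_tri _ _ _ g1
  obtain ⟨u', v', w', huv', huw', hvw', ta', tb', tc'⟩ := gd_tri _ _ _ g2
  obtain ⟨π, p1, p2, p3⟩ := exists_perm huv huw hvw huv' huw' hvw'
  have hπ : ∀ i a a' : Fin 5, π a' = a → (π.symm i = a' ↔ i = a) := by
    intro i a a' h
    rw [← h, Equiv.symm_apply_eq]
  have agree : ∀ e (he : e ∈ G.cut S) i,
      (⟨e, e1 e he⟩ : {e // ∃ v ∈ S, G.inc v e}) ∈ D₁ i ↔
        (⟨e, e2 e he⟩ : {e // ∃ v ∈ Sᶜ, G.inc v e}) ∈ D₂ (π.symm i) := by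
    intro e he i
    rw [hl₁, hl₂]
    rcases (hs e).1 he with h | h | h
    · subst h
      rw [ta, ta', hπ i u u' p1, hπ i v v' p2]
    · subst h
      rw [tb, tb', hπ i u u' p1, hπ i w w' p3]
    · subst h
      rw [tc, tc', hπ i v v' p2, hπ i w w' p3]
  let D : Fin 5 → Set E := fun i => {e | (∃ h : ∃ v ∈ S, G.inc v e, (⟨e, h⟩ : {e // ∃ v ∈ S, G.inc v e}) ∈ D₁ i) ∨
    ((¬ ∃ v ∈ S, G.inc v e) ∧ ∃ h : ∃ v ∈ Sᶜ, G.inc v e,
      (⟨e, h⟩ : {e // ∃ v ∈ Sᶜ, G.inc v e}) ∈ D₂ (π.symm i))}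
  have hD1 : ∀ i e (h : ∃ v ∈ S, G.inc v e), e ∈ D i ↔ (⟨e, h⟩ : {e // ∃ v ∈ S, G.inc v e}) ∈ D₁ i := by
    intro i e h
    constructor
    · rintro (⟨h', h''⟩ | ⟨h', -⟩)
      · exact h''
      · exact absurd h h'
    · exact fun h' => Or.inl ⟨h, h'⟩
  have hD2 : ∀ i e (h : ∃ v ∈ Sᶜ, G.inc v e), e ∈ D i ↔
      (⟨e, h⟩ : {e // ∃ v ∈ Sᶜ, G.inc v e}) ∈ D₂ (π.symm i) := by
    intro i e h
    by_cases h' : ∃ v ∈ S, G.inc v e
    · rw [hD1 i e h']
      exact agree e ⟨h', h⟩ i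
    · constructor
      · rintro (⟨h'', -⟩ | ⟨-, h'', h3⟩)
        · exact absurd h'' h'
        · exact h3
      · exact fun h'' => Or.inr ⟨h', h, h''⟩
  refine ⟨D, ?_, ?_⟩
  · intro i a
    by_cases ha : a ∈ S
    · have h4 := hD₁.1 i (some ⟨a, ha⟩)
      have h5 : {e | e ∈ D i ∧ G.inc a e} =
          {e | (∃ h : ∃ v ∈ S, G.inc v e, (⟨e, h⟩ : {e // ∃ v ∈ S, G.inc v e}) ∈ D₁ i) ∧
            G.inc a e} := by
        ext e
        constructor
        · rintro ⟨h6, h7⟩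
          exact ⟨⟨⟨a, ha, h7⟩, (hD1 i e ⟨a, ha, h7⟩).1 h6⟩, h7⟩
        · rintro ⟨⟨h6, h6'⟩, h7⟩
          exact ⟨(hD1 i e h6).2 h6', h7⟩
      rw [h5, ← ncard_sub' (q := fun e => G.inc a e)]
      exact h4
    · have h4 := hD₂.1 (π.symm i) (some ⟨a, ha⟩)
      have h5 : {e | e ∈ D i ∧ G.inc a e} =
          {e | (∃ h : ∃ v ∈ Sᶜ, G.inc v e, (⟨e, h⟩ : {e // ∃ v ∈ Sᶜ, G.inc v e}) ∈ D₂ (π.symm i)) ∧
            G.inc a e} := by
        ext e
        constructor
        · rintro ⟨h6, h7⟩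
          exact ⟨⟨⟨a, ha, h7⟩, (hD2 i e ⟨a, ha, h7⟩).1 h6⟩, h7⟩
        · rintro ⟨⟨h6, h6'⟩, h7⟩
          exact ⟨(hD2 i e h6).2 h6', h7⟩
      rw [h5, ← ncard_sub' (q := fun e => G.inc a e)]
      exact h4
  · intro e
    by_cases h : ∃ v ∈ S, G.inc v e
    · rw [← hD₁.2 ⟨e, h⟩]
      congr 1
      ext i
      exact hD1 i e h
    · have h' : ∃ v ∈ Sᶜ, G.inc v e := by
        obtain ⟨a, b, -, hab⟩ := exists_ends G e
        have hae : G.inc a e := (hab a).2 (Or.inl rfl)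
        exact ⟨a, fun ha => h ⟨a, ha, hae⟩, hae⟩
      rw [← hD₂.2 ⟨e, h'⟩]
      have h1 : {i | e ∈ D i} = π '' {i | (⟨e, h'⟩ : {e // ∃ v ∈ Sᶜ, G.inc v e}) ∈ D₂ i} := by
        ext i
        rw [Set.mem_setOf_eq, hD2 i e h']
        constructor
        · intro h4
          exact ⟨π.symm i, h4, by simp⟩
        · rintro ⟨j, hj, rfl⟩
          simpa using hj
      rw [h1, Set.ncard_image_of_injective _ π.injective]

end Pool.Agent.CDC
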