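import Pool.Agent.CDC.Lab

/-!
# Lemma J: double covers from labels on a perfect matching

The circuits `C i` partition the vertices. `w` gives labels in `F4` to the other edges; `J` is the
set of edges with nonzero label.
-/

set_option autoImplicit false

namespace Pool.Agent.CDC

open Finset

section prim

variable {V E : Type} {G : MGraph V E} {C : Set E} {n : ℕ}

/-- a primitive along a circuit -/
theorem exists_prim (K : Circ G C n) {A : Type} [AddCommGroup A] (f : Fin (n + 2) → A)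
    (hf : ∑ i, f i = 0) (x₀ : A) :
    ∃ X : E → A, (∀ i : Fin (n + 2), X (K.a i) = x₀ + ∑ j ∈ range (i.1 + 1), f (pos n j)) ∧
      ∀ i, X (K.a i) = X (K.a (i - 1)) + f i := by
  classical
  set Xs : ℕ → A := fun i => x₀ + ∑ j ∈ range i, f (pos n j) with hXs
  have hXN : Xs (n + 2) = x₀ := by
    simp only [hXs]
    rw [sum_pos, hf, add_zero]
  obtain ⟨X, hX⟩ : ∃ X : E → A, ∀ i : Fin (n + 2), X (K.a i) = Xs (i.1 + 1) := by
    refine ⟨fun e => if h : ∃ i, K.a i = e then Xs (h.choose.1 + 1) else 0, fun i => ?_⟩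
    have h : ∃ j, K.a j = K.a i := ⟨i, rfl⟩
    simp only [dif_pos h]
    rw [K.ainj h.choose_spec]
  have hX' : ∀ i : Fin (n + 2), X (K.a (i - 1)) = Xs i.1 := by
    intro i
    rw [hX]
    by_cases hi : i = 0
    · subst hi
      have h1 : ((0 : Fin (n + 2)) - 1).1 = n + 1 := by
        rw [zero_sub]
        simp [Fin.val_neg]
      rw [h1]
      refine hXN.trans ?_
      simp [hXs]
    · have h1 : 0 < i.1 := Nat.pos_of_ne_zero (fun h => hi (Fin.ext h))
      have h2 : (i - 1).1 = i.1 - 1 := by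
        rw [Fin.sub_val_of_le]
        · simp
        · rw [Fin.le_def]
          simp
          omega
      rw [h2]
      congr 1
      omega
  refine ⟨X, fun i => ?_, fun i => ?_⟩
  · rw [hX]
  · rw [hX, hX']
    simp only [hXs]
    rw [Finset.sum_range_succ, pos_val, add_assoc]

end prim

variable {V E : Type}

/-- local solution on the circuit `C` for the labels `w`, with at most `b` missed vertices -/
def LocJ (G : MGraph V E) (C : Set E) (w : E → F4) (b : ℕ) : Prop :=
  ∃ (x : E → F4) (t : E → ZMod 2), (∀ e ∈ C, x e ≠ 0) ∧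
    (∀ v e f h, e ∈ C → f ∈ C → h ∉ C → e ≠ f → G.inc v e → G.inc v f → G.inc v h →
      x e + x f = w h ∧ t e + t f = if w h = 0 then 1 else 0) ∧
    {v | ∃ e h, e ∈ C ∧ h ∉ C ∧ G.inc v e ∧ G.inc v h ∧ w h ≠ 0 ∧ t e = 1}.ncard ≤ b

/-! ### finite checks -/

theorem j_even01 (xe xf wh : F4) (te tf : ZMod 2) (τ : ZMod 2)
    (h : te + tf = if wh = 0 then 1 else 0) :
    Even ((if te = τ then 1 else 0) + (if tf = τ then 1 else 0) + (if wh = 0 then 1 else 0)) := by
  revert te tf wh τ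
  clear xe xf
  decide

theorem j_even2 (xe xf wh : F4) (l : ZMod 3) (he : xe ≠ 0) (hf : xf ≠ 0) (h : xe + xf = wh) :
    Even ((if xe = th l then 1 else 0) + (if xf = th l then 1 else 0) +
      (if wh ≠ 0 ∧ wh ≠ th l then 1 else 0)) := by
  revert xe xf wh l; decide

theorem j_count_circ (x : F4) (t : ZMod 2) (hx : x ≠ 0) :
    (if t = 0 then 1 else 0) + ((if t = 1 then 1 else 0) +
      ∑ l : Fin 3, (if x = th (l : ZMod 3) then 1 else 0)) = 2 := by
  revert x t; decide

theorem j_count_off (w : F4) :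
    (if w = 0 then 1 else 0) + ((if w = 0 then 1 else 0) +
      ∑ l : Fin 3, (if w ≠ 0 ∧ w ≠ th (l : ZMod 3) then 1 else 0)) = 2 := by
  revert w; decide

/-- the star of a vertex of a circuit -/
theorem star_circ {G : MGraph V E} (hG : G.Cubic) {C : Set E} (hC : G.IsCircuit C) {v : V}
    (hv : v ∈ G.verts C) : ∃ e f h, e ∈ C ∧ f ∈ C ∧ h ∉ C ∧ e ≠ f ∧ e ≠ h ∧ f ≠ h ∧
      ∀ g, G.inc v g ↔ g = e ∨ g = f ∨ g = h := by
  obtain ⟨n, ⟨K⟩⟩ := hC.circ
  obtain ⟨i, rfl⟩ := (K.mem_verts v).1 hv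
  exact ⟨K.a i, K.a (i - 1), K.h hG i, K.mem i, K.mem _, K.h_notMem hG i, K.a_ne i,
    fun h => K.h_notMem hG i (h ▸ K.mem i), fun h => K.h_notMem hG i (h ▸ K.mem _),
    K.inc_iff hG i⟩

/-- **Lemma J.** -/
theorem jmain [Finite V] {G : MGraph V E} (hG : G.Cubic) {ι : Type} [Fintype ι] (C : ι → Set E)
    (hC : ∀ i, G.IsCircuit (C i)) (hpart : ∀ v, ∃! i, v ∈ G.verts (C i)) (w : E → F4) (b : ι → ℕ)
    (hloc : ∀ i, LocJ G (C i) w (b i)) :
    ∃ D : Fin 5 → Set E, G.IsCDC D ∧ {v | v ∉ G.verts (D 0)}.ncard ≤ ∑ i, b i := by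
  classical
  choose X T hX hXT hmiss using hloc
  -- the circuit of an edge is unique
  have huniq : ∀ e i j, e ∈ C i → e ∈ C j → i = j := by
    intro e i j hi hj
    obtain ⟨u, u', -, hS⟩ := Set.ncard_eq_two.1 (G.two e)
    have hu : G.inc u e := by
      have : u ∈ {v | G.inc v e} := by rw [hS]; simp
      exact this
    exact (hpart u).unique ⟨e, hi, hu⟩ ⟨e, hj, hu⟩
  obtain ⟨x, hx⟩ : ∃ x : E → F4, ∀ e i, e ∈ C i → x e = X i e := by
    refine ⟨fun e => if h : ∃ i, e ∈ C i then X h.choose e else 0, fun e i hi => ?_⟩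
    have h : ∃ i, e ∈ C i := ⟨i, hi⟩
    simp only [dif_pos h]
    rw [huniq e _ _ h.choose_spec hi]
  obtain ⟨t, ht⟩ : ∃ t : E → ZMod 2, ∀ e i, e ∈ C i → t e = T i e := by
    refine ⟨fun e => if h : ∃ i, e ∈ C i then T h.choose e else 0, fun e i hi => ?_⟩
    have h : ∃ i, e ∈ C i := ⟨i, hi⟩
    simp only [dif_pos h]
    rw [huniq e _ _ h.choose_spec hi]
  let F : Set E := {e | ∃ i, e ∈ C i}
  have hxF : ∀ e, e ∈ F → x e ≠ 0 := by
    rintro e ⟨i, hi⟩
    rw [hx e i hi]
    exact hX i e hi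
  -- stars
  have hstar : ∀ v, ∃ e f h, e ∈ F ∧ f ∈ F ∧ h ∉ F ∧ e ≠ f ∧ e ≠ h ∧ f ≠ h ∧
      (∀ g, G.inc v g ↔ g = e ∨ g = f ∨ g = h) ∧ x e + x f = w h ∧
      (t e + t f = if w h = 0 then 1 else 0) := by
    intro v
    obtain ⟨i, hi, -⟩ := hpart v
    obtain ⟨e, f, h, he, hf, hh, hef, heh, hfh, hs⟩ := star_circ hG (hC i) hi
    have hhF : h ∉ F := by
      rintro ⟨j, hj⟩
      have : i = j := (hpart v).unique hi ⟨h, hj, (hs h).2 (by simp)⟩
      exact hh (this ▸ hj)
    obtain ⟨k1, k2⟩ := hXT i v e f h he hf hh hef ((hs _).2 (by simp)) ((hs _).2 (by simp))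
      ((hs _).2 (by simp))
    exact ⟨e, f, h, ⟨i, he⟩, ⟨i, hf⟩, hhF, hef, heh, hfh, hs, by rw [hx e i he, hx f i hf, k1],
      by rw [ht e i he, ht f i hf, k2]⟩
  let P0 : ZMod 2 → Set E := fun τ => {e | (e ∈ F ∧ t e = τ) ∨ (e ∉ F ∧ w e = 0)}
  let P2 : Fin 3 → Set E := fun l => {e | (e ∈ F ∧ x e = th (l : ZMod 3)) ∨
    (e ∉ F ∧ (w e ≠ 0 ∧ w e ≠ th (l : ZMod 3)))}
  have q1 : ∀ τ e, e ∈ F → (e ∈ P0 τ ↔ t e = τ) := fun τ e he => by simp [P0, he]
  have q2 : ∀ τ e, e ∉ F → (e ∈ P0 τ ↔ w e = 0) := fun τ e he => by simp [P0, he]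
  have q3 : ∀ l e, e ∈ F → (e ∈ P2 l ↔ x e = th (l : ZMod 3)) := fun l e he => by simp [P2, he]
  have q4 : ∀ l e, e ∉ F → (e ∈ P2 l ↔ (w e ≠ 0 ∧ w e ≠ th (l : ZMod 3))) :=
    fun l e he => by simp [P2, he]
  have hev0 : ∀ τ, G.IsEven (P0 τ) := by
    intro τ v
    obtain ⟨e, f, h, he, hf, hh, hef, heh, hfh, hs, k1, k2⟩ := hstar v
    rw [ncard_star hef heh hfh hs]
    exact even_congr (q1 τ e he) (q1 τ f hf) (q2 τ h hh)
      (j_even01 (x e) (x f) (w h) (t e) (t f) τ k2)
  have hev2 : ∀ l, G.IsEven (P2 l) := by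
    intro l v
    obtain ⟨e, f, h, he, hf, hh, hef, heh, hfh, hs, k1, k2⟩ := hstar v
    rw [ncard_star hef heh hfh hs]
    exact even_congr (q3 l e he) (q3 l f hf) (q4 l h hh)
      (j_even2 (x e) (x f) (w h) (l : ZMod 3) (hxF e he) (hxF f hf) k1)
  refine ⟨Fin.cons (P0 0) (Fin.cons (P0 1) P2), ⟨?_, ?_⟩, ?_⟩
  · intro i
    refine Fin.cases ?_ (fun j => ?_) i
    · exact hev0 0
    · refine Fin.cases ?_ (fun l => ?_) j
      · exact hev0 1
      · exact hev2 l
  · intro e
    have h4 : {i : Fin 5 | e ∈ (Fin.cons (P0 0) (Fin.cons (P0 1) P2) : Fin 5 → Set E) i} =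
        ↑((univ : Finset (Fin 5)).filter (fun i =>
          e ∈ (Fin.cons (P0 0) (Fin.cons (P0 1) P2) : Fin 5 → Set E) i)) := by
      ext i; simp
    rw [h4, Set.ncard_coe_finset, Finset.card_filter, Fin.sum_univ_succ, Fin.sum_univ_succ]
    simp only [Fin.cons_zero, Fin.cons_succ]
    by_cases he : e ∈ F
    · refine Eq.trans ?_ (j_count_circ (x e) (t e) (hxF e he))
      congr 1
      · exact one_congr (q1 0 e he)
      · congr 1
        · exact one_congr (q1 1 e he)
        · exact Finset.sum_congr rfl (fun l _ => one_congr (q3 l e he))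
    · refine Eq.trans ?_ (j_count_off (w e))
      congr 1
      · exact one_congr (q2 0 e he)
      · congr 1
        · exact one_congr (q2 1 e he)
        · exact Finset.sum_congr rfl (fun l _ => one_congr (q4 l e he))
  · refine le_trans (Set.ncard_le_ncard ?_ (Set.toFinite _))
      ((Set.ncard_iUnion_le_of_fintype (fun i => {v | ∃ e h, e ∈ C i ∧ h ∉ C i ∧ G.inc v e ∧
        G.inc v h ∧ w h ≠ 0 ∧ T i e = 1})).trans (Finset.sum_le_sum (fun i _ => hmiss i)))
    intro v hv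
    rw [Fin.cons_zero] at hv
    obtain ⟨e, f, h, ⟨i, he⟩, hf, hh, hef, heh, hfh, hs, k1, k2⟩ := hstar v
    rw [Set.mem_iUnion]
    have he' : e ∉ P0 0 := fun h' => hv ⟨e, h', (hs e).2 (by simp)⟩
    have hh' : h ∉ P0 0 := fun h'' => hv ⟨h, h'', (hs h).2 (by simp)⟩
    rw [q1 0 e ⟨i, he⟩] at he'
    rw [q2 0 h hh] at hh'
    refine ⟨i, e, h, he, fun h' => hh ⟨i, h'⟩, (hs e).2 (by simp), (hs h).2 (by simp), hh', ?_⟩
    rw [← ht e i he]
    revert he'
    generalize t e = y
    revert y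
    decide

/-! ### local solutions from positions -/

section pos

variable {G : MGraph V E} {C : Set E} {n k : ℕ}

theorem part_sum {A : Type} [AddCommMonoid A] (p : Fin k → Fin (n + 2)) (c : Fin k → A)
    (i : Fin (n + 2)) : ∑ j ∈ range (i.1 + 1), ∑ r, (if p r = pos n j then c r else 0) =
      ∑ r, if p r ≤ i then c r else 0 := by
  rw [Finset.sum_comm]
  refine Finset.sum_congr rfl (fun r _ => ?_)
  have h1 : ∀ j ∈ range (i.1 + 1), (if p r = pos n j then c r else 0) =
      if j = (p r).1 then c r else 0 := by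
    intro j hj
    rw [Finset.mem_range] at hj
    have hi := i.2
    refine if_congr ?_ rfl rfl
    rw [Fin.ext_iff]
    simp only [pos]
    rw [Nat.mod_eq_of_lt (by omega)]
    exact eq_comm
  rw [Finset.sum_congr rfl h1, Finset.sum_ite_eq']
  refine if_congr ?_ rfl rfl
  rw [Finset.mem_range, Fin.le_def]
  omega

theorem down_closed (A : Finset (Fin k)) (h : ∀ r ∈ A, ∀ r' ≤ r, r' ∈ A) (r : Fin k) :
    r ∈ A ↔ r.1 < A.card := by
  constructor
  · intro hr
    have h1 : Finset.Iic r ⊆ A := fun r' hr' => h r hr r' (Finset.mem_Iic.1 hr')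
    have h2 := Finset.card_le_card h1
    rw [Fin.card_Iic] at h2
    omega
  · intro hr
    by_contra hc
    have h1 : A ⊆ Finset.Iio r := by
      intro r' hr'
      rw [Finset.mem_Iio]
      by_contra hge
      exact hc (h r' hr' r (not_lt.1 hge))
    have h2 := Finset.card_le_card h1
    rw [Fin.card_Iio] at h2
    omega

theorem pos_sum_le (p : Fin k → Fin (n + 2)) (hp : StrictMono p) {A : Type} [AddCommMonoid A]
    (c : Fin k → A) (i : Fin (n + 2)) : ∃ q, q ≤ k ∧
      (∑ r, if p r ≤ i then c r else 0) = ∑ r ∈ univ.filter (fun r : Fin k => r.1 < q), c r := by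
  refine ⟨(univ.filter (fun r : Fin k => p r ≤ i)).card, ?_, ?_⟩
  · exact (Finset.card_le_univ _).trans (by simp)
  · rw [← Finset.sum_filter]
    refine Finset.sum_congr ?_ (fun _ _ => rfl)
    ext r
    have h := down_closed (univ.filter (fun r : Fin k => p r ≤ i)) (fun r hr r' hr' => by
      rw [mem_filter] at hr ⊢
      exact ⟨mem_univ _, (hp.monotone hr').trans hr.2⟩) r
    rw [h]
    simp

theorem card_le_pos (p : Fin k → Fin (n + 2)) (hp : StrictMono p) (r : Fin k) :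
    (∑ r', if p r' ≤ p r then (1 : ZMod 2) else 0) = ((r.1 + 1 : ℕ) : ZMod 2) := by
  rw [← Finset.sum_filter, Finset.sum_const, nsmul_eq_mul, mul_one]
  congr 1
  have h1 : univ.filter (fun r' : Fin k => p r' ≤ p r) = Finset.Iic r := by
    ext r'
    rw [mem_filter, Finset.mem_Iic, hp.le_iff_le]
    simp
  rw [h1, Fin.card_Iic]

theorem if_zero_eq {c : Fin k → F4} (hc : ∀ r, c r ≠ 0) {p : Fin k → Fin (n + 2)}
    (hp : StrictMono p) (i : Fin (n + 2)) :
    (if (∑ r, if p r = i then c r else 0) = 0 then (1 : ZMod 2) else 0) =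
      1 + ∑ r, if p r = i then (1 : ZMod 2) else 0 := by
  by_cases h : ∃ r, p r = i
  · obtain ⟨r, rfl⟩ := h
    have h1 : ∀ {A : Type} [AddCommMonoid A] (c : Fin k → A),
        (∑ r', if p r' = p r then c r' else 0) = c r := by
      intro A _ c
      rw [Finset.sum_eq_single r]
      · rw [if_pos rfl]
      · intro r' _ hr'
        rw [if_neg (fun h => hr' (hp.injective h))]
      · intro h; exact absurd (mem_univ _) h
    rw [h1, h1 (fun _ => (1 : ZMod 2)), if_neg (hc r)]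
    decide
  · push Not at h
    rw [Finset.sum_eq_zero (fun r _ => if_neg (h r)), Finset.sum_eq_zero (fun r _ => if_neg (h r)),
      if_pos rfl, add_zero]

/-- local solutions from the positions `p 0 < p 1 < …` of the vertices on `J`, with labels
`c 0, c 1, …`: the walk `s₀, s₀ + c 0, …` never meets `0` -/
theorem locJ_of_pos (hG : G.Cubic) (K : Circ G C n) (w : E → F4) (p : Fin k → Fin (n + 2))
    (hp : StrictMono p) (c : Fin k → F4) (hc : ∀ r, c r ≠ 0)
    (hw : ∀ i, w (K.h hG i) = ∑ r, if p r = i then c r else 0) (s₀ : F4)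
    (walk : ∀ q, q ≤ k → s₀ + ∑ r ∈ univ.filter (fun r : Fin k => r.1 < q), c r ≠ 0)
    (hsum : ∑ r, c r = 0) (hpar : Even (n + k)) (τ : ZMod 2) :
    LocJ G C w (univ.filter (fun r : Fin k => (((p r).1 + r.1 : ℕ) : ZMod 2) = τ)).card := by
  classical
  obtain ⟨x, hx1, hx2⟩ := exists_prim K (fun i => w (K.h hG i)) (by
    rw [Finset.sum_congr rfl (fun i _ => hw i), Finset.sum_comm]
    refine Eq.trans (Finset.sum_congr rfl (fun r _ => ?_)) hsum
    rw [Finset.sum_ite_eq]
    simp) s₀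
  obtain ⟨t, ht1, ht2⟩ := exists_prim K
    (fun i => if w (K.h hG i) = 0 then (1 : ZMod 2) else 0) (by
    have h1 : ∀ i, (if w (K.h hG i) = 0 then (1 : ZMod 2) else 0) =
        1 + ∑ r, if p r = i then (1 : ZMod 2) else 0 := by
      intro i
      rw [hw]
      exact if_zero_eq hc hp i
    rw [Finset.sum_congr rfl (fun i _ => h1 i), Finset.sum_add_distrib, Finset.sum_comm]
    have h2 : ∀ r : Fin k, (∑ i : Fin (n + 2), if p r = i then (1 : ZMod 2) else 0) = 1 := by
      intro r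
      rw [Finset.sum_ite_eq]
      simp
    rw [Finset.sum_congr rfl (fun r _ => h2 r), Finset.sum_const, Finset.sum_const,
      Finset.card_univ, Finset.card_univ, Fintype.card_fin, Fintype.card_fin, nsmul_eq_mul,
      nsmul_eq_mul, mul_one, mul_one, ← Nat.cast_add, ZMod.natCast_eq_zero_iff_even]
    obtain ⟨m, hm⟩ := hpar
    exact ⟨m + 1, by omega⟩) (1 + τ)
  have htp : ∀ r : Fin k, t (K.a (p r)) = 1 + τ + (((p r).1 + r.1 : ℕ) : ZMod 2) := by
    intro r
    rw [ht1]
    have h1 : ∀ j ∈ range ((p r).1 + 1), (if w (K.h hG (pos n j)) = 0 then (1 : ZMod 2) else 0) =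
        1 + ∑ r', if p r' = pos n j then (1 : ZMod 2) else 0 := by
      intro j _
      rw [hw]
      exact if_zero_eq hc hp _
    rw [Finset.sum_congr rfl h1, Finset.sum_add_distrib, part_sum, card_le_pos p hp,
      Finset.sum_const, Finset.card_range, nsmul_eq_mul, mul_one]
    push_cast
    have h3 : (1 : ZMod 2) + 1 = 0 := by decide
    linear_combination h3
  refine ⟨x, t, ?_, ?_, ?_⟩
  · intro e he
    obtain ⟨i, rfl⟩ := (K.mem_iff e).1 he
    rw [hx1]
    have h1 : ∀ j ∈ range (i.1 + 1), w (K.h hG (pos n j)) =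
        ∑ r, if p r = pos n j then c r else 0 := fun j _ => hw _
    rw [Finset.sum_congr rfl h1, part_sum]
    obtain ⟨q, hq, hq'⟩ := pos_sum_le p hp c i
    rw [hq']
    exact walk q hq
  · intro v e f h he hf hh hef hve hvf hvh
    have hv : v ∈ G.verts C := ⟨e, he, hve⟩
    obtain ⟨i, rfl⟩ := (K.mem_verts v).1 hv
    have hh' : h = K.h hG i := (K.not_mem_inc hG i h).1 ⟨hh, hvh⟩
    subst hh'
    have key : ∀ e, e ∈ C → G.inc (K.v i) e → e = K.a i ∨ e = K.a (i - 1) := by
      intro e he hve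
      rcases (K.inc_iff hG i e).1 hve with h | h | h
      · exact Or.inl h
      · exact Or.inr h
      · exact absurd (h ▸ he) (K.h_notMem hG i)
    have f4 : ∀ a b : F4, a + b + a = b := by decide
    have f5 : ∀ a b : F4, a + (a + b) = b := by decide
    have g4 : ∀ a b : ZMod 2, a + b + a = b := by decide
    have g5 : ∀ a b : ZMod 2, a + (a + b) = b := by decide
    rcases key e he hve with h1 | h1 <;> rcases key f hf hvf with h2 | h2
    · exact absurd (h1.trans h2.symm) hef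
    · rw [h1, h2, hx2 i, ht2 i]
      exact ⟨f4 _ _, g4 _ _⟩
    · rw [h1, h2, hx2 i, ht2 i]
      exact ⟨f5 _ _, g5 _ _⟩
    · exact absurd (h1.trans h2.symm) hef
  · rw [← Set.ncard_coe_finset]
    refine le_trans (Set.ncard_le_ncard (t := (fun r => K.v (p r)) ''
      ↑(univ.filter (fun r : Fin k => (((p r).1 + r.1 : ℕ) : ZMod 2) = τ))) ?_
      (Set.toFinite _)) (Set.ncard_image_le (Set.toFinite _))
    rintro v ⟨e, h, he, hh, hve, hvh, hwh, hte⟩
    have hv : v ∈ G.verts C := ⟨e, he, hve⟩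
    obtain ⟨i, rfl⟩ := (K.mem_verts v).1 hv
    have hh' : h = K.h hG i := (K.not_mem_inc hG i h).1 ⟨hh, hvh⟩
    subst hh'
    have hex : ∃ r, p r = i := by
      by_contra hc'
      push Not at hc'
      exact hwh (by rw [hw]; exact Finset.sum_eq_zero (fun r _ => if_neg (hc' r)))
    obtain ⟨r, rfl⟩ := hex
    have hti : t (K.a (p r)) = 1 := by
      rcases (K.inc_iff hG (p r) e).1 hve with h1 | h1 | h1
      · rw [← h1]; exact hte
      · rw [ht2, if_neg hwh, add_zero, ← h1]; exact hte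
      · exact absurd (h1 ▸ he) (K.h_notMem hG _)
    refine ⟨r, ?_, rfl⟩
    simp only [coe_filter, mem_univ, true_and, Set.mem_setOf_eq]
    rw [htp] at hti
    have hfin : ∀ τ y : ZMod 2, 1 + τ + y = 1 → y = τ := by decide
    exact hfin _ _ hti

end pos

end Pool.Agent.CDC
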