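import Mathlib

/-!
# Kotzig's theorem on unique perfect matchings

`E` a symmetric relation (the edges which are not in the matching), `M` a fixed point free
involution (the perfect matching). If there is no alternating circuit then some edge of the matching
is a bridge: there is a set `X` closed under `E` and closed under `M` except for one vertex.
-/

set_option autoImplicit false

namespace Pool.Agent.CDC

namespace KotzigAux

/-- alternating path `p 0 - M (p 1), p 1 - M (p 2), …` which ends in `p m` -/
structure GP {V : Type} (E : V → V → Prop) (M : V → V) (m : ℕ) (p : ℕ → V) : Prop where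
  ch : ∀ i, i < m → E (p i) (M (p (i + 1)))
  inj : ∀ i j, i ≤ m → j ≤ m → p i = p j → i = j
  dis : ∀ i j, i ≤ m → j ≤ m → p i ≠ M (p j)

variable {V : Type} {E : V → V → Prop} {M : V → V}

/-- vertices which can be reached from `v` -/
def R (E : V → V → Prop) (M : V → V) (v : V) : Set V :=
  {z | ∃ m p, GP E M m p ∧ p 0 = v ∧ p m = z}

theorem GP.initial {m : ℕ} {p : ℕ → V} (h : GP E M m p) {i : ℕ} (hi : i ≤ m) : GP E M i p where
  ch j hj := h.ch j (by omega)
  inj j l hj hl := h.inj j l (by omega) (by omega)
  dis j l hj hl := h.dis j l (by omega) (by omega)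

theorem no_circuit (hE : ∀ x y, E x y → E y x) (hM : ∀ v, M (M v) = v)
    (hno : ¬ ∃ (Z : Set V) (ν : V → V), Z.Nonempty ∧ (∀ z ∈ Z, M z ∈ Z) ∧
      ∀ z ∈ Z, ν z ∈ Z ∧ ν (ν z) = z ∧ E z (ν z))
    {m : ℕ} {p : ℕ → V} (h : GP E M m p) : ¬ E (p m) (M (p 0)) := by
  classical
  intro hc
  apply hno
  have hMi : ∀ x y, M x = M y → x = y := by
    intro x y hxy
    rw [← hM x, hxy, hM]
  let nx : ℕ → ℕ := fun i => if i = m then 0 else i + 1
  let pv : ℕ → ℕ := fun i => if i = 0 then m else i - 1
  have nx_le : ∀ i, i ≤ m → nx i ≤ m := by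
    intro i hi
    simp only [nx]
    split_ifs <;> omega
  have pv_le : ∀ i, i ≤ m → pv i ≤ m := by
    intro i hi
    simp only [pv]
    split_ifs <;> omega
  have pv_nx : ∀ i, i ≤ m → pv (nx i) = i := by
    intro i hi
    by_cases him : i = m
    · simp [nx, pv, him]
    · simp [nx, pv, him]
  have nx_pv : ∀ i, i ≤ m → nx (pv i) = i := by
    intro i hi
    by_cases hi0 : i = 0
    · simp [nx, pv, hi0]
    · have h1 : ¬ i - 1 = m := by omega
      simp only [nx, pv, if_neg hi0, if_neg h1]
      omega
  have hEn : ∀ i, i ≤ m → E (p i) (M (p (nx i))) := by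
    intro i hi
    by_cases him : i = m
    · have : nx i = 0 := by simp only [nx]; rw [if_pos him]
      rw [this, him]
      exact hc
    · have : nx i = i + 1 := by simp only [nx]; rw [if_neg him]
      rw [this]
      exact h.ch i (by omega)
  let ν : V → V := fun x => if hx : ∃ i, i ≤ m ∧ x = p i then M (p (nx hx.choose)) else
    if hx : ∃ i, i ≤ m ∧ x = M (p i) then p (pv hx.choose) else x
  have hν1 : ∀ i, i ≤ m → ν (p i) = M (p (nx i)) := by
    intro i hi
    have hx : ∃ j, j ≤ m ∧ p i = p j := ⟨i, hi, rfl⟩
    have h1 : hx.choose = i := (h.inj _ _ hi hx.choose_spec.1 hx.choose_spec.2).symm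
    simp only [ν]
    rw [dif_pos hx, h1]
  have hν2 : ∀ i, i ≤ m → ν (M (p i)) = p (pv i) := by
    intro i hi
    have hx0 : ¬ ∃ j, j ≤ m ∧ M (p i) = p j := by
      rintro ⟨j, hj, hj'⟩
      exact h.dis j i hj hi hj'.symm
    have hx : ∃ j, j ≤ m ∧ M (p i) = M (p j) := ⟨i, hi, rfl⟩
    have h1 : hx.choose = i :=
      (h.inj _ _ hi hx.choose_spec.1 (hMi _ _ hx.choose_spec.2)).symm
    simp only [ν]
    rw [dif_neg hx0, dif_pos hx, h1]
  refine ⟨{x | ∃ i, i ≤ m ∧ (x = p i ∨ x = M (p i))}, ν, ⟨p 0, 0, by omega, Or.inl rfl⟩, ?_, ?_⟩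
  · rintro z ⟨i, hi, rfl | rfl⟩
    · exact ⟨i, hi, Or.inr rfl⟩
    · exact ⟨i, hi, Or.inl (hM _)⟩
  · rintro z ⟨i, hi, rfl | rfl⟩
    · rw [hν1 i hi]
      refine ⟨⟨nx i, nx_le i hi, Or.inr rfl⟩, ?_, hEn i hi⟩
      rw [hν2 _ (nx_le i hi), pv_nx i hi]
    · rw [hν2 i hi]
      refine ⟨⟨pv i, pv_le i hi, Or.inl rfl⟩, ?_, ?_⟩
      · rw [hν1 _ (pv_le i hi), nx_pv i hi]
      · have := hEn (pv i) (pv_le i hi)
        rw [nx_pv i hi] at this
        exact hE _ _ this

/-- the sum of two paths -/
theorem GP.append {m r : ℕ} {p q : ℕ → V} (h : GP E M m p)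
    (h' : GP E M r q) (hpq : p m = q 0)
    (h1 : ∀ j, 1 ≤ j → j ≤ r → ∀ i, i < m → q j ≠ p i ∧ q j ≠ M (p i)) (hM : ∀ v, M (M v) = v) :
    GP E M (m + r) (fun t => if t ≤ m then p t else q (t - m)) where
  ch t ht := by
    by_cases h2 : t < m
    · simp only [if_pos h2.le, if_pos (show t + 1 ≤ m by omega)]
      exact h.ch t h2
    · by_cases h3 : t = m
      · subst h3
        simp only [if_pos le_rfl, if_neg (show ¬ t + 1 ≤ t by omega)]
        rw [hpq, show t + 1 - t = 0 + 1 by omega]
        exact h'.ch 0 (by omega)
      · simp only [if_neg (show ¬ t ≤ m by omega), if_neg (show ¬ t + 1 ≤ m by omega)]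
        rw [show t + 1 - m = t - m + 1 by omega]
        exact h'.ch (t - m) (by omega)
  inj s t hs ht hst := by
    have key : ∀ s t, s ≤ m → m < t → t ≤ m + r → p s ≠ q (t - m) := by
      intro s t hs ht ht' h2
      by_cases h3 : s < m
      · exact (h1 (t - m) (by omega) (by omega) s h3).1 h2.symm
      · have h4 : s = m := by omega
        rw [h4, hpq] at h2
        have := h'.inj 0 (t - m) (by omega) (by omega) h2
        omega
    by_cases h2 : s ≤ m <;> by_cases h3 : t ≤ m
    · simp only [if_pos h2, if_pos h3] at hst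
      exact h.inj s t h2 h3 hst
    · simp only [if_pos h2, if_neg h3] at hst
      exact absurd hst (key s t h2 (by omega) ht)
    · simp only [if_neg h2, if_pos h3] at hst
      exact absurd hst.symm (key t s h3 (by omega) hs)
    · simp only [if_neg h2, if_neg h3] at hst
      have := h'.inj (s - m) (t - m) (by omega) (by omega) hst
      omega
  dis s t hs ht hst := by
    have key : ∀ s t, s ≤ m → m < t → t ≤ m + r → q (t - m) ≠ M (p s) := by
      intro s t hs ht ht' h2
      by_cases h3 : s < m
      · exact (h1 (t - m) (by omega) (by omega) s h3).2 h2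
      · have h4 : s = m := by omega
        rw [h4, hpq] at h2
        exact h'.dis _ _ (by omega) (by omega) h2
    by_cases h2 : s ≤ m <;> by_cases h3 : t ≤ m
    · simp only [if_pos h2, if_pos h3] at hst
      exact h.dis s t h2 h3 hst
    · simp only [if_pos h2, if_neg h3] at hst
      refine key s t h2 (by omega) ht ?_
      rw [hst, hM]
    · simp only [if_neg h2, if_pos h3] at hst
      exact key t s h3 (by omega) hs hst
    · simp only [if_neg h2, if_neg h3] at hst
      exact h'.dis _ _ (by omega) (by omega) hst

end KotzigAux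

open KotzigAux

/-- **Kotzig's theorem** -/
theorem kotzig {V : Type} [Finite V] [Nonempty V] (E : V → V → Prop)
    (hE : ∀ x y, E x y → E y x) (M : V → V) (hM : ∀ v, M (M v) = v) (hM' : ∀ v, M v ≠ v)
    (hno : ¬ ∃ (Z : Set V) (ν : V → V), Z.Nonempty ∧ (∀ z ∈ Z, M z ∈ Z) ∧
      ∀ z ∈ Z, ν z ∈ Z ∧ ν (ν z) = z ∧ E z (ν z)) :
    ∃ (X : Set V) (v : V), v ∈ X ∧ M v ∉ X ∧ (∀ z ∈ X, z ≠ v → M z ∈ X) ∧
      ∀ z ∈ X, ∀ y, E z y → y ∈ X := by
  classical
  have hMi : ∀ x y, M x = M y → x = y := by
    intro x y hxy
    rw [← hM x, hxy, hM]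
  have NC : ∀ {m : ℕ} {p : ℕ → V}, GP E M m p → ¬ E (p m) (M (p 0)) :=
    fun h => no_circuit hE hM hno h
  obtain ⟨v, hv⟩ := Finite.exists_min (fun v => (R E M v).ncard)
  have hvv : ∀ u, u ∈ R E M u := fun u => ⟨0, fun _ => u,
    ⟨fun i hi => absurd hi (by omega), fun i j hi hj _ => by omega, fun i j _ _ h => hM' u h.symm⟩,
    rfl, rfl⟩
  have claim : ∀ z ∈ R E M v, ∀ y, E z y → y ∈ R E M v := by
    rintro z ⟨m0, p0, hp0, hp0v, hp0z⟩ y hzy
    by_contra hy
    have hyMv : y ≠ M v := by
      rintro rfl
      apply NC hp0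
      rw [hp0z, hp0v]
      exact hzy
    have hy'v : M y ≠ v := by
      intro h
      apply hyMv
      rw [← h, hM]
    -- a path from `v` to `M y`
    obtain ⟨m, p, hp, hpv, hpy, hm⟩ : ∃ m p, GP E M m p ∧ p 0 = v ∧ p m = M y ∧ 1 ≤ m := by
      by_cases hon : ∃ i, i ≤ m0 ∧ p0 i = M y
      · obtain ⟨i, hi, hi'⟩ := hon
        refine ⟨i, p0, hp0.initial hi, hp0v, hi', ?_⟩
        by_contra h0
        have : i = 0 := by omega
        rw [this, hp0v] at hi'
        exact hy'v hi'.symm
      · push Not at hon
        have hyp : ∀ t, t ≤ m0 → p0 t ≠ y := by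
          intro t ht h
          exact hy ⟨t, p0, hp0.initial ht, hp0v, h⟩
        refine ⟨m0 + 1, fun t => if t ≤ m0 then p0 t else M y, ⟨?_, ?_, ?_⟩, ?_, ?_, by omega⟩
        · intro i hi
          by_cases h2 : i < m0
          · simp only [if_pos h2.le, if_pos (show i + 1 ≤ m0 by omega)]
            exact hp0.ch i h2
          · have h3 : i = m0 := by omega
            subst h3
            simp only [if_pos le_rfl, if_neg (show ¬ i + 1 ≤ i by omega)]
            rw [hp0z, hM]
            exact hzy
        · intro i j hi hj hij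
          by_cases h2 : i ≤ m0 <;> by_cases h3 : j ≤ m0
          · simp only [if_pos h2, if_pos h3] at hij
            exact hp0.inj i j h2 h3 hij
          · simp only [if_pos h2, if_neg h3] at hij
            exact absurd hij (hon i h2)
          · simp only [if_neg h2, if_pos h3] at hij
            exact absurd hij.symm (hon j h3)
          · omega
        · intro i j hi hj hij
          by_cases h2 : i ≤ m0 <;> by_cases h3 : j ≤ m0
          · simp only [if_pos h2, if_pos h3] at hij
            exact hp0.dis i j h2 h3 hij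
          · simp only [if_pos h2, if_neg h3, hM] at hij
            exact hyp i h2 hij
          · simp only [if_neg h2, if_pos h3] at hij
            exact hyp j h3 (hMi _ _ hij).symm
          · simp only [if_neg h2, if_neg h3] at hij
            exact hM' _ hij.symm
        · simp only [if_pos (Nat.zero_le m0)]
          exact hp0v
        · simp only [if_neg (show ¬ m0 + 1 ≤ m0 by omega)]
    -- a path from `M y` does not meet the path from `v` before its end
    have avoid : ∀ (r : ℕ) (q : ℕ → V), GP E M r q → q 0 = M y →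
        ∀ j, 1 ≤ j → j ≤ r → ∀ i, i < m → q j ≠ p i ∧ q j ≠ M (p i) := by
      intro r q hq hq0
      by_contra hcon
      push Not at hcon
      have hex : ∃ j, 1 ≤ j ∧ j ≤ r ∧ ∃ i, i < m ∧ (q j = p i ∨ q j = M (p i)) := by
        obtain ⟨j, h1, h2, i, h3, h4⟩ := hcon
        refine ⟨j, h1, h2, i, h3, ?_⟩
        by_cases h5 : q j = p i
        · exact Or.inl h5
        · exact Or.inr (h4 h5)
      obtain ⟨h1, h2, i, h3, h4⟩ := Nat.find_spec hex
      have hmin : ∀ l, 1 ≤ l → l < Nat.find hex → ∀ i, i < m → q l ≠ p i ∧ q l ≠ M (p i) := by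
        intro l hl hl' i hi
        have h5 := Nat.find_min hex hl'
        constructor
        · intro h6
          exact h5 ⟨hl, by omega, i, hi, Or.inl h6⟩
        · intro h6
          exact h5 ⟨hl, by omega, i, hi, Or.inr h6⟩
      generalize Nat.find hex = j at h1 h2 h4 hmin
      obtain ⟨j', rfl⟩ : ∃ j', j = j' + 1 := ⟨j - 1, by omega⟩
      rcases h4 with h4 | h4
      · -- a circuit
        have hP : GP E M (m - i) (fun t => p (i + t)) := by
          refine ⟨fun t ht => ?_, fun s t hs ht hst => ?_, fun s t hs ht => ?_⟩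
          · exact hp.ch (i + t) (by omega)
          · have := hp.inj (i + s) (i + t) (by omega) (by omega) hst
            omega
          · exact hp.dis (i + s) (i + t) (by omega) (by omega)
        have hc := GP.append hP (hq.initial (show j' ≤ r by omega)) (by
          show p (i + (m - i)) = q 0
          rw [show i + (m - i) = m by omega, hpy, hq0]) (fun l hl hl' s hs =>
            hmin l hl (by omega) (i + s) (by omega)) hM
        apply NC hc
        have e1 : (if m - i + j' ≤ m - i then p (i + (m - i + j')) else q (m - i + j' - (m - i))) =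
            q j' := by
          by_cases h5 : j' = 0
          · rw [if_pos (by omega), h5, show i + (m - i + 0) = m by omega, hpy, hq0]
          · rw [if_neg (by omega)]
            congr 1
            omega
        simp only [e1, if_pos (Nat.zero_le (m - i)), Nat.add_zero]
        rw [← h4]
        exact hq.ch j' (by omega)
      · -- a path to `y`
        apply hy
        refine ⟨i + (j' + 1), fun t => if t ≤ i then p t else M (q (i + (j' + 1) - t)), ⟨?_, ?_, ?_⟩,
          ?_, ?_⟩
        · intro t ht
          by_cases h5 : t < i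
          · simp only [if_pos h5.le, if_pos (show t + 1 ≤ i by omega)]
            exact hp.ch t (by omega)
          · by_cases h6 : t = i
            · subst h6
              simp only [if_pos le_rfl, if_neg (show ¬ t + 1 ≤ t by omega), hM]
              rw [show t + (j' + 1) - (t + 1) = j' by omega]
              have := hq.ch j' (by omega)
              rw [h4, hM] at this
              exact hE _ _ this
            · simp only [if_neg (show ¬ t ≤ i by omega), if_neg (show ¬ t + 1 ≤ i by omega), hM]
              rw [show i + (j' + 1) - t = i + (j' + 1) - (t + 1) + 1 by omega]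
              exact hE _ _ (hq.ch (i + (j' + 1) - (t + 1)) (by omega))
        · have key : ∀ s t, s ≤ i → i < t → t ≤ i + (j' + 1) →
              p s ≠ M (q (i + (j' + 1) - t)) := by
            intro s t hs ht ht' h5
            by_cases h6 : i + (j' + 1) - t = 0
            · rw [h6, hq0, ← hpy] at h5
              exact hp.dis s m (by omega) le_rfl h5
            · have h7 := (hmin (i + (j' + 1) - t) (by omega) (by omega) s (by omega)).2
              apply h7
              rw [h5, hM]
          intro s t hs ht hst
          by_cases h5 : s ≤ i <;> by_cases h6 : t ≤ i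
          · simp only [if_pos h5, if_pos h6] at hst
            exact hp.inj s t (by omega) (by omega) hst
          · simp only [if_pos h5, if_neg h6] at hst
            exact absurd hst (key s t h5 (by omega) ht)
          · simp only [if_neg h5, if_pos h6] at hst
            exact absurd hst.symm (key t s h6 (by omega) hs)
          · simp only [if_neg h5, if_neg h6] at hst
            have := hq.inj _ _ (by omega) (by omega) (hMi _ _ hst)
            omega
        · have key : ∀ s t, s ≤ i → i < t → t ≤ i + (j' + 1) →
              p s ≠ q (i + (j' + 1) - t) := by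
            intro s t hs ht ht' h5
            by_cases h6 : i + (j' + 1) - t = 0
            · rw [h6, hq0, ← hpy] at h5
              have := hp.inj s m (by omega) le_rfl h5
              omega
            · exact (hmin (i + (j' + 1) - t) (by omega) (by omega) s (by omega)).1 h5.symm
          intro s t hs ht hst
          by_cases h5 : s ≤ i <;> by_cases h6 : t ≤ i
          · simp only [if_pos h5, if_pos h6] at hst
            exact hp.dis s t (by omega) (by omega) hst
          · simp only [if_pos h5, if_neg h6, hM] at hst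
            exact key s t h5 (by omega) ht hst
          · simp only [if_neg h5, if_pos h6] at hst
            exact key t s h6 (by omega) hs (hMi _ _ hst).symm
          · simp only [if_neg h5, if_neg h6, hM] at hst
            exact hq.dis _ _ (by omega) (by omega) hst.symm
        · simp only [if_pos (Nat.zero_le i)]
          exact hpv
        · simp only [if_neg (show ¬ i + (j' + 1) ≤ i by omega)]
          rw [Nat.sub_self, hq0, hM]
    have hsub : R E M (M y) ⊆ R E M v := by
      rintro s ⟨r, q, hq, hq0, hqs⟩
      refine ⟨m + r, _, GP.append hp hq (by rw [hpy, hq0]) (avoid r q hq hq0) hM, ?_, ?_⟩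
      · simp only [if_pos (Nat.zero_le m)]
        exact hpv
      · by_cases h0 : r = 0
        · subst h0
          simp only [Nat.add_zero, if_pos le_rfl]
          rw [hpy, ← hq0, hqs]
        · simp only [if_neg (show ¬ m + r ≤ m by omega)]
          rw [Nat.add_sub_cancel_left, hqs]
    have hvn : v ∉ R E M (M y) := by
      rintro ⟨r, q, hq, hq0, hqv⟩
      have hr : 1 ≤ r := by
        by_contra h0
        have : r = 0 := by omega
        rw [this, hq0] at hqv
        exact hy'v hqv
      exact (avoid r q hq hq0 r hr le_rfl 0 (by omega)).1 (by rw [hqv, hpv])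
    have hss : R E M (M y) ⊂ R E M v := ⟨hsub, fun h => hvn (h (hvv v))⟩
    have h1 := Set.ncard_lt_ncard hss (Set.toFinite _)
    exact absurd (hv (M y)) (not_le.2 h1)
  refine ⟨R E M v, v, hvv v, ?_, ?_, claim⟩
  · rintro ⟨m, p, hp, hp0, hpm⟩
    exact hp.dis m 0 le_rfl (by omega) (by rw [hpm, hp0])
  · rintro z ⟨m, p, hp, hp0, hpm⟩ hz
    have hm : 1 ≤ m := by
      by_contra h0
      have : m = 0 := by omega
      rw [this, hp0] at hpm
      exact hz hpm.symm
    obtain ⟨m', rfl⟩ : ∃ m', m = m' + 1 := ⟨m - 1, by omega⟩
    have h1 := hp.ch m' (by omega)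
    rw [hpm] at h1
    exact claim (p m') ⟨m', p, hp.initial (by omega), hp0, rfl⟩ _ h1

end Pool.Agent.CDC
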