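import Pool.Agent.CDC.WalkFL
import Pool.Agent.CDC.JStruct

/-!
# The local rule at a circuit
-/

set_option autoImplicit false

namespace Pool.Agent.CDC

open Finset

theorem pat_zero : Pat 0 := by
  intro b _
  refine ⟨id, fun r => r.elim0, fun r => r.elim0, fun r => r.elim0, fun α _ => ⟨⟨1, ?_⟩, ?_⟩⟩
  · intro q _
    have : univ.filter (fun r : Fin 0 => r.1 < q) = ∅ := by
      ext r; exact r.elim0
    rw [this, Finset.sum_empty]
    decide
  · simp

theorem count_half {m k : ℕ} (hm : m = 2 * k) (b : Fin m → Bool)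
    (h : (univ.filter (fun r => b r = true)).card = (univ.filter (fun r => b r = false)).card) :
    ∑ r, (if b r then 1 else 0 : ℕ) = k := by
  have h1 : ∑ r, (if b r then 1 else 0 : ℕ) = (univ.filter (fun r => b r = true)).card := by
    rw [← Finset.sum_filter]
    simp
  have h2 := Finset.card_filter_add_card_filter_not (s := (univ : Finset (Fin m)))
    (fun r => b r = true)
  rw [Finset.card_univ, Fintype.card_fin] at h2
  have h3 : univ.filter (fun r => ¬ b r = true) = univ.filter (fun r => b r = false) := by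
    ext r
    simp
  rw [h3] at h2
  omega

theorem pat_two : Pat 2 := by
  intro b hb
  have h1 := count_half (k := 1) rfl b hb
  have h2 : b = ![b 0, b 1] := by
    funext r; fin_cases r <;> rfl
  have h3 : Con2 b := by
    rw [h2]
    refine conAll2 _ _ ?_
    rw [Fin.sum_univ_two] at h1
    exact h1
  obtain ⟨σ, g1, g2, g3, g4⟩ := h3
  exact ⟨σ, g1, g2, g3, fun α hα => walk_of_W2 (fun r => th (α (σ r))) (g4 α hα)⟩

theorem pat_four : Pat 4 := by
  intro b hb
  have h1 := count_half (k := 2) rfl b hb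
  have h2 : b = ![b 0, b 1, b 2, b 3] := by
    funext r; fin_cases r <;> rfl
  have h3 : Con4 b := by
    rw [h2]
    refine conAll4 _ _ _ _ ?_
    rw [Fin.sum_univ_four] at h1
    exact h1
  obtain ⟨σ, g1, g2, g3, g4⟩ := h3
  exact ⟨σ, g1, g2, g3, fun α hα => walk_of_W4 (fun r => th (α (σ r))) (g4 α hα)⟩

theorem pat_six : Pat 6 := by
  intro b hb
  have h1 := count_half (k := 3) rfl b hb
  have h2 : b = ![b 0, b 1, b 2, b 3, b 4, b 5] := by
    funext r; fin_cases r <;> rfl
  have h3 : Con6 b := by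
    rw [h2]
    refine conAll6 _ _ _ _ _ _ ?_
    rw [Fin.sum_univ_six] at h1
    exact h1
  obtain ⟨σ, g1, g2, g3, g4⟩ := h3
  exact ⟨σ, g1, g2, g3, fun α hα => walk_of_W6 (fun r => th (α (σ r))) (g4 α hα)⟩


variable {V E : Type} {G : MGraph V E} {C : Set E} {n k : ℕ}

theorem LocJ.mono {w : E → F4} {b b' : ℕ} (h : LocJ G C w b) (hb : b ≤ b') : LocJ G C w b' := by
  obtain ⟨x, t, h1, h2, h3⟩ := h
  exact ⟨x, t, h1, h2, h3.trans hb⟩

theorem th_ne (a : ZMod 3) : th a ≠ 0 := by revert a; decide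

/-- one of the two solutions misses at most half of the vertices -/
theorem locJ_half (hG : G.Cubic) (K : Circ G C n) (w : E → F4) (p : Fin k → Fin (n + 2))
    (hp : StrictMono p) (c : Fin k → F4) (hc : ∀ r, c r ≠ 0)
    (hw : ∀ i, w (K.h hG i) = ∑ r, if p r = i then c r else 0) (s₀ : F4)
    (walk : ∀ q, q ≤ k → s₀ + ∑ r ∈ univ.filter (fun r : Fin k => r.1 < q), c r ≠ 0)
    (hsum : ∑ r, c r = 0) (hpar : Even (n + k)) : LocJ G C w (k / 2) := by
  classical
  have h0 := locJ_of_pos hG K w p hp c hc hw s₀ walk hsum hpar 0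
  have h1 := locJ_of_pos hG K w p hp c hc hw s₀ walk hsum hpar 1
  have h2 := Finset.card_filter_add_card_filter_not (s := (univ : Finset (Fin k)))
    (fun r : Fin k => (((p r).1 + r.1 : ℕ) : ZMod 2) = 0)
  have h3 : univ.filter (fun r : Fin k => ¬ (((p r).1 + r.1 : ℕ) : ZMod 2) = 0) =
      univ.filter (fun r : Fin k => (((p r).1 + r.1 : ℕ) : ZMod 2) = 1) := by
    ext r
    rw [mem_filter, mem_filter]
    have : ∀ y : ZMod 2, ¬ y = 0 ↔ y = 1 := by decide
    rw [this]
  rw [h3, Finset.card_univ, Fintype.card_fin] at h2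
  by_cases hle : (univ.filter (fun r : Fin k => (((p r).1 + r.1 : ℕ) : ZMod 2) = 0)).card ≤ k / 2
  · exact h0.mono hle
  · exact h1.mono (by omega)

/-- the positions with nonzero value, in order -/
theorem exists_pos (g : Fin (n + 2) → Prop) [DecidablePred g] (m : ℕ)
    (hm : (univ.filter g).card = m) : ∃ p : Fin m → Fin (n + 2), StrictMono p ∧ (∀ r, g (p r)) ∧
      ∀ i, g i → ∃ r, p r = i := by
  refine ⟨(univ.filter g).orderEmbOfFin hm, OrderEmbedding.strictMono _, fun r => ?_,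
    fun i hi => ?_⟩
  · have := Finset.orderEmbOfFin_mem (univ.filter g) hm r
    rw [mem_filter] at this
    exact this.2
  · have h1 : i ∈ Set.range ((univ.filter g).orderEmbOfFin hm) := by
      rw [Finset.range_orderEmbOfFin]
      simpa using hi
    exact h1

theorem pat_of_le {k : ℕ} (hk : k ≤ 3) : Pat (2 * k) := by
  interval_cases k
  · exact pat_zero
  · exact pat_two
  · exact pat_four
  · exact pat_six

/-- the labels at the positions -/
theorem hw_of_pos (hG : G.Cubic) (K : Circ G C n) {f : V → ℤ} {ℓ : V → ZMod 3}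
    {p : Fin k → Fin (n + 2)} (hp : StrictMono p) (hp1 : ∀ r, f (K.v (p r)) ≠ 0)
    (hp2 : ∀ i, f (K.v i) ≠ 0 → ∃ r, p r = i) {w : E → F4}
    (hw : ∀ i, w (K.h hG i) = if f (K.v i) = 0 then 0 else th (ℓ (K.v i))) (i : Fin (n + 2)) :
    w (K.h hG i) = ∑ r, if p r = i then th (ℓ (K.v (p r))) else 0 := by
  classical
  rw [hw]
  by_cases hi : f (K.v i) = 0
  · rw [if_pos hi, Finset.sum_eq_zero]
    intro r _
    rw [if_neg]
    rintro rfl
    exact hp1 r hi
  · rw [if_neg hi]
    obtain ⟨r, rfl⟩ := hp2 i hi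
    rw [Finset.sum_eq_single r]
    · rw [if_pos rfl]
    · intro r' _ hr'
      rw [if_neg (fun h => hr' (hp.injective h))]
    · intro h; exact absurd (mem_univ _) h

/-- **even circuits**: at most three incoming edges with different labels; the outgoing edges can
be labelled -/
theorem local_even (hG : G.Cubic) (K : Circ G C n) (hn : Even n) (f : V → ℤ)
    (hf : ∀ i, f (K.v i) = -1 ∨ f (K.v i) = 0 ∨ f (K.v i) = 1) (hk : k ≤ 3)
    (hin : (univ.filter (fun i => f (K.v i) = -1)).card = k)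
    (hout : (univ.filter (fun i => f (K.v i) = 1)).card = k)
    (α : V → ZMod 3)
    (hα : ∀ i j, f (K.v i) = -1 → f (K.v j) = -1 → α (K.v i) = α (K.v j) → i = j) :
    ∃ β : V → ZMod 3, (∀ i, f (K.v i) = -1 → β (K.v i) = α (K.v i)) ∧
      (∀ i j, f (K.v i) = 1 → f (K.v j) = 1 → β (K.v i) = β (K.v j) → i = j) ∧
      (∀ i, f (K.v i) = 1 → ∃ j, f (K.v j) = -1 ∧ β (K.v i) = α (K.v j)) ∧
      ∀ w : E → F4, (∀ i, w (K.h hG i) = if f (K.v i) = 0 then 0 else th (β (K.v i))) →
        LocJ G C w k := by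
  classical
  have hcard : (univ.filter (fun i => f (K.v i) ≠ 0)).card = 2 * k := by
    have h1 : univ.filter (fun i => f (K.v i) ≠ 0) =
        univ.filter (fun i => f (K.v i) = -1) ∪ univ.filter (fun i => f (K.v i) = 1) := by
      ext i
      simp only [mem_filter, mem_univ, true_and, mem_union]
      rcases hf i with h | h | h <;> rw [h] <;> norm_num
    rw [h1, Finset.card_union_of_disjoint, hin, hout]
    · omega
    · rw [Finset.disjoint_left]
      intro i hi hi'
      rw [mem_filter] at hi hi'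
      rw [hi.2] at hi'
      exact absurd hi'.2 (by norm_num)
  obtain ⟨p, hp, hp1, hp2⟩ := exists_pos (fun i => f (K.v i) ≠ 0) (2 * k) hcard
  let b : Fin (2 * k) → Bool := fun r => decide (f (K.v (p r)) = -1)
  have hb1 : ∀ r, b r = true ↔ f (K.v (p r)) = -1 := fun r => by simp [b]
  have hb0 : ∀ r, b r = false ↔ f (K.v (p r)) = 1 := by
    intro r
    have h1 : b r = false ↔ ¬ f (K.v (p r)) = -1 := by simp [b]
    rw [h1]
    have h2 := hp1 r
    rcases hf (p r) with h | h | h
    · rw [h]; norm_num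
    · exact absurd h h2
    · rw [h]; norm_num
  have hc1 : (univ.filter (fun r => b r = true)).card = k := by
    refine Eq.trans (Finset.card_bij (fun r _ => p r) ?_ ?_ ?_) hin
    · intro r hr
      rw [mem_filter] at hr ⊢
      exact ⟨mem_univ _, (hb1 r).1 hr.2⟩
    · intro r _ r' _ h
      exact hp.injective h
    · intro i hi
      rw [mem_filter] at hi
      obtain ⟨r, rfl⟩ := hp2 i (by rw [hi.2]; norm_num)
      exact ⟨r, by rw [mem_filter]; exact ⟨mem_univ _, (hb1 r).2 hi.2⟩, rfl⟩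
  have hc0 : (univ.filter (fun r => b r = false)).card = k := by
    refine Eq.trans (Finset.card_bij (fun r _ => p r) ?_ ?_ ?_) hout
    · intro r hr
      rw [mem_filter] at hr ⊢
      exact ⟨mem_univ _, (hb0 r).1 hr.2⟩
    · intro r _ r' _ h
      exact hp.injective h
    · intro i hi
      rw [mem_filter] at hi
      obtain ⟨r, rfl⟩ := hp2 i (by rw [hi.2]; norm_num)
      exact ⟨r, by rw [mem_filter]; exact ⟨mem_univ _, (hb0 r).2 hi.2⟩, rfl⟩
  obtain ⟨σ, s1, s2, s3, s4⟩ := pat_of_le hk b (hc1.trans hc0.symm)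
  obtain ⟨⟨s₀, walk⟩, hsum⟩ := s4 (fun r => α (K.v (p r))) (fun r s hr hs h =>
    hp.injective (hα _ _ ((hb1 r).1 hr) ((hb1 s).1 hs) h))
  obtain ⟨β, hβ⟩ : ∃ β : V → ZMod 3, ∀ r, β (K.v (p r)) = α (K.v (p (σ r))) := by
    refine ⟨fun v => if h : ∃ r, K.v (p r) = v then α (K.v (p (σ h.choose))) else 0, fun r => ?_⟩
    have h : ∃ r', K.v (p r') = K.v (p r) := ⟨r, rfl⟩
    simp only [dif_pos h]
    have h1 : h.choose = r := hp.injective (K.vinj h.choose_spec)
    rw [h1]
  refine ⟨β, ?_, ?_, ?_, ?_⟩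
  · intro i hi
    obtain ⟨r, rfl⟩ := hp2 i (by rw [hi]; norm_num)
    rw [hβ, s1 r ((hb1 r).2 hi)]
  · intro i j hi hj h
    obtain ⟨r, rfl⟩ := hp2 i (by rw [hi]; norm_num)
    obtain ⟨s, rfl⟩ := hp2 j (by rw [hj]; norm_num)
    rw [hβ, hβ] at h
    have h1 := hp.injective (hα _ _ ((hb1 _).1 (s2 r)) ((hb1 _).1 (s2 s)) h)
    rw [s3 r s ((hb0 r).2 hi) ((hb0 s).2 hj) h1]
  · intro i hi
    obtain ⟨r, rfl⟩ := hp2 i (by rw [hi]; norm_num)
    exact ⟨p (σ r), (hb1 _).1 (s2 r), hβ r⟩
  · intro w hw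
    have h1 := locJ_half hG K w p hp (fun r => th (α (K.v (p (σ r))))) (fun r => th_ne _)
      (fun i => by
        rw [hw_of_pos hG K hp hp1 hp2 hw i]
        refine Finset.sum_congr rfl (fun r _ => ?_)
        rw [hβ]) s₀ walk hsum (by
        obtain ⟨m, hm⟩ := hn
        exact ⟨m + k, by omega⟩)
    exact h1.mono (by omega)

theorem walk_three : ∀ x y z : ZMod 3, x ≠ y → x ≠ z → y ≠ z →
    th y ≠ 0 ∧ th y + th x ≠ 0 ∧ th y + (th x + th y) ≠ 0 ∧ th x + th y + th z = 0 := by decide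

/-- **odd circuits** with three edges with different labels -/
theorem local_odd (hG : G.Cubic) (K : Circ G C n) (hn : Odd n) (f : V → ℤ)
    (hcard : (univ.filter (fun i => f (K.v i) ≠ 0)).card = 3) (ℓ : V → ZMod 3)
    (hℓ : ∀ i j, f (K.v i) ≠ 0 → f (K.v j) ≠ 0 → ℓ (K.v i) = ℓ (K.v j) → i = j)
    (w : E → F4) (hw : ∀ i, w (K.h hG i) = if f (K.v i) = 0 then 0 else th (ℓ (K.v i))) :
    LocJ G C w 1 := by
  classical
  obtain ⟨p, hp, hp1, hp2⟩ := exists_pos (fun i => f (K.v i) ≠ 0) 3 hcard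
  have hne : ∀ r s : Fin 3, r ≠ s → ℓ (K.v (p r)) ≠ ℓ (K.v (p s)) := fun r s hrs h =>
    hrs (hp.injective (hℓ _ _ (hp1 r) (hp1 s) h))
  obtain ⟨w1, w2, w3, w4⟩ := walk_three _ _ _ (hne 0 1 (by decide)) (hne 0 2 (by decide))
    (hne 1 2 (by decide))
  have h1 := locJ_half hG K w p hp (fun r => th (ℓ (K.v (p r)))) (fun r => th_ne _)
    (hw_of_pos hG K hp hp1 hp2 hw) (th (ℓ (K.v (p 1)))) (by
      intro q hq
      rw [Finset.sum_filter, Fin.sum_univ_three]
      interval_cases q
      · simpa using w1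
      · simpa using w2
      · simpa using w3
      · simp only [Fin.val_zero, Fin.val_one, Fin.val_two]
        norm_num
        rw [w4]
        simpa using w1) (by
      rw [Fin.sum_univ_three]
      exact w4) (by
      obtain ⟨m, hm⟩ := hn
      exact ⟨m + 2, by omega⟩)
  exact h1

/-- no labels -/
theorem local_zero (hG : G.Cubic) (K : Circ G C n) (hn : Even n) (w : E → F4)
    (hw : ∀ i, w (K.h hG i) = 0) : LocJ G C w 0 := by
  have h1 := locJ_half hG K w (k := 0) (fun r => r.elim0) (fun r => r.elim0) (fun r => r.elim0)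
    (fun r => r.elim0) (fun i => by rw [hw]; simp) 1 (by
      intro q _
      have : univ.filter (fun r : Fin 0 => r.1 < q) = ∅ := by
        ext r; exact r.elim0
      rw [this, Finset.sum_empty]
      decide) (by simp) (by simpa using hn)
  exact h1

end Pool.Agent.CDC
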