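import Pool.Agent.CDC.Core

/-!
# The main construction (second part)
-/

set_option autoImplicit false

namespace Pool.Agent.CDC

open Finset

variable {V E : Type} [Fintype V] [Fintype E] {G : MGraph V E} {C : Set E} {n : ℕ}

theorem core (K : Circ G C n) (hG : G.Cubic) (col : E → ZMod 3)
    (hcol : ∀ w, w ∉ G.verts C → ∀ e f, G.inc w e → G.inc w f → e ≠ f → col e ≠ col f) :
    ∃ (dd : E → ZMod 3) (c : E → ZMod 2) (xe : E → F4),
    (∀ w, w ∉ G.verts C → ∀ e f, G.inc w e → G.inc w f → e ≠ f → dd e ≠ dd f) ∧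
    (∀ w, w ∉ G.verts C → ∀ e₁ e₂ e₃, e₁ ≠ e₂ → e₁ ≠ e₃ → e₂ ≠ e₃ →
      (∀ e, G.inc w e ↔ e = e₁ ∨ e = e₂ ∨ e = e₃) → c e₁ + (c e₂ + c e₃) = 1) ∧
    (∀ i, xe (K.a i) = xe (K.a (i - 1)) + th (dd (K.h hG i)) ∧
      c (K.h hG i) = om (th (dd (K.h hG i))) (xe (K.a (i - 1)))) := by
  classical
  obtain ⟨δ, hδ⟩ := exists_sol (ι := Comp G C) (X := ZMod 3) (by decide) (BB K hG col)
    (fun i j x y hij => BB_symm K hG col hcol hij x y)
    (fun i j y _ => BB_even K hG col i j y)
  set dd : E → ZMod 3 := fun e => col e + δ (kapE G C e) with hdd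
  set z : ℕ → F4 := fun i => th (dd (K.h hG (pos n i))) with hz
  set Xs : ℕ → F4 := fun i => ∑ j ∈ range i, z j with hXs
  have hyz : ∀ i, yy K hG col (kap G C (K.v (pos n i))) (δ (kap G C (K.v (pos n i)))) i = z i := by
    intro i
    unfold yy
    rw [if_pos rfl, hz]
    simp only [hdd]
    rw [kapE_eq (K.h_notMem hG _) (K.h_inc hG _)]
  have hsum : ∀ i, z i = ∑ κ : Comp G C, yy K hG col κ (δ κ) i := by
    intro i
    rw [Finset.sum_eq_single (kap G C (K.v (pos n i)))]
    · exact (hyz i).symm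
    · intro κ _ hκ
      unfold yy
      rw [if_neg (Ne.symm hκ)]
    · intro h; exact absurd (mem_univ _) h
  have hXN : Xs (n + 2) = 0 := by
    simp only [hXs]
    rw [Finset.sum_congr rfl (fun i _ => hsum i), Finset.sum_comm]
    exact Finset.sum_eq_zero (fun κ _ => yy_sum K hG col hcol κ (δ κ))
  -- colours on the circuit
  obtain ⟨xe, hxe⟩ : ∃ xe : E → F4, ∀ i : Fin (n + 2), xe (K.a i) = Xs (i.1 + 1) := by
    refine ⟨fun e => if h : ∃ i, K.a i = e then Xs (h.choose.1 + 1) else 0, fun i => ?_⟩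
    have h : ∃ j, K.a j = K.a i := ⟨i, rfl⟩
    simp only [dif_pos h]
    rw [K.ainj h.choose_spec]
  have hxe' : ∀ i : Fin (n + 2), xe (K.a (i - 1)) = Xs i.1 := by
    intro i
    rw [hxe]
    by_cases hi : i = 0
    · subst hi
      have h1 : ((0 : Fin (n + 2)) - 1).1 = n + 1 := by
        rw [zero_sub]
        simp [Fin.val_neg]
      rw [h1]
      refine hXN.trans ?_
      simp [hXs]
    · have h1 : 0 < i.1 := Nat.pos_of_ne_zero (fun h => hi (Fin.ext h))
      have h2 : (i - 1).1 = i.1 - 1 := by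
        rw [Fin.sub_val_of_le]
        · simp
        · rw [Fin.le_def]
          simp
          omega
      rw [h2]
      congr 1
      omega
  -- the boundary values
  obtain ⟨b, hb1, hb2⟩ : ∃ b : V → ZMod 2, (∀ i : Fin (n + 2), b (K.v i) = om (z i.1) (Xs i.1)) ∧
      ∀ w, w ∉ G.verts C → b w = 1 := by
    refine ⟨fun w => if h : ∃ i, K.v i = w then om (z h.choose.1) (Xs h.choose.1) else 1,
      fun i => ?_, fun w hw => ?_⟩
    · have h : ∃ j, K.v j = K.v i := ⟨i, rfl⟩
      simp only [dif_pos h]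
      rw [K.vinj h.choose_spec]
    · rw [K.mem_verts] at hw
      simp only [dif_neg hw]
  -- the sum over a component
  have hcomp : ∀ κ : Comp G C, ∑ w ∈ univ.filter (fun w => kap G C w = κ), b w = 0 := by
    intro κ
    have e1 : ∑ w ∈ univ.filter (fun w => kap G C w = κ), b w =
        ∑ w ∈ univ.filter (fun w => kap G C w = κ), (b w + 1) := by
      rw [Finset.sum_add_distrib, even_vertices K hG κ, add_zero]
    have e2 : ∑ w ∈ univ.filter (fun w => kap G C w = κ), (b w + 1) =
        ∑ i : Fin (n + 2), if kap G C (K.v i) = κ then om (z i.1) (Xs i.1) + 1 else 0 := by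
      rw [Finset.sum_filter]
      symm
      refine Fintype.sum_of_injective K.v K.vinj _ _ (fun w hw => ?_) (fun i => ?_)
      · have hoff : w ∉ G.verts C := by
          rw [K.mem_verts]; exact hw
        rw [hb2 w hoff]
        split_ifs
        · decide
        · rfl
      · rw [hb1]
    have e3 : (∑ i : Fin (n + 2), if kap G C (K.v i) = κ then om (z i.1) (Xs i.1) + 1 else 0) =
        ∑ i ∈ range (n + 2), (om (yy K hG col κ (δ κ) i) (Xs i) +
          qf (yy K hG col κ (δ κ) i)) := by
      rw [Finset.sum_range]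
      refine Finset.sum_congr rfl (fun i _ => ?_)
      by_cases hk : kap G C (K.v i) = κ
      · rw [if_pos hk]
        have h1 : yy K hG col κ (δ κ) i.1 = z i.1 := by
          rw [← hk]
          have := hyz i.1
          rwa [pos_val] at this
        rw [h1]
        congr 1
        simp only [hz]
        rw [qf_th]
      · rw [if_neg hk]
        have h1 : yy K hG col κ (δ κ) i.1 = 0 := by
          unfold yy
          rw [pos_val, if_neg hk]
        rw [h1]
        simp
    have e4 : ∑ i ∈ range (n + 2), om (yy K hG col κ (δ κ) i) (Xs i) =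
        Om (n + 2) (yy K hG col κ (δ κ)) (fun i => ∑ κ' : Comp G C, yy K hG col κ' (δ κ') i) := by
      unfold Om
      refine Finset.sum_congr rfl (fun i _ => ?_)
      simp only [hXs]
      rw [Finset.sum_congr rfl (fun j _ => hsum j)]
    have e5 : ∑ κ' ∈ univ.erase κ, Om (n + 2) (yy K hG col κ (δ κ)) (yy K hG col κ' (δ κ')) = 0 :=
      hδ κ
    rw [e1, e2, e3, Finset.sum_add_distrib, e4, Om_sum_right,
      ← Finset.add_sum_erase univ _ (mem_univ κ), e5, add_zero, Om_self,
      yy_sum K hG col hcol, qf_zero, zero_add]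
    exact z2_add_self _
  obtain ⟨c, hc⟩ := exists_join G (offE E C) b (by
    intro g hg
    let g' : Comp G C → ZMod 2 := Quot.lift g (by
      rintro v w ⟨e, he, hv, hw⟩
      exact hg e (mem_offE.2 he) v w hv hw)
    rw [← Finset.sum_fiberwise univ (fun w => kap G C w)]
    refine Finset.sum_eq_zero (fun κ _ => ?_)
    have h1 : ∑ w ∈ univ.filter (fun w => kap G C w = κ), b w * g w =
        ∑ w ∈ univ.filter (fun w => kap G C w = κ), b w * g' κ := by
      refine Finset.sum_congr rfl (fun w hw => ?_)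
      rw [mem_filter] at hw
      rw [← hw.2]
      rfl
    rw [h1, ← Finset.sum_mul, hcomp κ, zero_mul])
  refine ⟨dd, c, xe, ?_, ?_, ?_⟩
  · intro w hw e f he hf hef
    simp only [hdd]
    rw [kapE_eq (not_mem_of_off hw he) he, kapE_eq (not_mem_of_off hw hf) hf]
    intro h
    exact hcol w hw e f he hf hef (add_right_cancel h)
  · intro w hw e₁ e₂ e₃ h12 h13 h23 hs
    rw [← sum_offE_off c hw h12 h13 h23 hs, hc w, hb2 w hw]
  · intro i
    refine ⟨?_, ?_⟩
    · rw [hxe, hxe']
      simp only [hXs]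
      rw [Finset.sum_range_succ]
      congr 1
      simp only [hz, pos_val]
    · rw [← sum_offE_circ K hG c i, hc, hb1, hxe']
      simp only [hz, pos_val]

end Pool.Agent.CDC
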