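import Pool.Agent.CDC.NLab

/-!
# Bounds for the number of vertices off the circuit
-/

set_option autoImplicit false

namespace Pool.Agent.CDC

open Mach

variable {V E : Type} {G : MGraph V E}

theorem circ_ncard {C : Set E} {m : ℕ} (K : Circ G C m) : C.ncard = m + 2 := by
  have h1 : C = K.a '' Set.univ := by
    rw [Set.image_univ, K.ran]
  rw [h1, Set.ncard_image_of_injective _ K.ainj, Set.ncard_univ, Nat.card_eq_fintype_card,
    Fintype.card_fin]

theorem third_ncard [Finite V] {C : Set E} {m : ℕ} (K : Circ G C m) (hG : G.Cubic) {X : Set V}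
    {x0 : V} (hx0 : x0 ∉ G.verts C) (hx0X : x0 ∈ X) :
    ((fun i => K.h hG i) '' {i | K.v i ∈ X}).ncard + 1 ≤ X.ncard := by
  have h1 := Set.ncard_image_le (f := fun i => K.h hG i) (s := {i | K.v i ∈ X}) (Set.toFinite _)
  have h2 : {i | K.v i ∈ X}.ncard ≤ (X \ {x0}).ncard := by
    apply Set.ncard_le_ncard_of_injOn K.v _ _ (Set.toFinite _)
    · intro i hi
      refine ⟨hi, fun h => hx0 ?_⟩
      rw [Set.mem_singleton_iff] at h
      exact (K.mem_verts x0).2 ⟨i, h⟩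
    · intro i _ j _ hij
      exact K.vinj hij
  have h3 := Set.ncard_sdiff_singleton_add_one hx0X (Set.toFinite X)
  omega

theorem compl_subset {C : Set E} {m : ℕ} (K : Circ G C m) (hG : G.Cubic)
    {X : Set V} (hcov : ∀ a, ∃ w, G.inc w a ∧ w ∈ X) {x0 : V}
    (hX : ∀ x ∈ X, x ≠ x0 → x ∈ G.verts C) {a : E} (ha : a ∉ C) :
    a ∈ ((fun i => K.h hG i) '' {i | K.v i ∈ X}) ∨ G.inc x0 a := by
  obtain ⟨w, hw, hwX⟩ := hcov a
  by_cases hwx : w = x0
  · right
    rw [← hwx]; exact hw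
  · left
    obtain ⟨i, rfl⟩ := (K.mem_verts w).1 (hX w hwX hwx)
    exact ⟨i, hwX, ((K.not_mem_inc hG i a).1 ⟨ha, hw⟩).symm⟩

theorem off_bound [Finite V] [Finite E] (hG : G.Cubic) {C : Set E} {m : ℕ} (K : Circ G C m)
    {X : Set V} (hcov : ∀ a, ∃ w, G.inc w a ∧ w ∈ X) {x0 : V} (hx0 : x0 ∉ G.verts C)
    (hx0X : x0 ∈ X) (hX : ∀ x ∈ X, x ≠ x0 → x ∈ G.verts C) :
    Nat.card E ≤ m + 4 + X.ncard := by
  have h1 := Set.ncard_add_ncard_compl C
  have h2 : Cᶜ ⊆ ((fun i => K.h hG i) '' {i | K.v i ∈ X}) ∪ {a | G.inc x0 a} :=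
    fun a ha => compl_subset K hG hcov hX ha
  have h3 := Set.ncard_le_ncard h2 (Set.toFinite _)
  have h4 := Set.ncard_union_le ((fun i => K.h hG i) '' {i | K.v i ∈ X}) {a | G.inc x0 a}
  have h5 := third_ncard K hG hx0 hx0X
  have h6 := hG x0
  have h7 := circ_ncard K
  omega

theorem off_bound' [Finite V] [Finite E] (hG : G.Cubic) {C : Set E} {m : ℕ} (K : Circ G C m)
    {X : Set V} (hcov : ∀ a, ∃ w, G.inc w a ∧ w ∈ X) {x0 : V} (hx0 : x0 ∉ G.verts C)
    (hx0X : x0 ∈ X) (hX : ∀ x ∈ X, x ≠ x0 → x ∈ G.verts C) {x1 : V} (hx1 : x1 ∈ X)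
    (hnb : nb G x0 x1) : Nat.card E ≤ m + 3 + X.ncard := by
  have h1 := Set.ncard_add_ncard_compl C
  obtain ⟨hne, a0, ha0, ha1⟩ := hnb
  obtain ⟨i, hi⟩ := (K.mem_verts x1).1 (hX x1 hx1 hne.symm)
  have ha0C : a0 ∉ C := not_mem_of_off hx0 ha0
  have ha0T : a0 ∈ ((fun i => K.h hG i) '' {i | K.v i ∈ X}) := by
    refine ⟨i, by rw [← hi] at hx1; exact hx1, ?_⟩
    exact ((K.not_mem_inc hG i a0).1 ⟨ha0C, by rw [hi]; exact ha1⟩).symm
  have h2 : Cᶜ ⊆ ((fun i => K.h hG i) '' {i | K.v i ∈ X}) ∪ ({a | G.inc x0 a} \ {a0}) := by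
    intro a ha
    by_cases haa : a = a0
    · left
      rw [haa]
      exact ha0T
    · rcases compl_subset K hG hcov hX ha with h | h
      · exact Or.inl h
      · exact Or.inr ⟨h, haa⟩
  have h3 := Set.ncard_le_ncard h2 (Set.toFinite _)
  have h4 := Set.ncard_union_le ((fun i => K.h hG i) '' {i | K.v i ∈ X})
    ({a | G.inc x0 a} \ {a0})
  have h5 := third_ncard K hG hx0 hx0X
  have h6 := hG x0
  have h8 := Set.ncard_sdiff_singleton_add_one (show a0 ∈ {a | G.inc x0 a} from ha0)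
    (Set.toFinite _)
  have h7 := circ_ncard K
  omega

theorem cover_le_circ [Finite V] {C : Set E} {m : ℕ} (K : Circ G C m) {X : Set V} {x0 : V}
    (hx0X : x0 ∈ X) (hX : ∀ x ∈ X, x ≠ x0 → x ∈ G.verts C) : X.ncard ≤ m + 3 := by
  have h1 : X \ {x0} ⊆ K.v '' Set.univ := by
    rintro x ⟨hx, hne⟩
    obtain ⟨i, hi⟩ := (K.mem_verts x).1 (hX x hx hne)
    exact ⟨i, trivial, hi⟩
  have h2 := Set.ncard_le_ncard h1 (Set.toFinite _)
  rw [Set.ncard_image_of_injective _ K.vinj, Set.ncard_univ, Nat.card_eq_fintype_card,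
    Fintype.card_fin] at h2
  have h3 := Set.ncard_sdiff_singleton_add_one hx0X (Set.toFinite X)
  omega

theorem exists_edge (hG : G.Cubic) (b : V) : ∃ e, G.inc b e := by
  obtain ⟨e1, _, _, _, _, _, hs⟩ := star_off hG b
  exact ⟨e1, (hs e1).2 (by simp)⟩

theorem three_verts [Finite V] (hn : 3 ≤ Nat.card V) : ∃ a b c : V, a ≠ b ∧ a ≠ c ∧ b ≠ c := by
  have := Fintype.ofFinite V
  rw [Nat.card_eq_fintype_card] at hn
  obtain ⟨a, b, c, h1, h2, h3⟩ := Fintype.two_lt_card_iff.1 (by omega : 2 < Fintype.card V)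
  exact ⟨a, b, c, h1, h2, h3⟩

theorem closed_mono {n c kx ny : ℕ} {fix : Bool} (h : Closed n c kx ny fix false)
    (first : Bool) : Closed n c kx ny fix first :=
  fun M _ => h M (fun h' => absurd h' (by decide))

/-- the certificate applied to a graph -/
theorem apply_cert [Finite V] [Finite E] (hG : G.Cubic) (h3 : G.TEC)
    (ht : ∀ S, ¬ G.Tight S) (hV : 3 ≤ Nat.card V) {X : Set V}
    (hcov : ∀ a, ∃ w, G.inc w a ∧ w ∈ X) {C : Set E} {m : ℕ} (K : Circ G C m)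
    (r : Fin (m + 2)) {x0 : V} (hx0 : x0 ∉ G.verts C) (hx0X : x0 ∈ X)
    (hX : ∀ x ∈ X, x ≠ x0 → x ∈ G.verts C) {fix first : Bool}
    (hfirst : first = true → nb G (K.v r) x0 ∧ K.v r ∈ X)
    (hcl : Closed (Nat.card V) (m + 2) X.ncard (Nat.card V - X.ncard) fix first) :
    ∃ C', G.IsCircuit C' ∧ X ⊆ G.verts C' ∧
      (fix = true → ∀ e, G.inc (K.v r) e → e ∉ C → e ∉ C') := by
  obtain ⟨l, L, hlc, hl⟩ := exists_lbl K r hx0 hx0X hX
  have hV3 := three_verts hV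
  have hny : Xᶜ.ncard = Nat.card V - X.ncard := by
    have := Set.ncard_add_ncard_compl X
    omega
  have hl0 : l 0 = K.v r := by
    rw [hl 0 (by omega)]
    have h0 : r + (⟨0, by omega⟩ : Fin (m + 2)) = r := add_zero r
    rw [h0]
  have hgoal := hcl (mkModel hG h3 ht hV3 hcov L rfl rfl hny) (by
    intro hf
    obtain ⟨h1, h2⟩ := hfirst hf
    refine ⟨⟨by have := L.hc; omega, L.hc, ?_⟩, ?_⟩
    · rw [hl0, hlc]; exact h1
    · show l 0 ∈ X
      rw [hl0]; exact h2)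
  obtain ⟨C', hC', hXC', hfix⟩ := circuit_of_goal hG h3 ht hV3 hcov L rfl rfl hny hgoal
  refine ⟨C', hC', hXC', ?_⟩
  intro hf e hre heC heC'
  have hinj := L.inj
  have hlt := L.hc
  rcases hfix hf e heC' (by rw [hl0]; exact hre) with h1 | ⟨j, hj, h1⟩
  · have hl1 : l 1 = K.v (r + 1) := by
      rw [hl 1 (by omega)]
      have h0 : (⟨1, by omega⟩ : Fin (m + 2)) = 1 := by
        apply Fin.ext
        exact (Fin.val_one _).symm
      rw [h0]
    have hne : K.v r ≠ K.v (r + 1) := by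
      rw [← hl0, ← hl1]
      intro h
      have := hinj 0 (by omega) 1 (by omega) h
      omega
    rw [hl1] at h1
    have h2 := no_parallel hG h3 hV3 hne hre h1 ((K.hinc r _).2 (Or.inl rfl))
      ((K.hinc r _).2 (Or.inr rfl))
    exact heC (by rw [h2]; exact K.mem r)
  · have hj' : j = m + 1 := by omega
    subst hj'
    have hl1 : l (m + 1) = K.v (r + ⟨m + 1, by omega⟩) := hl (m + 1) (by omega)
    have hsucc : r + (⟨m + 1, by omega⟩ : Fin (m + 2)) + 1 = r := by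
      rw [add_assoc, fin_last_add_one, add_zero]
    have hne : K.v r ≠ K.v (r + ⟨m + 1, by omega⟩) := by
      rw [← hl0, ← hl1]
      intro h
      have := hinj 0 (by omega) (m + 1) (by omega) h
      omega
    rw [hl1] at h1
    have h2 := no_parallel hG h3 hV3 hne hre h1
      ((K.hinc (r + ⟨m + 1, by omega⟩) (K.v r)).2 (Or.inr (by rw [hsucc])))
      ((K.hinc (r + ⟨m + 1, by omega⟩) _).2 (Or.inl rfl))
    exact heC (by rw [h2]; exact K.mem _)

end Pool.Agent.CDC
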