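import Pool.Agent.CDC.NCert

/-!
# Certificates (generated)
-/

set_option autoImplicit false
set_option linter.all false

namespace Pool.Agent.CDC.Mach

def w8_6_4_0_0t : Nat := 0x900000000000000000000000000000000000900100000000000000000000000000000000900500000000000000000000000000000000901100000000000000000000000000000000900200000000000000000000000000000000900600000000000000000000000000000000940600000000000000000000000000000000141400000000000000000000000000000000149400000000000000000000000000000000151400000000000000000000000000000000942600000000000000000000000000000000946600000000000000000000000000000000154400000000000000000000000000000000822200000000000000000000000e61000000822200000000000000000000000e11000000822200000000000000000000398e1200000082220000000000000000000038ce120000008222000000000000000000e638ce130000000200000000000000000000e638cc530000000200000000000000000000e1398c030000000000000000000000000000e538ce130000000000000000000000000394e3384c040000000000000000000000000308e5384c04000000000000000000000000000000000000000000000a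

def w8_6_4_0_0s : Nat := 0x3980110c850000000000000003988310405000000000000000398a00886400000000000000039862080a4000000000000000398850044300000000000000039841014830000000000000003986428022000000000000000398202906200000000000000039843214010000000000000003980520c4100000000000000039822190a0000000000000000398a418820

theorem w8_6_4_0_0S : symsOK 8 6 12 false w8_6_4_0_0s = true := by decide +kernel

def w8_6_4_0_0p0 : List Nat := [
  0xe, 0x10c853840638, 0x82500080332, 0x110500108300100132, 0x20c413980538, 0x1c62080a630,
  0x280600212500208300200132, 0x30070018063a, 0x30a60030043a, 0x40070038a60038043a,
  0x40260040840040023a, 0x50070048260048840048023a, 0x4, 0x180002c023, 0x1a0000041b, 0x4,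
  0x1e00000623, 0x180804001b, 0x2200038013, 0x240000012b, 0x260000000b, 0x221004c71b, 0x2a0004c513,
  0x2c0004c30b, 0x2e00050003]

theorem w8_6_4_0_0r0 : lems 8 6 4 4 12 false w8_6_4_0_0t w8_6_4_0_0s w8_6_4_0_0p0 0 = true := by decide +kernel

theorem w8_6_4_0_0 : Closed 8 6 4 4 false false :=
  closed_of (by norm_num) (by norm_num) w8_6_4_0_0S 25
  (range_step 0 25 (by decide +kernel) w8_6_4_0_0r0
  (fun m hm => absurd hm (Nat.not_lt_zero m)))
  (by decide +kernel)

def w8_7_4_0_0t : Nat := 0x400000000000000000000000000000000000400100000000000000000000000000000000400500000000000000000000000000000000400200000000000000000000000000000000400600000000000000000000000000000000500400000000000000000000000000000000501400000000000000000000000000000000509400000000000000000000000000000000502400000000000000000000000000000000504400000000000000000000000000000000524400000000000000000000000000000000544400000000000000000000000000000000000a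

def w8_7_4_0_0s : Nat := 0x38022190a600000000000000039483104060000000000000003980110c8500000000000000039062080c5000000000000000394c00886400000000000000038c41018a4000000000000000390a600443000000000000000388203148300000000000000038c853002200000000000000038406290620000000000000003886429801000000000000000380c520c4100000000000000038443214c0000000000000000398a418820

theorem w8_7_4_0_0S : symsOK 8 7 14 false w8_7_4_0_0s = true := by decide +kernel

def w8_7_4_0_0p0 : List Nat := [
  0xe, 0x4, 0x20000082b, 0x228008023, 0x60000041b, 0x208000623, 0x60001401b, 0xc00010013,
  0xe00000133, 0x100000000b, 0xe10020513, 0x140002030b, 0x1600024003]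

theorem w8_7_4_0_0r0 : lems 8 7 4 4 14 false w8_7_4_0_0t w8_7_4_0_0s w8_7_4_0_0p0 0 = true := by decide +kernel

theorem w8_7_4_0_0 : Closed 8 7 4 4 false false :=
  closed_of (by norm_num) (by norm_num) w8_7_4_0_0S 13
  (range_step 0 13 (by decide +kernel) w8_7_4_0_0r0
  (fun m hm => absurd hm (Nat.not_lt_zero m)))
  (by decide +kernel)

end Pool.Agent.CDC.Mach
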