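import Pool.Agent.CDC.NRule

/-!
# Certificates
-/

set_option autoImplicit false

namespace Pool.Agent.CDC.Mach

/-- every labelled model (with the first chord between `0` and `c` if `first` holds) has a circuit
through all vertices of type `X` -/
def Closed (n c kx ny : ℕ) (fix first : Bool) : Prop :=
  ∀ M : Model n c kx ny, (first = true → M.adj 0 c ∧ M.X 0) → M.Goal fix

/-- adjacency bits of the root -/
def rootA (c : ℕ) (first : Bool) : ℕ := Bool.rec (baseA c) (addE (baseA c) 0 c) first

/-- types of the root -/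
def rootT (n c : ℕ) (first : Bool) : ℕ :=
  Nat.lor (bif'' first) (Nat.lor (Nat.pow 2 (Nat.mul 2 c))
    (Nat.rec 0 (fun k ih => Nat.lor ih (Bool.rec 0 (Nat.pow 2 (Nat.succ (Nat.mul 2 k)))
      (Nat.ble (Nat.succ c) k))) n))
where
  bif'' (b : Bool) : ℕ := Bool.rec 0 1 b

theorem rootA_ok {n c kx ny : ℕ} {first : Bool} (hn : n ≤ 32) (hcn : c < n)
    (M : Model n c kx ny) (h : first = true → M.adj 0 c ∧ M.X 0) :
    AdjOK M.adj (rootA c first) := by
  unfold rootA
  have h0 := M.base_adj hn hcn.le
  cases first with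
  | false => exact h0
  | true =>
    have h1 := (h rfl).1
    exact adjOK_addE h0 h1 (M.symm _ _ h1) (by omega) (by omega)

theorem rootT_ok {n c kx ny : ℕ} {first : Bool}
    (M : Model n c kx ny) (h : first = true → M.adj 0 c ∧ M.X 0) :
    TyOK n M.X (rootT n c first) := by
  have key : ∀ f, f ≤ n → ∀ t, (Nat.rec 0 (fun k ih => Nat.lor ih
      (Bool.rec 0 (Nat.pow 2 (Nat.succ (Nat.mul 2 k))) (Nat.ble (Nat.succ c) k))) f :
        ℕ).testBit t = true → ∃ k, k < n ∧ c < k ∧ t = 2 * k + 1 := by
    intro f
    induction f with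
    | zero =>
      intro _ t ht
      have h1 : (0 : ℕ).testBit t = true := ht
      rw [Nat.zero_testBit] at h1
      exact absurd h1 (by decide)
    | succ f ih =>
      intro hf t ht
      have h1 : ((Nat.rec 0 (fun k ih => Nat.lor ih
        (Bool.rec 0 (Nat.pow 2 (Nat.succ (Nat.mul 2 k))) (Nat.ble (Nat.succ c) k))) f : ℕ) |||
          (Bool.rec 0 (2 ^ (2 * f + 1)) (Nat.ble (Nat.succ c) f) : ℕ)).testBit t = true := ht
      rw [Nat.testBit_or, Bool.or_eq_true] at h1
      rcases h1 with h1 | h1
      · exact ih (by omega) t h1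
      · rcases hb : Nat.ble (Nat.succ c) f with _ | _
        · rw [hb] at h1
          have h2 : (0 : ℕ).testBit t = true := h1
          rw [Nat.zero_testBit] at h2
          exact absurd h2 (by decide)
        · rw [hb] at h1
          have h2 : (2 ^ (2 * f + 1) : ℕ).testBit t = true := h1
          rw [Nat.testBit_two_pow, decide_eq_true_eq] at h2
          rw [ble_iff] at hb
          exact ⟨f, by omega, by omega, h2.symm⟩
  have h1 : ∀ t, (rootT n c first).testBit t = true → (first = true ∧ t = 0) ∨ t = 2 * c ∨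
      ∃ k, k < n ∧ c < k ∧ t = 2 * k + 1 := by
    intro t ht
    have h2 : ((rootT.bif'' first) ||| (2 ^ (2 * c) ||| (Nat.rec 0 (fun k ih => Nat.lor ih
      (Bool.rec 0 (Nat.pow 2 (Nat.succ (Nat.mul 2 k))) (Nat.ble (Nat.succ c) k))) n :
        ℕ))).testBit t = true := ht
    rw [Nat.testBit_or, Nat.testBit_or, Bool.or_eq_true, Bool.or_eq_true, Nat.testBit_two_pow,
      decide_eq_true_eq] at h2
    rcases h2 with h2 | h2 | h2
    · left
      cases first with
      | false =>
        have h3 : (0 : ℕ).testBit t = true := h2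
        rw [Nat.zero_testBit] at h3
        exact absurd h3 (by decide)
      | true =>
        have h3 : (1 : ℕ).testBit t = true := h2
        rw [Nat.testBit_one_eq_true_iff_self_eq_zero] at h3
        exact ⟨rfl, h3⟩
    · exact Or.inr (Or.inl h2.symm)
    · exact Or.inr (Or.inr (key n le_rfl t h2))
  intro i hi
  constructor
  · intro ht
    rcases h1 _ ht with ⟨hf, h2⟩ | h2 | ⟨k, _, _, h2⟩
    · have : i = 0 := by omega
      rw [this]
      exact (h hf).2
    · have : i = c := by omega
      rw [this]
      exact M.offX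
    · omega
  · intro ht
    rcases h1 _ ht with ⟨hf, h2⟩ | h2 | ⟨k, hk, hck, h2⟩
    · omega
    · omega
    · have : i = k := by omega
      rw [this]
      exact M.offY k hck hk

/-- the final step -/
theorem closed_of {n c kx ny nq tab syms : ℕ} {fix first : Bool} (hn : n ≤ 32) (hcn : c < n)
    (hs : symsOK n c nq fix syms = true) (N : ℕ)
    (h : ∀ m, m < N → ∃ p, lem n c kx ny nq fix tab syms m p = true)
    (hr : kid n nq tab syms N (rootA c first) (rootT n c first)
      (Nat.mul 64 (Nat.sub N 1)) = true) : Closed n c kx ny fix first := by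
  intro M hM
  have hsy := symsOK_ok hs
  exact kid_ok hn hcn hsy (good_all hn hcn hsy N h) M (rootA_ok hn hcn M hM) (rootT_ok M hM) hr

/-- ranges -/
theorem range_step {n c kx ny nq tab syms : ℕ} {fix : Bool} {ps : List ℕ} (lo hi : ℕ)
    (hlen : Nat.beq (Nat.add lo ps.length) hi = true)
    (h : lems n c kx ny nq fix tab syms ps lo = true)
    (h0 : ∀ m, m < lo → ∃ p, lem n c kx ny nq fix tab syms m p = true) :
    ∀ m, m < hi → ∃ p, lem n c kx ny nq fix tab syms m p = true := by
  intro m hm
  rw [beq_iff] at hlen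
  have hlen' : lo + ps.length = hi := hlen
  by_cases hml : m < lo
  · exact h0 m hml
  · obtain ⟨p, hp⟩ := lems_get h (m - lo) (by omega)
    refine ⟨p, ?_⟩
    rw [show lo + (m - lo) = m by omega] at hp
    exact hp

end Pool.Agent.CDC.Mach
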