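import Pool.Agent.CDC.NDefs

/-!
# Contracting one side of a cut with three edges
-/

set_option autoImplicit false

namespace Pool.Agent.CDC

open Finset

variable {V E : Type} {G : MGraph V E}

/-- the edges with an end in `S` -/
abbrev ConE (G : MGraph V E) (S : Set V) : Type := {a : E // ∃ w ∈ S, G.inc w a}

/-- the vertices of `G / Sᶜ` -/
abbrev ConV (S : Set V) : Type := Option {w : V // w ∈ S}

/-- incidence of `G / Sᶜ` -/
def conInc (G : MGraph V E) (S : Set V) : ConV S → ConE G S → Prop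
  | some w, a => G.inc w.1 a.1
  | none, a => a.1 ∈ G.cut S

theorem con_two (G : MGraph V E) (S : Set V) (a : ConE G S) : {w | conInc G S w a}.ncard = 2 := by
  classical
  obtain ⟨a, w, hw, hwa⟩ := a
  obtain ⟨z, hz, hz'⟩ := other_end G hwa
  have hza : G.inc z a := (hz' z).2 (Or.inr rfl)
  by_cases hzS : z ∈ S
  · have h1 : {x | conInc G S x ⟨a, w, hw, hwa⟩} =
        {(some ⟨w, hw⟩ : ConV S), some ⟨z, hzS⟩} := by
      ext x
      simp only [Set.mem_ofPred_eq, Set.mem_insert_iff, Set.mem_singleton_iff]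
      rcases x with _ | x
      · constructor
        · rintro ⟨_, y, hy, hya⟩
          rcases (hz' y).1 hya with rfl | rfl
          · exact absurd hw hy
          · exact absurd hzS hy
        · rintro (h | h) <;> exact absurd h (by simp)
      · show G.inc x.1 a ↔ _
        rw [hz', Option.some.injEq, Option.some.injEq, Subtype.ext_iff, Subtype.ext_iff]
    rw [h1, Set.ncard_pair]
    intro h
    rw [Option.some.injEq, Subtype.ext_iff] at h
    exact hz h.symm
  · have h1 : {x | conInc G S x ⟨a, w, hw, hwa⟩} = {(some ⟨w, hw⟩ : ConV S), none} := by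
      ext x
      simp only [Set.mem_ofPred_eq, Set.mem_insert_iff, Set.mem_singleton_iff]
      rcases x with _ | x
      · constructor
        · intro _
          exact Or.inr rfl
        · intro _
          exact ⟨⟨w, hw, hwa⟩, z, hzS, hza⟩
      · show G.inc x.1 a ↔ _
        rw [hz', Option.some.injEq, Subtype.ext_iff]
        constructor
        · rintro (h | h)
          · exact Or.inl h
          · exact absurd (h ▸ x.2) hzS
        · rintro (h | h)
          · exact Or.inl h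
          · exact absurd h (by simp)
    rw [h1, Set.ncard_pair (by simp)]

/-- `G / Sᶜ` -/
def conG (G : MGraph V E) (S : Set V) : MGraph (ConV S) (ConE G S) where
  inc := conInc G S
  two := con_two G S

theorem con_deg_some (S : Set V) (D : Set (ConE G S)) (w : {w : V // w ∈ S}) :
    {a | a ∈ D ∧ (conG G S).inc (some w) a}.ncard =
      {b | b ∈ (Subtype.val '' D : Set E) ∧ G.inc w.1 b}.ncard := by
  have h1 : Subtype.val '' {a | a ∈ D ∧ (conG G S).inc (some w) a} =
      {b | b ∈ (Subtype.val '' D : Set E) ∧ G.inc w.1 b} := by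
    ext b
    constructor
    · rintro ⟨a, ⟨ha, haw⟩, rfl⟩
      exact ⟨⟨a, ha, rfl⟩, haw⟩
    · rintro ⟨⟨a, ha, rfl⟩, hb⟩
      exact ⟨a, ⟨ha, hb⟩, rfl⟩
  rw [← h1, Set.ncard_image_of_injective _ Subtype.val_injective]

theorem con_deg_none (S : Set V) (D : Set (ConE G S)) :
    {a | a ∈ D ∧ (conG G S).inc none a}.ncard =
      ((Subtype.val '' D : Set E) ∩ G.cut S).ncard := by
  have h1 : Subtype.val '' {a | a ∈ D ∧ (conG G S).inc none a} =
      (Subtype.val '' D : Set E) ∩ G.cut S := by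
    ext b
    constructor
    · rintro ⟨a, ⟨ha, haw⟩, rfl⟩
      exact ⟨⟨a, ha, rfl⟩, haw⟩
    · rintro ⟨⟨a, ha, rfl⟩, hb⟩
      exact ⟨a, ⟨ha, hb⟩, rfl⟩
  rw [← h1, Set.ncard_image_of_injective _ Subtype.val_injective]

theorem con_cubic (hG : G.Cubic) {S : Set V} (hS : (G.cut S).ncard = 3) : (conG G S).Cubic := by
  intro w
  have h0 : {a | (conG G S).inc w a} = {a | a ∈ (Set.univ : Set (ConE G S)) ∧ (conG G S).inc w a} := by
    ext a
    simp
  rw [h0]
  rcases w with _ | w
  · rw [con_deg_none]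
    have h1 : (Subtype.val '' (Set.univ : Set (ConE G S)) : Set E) ∩ G.cut S = G.cut S := by
      ext b
      constructor
      · exact fun h => h.2
      · intro h
        exact ⟨⟨⟨b, h.1⟩, Set.mem_univ _, rfl⟩, h⟩
    rw [h1, hS]
  · rw [con_deg_some]
    have h1 : {b | b ∈ (Subtype.val '' (Set.univ : Set (ConE G S)) : Set E) ∧ G.inc w.1 b} =
        {b | G.inc w.1 b} := by
      ext b
      constructor
      · exact fun h => h.2
      · intro h
        exact ⟨⟨⟨b, w.1, w.2, h⟩, Set.mem_univ _, rfl⟩, h⟩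
    rw [h1, hG]

/-- cuts of the new graph which do not contain the new vertex -/
theorem con_cut (S : Set V) (A : Set (ConV S)) (hA : none ∉ A) :
    Subtype.val '' (conG G S).cut A = G.cut {w | ∃ h : w ∈ S, some ⟨w, h⟩ ∈ A} := by
  ext b
  constructor
  · rintro ⟨a, ⟨⟨x, hx, hxa⟩, y, hy, hya⟩, rfl⟩
    rcases x with _ | x
    · exact absurd hx hA
    · refine ⟨⟨x.1, ⟨x.2, hx⟩, hxa⟩, ?_⟩
      rcases y with _ | y
      · obtain ⟨_, z, hz, hza⟩ := (hya : a.1 ∈ G.cut S)
        exact ⟨z, fun h => hz h.1, hza⟩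
      · exact ⟨y.1, fun h => hy h.2, hya⟩
  · rintro ⟨⟨x, ⟨hxS, hxA⟩, hxb⟩, y, hy, hyb⟩
    refine ⟨⟨b, x, hxS, hxb⟩, ⟨⟨some ⟨x, hxS⟩, hxA, hxb⟩, ?_⟩, rfl⟩
    by_cases hyS : y ∈ S
    · exact ⟨some ⟨y, hyS⟩, fun h => hy ⟨hyS, h⟩, hyb⟩
    · exact ⟨none, hA, ⟨⟨x, hxS, hxb⟩, y, hyS, hyb⟩⟩

theorem con_TEC [Finite E] (h3 : G.TEC) {S : Set V} (hS : Sᶜ.Nonempty) : (conG G S).TEC := by
  have key : ∀ A : Set (ConV S), none ∉ A → A.Nonempty → 3 ≤ ((conG G S).cut A).ncard := by
    intro A hA hne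
    rw [← Set.ncard_image_of_injective _ Subtype.val_injective, con_cut S A hA]
    apply h3
    · obtain ⟨x, hx⟩ := hne
      rcases x with _ | x
      · exact absurd hx hA
      · exact ⟨x.1, x.2, hx⟩
    · obtain ⟨y, hy⟩ := hS
      exact ⟨y, fun h => hy h.1⟩
  intro A hne hne'
  by_cases hA : none ∈ A
  · rw [← cut_compl]
    exact key _ (fun h => h hA) hne'
  · exact key A hA hne

/-- an even set meets a cut in an even number of edges -/
theorem even_cut [Finite V] [Finite E] {D : Set E} (hD : G.IsEven D) (S : Set V) :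
    Even (D ∩ G.cut S).ncard := by
  classical
  have := Fintype.ofFinite V
  have := Fintype.ofFinite E
  -- both sides modulo two
  have h1 : ∀ v : V, (∑ e : E, if e ∈ D ∧ G.inc v e then (1 : ZMod 2) else 0) = 0 := by
    intro v
    have h2 := hD v
    have h3 : {e | e ∈ D ∧ G.inc v e} = ↑(univ.filter fun e => e ∈ D ∧ G.inc v e) := by
      ext e; simp
    rw [h3, Set.ncard_coe_finset] at h2
    rw [Finset.sum_boole]
    exact (ZMod.natCast_eq_zero_iff_even).2 h2
  have h2 : ∑ v ∈ univ.filter (fun v => v ∈ S),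
      (∑ e : E, if e ∈ D ∧ G.inc v e then (1 : ZMod 2) else 0) = 0 :=
    Finset.sum_eq_zero fun v _ => h1 v
  rw [Finset.sum_comm] at h2
  have h4 : ∀ e : E, (∑ v ∈ univ.filter (fun v => v ∈ S), if e ∈ D ∧ G.inc v e then (1 : ZMod 2)
      else 0) = if e ∈ D ∩ G.cut S then 1 else 0 := by
    intro e
    by_cases heD : e ∈ D
    · obtain ⟨x, y, hxy, hE⟩ := Set.ncard_eq_two.1 (G.two e)
      have hE' : ∀ w, G.inc w e ↔ w = x ∨ w = y := by
        intro w
        have : w ∈ {w | G.inc w e} ↔ w ∈ ({x, y} : Set V) := by rw [hE]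
        simpa using this
      have h5 : (∑ v ∈ univ.filter (fun v => v ∈ S), if e ∈ D ∧ G.inc v e then (1 : ZMod 2)
          else 0) = (if x ∈ S then 1 else 0) + (if y ∈ S then 1 else 0) := by
        rw [Finset.sum_filter]
        have h6 : ∀ v : V, (if v ∈ S then (if e ∈ D ∧ G.inc v e then (1 : ZMod 2) else 0) else 0) =
            (if v = x then (if x ∈ S then 1 else 0) else 0) +
              (if v = y then (if y ∈ S then 1 else 0) else 0) := by
          intro v
          by_cases hvx : v = x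
          · subst hvx
            have : G.inc v e := (hE' v).2 (Or.inl rfl)
            simp [heD, this, hxy]
          · by_cases hvy : v = y
            · subst hvy
              have : G.inc v e := (hE' v).2 (Or.inr rfl)
              simp [heD, this, hvx]
            · have : ¬ G.inc v e := fun h => ((hE' v).1 h).elim hvx hvy
              simp [this, hvx, hvy]
        rw [Finset.sum_congr rfl fun v _ => h6 v, Finset.sum_add_distrib, Finset.sum_ite_eq',
          Finset.sum_ite_eq']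
        simp
      rw [h5]
      have h7 : e ∈ G.cut S ↔ ((x ∈ S ∧ y ∉ S) ∨ (y ∈ S ∧ x ∉ S)) := by
        constructor
        · rintro ⟨⟨p, hp, hpe⟩, q, hq, hqe⟩
          rcases (hE' p).1 hpe with rfl | rfl <;> rcases (hE' q).1 hqe with rfl | rfl
          · exact absurd hp hq
          · exact Or.inl ⟨hp, hq⟩
          · exact Or.inr ⟨hp, hq⟩
          · exact absurd hp hq
        · rintro (⟨h8, h9⟩ | ⟨h8, h9⟩)
          · exact ⟨⟨x, h8, (hE' x).2 (Or.inl rfl)⟩, y, h9, (hE' y).2 (Or.inr rfl)⟩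
          · exact ⟨⟨y, h8, (hE' y).2 (Or.inr rfl)⟩, x, h9, (hE' x).2 (Or.inl rfl)⟩
      have h10 : e ∈ D ∩ G.cut S ↔ ((x ∈ S ∧ y ∉ S) ∨ (y ∈ S ∧ x ∉ S)) := by
        rw [Set.mem_inter_iff, h7]
        exact and_iff_right heD
      by_cases hx : x ∈ S <;> by_cases hy : y ∈ S
      · rw [if_pos hx, if_pos hy, if_neg (by rw [h10]; tauto)]
        decide
      · rw [if_pos hx, if_neg hy, if_pos (by rw [h10]; tauto), add_zero]
      · rw [if_neg hx, if_pos hy, if_pos (by rw [h10]; tauto), zero_add]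
      · rw [if_neg hx, if_neg hy, if_neg (by rw [h10]; tauto), add_zero]
    · rw [if_neg (fun h => heD h.1)]
      apply Finset.sum_eq_zero
      intro v _
      rw [if_neg (fun h => heD h.1)]
  rw [Finset.sum_congr rfl fun e _ => h4 e, Finset.sum_boole] at h2
  have h5 : D ∩ G.cut S = ↑(univ.filter fun e => e ∈ D ∩ G.cut S) := by
    ext e; simp
  rw [h5, Set.ncard_coe_finset]
  exact (ZMod.natCast_eq_zero_iff_even).1 h2

/-- the part of an even set -/
theorem con_part_even [Finite V] [Finite E] {D : Set E} (hD : G.IsEven D) (S : Set V) :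
    (conG G S).IsEven {a | a.1 ∈ D} := by
  intro w
  have h0 : (Subtype.val '' ({a | a.1 ∈ D} : Set (ConE G S)) : Set E) =
      {b | b ∈ D ∧ ∃ w ∈ S, G.inc w b} := by
    ext b
    constructor
    · rintro ⟨a, ha, rfl⟩
      exact ⟨ha, a.2⟩
    · rintro ⟨hb, h⟩
      exact ⟨⟨b, h⟩, hb, rfl⟩
  rcases w with _ | w
  · rw [con_deg_none, h0]
    have : {b | b ∈ D ∧ ∃ w ∈ S, G.inc w b} ∩ G.cut S = D ∩ G.cut S := by
      ext b
      constructor
      · rintro ⟨⟨h1, _⟩, h2⟩
        exact ⟨h1, h2⟩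
      · rintro ⟨h1, h2⟩
        exact ⟨⟨h1, h2.1⟩, h2⟩
    rw [this]
    exact even_cut hD S
  · rw [con_deg_some, h0]
    have : {b | b ∈ {b | b ∈ D ∧ ∃ w ∈ S, G.inc w b} ∧ G.inc w.1 b} =
        {b | b ∈ D ∧ G.inc w.1 b} := by
      ext b
      constructor
      · rintro ⟨⟨h1, _⟩, h2⟩
        exact ⟨h1, h2⟩
      · rintro ⟨h1, h2⟩
        exact ⟨⟨h1, w.1, w.2, h2⟩, h2⟩
    rw [this]
    exact hD w.1

/-- a circuit which avoids the new vertex -/
theorem con_inside [Finite V] [Finite E] {S : Set V} {C : Set (ConE G S)} (hC : (conG G S).MinEven C)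
    (hn : none ∉ (conG G S).verts C) : G.MinEven (Subtype.val '' C) := by
  have hno : ∀ a ∈ C, ∀ v, G.inc v a.1 → v ∈ S := by
    intro a ha v hv
    by_contra hvS
    exact hn ⟨a, ha, a.2, v, hvS, hv⟩
  refine ⟨?_, hC.2.1.image _, ?_⟩
  · intro w
    by_cases hw : w ∈ S
    · rw [← con_deg_some S C ⟨w, hw⟩]
      exact hC.1 _
    · have : {b | b ∈ (Subtype.val '' C : Set E) ∧ G.inc w b} = ∅ := by
        rw [Set.eq_empty_iff_forall_notMem]
        rintro b ⟨⟨a, ha, rfl⟩, hb⟩
        exact hw (hno a ha w hb)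
      rw [this, Set.ncard_empty]
      decide
  · intro D hDC hD hne
    have h1 : ({a | a.1 ∈ D} : Set (ConE G S)) ⊆ C := by
      intro a ha
      obtain ⟨a', ha', h⟩ := hDC ha
      have : a' = a := Subtype.ext h
      exact this ▸ ha'
    have h2 : ({a | a.1 ∈ D} : Set (ConE G S)).Nonempty := by
      obtain ⟨b, hb⟩ := hne
      obtain ⟨a, _, h⟩ := hDC hb
      exact ⟨a, by rw [Set.mem_ofPred_eq, h]; exact hb⟩
    have h3 := hC.2.2 _ h1 (con_part_even hD S) h2
    apply Set.Subset.antisymm hDC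
    rintro _ ⟨a, ha, rfl⟩
    rw [← h3] at ha
    exact ha

/-- circuits of both sides with the same edges in the cut -/
theorem con_glue [Finite V] [Finite E] {S : Set V} {C : Set (ConE G S)}
    {C' : Set (ConE G Sᶜ)} (hC : (conG G S).MinEven C) (hC' : (conG G Sᶜ).MinEven C')
    (hn : none ∈ (conG G S).verts C)
    (hcut : ∀ b ∈ G.cut S, b ∈ (Subtype.val '' C : Set E) ↔ b ∈ (Subtype.val '' C' : Set E)) :
    G.MinEven ((Subtype.val '' C : Set E) ∪ Subtype.val '' C') := by
  have hS : ∀ w ∈ S, ∀ b, G.inc w b → (b ∈ (Subtype.val '' C : Set E) ∪ Subtype.val '' C' ↔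
      b ∈ (Subtype.val '' C : Set E)) := by
    intro w hw b hb
    constructor
    · rintro (h | ⟨a, ha, rfl⟩)
      · exact h
      · obtain ⟨v, hv, hva⟩ := a.2
        exact (hcut a.1 ⟨⟨w, hw, hb⟩, v, hv, hva⟩).2 ⟨a, ha, rfl⟩
    · exact fun h => Or.inl h
  have hSc : ∀ w ∈ Sᶜ, ∀ b, G.inc w b → (b ∈ (Subtype.val '' C : Set E) ∪ Subtype.val '' C' ↔
      b ∈ (Subtype.val '' C' : Set E)) := by
    intro w hw b hb
    constructor
    · rintro (⟨a, ha, rfl⟩ | h)
      · obtain ⟨v, hv, hva⟩ := a.2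
        exact (hcut a.1 ⟨⟨v, hv, hva⟩, w, hw, hb⟩).1 ⟨a, ha, rfl⟩
      · exact h
    · exact fun h => Or.inr h
  obtain ⟨a0, ha0, ha0'⟩ := hn
  refine ⟨?_, ⟨a0.1, Or.inl ⟨a0, ha0, rfl⟩⟩, ?_⟩
  · intro w
    by_cases hw : w ∈ S
    · have h1 := hC.1 (some ⟨w, hw⟩)
      rw [con_deg_some] at h1
      have h2 : {b | b ∈ (Subtype.val '' C : Set E) ∪ Subtype.val '' C' ∧ G.inc w b} =
          {b | b ∈ (Subtype.val '' C : Set E) ∧ G.inc w b} := by
        ext b
        exact and_congr_left fun hb => hS w hw b hb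
      rw [h2]
      exact h1
    · have h1 := hC'.1 (some ⟨w, hw⟩)
      rw [con_deg_some] at h1
      have h2 : {b | b ∈ (Subtype.val '' C : Set E) ∪ Subtype.val '' C' ∧ G.inc w b} =
          {b | b ∈ (Subtype.val '' C' : Set E) ∧ G.inc w b} := by
        ext b
        exact and_congr_left fun hb => hSc w hw b hb
      rw [h2]
      exact h1
  · intro D hDC hD hne
    -- the two parts
    have h1 : ({a | a.1 ∈ D} : Set (ConE G S)) ⊆ C := by
      intro a ha
      obtain ⟨w, hw, hwa⟩ := a.2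
      obtain ⟨a', ha', h⟩ := (hS w hw a.1 hwa).1 (hDC ha)
      exact (Subtype.ext h : a' = a) ▸ ha'
    have h1' : ({a | a.1 ∈ D} : Set (ConE G Sᶜ)) ⊆ C' := by
      intro a ha
      obtain ⟨w, hw, hwa⟩ := a.2
      obtain ⟨a', ha', h⟩ := (hSc w hw a.1 hwa).1 (hDC ha)
      exact (Subtype.ext h : a' = a) ▸ ha'
    have h2 : ({a | a.1 ∈ D} : Set (ConE G S)).Nonempty → {a : ConE G S | a.1 ∈ D} = C :=
      hC.2.2 _ h1 (con_part_even hD S)
    have h2' : ({a | a.1 ∈ D} : Set (ConE G Sᶜ)).Nonempty → {a : ConE G Sᶜ | a.1 ∈ D} = C' :=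
      hC'.2.2 _ h1' (con_part_even hD Sᶜ)
    have hcut0 : a0.1 ∈ G.cut S := ha0'
    have hcut0' : a0.1 ∈ G.cut Sᶜ := by rw [cut_compl]; exact hcut0
    -- the edge `a0` is in `D`
    have h3 : a0.1 ∈ D := by
      obtain ⟨b, hb⟩ := hne
      rcases hDC hb with ⟨a, ha, rfl⟩ | ⟨a, ha, rfl⟩
      · have h4 := h2 ⟨a, hb⟩
        rw [← h4] at ha0
        exact ha0
      · have h4 := h2' ⟨a, hb⟩
        obtain ⟨a1, ha1, h5⟩ := (hcut a0.1 hcut0).1 ⟨a0, ha0, rfl⟩
        rw [← h4] at ha1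
        rw [← h5]
        exact ha1
    have h4 := h2 ⟨a0, h3⟩
    have h4' := h2' ⟨⟨a0.1, hcut0'.1⟩, h3⟩
    apply Set.Subset.antisymm hDC
    rintro _ (⟨a, ha, rfl⟩ | ⟨a, ha, rfl⟩)
    · rw [← h4] at ha
      exact ha
    · rw [← h4'] at ha
      exact ha

/-- a circuit through the new vertex which avoids the edge `b0` of the cut consists, in the cut, of the
other two edges -/
theorem con_two_edges [Finite V] [Finite E] {S : Set V} (hS : (G.cut S).ncard = 3)
    {C : Set (ConE G S)} (hC : (conG G S).MinEven C) (hn : none ∈ (conG G S).verts C) {b0 : E}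
    (hb0 : b0 ∈ G.cut S) (hb0C : b0 ∉ (Subtype.val '' C : Set E)) :
    ∀ b ∈ G.cut S, b ∈ (Subtype.val '' C : Set E) ↔ b ≠ b0 := by
  classical
  have h1 := hC.1 none
  rw [con_deg_none] at h1
  have h2 : ((Subtype.val '' C : Set E) ∩ G.cut S) ⊆ G.cut S \ {b0} := by
    rintro b ⟨h3, h4⟩
    refine ⟨h4, ?_⟩
    rintro rfl
    exact hb0C h3
  have h3 : (G.cut S \ {b0}).ncard = 2 := by
    rw [Set.ncard_sdiff_singleton_of_mem hb0, hS]
  have h4 : ((Subtype.val '' C : Set E) ∩ G.cut S).Nonempty := by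
    obtain ⟨a, ha, ha'⟩ := hn
    exact ⟨a.1, ⟨a, ha, rfl⟩, ha'⟩
  have h5 := (Set.ncard_pos (Set.toFinite _)).2 h4
  have h6 := Set.ncard_le_ncard h2 (Set.toFinite _)
  have h7 : ((Subtype.val '' C : Set E) ∩ G.cut S).ncard = 2 := by
    obtain ⟨k, hk⟩ := h1
    omega
  have h8 := Set.eq_of_subset_of_ncard_le h2 (by omega) (Set.toFinite _)
  intro b hb
  constructor
  · rintro h9 rfl
    exact hb0C h9
  · intro h9
    have : b ∈ G.cut S \ {b0} := ⟨hb, h9⟩
    rw [← h8] at this
    exact this.1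

/-- a circuit avoids an edge of the cut -/
theorem con_avoid [Finite V] [Finite E] {S : Set V} (hS : (G.cut S).ncard = 3)
    {C : Set (ConE G S)} (hC : (conG G S).MinEven C) :
    ∃ b0 ∈ G.cut S, b0 ∉ (Subtype.val '' C : Set E) := by
  by_contra hcon
  push Not at hcon
  have h1 := hC.1 none
  rw [con_deg_none] at h1
  have h2 : (Subtype.val '' C : Set E) ∩ G.cut S = G.cut S := by
    ext b
    exact ⟨fun h => h.2, fun h => ⟨hcon b h, h⟩⟩
  rw [h2, hS] at h1
  exact absurd h1 (by decide)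

theorem con_card [Finite V] {S : Set V} (hS : 2 ≤ Sᶜ.ncard) : Nat.card (ConV S) < Nat.card V := by
  have h1 : Nat.card (ConV S) = S.ncard + 1 := by
    rw [Finite.card_option]
    rfl
  have h2 := Set.ncard_add_ncard_compl S
  omega

end Pool.Agent.CDC
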