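import Pool.Agent.CDC.Acyclic
import Pool.Agent.CDC.Cut

/-!
# Minimal even sets, cuts, three-edge-connectivity
-/

set_option autoImplicit false

namespace Pool.Agent.CDC

open Finset

variable {V E : Type} {G : MGraph V E}

namespace MGraph

/-- three-edge-connected: every cut has at least three edges -/
def TEC (G : MGraph V E) : Prop :=
  ∀ S : Set V, S.Nonempty → Sᶜ.Nonempty → 3 ≤ (G.cut S).ncard

/-- minimal nonempty even sets of edges -/
def MinEven (G : MGraph V E) (C : Set E) : Prop :=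
  G.IsEven C ∧ C.Nonempty ∧ ∀ D, D ⊆ C → G.IsEven D → D.Nonempty → D = C

/-- a cut with three edges and at least two vertices on both sides -/
def Tight (G : MGraph V E) (S : Set V) : Prop :=
  (G.cut S).ncard = 3 ∧ 2 ≤ S.ncard ∧ 2 ≤ Sᶜ.ncard

end MGraph

theorem Tight_compl {S : Set V} (h : G.Tight S) : G.Tight Sᶜ :=
  ⟨by rw [cut_compl]; exact h.1, h.2.2, by rw [compl_compl]; exact h.2.1⟩

/-- degrees -/
theorem even_deg_two {D : Set E} (hD : G.IsEven D) [Finite E] {v : V} {e : E} (he : e ∈ D)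
    (hv : G.inc v e) : ∃ f ∈ D, f ≠ e ∧ G.inc v f := by
  by_contra hcon
  push Not at hcon
  have h1 : {x | x ∈ D ∧ G.inc v x} = {e} := by
    ext x
    constructor
    · rintro ⟨hx, hxv⟩
      by_contra hne
      exact hcon x hx hne hxv
    · rintro rfl
      exact ⟨he, hv⟩
  have h2 := hD v
  rw [h1, Set.ncard_singleton] at h2
  exact absurd h2 (by decide)

/-- variant of `circuit_of_seq` with the edges -/
theorem circuit_of_seqN [Finite V] (v : ℕ → V) (e : ℕ → E)
    (h1 : ∀ i w, G.inc w (e i) ↔ w = v i ∨ w = v (i + 1)) (h2 : ∀ i, v i ≠ v (i + 1))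
    (h3 : ∀ i, e i ≠ e (i + 1)) : ∃ D, G.IsCircuit D ∧ ∀ a ∈ D, ∃ i, a = e i := by
  classical
  have hex : ∃ j, ∃ i, i < j ∧ v i = v j := by
    obtain ⟨a, b, hab, h⟩ := Finite.exists_ne_map_eq_of_infinite v
    rcases lt_or_gt_of_ne hab with h' | h'
    · exact ⟨b, a, h', h⟩
    · exact ⟨a, b, h', h.symm⟩
  obtain ⟨i, hij, hvij⟩ := Nat.find_spec hex
  set j := Nat.find hex with hj
  have hmin : ∀ a b, a < b → b < j → v a ≠ v b := by
    intro a b hab hbj h
    exact Nat.find_min hex hbj ⟨a, hab, h⟩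
  have hlen : i + 2 ≤ j := by
    by_contra hcon
    have : j = i + 1 := by omega
    rw [this] at hvij
    exact h2 i hvij
  obtain ⟨n, hn⟩ : ∃ n, j = i + (n + 2) := ⟨j - i - 2, by omega⟩
  refine ⟨Set.range (fun k : Fin (n + 2) => e (i + k.1)), ⟨n, fun k => v (i + k.1),
    fun k => e (i + k.1), ?_, ?_, ?_, rfl⟩, ?_⟩
  · intro a b hab
    by_contra hne
    have hne' : a.1 ≠ b.1 := fun h => hne (Fin.ext h)
    rcases lt_or_gt_of_ne hne' with h | h
    · exact hmin (i + a.1) (i + b.1) (by omega) (by have := b.2; omega) hab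
    · exact hmin (i + b.1) (i + a.1) (by omega) (by have := a.2; omega) hab.symm
  · have key : ∀ a b : Fin (n + 2), a.1 < b.1 → e (i + a.1) ≠ e (i + b.1) := by
      intro a b h hab
      have h4 : G.inc (v (i + b.1)) (e (i + a.1)) := by
        rw [hab, h1]; exact Or.inl rfl
      rw [h1] at h4
      rcases h4 with h4 | h4
      · exact hmin (i + a.1) (i + b.1) (by omega) (by have := b.2; omega) h4.symm
      · have h5 : i + a.1 + 1 = i + b.1 := by
          by_contra hne
          exact hmin (i + a.1 + 1) (i + b.1) (by omega) (by have := b.2; omega) h4.symm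
        rw [← h5] at hab
        exact h3 _ hab
    intro a b hab
    by_contra hne
    have hne' : a.1 ≠ b.1 := fun h => hne (Fin.ext h)
    rcases lt_or_gt_of_ne hne' with h | h
    · exact key a b h hab
    · exact key b a h hab.symm
  · intro k w
    rw [h1]
    by_cases hk : k = Fin.last (n + 1)
    · subst hk
      rw [Fin.last_add_one]
      have h4 : v (i + (Fin.last (n + 1)).1 + 1) = v (i + (0 : Fin (n + 2)).1) := by
        rw [show i + (Fin.last (n + 1)).1 + 1 = j by rw [hn]; simp [Fin.last]; omega]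
        rw [← hvij]
        simp
      show w = v (i + (Fin.last (n + 1)).1) ∨ w = v (i + (Fin.last (n + 1)).1 + 1) ↔
        w = v (i + (Fin.last (n + 1)).1) ∨ w = v (i + (0 : Fin (n + 2)).1)
      rw [h4]
    · have h4 : (k + 1).1 = k.1 + 1 := Fin.val_add_one_of_lt (Fin.lt_last_iff_ne_last.2 hk)
      show w = v (i + k.1) ∨ w = v (i + k.1 + 1) ↔ w = v (i + k.1) ∨ w = v (i + (k + 1).1)
      rw [h4, add_assoc]
  · rintro a ⟨k, rfl⟩
    exact ⟨_, rfl⟩

/-- a nonempty even set contains a circuit -/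
theorem exists_circuit [Finite V] [Finite E] {D : Set E} (hD : G.IsEven D) (hne : D.Nonempty) :
    ∃ C, G.IsCircuit C ∧ C ⊆ D := by
  classical
  let St := {p : V × E // p.2 ∈ D ∧ G.inc p.1 p.2}
  have step : ∀ s : St, ∃ t : St, t.1.1 ≠ s.1.1 ∧ G.inc t.1.1 s.1.2 ∧ t.1.2 ≠ s.1.2 := by
    rintro ⟨⟨v, e⟩, he, hv⟩
    obtain ⟨w, hw, hx⟩ := other_end G hv
    have hwe : G.inc w e := (hx w).2 (Or.inr rfl)
    obtain ⟨f, hf, hfe, hwf⟩ := even_deg_two hD he hwe
    exact ⟨⟨(w, f), hf, hwf⟩, hw, hwe, hfe⟩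
  choose nx hnx1 hnx2 hnx3 using step
  obtain ⟨e0, he0⟩ := hne
  obtain ⟨v0, hv0⟩ : ∃ v, G.inc v e0 := by
    obtain ⟨u, w, _, hS⟩ := Set.ncard_eq_two.1 (G.two e0)
    have : u ∈ {v | G.inc v e0} := by rw [hS]; simp
    exact ⟨u, this⟩
  let s : ℕ → St := fun n => Nat.rec ⟨(v0, e0), he0, hv0⟩ (fun _ t => nx t) n
  have hs : ∀ n, s (n + 1) = nx (s n) := fun n => rfl
  obtain ⟨C, hC, hCe⟩ := circuit_of_seqN (G := G) (fun n => (s n).1.1) (fun n => (s n).1.2)
    (by
      intro i w
      obtain ⟨w', hw', hx⟩ := other_end G (s i).2.2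
      have h5 : (s (i + 1)).1.1 = w' := by
        rw [hs]
        rcases (hx _).1 (hnx2 (s i)) with h | h
        · exact absurd h (hnx1 (s i))
        · exact h
      show G.inc w (s i).1.2 ↔ w = (s i).1.1 ∨ w = (s (i + 1)).1.1
      rw [h5]
      exact hx w)
    (by
      intro i
      show (s i).1.1 ≠ (s (i + 1)).1.1
      rw [hs]
      exact (hnx1 (s i)).symm)
    (by
      intro i
      show (s i).1.2 ≠ (s (i + 1)).1.2
      rw [hs]
      exact (hnx3 (s i)).symm)
  refine ⟨C, hC, ?_⟩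
  intro a ha
  obtain ⟨i, rfl⟩ := hCe a ha
  exact (s i).2.1

theorem isCircuit_even {C : Set E} (hC : G.IsCircuit C) : G.IsEven C := by
  classical
  obtain ⟨n, ⟨K⟩⟩ := hC.circ
  intro w
  by_cases hw : ∃ i, K.v i = w
  · obtain ⟨i, rfl⟩ := hw
    have h1 : {e | e ∈ C ∧ G.inc (K.v i) e} = {K.a i, K.a (i - 1)} := by
      ext e
      simp only [Set.mem_insert_iff, Set.mem_singleton_iff]
      constructor
      · rintro ⟨he, hie⟩
        obtain ⟨j, rfl⟩ := (K.mem_iff e).1 he
        rcases (K.hinc j _).1 hie with h | h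
        · left; rw [K.vinj h]
        · right
          have : j = i - 1 := by rw [K.vinj h]; simp
          rw [this]
      · rintro (rfl | rfl)
        · exact ⟨K.mem _, (K.hinc _ _).2 (Or.inl rfl)⟩
        · exact ⟨K.mem _, (K.hinc _ _).2 (Or.inr (by rw [sub_add_cancel]))⟩
    rw [h1, Set.ncard_pair (K.a_ne i)]
    decide
  · have h1 : {e | e ∈ C ∧ G.inc w e} = ∅ := by
      rw [Set.eq_empty_iff_forall_notMem]
      rintro e ⟨he, hie⟩
      obtain ⟨j, rfl⟩ := (K.mem_iff e).1 he
      rcases (K.hinc j _).1 hie with h | h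
      · exact hw ⟨j, h.symm⟩
      · exact hw ⟨j + 1, h.symm⟩
    rw [h1, Set.ncard_empty]
    decide

theorem isCircuit_minEven [Finite E] {C : Set E} (hC : G.IsCircuit C) : G.MinEven C := by
  refine ⟨isCircuit_even hC, ?_, ?_⟩
  · obtain ⟨n, ⟨K⟩⟩ := hC.circ
    exact ⟨_, K.mem 0⟩
  · intro D hDC hD hne
    obtain ⟨n, ⟨K⟩⟩ := hC.circ
    obtain ⟨e, he⟩ := hne
    obtain ⟨i0, rfl⟩ := (K.mem_iff e).1 (hDC he)
    have step : ∀ i, K.a i ∈ D → K.a (i + 1) ∈ D := by
      intro i hi
      obtain ⟨f, hf, hfe, hv⟩ := even_deg_two hD hi ((K.hinc i (K.v (i + 1))).2 (Or.inr rfl))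
      obtain ⟨j, rfl⟩ := (K.mem_iff f).1 (hDC hf)
      rcases (K.hinc j _).1 hv with h | h
      · rw [K.vinj h]
        exact hf
      · have h2 : i = j := add_right_cancel (K.vinj h)
        rw [h2] at hfe
        exact absurd rfl hfe
    have all : ∀ k : Fin (n + 2), K.a (i0 + k) ∈ D := by
      intro k
      induction k using Fin.induction with
      | zero => simpa using he
      | succ k ih =>
        have h1 := step _ ih
        rwa [add_assoc, Fin.coeSucc_eq_succ] at h1
    apply Set.Subset.antisymm hDC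
    intro f hf
    obtain ⟨j, rfl⟩ := (K.mem_iff f).1 hf
    have := all (j - i0)
    rwa [add_sub_cancel] at this

theorem minEven_isCircuit [Finite V] [Finite E] {C : Set E} (hC : G.MinEven C) : G.IsCircuit C := by
  obtain ⟨D, hD, hDC⟩ := exists_circuit hC.1 hC.2.1
  obtain ⟨n, ⟨K⟩⟩ := hD.circ
  have := hC.2.2 D hDC (isCircuit_even hD) ⟨_, K.mem 0⟩
  rwa [this] at hD

/-- no parallel edges -/
theorem no_parallel [Finite E] (hG : G.Cubic) (h3 : G.TEC) (hV : ∃ a b c : V, a ≠ b ∧ a ≠ c ∧ b ≠ c)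
    {x y : V} (hxy : x ≠ y) {a b : E} (hxa : G.inc x a) (hya : G.inc y a) (hxb : G.inc x b)
    (hyb : G.inc y b) : a = b := by
  classical
  by_contra hab
  obtain ⟨c, hca, hcb, hc⟩ := three_of_two (hG x) (p := a) (q := b) hxa hxb hab
  obtain ⟨d, hda, hdb, hd⟩ := three_of_two (hG y) (p := a) (q := b) hya hyb hab
  have h1 : (G.cut {x, y}) ⊆ {c, d} := by
    rintro e ⟨⟨v, hv, hve⟩, w, hw, hwe⟩
    simp only [Set.mem_insert_iff, Set.mem_singleton_iff, not_or] at hv hw ⊢
    have key : ∀ z, z = x ∨ z = y → ∀ f, (f = a ∨ f = b) → G.inc w f → False := by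
      intro z _ f hf hwf
      rcases hf with rfl | rfl
      · obtain ⟨z', hz', hz⟩ := other_end G hxa
        have := (hz y).1 hya
        rcases (hz w).1 hwf with h | h
        · exact hw.1 h
        · rcases this with h' | h'
          · exact hxy h'.symm
          · exact hw.2 (h.trans h'.symm)
      · obtain ⟨z', hz', hz⟩ := other_end G hxb
        have := (hz y).1 hyb
        rcases (hz w).1 hwf with h | h
        · exact hw.1 h
        · rcases this with h' | h'
          · exact hxy h'.symm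
          · exact hw.2 (h.trans h'.symm)
    rcases hv with rfl | rfl
    · rcases (hc e).1 hve with h | h | h
      · exact (key _ (Or.inl rfl) e (Or.inl h) hwe).elim
      · exact (key _ (Or.inl rfl) e (Or.inr h) hwe).elim
      · exact Or.inl h
    · rcases (hd e).1 hve with h | h | h
      · exact (key _ (Or.inr rfl) e (Or.inl h) hwe).elim
      · exact (key _ (Or.inr rfl) e (Or.inr h) hwe).elim
      · exact Or.inr h
  have h2 : (G.cut {x, y}).ncard ≤ 2 :=
    (Set.ncard_le_ncard h1 (Set.toFinite _)).trans (Set.ncard_insert_le _ _ |>.trans (by simp))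
  have h4 : ({x, y} : Set V)ᶜ.Nonempty := by
    obtain ⟨p, q, r, hpq, hpr, hqr⟩ := hV
    by_contra hcon
    rw [Set.not_nonempty_iff_eq_empty, Set.compl_empty_iff, Set.eq_univ_iff_forall] at hcon
    simp only [Set.mem_insert_iff, Set.mem_singleton_iff] at hcon
    rcases hcon p with h | h <;> rcases hcon q with h' | h' <;> rcases hcon r with h'' | h'' <;>
      simp_all
  have := h3 {x, y} ⟨x, by simp⟩ h4
  omega

end Pool.Agent.CDC
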