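import Pool.Agent.CDC.NDefs

/-!
# Deleting an edge and suppressing its ends
-/

set_option autoImplicit false

namespace Pool.Agent.CDC

variable {V E : Type} {G : MGraph V E}

/-- `e` joins `u` and `v`, the other edges at `u` are `f1`, `f2`, at `v` they are `g1`, `g2` -/
structure DelData (G : MGraph V E) (u v : V) (e f1 f2 g1 g2 : E) : Prop where
  huv : u ≠ v
  hu : ∀ a, G.inc u a ↔ a = e ∨ a = f1 ∨ a = f2
  hv : ∀ a, G.inc v a ↔ a = e ∨ a = g1 ∨ a = g2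
  ef1 : e ≠ f1
  ef2 : e ≠ f2
  f12 : f1 ≠ f2
  eg1 : e ≠ g1
  eg2 : e ≠ g2
  g12 : g1 ≠ g2
  par : ∀ x y : V, x ≠ y → ∀ a b, G.inc x a → G.inc y a → G.inc x b → G.inc y b → a = b

namespace DelData

variable {u v : V} {e f1 f2 g1 g2 : E}

theorem swap (h : DelData G u v e f1 f2 g1 g2) : DelData G v u e g1 g2 f1 f2 :=
  ⟨h.huv.symm, h.hv, h.hu, h.eg1, h.eg2, h.g12, h.ef1, h.ef2, h.f12, h.par⟩

theorem ue (h : DelData G u v e f1 f2 g1 g2) : G.inc u e := (h.hu e).2 (Or.inl rfl)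
theorem ve (h : DelData G u v e f1 f2 g1 g2) : G.inc v e := (h.hv e).2 (Or.inl rfl)
theorem uf1 (h : DelData G u v e f1 f2 g1 g2) : G.inc u f1 := (h.hu f1).2 (Or.inr (Or.inl rfl))
theorem uf2 (h : DelData G u v e f1 f2 g1 g2) : G.inc u f2 := (h.hu f2).2 (Or.inr (Or.inr rfl))
theorem vg1 (h : DelData G u v e f1 f2 g1 g2) : G.inc v g1 := (h.hv g1).2 (Or.inr (Or.inl rfl))
theorem vg2 (h : DelData G u v e f1 f2 g1 g2) : G.inc v g2 := (h.hv g2).2 (Or.inr (Or.inr rfl))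

/-- an edge at both ends is `e` -/
theorem eq_e (h : DelData G u v e f1 f2 g1 g2) {a : E} (h1 : G.inc u a) (h2 : G.inc v a) : a = e :=
  h.par u v h.huv a e h1 h2 h.ue h.ve

theorem nvf1 (h : DelData G u v e f1 f2 g1 g2) : ¬ G.inc v f1 :=
  fun h1 => h.ef1 (h.eq_e h.uf1 h1).symm
theorem nvf2 (h : DelData G u v e f1 f2 g1 g2) : ¬ G.inc v f2 :=
  fun h1 => h.ef2 (h.eq_e h.uf2 h1).symm
theorem nug1 (h : DelData G u v e f1 f2 g1 g2) : ¬ G.inc u g1 :=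
  fun h1 => h.eg1 (h.eq_e h1 h.vg1).symm
theorem nug2 (h : DelData G u v e f1 f2 g1 g2) : ¬ G.inc u g2 :=
  fun h1 => h.eg2 (h.eq_e h1 h.vg2).symm

theorem fg11 (h : DelData G u v e f1 f2 g1 g2) : f1 ≠ g1 := fun h1 => h.nvf1 (h1 ▸ h.vg1)
theorem fg12 (h : DelData G u v e f1 f2 g1 g2) : f1 ≠ g2 := fun h1 => h.nvf1 (h1 ▸ h.vg2)
theorem fg21 (h : DelData G u v e f1 f2 g1 g2) : f2 ≠ g1 := fun h1 => h.nvf2 (h1 ▸ h.vg1)
theorem fg22 (h : DelData G u v e f1 f2 g1 g2) : f2 ≠ g2 := fun h1 => h.nvf2 (h1 ▸ h.vg2)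

end DelData

open Classical in
/-- the edge of the new graph to which an edge belongs -/
noncomputable def rr (f1 f2 g1 g2 b : E) : E := if b = f2 then f1 else if b = g2 then g1 else b

section

variable {u v : V} {e f1 f2 g1 g2 : E}

theorem rr_f2 : rr f1 f2 g1 g2 f2 = f1 := by
  unfold rr
  rw [if_pos rfl]

theorem rr_g2 (h : f2 ≠ g2) : rr f1 f2 g1 g2 g2 = g1 := by
  unfold rr
  rw [if_neg h.symm, if_pos rfl]

theorem rr_of_ne {b : E} (h1 : b ≠ f2) (h2 : b ≠ g2) : rr f1 f2 g1 g2 b = b := by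
  unfold rr
  rw [if_neg h1, if_neg h2]

theorem rr_ok (h : DelData G u v e f1 f2 g1 g2) {b : E} (hb : b ≠ e) :
    rr f1 f2 g1 g2 b ≠ e ∧ rr f1 f2 g1 g2 b ≠ f2 ∧ rr f1 f2 g1 g2 b ≠ g2 := by
  by_cases h1 : b = f2
  · rw [h1, rr_f2]
    exact ⟨h.ef1.symm, h.f12, h.fg12⟩
  · by_cases h2 : b = g2
    · rw [h2, rr_g2 h.fg22]
      exact ⟨h.eg1.symm, h.fg21.symm, h.g12⟩
    · rw [rr_of_ne h1 h2]
      exact ⟨hb, h1, h2⟩

/-- preimages -/
theorem rr_eq (h : DelData G u v e f1 f2 g1 g2) {b a : E} (hb : rr f1 f2 g1 g2 b = a) :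
    b = a ∨ (b = f2 ∧ a = f1) ∨ (b = g2 ∧ a = g1) := by
  by_cases h1 : b = f2
  · rw [h1, rr_f2] at hb
    exact Or.inr (Or.inl ⟨h1, hb.symm⟩)
  · by_cases h2 : b = g2
    · rw [h2, rr_g2 h.fg22] at hb
      exact Or.inr (Or.inr ⟨h2, hb.symm⟩)
    · rw [rr_of_ne h1 h2] at hb
      exact Or.inl hb

theorem rr_inj (h : DelData G u v e f1 f2 g1 g2) {w : V} (hwu : w ≠ u) (hwv : w ≠ v) {b b' : E}
    (hb : G.inc w b) (hb' : G.inc w b') (hr : rr f1 f2 g1 g2 b = rr f1 f2 g1 g2 b') : b = b' := by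
  have hf : G.inc w f1 → G.inc w f2 → False := fun h1 h2 =>
    h.f12 (h.par w u hwu f1 f2 h1 h.uf1 h2 h.uf2)
  have hg : G.inc w g1 → G.inc w g2 → False := fun h1 h2 =>
    h.g12 (h.par w v hwv g1 g2 h1 h.vg1 h2 h.vg2)
  rcases rr_eq h hr with h1 | ⟨h1, h2⟩ | ⟨h1, h2⟩
  · rcases rr_eq h h1.symm with h3 | ⟨h3, h4⟩ | ⟨h3, h4⟩
    · exact h3.symm
    · subst h3 h4
      exact (hf hb hb').elim
    · subst h3 h4
      exact (hg hb hb').elim
  · rcases rr_eq h h2 with h3 | ⟨h3, _⟩ | ⟨_, h4⟩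
    · subst h1 h3
      exact (hf hb' hb).elim
    · rw [h1, h3]
    · exact absurd h4 h.fg11
  · rcases rr_eq h h2 with h3 | ⟨_, h4⟩ | ⟨h3, _⟩
    · subst h1 h3
      exact (hg hb' hb).elim
    · exact absurd h4.symm h.fg11
    · rw [h1, h3]

/-- incidence of the new graph -/
def delInc (G : MGraph V E) (u v : V) (e f1 f2 g1 g2 : E) (w : {w // w ≠ u ∧ w ≠ v})
    (a : {a // a ≠ e ∧ a ≠ f2 ∧ a ≠ g2}) : Prop :=
  ∃ b, rr f1 f2 g1 g2 b = a.1 ∧ G.inc w.1 b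

theorem del_two (h : DelData G u v e f1 f2 g1 g2) (a : {a // a ≠ e ∧ a ≠ f2 ∧ a ≠ g2}) :
    {w | delInc G u v e f1 f2 g1 g2 w a}.ncard = 2 := by
  classical
  -- the two ends
  have key : ∃ x y : {w // w ≠ u ∧ w ≠ v}, x ≠ y ∧
      ∀ w, delInc G u v e f1 f2 g1 g2 w a ↔ w = x ∨ w = y := by
    obtain ⟨a, ha1, ha2, ha3⟩ := a
    -- ends of an edge at `u` different from `e`
    have two : ∀ {p q : V} {d k1 k2 l1 l2 : E}, DelData G p q d k1 k2 l1 l2 →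
        ∃ x y : V, (x ≠ p ∧ x ≠ q) ∧ (y ≠ p ∧ y ≠ q) ∧ x ≠ y ∧
          ∀ w, w ≠ p → ((G.inc w k1 ∨ G.inc w k2) ↔ w = x ∨ w = y) := by
      intro p q d k1 k2 l1 l2 hd
      obtain ⟨x, hx, hx'⟩ := other_end G hd.uf1
      obtain ⟨y, hy, hy'⟩ := other_end G hd.uf2
      have hxi : G.inc x k1 := (hx' x).2 (Or.inr rfl)
      have hyi : G.inc y k2 := (hy' y).2 (Or.inr rfl)
      refine ⟨x, y, ⟨hx, ?_⟩, ⟨hy, ?_⟩, ?_, ?_⟩
      · rintro rfl
        exact hd.nvf1 hxi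
      · rintro rfl
        exact hd.nvf2 hyi
      · rintro rfl
        exact hd.f12 (hd.par x p hx k1 k2 hxi hd.uf1 hyi hd.uf2)
      · intro w hw
        rw [hx', hy']
        constructor
        · rintro ((h1 | h1) | (h1 | h1))
          · exact absurd h1 hw
          · exact Or.inl h1
          · exact absurd h1 hw
          · exact Or.inr h1
        · rintro (h1 | h1)
          · exact Or.inl (Or.inr h1)
          · exact Or.inr (Or.inr h1)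
    by_cases h1 : a = f1
    · obtain ⟨x, y, hx, hy, hxy, hw⟩ := two h
      refine ⟨⟨x, hx⟩, ⟨y, hy⟩, fun h2 => hxy (congrArg Subtype.val h2), fun w => ?_⟩
      have h3 : delInc G u v e f1 f2 g1 g2 w ⟨a, ha1, ha2, ha3⟩ ↔ (G.inc w.1 f1 ∨ G.inc w.1 f2) := by
        constructor
        · rintro ⟨b, hb, hwb⟩
          rcases rr_eq h hb with h4 | ⟨h4, _⟩ | ⟨_, h5⟩
          · left; rw [← h1]; rw [(h4 : b = a)] at hwb; exact hwb
          · right; rw [← h4]; exact hwb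
          · exact absurd (h1.symm.trans h5) h.fg11
        · rintro (h4 | h4)
          · exact ⟨f1, by rw [rr_of_ne h.f12 h.fg12]; exact h1.symm, h4⟩
          · exact ⟨f2, by rw [rr_f2]; exact h1.symm, h4⟩
      rw [h3, hw w.1 w.2.1, Subtype.ext_iff, Subtype.ext_iff]
    · by_cases h2 : a = g1
      · obtain ⟨x, y, hx, hy, hxy, hw⟩ := two h.swap
        refine ⟨⟨x, hx.symm⟩, ⟨y, hy.symm⟩, fun h2 => hxy (congrArg Subtype.val h2), fun w => ?_⟩
        have h3 : delInc G u v e f1 f2 g1 g2 w ⟨a, ha1, ha2, ha3⟩ ↔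
            (G.inc w.1 g1 ∨ G.inc w.1 g2) := by
          constructor
          · rintro ⟨b, hb, hwb⟩
            rcases rr_eq h hb with h4 | ⟨_, h5⟩ | ⟨h4, _⟩
            · left; rw [← h2]; rw [(h4 : b = a)] at hwb; exact hwb
            · exact absurd h5 h1
            · right; rw [← h4]; exact hwb
          · rintro (h4 | h4)
            · exact ⟨g1, by rw [rr_of_ne h.fg21.symm h.g12]; exact h2.symm, h4⟩
            · exact ⟨g2, by rw [rr_g2 h.fg22]; exact h2.symm, h4⟩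
        rw [h3, hw w.1 w.2.2, Subtype.ext_iff, Subtype.ext_iff]
      · obtain ⟨x, y, hxy, hS⟩ := Set.ncard_eq_two.1 (G.two a)
        have hS' : ∀ w, G.inc w a ↔ w = x ∨ w = y := by
          intro w
          have : w ∈ {w | G.inc w a} ↔ w ∈ ({x, y} : Set V) := by rw [hS]
          simpa using this
        have hna : ∀ w, G.inc w a → w ≠ u ∧ w ≠ v := by
          intro w hw
          constructor
          · rintro rfl
            rcases (h.hu a).1 hw with h4 | h4 | h4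
            · exact ha1 h4
            · exact h1 h4
            · exact ha2 h4
          · rintro rfl
            rcases (h.hv a).1 hw with h4 | h4 | h4
            · exact ha1 h4
            · exact h2 h4
            · exact ha3 h4
        refine ⟨⟨x, hna x ((hS' x).2 (Or.inl rfl))⟩, ⟨y, hna y ((hS' y).2 (Or.inr rfl))⟩,
          fun h2 => hxy (congrArg Subtype.val h2), fun w => ?_⟩
        have h3 : delInc G u v e f1 f2 g1 g2 w ⟨a, ha1, ha2, ha3⟩ ↔ G.inc w.1 a := by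
          constructor
          · rintro ⟨b, hb, hwb⟩
            rcases rr_eq h hb with h4 | ⟨_, h5⟩ | ⟨_, h5⟩
            · rw [(h4 : b = a)] at hwb; exact hwb
            · exact absurd h5 h1
            · exact absurd h5 h2
          · intro h4
            exact ⟨a, rr_of_ne ha2 ha3, h4⟩
        rw [h3, hS', Subtype.ext_iff, Subtype.ext_iff]
  obtain ⟨x, y, hxy, hw⟩ := key
  have : {w | delInc G u v e f1 f2 g1 g2 w a} = {x, y} := by
    ext w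
    exact hw w
  rw [this, Set.ncard_pair hxy]

/-- delete `e` and suppress its ends -/
def delG (h : DelData G u v e f1 f2 g1 g2) :
    MGraph {w // w ≠ u ∧ w ≠ v} {a // a ≠ e ∧ a ≠ f2 ∧ a ≠ g2} where
  inc := delInc G u v e f1 f2 g1 g2
  two := del_two h

/-- the edges of `G` which belong to a set of edges of the new graph -/
def liftD (e f1 f2 g1 g2 : E) (D : Set {a // a ≠ e ∧ a ≠ f2 ∧ a ≠ g2}) : Set E :=
  {b | ∃ hb : rr f1 f2 g1 g2 b ≠ e ∧ rr f1 f2 g1 g2 b ≠ f2 ∧ rr f1 f2 g1 g2 b ≠ g2,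
    (⟨rr f1 f2 g1 g2 b, hb⟩ : {a // a ≠ e ∧ a ≠ f2 ∧ a ≠ g2}) ∈ D}

theorem e_notMem_lift (h : DelData G u v e f1 f2 g1 g2)
    (D : Set {a // a ≠ e ∧ a ≠ f2 ∧ a ≠ g2}) : e ∉ liftD e f1 f2 g1 g2 D := by
  rintro ⟨⟨h1, _⟩, _⟩
  exact h1 (rr_of_ne h.ef2 h.eg2)

theorem deg_eq (h : DelData G u v e f1 f2 g1 g2) (D : Set {a // a ≠ e ∧ a ≠ f2 ∧ a ≠ g2})
    (w : {w // w ≠ u ∧ w ≠ v}) : {a | a ∈ D ∧ (delG h).inc w a}.ncard =
      {b | b ∈ liftD e f1 f2 g1 g2 D ∧ G.inc w.1 b}.ncard := by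
  have h1 : Subtype.val '' {a | a ∈ D ∧ (delG h).inc w a} =
      rr f1 f2 g1 g2 '' {b | b ∈ liftD e f1 f2 g1 g2 D ∧ G.inc w.1 b} := by
    ext a
    constructor
    · rintro ⟨a, ⟨haD, b, hb, hwb⟩, rfl⟩
      refine ⟨b, ⟨⟨by rw [hb]; exact a.2, ?_⟩, hwb⟩, hb⟩
      have : (⟨rr f1 f2 g1 g2 b, by rw [hb]; exact a.2⟩ : {a // a ≠ e ∧ a ≠ f2 ∧ a ≠ g2}) = a :=
        Subtype.ext hb
      rw [this]
      exact haD
    · rintro ⟨b, ⟨⟨hb, hD⟩, hwb⟩, rfl⟩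
      exact ⟨⟨_, hb⟩, ⟨hD, b, rfl, hwb⟩, rfl⟩
  rw [← Set.ncard_image_of_injective _ Subtype.val_injective, h1]
  apply Set.InjOn.ncard_image
  rintro b ⟨_, hb⟩ b' ⟨_, hb'⟩ hr
  exact rr_inj h w.2.1 w.2.2 hb hb' hr

theorem del_cubic (hG : G.Cubic) (h : DelData G u v e f1 f2 g1 g2) : (delG h).Cubic := by
  intro w
  have h1 := deg_eq h Set.univ w
  have h2 : {a | a ∈ (Set.univ : Set {a // a ≠ e ∧ a ≠ f2 ∧ a ≠ g2}) ∧ (delG h).inc w a} =
      {a | (delG h).inc w a} := by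
    ext a
    simp
  have h3 : {b | b ∈ liftD e f1 f2 g1 g2 Set.univ ∧ G.inc w.1 b} = {b | G.inc w.1 b} := by
    ext b
    constructor
    · exact fun h => h.2
    · intro hb
      refine ⟨⟨rr_ok h ?_, Set.mem_univ _⟩, hb⟩
      rintro rfl
      obtain ⟨z, hz, hz'⟩ := other_end G h.ue
      have h4 := (hz' v).1 h.ve
      rcases (hz' w.1).1 hb with h5 | h5
      · exact w.2.1 h5
      · rcases h4 with h4 | h4
        · exact h.huv h4.symm
        · exact w.2.2 (h5.trans h4.symm)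
  rw [h2, h3, hG w.1] at h1
  exact h1

theorem pair_even (h : DelData G u v e f1 f2 g1 g2) {D : Set E} (heD : e ∉ D) :
    Even {a | a ∈ D ∧ G.inc u a}.ncard ↔ (f1 ∈ D ↔ f2 ∈ D) := by
  classical
  rw [ncard_star h.ef1 h.ef2 h.f12 h.hu D, if_neg heD]
  by_cases h1 : f1 ∈ D <;> by_cases h2 : f2 ∈ D <;> simp [h1, h2]

theorem lift_even (h : DelData G u v e f1 f2 g1 g2) {D : Set {a // a ≠ e ∧ a ≠ f2 ∧ a ≠ g2}}
    (hD : (delG h).IsEven D) : G.IsEven (liftD e f1 f2 g1 g2 D) := by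
  intro w
  by_cases hwu : w = u
  · rw [hwu, pair_even h (e_notMem_lift h D)]
    unfold liftD
    simp only [Set.mem_ofPred_eq, rr_f2, rr_of_ne h.f12 h.fg12]
  · by_cases hwv : w = v
    · rw [hwv, pair_even h.swap (e_notMem_lift h D)]
      unfold liftD
      simp only [Set.mem_ofPred_eq, rr_g2 h.fg22, rr_of_ne h.fg21.symm h.g12]
    · rw [← deg_eq h D ⟨w, hwu, hwv⟩]
      exact hD _

theorem lift_restrict (h : DelData G u v e f1 f2 g1 g2) {D : Set E} (heD : e ∉ D)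
    (hD : G.IsEven D) : liftD e f1 f2 g1 g2 {a | a.1 ∈ D} = D := by
  have hf := (pair_even h heD).1 (hD u)
  have hg := (pair_even h.swap heD).1 (hD v)
  ext b
  constructor
  · rintro ⟨hb, hbD⟩
    have hbD' : rr f1 f2 g1 g2 b ∈ D := hbD
    rcases rr_eq h (rfl : rr f1 f2 g1 g2 b = _) with h1 | ⟨h1, h2⟩ | ⟨h1, h2⟩
    · rw [h1]; exact hbD'
    · rw [h1]
      rw [h2] at hbD'
      exact hf.1 hbD'
    · rw [h1]
      rw [h2] at hbD'
      exact hg.1 hbD'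
  · intro hb
    have hbe : b ≠ e := by
      rintro rfl
      exact heD hb
    refine ⟨rr_ok h hbe, ?_⟩
    show rr f1 f2 g1 g2 b ∈ D
    by_cases h1 : b = f2
    · rw [h1, rr_f2]
      exact hf.2 (h1 ▸ hb)
    · by_cases h2 : b = g2
      · rw [h2, rr_g2 h.fg22]
        exact hg.2 (h2 ▸ hb)
      · rw [rr_of_ne h1 h2]
        exact hb

theorem restrict_even (h : DelData G u v e f1 f2 g1 g2) {D : Set E} (heD : e ∉ D)
    (hD : G.IsEven D) : (delG h).IsEven {a | a.1 ∈ D} := by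
  intro w
  rw [deg_eq h, lift_restrict h heD hD]
  exact hD w.1

theorem lift_mono {D D' : Set {a // a ≠ e ∧ a ≠ f2 ∧ a ≠ g2}}
    (hDD : D ⊆ D') : liftD e f1 f2 g1 g2 D ⊆ liftD e f1 f2 g1 g2 D' := by
  rintro b ⟨hb, h1⟩
  exact ⟨hb, hDD h1⟩

/-- an edge of the new graph as an edge of the old graph -/
theorem mem_lift {D : Set {a // a ≠ e ∧ a ≠ f2 ∧ a ≠ g2}}
    (a : {a // a ≠ e ∧ a ≠ f2 ∧ a ≠ g2}) : a.1 ∈ liftD e f1 f2 g1 g2 D ↔ a ∈ D := by
  have h1 : rr f1 f2 g1 g2 a.1 = a.1 := rr_of_ne a.2.2.1 a.2.2.2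
  constructor
  · rintro ⟨hb, h2⟩
    have : (⟨rr f1 f2 g1 g2 a.1, hb⟩ : {a // a ≠ e ∧ a ≠ f2 ∧ a ≠ g2}) = a := Subtype.ext h1
    rwa [this] at h2
  · intro h2
    refine ⟨by rw [h1]; exact a.2, ?_⟩
    have : (⟨rr f1 f2 g1 g2 a.1, by rw [h1]; exact a.2⟩ : {a // a ≠ e ∧ a ≠ f2 ∧ a ≠ g2}) = a :=
      Subtype.ext h1
    rw [this]
    exact h2

theorem lift_minEven (h : DelData G u v e f1 f2 g1 g2)
    {C : Set {a // a ≠ e ∧ a ≠ f2 ∧ a ≠ g2}} (hC : (delG h).MinEven C) :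
    G.MinEven (liftD e f1 f2 g1 g2 C) := by
  refine ⟨lift_even h hC.1, ?_, ?_⟩
  · obtain ⟨a, ha⟩ := hC.2.1
    exact ⟨a.1, (mem_lift a).2 ha⟩
  · intro D hDC hD hne
    have heD : e ∉ D := fun h1 => e_notMem_lift h C (hDC h1)
    have h1 := lift_restrict h heD hD
    have h2 : ({a | a.1 ∈ D} : Set {a // a ≠ e ∧ a ≠ f2 ∧ a ≠ g2}) ⊆ C := by
      intro a ha
      exact (mem_lift a).1 (hDC ha)
    have h3 : ({a | a.1 ∈ D} : Set {a // a ≠ e ∧ a ≠ f2 ∧ a ≠ g2}).Nonempty := by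
      obtain ⟨b, hb⟩ := hne
      rw [← h1] at hb
      obtain ⟨hb, h4⟩ := hb
      exact ⟨_, h4⟩
    have h4 := hC.2.2 _ h2 (restrict_even h heD hD) h3
    rw [← h1, h4]

theorem lift_verts (h : DelData G u v e f1 f2 g1 g2)
    {C : Set {a // a ≠ e ∧ a ≠ f2 ∧ a ≠ g2}} {w : {w // w ≠ u ∧ w ≠ v}}
    (hw : w ∈ (delG h).verts C) : w.1 ∈ G.verts (liftD e f1 f2 g1 g2 C) := by
  obtain ⟨a, ha, b, hb, hwb⟩ := hw
  refine ⟨b, ⟨by rw [hb]; exact a.2, ?_⟩, hwb⟩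
  have : (⟨rr f1 f2 g1 g2 b, by rw [hb]; exact a.2⟩ : {a // a ≠ e ∧ a ≠ f2 ∧ a ≠ g2}) = a :=
    Subtype.ext hb
  rw [this]
  exact ha

/-- three-edge-connectivity is preserved if `e` lies in no cut with three edges and two vertices on
both sides -/
theorem del_TEC [Finite V] [Finite E] (h : DelData G u v e f1 f2 g1 g2) (h3 : G.TEC)
    (ht : ∀ S, G.Tight S → e ∉ G.cut S) : (delG h).TEC := by
  classical
  intro S' hS' hSc'
  obtain ⟨x1, hx1, hx1'⟩ := other_end G h.uf1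
  obtain ⟨y1, hy1, hy1'⟩ := other_end G h.vg1
  have hx1v : x1 ≠ v := by
    rintro rfl
    exact h.nvf1 ((hx1' _).2 (Or.inr rfl))
  have hy1u : y1 ≠ u := by
    rintro rfl
    exact h.nug1 ((hy1' _).2 (Or.inr rfl))
  -- the vertex set in `G`
  let S : Set V := {w | if hw : w ≠ u ∧ w ≠ v then (⟨w, hw⟩ : {w // w ≠ u ∧ w ≠ v}) ∈ S' else
    if w = u then (⟨x1, hx1, hx1v⟩ : {w // w ≠ u ∧ w ≠ v}) ∈ S'
    else (⟨y1, hy1u, hy1⟩ : {w // w ≠ u ∧ w ≠ v}) ∈ S'}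
  have hSin : ∀ w : {w // w ≠ u ∧ w ≠ v}, w.1 ∈ S ↔ w ∈ S' := by
    intro w
    show (if hw : w.1 ≠ u ∧ w.1 ≠ v then (⟨w.1, hw⟩ : {w // w ≠ u ∧ w ≠ v}) ∈ S' else _) ↔ _
    rw [dif_pos w.2]
  have hSu : u ∈ S ↔ x1 ∈ S := by
    have h1 : x1 ∈ S ↔ (⟨x1, hx1, hx1v⟩ : {w // w ≠ u ∧ w ≠ v}) ∈ S' := hSin ⟨x1, hx1, hx1v⟩
    rw [h1]
    show (if hw : u ≠ u ∧ u ≠ v then (⟨u, hw⟩ : {w // w ≠ u ∧ w ≠ v}) ∈ S' else _) ↔ _
    rw [dif_neg (by simp), if_pos rfl]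
  have hSv : v ∈ S ↔ y1 ∈ S := by
    have h1 : y1 ∈ S ↔ (⟨y1, hy1u, hy1⟩ : {w // w ≠ u ∧ w ≠ v}) ∈ S' := hSin ⟨y1, hy1u, hy1⟩
    rw [h1]
    show (if hw : v ≠ u ∧ v ≠ v then (⟨v, hw⟩ : {w // w ≠ u ∧ w ≠ v}) ∈ S' else _) ↔ _
    rw [dif_neg (by simp), if_neg h.huv.symm]
  have hf1 : f1 ∉ G.cut S := by
    rintro ⟨⟨p, hp, hpf⟩, q, hq, hqf⟩
    rcases (hx1' p).1 hpf with rfl | rfl <;> rcases (hx1' q).1 hqf with rfl | rfl
    · exact hq hp
    · exact hq (hSu.1 hp)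
    · exact hq (hSu.2 hp)
    · exact hq hp
  have hg1 : g1 ∉ G.cut S := by
    rintro ⟨⟨p, hp, hpf⟩, q, hq, hqf⟩
    rcases (hy1' p).1 hpf with rfl | rfl <;> rcases (hy1' q).1 hqf with rfl | rfl
    · exact hq hp
    · exact hq (hSv.1 hp)
    · exact hq (hSv.2 hp)
    · exact hq hp
  -- the map of cuts
  have hmap : ∀ b, b ∈ G.cut S → b ≠ e → ∃ hb : rr f1 f2 g1 g2 b ≠ e ∧ rr f1 f2 g1 g2 b ≠ f2 ∧
      rr f1 f2 g1 g2 b ≠ g2, (⟨rr f1 f2 g1 g2 b, hb⟩ : {a // a ≠ e ∧ a ≠ f2 ∧ a ≠ g2}) ∈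
        (delG h).cut S' := by
    intro b hb hbe
    refine ⟨rr_ok h hbe, ?_⟩
    -- an end of `b` (or of `f1`, `g1`) in the new graph on the same side
    have side : ∀ p, G.inc p b → ∃ q : {w // w ≠ u ∧ w ≠ v}, (q.1 ∈ S ↔ p ∈ S) ∧
        ∃ b', rr f1 f2 g1 g2 b' = rr f1 f2 g1 g2 b ∧ G.inc q.1 b' := by
      intro p hp
      by_cases hpu : p = u
      · subst hpu
        rcases (h.hu b).1 hp with h1 | h1 | h1
        · exact absurd h1 hbe
        · exact absurd (h1 ▸ hb) hf1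
        · exact ⟨⟨x1, hx1, hx1v⟩, hSu.symm, f1,
            by rw [h1, rr_f2, rr_of_ne h.f12 h.fg12], (hx1' _).2 (Or.inr rfl)⟩
      · by_cases hpv : p = v
        · subst hpv
          rcases (h.hv b).1 hp with h1 | h1 | h1
          · exact absurd h1 hbe
          · exact absurd (h1 ▸ hb) hg1
          · exact ⟨⟨y1, hy1u, hy1⟩, hSv.symm, g1,
              by rw [h1, rr_g2 h.fg22, rr_of_ne h.fg21.symm h.g12], (hy1' _).2 (Or.inr rfl)⟩
        · exact ⟨⟨p, hpu, hpv⟩, Iff.rfl, b, rfl, hp⟩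
    obtain ⟨⟨p, hp, hpb⟩, q, hq, hqb⟩ := hb
    obtain ⟨p', hp', b1, hb1, hb1'⟩ := side p hpb
    obtain ⟨q', hq', b2, hb2, hb2'⟩ := side q hqb
    exact ⟨⟨p', (hSin p').1 (hp'.2 hp), b1, hb1, hb1'⟩, q',
      fun h1 => hq (hq'.1 ((hSin q').2 h1)), b2, hb2, hb2'⟩
  have hcard : (G.cut S \ {e}).ncard ≤ ((delG h).cut S').ncard := by
    have h1 : rr f1 f2 g1 g2 '' (G.cut S \ {e}) ⊆ Subtype.val '' (delG h).cut S' := by
      rintro _ ⟨b, ⟨hb, hbe⟩, rfl⟩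
      obtain ⟨h1, h2⟩ := hmap b hb hbe
      exact ⟨⟨_, h1⟩, h2, rfl⟩
    have h2 : Set.InjOn (rr f1 f2 g1 g2) (G.cut S \ {e}) := by
      rintro b ⟨hb, _⟩ b' ⟨hb', _⟩ hr
      have hbf : b ≠ f1 := fun h1 => hf1 (h1 ▸ hb)
      have hbg : b ≠ g1 := fun h1 => hg1 (h1 ▸ hb)
      have hbf' : b' ≠ f1 := fun h1 => hf1 (h1 ▸ hb')
      have hbg' : b' ≠ g1 := fun h1 => hg1 (h1 ▸ hb')
      rcases rr_eq h hr with h1 | ⟨h1, h2⟩ | ⟨h1, h2⟩
      · rcases rr_eq h h1.symm with h4 | ⟨_, h4⟩ | ⟨_, h4⟩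
        · exact h4.symm
        · exact absurd h4 hbf
        · exact absurd h4 hbg
      · rcases rr_eq h h2 with h4 | ⟨h4, _⟩ | ⟨_, h4⟩
        · exact absurd h4 hbf'
        · rw [h1, h4]
        · exact absurd h4 h.fg11
      · rcases rr_eq h h2 with h4 | ⟨_, h4⟩ | ⟨h4, _⟩
        · exact absurd h4 hbg'
        · exact absurd h4.symm h.fg11
        · rw [h1, h4]
    rw [← h2.ncard_image, ← Set.ncard_image_of_injective _ Subtype.val_injective]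
    exact Set.ncard_le_ncard h1 (Set.toFinite _)
  obtain ⟨p, hp⟩ := hS'
  obtain ⟨q, hq⟩ := hSc'
  have hpS : p.1 ∈ S := (hSin p).2 hp
  have hqS : q.1 ∉ S := fun h1 => hq ((hSin q).1 h1)
  have hS3 := h3 S ⟨p.1, hpS⟩ ⟨q.1, hqS⟩
  by_cases he : e ∈ G.cut S
  · have h4 : 4 ≤ (G.cut S).ncard := by
      by_contra hcon
      refine ht S ⟨by omega, ?_, ?_⟩ he
      · obtain ⟨⟨a, ha, hae⟩, _⟩ := he
        have hap : a ≠ p.1 := by
          rintro rfl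
          obtain ⟨z, hz, hz'⟩ := other_end G h.ue
          have h4 := (hz' v).1 h.ve
          rcases (hz' p.1).1 hae with h5 | h5
          · exact p.2.1 h5
          · rcases h4 with h4 | h4
            · exact h.huv h4.symm
            · exact p.2.2 (h5.trans h4.symm)
        have : ({a, p.1} : Set V) ⊆ S := by
          rintro z (rfl | rfl)
          · exact ha
          · exact hpS
        have h5 := Set.ncard_le_ncard this (Set.toFinite _)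
        rwa [Set.ncard_pair hap] at h5
      · obtain ⟨_, a, ha, hae⟩ := he
        have hap : a ≠ q.1 := by
          rintro rfl
          obtain ⟨z, hz, hz'⟩ := other_end G h.ue
          have h4 := (hz' v).1 h.ve
          rcases (hz' q.1).1 hae with h5 | h5
          · exact q.2.1 h5
          · rcases h4 with h4 | h4
            · exact h.huv h4.symm
            · exact q.2.2 (h5.trans h4.symm)
        have : ({a, q.1} : Set V) ⊆ Sᶜ := by
          rintro z (rfl | rfl)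
          · exact ha
          · exact hqS
        have h5 := Set.ncard_le_ncard this (Set.toFinite _)
        rwa [Set.ncard_pair hap] at h5
    rw [Set.ncard_sdiff_singleton_of_mem he] at hcard
    omega
  · rw [Set.sdiff_singleton_eq_self he] at hcard
    omega

end

end Pool.Agent.CDC
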