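import Pool.Agent.CDC.NSimple

/-!
# Hamiltonian circuits in graphs with at most six vertices
-/

set_option autoImplicit false

namespace Pool.Agent.CDC

variable {V E : Type} {G : MGraph V E}

theorem ham2 [Finite V] [Finite E] (hG : G.Cubic) (hn : Nat.card V = 2) {b : V} {e : E}
    (hbe : G.inc b e) : ∃ C, G.MinEven C ∧ e ∉ C ∧ ∀ w, w ∈ G.verts C := by
  classical
  obtain ⟨w, hwb, hw⟩ := other_end G hbe
  have hall : ∀ z, z = b ∨ z = w := by
    intro z
    have h1 : ({b, w} : Set V) = Set.univ := by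
      apply Set.eq_of_subset_of_ncard_le (Set.subset_univ _) _ (Set.toFinite _)
      rw [Set.ncard_univ, hn, Set.ncard_pair hwb.symm]
    have h2 : z ∈ ({b, w} : Set V) := by rw [h1]; trivial
    simpa using h2
  have hinc : ∀ z a, G.inc z a := by
    intro z a
    obtain ⟨x, y, hxy, hE⟩ := Set.ncard_eq_two.1 (G.two a)
    have hx : G.inc x a := by
      have : x ∈ {w | G.inc w a} := by rw [hE]; simp
      exact this
    have hy : G.inc y a := by
      have : y ∈ {w | G.inc w a} := by rw [hE]; simp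
      exact this
    rcases hall z with rfl | rfl
    · rcases hall x with rfl | rfl
      · exact hx
      · rcases hall y with rfl | rfl
        · exact hy
        · exact absurd rfl hxy
    · rcases hall x with rfl | rfl
      · rcases hall y with rfl | rfl
        · exact absurd rfl hxy
        · exact hy
      · exact hx
  obtain ⟨f, g, hef, heg, hfg, hs⟩ := star_off' hG b hbe
  have hC : G.IsCircuit ({f, g} : Set E) := by
    refine ⟨0, ![b, w], ![f, g], ?_, ?_, ?_, ?_⟩
    · intro i j hij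
      fin_cases i <;> fin_cases j <;> simp_all
    · intro i j hij
      fin_cases i <;> fin_cases j <;> simp_all
    · intro i z
      fin_cases i
      · exact ⟨fun _ => hall z, fun _ => hinc _ _⟩
      · exact ⟨fun _ => (hall z).symm, fun _ => hinc _ _⟩
    · ext x
      constructor
      · rintro ⟨i, rfl⟩
        fin_cases i <;> simp
      · rintro (rfl | rfl)
        · exact ⟨0, rfl⟩
        · exact ⟨1, rfl⟩
  refine ⟨{f, g}, isCircuit_minEven hC, ?_, fun z => ⟨f, by simp, hinc _ _⟩⟩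
  rintro (h | h)
  · exact hef h
  · exact heg h

theorem ham4 [Finite V] [Finite E] (hG : G.Cubic) (h3 : G.TEC) (hn : Nat.card V = 4)
    {b : V} {e : E} (hbe : G.inc b e) :
    ∃ C, G.MinEven C ∧ e ∉ C ∧ ∀ w, w ∈ G.verts C := by
  classical
  obtain ⟨w, hwb, hw⟩ := other_end G hbe
  have h0 := Set.ncard_add_ncard_compl ({b, w} : Set V)
  rw [Set.ncard_pair hwb.symm, hn] at h0
  obtain ⟨p, q, hpq, hc⟩ := Set.ncard_eq_two.1 (show ({b, w} : Set V)ᶜ.ncard = 2 by omega)
  have hp : p ∈ ({b, w} : Set V)ᶜ := by rw [hc]; simp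
  have hq : q ∈ ({b, w} : Set V)ᶜ := by rw [hc]; simp
  simp only [Set.mem_compl_iff, Set.mem_insert_iff, Set.mem_singleton_iff, not_or] at hp hq
  have hV : ∃ a b c : V, a ≠ b ∧ a ≠ c ∧ b ≠ c := ⟨b, w, p, hwb.symm, fun h => hp.1 h.symm,
    fun h => hp.2 h.symm⟩
  have hall : ∀ z, z = b ∨ z = w ∨ z = p ∨ z = q := by
    intro z
    by_cases hz : z ∈ ({b, w} : Set V)
    · rcases hz with h | h
      · exact Or.inl h
      · exact Or.inr (Or.inl h)
    · have : z ∈ ({p, q} : Set V) := by rw [← hc]; exact hz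
      rcases this with h | h
      · exact Or.inr (Or.inr (Or.inl h))
      · exact Or.inr (Or.inr (Or.inr h))
  have hnb : ∀ x y, x ≠ y → nb G x y := by
    intro x y hxy
    have h1 : {y | nb G x y} = ({x} : Set V)ᶜ := by
      apply Set.eq_of_subset_of_ncard_le _ _ (Set.toFinite _)
      · intro z hz
        have : x ≠ z := hz.1
        simpa using this.symm
      · rw [nb_ncard hG h3 hV]
        have h2 := Set.ncard_add_ncard_compl ({x} : Set V)
        rw [Set.ncard_singleton, hn] at h2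
        omega
    have h2 : y ∈ {y | nb G x y} := by
      rw [h1]
      simpa using hxy.symm
    exact h2
  obtain ⟨C, hC, hv, hCe⟩ := circuit_of_cycle (G := G) (m := 2) (by norm_num) ![b, p, w, q] (by
    intro i j hij
    fin_cases i <;> fin_cases j <;> first | rfl | (exfalso; simp_all)) (by
    intro i
    apply hnb
    fin_cases i
    · exact fun h => hp.1 h.symm
    · exact hp.2
    · exact fun h => hq.2 h.symm
    · exact hq.1)
  refine ⟨C, isCircuit_minEven hC, ?_, ?_⟩
  · intro he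
    obtain ⟨i, h1, h2⟩ := hCe e he
    rw [hw] at h1 h2
    fin_cases i
    · rcases h2 with h | h
      · exact hp.1 h
      · exact hp.2 h
    · rcases h1 with h | h
      · exact hp.1 h
      · exact hp.2 h
    · rcases h2 with h | h
      · exact hq.1 h
      · exact hq.2 h
    · rcases h1 with h | h
      · exact hq.1 h
      · exact hq.2 h
  · intro z
    rcases hall z with rfl | rfl | rfl | rfl
    · exact hv 0
    · exact hv 2
    · exact hv 1
    · exact hv 3

theorem ham6' [Finite V] [Finite E] (hG : G.Cubic) (h3 : G.TEC) (ht : ∀ S, ¬ G.Tight S)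
    (hn : Nat.card V = 6) {b : V} {e : E} (hbe : G.inc b e) :
    ∃ C, G.MinEven C ∧ e ∉ C ∧ ∀ w, w ∈ G.verts C := by
  classical
  obtain ⟨y1, hy1b, hw⟩ := other_end G hbe
  have hV : ∃ a b c : V, a ≠ b ∧ a ≠ c ∧ b ≠ c := by
    have h0 := Set.ncard_add_ncard_compl ({b, y1} : Set V)
    rw [Set.ncard_pair hy1b.symm, hn] at h0
    obtain ⟨p, hp⟩ : ({b, y1} : Set V)ᶜ.Nonempty :=
      Set.nonempty_of_ncard_ne_zero (by omega)
    simp only [Set.mem_compl_iff, Set.mem_insert_iff, Set.mem_singleton_iff, not_or] at hp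
    exact ⟨b, y1, p, hy1b.symm, fun h => hp.1 h.symm, fun h => hp.2 h.symm⟩
  have hb1 : nb G b y1 := ⟨hy1b.symm, e, hbe, (hw y1).2 (Or.inr rfl)⟩
  obtain ⟨y2, y3, h12, h13, h23, hN⟩ : ∃ y2 y3, y1 ≠ y2 ∧ y1 ≠ y3 ∧ y2 ≠ y3 ∧
      ∀ z, nb G b z ↔ z = y1 ∨ z = y2 ∨ z = y3 := by
    have h1 := nb_ncard hG h3 hV b
    obtain ⟨p, q, r, hpq, hpr, hqr, hset⟩ := Set.ncard_eq_three.1 h1
    have h2 : ∀ z, nb G b z ↔ z = p ∨ z = q ∨ z = r := by
      intro z
      have : z ∈ {y | nb G b y} ↔ z ∈ ({p, q, r} : Set V) := by rw [hset]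
      simpa using this
    rcases (h2 y1).1 hb1 with rfl | rfl | rfl
    · exact ⟨q, r, hpq, hpr, hqr, h2⟩
    · exact ⟨p, r, hpq.symm, hqr, hpr, fun z => by rw [h2]; tauto⟩
    · exact ⟨p, q, hpr.symm, hqr.symm, hpq, fun z => by rw [h2]; tauto⟩
  have hb2 : nb G b y2 := (hN y2).2 (by simp)
  have hb3 : nb G b y3 := (hN y3).2 (by simp)
  have n12 : ¬ nb G y1 y2 := fun h => no_triangle hG h3 ht (by omega) hb1 hb2 h
  have n13 : ¬ nb G y1 y3 := fun h => no_triangle hG h3 ht (by omega) hb1 hb3 h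
  have n23 : ¬ nb G y2 y3 := fun h => no_triangle hG h3 ht (by omega) hb2 hb3 h
  have hcY : ({y1, y2, y3} : Set V).ncard = 3 :=
    Set.ncard_eq_three.2 ⟨y1, y2, y3, h12, h13, h23, rfl⟩
  have hcomp : ({y1, y2, y3} : Set V)ᶜ.ncard = 3 := by
    have := Set.ncard_add_ncard_compl ({y1, y2, y3} : Set V)
    omega
  have hbc : b ∈ ({y1, y2, y3} : Set V)ᶜ := by
    simp only [Set.mem_compl_iff, Set.mem_insert_iff, Set.mem_singleton_iff, not_or]
    exact ⟨hb1.1, hb2.1, hb3.1⟩
  obtain ⟨x1, x2, hbx1, hbx2, hx12, hall'⟩ : ∃ x1 x2, b ≠ x1 ∧ b ≠ x2 ∧ x1 ≠ x2 ∧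
      ∀ z, z ∈ ({y1, y2, y3} : Set V)ᶜ ↔ z = b ∨ z = x1 ∨ z = x2 := by
    obtain ⟨p, q, r, hpq, hpr, hqr, hset⟩ := Set.ncard_eq_three.1 hcomp
    have h2 : ∀ z, z ∈ ({y1, y2, y3} : Set V)ᶜ ↔ z = p ∨ z = q ∨ z = r := by
      intro z
      rw [hset]
      simp
    rcases (h2 b).1 hbc with rfl | rfl | rfl
    · exact ⟨q, r, hpq, hpr, hqr, h2⟩
    · exact ⟨p, r, hpq.symm, hqr, hpr, fun z => by rw [h2]; tauto⟩
    · exact ⟨p, q, hpr.symm, hqr.symm, hpq, fun z => by rw [h2]; tauto⟩
  have hx1 : x1 ∈ ({y1, y2, y3} : Set V)ᶜ := (hall' x1).2 (by simp)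
  have hx2 : x2 ∈ ({y1, y2, y3} : Set V)ᶜ := (hall' x2).2 (by simp)
  simp only [Set.mem_compl_iff, Set.mem_insert_iff, Set.mem_singleton_iff, not_or] at hx1 hx2 hbc
  have key : ∀ y, (y = y1 ∨ y = y2 ∨ y = y3) → ∀ x, (x = b ∨ x = x1 ∨ x = x2) → nb G y x := by
    intro y hy
    have h1 : {z | nb G y z} = ({y1, y2, y3} : Set V)ᶜ := by
      apply Set.eq_of_subset_of_ncard_le _ _ (Set.toFinite _)
      · intro z hz hz'
        have hz1 : nb G y z := hz
        rcases hy with rfl | rfl | rfl <;> rcases hz' with rfl | rfl | rfl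
        · exact hz1.1 rfl
        · exact n12 hz1
        · exact n13 hz1
        · exact n12 (nb_symm hz1)
        · exact hz1.1 rfl
        · exact n23 hz1
        · exact n13 (nb_symm hz1)
        · exact n23 (nb_symm hz1)
        · exact hz1.1 rfl
      · rw [nb_ncard hG h3 hV, hcomp]
    intro x hx
    have h2 : x ∈ {z | nb G y z} := by
      rw [h1, hall']
      exact hx
    exact h2
  have hall : ∀ z, z = b ∨ z = x1 ∨ z = x2 ∨ z = y1 ∨ z = y2 ∨ z = y3 := by
    intro z
    by_cases hz : z ∈ ({y1, y2, y3} : Set V)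
    · rcases hz with h | h | h
      · simp [h]
      · simp [h]
      · have h' : z = y3 := h
        simp [h']
    · rcases (hall' z).1 hz with h | h | h
      · simp [h]
      · simp [h]
      · simp [h]
  obtain ⟨C, hC, hv, hCe⟩ := circuit_of_cycle (G := G) (m := 4) (by norm_num)
    ![b, y2, x1, y1, x2, y3] (by
    intro i j hij
    have a1 := hb1.1
    have a2 := hb2.1
    have a3 := hb3.1
    obtain ⟨c1, c2, c3⟩ := hx1
    obtain ⟨d1, d2, d3⟩ := hx2
    fin_cases i <;> fin_cases j <;> first | rfl | (exfalso; simp at hij; first | exact a1 hij | exact a2 hij | exact a3 hij | exact c1 hij | exact c2 hij | exact c3 hij | exact d1 hij | exact d2 hij | exact d3 hij | exact hx12 hij | exact h12 hij | exact h13 hij | exact h23 hij | exact hbx1 hij | exact hbx2 hij | exact a1 hij.symm | exact a2 hij.symm | exact a3 hij.symm | exact c1 hij.symm | exact c2 hij.symm | exact c3 hij.symm | exact d1 hij.symm | exact d2 hij.symm | exact d3 hij.symm | exact hx12 hij.symm | exact h12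 hij.symm | exact h13 hij.symm | exact h23 hij.symm | exact hbx1 hij.symm | exact hbx2 hij.symm)) (by
    intro i
    fin_cases i
    · exact hb2
    · exact key y2 (by simp) x1 (by simp)
    · exact nb_symm (key y1 (by simp) x1 (by simp))
    · exact key y1 (by simp) x2 (by simp)
    · exact nb_symm (key y3 (by simp) x2 (by simp))
    · exact nb_symm hb3)
  refine ⟨C, isCircuit_minEven hC, ?_, ?_⟩
  · intro he
    obtain ⟨i, h1, h2⟩ := hCe e he
    rw [hw] at h1 h2
    fin_cases i
    · rcases h2 with h | h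
      · exact hb2.1 h.symm
      · exact h12 h.symm
    · rcases h1 with h | h
      · exact hb2.1 h.symm
      · exact h12 h.symm
    · rcases h1 with h | h
      · exact hbx1 h.symm
      · exact hx1.1 h
    · rcases h2 with h | h
      · exact hbx2 h.symm
      · exact hx2.1 h
    · rcases h1 with h | h
      · exact hbx2 h.symm
      · exact hx2.1 h
    · rcases h1 with h | h
      · exact hb3.1 h.symm
      · exact h13 h.symm
  · intro z
    rcases hall z with rfl | rfl | rfl | rfl | rfl | rfl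
    · exact hv 0
    · exact hv 2
    · exact hv 4
    · exact hv 3
    · exact hv 1
    · exact hv 5

/-- Hamiltonian circuits which avoid a given edge in graphs with at most six vertices -/
theorem ham6 [Finite V] [Finite E] (hG : G.Cubic) (h3 : G.TEC) (ht : ∀ S, ¬ G.Tight S)
    (hn : Nat.card V ≤ 7) {b : V} {e : E} (hbe : G.inc b e) :
    ∃ C, G.MinEven C ∧ e ∉ C ∧ ∀ w, w ∈ G.verts C := by
  have h1 := card_edges hG
  have h2 : Nat.card V ≠ 0 := by
    rw [Nat.card_ne_zero]
    exact ⟨⟨b⟩, inferInstance⟩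
  have h5 : Nat.card V = 2 ∨ Nat.card V = 4 ∨ Nat.card V = 6 := by omega
  rcases h5 with h | h | h
  · exact ham2 hG h hbe
  · exact ham4 hG h3 h hbe
  · exact ham6' hG h3 ht h hbe

end Pool.Agent.CDC
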