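import Pool.Agent.CDC.NDel
import Pool.Agent.CDC.NCon

/-!
# Circuits through given vertices: the induction
-/

set_option autoImplicit false

namespace Pool.Agent.CDC

variable {V E : Type} {G : MGraph V E}

/-- for every incident pair `b`, `e` and every set of at most `j` vertices there is a circuit
through `b` and all these vertices which avoids `e` -/
def AStm (j : ℕ) (G : MGraph V E) : Prop :=
  ∀ (b : V) (e : E), G.inc b e → ∀ X : Set V, X.ncard ≤ j →
    ∃ C, G.MinEven C ∧ e ∉ C ∧ b ∈ G.verts C ∧ X ⊆ G.verts C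

/-- every set of at most `k` vertices lies on a circuit -/
def PStm (k : ℕ) (G : MGraph V E) : Prop :=
  ∀ X : Set V, X.ncard ≤ k → ∃ C, G.MinEven C ∧ X ⊆ G.verts C

/-- the base problem for `AStm` -/
def ABase (j : ℕ) : Prop :=
  ∀ (V E : Type) [Finite V] [Finite E] (G : MGraph V E), G.Cubic → G.TEC → (∀ S, ¬ G.Tight S) →
    ∀ (b : V) (e : E), G.inc b e → ∀ X : Set V, X.ncard ≤ j →
      (∀ a, ∃ w, G.inc w a ∧ (w = b ∨ w ∈ X)) →
      ∃ C, G.MinEven C ∧ e ∉ C ∧ b ∈ G.verts C ∧ X ⊆ G.verts C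

/-- the base problem for `PStm` -/
def PBase (k : ℕ) : Prop :=
  ∀ (V E : Type) [Finite V] [Finite E] [Nonempty V] (G : MGraph V E), G.Cubic → G.TEC →
    (∀ S, ¬ G.Tight S) → ∀ X : Set V, X.ncard ≤ k → (∀ a, ∃ w, G.inc w a ∧ w ∈ X) →
      ∃ C, G.MinEven C ∧ X ⊆ G.verts C

/-- the data for the deletion of an edge -/
theorem exists_delData [Finite E] (hG : G.Cubic) (h3 : G.TEC) {u v x : V} {a : E} (huv : u ≠ v)
    (hux : u ≠ x) (hvx : v ≠ x) (hu : G.inc u a) (hv : G.inc v a) :
    ∃ f1 f2 g1 g2, DelData G u v a f1 f2 g1 g2 := by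
  obtain ⟨f1, f2, h1, h2, h4, h5⟩ := star_off' hG u hu
  obtain ⟨g1, g2, k1, k2, k4, k5⟩ := star_off' hG v hv
  exact ⟨f1, f2, g1, g2, huv, h5, k5, h1, h2, h4, k1, k2, k4,
    fun p q hpq c d h6 h7 h8 h9 => no_parallel hG h3 ⟨u, v, x, huv, hux, hvx⟩ hpq h6 h7 h8 h9⟩

/-- the vertices of `G / Sᶜ` to be visited -/
def conX (S X : Set V) : Set (ConV S) :=
  {w | (∃ x : {w : V // w ∈ S}, w = some x ∧ x.1 ∈ X) ∨ (w = none ∧ (X ∩ Sᶜ).Nonempty)}

theorem conX_card [Finite V] (S X : Set V) : (conX S X).ncard ≤ X.ncard := by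
  classical
  have h0 : ((some '' {x : {w : V // w ∈ S} | x.1 ∈ X} : Set (ConV S))).ncard = (X ∩ S).ncard := by
    rw [Set.ncard_image_of_injective _ (Option.some_injective _),
      ← Set.ncard_image_of_injective _ Subtype.val_injective]
    congr 1
    ext x
    constructor
    · rintro ⟨y, hy, rfl⟩
      exact ⟨hy, y.2⟩
    · rintro ⟨h1, h2⟩
      exact ⟨⟨x, h2⟩, h1, rfl⟩
  have h1 := Set.ncard_inter_add_ncard_sdiff_eq_ncard X S (Set.toFinite _)
  rcases (X ∩ Sᶜ).eq_empty_or_nonempty with h2 | h2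
  · have h3 : conX S X = some '' {x : {w : V // w ∈ S} | x.1 ∈ X} := by
      ext w
      constructor
      · rintro (⟨x, rfl, hx⟩ | ⟨_, h⟩)
        · exact ⟨x, hx, rfl⟩
        · rw [h2] at h
          exact absurd h (by simp)
      · rintro ⟨x, hx, rfl⟩
        exact Or.inl ⟨x, rfl, hx⟩
    rw [h3, h0]
    omega
  · have h3 : conX S X ⊆ insert none (some '' {x : {w : V // w ∈ S} | x.1 ∈ X}) := by
      rintro w (⟨x, rfl, hx⟩ | ⟨rfl, _⟩)
      · exact Or.inr ⟨x, hx, rfl⟩
      · exact Or.inl rfl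
    have h4 := Set.ncard_le_ncard h3 (Set.toFinite _)
    have h5 := Set.ncard_insert_le none (some '' {x : {w : V // w ∈ S} | x.1 ∈ X})
    have h6 : 1 ≤ (X \ S).ncard := by
      exact (Set.ncard_pos (Set.toFinite _)).2 h2
    rw [h0] at h5
    omega

theorem conX_some {S X : Set V} {x : V} (hx : x ∈ S) (hxX : x ∈ X) :
    (some ⟨x, hx⟩ : ConV S) ∈ conX S X := Or.inl ⟨⟨x, hx⟩, rfl, hxX⟩

theorem con_verts {S : Set V} {C : Set (ConE G S)} {x : V} (hx : x ∈ S)
    (h : (some ⟨x, hx⟩ : ConV S) ∈ (conG G S).verts C) :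
    x ∈ G.verts (Subtype.val '' C : Set E) := by
  obtain ⟨a, ha, hxa⟩ := h
  exact ⟨a.1, ⟨a, ha, rfl⟩, hxa⟩

theorem verts_union {D D' : Set E} {x : V} : x ∈ G.verts (D ∪ D') ↔ x ∈ G.verts D ∨ x ∈ G.verts D' := by
  constructor
  · rintro ⟨a, ha | ha, hx⟩
    · exact Or.inl ⟨a, ha, hx⟩
    · exact Or.inr ⟨a, ha, hx⟩
  · rintro (⟨a, ha, hx⟩ | ⟨a, ha, hx⟩)
    · exact ⟨a, Or.inl ha, hx⟩
    · exact ⟨a, Or.inr ha, hx⟩

/-- the step with a tight cut -/
theorem tight_step [Finite V] [Finite E] {S X : Set V} (hS : G.Tight S)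
    {j : ℕ} (hA : AStm j (conG G Sᶜ)) (hX : (X ∩ Sᶜ).ncard ≤ j)
    {C : Set (ConE G S)} (hC : (conG G S).MinEven C) (hXC : conX S X ⊆ (conG G S).verts C) :
    ∃ C₀, G.MinEven C₀ ∧ X ⊆ G.verts C₀ ∧
      (∀ b ∈ S, ∀ a, G.inc b a → (a ∈ C₀ ↔ a ∈ (Subtype.val '' C : Set E))) := by
  classical
  by_cases hn : none ∈ (conG G S).verts C
  · obtain ⟨b0, hb0, hb0C⟩ := con_avoid hS.1 hC
    have hb0' : b0 ∈ G.cut Sᶜ := by rw [cut_compl]; exact hb0
    obtain ⟨C', hC', hb0C', hn', hX'⟩ := hA none ⟨b0, hb0'.1⟩ hb0'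
      {w | ∃ x : {w : V // w ∈ Sᶜ}, w = some x ∧ x.1 ∈ X} (by
        have h1 : ({w | ∃ x : {w : V // w ∈ Sᶜ}, w = some x ∧ x.1 ∈ X} : Set (ConV Sᶜ)) =
            some '' {x : {w : V // w ∈ Sᶜ} | x.1 ∈ X} := by
          ext w
          constructor
          · rintro ⟨x, rfl, hx⟩
            exact ⟨x, hx, rfl⟩
          · rintro ⟨x, hx, rfl⟩
            exact ⟨x, rfl, hx⟩
        rw [h1, Set.ncard_image_of_injective _ (Option.some_injective _),
          ← Set.ncard_image_of_injective _ Subtype.val_injective]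
        refine le_trans (Set.ncard_le_ncard ?_ (Set.toFinite _)) hX
        rintro _ ⟨x, hx, rfl⟩
        exact ⟨hx, x.2⟩)
    have h1 := con_two_edges hS.1 hC hn hb0 hb0C
    have h2 := con_two_edges (S := Sᶜ) (by rw [cut_compl]; exact hS.1) hC' hn' hb0' (by
      rintro ⟨a, ha, h⟩
      apply hb0C'
      have : a = ⟨b0, hb0'.1⟩ := Subtype.ext h
      exact this ▸ ha)
    have hcut : ∀ b ∈ G.cut S, b ∈ (Subtype.val '' C : Set E) ↔
        b ∈ (Subtype.val '' C' : Set E) := by
      intro b hb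
      rw [h1 b hb, h2 b (by rw [cut_compl]; exact hb)]
    refine ⟨_, con_glue hC hC' hn hcut, ?_, ?_⟩
    · intro x hx
      rw [verts_union]
      by_cases hxS : x ∈ S
      · exact Or.inl (con_verts hxS (hXC (conX_some hxS hx)))
      · exact Or.inr (con_verts (S := Sᶜ) hxS (hX' ⟨⟨x, hxS⟩, rfl, hx⟩))
    · intro b hb a hba
      constructor
      · rintro (h | ⟨a', ha', rfl⟩)
        · exact h
        · obtain ⟨v, hv, hva⟩ := a'.2
          exact (hcut a'.1 ⟨⟨b, hb, hba⟩, v, hv, hva⟩).2 ⟨a', ha', rfl⟩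
      · exact fun h => Or.inl h
  · refine ⟨_, con_inside hC hn, ?_, fun b _ a _ => Iff.rfl⟩
    intro x hx
    by_cases hxS : x ∈ S
    · exact con_verts hxS (hXC (conX_some hxS hx))
    · exact absurd (hXC (Or.inr ⟨rfl, x, hx, hxS⟩)) hn

theorem card_del [Finite V] {u v : V} : Nat.card {w : V // w ≠ u ∧ w ≠ v} < Nat.card V := by
  classical
  exact Finite.card_subtype_lt (x := u) (fun h => h.1 rfl)

theorem ncard_subN [Finite V] {u v : V} (X : Set V) :
    ({w : {w : V // w ≠ u ∧ w ≠ v} | w.1 ∈ X}).ncard ≤ X.ncard := by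
  rw [← Set.ncard_image_of_injective _ Subtype.val_injective]
  apply Set.ncard_le_ncard _ (Set.toFinite _)
  rintro _ ⟨x, hx, rfl⟩
  exact hx

/-- **Induction for `AStm`.** -/
theorem A_of_base {j : ℕ} (hb : ABase j) : ∀ n : ℕ, ∀ (V E : Type) [Finite V] [Finite E]
    (G : MGraph V E), Nat.card V = n → G.Cubic → G.TEC → AStm j G := by
  classical
  intro n
  induction n using Nat.strong_induction_on with
  | _ n ih =>
    intro V E _ _ G hn hG h3 b e hbe X hX
    by_cases ht : ∃ S, G.Tight S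
    · -- a tight set which contains `b`
      obtain ⟨S, hS, hbS⟩ : ∃ S, G.Tight S ∧ b ∈ S := by
        obtain ⟨S, hS⟩ := ht
        by_cases hbS : b ∈ S
        · exact ⟨S, hS, hbS⟩
        · exact ⟨Sᶜ, Tight_compl hS, hbS⟩
      have hSne : Sᶜ.Nonempty := Set.nonempty_of_ncard_ne_zero (by have := hS.2.2; omega)
      have hSne' : Sᶜᶜ.Nonempty := by rw [compl_compl]; exact ⟨b, hbS⟩
      have hA1 : AStm j (conG G S) := ih _ (hn ▸ con_card hS.2.2) _ _ _ rfl
        (con_cubic hG hS.1) (con_TEC h3 hSne)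
      have hA2 : AStm j (conG G Sᶜ) := ih _ (hn ▸ con_card (by rw [compl_compl]; exact hS.2.1)) _ _ _
        rfl (con_cubic hG (by rw [cut_compl]; exact hS.1)) (con_TEC h3 hSne')
      obtain ⟨C, hC, heC, hbC, hXC⟩ := hA1 (some ⟨b, hbS⟩) ⟨e, b, hbS, hbe⟩ hbe (conX S X)
        ((conX_card S X).trans hX)
      obtain ⟨C₀, hC₀, hXC₀, hinc⟩ := tight_step hS hA2 (le_trans (Set.ncard_le_ncard
        Set.inter_subset_left (Set.toFinite _)) hX) hC hXC
      refine ⟨C₀, hC₀, ?_, ?_, hXC₀⟩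
      · rw [hinc b hbS e hbe]
        rintro ⟨a, ha, h⟩
        apply heC
        have : a = ⟨e, b, hbS, hbe⟩ := Subtype.ext h
        exact this ▸ ha
      · obtain ⟨a, ha, hba⟩ := con_verts hbS hbC
        exact ⟨a, (hinc b hbS a hba).2 ha, hba⟩
    · push Not at ht
      by_cases hcov : ∀ a, ∃ w, G.inc w a ∧ (w = b ∨ w ∈ X)
      · exact hb V E G hG h3 ht b e hbe X hX hcov
      · push Not at hcov
        obtain ⟨a, ha⟩ := hcov
        obtain ⟨u, v, huv, hE⟩ := Set.ncard_eq_two.1 (G.two a)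
        have hua : G.inc u a := by
          have : u ∈ {w | G.inc w a} := by rw [hE]; simp
          exact this
        have hva : G.inc v a := by
          have : v ∈ {w | G.inc w a} := by rw [hE]; simp
          exact this
        have hub := (ha u hua).1
        have hvb := (ha v hva).1
        obtain ⟨f1, f2, g1, g2, h⟩ := exists_delData hG h3 huv hub hvb hua hva
        have hea : e ≠ a := by
          rintro rfl
          have : b ∈ {w | G.inc w e} := hbe
          rw [hE] at this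
          rcases this with h4 | h4
          · exact hub h4.symm
          · exact hvb h4.symm
        have hA : AStm j (delG h) := ih _ (hn ▸ card_del) _ _ _ rfl (del_cubic hG h)
          (del_TEC h h3 (fun S hS => absurd hS (ht S)))
        obtain ⟨C, hC, heC, hbC, hXC⟩ := hA ⟨b, hub.symm, hvb.symm⟩ ⟨_, rr_ok h hea⟩
          ⟨e, rfl, hbe⟩ {w | w.1 ∈ X} ((ncard_subN X).trans hX)
        refine ⟨_, lift_minEven h hC, ?_, lift_verts h hbC, ?_⟩
        · rintro ⟨_, h4⟩
          exact heC h4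
        · intro x hx
          have hxu : x ≠ u := by
            rintro rfl
            exact (ha x hua).2 hx
          have hxv : x ≠ v := by
            rintro rfl
            exact (ha x hva).2 hx
          exact lift_verts h (w := ⟨x, hxu, hxv⟩) (hXC hx)

/-- **Induction for `PStm`.** -/
theorem P_of_base {k : ℕ} (hA : ABase (k / 2)) (hb : PBase k) :
    ∀ n : ℕ, ∀ (V E : Type) [Finite V] [Finite E] [Nonempty V]
    (G : MGraph V E), Nat.card V = n → G.Cubic → G.TEC → PStm k G := by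
  classical
  intro n
  induction n using Nat.strong_induction_on with
  | _ n ih =>
    intro V E _ _ _ G hn hG h3 X hX
    by_cases ht : ∃ S, G.Tight S
    · obtain ⟨S, hS, hle⟩ : ∃ S, G.Tight S ∧ (X ∩ Sᶜ).ncard ≤ (X ∩ S).ncard := by
        obtain ⟨S, hS⟩ := ht
        rcases le_total (X ∩ Sᶜ).ncard (X ∩ S).ncard with h | h
        · exact ⟨S, hS, h⟩
        · exact ⟨Sᶜ, Tight_compl hS, by rw [compl_compl]; exact h⟩
      have hSne : Sᶜ.Nonempty := Set.nonempty_of_ncard_ne_zero (by have := hS.2.2; omega)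
      have hSne' : Sᶜᶜ.Nonempty := by
        rw [compl_compl]
        exact Set.nonempty_of_ncard_ne_zero (by have := hS.2.1; omega)
      have hP1 : PStm k (conG G S) := ih _ (hn ▸ con_card hS.2.2) _ _ _ rfl
        (con_cubic hG hS.1) (con_TEC h3 hSne)
      have hA2 : AStm (k / 2) (conG G Sᶜ) := A_of_base hA _ _ _ _ rfl
        (con_cubic hG (by rw [cut_compl]; exact hS.1)) (con_TEC h3 hSne')
      obtain ⟨C, hC, hXC⟩ := hP1 (conX S X) ((conX_card S X).trans hX)
      obtain ⟨C₀, hC₀, hXC₀, _⟩ := tight_step hS hA2 (by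
        have h1 := Set.ncard_inter_add_ncard_sdiff_eq_ncard X S (Set.toFinite _)
        have h2 : (X \ S).ncard = (X ∩ Sᶜ).ncard := rfl
        omega) hC hXC
      exact ⟨C₀, hC₀, hXC₀⟩
    · push Not at ht
      by_cases hcov : ∀ a, ∃ w, G.inc w a ∧ w ∈ X
      · exact hb V E G hG h3 ht X hX hcov
      · push Not at hcov
        obtain ⟨a, ha⟩ := hcov
        obtain ⟨u, v, huv, hE⟩ := Set.ncard_eq_two.1 (G.two a)
        have hua : G.inc u a := by
          have : u ∈ {w | G.inc w a} := by rw [hE]; simp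
          exact this
        have hva : G.inc v a := by
          have : v ∈ {w | G.inc w a} := by rw [hE]; simp
          exact this
        rcases X.eq_empty_or_nonempty with hXe | ⟨x, hxX⟩
        · obtain ⟨C, hC, _⟩ := A_of_base hA _ _ _ G rfl hG h3 u a hua ∅ (by simp)
          exact ⟨C, hC, by rw [hXe]; exact Set.empty_subset _⟩
        · have hux : u ≠ x := by
            rintro rfl
            exact ha u hua hxX
          have hvx : v ≠ x := by
            rintro rfl
            exact ha v hva hxX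
          obtain ⟨f1, f2, g1, g2, h⟩ := exists_delData hG h3 huv hux hvx hua hva
          have : Nonempty {w : V // w ≠ u ∧ w ≠ v} := ⟨⟨x, hux.symm, hvx.symm⟩⟩
          have hP : PStm k (delG h) := ih _ (hn ▸ card_del) _ _ _ rfl (del_cubic hG h)
            (del_TEC h h3 (fun S hS => absurd hS (ht S)))
          obtain ⟨C, hC, hXC⟩ := hP {w | w.1 ∈ X} ((ncard_subN X).trans hX)
          refine ⟨_, lift_minEven h hC, ?_⟩
          intro y hy
          have hyu : y ≠ u := by
            rintro rfl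
            exact ha y hua hy
          have hyv : y ≠ v := by
            rintro rfl
            exact ha y hva hy
          exact lift_verts h (w := ⟨y, hyu, hyv⟩) (hXC hy)

end Pool.Agent.CDC
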