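import Pool.Agent.CDC.NHam
import Pool.Agent.CDC.NCert

/-!
# Labelled models from graphs
-/

set_option autoImplicit false

namespace Pool.Agent.CDC

open Mach

variable {V E : Type} {G : MGraph V E}

/-- an injective sequence extends to a numbering of all vertices -/
theorem extend_label [Finite V] (c' : ℕ) (f : ℕ → V)
    (hinj : ∀ i, i < c' → ∀ j, j < c' → f i = f j → i = j) :
    ∃ l : ℕ → V, (∀ i, i < c' → l i = f i) ∧
      (∀ i, i < Nat.card V → ∀ j, j < Nat.card V → l i = l j → i = j) ∧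
      (∀ w, ∃ i, i < Nat.card V ∧ l i = w) ∧ c' ≤ Nat.card V := by
  classical
  have := Fintype.ofFinite V
  have hn : Fintype.card V = Nat.card V := (Nat.card_eq_fintype_card).symm
  have hc' : c' ≤ Nat.card V := by
    have h1 : Function.Injective (fun i : Fin c' => f i.1) := by
      intro i j hij
      exact Fin.ext (hinj i.1 i.2 j.1 j.2 hij)
    have h2 := Fintype.card_le_of_injective _ h1
    rw [Fintype.card_fin, hn] at h2
    exact h2
  let e0 : Fin (Nat.card V) ≃ V := (Fintype.equivFinOfCardEq hn).symm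
  let p : Fin (Nat.card V) → Prop := fun i => i.1 < c'
  let q : Fin (Nat.card V) → Prop := fun j => ∃ t, t < c' ∧ f t = e0 j
  let g : {i // p i} → {j // q j} := fun i => ⟨e0.symm (f i.1.1), i.1.1, i.2, by simp⟩
  have hg : Function.Bijective g := by
    constructor
    · intro i j hij
      have h1 : e0.symm (f i.1.1) = e0.symm (f j.1.1) := congrArg Subtype.val hij
      have h2 := hinj _ i.2 _ j.2 (e0.symm.injective h1)
      exact Subtype.ext (Fin.ext h2)
    · rintro ⟨j, t, ht, hj⟩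
      refine ⟨⟨⟨t, by omega⟩, ht⟩, ?_⟩
      apply Subtype.ext
      show e0.symm (f t) = j
      rw [hj]
      simp
  let σ : Equiv.Perm (Fin (Nat.card V)) := (Equiv.ofBijective g hg).extendSubtype
  have hσ : ∀ i : Fin (Nat.card V), i.1 < c' → e0 (σ i) = f i.1 := by
    intro i hi
    have h1 : σ i = ((Equiv.ofBijective g hg) ⟨i, hi⟩).1 :=
      Equiv.extendSubtype_apply_of_mem (Equiv.ofBijective g hg) i hi
    rw [h1]
    show e0 (e0.symm (f i.1)) = f i.1
    simp
  by_cases hV : 0 < Nat.card V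
  · refine ⟨fun i => e0 (σ ⟨i % Nat.card V, Nat.mod_lt _ hV⟩), ?_, ?_, ?_, hc'⟩
    · intro i hi
      have h1 : i % Nat.card V = i := Nat.mod_eq_of_lt (by omega)
      show e0 (σ ⟨i % Nat.card V, Nat.mod_lt _ hV⟩) = f i
      have h2 := hσ ⟨i % Nat.card V, Nat.mod_lt _ hV⟩ (by
        show i % Nat.card V < c'
        omega)
      rw [h2]
      show f (i % Nat.card V) = f i
      rw [h1]
    · intro i hi j hj hij
      have h1 := σ.injective (e0.injective hij)
      have h2 := congrArg Fin.val h1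
      have h3 : i % Nat.card V = j % Nat.card V := h2
      rwa [Nat.mod_eq_of_lt hi, Nat.mod_eq_of_lt hj] at h3
    · intro w
      refine ⟨(σ.symm (e0.symm w)).1, (σ.symm (e0.symm w)).2, ?_⟩
      have h1 : (⟨(σ.symm (e0.symm w)).1 % Nat.card V, Nat.mod_lt _ hV⟩ : Fin (Nat.card V)) =
          σ.symm (e0.symm w) := Fin.ext (Nat.mod_eq_of_lt (σ.symm (e0.symm w)).2)
      show e0 (σ ⟨(σ.symm (e0.symm w)).1 % Nat.card V, Nat.mod_lt _ hV⟩) = w
      rw [h1]
      simp
  · have h0 : Nat.card V = 0 := by omega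
    refine ⟨f, fun i _ => rfl, fun i hi => by omega, ?_, hc'⟩
    intro w
    exfalso
    have : Nonempty V := ⟨w⟩
    exact absurd Nat.card_pos (by omega : ¬ 0 < Nat.card V)

/-- a numbering which starts with a circuit -/
structure Lbl (G : MGraph V E) (X : Set V) (c : ℕ) (l : ℕ → V) : Prop where
  inj : ∀ i, i < Nat.card V → ∀ j, j < Nat.card V → l i = l j → i = j
  surj : ∀ w, ∃ i, i < Nat.card V ∧ l i = w
  circ : ∀ i, i < c → nb G (l i) (l (nx c i))
  hc : c < Nat.card V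
  offX : l c ∈ X
  offY : ∀ i, c < i → i < Nat.card V → l i ∉ X

theorem fin_add_one {m : ℕ} (i : ℕ) (h : i < m + 2) (h' : i + 1 < m + 2) :
    (⟨i, h⟩ : Fin (m + 2)) + 1 = ⟨i + 1, h'⟩ := by
  apply Fin.ext
  rw [Fin.val_add]
  have : ((1 : Fin (m + 2)) : ℕ) = 1 := Fin.val_one _
  rw [this]
  exact Nat.mod_eq_of_lt h'

theorem fin_last_add_one {m : ℕ} (h : m + 1 < m + 2) : (⟨m + 1, h⟩ : Fin (m + 2)) + 1 = 0 := by
  apply Fin.ext
  rw [Fin.val_add]
  have : ((1 : Fin (m + 2)) : ℕ) = 1 := Fin.val_one _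
  rw [this]
  show (m + 1 + 1) % (m + 2) = 0
  exact Nat.mod_self _

theorem exists_lbl [Finite V] {C : Set E} {m : ℕ} (K : Circ G C m) (r : Fin (m + 2))
    {x0 : V} (hx0 : x0 ∉ G.verts C) {X : Set V} (hx0X : x0 ∈ X)
    (hX : ∀ x ∈ X, x ≠ x0 → x ∈ G.verts C) :
    ∃ l, Lbl G X (m + 2) l ∧ l (m + 2) = x0 ∧
      ∀ i (h : i < m + 2), l i = K.v (r + ⟨i, h⟩) := by
  classical
  obtain ⟨l, h1, h2, h3, h4⟩ := extend_label (m + 3)
    (fun i => if h : i < m + 2 then K.v (r + ⟨i, h⟩) else x0) (by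
    intro i hi j hj hij
    by_cases hi' : i < m + 2
    · by_cases hj' : j < m + 2
      · rw [dif_pos hi', dif_pos hj'] at hij
        have := congrArg Fin.val (add_left_cancel (K.vinj hij))
        exact this
      · rw [dif_pos hi', dif_neg hj'] at hij
        exact absurd ((K.mem_verts x0).2 ⟨_, hij⟩) hx0
    · by_cases hj' : j < m + 2
      · rw [dif_neg hi', dif_pos hj'] at hij
        exact absurd ((K.mem_verts x0).2 ⟨_, hij.symm⟩) hx0
      · omega)
  have hl : ∀ i (h : i < m + 2), l i = K.v (r + ⟨i, h⟩) := by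
    intro i h
    rw [h1 i (by omega), dif_pos h]
  have hlc : l (m + 2) = x0 := by
    rw [h1 _ (by omega), dif_neg (by omega)]
  refine ⟨l, ⟨h2, h3, ?_, by omega, by rw [hlc]; exact hx0X, ?_⟩, hlc, hl⟩
  · intro i hi
    have key : ∀ j : Fin (m + 2), nb G (K.v j) (K.v (j + 1)) := by
      intro j
      refine ⟨fun h => ?_, K.a j, (K.hinc j _).2 (Or.inl rfl), (K.hinc j _).2 (Or.inr rfl)⟩
      have h5 := K.vinj h
      exact pred_ne (j + 1) (by rw [add_sub_cancel_right]; exact h5)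
    have h5 := key (r + ⟨i, hi⟩)
    rw [hl i hi]
    unfold nx
    by_cases hl1 : i + 1 = m + 2
    · rw [if_pos hl1, hl 0 (by omega)]
      have h6 : r + (⟨i, hi⟩ : Fin (m + 2)) + 1 = r + ⟨0, by omega⟩ := by
        rw [add_assoc]
        have h7 : i = m + 1 := by omega
        subst h7
        rw [fin_last_add_one]
        rfl
      rw [h6] at h5
      exact h5
    · rw [if_neg hl1, hl (i + 1) (by omega)]
      have h6 : r + (⟨i, hi⟩ : Fin (m + 2)) + 1 = r + ⟨i + 1, by omega⟩ := by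
        rw [add_assoc, fin_add_one i hi (by omega)]
      rw [h6] at h5
      exact h5
  · intro i hi hin hiX
    have hne : l i ≠ x0 := by
      intro h
      rw [← hlc] at h
      have := h2 i hin (m + 2) (by omega) h
      omega
    obtain ⟨j, hj⟩ := (K.mem_verts _).1 (hX _ hiX hne)
    have h5 : l i = l (j - r).1 := by
      rw [hl (j - r).1 (j - r).2, ← hj]
      congr 1
      show j = r + (j - r)
      rw [add_sub_cancel]
    have := h2 i hin (j - r).1 (by have := (j - r).2; omega) h5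
    have := (j - r).2
    omega

theorem lbl_ncard [Finite V] {X : Set V} {c : ℕ} {l : ℕ → V} (L : Lbl G X c l) (P : V → Prop) :
    {i | i < Nat.card V ∧ P (l i)}.ncard = {w | P w}.ncard := by
  have h1 : {w | P w} = l '' {i | i < Nat.card V ∧ P (l i)} := by
    ext w
    constructor
    · intro hw
      obtain ⟨i, hi, rfl⟩ := L.surj w
      exact ⟨i, ⟨hi, hw⟩, rfl⟩
    · rintro ⟨i, ⟨_, hi⟩, rfl⟩
      exact hi
  rw [h1, Set.InjOn.ncard_image]
  intro i hi j hj hij
  exact L.inj i hi.1 j hj.1 hij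

theorem lbl_tight [Finite V] [Finite E] (hG : G.Cubic) (h3 : G.TEC) (ht : ∀ S, ¬ G.Tight S)
    (hV : ∃ a b c : V, a ≠ b ∧ a ≠ c ∧ b ≠ c) {X : Set V} {c : ℕ} {l : ℕ → V}
    (L : Lbl G X c l) (S : Finset ℕ) (hS : ∀ i ∈ S, i < Nat.card V) (h1 : 2 ≤ S.card)
    (h2 : S.card + 2 ≤ Nat.card V) :
    4 ≤ ∑ i ∈ S, {j | j ∉ S ∧ i < Nat.card V ∧ j < Nat.card V ∧ nb G (l i) (l j)}.ncard := by
  classical
  have hinj : Set.InjOn l (S : Set ℕ) := by
    intro i hi j hj hij
    exact L.inj i (hS i hi) j (hS j hj) hij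
  have hc1 : (l '' (S : Set ℕ)).ncard = S.card := by
    rw [Set.InjOn.ncard_image hinj, Set.ncard_coe_finset]
  have hc2 := Set.ncard_add_ncard_compl (l '' (S : Set ℕ))
  have hne1 : (l '' (S : Set ℕ)).Nonempty := Set.nonempty_of_ncard_ne_zero (by omega)
  have hne2 : (l '' (S : Set ℕ))ᶜ.Nonempty := Set.nonempty_of_ncard_ne_zero (by omega)
  have h4 := h3 _ hne1 hne2
  have h5 : (G.cut (l '' (S : Set ℕ))).ncard ≠ 3 := by
    intro h
    exact ht _ ⟨h, by omega, by omega⟩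
  have h6 : 4 ≤ (G.cut (l '' (S : Set ℕ))).ncard := by omega
  refine h6.trans ?_
  have hsub : G.cut (l '' (S : Set ℕ)) ⊆ (⋃ i ∈ S, {e | G.inc (l i) e ∧
      ∃ w, w ∉ l '' (S : Set ℕ) ∧ G.inc w e}) := by
    rintro e ⟨⟨v, ⟨i, hi, rfl⟩, hve⟩, w, hw, hwe⟩
    rw [Set.mem_iUnion₂]
    exact ⟨i, hi, hve, w, hw, hwe⟩
  have hfinE : ∀ s : Set E, s.Finite := fun s => Set.toFinite s
  refine (Set.ncard_le_ncard hsub (hfinE _)).trans ?_
  have hun : ∀ T : Finset ℕ, (⋃ i ∈ T, {e | G.inc (l i) e ∧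
      ∃ w, w ∉ l '' (S : Set ℕ) ∧ G.inc w e}).ncard ≤ ∑ i ∈ T, {e | G.inc (l i) e ∧
      ∃ w, w ∉ l '' (S : Set ℕ) ∧ G.inc w e}.ncard := by
    intro T
    induction T using Finset.induction_on with
    | empty => simp
    | insert a T haT ih =>
      rw [Finset.sum_insert haT, Finset.set_biUnion_insert]
      exact (Set.ncard_union_le _ _).trans (Nat.add_le_add_left ih _)
  refine (hun S).trans (Finset.sum_le_sum fun i hi => ?_)
  -- injection from the edges to the labels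
  have hch : ∀ e, ∃ j, (G.inc (l i) e ∧ (∃ w, w ∉ l '' (S : Set ℕ) ∧ G.inc w e)) →
      j ∉ S ∧ j < Nat.card V ∧ G.inc (l j) e := by
    intro e
    by_cases h : G.inc (l i) e ∧ ∃ w, w ∉ l '' (S : Set ℕ) ∧ G.inc w e
    · obtain ⟨h1, w, hw, hwe⟩ := h
      obtain ⟨j, hj, rfl⟩ := L.surj w
      exact ⟨j, fun _ => ⟨fun hjS => hw ⟨j, hjS, rfl⟩, hj, hwe⟩⟩
    · exact ⟨0, fun h' => absurd h' h⟩
  choose g hg using hch
  have hne : ∀ e, (G.inc (l i) e ∧ (∃ w, w ∉ l '' (S : Set ℕ) ∧ G.inc w e)) →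
      l i ≠ l (g e) := by
    intro e he h
    obtain ⟨h1, h2, h3⟩ := hg e he
    exact h1 (L.inj i (hS i hi) (g e) h2 h ▸ hi)
  have hfin : {j | j ∉ S ∧ i < Nat.card V ∧ j < Nat.card V ∧ nb G (l i) (l j)}.Finite :=
    (Set.finite_Iio (Nat.card V)).subset (fun j hj => hj.2.2.1)
  refine Set.ncard_le_ncard_of_injOn g ?_ ?_ hfin
  · intro e he
    obtain ⟨h1, h2, h3⟩ := hg e he
    exact ⟨h1, hS i hi, h2, hne e he, e, he.1, h3⟩
  · intro e he e' he' hee
    obtain ⟨_, _, h3'⟩ := hg e he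
    obtain ⟨_, _, h3''⟩ := hg e' he'
    rw [← hee] at h3''
    exact no_parallel hG h3 hV (hne e he) he.1 h3' he'.1 h3''

/-- the labelled model -/
def mkModel [Finite V] [Finite E] (hG : G.Cubic) (h3 : G.TEC) (ht : ∀ S, ¬ G.Tight S)
    (hV : ∃ a b c : V, a ≠ b ∧ a ≠ c ∧ b ≠ c) {X : Set V}
    (hcov : ∀ a, ∃ w, G.inc w a ∧ w ∈ X) {c : ℕ} {l : ℕ → V}
    (L : Lbl G X c l) {n kx ny : ℕ} (hn : Nat.card V = n) (hkx : X.ncard = kx)
    (hny : Xᶜ.ncard = ny) : Model n c kx ny where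
  adj i j := i < n ∧ j < n ∧ nb G (l i) (l j)
  X i := l i ∈ X
  symm a b h := ⟨h.2.1, h.1, nb_symm h.2.2⟩
  lt a b h := h.1
  irr a h := h.2.2.1 rfl
  deg a ha := by
    subst hn
    have h1 : {b | a < Nat.card V ∧ b < Nat.card V ∧ nb G (l a) (l b)} =
        {b | b < Nat.card V ∧ nb G (l a) (l b)} := by
      ext b
      exact ⟨fun h => h.2, fun h => ⟨ha, h⟩⟩
    rw [h1, lbl_ncard L (fun w => nb G (l a) w)]
    exact nb_ncard hG h3 hV _
  yy a b h := by
    obtain ⟨_, _, hab, e, ha, hb⟩ := h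
    obtain ⟨w, hw, hwX⟩ := hcov e
    rcases inc_cases hab ha hb hw with h | h
    · left; rw [← h]; exact hwX
    · right; rw [← h]; exact hwX
  circ i hi := by
    have h1 := L.hc
    refine ⟨by omega, ?_, L.circ i hi⟩
    unfold nx
    split_ifs <;> omega
  offX := L.offX
  offY i h1 h2 := L.offY i h1 (by omega)
  cntX := by
    subst hn
    exact (lbl_ncard L (fun w => w ∈ X)).trans hkx
  cntY := by
    subst hn
    exact (lbl_ncard L (fun w => w ∉ X)).trans hny
  tight S hS h1 h2 := by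
    subst hn
    exact lbl_tight hG h3 ht hV L S hS h1 h2

theorem walk_get {R : ℕ → ℕ → Prop} {z : ℕ} : ∀ {t : List ℕ} {a : ℕ}, Walk R z a t →
    (∀ i (hi : i < t.length), R ((a :: t)[i]'(by rw [List.length_cons]; omega))
      ((a :: t)[i + 1]'(by rw [List.length_cons]; omega))) ∧
    R ((a :: t)[t.length]'(by rw [List.length_cons]; omega)) z
  | [], a, hw => ⟨fun i hi => absurd hi (Nat.not_lt_zero i), hw⟩
  | b :: t, a, hw => by
    obtain ⟨h1, h2⟩ := walk_get hw.2
    refine ⟨?_, ?_⟩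
    · intro i hi
      rcases i with _ | i
      · exact hw.1
      · exact h1 i (by
          rw [List.length_cons] at hi
          omega)
    · exact h2

/-- the circuit in the graph -/
theorem circuit_of_goal [Finite V] [Finite E] (hG : G.Cubic) (h3 : G.TEC)
    (ht : ∀ S, ¬ G.Tight S) (hV : ∃ a b c : V, a ≠ b ∧ a ≠ c ∧ b ≠ c) {X : Set V}
    (hcov : ∀ a, ∃ w, G.inc w a ∧ w ∈ X) {c : ℕ} {l : ℕ → V}
    (L : Lbl G X c l) {n kx ny : ℕ} (hn : Nat.card V = n) (hkx : X.ncard = kx)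
    (hny : Xᶜ.ncard = ny) {fix : Bool}
    (hgoal : (mkModel hG h3 ht hV hcov L hn hkx hny).Goal fix) :
    ∃ C, G.IsCircuit C ∧ X ⊆ G.verts C ∧ (fix = true → ∀ a ∈ C, G.inc (l 0) a →
      G.inc (l 1) a ∨ ∃ j, j + 1 = c ∧ G.inc (l j) a) := by
  classical
  obtain ⟨h0, t, hnd, hlen, hw, hX⟩ := hgoal
  have hmem := hw.mem
  obtain ⟨hg1, hg2⟩ := walk_get hw
  obtain ⟨m, hm, htm⟩ : ∃ m, 1 ≤ m ∧ t.length = m + 1 := ⟨t.length - 1, by omega, by omega⟩
  have hlt : ∀ x ∈ h0 :: t, x < n := by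
    intro x hx
    obtain ⟨y, hy⟩ := hmem x hx
    exact hy.1.1
  have hll : (h0 :: t).length = m + 2 := by rw [List.length_cons, htm]
  have hR : ∀ i : Fin (m + 2), (mkModel hG h3 ht hV hcov L hn hkx hny).R fix
      ((h0 :: t)[i.1]'(by rw [hll]; exact i.2)) ((h0 :: t)[(i + 1).1]'(by
        rw [hll]; exact (i + 1).2)) := by
    intro i
    by_cases hi : i.1 = m + 1
    · have h1 : (i + 1).1 = 0 := by
        have : i = ⟨m + 1, by omega⟩ := Fin.ext hi
        rw [this, fin_last_add_one]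
        rfl
      have h2 : (h0 :: t)[(i + 1).1]'(by rw [hll]; exact (i + 1).2) = h0 := by
        simp only [h1]
        rfl
      have h3 : (h0 :: t)[i.1]'(by rw [hll]; exact i.2) =
          (h0 :: t)[t.length]'(by rw [List.length_cons]; omega) := by
        simp only [hi, htm]
      rw [h2, h3]
      exact hg2
    · have hi2 := i.2
      have h1 : (i + 1).1 = i.1 + 1 := by
        have := fin_add_one i.1 i.2 (by omega)
        have h4 : (⟨i.1, i.2⟩ : Fin (m + 2)) = i := rfl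
        rw [h4] at this
        rw [this]
      have h2 : (h0 :: t)[(i + 1).1]'(by rw [hll]; exact (i + 1).2) =
          (h0 :: t)[i.1 + 1]'(by rw [hll]; omega) := by
        simp only [h1]
      rw [h2]
      exact hg1 i.1 (by omega)
  obtain ⟨C, hC, hv, hCe⟩ := circuit_of_cycle (G := G) hm
    (fun i => l ((h0 :: t)[i.1]'(by rw [hll]; exact i.2))) (by
    intro i j hij
    have h1 := L.inj _ (by rw [hn]; exact hlt _ (List.getElem_mem _)) _
      (by rw [hn]; exact hlt _ (List.getElem_mem _)) hij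
    exact Fin.ext ((List.Nodup.getElem_inj_iff hnd).1 h1)) (fun i => (hR i).1.2.2)
  refine ⟨C, hC, ?_, ?_⟩
  · intro x hx
    obtain ⟨i, hi, rfl⟩ := L.surj x
    have h1 := hX i (by rw [← hn]; exact hi) hx
    obtain ⟨k, hk, hki⟩ := List.getElem_of_mem h1
    have h2 := hv ⟨k, by rw [← hll]; exact hk⟩
    have h3 : l ((h0 :: t)[k]'hk) ∈ G.verts C := h2
    rw [hki] at h3
    exact h3
  · intro hf a ha h0a
    obtain ⟨i, h1, h2⟩ := hCe a ha
    obtain ⟨⟨hx, hy, hnb⟩, hfix⟩ := hR i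
    obtain ⟨hfa, hfb⟩ := hfix hf
    set x := (h0 :: t)[i.1]'(by rw [hll]; exact i.2)
    set y := (h0 :: t)[(i + 1).1]'(by rw [hll]; exact (i + 1).2)
    have h4 := inc_cases hnb.1 h1 h2 h0a
    have hn0 : 0 < Nat.card V := by have := L.hc; omega
    rcases h4 with h4 | h4
    · have hx0 : x = 0 := (L.inj 0 hn0 x (by omega) h4).symm
      rcases hfa hx0 with h5 | h5
      · left
        rw [← h5]
        exact h2
      · right
        exact ⟨y, h5, h2⟩
    · have hy0 : y = 0 := (L.inj 0 hn0 y (by omega) h4).symm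
      rcases hfb hy0 with h5 | h5
      · left
        rw [← h5]
        exact h1
      · right
        exact ⟨x, h5, h1⟩

end Pool.Agent.CDC
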