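import Mathlib

/-!
# Labelled partial cubic graphs: a kernel checkable decision procedure

A labelled model consists of a circuit `0, 1, …, c - 1`, one more vertex `c` and some further
vertices `c + 1, …, n - 1`; every vertex is of one of two types. The goal is a circuit through all
vertices of the first type. A certificate is a list of partial structures; each of them is closed
by a rule which refers to earlier ones (up to a symmetry).
-/

set_option autoImplicit false

namespace Pool.Agent.CDC.Mach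

/-- the successor on the circuit -/
def nx (c i : ℕ) : ℕ := if i + 1 = c then 0 else i + 1

/-- labelled models: `X` are the vertices which have to be visited -/
structure Model (n c kx ny : ℕ) where
  adj : ℕ → ℕ → Prop
  X : ℕ → Prop
  symm : ∀ a b, adj a b → adj b a
  lt : ∀ a b, adj a b → a < n
  irr : ∀ a, ¬ adj a a
  deg : ∀ a, a < n → {b | adj a b}.ncard = 3
  yy : ∀ a b, adj a b → X a ∨ X b
  circ : ∀ i, i < c → adj i (nx c i)
  offX : X c
  offY : ∀ i, c < i → i < n → ¬ X i
  cntX : {i | i < n ∧ X i}.ncard = kx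
  cntY : {i | i < n ∧ ¬ X i}.ncard = ny
  tight : ∀ S : Finset ℕ, (∀ i ∈ S, i < n) → 2 ≤ S.card → S.card + 2 ≤ n →
    4 ≤ ∑ i ∈ S, {j | j ∉ S ∧ adj i j}.ncard

variable {n c kx ny : ℕ}

/-- adjacency without the chord at the vertex `0` if `fix` holds -/
def Model.R (M : Model n c kx ny) (fix : Bool) (a b : ℕ) : Prop :=
  M.adj a b ∧ (fix = true → (a = 0 → b = 1 ∨ b + 1 = c) ∧ (b = 0 → a = 1 ∨ a + 1 = c))

/-- walk from `a` along the list and then to `z` -/
def Walk (R : ℕ → ℕ → Prop) (z : ℕ) : ℕ → List ℕ → Prop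
  | a, [] => R a z
  | a, b :: t => R a b ∧ Walk R z b t

/-- there is a circuit through all vertices of type `X` -/
def Model.Goal (M : Model n c kx ny) (fix : Bool) : Prop :=
  ∃ h t, (h :: t).Nodup ∧ 2 ≤ t.length ∧ Walk (M.R fix) h h t ∧ ∀ i, i < n → M.X i → i ∈ h :: t

/-! ### Boolean functions for the kernel -/

/-- conjunction -/
def bnd (x y : Bool) : Bool := Bool.rec false y x

/-- case distinction -/
def bif' (b x y : Bool) : Bool := Bool.rec y x b

/-- bit -/
def tb (x k : ℕ) : Bool := Nat.beq (Nat.land (Nat.shiftRight x k) 1) 1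

/-- last label -/
def lab (x : ℕ) : ℕ := Nat.land x 31

/-- for all `i < f` -/
def allTo (f : ℕ) (p : ℕ → Bool) : Bool := Nat.rec true (fun k ih => bnd (p k) ih) f

/-- sum over `i < f` -/
def sumTo (f : ℕ) (p : ℕ → ℕ) : ℕ := Nat.rec 0 (fun k ih => Nat.add ih (p k)) f

/-- value of the permutation coded by `σ` -/
def app (σ a : ℕ) : ℕ := Nat.land (Nat.shiftRight σ (Nat.mul 5 a)) 31

/-- add an edge -/
def addE (A a b : ℕ) : ℕ :=
  Nat.lor A (Nat.lor (Nat.pow 2 (Nat.add (Nat.mul 32 a) b)) (Nat.pow 2 (Nat.add (Nat.mul 32 b) a)))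

/-- adjacency bits of the circuit -/
def baseA (c : ℕ) : ℕ := Nat.rec 0 (fun k ih => addE ih k (nx c k)) c

/-- add the `m` chords coded by `x` -/
def adjF (m : ℕ) : ℕ → ℕ → ℕ :=
  Nat.rec (fun A _ => A)
    (fun _ ih A x => ih (addE A (lab x) (lab (Nat.shiftRight x 5))) (Nat.shiftRight x 10)) m

/-- the labels of the chords are less than `n` -/
def lbl (n m : ℕ) : ℕ → Bool :=
  Nat.rec (fun _ => true)
    (fun _ ih x => bnd (Nat.ble (Nat.succ (lab x)) n)
      (bnd (Nat.ble (Nat.succ (lab (Nat.shiftRight x 5))) n) (ih (Nat.shiftRight x 10)))) m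

/-- the images of the `m` chords coded by `x` are in `A` -/
def chk (σ A : ℕ) (m : ℕ) : ℕ → Bool :=
  Nat.rec (fun _ => true)
    (fun _ ih x => bnd (tb A (Nat.add (Nat.mul 32 (app σ (lab x)))
      (app σ (lab (Nat.shiftRight x 5))))) (ih (Nat.shiftRight x 10))) m

/-- the types in `T'` are, after `σ`, types in `T` -/
def chT (T : ℕ) (f : ℕ) : ℕ → ℕ → Bool :=
  Nat.rec (fun _ _ => true)
    (fun _ ih T' σ => bnd (Nat.beq (Nat.land (Nat.shiftRight T (Nat.mul 2 (lab σ)))
      (Nat.land T' 3)) (Nat.land T' 3)) (ih (Nat.shiftRight T' 2) (Nat.shiftRight σ 5))) f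

/-- delete the last one bit -/
def clr (r : ℕ) : ℕ := Nat.land r (Nat.sub r 1)

/-- row of the adjacency matrix -/
def row (A i : ℕ) : ℕ := Nat.land (Nat.shiftRight A (Nat.mul 32 i)) 4294967295

/-- statement number `l` of the table -/
def st (tab l : ℕ) : ℕ :=
  Nat.land (Nat.shiftRight tab (Nat.mul 144 l)) 22300745198530623141535718272648361505980415

/-- permutation number `q` -/
def sy (syms q : ℕ) : ℕ :=
  Nat.land (Nat.shiftRight syms (Nat.mul 100 q)) 1267650600228229401496703205375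

/-- types of a statement -/
def stT (s : ℕ) : ℕ := Nat.land s 1099511627775

/-- number of chords of a statement -/
def stM (s : ℕ) : ℕ := Nat.land (Nat.shiftRight s 40) 15

/-- chords of a statement -/
def stC (s : ℕ) : ℕ := Nat.shiftRight s 44

section

variable (n c kx ny nq : ℕ) (fix : Bool) (tab syms m : ℕ)

/-- statement `s` and permutation `σ` close `(A, T)` -/
def kid' (A T s σ : ℕ) : Bool :=
  bnd (chk σ A (stM s) (stC s)) (chT T n (stT s) σ)

/-- kid with code `x`: 6 bits for the permutation, 13 bits for the lemma -/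
def kid (A T x : ℕ) : Bool :=
  bnd (Nat.ble (Nat.succ (Nat.land x 63)) nq)
    (bnd (Nat.ble (Nat.succ (Nat.land (Nat.shiftRight x 6) 8191)) m)
      (kid' n A T (st tab (Nat.land (Nat.shiftRight x 6) 8191)) (sy syms (Nat.land x 63))))

/-- `j` cannot be a new neighbour of `i` -/
def excl (A T i j : ℕ) : Bool :=
  bif' (Nat.beq i j) true (bif' (tb A (Nat.add (Nat.mul 32 i) j)) true
    (bif' (bnd (tb T (Nat.succ (Nat.mul 2 i))) (tb T (Nat.succ (Nat.mul 2 j)))) true
      (bif' (Nat.beq (clr (clr (row A j))) 0) false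
        (bif' (tb A (Nat.add (Nat.mul 32 j) i)) false true))))

/-- branching over the neighbours of `i` -/
def br (A T i : ℕ) (f : ℕ) : ℕ → ℕ → Bool :=
  Nat.rec (fun _ _ => true)
    (fun _ ih j x => bif' (Nat.beq (lab x) (Nat.succ j))
      (bnd (kid n nq tab syms m (addE A i j) T (Nat.shiftRight x 5))
        (ih (Nat.succ j) (Nat.shiftRight x 24)))
      (bnd (excl A T i j) (ih (Nat.succ j) x))) f

/-- allowed edge of the circuit -/
def edg (A a b : ℕ) : Bool :=
  bnd (tb A (Nat.add (Nat.mul 32 a) b)) (bif' fix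
    (bnd (bif' (Nat.beq a 0) (bif' (Nat.beq b 1) true (Nat.beq (Nat.succ b) c)) true)
      (bif' (Nat.beq b 0) (bif' (Nat.beq a 1) true (Nat.beq (Nat.succ a) c)) true)) true)

/-- the circuit -/
def wk (A T z : ℕ) (f : ℕ) : ℕ → ℕ → ℕ → Bool :=
  Nat.rec (fun a _ u => bnd (edg c fix A a z)
      (allTo n (fun i => bif' (tb u i) true (tb T (Nat.succ (Nat.mul 2 i))))))
    (fun _ ih a x u => bif' (tb u (lab x)) false (bnd (edg c fix A a (lab x))
      (ih (lab x) (Nat.shiftRight x 5) (Nat.lor u (Nat.pow 2 (lab x)))))) f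

/-- the rules: `p` is the code of the proof of the statement `(A, T)` -/
def rule (A T k p : ℕ) : Bool :=
  bif' (Nat.beq k 2)
    (bnd (Nat.ble (Nat.succ (lab p)) n) (bnd (Nat.beq (clr (clr (row A (lab p)))) 0)
      (br n nq tab syms m A T (lab p) n 0 (Nat.shiftRight p 5))))
  (bif' (Nat.beq k 0)
    (bnd (Nat.ble 2 (lab p)) (wk n c fix A T (lab (Nat.shiftRight p 5)) (lab p)
      (lab (Nat.shiftRight p 5)) (Nat.shiftRight p 10)
      (Nat.pow 2 (lab (Nat.shiftRight p 5)))))
  (bif' (Nat.beq k 3)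
    (bnd (kid n nq tab syms m A (Nat.lor T (Nat.pow 2 (Nat.succ (Nat.mul 2 (lab p)))))
      (Nat.shiftRight p 5))
      (kid n nq tab syms m A (Nat.lor T (Nat.pow 2 (Nat.mul 2 (lab p)))) (Nat.shiftRight p 24)))
  (bif' (Nat.beq k 1)
    (bnd (Nat.ble 2 (sumTo n (fun i => (tb p i).toNat)))
      (bnd (Nat.ble (Nat.add (sumTo n (fun i => (tb p i).toNat)) 2) n)
        (Nat.ble (Nat.mul 3 (sumTo n (fun i => (tb p i).toNat)))
          (Nat.add 3 (sumTo n (fun i => sumTo n (fun j =>
            (bnd (tb p i) (bnd (tb p j) (tb A (Nat.add (Nat.mul 32 i) j)))).toNat)))))))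
  (bif' (Nat.beq k 4)
    (Nat.ble (Nat.succ kx) (sumTo n (fun i => (tb T (Nat.mul 2 i)).toNat)))
  (bif' (Nat.beq k 5)
    (Nat.ble (Nat.succ ny) (sumTo n (fun i => (tb T (Nat.succ (Nat.mul 2 i))).toNat)))
  (bif' (Nat.beq k 6)
    (bnd (tb T (Nat.succ (Nat.mul 2 (lab p))))
      (bnd (tb T (Nat.succ (Nat.mul 2 (lab (Nat.shiftRight p 5)))))
        (tb A (Nat.add (Nat.mul 32 (lab p)) (lab (Nat.shiftRight p 5))))))
    false))))))

/-- lemma `m` is proved by the code `p`: 3 bits for the rule -/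
def lem (p : ℕ) : Bool :=
  bnd (lbl n (stM (st tab m)) (stC (st tab m)))
    (rule n c kx ny nq fix tab syms m (adjF (stM (st tab m)) (baseA c) (stC (st tab m)))
      (stT (st tab m)) (Nat.land p 7) (Nat.shiftRight p 3))

/-- a list of lemmas -/
def lems (ps : List ℕ) : ℕ → Bool :=
  List.rec (fun _ => true)
    (fun p _ ih m => bnd (lem n c kx ny nq fix tab syms m p) (ih (Nat.succ m))) ps

/-- `σ` is a symmetry -/
def symOK (σ : ℕ) : Bool :=
  bnd (allTo n (fun v => bnd (Nat.ble (Nat.succ (app σ v)) n)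
    (allTo n (fun w => bif' (Nat.beq (app σ v) (app σ w)) (Nat.beq v w) true))))
  (bnd (allTo c (fun v => tb (baseA c) (Nat.add (Nat.mul 32 (app σ v)) (app σ (nx c v)))))
  (bnd (Nat.beq (app σ c) c)
  (bnd (allTo n (fun v => bif' (Nat.ble (Nat.succ c) v) (Nat.ble (Nat.succ c) (app σ v)) true))
    (bif' fix (bnd (Nat.beq (app σ 0) 0)
      (bnd (bif' (Nat.beq (app σ 1) 1) true (Nat.beq (Nat.succ (app σ 1)) c))
        (bif' (Nat.beq (app σ (Nat.sub c 1)) 1) true
          (Nat.beq (Nat.succ (app σ (Nat.sub c 1))) c)))) true))))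

/-- all permutations of the table are symmetries -/
def symsOK : Bool := allTo nq (fun q => symOK n c fix (sy syms q))

end

end Pool.Agent.CDC.Mach
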