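import Pool.Agent.CDC.NTable

/-!
# The nine point theorem for cubic graphs
-/

set_option autoImplicit false

namespace Pool.Agent.CDC

open Mach

variable {V E : Type} {G : MGraph V E}

/-- the base problem for `AStm` -/
theorem A_base : ∀ j : ℕ, j ≤ 4 → ABase j := by
  classical
  intro j
  induction j using Nat.strong_induction_on with
  | _ j ih =>
    intro hj V E _ _ G hG h3 ht b e hbe X hX hcov
    by_cases hn7 : Nat.card V ≤ 7
    · obtain ⟨C, hC, he, hall⟩ := ham6 hG h3 ht hn7 hbe
      exact ⟨C, hC, he, hall b, fun x _ => hall x⟩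
    · -- the set of all vertices to be visited
      set Y : Set V := insert b X with hY
      have hbY : b ∈ Y := Set.mem_insert _ _
      have hcovY : ∀ a, ∃ w, G.inc w a ∧ w ∈ Y := by
        intro a
        obtain ⟨w, hw, h⟩ := hcov a
        exact ⟨w, hw, h⟩
      have hYle : Y.ncard ≤ j + 1 := (Set.ncard_insert_le b X).trans (by omega)
      have hE := card_edges hG
      have hEY := card_le_cover hG hcovY
      have hpos : 1 ≤ j := by omega
      have hAst : AStm (j - 1) G := A_of_base (ih (j - 1) (by omega) (by omega)) _ _ _ G rfl hG h3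
      have hsd : ∀ x0 ∈ X, x0 ≠ b → Y.ncard = j + 1 → (X \ {x0}).ncard ≤ j - 1 := by
        intro x0 hx0 _ _
        have := Set.ncard_sdiff_singleton_add_one hx0 (Set.toFinite X)
        omega
      by_cases hYj : Y.ncard ≤ j
      · have h1 : (X \ {b}).ncard ≤ j - 1 := by
          have h2 : X \ {b} ⊆ Y \ {b} := fun x hx => ⟨Or.inr hx.1, hx.2⟩
          have h4 := Set.ncard_le_ncard h2 (Set.toFinite _)
          have h5 := Set.ncard_sdiff_singleton_add_one hbY (Set.toFinite Y)
          omega
        obtain ⟨C, hC, he, hb, hXC⟩ := hAst b e hbe (X \ {b}) h1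
        refine ⟨C, hC, he, hb, fun x hx => ?_⟩
        by_cases hxb : x = b
        · rw [hxb]; exact hb
        · exact hXC ⟨hx, hxb⟩
      · have hYk : Y.ncard = j + 1 := by omega
        -- the final part
        have fin : ∀ C, G.MinEven C → e ∉ C → b ∈ G.verts C → ∀ x0 ∈ X, x0 ≠ b →
            X \ {x0} ⊆ G.verts C → x0 ∉ G.verts C →
            (∀ m, 3 * Nat.card V ≤ 2 * (m + 3 + (j + 1)) ∨
              (Nat.card V = 2 * (j + 1) ∧ 3 * Nat.card V ≤ 2 * (m + 4 + (j + 1))) ∨
                ¬ Nonempty (Circ G C m)) →
            ∃ C, G.MinEven C ∧ e ∉ C ∧ b ∈ G.verts C ∧ X ⊆ G.verts C := by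
          intro C hC heC hbC x0 hx0X hx0b hXC hx0 hm
          obtain ⟨m, ⟨K⟩⟩ := (minEven_isCircuit hC).circ
          have hXY : ∀ x ∈ Y, x ≠ x0 → x ∈ G.verts C := by
            rintro x (rfl | hx) hne
            · exact hbC
            · exact hXC ⟨hx, hne⟩
          obtain ⟨r, hr⟩ := (K.mem_verts b).1 hbC
          have hmlt : m + 2 + 1 ≤ Nat.card V := by
            obtain ⟨l, L, _⟩ := exists_lbl K r hx0 (Or.inr hx0X : x0 ∈ Y) hXY
            exact L.hc
          have hcl : Closed (Nat.card V) (m + 2) Y.ncard (Nat.card V - Y.ncard) true false := by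
            rw [hYk]
            obtain ⟨q, hq⟩ : ∃ q, Nat.card V = 2 * q := ⟨Nat.card E - Nat.card V, by omega⟩
            rcases hm m with h | ⟨h, h'⟩ | h
            · rw [hq]
              exact closedA (by omega) (by omega) (by omega) (by omega) (by omega)
            · rw [h]
              exact closedA0 (by omega) (by omega) (by omega) (by omega)
            · exact absurd ⟨K⟩ h
          obtain ⟨C', hC', hYC', hfix⟩ := apply_cert hG h3 ht (by omega) hcovY K r hx0
            (Or.inr hx0X : x0 ∈ Y) hXY (fix := true) (first := false)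
            (fun h => absurd h (by decide)) hcl
          exact ⟨C', isCircuit_minEven hC', hfix rfl e (by rw [hr]; exact hbe) heC, hYC' hbY,
            fun x hx => hYC' (Or.inr hx)⟩
        by_cases hex : ∃ x ∈ Y, ∃ y ∈ Y, nb G x y
        · obtain ⟨x0, hx0Y, x1, hx1Y, hnb, hx0b⟩ : ∃ x0 ∈ Y, ∃ x1 ∈ Y, nb G x0 x1 ∧ x0 ≠ b := by
            obtain ⟨x, hx, y, hy, hxy⟩ := hex
            by_cases hxb : x = b
            · refine ⟨y, hy, x, hx, nb_symm hxy, ?_⟩
              rintro rfl
              exact hxy.1 hxb
            · exact ⟨x, hx, y, hy, hxy, hxb⟩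
          have hx0X : x0 ∈ X := by
            rcases hx0Y with h | h
            · exact absurd h hx0b
            · exact h
          obtain ⟨C, hC, he, hb, hXC⟩ := hAst b e hbe (X \ {x0}) (hsd x0 hx0X hx0b hYk)
          by_cases hx0 : x0 ∈ G.verts C
          · refine ⟨C, hC, he, hb, fun x hx => ?_⟩
            by_cases hxb : x = x0
            · rw [hxb]; exact hx0
            · exact hXC ⟨hx, hxb⟩
          · refine fin C hC he hb x0 hx0X hx0b hXC hx0 (fun m => ?_)
            by_cases hK : Nonempty (Circ G C m)
            · left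
              obtain ⟨K⟩ := hK
              have hXY : ∀ x ∈ Y, x ≠ x0 → x ∈ G.verts C := by
                rintro x (rfl | hx) hne
                · exact hb
                · exact hXC ⟨hx, hne⟩
              have := off_bound' hG K hcovY hx0 (Or.inr hx0X : x0 ∈ Y) hXY hx1Y hnb
              omega
            · exact Or.inr (Or.inr hK)
        · push Not at hex
          have h5 := card_ge_indep hG hex
          have hXne : X.Nonempty := by
            apply Set.nonempty_of_ncard_ne_zero
            intro h0
            have h6 := Set.ncard_insert_le b X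
            rw [← hY] at h6
            omega
          obtain ⟨x0, hx0X⟩ : ∃ x0, x0 ∈ X := hXne
          have hx0b : x0 ≠ b := by
            rintro rfl
            have : Y = X := Set.insert_eq_of_mem hx0X
            rw [this] at hYk
            omega
          obtain ⟨C, hC, he, hb, hXC⟩ := hAst b e hbe (X \ {x0}) (hsd x0 hx0X hx0b hYk)
          by_cases hx0 : x0 ∈ G.verts C
          · refine ⟨C, hC, he, hb, fun x hx => ?_⟩
            by_cases hxb : x = x0
            · rw [hxb]; exact hx0
            · exact hXC ⟨hx, hxb⟩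
          · refine fin C hC he hb x0 hx0X hx0b hXC hx0 (fun m => ?_)
            by_cases hK : Nonempty (Circ G C m)
            · right; left
              obtain ⟨K⟩ := hK
              have hXY : ∀ x ∈ Y, x ≠ x0 → x ∈ G.verts C := by
                rintro x (rfl | hx) hne
                · exact hb
                · exact hXC ⟨hx, hne⟩
              have := off_bound hG K hcovY hx0 (Or.inr hx0X : x0 ∈ Y) hXY
              omega
            · exact Or.inr (Or.inr hK)

/-- the base problem for `PStm` -/
theorem P_base : ∀ k : ℕ, k ≤ 9 → PBase k := by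
  classical
  intro k
  induction k using Nat.strong_induction_on with
  | _ k ih =>
    intro hk V E _ _ _ G hG h3 ht X hX hcov
    by_cases hn7 : Nat.card V ≤ 7
    · obtain ⟨b⟩ := (inferInstance : Nonempty V)
      obtain ⟨e, hbe⟩ := exists_edge hG b
      obtain ⟨C, hC, he, hall⟩ := ham6 hG h3 ht hn7 hbe
      exact ⟨C, hC, fun x _ => hall x⟩
    · have hE := card_edges hG
      have hEX := card_le_cover hG hcov
      have hpos : 1 ≤ k := by omega
      have hP : PStm (k - 1) G := P_of_base (A_base ((k - 1) / 2) (by omega))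
        (ih (k - 1) (by omega) (by omega)) _ _ _ G rfl hG h3
      by_cases hXk : X.ncard ≤ k - 1
      · exact hP X hXk
      · have hXk' : X.ncard = k := by omega
        obtain ⟨q, hq⟩ : ∃ q, Nat.card V = 2 * q := ⟨Nat.card E - Nat.card V, by omega⟩
        have hsd : ∀ x0 ∈ X, (X \ {x0}).ncard ≤ k - 1 := by
          intro x0 hx0
          have := Set.ncard_sdiff_singleton_add_one hx0 (Set.toFinite X)
          omega
        by_cases hex : ∃ x ∈ X, ∃ y ∈ X, nb G x y
        · obtain ⟨x0, hx0X, x1, hx1X, hnb⟩ := hex
          obtain ⟨C, hC, hXC⟩ := hP (X \ {x0}) (hsd x0 hx0X)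
          have hXY : ∀ x ∈ X, x ≠ x0 → x ∈ G.verts C := fun x hx hne => hXC ⟨hx, hne⟩
          by_cases hx0 : x0 ∈ G.verts C
          · refine ⟨C, hC, fun x hx => ?_⟩
            by_cases hxb : x = x0
            · rw [hxb]; exact hx0
            · exact hXY x hx hxb
          · obtain ⟨m, ⟨K⟩⟩ := (minEven_isCircuit hC).circ
            obtain ⟨r, hr⟩ := (K.mem_verts x1).1 (hXY x1 hx1X hnb.1.symm)
            have hmlt : m + 2 + 1 ≤ Nat.card V := by
              obtain ⟨l, L, _⟩ := exists_lbl K r hx0 hx0X hXY
              exact L.hc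
            have h6 := off_bound' hG K hcov hx0 hx0X hXY hx1X hnb
            have h7 := cover_le_circ K hx0X hXY
            have hcl : Closed (Nat.card V) (m + 2) X.ncard (Nat.card V - X.ncard) false true := by
              rw [hXk', hq]
              exact closedP (by omega) (by omega) (by omega) (by omega) (by omega) (by omega)
            obtain ⟨C', hC', hYC', _⟩ := apply_cert hG h3 ht (by omega) hcov K r hx0 hx0X hXY
              (fix := false) (first := true)
              (fun _ => ⟨by rw [hr]; exact nb_symm hnb, by rw [hr]; exact hx1X⟩) hcl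
            exact ⟨C', isCircuit_minEven hC', hYC'⟩
        · push Not at hex
          have h5 := card_ge_indep hG hex
          have hXne : X.Nonempty := Set.nonempty_of_ncard_ne_zero (by omega)
          obtain ⟨x0, hx0X⟩ := hXne
          obtain ⟨C, hC, hXC⟩ := hP (X \ {x0}) (hsd x0 hx0X)
          have hXY : ∀ x ∈ X, x ≠ x0 → x ∈ G.verts C := fun x hx hne => hXC ⟨hx, hne⟩
          by_cases hx0 : x0 ∈ G.verts C
          · refine ⟨C, hC, fun x hx => ?_⟩
            by_cases hxb : x = x0
            · rw [hxb]; exact hx0
            · exact hXY x hx hxb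
          · obtain ⟨m, ⟨K⟩⟩ := (minEven_isCircuit hC).circ
            have hmlt : m + 2 + 1 ≤ Nat.card V := by
              obtain ⟨l, L, _⟩ := exists_lbl K 0 hx0 hx0X hXY
              exact L.hc
            have h6 := off_bound hG K hcov hx0 hx0X hXY
            have hnk : Nat.card V = 2 * k := by omega
            have hcl : Closed (Nat.card V) (m + 2) X.ncard (Nat.card V - X.ncard) false
                false := by
              rw [hXk', hnk]
              exact closedP0 (by omega) (by omega) (by omega) (by omega)
            obtain ⟨C', hC', hYC', _⟩ := apply_cert hG h3 ht (by omega) hcov K 0 hx0 hx0X hXY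
              (fix := false) (first := false) (fun h => absurd h (by decide)) hcl
            exact ⟨C', isCircuit_minEven hC', hYC'⟩

/-- **Nine point theorem.** Every at most nine vertices of a three-edge-connected cubic graph lie
on a circuit. -/
theorem nine_point {V E : Type} [Finite V] [Finite E] [Nonempty V] (G : MGraph V E)
    (hG : G.Cubic) (h3 : ∀ S : Set V, S.Nonempty → Sᶜ.Nonempty → 3 ≤ (G.cut S).ncard)
    (X : Set V) (hX : X.ncard ≤ 9) : ∃ C, G.IsCircuit C ∧ X ⊆ G.verts C := by
  obtain ⟨C, hC, hXC⟩ := P_of_base (k := 9) (A_base (9 / 2) (by norm_num)) (P_base 9 le_rfl)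
    _ V E G rfl hG h3 X hX
  exact ⟨C, minEven_isCircuit hC, hXC⟩

/-- Through every vertex and at most four others there is a circuit which avoids a given edge at
this vertex. -/
theorem five_point_avoid {V E : Type} [Finite V] [Finite E] (G : MGraph V E)
    (hG : G.Cubic) (h3 : ∀ S : Set V, S.Nonempty → Sᶜ.Nonempty → 3 ≤ (G.cut S).ncard)
    (b : V) (e : E) (hbe : G.inc b e) (X : Set V) (hX : X.ncard ≤ 4) :
    ∃ C, G.IsCircuit C ∧ e ∉ C ∧ b ∈ G.verts C ∧ X ⊆ G.verts C := by
  obtain ⟨C, hC, he, hb, hXC⟩ := A_of_base (A_base 4 le_rfl) _ V E G rfl hG h3 b e hbe X hX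
  exact ⟨C, minEven_isCircuit hC, he, hb, hXC⟩

end Pool.Agent.CDC
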