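import Pool.Agent.CDC.NSound

/-!
# Symmetries of labelled models
-/

set_option autoImplicit false

namespace Pool.Agent.CDC.Mach

variable {n c kx ny : ℕ}

/-- symmetries -/
structure Sym (n c : ℕ) (fix : Bool) (s : ℕ → ℕ) : Prop where
  lt : ∀ v, v < n → s v < n
  inj : ∀ v, v < n → ∀ w, w < n → s v = s w → v = w
  circ : ∀ v, v < c → (baseA c).testBit (32 * s v + s (nx c v)) = true
  fc : s c = c
  off : ∀ v, c < v → v < n → c < s v
  b32 : ∀ v, s v < 32
  f0 : fix = true → s 0 = 0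
  f1 : fix = true → s 1 = 1 ∨ s 1 + 1 = c
  f2 : fix = true → s (c - 1) = 1 ∨ s (c - 1) + 1 = c

theorem symOK_sym {fix : Bool} {σ : ℕ} (h : symOK n c fix σ = true) :
    Sym n c fix (app σ) := by
  unfold symOK at h
  simp only [bnd_iff, allTo_iff, bif_iff, ble_iff, ble_false, beq_iff, beq_false, tb_eq] at h
  obtain ⟨h1, h2, h3, h4, h5⟩ := h
  refine ⟨fun v hv => Nat.lt_of_succ_le (h1 v hv).1, ?_, h2, h3, ?_, app_lt σ, ?_, ?_, ?_⟩
  · intro v hv w hw hvw
    rcases (h1 v hv).2 w hw with h | h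
    · exact h.2
    · exact absurd hvw h.1
  · intro v hcv hv
    rcases h4 v hv with h | h
    · exact Nat.lt_of_succ_le h.2
    · exact absurd hcv (by omega)
  · intro hf
    rcases h5 with h | h
    · exact h.2.1
    · rw [hf] at h; exact absurd h.1 (by decide)
  · intro hf
    rcases h5 with h | h
    · rcases h.2.2.1 with h' | h'
      · exact Or.inl h'.1
      · exact Or.inr h'.2
    · rw [hf] at h; exact absurd h.1 (by decide)
  · intro hf
    rcases h5 with h | h
    · rcases h.2.2.2 with h' | h'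
      · exact Or.inl h'.1
      · exact Or.inr h'.2
    · rw [hf] at h; exact absurd h.1 (by decide)

namespace Sym

variable {fix : Bool} {s : ℕ → ℕ}

theorem surj (hs : Sym n c fix s) : ∀ w, w < n → ∃ v, v < n ∧ s v = w := by
  have h1 : Set.SurjOn s (Finset.range n : Set ℕ) (Finset.range n : Set ℕ) := by
    apply Finset.surjOn_of_injOn_of_card_le s
    · intro v hv
      simp only [Finset.coe_range, Set.mem_Iio] at hv ⊢
      exact hs.lt v hv
    · intro v hv w hw h
      simp only [Finset.coe_range, Set.mem_Iio] at hv hw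
      exact hs.inj v hv w hw h
    · exact le_rfl
  intro w hw
  obtain ⟨v, hv, hvw⟩ := h1 (show w ∈ (Finset.range n : Set ℕ) by simpa using hw)
  exact ⟨v, by simpa using hv, hvw⟩

/-- numbers of elements of sets are preserved -/
theorem ncard_eq (hs : Sym n c fix s) (P : ℕ → Prop) (hP : ∀ v, P v → v < n) :
    {v | v < n ∧ P (s v)}.ncard = {v | P v}.ncard := by
  have h1 : {v | P v} = s '' {v | v < n ∧ P (s v)} := by
    ext w
    constructor
    · intro hw
      obtain ⟨v, hv, rfl⟩ := hs.surj w (hP w hw)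
      exact ⟨v, ⟨hv, hw⟩, rfl⟩
    · rintro ⟨v, ⟨_, hv⟩, rfl⟩
      exact hv
  rw [h1, Set.InjOn.ncard_image]
  intro v hv w hw h
  exact hs.inj v hv.1 w hw.1 h

end Sym

/-- adjacency bits of the circuit -/
theorem Model.base_adj (M : Model n c kx ny) (hn : n ≤ 32) (hc : c ≤ n) :
    AdjOK M.adj (baseA c) := by
  have key : ∀ f, f ≤ c → AdjOK M.adj (Nat.rec 0 (fun k ih => addE ih k (nx c k)) f) := by
    intro f
    induction f with
    | zero => intro _; exact adjOK_zero _
    | succ f ih =>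
      intro hf
      have h1 := M.circ f (by omega)
      have h2 := M.symm _ _ h1
      exact adjOK_addE (ih (by omega)) h1 h2 (by omega)
        (lt_of_lt_of_le (M.lt _ _ h2) hn)
  exact key c le_rfl

/-- pull back of a model along a symmetry -/
def Model.pull (M : Model n c kx ny) {fix : Bool} {s : ℕ → ℕ} (hs : Sym n c fix s)
    (hn : n ≤ 32) (hcn : c < n) : Model n c kx ny where
  adj a b := a < n ∧ b < n ∧ M.adj (s a) (s b)
  X a := M.X (s a)
  symm a b h := ⟨h.2.1, h.1, M.symm _ _ h.2.2⟩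
  lt a b h := h.1
  irr a h := M.irr _ h.2.2
  deg a ha := by
    have h1 : {b | a < n ∧ b < n ∧ M.adj (s a) (s b)} = {b | b < n ∧ M.adj (s a) (s b)} := by
      ext b
      exact ⟨fun h => h.2, fun h => ⟨ha, h⟩⟩
    rw [h1, hs.ncard_eq (fun b => M.adj (s a) b) (fun b hb => M.lt _ _ (M.symm _ _ hb))]
    exact M.deg _ (hs.lt a ha)
  yy a b h := M.yy _ _ h.2.2
  circ i hi := by
    have h1 : nx c i < n := by
      unfold nx
      split_ifs
      · omega
      · omega
    exact ⟨by omega, h1, M.base_adj hn hcn.le _ _ (hs.b32 _) (hs.circ i hi)⟩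
  offX := by rw [hs.fc]; exact M.offX
  offY i h1 h2 := M.offY _ (hs.off i h1 h2) (hs.lt i h2)
  cntX := by
    have h1 := hs.ncard_eq (fun v => v < n ∧ M.X v) (fun v hv => hv.1)
    refine Eq.trans (congrArg Set.ncard ?_) (h1.trans M.cntX)
    ext v
    exact ⟨fun h => ⟨h.1, hs.lt v h.1, h.2⟩, fun h => ⟨h.1, h.2.2⟩⟩
  cntY := by
    have h1 := hs.ncard_eq (fun v => v < n ∧ ¬ M.X v) (fun v hv => hv.1)
    refine Eq.trans (congrArg Set.ncard ?_) (h1.trans M.cntY)
    ext v
    exact ⟨fun h => ⟨h.1, hs.lt v h.1, h.2⟩, fun h => ⟨h.1, h.2.2⟩⟩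
  tight S hS h2 h3 := by
    classical
    have hinj : ∀ x ∈ S, ∀ y ∈ S, s x = s y → x = y := fun x hx y hy h =>
      hs.inj x (hS x hx) y (hS y hy) h
    have hcard : (S.image s).card = S.card := Finset.card_image_of_injOn hinj
    have h4 := M.tight (S.image s) (by
      intro i hi
      obtain ⟨x, hx, rfl⟩ := Finset.mem_image.1 hi
      exact hs.lt x (hS x hx)) (by rw [hcard]; exact h2) (by rw [hcard]; exact h3)
    rw [Finset.sum_image hinj] at h4
    refine h4.trans (le_of_eq (Finset.sum_congr rfl fun i hi => ?_))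
    rw [← hs.ncard_eq (fun j => j ∉ S.image s ∧ M.adj (s i) j)
      (fun j hj => M.lt _ _ (M.symm _ _ hj.2))]
    congr 1
    ext j
    constructor
    · rintro ⟨hj, hj1, hj2⟩
      exact ⟨fun hjS => hj1 (Finset.mem_image_of_mem s hjS), hS i hi, hj, hj2⟩
    · rintro ⟨hj, _, hj1, hj2⟩
      refine ⟨hj1, fun hjS => ?_, hj2⟩
      obtain ⟨x, hx, hxj⟩ := Finset.mem_image.1 hjS
      exact hj (hs.inj x (hS x hx) j hj1 hxj ▸ hx)

theorem Walk.map {R R' : ℕ → ℕ → Prop} {s : ℕ → ℕ} (h : ∀ x y, R x y → R' (s x) (s y))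
    {z : ℕ} : ∀ {t : List ℕ} {a : ℕ}, Walk R z a t → Walk R' (s z) (s a) (t.map s)
  | [], _, hw => h _ _ hw
  | _ :: _, _, hw => ⟨h _ _ hw.1, Walk.map h hw.2⟩

theorem Walk.mem {R : ℕ → ℕ → Prop} {z : ℕ} : ∀ {t : List ℕ} {a : ℕ}, Walk R z a t →
    ∀ x ∈ a :: t, ∃ y, R x y
  | [], a, hw => by
    intro x hx
    rw [List.mem_singleton] at hx
    subst hx
    exact ⟨z, hw⟩
  | b :: t, a, hw => by
    intro x hx
    rcases List.mem_cons.1 hx with rfl | hx
    · exact ⟨b, hw.1⟩
    · exact Walk.mem hw.2 x hx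

theorem Model.goal_of_pull (M : Model n c kx ny) {fix : Bool} {s : ℕ → ℕ} (hs : Sym n c fix s)
    (hn : n ≤ 32) (hcn : c < n) (h : (M.pull hs hn hcn).Goal fix) : M.Goal fix := by
  obtain ⟨h0, t, hnd, hlen, hw, hX⟩ := h
  have hmem := hw.mem
  refine ⟨s h0, t.map s, ?_, by rw [List.length_map]; exact hlen, ?_, ?_⟩
  · have h1 : s h0 :: t.map s = (h0 :: t).map s := rfl
    rw [h1]
    refine List.Nodup.map_on ?_ hnd
    intro x hx y hy hxy
    obtain ⟨x', hx'⟩ := hmem x hx
    obtain ⟨y', hy'⟩ := hmem y hy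
    exact hs.inj x hx'.1.1 y hy'.1.1 hxy
  · refine Walk.map ?_ hw
    intro x y hxy
    refine ⟨hxy.1.2.2, fun hf => ⟨fun hx => ?_, fun hy => ?_⟩⟩
    · have hx0 : x = 0 := hs.inj x hxy.1.1 0 (by omega) (by rw [hx, hs.f0 hf])
      rcases (hxy.2 hf).1 hx0 with h1 | h1
      · rw [h1]
        exact hs.f1 hf
      · have : y = c - 1 := by omega
        rw [this]
        exact hs.f2 hf
    · have hy0 : y = 0 := hs.inj y hxy.1.2.1 0 (by omega) (by rw [hy, hs.f0 hf])
      rcases (hxy.2 hf).2 hy0 with h1 | h1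
      · rw [h1]
        exact hs.f1 hf
      · have : x = c - 1 := by omega
        rw [this]
        exact hs.f2 hf
  · intro i hi hXi
    obtain ⟨v, hv, rfl⟩ := hs.surj i hi
    have h1 : s v ∈ (h0 :: t).map s := List.mem_map_of_mem (hX v hv hXi)
    exact h1

end Pool.Agent.CDC.Mach
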