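import Pool.Agent.CDC.NPull

/-!
# Soundness of the rules
-/

set_option autoImplicit false

namespace Pool.Agent.CDC.Mach

variable {n c kx ny nq : ℕ} {fix : Bool} {tab syms m : ℕ}

/-- statement `l` of the table holds in all models -/
def Good (n c kx ny : ℕ) (fix : Bool) (tab l : ℕ) : Prop :=
  lbl n (stM (st tab l)) (stC (st tab l)) = true ∧
  ∀ M : Model n c kx ny, ChOK M.adj (stM (st tab l)) (stC (st tab l)) →
    TyOK n M.X (stT (st tab l)) → M.Goal fix

/-- all permutations of the table are symmetries -/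
def SymsOK (n c nq : ℕ) (fix : Bool) (syms : ℕ) : Prop :=
  ∀ q, q < nq → Sym n c fix (app (sy syms q))

theorem symsOK_ok (h : symsOK n c nq fix syms = true) : SymsOK n c nq fix syms := by
  intro q hq
  unfold symsOK at h
  exact symOK_sym (allTo_iff.1 h q hq)

theorem kid_ok (hn : n ≤ 32) (hcn : c < n) (hsy : SymsOK n c nq fix syms)
    (hG : ∀ l, l < m → Good n c kx ny fix tab l) (M : Model n c kx ny) {A T x : ℕ}
    (hA : AdjOK M.adj A) (hT : TyOK n M.X T) (h : kid n nq tab syms m A T x = true) :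
    M.Goal fix := by
  unfold kid kid' at h
  simp only [bnd_iff, ble_iff] at h
  obtain ⟨h1, h2, h3, h4⟩ := h
  have hs := hsy _ (Nat.lt_of_succ_le h1)
  obtain ⟨hlbl, hgood⟩ := hG _ (Nat.lt_of_succ_le h2)
  apply M.goal_of_pull hs hn hcn
  apply hgood
  · exact chk_ok hA (fun a b ha hb hab => ⟨ha, hb, hab⟩) _ hlbl h3
  · intro i hi
    constructor
    · intro h5
      have h6 := chT_ok n h4 i hi 0 (by omega) (by simpa using h5)
      exact (hT _ (hs.lt i hi)).1 (by simpa using h6)
    · intro h5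
      have h6 := chT_ok n h4 i hi 1 (by omega) h5
      exact (hT _ (hs.lt i hi)).2 h6

theorem excl_ok (M : Model n c kx ny) {A T i j : ℕ}
    (hA : AdjOK M.adj A) (hT : TyOK n M.X T) (h : excl A T i j = true) (hij : M.adj i j) :
    A.testBit (32 * i + j) = true := by
  have hi : i < n := M.lt _ _ hij
  have hj : j < n := M.lt _ _ (M.symm _ _ hij)
  unfold excl at h
  simp only [bif_iff, bnd_iff, tb_eq, beq_iff] at h
  rcases h with ⟨rfl, _⟩ | ⟨_, h⟩
  · exact absurd hij (M.irr _)
  rcases h with ⟨h, _⟩ | ⟨_, h⟩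
  · exact h
  rcases h with ⟨h, _⟩ | ⟨_, h⟩
  · exfalso
    rcases M.yy _ _ hij with h1 | h1
    · exact (hT i hi).2 h.1 h1
    · exact (hT j hj).2 h.2 h1
  rcases h with ⟨_, h⟩ | ⟨h, h'⟩
  · exact absurd h (by decide)
  rcases h' with ⟨_, h'⟩ | ⟨h', _⟩
  · exact absurd h' (by decide)
  exfalso
  rw [beq_false] at h
  obtain ⟨p, q, w, hpq, hpw, hqw, hp, hq, hw⟩ := three_bits h
  rw [row_testBit] at hp hq hw
  have hp1 := hA _ _ hp.1 hp.2
  have hq1 := hA _ _ hq.1 hq.2
  have hw1 := hA _ _ hw.1 hw.2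
  have h1 : ({p, q, w} : Set ℕ) ⊆ {b | M.adj j b} := by
    rintro x (rfl | rfl | rfl)
    · exact hp1
    · exact hq1
    · exact hw1
  have h2 : ({p, q, w} : Set ℕ).ncard = 3 := Set.ncard_eq_three.2 ⟨p, q, w, hpq, hpw, hqw, rfl⟩
  have hfin : {b | M.adj j b}.Finite :=
    (Set.finite_Iio n).subset (fun b hb => M.lt _ _ (M.symm _ _ hb))
  have h3 := Set.eq_of_subset_of_ncard_le h1 (by rw [M.deg j hj, h2]) hfin
  have h4 : i ∈ ({p, q, w} : Set ℕ) := by
    rw [h3]; exact M.symm _ _ hij
  have h5 : A.testBit (32 * j + i) = true := by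
    rcases h4 with rfl | rfl | rfl
    · exact hp.2
    · exact hq.2
    · exact hw.2
  exact absurd (h5.symm.trans h') (by decide)

theorem br_ok (hn : n ≤ 32) (hcn : c < n) (hsy : SymsOK n c nq fix syms)
    (hG : ∀ l, l < m → Good n c kx ny fix tab l) (M : Model n c kx ny) {A T i : ℕ}
    (hA : AdjOK M.adj A) (hT : TyOK n M.X T) (f : ℕ) :
    ∀ {j x : ℕ}, br n nq tab syms m A T i f j x = true →
      ∀ j', j ≤ j' → j' < j + f → M.adj i j' → A.testBit (32 * i + j') = true ∨ M.Goal fix := by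
  induction f with
  | zero => intro j x _ j' h1 h2; omega
  | succ f ih =>
    intro j x h j' h1 h2 hadj
    have h3 : bif' (Nat.beq (lab x) (Nat.succ j))
      (bnd (kid n nq tab syms m (addE A i j) T (Nat.shiftRight x 5))
        (br n nq tab syms m A T i f (Nat.succ j) (Nat.shiftRight x 24)))
      (bnd (excl A T i j) (br n nq tab syms m A T i f (Nat.succ j) x)) = true := h
    simp only [bif_iff, bnd_iff] at h3
    have hi : i < n := M.lt _ _ hadj
    have hj : j' < n := M.lt _ _ (M.symm _ _ hadj)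
    rcases h3 with ⟨_, h4, h5⟩ | ⟨_, h4, h5⟩
    · by_cases hjj : j' = j
      · subst hjj
        right
        exact kid_ok hn hcn hsy hG M
          (adjOK_addE hA hadj (M.symm _ _ hadj) (by omega) (by omega)) hT h4
      · exact ih h5 j' (by omega) (by omega) hadj
    · by_cases hjj : j' = j
      · subst hjj
        left
        exact excl_ok M hA hT h4 hadj
      · exact ih h5 j' (by omega) (by omega) hadj

theorem branch_ok (hn : n ≤ 32) (hcn : c < n) (hsy : SymsOK n c nq fix syms)
    (hG : ∀ l, l < m → Good n c kx ny fix tab l) (M : Model n c kx ny) {A T i x : ℕ}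
    (hA : AdjOK M.adj A) (hT : TyOK n M.X T) (hi : i < n) (h0 : clr (clr (row A i)) = 0)
    (h : br n nq tab syms m A T i n 0 x = true) : M.Goal fix := by
  obtain ⟨p, q, w, hpq, hpw, hqw, hset⟩ := Set.ncard_eq_three.1 (M.deg i hi)
  have hadj : ∀ b, b = p ∨ b = q ∨ b = w → M.adj i b := by
    intro b hb
    have : b ∈ {b | M.adj i b} := by rw [hset]; exact hb
    exact this
  by_contra hcon
  have key : ∀ b, b = p ∨ b = q ∨ b = w → (row A i).testBit b = true := by
    intro b hb
    have hb1 := hadj b hb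
    have hbn : b < n := M.lt _ _ (M.symm _ _ hb1)
    rw [row_testBit]
    refine ⟨by omega, ?_⟩
    rcases br_ok hn hcn hsy hG M hA hT n h b (Nat.zero_le _) (by omega) hb1 with h1 | h1
    · exact h1
    · exact absurd h1 hcon
  exact not_three h0 hpq hpw hqw (key p (Or.inl rfl)) (key q (Or.inr (Or.inl rfl)))
    (key w (Or.inr (Or.inr rfl)))

theorem type_ok (hn : n ≤ 32) (hcn : c < n) (hsy : SymsOK n c nq fix syms)
    (hG : ∀ l, l < m → Good n c kx ny fix tab l) (M : Model n c kx ny) {A T i x y : ℕ}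
    (hA : AdjOK M.adj A) (hT : TyOK n M.X T)
    (h1 : kid n nq tab syms m A (Nat.lor T (Nat.pow 2 (Nat.succ (Nat.mul 2 i)))) x = true)
    (h2 : kid n nq tab syms m A (Nat.lor T (Nat.pow 2 (Nat.mul 2 i))) y = true) :
    M.Goal fix := by
  have e1 : Nat.lor T (Nat.pow 2 (Nat.succ (Nat.mul 2 i))) = T ||| 2 ^ (2 * i + 1) := rfl
  have e2 : Nat.lor T (Nat.pow 2 (Nat.mul 2 i)) = T ||| 2 ^ (2 * i) := rfl
  rw [e1] at h1
  rw [e2] at h2
  by_cases hX : M.X i
  · refine kid_ok hn hcn hsy hG M hA ?_ h2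
    intro v hv
    rw [Nat.testBit_or, Nat.testBit_or, Nat.testBit_two_pow, Nat.testBit_two_pow]
    constructor
    · intro h
      rw [Bool.or_eq_true, decide_eq_true_eq] at h
      rcases h with h | h
      · exact (hT v hv).1 h
      · have : i = v := by omega
        rw [← this]; exact hX
    · intro h
      rw [Bool.or_eq_true, decide_eq_true_eq] at h
      rcases h with h | h
      · exact (hT v hv).2 h
      · omega
  · refine kid_ok hn hcn hsy hG M hA ?_ h1
    intro v hv
    rw [Nat.testBit_or, Nat.testBit_or, Nat.testBit_two_pow, Nat.testBit_two_pow]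
    constructor
    · intro h
      rw [Bool.or_eq_true, decide_eq_true_eq] at h
      rcases h with h | h
      · exact (hT v hv).1 h
      · omega
    · intro h
      rw [Bool.or_eq_true, decide_eq_true_eq] at h
      rcases h with h | h
      · exact (hT v hv).2 h
      · have : i = v := by omega
        rw [← this]; exact hX

theorem edg_ok (M : Model n c kx ny) {A a b : ℕ} (hA : AdjOK M.adj A) (hb : b < 32)
    (h : edg c fix A a b = true) : M.R fix a b := by
  unfold edg at h
  simp only [bnd_iff, bif_iff, tb_eq, beq_iff, beq_false] at h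
  refine ⟨hA a b hb h.1, fun hf => ?_⟩
  rcases h.2 with ⟨_, h1, h2⟩ | ⟨h1, _⟩
  · constructor
    · intro ha
      rcases h1 with ⟨_, h3 | h3⟩ | ⟨h3, _⟩
      · exact Or.inl h3.1
      · exact Or.inr h3.2
      · exact absurd ha h3
    · intro hb0
      rcases h2 with ⟨_, h3 | h3⟩ | ⟨h3, _⟩
      · exact Or.inl h3.1
      · exact Or.inr h3.2
      · exact absurd hb0 h3
  · rw [hf] at h1
    exact absurd h1 (by decide)

theorem wk_ok (M : Model n c kx ny) {A T z : ℕ} (hA : AdjOK M.adj A)
    (hT : TyOK n M.X T) (hz : z < 32) (f : ℕ) : ∀ {a x u : ℕ}, wk n c fix A T z f a x u = true →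
      ∃ t : List ℕ, t.length = f ∧ t.Nodup ∧ (∀ b ∈ t, u.testBit b = false) ∧
        Walk (M.R fix) z a t ∧ ∀ i, i < n → M.X i → u.testBit i = true ∨ i ∈ t := by
  induction f with
  | zero =>
    intro a x u h
    have h1 : bnd (edg c fix A a z)
      (allTo n (fun i => bif' (tb u i) true (tb T (Nat.succ (Nat.mul 2 i))))) = true := h
    rw [bnd_iff, allTo_iff] at h1
    refine ⟨[], rfl, List.nodup_nil, by simp, edg_ok M hA hz h1.1, ?_⟩
    intro i hi hX
    have h2 := h1.2 i hi
    rw [bif_iff, tb_eq, tb_eq] at h2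
    rcases h2 with h2 | h2
    · exact Or.inl h2.1
    · exact absurd hX ((hT i hi).2 h2.2)
  | succ f ih =>
    intro a x u h
    have h1 : bif' (tb u (lab x)) false (bnd (edg c fix A a (lab x))
      (wk n c fix A T z f (lab x) (Nat.shiftRight x 5) (Nat.lor u (Nat.pow 2 (lab x))))) =
        true := h
    rw [bif_iff, bnd_iff, tb_eq] at h1
    rcases h1 with h1 | ⟨h1, h2, h3⟩
    · exact absurd h1.2 (by decide)
    obtain ⟨t, ht1, ht2, ht3, ht4, ht5⟩ := ih h3
    have hbit : ∀ k, (Nat.lor u (Nat.pow 2 (lab x))).testBit k =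
        (u.testBit k || decide (lab x = k)) := by
      intro k
      have : Nat.lor u (Nat.pow 2 (lab x)) = u ||| 2 ^ lab x := rfl
      rw [this, Nat.testBit_or, Nat.testBit_two_pow]
    refine ⟨lab x :: t, by rw [List.length_cons, ht1], ?_, ?_, ⟨edg_ok M hA (lab_lt _) h2, ht4⟩, ?_⟩
    · rw [List.nodup_cons]
      refine ⟨fun hx => ?_, ht2⟩
      have := ht3 _ hx
      rw [hbit] at this
      simp at this
    · intro b hb
      rcases List.mem_cons.1 hb with rfl | hb
      · exact h1
      · have := ht3 b hb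
        rw [hbit, Bool.or_eq_false_iff] at this
        exact this.1
    · intro i hi hX
      rcases ht5 i hi hX with h4 | h4
      · rw [hbit, Bool.or_eq_true, decide_eq_true_eq] at h4
        rcases h4 with h4 | h4
        · exact Or.inl h4
        · exact Or.inr (by rw [h4]; exact List.mem_cons_self)
      · exact Or.inr (List.mem_cons_of_mem _ h4)

theorem circ_ok (M : Model n c kx ny) {A T x L h : ℕ} (hA : AdjOK M.adj A)
    (hT : TyOK n M.X T) (hh : h < 32) (hL : 2 ≤ L)
    (hw : wk n c fix A T h L h x (Nat.pow 2 h) = true) : M.Goal fix := by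
  obtain ⟨t, h1, h2, h3, h4, h5⟩ := wk_ok M hA hT hh L hw
  have hbit : ∀ k, (Nat.pow 2 h).testBit k = decide (h = k) := by
    intro k
    have : Nat.pow 2 h = 2 ^ h := rfl
    rw [this, Nat.testBit_two_pow]
  refine ⟨h, t, ?_, by rw [h1]; exact hL, h4, ?_⟩
  · rw [List.nodup_cons]
    refine ⟨fun hx => ?_, h2⟩
    have := h3 _ hx
    rw [hbit] at this
    simp at this
  · intro i hi hX
    rcases h5 i hi hX with h6 | h6
    · rw [hbit, decide_eq_true_eq] at h6
      rw [← h6]
      exact List.mem_cons_self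
    · exact List.mem_cons_of_mem _ h6

theorem sum_toNat (f : ℕ) (p : ℕ → Bool) :
    sumTo f (fun i => (p i).toNat) = ((Finset.range f).filter (fun i => p i = true)).card := by
  rw [sumTo_eq, Finset.card_filter]
  refine Finset.sum_congr rfl fun i _ => ?_
  cases p i <;> rfl

theorem count_ok {P : ℕ → Prop} {k : ℕ} (hk : {i | i < n ∧ P i}.ncard = k) {p : ℕ → Bool}
    (hp : ∀ i, i < n → p i = true → P i)
    (h : Nat.ble (Nat.succ k) (sumTo n (fun i => (p i).toNat)) = true) : False := by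
  rw [ble_iff, sum_toNat, ← Set.ncard_coe_finset] at h
  have h1 : (((Finset.range n).filter (fun i => p i = true) : Finset ℕ) : Set ℕ) ⊆
      {i | i < n ∧ P i} := by
    intro i hi
    simp only [Finset.coe_filter, Finset.mem_range, Set.mem_ofPred_eq] at hi
    exact ⟨hi.1, hp i hi.1 hi.2⟩
  have h2 := Set.ncard_le_ncard h1 ((Set.finite_Iio n).subset (fun i hi => hi.1))
  omega

theorem tight_ok (hn : n ≤ 32) (M : Model n c kx ny) {A p : ℕ} (hA : AdjOK M.adj A)
    (h1 : 2 ≤ sumTo n (fun i => (tb p i).toNat))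
    (h2 : sumTo n (fun i => (tb p i).toNat) + 2 ≤ n)
    (h3 : 3 * sumTo n (fun i => (tb p i).toNat) ≤ 3 + sumTo n (fun i => sumTo n (fun j =>
      (bnd (tb p i) (bnd (tb p j) (tb A (32 * i + j)))).toNat))) : False := by
  classical
  set S : Finset ℕ := (Finset.range n).filter (fun i => tb p i = true) with hS
  rw [sum_toNat, ← hS] at h1 h2 h3
  have hSn : ∀ i ∈ S, i < n := by
    intro i hi
    rw [hS, Finset.mem_filter, Finset.mem_range] at hi
    exact hi.1
  have h4 := M.tight S hSn h1 h2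
  have key : ∀ i ∈ S, {j | j ∉ S ∧ M.adj i j}.ncard + {j | j ∈ S ∧ M.adj i j}.ncard = 3 := by
    intro i hi
    have hfin : {j | M.adj i j}.Finite :=
      (Set.finite_Iio n).subset (fun b hb => M.lt _ _ (M.symm _ _ hb))
    have hdis : Disjoint {j | j ∉ S ∧ M.adj i j} {j | j ∈ S ∧ M.adj i j} := by
      rw [Set.disjoint_left]
      rintro j hj hj'
      exact hj.1 hj'.1
    have hun := Set.ncard_union_eq hdis (hfin.subset (fun j hj => hj.2))
      (hfin.subset (fun j hj => hj.2))
    rw [← M.deg i (hSn i hi), ← hun]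
    · congr 1
      ext j
      constructor
      · rintro (h | h)
        · exact h.2
        · exact h.2
      · intro h
        by_cases hj : j ∈ S
        · exact Or.inr ⟨hj, h⟩
        · exact Or.inl ⟨hj, h⟩
  have h5 : sumTo n (fun i => sumTo n (fun j =>
      (bnd (tb p i) (bnd (tb p j) (tb A (32 * i + j)))).toNat)) ≤
      ∑ i ∈ S, {j | j ∈ S ∧ M.adj i j}.ncard := by
    rw [sumTo_eq, hS, Finset.sum_filter, ← hS]
    refine Finset.sum_le_sum fun i _ => ?_
    rw [sum_toNat, ← Set.ncard_coe_finset]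
    split_ifs with hi
    · refine Set.ncard_le_ncard ?_ ((Set.finite_Iio n).subset
        (fun b hb => M.lt _ _ (M.symm _ _ hb.2)))
      intro j hj
      simp only [Finset.coe_filter, Finset.mem_range, Set.mem_ofPred_eq, bnd_iff] at hj
      rw [tb_eq A] at hj
      refine ⟨?_, hA i j (by omega) hj.2.2.2⟩
      rw [hS, Finset.mem_filter, Finset.mem_range]
      exact ⟨hj.1, hj.2.2.1⟩
    · have h6 : ((Finset.range n).filter
          (fun j => bnd (tb p i) (bnd (tb p j) (tb A (32 * i + j))) = true)) = ∅ := by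
        rw [Finset.filter_eq_empty_iff]
        intro j _ hj
        rw [bnd_iff] at hj
        exact hi hj.1
      rw [h6]
      simp
  have h6 : ∑ i ∈ S, {j | j ∉ S ∧ M.adj i j}.ncard + ∑ i ∈ S, {j | j ∈ S ∧ M.adj i j}.ncard =
      3 * S.card := by
    rw [← Finset.sum_add_distrib, Finset.sum_congr rfl key, Finset.sum_const, smul_eq_mul,
      mul_comm]
  omega

theorem rule_ok (hn : n ≤ 32) (hcn : c < n) (hsy : SymsOK n c nq fix syms)
    (hG : ∀ l, l < m → Good n c kx ny fix tab l) (M : Model n c kx ny) {A T k p : ℕ}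
    (hA : AdjOK M.adj A) (hT : TyOK n M.X T)
    (h : rule n c kx ny nq fix tab syms m A T k p = true) : M.Goal fix := by
  unfold rule at h
  rw [bif_iff] at h
  rcases h with ⟨_, h⟩ | ⟨_, h⟩
  · rw [bnd_iff, bnd_iff, ble_iff, beq_iff] at h
    exact branch_ok hn hcn hsy hG M hA hT (Nat.lt_of_succ_le h.1) h.2.1 h.2.2
  rw [bif_iff] at h
  rcases h with ⟨_, h⟩ | ⟨_, h⟩
  · rw [bnd_iff, ble_iff] at h
    exact circ_ok M hA hT (lab_lt _) h.1 h.2
  rw [bif_iff] at h
  rcases h with ⟨_, h⟩ | ⟨_, h⟩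
  · rw [bnd_iff] at h
    exact type_ok hn hcn hsy hG M hA hT h.1 h.2
  rw [bif_iff] at h
  rcases h with ⟨_, h⟩ | ⟨_, h⟩
  · rw [bnd_iff, bnd_iff, ble_iff, ble_iff, ble_iff] at h
    exact (tight_ok hn M hA h.1 h.2.1 h.2.2).elim
  rw [bif_iff] at h
  rcases h with ⟨_, h⟩ | ⟨_, h⟩
  · exact (count_ok M.cntX (fun i hi hp => (hT i hi).1 (by rw [tb_eq] at hp; exact hp)) h).elim
  rw [bif_iff] at h
  rcases h with ⟨_, h⟩ | ⟨_, h⟩
  · exact (count_ok M.cntY (fun i hi hp => (hT i hi).2 (by rw [tb_eq] at hp; exact hp)) h).elim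
  rw [bif_iff] at h
  rcases h with ⟨_, h⟩ | ⟨_, h⟩
  · rw [bnd_iff, bnd_iff, tb_eq, tb_eq, tb_eq] at h
    have h1 := hA _ _ (lab_lt _) h.2.2
    exfalso
    rcases M.yy _ _ h1 with h2 | h2
    · exact (hT _ (M.lt _ _ h1)).2 h.1 h2
    · exact (hT _ (M.lt _ _ (M.symm _ _ h1))).2 h.2.1 h2
  · exact absurd h (by decide)

theorem lem_ok (hn : n ≤ 32) (hcn : c < n) (hsy : SymsOK n c nq fix syms)
    (hG : ∀ l, l < m → Good n c kx ny fix tab l) {p : ℕ}
    (h : lem n c kx ny nq fix tab syms m p = true) : Good n c kx ny fix tab m := by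
  unfold lem at h
  rw [bnd_iff] at h
  refine ⟨h.1, fun M h1 h2 => ?_⟩
  exact rule_ok hn hcn hsy hG M
    (adjOK_adjF M.symm _ (M.base_adj hn hcn.le) h1) h2 h.2

theorem lems_get : ∀ {ps : List ℕ} {m : ℕ}, lems n c kx ny nq fix tab syms ps m = true →
    ∀ i, i < ps.length → ∃ p, lem n c kx ny nq fix tab syms (m + i) p = true
  | [], m, _, i, hi => absurd hi (Nat.not_lt_zero i)
  | p :: ps, m, h, i, hi => by
    have h1 : bnd (lem n c kx ny nq fix tab syms m p)
      (lems n c kx ny nq fix tab syms ps (Nat.succ m)) = true := h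
    rw [bnd_iff] at h1
    rcases i with _ | i
    · exact ⟨p, h1.1⟩
    · obtain ⟨q, hq⟩ := lems_get h1.2 i (by
        rw [List.length_cons] at hi
        omega)
      refine ⟨q, ?_⟩
      have e : m + (i + 1) = Nat.succ m + i := by
        rw [Nat.succ_eq_add_one]; omega
      rw [e]
      exact hq

/-- **Soundness.** -/
theorem good_all (hn : n ≤ 32) (hcn : c < n) (hsy : SymsOK n c nq fix syms) (N : ℕ)
    (h : ∀ m, m < N → ∃ p, lem n c kx ny nq fix tab syms m p = true) :
    ∀ m, m < N → Good n c kx ny fix tab m := by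
  intro m
  induction m using Nat.strong_induction_on with
  | _ m ih =>
    intro hm
    obtain ⟨p, hp⟩ := h m hm
    exact lem_ok hn hcn hsy (fun l hl => ih l hl (hl.trans hm)) hp

end Pool.Agent.CDC.Mach
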