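import Pool.Agent.CDC.NInd

/-!
# Neighbours, counting, circuits from cyclic sequences, small graphs
-/

set_option autoImplicit false

namespace Pool.Agent.CDC

variable {V E : Type} {G : MGraph V E}

/-- adjacent vertices -/
def nb (G : MGraph V E) (x y : V) : Prop := x ≠ y ∧ ∃ a, G.inc x a ∧ G.inc y a

theorem nb_symm {x y : V} (h : nb G x y) : nb G y x := by
  obtain ⟨hxy, a, h1, h2⟩ := h
  exact ⟨hxy.symm, a, h2, h1⟩

theorem inc_cases {x y z : V} {a : E} (hxy : x ≠ y) (hx : G.inc x a) (hy : G.inc y a)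
    (hz : G.inc z a) : z = x ∨ z = y := by
  obtain ⟨w, _, hw⟩ := other_end G hx
  rcases (hw y).1 hy with h | h
  · exact absurd h.symm hxy
  · rw [h]
    exact (hw z).1 hz

theorem inc_iff_of {x y : V} {a : E} (hxy : x ≠ y) (hx : G.inc x a) (hy : G.inc y a) (z : V) :
    G.inc z a ↔ z = x ∨ z = y := by
  constructor
  · exact inc_cases hxy hx hy
  · rintro (rfl | rfl)
    · exact hx
    · exact hy

/-- every vertex has exactly three neighbours -/
theorem nb_ncard [Finite E] (hG : G.Cubic) (h3 : G.TEC)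
    (hV : ∃ a b c : V, a ≠ b ∧ a ≠ c ∧ b ≠ c) (x : V) : {y | nb G x y}.ncard = 3 := by
  obtain ⟨e1, e2, e3, h12, h13, h23, hs⟩ := star_off hG x
  have i1 : G.inc x e1 := (hs e1).2 (by simp)
  have i2 : G.inc x e2 := (hs e2).2 (by simp)
  have i3 : G.inc x e3 := (hs e3).2 (by simp)
  obtain ⟨w1, hw1, k1⟩ := other_end G i1
  obtain ⟨w2, hw2, k2⟩ := other_end G i2
  obtain ⟨w3, hw3, k3⟩ := other_end G i3
  have j1 : G.inc w1 e1 := (k1 w1).2 (Or.inr rfl)
  have j2 : G.inc w2 e2 := (k2 w2).2 (Or.inr rfl)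
  have j3 : G.inc w3 e3 := (k3 w3).2 (Or.inr rfl)
  rw [Set.ncard_eq_three]
  refine ⟨w1, w2, w3, ?_, ?_, ?_, ?_⟩
  · rintro rfl
    exact h12 (no_parallel hG h3 hV hw1.symm i1 j1 i2 j2)
  · rintro rfl
    exact h13 (no_parallel hG h3 hV hw1.symm i1 j1 i3 j3)
  · rintro rfl
    exact h23 (no_parallel hG h3 hV hw2.symm i2 j2 i3 j3)
  · ext y
    simp only [Set.mem_insert_iff, Set.mem_singleton_iff]
    constructor
    · rintro ⟨hxy, a, hxa, hya⟩
      rcases (hs a).1 hxa with rfl | rfl | rfl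
      · rcases (k1 y).1 hya with h | h
        · exact absurd h.symm hxy
        · exact Or.inl h
      · rcases (k2 y).1 hya with h | h
        · exact absurd h.symm hxy
        · exact Or.inr (Or.inl h)
      · rcases (k3 y).1 hya with h | h
        · exact absurd h.symm hxy
        · exact Or.inr (Or.inr h)
    · rintro (rfl | rfl | rfl)
      · exact ⟨hw1.symm, e1, i1, j1⟩
      · exact ⟨hw2.symm, e2, i2, j2⟩
      · exact ⟨hw3.symm, e3, i3, j3⟩

/-- `3 |V| = 2 |E|` -/
theorem card_edges [Finite V] [Finite E] (hG : G.Cubic) : 3 * Nat.card V = 2 * Nat.card E := by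
  classical
  have := Fintype.ofFinite V
  have := Fintype.ofFinite E
  have h1 := Finset.sum_card_bipartiteAbove_eq_sum_card_bipartiteBelow (s := (Finset.univ : Finset V))
    (t := (Finset.univ : Finset E)) (fun v e => G.inc v e)
  have h2 : ∀ v ∈ (Finset.univ : Finset V),
      (Finset.bipartiteAbove (fun v e => G.inc v e) (Finset.univ : Finset E) v).card = 3 := by
    intro v _
    rw [← hG v, ← Set.ncard_coe_finset]
    congr 1
    ext e
    simp [Finset.bipartiteAbove]
  have h3 : ∀ e ∈ (Finset.univ : Finset E),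
      (Finset.bipartiteBelow (fun v e => G.inc v e) (Finset.univ : Finset V) e).card = 2 := by
    intro e _
    rw [← G.two e, ← Set.ncard_coe_finset]
    congr 1
    ext v
    simp [Finset.bipartiteBelow]
  rw [Finset.sum_congr rfl h2, Finset.sum_congr rfl h3, Finset.sum_const, Finset.sum_const,
    smul_eq_mul, smul_eq_mul, Finset.card_univ, Finset.card_univ] at h1
  rw [Nat.card_eq_fintype_card, Nat.card_eq_fintype_card]
  omega

/-- a cover of size `k` meets at most `3 k` edges -/
theorem card_le_cover [Finite V] [Finite E] (hG : G.Cubic) {X : Set V}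
    (hX : ∀ a, ∃ w, G.inc w a ∧ w ∈ X) : Nat.card E ≤ 3 * X.ncard := by
  classical
  have := Fintype.ofFinite V
  have := Fintype.ofFinite E
  have h1 : (Finset.univ : Finset E) ⊆
      X.toFinset.biUnion (fun v => Finset.univ.filter (fun e => G.inc v e)) := by
    intro a _
    obtain ⟨w, hw, hwX⟩ := hX a
    rw [Finset.mem_biUnion]
    exact ⟨w, Set.mem_toFinset.2 hwX, Finset.mem_filter.2 ⟨Finset.mem_univ _, hw⟩⟩
  have h2 := (Finset.card_le_card h1).trans Finset.card_biUnion_le
  have h3 : ∀ v ∈ X.toFinset, (Finset.univ.filter (fun e => G.inc v e)).card = 3 := by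
    intro v _
    rw [← hG v, ← Set.ncard_coe_finset]
    congr 1
    ext e
    simp
  rw [Finset.sum_congr rfl h3, Finset.sum_const, smul_eq_mul, ← Set.ncard_eq_toFinset_card',
    Finset.card_univ, ← Nat.card_eq_fintype_card] at h2
  omega

/-- if no edge has both ends in `X`, then there are at least `3 |X|` edges -/
theorem card_ge_indep [Finite V] [Finite E] (hG : G.Cubic) {X : Set V}
    (hX : ∀ x ∈ X, ∀ y ∈ X, ¬ nb G x y) : 3 * X.ncard ≤ Nat.card E := by
  classical
  have := Fintype.ofFinite V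
  have := Fintype.ofFinite E
  have h1 : (X.toFinset.biUnion (fun v => Finset.univ.filter (fun e => G.inc v e))).card =
      ∑ v ∈ X.toFinset, (Finset.univ.filter (fun e => G.inc v e)).card := by
    apply Finset.card_biUnion
    intro x hx y hy hxy
    refine Finset.disjoint_left.2 ?_
    intro e he he'
    rw [Finset.mem_filter] at he he'
    exact hX x (Set.mem_toFinset.1 hx) y (Set.mem_toFinset.1 hy) ⟨hxy, e, he.2, he'.2⟩
  have h3 : ∀ v ∈ X.toFinset, (Finset.univ.filter (fun e => G.inc v e)).card = 3 := by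
    intro v _
    rw [← hG v, ← Set.ncard_coe_finset]
    congr 1
    ext e
    simp
  have h2 := Finset.card_le_univ
    (X.toFinset.biUnion (fun v => Finset.univ.filter (fun e => G.inc v e)))
  rw [h1, Finset.sum_congr rfl h3, Finset.sum_const, smul_eq_mul, ← Set.ncard_eq_toFinset_card',
    ← Nat.card_eq_fintype_card] at h2
  omega

theorem fin_two_ne {m : ℕ} (hm : 1 ≤ m) (i : Fin (m + 2)) : i + 1 + 1 ≠ i := by
  intro h
  have h1 : ((1 : Fin (m + 2)) + 1) = 0 := by
    have := congrArg (fun x => x - i) h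
    simpa [add_assoc, add_sub_cancel_left] using this
  have h2 := congrArg Fin.val h1
  rw [Fin.val_add] at h2
  have h3 : (1 : Fin (m + 2)).val = 1 := by
    rw [Fin.val_one]
  rw [h3] at h2
  have h4 : (1 + 1) % (m + 2) = 2 := Nat.mod_eq_of_lt (by omega)
  rw [h4] at h2
  exact absurd h2 (by simp)

/-- a circuit from a cyclic sequence of vertices -/
theorem circuit_of_cycle {m : ℕ} (hm : 1 ≤ m) (v : Fin (m + 2) → V) (hv : Function.Injective v)
    (hadj : ∀ i, nb G (v i) (v (i + 1))) : ∃ C, G.IsCircuit C ∧ (∀ i, v i ∈ G.verts C) ∧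
      ∀ a ∈ C, ∃ i, G.inc (v i) a ∧ G.inc (v (i + 1)) a := by
  have hadj' : ∀ i, ∃ a, G.inc (v i) a ∧ G.inc (v (i + 1)) a := fun i => (hadj i).2
  choose a ha1 ha2 using hadj'
  have hne : ∀ i, v i ≠ v (i + 1) := fun i => (hadj i).1
  have hinc : ∀ i w, G.inc w (a i) ↔ w = v i ∨ w = v (i + 1) := fun i w =>
    inc_iff_of (hne i) (ha1 i) (ha2 i) w
  refine ⟨Set.range a, ⟨m, v, a, hv, ?_, hinc, rfl⟩, fun i => ⟨a i, ⟨i, rfl⟩, ha1 i⟩, ?_⟩
  · intro i j hij
    have h1 := ha1 i
    rw [hij, hinc] at h1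
    have h2 := ha2 i
    rw [hij, hinc] at h2
    rcases h1 with h1 | h1
    · exact hv h1
    · rcases h2 with h2 | h2
      · exfalso
        have e1 := hv h1
        have e2 := hv h2
        rw [e1] at e2
        exact fin_two_ne hm j e2
      · exact add_right_cancel (hv h2)
  · rintro _ ⟨i, rfl⟩
    exact ⟨i, ha1 i, ha2 i⟩

/-- no triangles -/
theorem no_triangle [Finite V] [Finite E] (hG : G.Cubic) (h3 : G.TEC) (ht : ∀ S, ¬ G.Tight S)
    (hV : 5 ≤ Nat.card V) {x y z : V} (hxy : nb G x y) (hxz : nb G x z) (hyz : nb G y z) :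
    False := by
  classical
  obtain ⟨hne1, a, hxa, hya⟩ := hxy
  obtain ⟨hne2, b, hxb, hzb⟩ := hxz
  obtain ⟨hne3, c, hyc, hzc⟩ := hyz
  have hab : a ≠ b := by
    rintro rfl
    rcases inc_cases hne1 hxa hya hzb with h | h
    · exact hne2 h.symm
    · exact hne3 h.symm
  have hac : a ≠ c := by
    rintro rfl
    rcases inc_cases hne1 hxa hya hzc with h | h
    · exact hne2 h.symm
    · exact hne3 h.symm
  have hbc : b ≠ c := by
    rintro rfl
    rcases inc_cases hne2 hxb hzb hyc with h | h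
    · exact hne1 h.symm
    · exact hne3 h
  obtain ⟨p, hp1, hp2, hp⟩ := three_of_two (hG x) (p := a) (q := b) hxa hxb hab
  obtain ⟨q, hq1, hq2, hq⟩ := three_of_two (hG y) (p := a) (q := c) hya hyc hac
  obtain ⟨r, hr1, hr2, hr⟩ := three_of_two (hG z) (p := b) (q := c) hzb hzc hbc
  have h1 : G.cut {x, y, z} ⊆ {p, q, r} := by
    rintro f ⟨⟨v, hv, hvf⟩, w, hw, hwf⟩
    simp only [Set.mem_insert_iff, Set.mem_singleton_iff, not_or] at hv hw ⊢
    have ka : ∀ u v', u ≠ v' → (u = x ∨ u = y ∨ u = z) → (v' = x ∨ v' = y ∨ v' = z) →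
        G.inc u f → G.inc v' f → False := by
      intro u v' huv hu hv' h1 h2
      rcases inc_cases huv h1 h2 hwf with h | h
      · rcases hu with rfl | rfl | rfl
        · exact hw.1 h
        · exact hw.2.1 h
        · exact hw.2.2 h
      · rcases hv' with rfl | rfl | rfl
        · exact hw.1 h
        · exact hw.2.1 h
        · exact hw.2.2 h
    rcases hv with rfl | rfl | rfl
    · rcases (hp f).1 hvf with rfl | rfl | rfl
      · exact (ka _ _ hne1 (by simp) (by simp) hxa hya).elim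
      · exact (ka _ _ hne2 (by simp) (by simp) hxb hzb).elim
      · simp
    · rcases (hq f).1 hvf with rfl | rfl | rfl
      · exact (ka _ _ hne1 (by simp) (by simp) hxa hya).elim
      · exact (ka _ _ hne3 (by simp) (by simp) hyc hzc).elim
      · simp
    · rcases (hr f).1 hvf with rfl | rfl | rfl
      · exact (ka _ _ hne2 (by simp) (by simp) hxb hzb).elim
      · exact (ka _ _ hne3 (by simp) (by simp) hyc hzc).elim
      · simp
  have h2 : (G.cut {x, y, z}).ncard ≤ 3 := by
    refine (Set.ncard_le_ncard h1 (Set.toFinite _)).trans ?_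
    exact Set.ncard_insert_le _ _ |>.trans (Nat.succ_le_succ
      (Set.ncard_insert_le _ _ |>.trans (by rw [Set.ncard_singleton])))
  have h4 : ({x, y, z} : Set V).ncard = 3 :=
    Set.ncard_eq_three.2 ⟨x, y, z, hne1, hne2, hne3, rfl⟩
  have h5 := Set.ncard_add_ncard_compl ({x, y, z} : Set V)
  have h6 : 2 ≤ ({x, y, z} : Set V)ᶜ.ncard := by omega
  have h7 := h3 {x, y, z} ⟨x, by simp⟩ (Set.nonempty_of_ncard_ne_zero (by omega))
  exact ht {x, y, z} ⟨by omega, by omega, h6⟩

end Pool.Agent.CDC
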