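import Pool.Agent.CDC.NMach

/-!
# Soundness of the decision procedure
-/

set_option autoImplicit false

namespace Pool.Agent.CDC.Mach

/-! ### Boolean functions -/

theorem bnd_iff {x y : Bool} : bnd x y = true ↔ x = true ∧ y = true := by
  cases x <;> cases y <;> simp [bnd]

theorem bif_iff {b x y : Bool} :
    bif' b x y = true ↔ (b = true ∧ x = true) ∨ (b = false ∧ y = true) := by
  cases b <;> simp [bif']

theorem tb_eq (x k : ℕ) : tb x k = x.testBit k := by
  have h1 : Nat.land (Nat.shiftRight x k) 1 = (x >>> k) % 2 := Nat.and_one_is_mod _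
  have h2 : x.testBit k = (x >>> k).testBit 0 := by
    rw [Nat.testBit_shiftRight]; simp
  rw [h2, Nat.testBit_zero]
  unfold tb
  rw [h1]
  rcases Nat.mod_two_eq_zero_or_one (x >>> k) with h | h
  · rw [h]; rfl
  · rw [h]; rfl

theorem allTo_iff {f : ℕ} {p : ℕ → Bool} : allTo f p = true ↔ ∀ i < f, p i = true := by
  induction f with
  | zero => simp [allTo]
  | succ f ih =>
    have h : allTo (f + 1) p = bnd (p f) (allTo f p) := rfl
    rw [h, bnd_iff, ih]
    constructor
    · rintro ⟨h1, h2⟩ i hi
      rcases Nat.lt_succ_iff_lt_or_eq.1 hi with h3 | rfl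
      · exact h2 i h3
      · exact h1
    · intro h1
      exact ⟨h1 f (Nat.lt_succ_self f), fun i hi => h1 i (Nat.lt_succ_of_lt hi)⟩

theorem sumTo_eq (f : ℕ) (p : ℕ → ℕ) : sumTo f p = ∑ i ∈ Finset.range f, p i := by
  induction f with
  | zero => rfl
  | succ f ih =>
    rw [Finset.sum_range_succ, ← ih]
    rfl

theorem beq_iff {a b : ℕ} : Nat.beq a b = true ↔ a = b := by
  rw [Nat.beq_eq]

theorem beq_false {a b : ℕ} : Nat.beq a b = false ↔ a ≠ b := by
  rw [← Bool.not_eq_true, Nat.beq_eq]

theorem ble_iff {a b : ℕ} : Nat.ble a b = true ↔ a ≤ b := by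
  rw [Nat.ble_eq]

theorem ble_false {a b : ℕ} : Nat.ble a b = false ↔ b < a := by
  rw [← Bool.not_eq_true, Nat.ble_eq, not_le]

theorem lab_lt (x : ℕ) : lab x < 32 := by
  have : lab x = x % 32 := Nat.and_two_pow_sub_one_eq_mod x 5
  rw [this]
  exact Nat.mod_lt _ (by norm_num)

theorem app_lt (σ a : ℕ) : app σ a < 32 := lab_lt _

theorem addE_testBit (A a b k : ℕ) :
    (addE A a b).testBit k = true ↔ A.testBit k = true ∨ k = 32 * a + b ∨ k = 32 * b + a := by
  have : addE A a b = A ||| (2 ^ (32 * a + b) ||| 2 ^ (32 * b + a)) := rfl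
  rw [this, Nat.testBit_or, Nat.testBit_or, Nat.testBit_two_pow, Nat.testBit_two_pow]
  simp only [Bool.or_eq_true, decide_eq_true_eq]
  constructor
  · rintro (h | h | h)
    · exact Or.inl h
    · exact Or.inr (Or.inl h.symm)
    · exact Or.inr (Or.inr h.symm)
  · rintro (h | h | h)
    · exact Or.inl h
    · exact Or.inr (Or.inl h.symm)
    · exact Or.inr (Or.inr h.symm)

/-- all bits of `A` are adjacencies -/
def AdjOK (R : ℕ → ℕ → Prop) (A : ℕ) : Prop :=
  ∀ a b, b < 32 → A.testBit (32 * a + b) = true → R a b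

theorem adjOK_addE {R : ℕ → ℕ → Prop} {A a b : ℕ} (h : AdjOK R A) (hab : R a b) (hba : R b a)
    (ha : a < 32) (hb : b < 32) : AdjOK R (addE A a b) := by
  intro x y hy hxy
  rw [addE_testBit] at hxy
  rcases hxy with h1 | h1 | h1
  · exact h x y hy h1
  · have : x = a ∧ y = b := by omega
    rw [this.1, this.2]
    exact hab
  · have : x = b ∧ y = a := by omega
    rw [this.1, this.2]
    exact hba

theorem adjOK_zero (R : ℕ → ℕ → Prop) : AdjOK R 0 := by
  intro a b _ h
  rw [Nat.zero_testBit] at h
  exact absurd h (by decide)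

/-- semantics of a list of chords -/
def ChOK (R : ℕ → ℕ → Prop) : ℕ → ℕ → Prop
  | 0, _ => True
  | m + 1, x => R (lab x) (lab (Nat.shiftRight x 5)) ∧ ChOK R m (Nat.shiftRight x 10)

theorem adjOK_adjF {R : ℕ → ℕ → Prop} (hs : ∀ a b, R a b → R b a) (m : ℕ) : ∀ {A x : ℕ},
    AdjOK R A → ChOK R m x → AdjOK R (adjF m A x) := by
  induction m with
  | zero => intro A x h _; exact h
  | succ m ih =>
    intro A x h h1
    exact ih (adjOK_addE h h1.1 (hs _ _ h1.1) (lab_lt _) (lab_lt _)) h1.2

theorem chk_ok {R R' : ℕ → ℕ → Prop} {σ A n : ℕ} (hA : AdjOK R A)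
    (hR : ∀ a b, a < n → b < n → R (app σ a) (app σ b) → R' a b) (m : ℕ) :
    ∀ {x : ℕ}, lbl n m x = true → chk σ A m x = true → ChOK R' m x := by
  induction m with
  | zero => intro x _ _; trivial
  | succ m ih =>
    intro x h0 h
    have h1 : bnd (Nat.ble (Nat.succ (lab x)) n)
      (bnd (Nat.ble (Nat.succ (lab (Nat.shiftRight x 5))) n) (lbl n m (Nat.shiftRight x 10))) =
        true := h0
    have h2 : bnd (tb A (Nat.add (Nat.mul 32 (app σ (lab x)))
      (app σ (lab (Nat.shiftRight x 5))))) (chk σ A m (Nat.shiftRight x 10)) = true := h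
    rw [bnd_iff, bnd_iff, ble_iff, ble_iff] at h1
    rw [bnd_iff, tb_eq] at h2
    exact ⟨hR _ _ h1.1 h1.2.1 (hA _ _ (app_lt _ _) h2.1), ih h1.2.2 h2.2⟩

/-- semantics of the types -/
def TyOK (n : ℕ) (X : ℕ → Prop) (T : ℕ) : Prop :=
  ∀ i, i < n → (T.testBit (2 * i) = true → X i) ∧ (T.testBit (2 * i + 1) = true → ¬ X i)

theorem app_succ (σ a : ℕ) : app σ (a + 1) = app (Nat.shiftRight σ 5) a := by
  have h : ∀ x k : ℕ, Nat.shiftRight x k = x >>> k := fun _ _ => rfl
  unfold app
  rw [h, h, h, ← Nat.shiftRight_add]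
  congr 2
  show 5 * (a + 1) = 5 + 5 * a
  ring

theorem chT_ok {T : ℕ} (f : ℕ) : ∀ {T' σ : ℕ}, chT T f T' σ = true →
    ∀ v, v < f → ∀ e, e < 2 → T'.testBit (2 * v + e) = true →
      T.testBit (2 * app σ v + e) = true := by
  induction f with
  | zero => intro T' σ _ v hv; omega
  | succ f ih =>
    intro T' σ h v hv e he h1
    have h2 : bnd (Nat.beq (Nat.land (Nat.shiftRight T (Nat.mul 2 (lab σ)))
      (Nat.land T' 3)) (Nat.land T' 3)) (chT T f (Nat.shiftRight T' 2) (Nat.shiftRight σ 5)) =
        true := h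
    rw [bnd_iff, beq_iff] at h2
    rcases v with _ | v
    · have h3 : (T >>> (2 * lab σ)) &&& (T' &&& 3) = T' &&& 3 := h2.1
      have h4 : (T' &&& 3).testBit e = true := by
        rw [Nat.testBit_and]
        have : (3 : ℕ).testBit e = true := by
          interval_cases e <;> decide
        rw [this]
        simpa using h1
      rw [← h3, Nat.testBit_and, Nat.testBit_shiftRight] at h4
      have h5 : app σ 0 = lab σ := rfl
      rw [h5]
      simpa using (Bool.and_eq_true _ _ ▸ h4).1
    · rw [app_succ]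
      refine ih h2.2 v (by omega) e he ?_
      have : (Nat.shiftRight T' 2).testBit (2 * v + e) = T'.testBit (2 + (2 * v + e)) :=
        Nat.testBit_shiftRight ..
      rw [this]
      rw [← h1]
      congr 1
      ring

/-! ### Bits of rows -/

theorem clr_bits (r : ℕ) : 0 < r → ∃ a, r.testBit a = true ∧
    ∀ k, (clr r).testBit k = (r.testBit k && decide (k ≠ a)) := by
  have hclr : ∀ r, clr r = r &&& (r - 1) := fun _ => rfl
  induction r using Nat.strong_induction_on with
  | _ r ih =>
    intro hr
    rcases Nat.even_or_odd' r with ⟨y, hy | hy⟩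
    · obtain ⟨a, ha, hk⟩ := ih y (by omega) (by omega)
      refine ⟨a + 1, ?_, ?_⟩
      · rw [Nat.testBit_succ, show r / 2 = y by omega]
        exact ha
      · intro k
        rw [hclr, Nat.testBit_and]
        rcases k with _ | k
        · have : r.testBit 0 = false := by
            rw [Nat.testBit_zero]
            simp
            omega
          rw [this]
          rfl
        · rw [Nat.testBit_succ, Nat.testBit_succ, show r / 2 = y by omega,
            show (r - 1) / 2 = y - 1 by omega]
          have h1 := hk k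
          rw [hclr, Nat.testBit_and] at h1
          rw [h1]
          congr 1
          simp
    · refine ⟨0, ?_, ?_⟩
      · rw [Nat.testBit_zero]
        simp
        omega
      · intro k
        rw [hclr, Nat.testBit_and]
        rcases k with _ | k
        · have : (r - 1).testBit 0 = false := by
            rw [Nat.testBit_zero]
            simp
            omega
          rw [this]
          simp
        · rw [Nat.testBit_succ, Nat.testBit_succ, show r / 2 = y by omega,
            show (r - 1) / 2 = y by omega]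
          simp

theorem three_bits {r : ℕ} (h : clr (clr r) ≠ 0) :
    ∃ p q w, p ≠ q ∧ p ≠ w ∧ q ≠ w ∧ r.testBit p = true ∧ r.testBit q = true ∧
      r.testBit w = true := by
  have h0 : clr 0 = 0 := rfl
  have h1 : clr r ≠ 0 := by
    intro h1
    rw [h1] at h
    exact h h0
  have h2 : r ≠ 0 := by
    rintro rfl
    exact h1 h0
  obtain ⟨a, ha, hka⟩ := clr_bits r (Nat.pos_of_ne_zero h2)
  obtain ⟨b, hb, hkb⟩ := clr_bits (clr r) (Nat.pos_of_ne_zero h1)
  obtain ⟨w, hw⟩ := Nat.exists_testBit_of_ne_zero h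
  have hw1 : (clr r).testBit w = true ∧ w ≠ b := by
    have := hkb w
    rw [hw] at this
    simpa using this.symm
  have hw2 : r.testBit w = true ∧ w ≠ a := by
    have := hka w
    rw [hw1.1] at this
    simpa using this.symm
  have hb2 : r.testBit b = true ∧ b ≠ a := by
    have := hka b
    rw [hb] at this
    simpa using this.symm
  exact ⟨a, b, w, hb2.2.symm, hw2.2.symm, hw1.2.symm, ha, hb2.1, hw2.1⟩

theorem not_three {r : ℕ} (h : clr (clr r) = 0) {p q w : ℕ} (hpq : p ≠ q) (hpw : p ≠ w)
    (hqw : q ≠ w) (hp : r.testBit p = true) (hq : r.testBit q = true)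
    (hw : r.testBit w = true) : False := by
  have hr : r ≠ 0 := by
    rintro rfl
    rw [Nat.zero_testBit] at hp
    exact absurd hp (by decide)
  obtain ⟨a, ha, hka⟩ := clr_bits r (Nat.pos_of_ne_zero hr)
  have key : ∀ x y, x ≠ y → x ≠ a → y ≠ a → r.testBit x = true → r.testBit y = true → False := by
    intro x y hxy hxa hya hx hy
    have hx1 : (clr r).testBit x = true := by
      rw [hka, hx]; simpa using hxa
    have hy1 : (clr r).testBit y = true := by
      rw [hka, hy]; simpa using hya
    have h1 : clr r ≠ 0 := by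
      intro h0
      rw [h0, Nat.zero_testBit] at hx1
      exact absurd hx1 (by decide)
    obtain ⟨b, hb, hkb⟩ := clr_bits (clr r) (Nat.pos_of_ne_zero h1)
    have hx2 := hkb x
    have hy2 := hkb y
    rw [h, Nat.zero_testBit, hx1] at hx2
    rw [h, Nat.zero_testBit, hy1] at hy2
    have hx3 : x = b := by simpa using hx2.symm
    have hy3 : y = b := by simpa using hy2.symm
    exact hxy (hx3.trans hy3.symm)
  by_cases hpa : p = a
  · exact key q w hqw (fun h' => hpq (hpa.trans h'.symm)) (fun h' => hpw (hpa.trans h'.symm)) hq hw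
  · by_cases hqa : q = a
    · exact key p w hpw hpa (fun h' => hqw (hqa.trans h'.symm)) hp hw
    · exact key p q hpq hpa hqa hp hq

theorem row_testBit (A i j : ℕ) :
    (row A i).testBit j = true ↔ j < 32 ∧ A.testBit (32 * i + j) = true := by
  have h : row A i = (A >>> (32 * i)) &&& (2 ^ 32 - 1) := rfl
  rw [h, Nat.testBit_and, Nat.testBit_shiftRight, Nat.testBit_two_pow_sub_one]
  simp [and_comm]

end Pool.Agent.CDC.Mach
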