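import Pool.Agent.CDC.NBound
import Pool.Agent.CDC.NCA
import Pool.Agent.CDC.NC4
import Pool.Agent.CDC.NC5
import Pool.Agent.CDC.NC6
import Pool.Agent.CDC.NC7
import Pool.Agent.CDC.NC8a
import Pool.Agent.CDC.NC8b
import Pool.Agent.CDC.NC8c
import Pool.Agent.CDC.NC9a
import Pool.Agent.CDC.NC9b
import Pool.Agent.CDC.NC9c
import Pool.Agent.CDC.NC9d
import Pool.Agent.CDC.NC9e
import Pool.Agent.CDC.NC9f
import Pool.Agent.CDC.NC9g

/-!
# The table of certificates
-/

set_option autoImplicit false

namespace Pool.Agent.CDC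

open Mach

theorem closedP {k q c : ℕ} (hk : k ≤ 9) (h8 : 4 ≤ q) (hn : q ≤ k) (hc : c + 1 ≤ 2 * q)
    (h3 : 3 * q ≤ c + 1 + k) (hkc : k ≤ c + 1) :
    Closed (2 * q) c k (2 * q - k) false true := by
  have hc1 : c ≤ 17 := by omega
  have hc2 : 3 ≤ c := by omega
  have hk4 : 4 ≤ k := by omega
  interval_cases k <;> interval_cases q <;> interval_cases c <;>
    first
      | omega
      | exact w10_7_7_1_0
      | exact w10_7_8_1_0
      | exact w10_8_6_1_0
      | exact w10_8_7_1_0
      | exact w10_8_8_1_0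
      | exact w10_8_9_1_0
      | exact w10_9_6_1_0
      | exact w10_9_7_1_0
      | exact w10_9_8_1_0
      | exact w10_9_9_1_0
      | exact w12_10_7_1_0
      | exact w12_10_8_1_0
      | exact w12_10_9_1_0
      | exact w12_11_7_1_0
      | exact w12_11_8_1_0
      | exact w12_11_9_1_0
      | exact w12_8_9_1_0
      | exact w12_9_8_1_0
      | exact w12_9_9_1_0
      | exact w14_11_9_1_0
      | exact w14_12_8_1_0
      | exact w14_12_9_1_0
      | exact w14_13_8_1_0
      | exact w14_13_9_1_0
      | exact w16_14_9_1_0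
      | exact w16_15_9_1_0
      | exact w8_5_6_1_0
      | exact w8_6_5_1_0
      | exact w8_6_6_1_0
      | exact w8_6_7_1_0
      | exact w8_7_5_1_0
      | exact w8_7_6_1_0
      | exact w8_7_7_1_0
      | exact w8_7_8_1_0
      | exact closed_mono w10_8_5_0_0 true
      | exact closed_mono w10_9_5_0_0 true
      | exact closed_mono w12_10_6_0_0 true
      | exact closed_mono w12_11_6_0_0 true
      | exact closed_mono w14_12_7_0_0 true
      | exact closed_mono w14_13_7_0_0 true
      | exact closed_mono w16_14_8_0_0 true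
      | exact closed_mono w16_15_8_0_0 true
      | exact closed_mono w18_16_9_0_0 true
      | exact closed_mono w18_17_9_0_0 true
      | exact closed_mono w8_6_4_0_0 true
      | exact closed_mono w8_7_4_0_0 true

theorem closedP0 {k c : ℕ} (hk : k ≤ 9) (h8 : 4 ≤ k) (hc : c + 1 ≤ 2 * k)
    (h3 : 2 * k ≤ c + 2) : Closed (2 * k) c k (2 * k - k) false false := by
  have hc1 : c ≤ 17 := by omega
  have hc2 : 3 ≤ c := by omega
  interval_cases k <;> interval_cases c <;>
    first
      | omega
      | exact w10_8_5_0_0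
      | exact w10_9_5_0_0
      | exact w12_10_6_0_0
      | exact w12_11_6_0_0
      | exact w14_12_7_0_0
      | exact w14_13_7_0_0
      | exact w16_14_8_0_0
      | exact w16_15_8_0_0
      | exact w18_16_9_0_0
      | exact w18_17_9_0_0
      | exact w8_6_4_0_0
      | exact w8_7_4_0_0

theorem closedA {k q c : ℕ} (hk : k ≤ 5) (h8 : 4 ≤ q) (hn : q ≤ k) (hc : c + 1 ≤ 2 * q)
    (h3 : 3 * q ≤ c + 1 + k) : Closed (2 * q) c k (2 * q - k) true false := by
  have hc1 : c ≤ 9 := by omega
  have hc2 : 3 ≤ c := by omega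
  have hk4 : 4 ≤ k := by omega
  interval_cases k <;> interval_cases q <;> interval_cases c <;>
    first
      | omega
      | exact w10_8_5_0_1
      | exact w10_9_5_0_1
      | exact w8_6_4_0_1
      | exact w8_6_5_0_1
      | exact w8_7_4_0_1
      | exact w8_7_5_0_1

theorem closedA0 {k c : ℕ} (hk : k ≤ 5) (h8 : 4 ≤ k) (hc : c + 1 ≤ 2 * k)
    (h3 : 2 * k ≤ c + 2) : Closed (2 * k) c k (2 * k - k) true false := by
  have hc1 : c ≤ 9 := by omega
  have hc2 : 3 ≤ c := by omega
  interval_cases k <;> interval_cases c <;>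
    first
      | omega
      | exact w10_8_5_0_1
      | exact w10_9_5_0_1
      | exact w8_6_4_0_1
      | exact w8_6_5_0_1
      | exact w8_7_4_0_1
      | exact w8_7_5_0_1

end Pool.Agent.CDC
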