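import Pool.Agent.CDC.TwoFactor
import Pool.Agent.CDC.Glue

/-!
# Colourings from 2-factors with few odd circuits
-/

set_option autoImplicit false

namespace Pool.Agent.CDC

open Finset

variable {V E : Type}

/-- the odd circuits of the complement of a perfect matching -/
def MGraph.oddCircuits (G : MGraph V E) (M : Set E) : Set (Set E) :=
  {C | G.IsCircuit C ∧ C ⊆ Mᶜ ∧ Odd C.ncard}

theorem Circ.ncard_eq {G : MGraph V E} {C : Set E} {n : ℕ} (K : Circ G C n) : C.ncard = n + 2 := by
  rw [← K.ran, ncard_range_inj _ K.ainj]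
  simp

/-- a perfect matching gives a colouring which is proper off one vertex of every odd circuit of the
complement -/
theorem col_of_matching [Finite V] [Finite E] {G : MGraph V E} (hG : G.Cubic) {M : Set E}
    (hM : G.IsPM M) : ∃ (X : Set V) (col : E → ZMod 3), X.ncard ≤ (G.oddCircuits M).ncard ∧
      ∀ v, v ∉ X → ProperAt G col v := by
  classical
  have hF := twoFactor_compl hG hM
  -- data for the circuits
  have hdat : ∀ C : {C // G.IsCircuit C ∧ C ⊆ Mᶜ}, ∃ n, Nonempty (Circ G C.1 n) :=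
    fun C => C.2.1.circ
  choose N hN using hdat
  let K : ∀ C : {C // G.IsCircuit C ∧ C ⊆ Mᶜ}, Circ G C.1 (N C) := fun C => (hN C).some
  obtain ⟨col, hcM, hcC⟩ : ∃ col : E → ZMod 3, (∀ e ∈ M, col e = 0) ∧
      ∀ (C : {C // G.IsCircuit C ∧ C ⊆ Mᶜ}) (i : Fin (N C + 2)),
        col ((K C).a i) = if i.1 % 2 = 0 then 1 else 2 := by
    refine ⟨fun e => if h : ∃ (C : {C // G.IsCircuit C ∧ C ⊆ Mᶜ}) (i : Fin (N C + 2)),
      (K C).a i = e then (if h.choose_spec.choose.1 % 2 = 0 then 1 else 2) else 0, ?_, ?_⟩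
    · intro e he
      have h : ¬ ∃ (C : {C // G.IsCircuit C ∧ C ⊆ Mᶜ}) (i : Fin (N C + 2)), (K C).a i = e := by
        rintro ⟨C, i, rfl⟩
        exact C.2.2 ((K C).mem i) he
      simp only [dif_neg h]
    · intro C i
      have h : ∃ (C' : {C // G.IsCircuit C ∧ C ⊆ Mᶜ}) (j : Fin (N C' + 2)),
        (K C').a j = (K C).a i := ⟨C, i, rfl⟩
      simp only [dif_pos h]
      have h1 : h.choose = C := by
        apply Subtype.ext
        have h2 := h.choose_spec.choose_spec
        obtain ⟨u, w, -, hu⟩ := exists_ends G ((K C).a i)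
        have hui : G.inc u ((K C).a i) := (hu u).2 (Or.inl rfl)
        refine hF.1.circuit_unique h.choose.2.1 h.choose.2.2 C.2.1 C.2.2 (v := u) ?_ ?_
        · exact ⟨_, (K h.choose).mem h.choose_spec.choose, by rw [h2]; exact hui⟩
        · exact ⟨_, (K C).mem i, hui⟩
      have h2 : ∀ (C' : {C // G.IsCircuit C ∧ C ⊆ Mᶜ}) (j : Fin (N C' + 2)), C' = C →
          (K C').a j = (K C).a i → j.1 = i.1 := by
        rintro C' j rfl hj
        rw [(K C').ainj hj]
      rw [h2 _ _ h1 h.choose_spec.choose_spec]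
  refine ⟨{v | ∃ C : {C // G.IsCircuit C ∧ C ⊆ Mᶜ}, Odd C.1.ncard ∧ v = (K C).v 0}, col, ?_, ?_⟩
  · have h1 : {v | ∃ C : {C // G.IsCircuit C ∧ C ⊆ Mᶜ}, Odd C.1.ncard ∧ v = (K C).v 0} =
        (fun C => (K C).v 0) '' {C : {C // G.IsCircuit C ∧ C ⊆ Mᶜ} | Odd C.1.ncard} := by
      ext v
      simp only [Set.mem_setOf_eq, Set.mem_image]
      exact ⟨fun ⟨C, h, h'⟩ => ⟨C, h, h'.symm⟩, fun ⟨C, h, h'⟩ => ⟨C, h, h'.symm⟩⟩
    rw [h1]
    refine (Set.ncard_image_le (Set.toFinite _)).trans ?_
    rw [← Set.ncard_image_of_injective _ Subtype.val_injective]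
    refine Set.ncard_le_ncard ?_ (Set.toFinite _)
    rintro _ ⟨C, hC, rfl⟩
    exact ⟨C.2.1, C.2.2, hC⟩
  · intro v hv
    obtain ⟨C, hC, hCM, hvC⟩ := hF.exists_circuit v
    set C' : {C // G.IsCircuit C ∧ C ⊆ Mᶜ} := ⟨C, hC, hCM⟩ with hC'
    obtain ⟨i, hi⟩ := ((K C').mem_verts v).1 hvC
    subst hi
    -- the third edge is in the matching
    have hM' : (K C').h hG i ∈ M := by
      by_contra hc
      have := hF.1.mem_circuit hC hCM hvC hc ((K C').h_inc hG i)
      exact (K C').h_notMem hG i this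
    have hne : col ((K C').a i) ≠ col ((K C').a (i - 1)) := by
      rw [hcC, hcC]
      have h12 : (1 : ZMod 3) ≠ 2 := by decide
      by_cases hi : i = 0
      · subst hi
        have h1 : ((0 : Fin (N C' + 2)) - 1).1 = N C' + 1 := by
          rw [zero_sub]
          simp [Fin.val_neg]
        rw [h1]
        have hodd : ¬ Odd C'.1.ncard := fun ho => hv ⟨C', ho, rfl⟩
        rw [Nat.not_odd_iff_even, (K C').ncard_eq] at hodd
        obtain ⟨r, hr⟩ := hodd
        have h2 : (N C' + 1) % 2 ≠ 0 := by omega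
        rw [if_neg h2, if_pos (by simp)]
        exact h12
      · have h1 : 0 < i.1 := Nat.pos_of_ne_zero (fun h => hi (Fin.ext h))
        have h2 : (i - 1).1 = i.1 - 1 := by
          rw [Fin.sub_val_of_le]
          · simp
          · rw [Fin.le_def]
            simp
            omega
        rw [h2]
        by_cases h3 : i.1 % 2 = 0
        · have h4 : (i.1 - 1) % 2 ≠ 0 := by omega
          rw [if_pos h3, if_neg h4]
          exact h12
        · have h4 : (i.1 - 1) % 2 = 0 := by omega
          rw [if_neg h3, if_pos h4]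
          exact h12.symm
    have hnz : ∀ j, col ((K C').a j) ≠ 0 := by
      intro j
      rw [hcC]
      split_ifs <;> decide
    intro e f he hf hef
    rcases ((K C').inc_iff hG i e).1 he with rfl | rfl | rfl <;>
      rcases ((K C').inc_iff hG i f).1 hf with rfl | rfl | rfl
    · exact absurd rfl hef
    · exact hne
    · rw [hcM _ hM']; exact hnz _
    · exact hne.symm
    · exact absurd rfl hef
    · rw [hcM _ hM']; exact hnz _
    · rw [hcM _ hM']; exact (hnz _).symm
    · rw [hcM _ hM']; exact (hnz _).symm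
    · exact absurd rfl hef

end Pool.Agent.CDC
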