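import Pool.Agent.CDC.FlowSplit
import Pool.Agent.CDC.LocRule
import Pool.Agent.CDC.Oddness

/-!
# 2-factors with exactly two odd circuits

Three edge-disjoint paths between the two odd circuits in the contracted graph, with minimal
support, labelled in topological order.
-/

set_option autoImplicit false

namespace Pool.Agent.CDC

open Finset AFlow

variable {V E : Type} {G : MGraph V E}

/-- the circuits of the complement of `M` -/
abbrev MGraph.Circs (G : MGraph V E) (M : Set E) : Type :=
  {C : Set E // G.IsCircuit C ∧ C ⊆ Mᶜ}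

/-- data of a 2-factor: the circuit `κ v`, the matching edge `me v`, the other end `μ v` -/
structure FD (G : MGraph V E) (M : Set E) (κ : V → G.Circs M) (me : V → E) (μ : V → V) :
    Prop where
  mem : ∀ v, v ∈ G.verts (κ v).1
  uniq : ∀ v i, v ∈ G.verts i.1 → κ v = i
  meM : ∀ v, me v ∈ M
  meinc : ∀ v z, G.inc z (me v) ↔ z = v ∨ z = μ v
  ne : ∀ v, μ v ≠ v
  inv : ∀ v, μ (μ v) = v
  eqme : ∀ v e, e ∈ M → G.inc v e → e = me v
  incirc : ∀ v e, e ∉ M → G.inc v e → e ∈ (κ v).1

theorem exists_FD [Finite V] (hG : G.Cubic) {M : Set E} (hM : G.IsPM M) :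
    ∃ κ me μ, FD G M κ me μ := by
  have hF := twoFactor_compl hG hM
  have h1 : ∀ v, ∃ i : G.Circs M, v ∈ G.verts i.1 := by
    intro v
    obtain ⟨C, hC, hCM, hv⟩ := hF.exists_circuit v
    exact ⟨⟨C, hC, hCM⟩, hv⟩
  choose κ hκ using h1
  have hκu : ∀ v (i : G.Circs M), v ∈ G.verts i.1 → κ v = i := fun v i hi =>
    Subtype.ext (hF.1.circuit_unique (κ v).2.1 (κ v).2.2 i.2.1 i.2.2 (hκ v) hi)
  choose me hme using hM
  have h2 : ∀ v, ∃ w, w ≠ v ∧ ∀ z, G.inc z (me v) ↔ z = v ∨ z = w := by
    intro v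
    obtain ⟨u, w, huw, h⟩ := exists_ends G (me v)
    rcases (h v).1 (hme v).1.2 with h' | h'
    · subst h'
      exact ⟨w, huw.symm, h⟩
    · subst h'
      exact ⟨u, huw, fun z => (h z).trans or_comm⟩
  choose μ hμne hμ using h2
  have heq : ∀ v e, e ∈ M → G.inc v e → e = me v := fun v e he hv => (hme v).2 e ⟨he, hv⟩
  have hinv : ∀ v, μ (μ v) = v := by
    intro v
    have h3 : me v = me (μ v) := heq _ _ (hme v).1.1 ((hμ v _).2 (Or.inr rfl))
    have h4 : G.inc v (me (μ v)) := by rw [← h3]; exact (hme v).1.2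
    rcases (hμ (μ v) v).1 h4 with h5 | h5
    · exact absurd h5.symm (hμne v)
    · exact h5.symm
  refine ⟨κ, me, μ, hκ, hκu, fun v => (hme v).1.1, hμ, hμne, hinv, heq, fun v e he hv => ?_⟩
  exact hF.1.mem_circuit (κ v).2.1 (κ v).2.2 (hκ v) he hv

namespace FD

variable {M : Set E} {κ : V → G.Circs M} {me : V → E} {μ : V → V}

theorem inc_me (h : FD G M κ me μ) (v : V) : G.inc v (me v) := (h.meinc v v).2 (Or.inl rfl)

theorem me_mu (h : FD G M κ me μ) (v : V) : me (μ v) = me v :=
  (h.eqme _ _ (h.meM v) ((h.meinc v _).2 (Or.inr rfl))).symm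

theorem mem_verts_iff (h : FD G M κ me μ) (v : V) (i : G.Circs M) : v ∈ G.verts i.1 ↔ κ v = i :=
  ⟨h.uniq v i, fun h' => h' ▸ h.mem v⟩

open Classical in
/-- the darts leaving a union of circuits are the edges of the cut -/
theorem darts_cut [Fintype V] [Finite E] (h : FD G M κ me μ) (S : Finset (G.Circs M)) :
    (univ.filter (fun d => κ d ∈ S ∧ κ (μ d) ∉ S)).card = (G.cut {v | κ v ∈ S}).ncard := by
  have h1 : G.cut {v | κ v ∈ S} = me '' {d | κ d ∈ S ∧ κ (μ d) ∉ S} := by
    ext e
    constructor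
    · rintro ⟨⟨u, hu, hue⟩, w, hw, hwe⟩
      have heM : e ∈ M := by
        by_contra hc
        have h2 := h.incirc u e hc hue
        have h3 := h.uniq w (κ u) ⟨e, h2, hwe⟩
        exact hw (by rw [Set.mem_setOf_eq, h3]; exact hu)
      have h4 := h.eqme u e heM hue
      refine ⟨u, ⟨hu, ?_⟩, h4.symm⟩
      rw [h4, h.meinc] at hwe
      rcases hwe with rfl | rfl
      · exact absurd hu hw
      · exact hw
    · rintro ⟨d, ⟨hd1, hd2⟩, rfl⟩
      exact ⟨⟨d, hd1, h.inc_me d⟩, μ d, hd2, (h.meinc d _).2 (Or.inr rfl)⟩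
  have h2 : Set.InjOn me {d | κ d ∈ S ∧ κ (μ d) ∉ S} := by
    rintro d ⟨hd1, hd2⟩ d' ⟨hd1', hd2'⟩ heq
    have h3 : G.inc d' (me d) := by rw [heq]; exact h.inc_me d'
    rcases (h.meinc d d').1 h3 with h4 | h4
    · exact h4.symm
    · rw [h4] at hd1'
      exact absurd hd1' hd2
  rw [h1, Set.ncard_image_of_injOn h2, ← Set.ncard_coe_finset]
  congr 1
  ext d
  simp

open Classical in
theorem card_circ [Fintype V] (h : FD G M κ me μ) (i : G.Circs M) :
    (univ.filter (fun v => κ v = i)).card = i.1.ncard := by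
  rw [← i.2.1.ncard_verts, ← Set.ncard_coe_finset]
  congr 1
  ext v
  simp [h.mem_verts_iff]

open Classical in
theorem card_union [Fintype V] (h : FD G M κ me μ) (S : Finset (G.Circs M)) :
    {v | κ v ∈ S}.ncard = ∑ i ∈ S, i.1.ncard := by
  have h1 : {v | κ v ∈ S}.ncard = (univ.filter (fun v => κ v ∈ S)).card := by
    rw [← Set.ncard_coe_finset]
    congr 1
    ext v; simp
  rw [h1, Finset.card_eq_sum_card_fiberwise (t := S) (f := κ) (fun v hv => by
    rw [Finset.mem_coe, mem_filter] at hv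
    exact hv.2)]
  refine Finset.sum_congr rfl (fun i hi => ?_)
  rw [← h.card_circ i]
  congr 1
  ext v
  simp only [mem_filter, mem_univ, true_and]
  exact ⟨fun h' => h'.2, fun h' => ⟨h' ▸ hi, h'⟩⟩

open Classical in
/-- every cut between the two odd circuits has at least three edges -/
theorem three_cut [Fintype V] [Finite E] (h : FD G M κ me μ) (hG : G.Cubic)
    (hb : G.Bridgeless) {a z : G.Circs M} (ha : Odd a.1.ncard)
    (hev : ∀ i, i ≠ a → i ≠ z → Even i.1.ncard) (S : Finset (G.Circs M)) (haS : a ∈ S)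
    (hzS : z ∉ S) : 3 ≤ (univ.filter (fun d => κ d ∈ S ∧ κ (μ d) ∉ S)).card := by
  rw [h.darts_cut]
  have h1 := cut_parity hG {v | κ v ∈ S}
  have h2 := hb {v | κ v ∈ S}
  rw [h.card_union] at h1
  have h3 : ((∑ i ∈ S, i.1.ncard : ℕ) : ZMod 2) = 1 := by
    push_cast
    rw [Finset.sum_eq_single a]
    · rw [ZMod.natCast_eq_one_iff_odd]
      exact ha
    · intro i hi hia
      rw [ZMod.natCast_eq_zero_iff_even]
      exact hev i hia (fun h' => hzS (h' ▸ hi))
    · intro h'; exact absurd haS h'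
  rw [h3, ZMod.natCast_eq_one_iff_odd] at h1
  obtain ⟨k, hk⟩ := h1
  omega


theorem ex_pos (h : FD G M κ me μ) {i : G.Circs M} {n : ℕ} (K : Circ G i.1 n) {d : V}
    (hd : κ d = i) : ∃ j, K.v j = d := (K.mem_verts d).1 ((h.mem_verts_iff d i).2 hd)

theorem kap_pos (h : FD G M κ me μ) {i : G.Circs M} {n : ℕ} (K : Circ G i.1 n)
    (j : Fin (n + 2)) : κ (K.v j) = i := (h.mem_verts_iff _ i).1 ((K.mem_verts _).2 ⟨j, rfl⟩)

theorem pos_card [Fintype V] (h : FD G M κ me μ) {i : G.Circs M} {n : ℕ} (K : Circ G i.1 n)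
    (P : V → Prop) [DecidablePred (fun j => P (K.v j))] [DecidablePred (fun d => κ d = i ∧ P d)] :
    (univ.filter (fun j => P (K.v j))).card = (univ.filter (fun d => κ d = i ∧ P d)).card := by
  refine Finset.card_bij (fun j _ => K.v j) ?_ ?_ ?_
  · intro j hj
    rw [mem_filter] at hj ⊢
    exact ⟨mem_univ _, h.kap_pos K j, hj.2⟩
  · intro j _ j' _ hjj
    exact K.vinj hjj
  · intro d hd
    rw [mem_filter] at hd
    obtain ⟨j, rfl⟩ := h.ex_pos K hd.2.1
    exact ⟨j, by rw [mem_filter]; exact ⟨mem_univ _, hd.2.2⟩, rfl⟩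

theorem h_mem (h : FD G M κ me μ) (hG : G.Cubic) {i : G.Circs M} {n : ℕ} (K : Circ G i.1 n)
    (j : Fin (n + 2)) : K.h hG j ∈ M := by
  by_contra hc
  have h1 := h.incirc (K.v j) _ hc (K.h_inc hG j)
  rw [h.kap_pos K j] at h1
  exact K.h_notMem hG j h1

/-- the labels `w` come from `f`, `ℓ` at the circuit `i` -/
def Fits (G : MGraph V E) (M : Set E) (κ : V → G.Circs M) (f : V → ℤ) (i : G.Circs M)
    (ℓ : V → ZMod 3) (w : E → F4) : Prop :=
  ∀ v e, κ v = i → e ∈ M → G.inc v e → w e = if f v = 0 then 0 else th (ℓ v)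

theorem Fits.pos (h : FD G M κ me μ) (hG : G.Cubic) {i : G.Circs M} {n : ℕ} (K : Circ G i.1 n)
    {f : V → ℤ} {ℓ : V → ZMod 3} {w : E → F4} (hw : Fits G M κ f i ℓ w) (j : Fin (n + 2)) :
    w (K.h hG j) = if f (K.v j) = 0 then 0 else th (ℓ (K.v j)) :=
  hw (K.v j) _ (h.kap_pos K j) (h.h_mem hG K j) (K.h_inc hG j)

theorem two_odd [Fintype V] [Finite E] (h : FD G M κ me μ) (hG : G.Cubic) (hb : G.Bridgeless)
    {a z : G.Circs M} (haz : a ≠ z) (ha : Odd a.1.ncard) (hz : Odd z.1.ncard)
    (hev : ∀ i, i ≠ a → i ≠ z → Even i.1.ncard) :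
    ∃ D : Fin 5 → Set E, G.IsCDC D ∧
      {v | v ∉ G.verts (D 0)}.ncard + 4 ≤ 3 * Nat.card (G.Circs M) ∧
      ∀ c : ℕ, (∀ S : Finset (G.Circs M), a ∈ S → z ∉ S → c + 3 ≤ (G.cut {v | κ v ∈ S}).ncard) →
        2 * (c + 3) * ({v | v ∉ G.verts (D 0)}.ncard + 1) ≤ 3 * Nat.card V := by
  classical
  have := Fintype.ofFinite (G.Circs M)
  obtain ⟨f, ⟨h1, h2, h3⟩, h4, hmin⟩ := exists_min (κ := κ) h.inv h.ne a z haz
    (fun S haS hzS => h.three_cut hG hb ha hev S haS hzS)
  have A : AFlow μ κ a z f := ⟨h.inv, haz, h1, h2, h3, h4⟩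
  have hdat : ∀ i : G.Circs M, ∃ n, Nonempty (Circ G i.1 n) := fun i => i.2.1.circ
  choose N hN using hdat
  let K : ∀ i : G.Circs M, Circ G i.1 (N i) := fun i => (hN i).some
  have hpar : ∀ i : G.Circs M, i.1.ncard = N i + 2 := fun i => (K i).ncard_eq
  have hf3 : ∀ d, f d = -1 ∨ f d = 0 ∨ f d = 1 := by
    intro d
    have := A.le d
    have := A.ge d
    omega
  obtain ⟨ℓ, hℓ1, hℓ2⟩ := A.exists_labels
    (fun i ℓ => ((i = a ∨ i = z) ∨ (ins κ f i).card ≤ 3) ∧
      ∀ w, Fits G M κ f i ℓ w → LocJ G i.1 w (if i = a ∨ i = z then 1 else (ins κ f i).card)) (by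
      intro i β β' hββ hgood
      refine ⟨hgood.1, fun w hw => ?_⟩
      refine hgood.2 w (fun v e hv he hve => ?_)
      rw [hw v e hv he hve]
      by_cases hfv : f v = 0
      · rw [if_pos hfv, if_pos hfv]
      · rw [if_neg hfv, if_neg hfv, hββ v hv hfv]) (by
      intro β hβ
      refine ⟨Or.inl (Or.inl rfl), fun w hw => ?_⟩
      rw [if_pos (Or.inl rfl)]
      have hno : ∀ d, κ d = a → f d ≠ 0 → f d = 1 := by
        intro d hd hfd
        rcases hf3 d with h5 | h5 | h5
        · exact absurd h5 (A.ins_a d hd)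
        · exact absurd h5 hfd
        · exact h5
      refine local_odd hG (K a) ?_ f ?_ β ?_ w (fun j => hw.pos h hG (K a) j)
      · have := hpar a
        rw [this] at ha
        obtain ⟨m, hm⟩ := ha
        exact ⟨m - 1, by omega⟩
      · have h5 := h.pos_card (K a) (fun d => f d ≠ 0)
        rw [h5]
        have h6 := A.dv_eq a
        rw [A.dv a, if_pos rfl, if_neg haz] at h6
        have h7 : (ins κ f a).card = 0 := by
          rw [Finset.card_eq_zero, Finset.eq_empty_iff_forall_notMem]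
          intro d hd
          rw [mem_ins] at hd
          exact A.ins_a d hd.1 hd.2
        have h8 : (outs κ f a).card = 3 := by
          rw [h7] at h6
          push_cast at h6
          omega
        rw [← h8]
        congr 1
        ext d
        rw [mem_filter, mem_outs]
        constructor
        · rintro ⟨-, h9, h10⟩
          exact ⟨h9, hno d h9 h10⟩
        · rintro ⟨h9, h10⟩
          exact ⟨mem_univ _, h9, by rw [h10]; norm_num⟩
      · intro j j' hj hj' hjj
        refine (K a).vinj (hβ ?_ ?_ hjj)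
        · rw [Finset.mem_coe, mem_outs]
          exact ⟨h.kap_pos _ j, hno _ (h.kap_pos _ j) hj⟩
        · rw [Finset.mem_coe, mem_outs]
          exact ⟨h.kap_pos _ j', hno _ (h.kap_pos _ j') hj'⟩) (by
      intro β hβ
      refine ⟨Or.inl (Or.inr rfl), fun w hw => ?_⟩
      rw [if_pos (Or.inr rfl)]
      have hno : ∀ d, κ d = z → f d ≠ 0 → f d = -1 := by
        intro d hd hfd
        rcases hf3 d with h5 | h5 | h5
        · exact h5
        · exact absurd h5 hfd
        · exact absurd h5 (A.outs_z d hd)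
      refine local_odd hG (K z) ?_ f ?_ β ?_ w (fun j => hw.pos h hG (K z) j)
      · have := hpar z
        rw [this] at hz
        obtain ⟨m, hm⟩ := hz
        exact ⟨m - 1, by omega⟩
      · have h5 := h.pos_card (K z) (fun d => f d ≠ 0)
        rw [h5]
        have h6 := A.dv_eq z
        rw [A.dv z, if_neg haz.symm, if_pos rfl] at h6
        have h7 : (outs κ f z).card = 0 := by
          rw [Finset.card_eq_zero, Finset.eq_empty_iff_forall_notMem]
          intro d hd
          rw [mem_outs] at hd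
          exact A.outs_z d hd.1 hd.2
        have h8 : (ins κ f z).card = 3 := by
          rw [h7] at h6
          push_cast at h6
          omega
        rw [← h8]
        congr 1
        ext d
        rw [mem_filter, mem_ins]
        constructor
        · rintro ⟨-, h9, h10⟩
          exact ⟨h9, hno d h9 h10⟩
        · rintro ⟨h9, h10⟩
          exact ⟨mem_univ _, h9, by rw [h10]; norm_num⟩
      · intro j j' hj hj' hjj
        refine (K z).vinj (hβ ?_ ?_ hjj)
        · rw [Finset.mem_coe, mem_ins]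
          exact ⟨h.kap_pos _ j, hno _ (h.kap_pos _ j) hj⟩
        · rw [Finset.mem_coe, mem_ins]
          exact ⟨h.kap_pos _ j', hno _ (h.kap_pos _ j') hj'⟩) (by
      intro i hia hiz α hα
      have h5 := A.dv_eq i
      rw [A.dv i, if_neg hia, if_neg hiz] at h5
      have h6 : (outs κ f i).card = (ins κ f i).card := by omega
      have h7 : (ins κ f i).card ≤ 3 := by
        have := Finset.card_le_card_of_injOn α (t := (univ : Finset (ZMod 3)))
          (fun _ _ => mem_univ _) hα
        rwa [Finset.card_univ, ZMod.card] at this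
      obtain ⟨β, b1, b2, b3, b4⟩ := local_even hG (K i) (by
          have h8 := hev i hia hiz
          rw [hpar i] at h8
          obtain ⟨m, hm⟩ := h8
          exact ⟨m - 1, by omega⟩) f (fun j => hf3 _) h7
        ((h.pos_card (K i) (fun d => f d = -1)).trans rfl)
        ((h.pos_card (K i) (fun d => f d = 1)).trans h6) α (by
          intro j j' hj hj' hjj
          exact (K i).vinj (hα (Finset.mem_coe.2 (mem_ins.2 ⟨h.kap_pos _ j, hj⟩))
            (Finset.mem_coe.2 (mem_ins.2 ⟨h.kap_pos _ j', hj'⟩)) hjj))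
      refine ⟨β, ?_, ?_, ?_, ?_⟩
      · intro d hd
        rw [mem_ins] at hd
        obtain ⟨j, rfl⟩ := h.ex_pos (K i) hd.1
        exact b1 j hd.2
      · intro d hd d' hd' hdd
        rw [Finset.mem_coe, mem_outs] at hd hd'
        obtain ⟨j, rfl⟩ := h.ex_pos (K i) hd.1
        obtain ⟨j', rfl⟩ := h.ex_pos (K i) hd'.1
        rw [b2 j j' hd.2 hd'.2 hdd]
      · intro d hd
        rw [mem_outs] at hd
        obtain ⟨j, rfl⟩ := h.ex_pos (K i) hd.1
        obtain ⟨j', hj', hjj⟩ := b3 j hd.2
        exact ⟨(K i).v j', mem_ins.2 ⟨h.kap_pos _ j', hj'⟩, hjj⟩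
      · refine ⟨Or.inr h7, fun w hw => ?_⟩
        rw [if_neg (by rintro (h9 | h9) <;> contradiction)]
        exact b4 w (fun j => hw.pos h hG (K i) j))
  -- the labels
  have hen : ∀ e, ∃ v, G.inc v e := fun e => by
    obtain ⟨u, _, -, hu⟩ := exists_ends G e
    exact ⟨u, (hu u).2 (Or.inl rfl)⟩
  choose en hen using hen
  have hfits : ∀ i, Fits G M κ f i ℓ (fun e => if f (en e) = 0 then 0 else th (ℓ (en e))) := by
    intro i v e hv he hve
    have h5 := h.eqme v e he hve
    have h6 := (h.meinc v (en e)).1 (h5 ▸ hen e)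
    show (if f (en e) = 0 then 0 else th (ℓ (en e))) = _
    rcases h6 with h6 | h6
    · rw [h6]
    · rw [h6, hℓ1, A.anti]
      simp only [neg_eq_zero]
  obtain ⟨D, hD, hD'⟩ := jmain hG (fun i : G.Circs M => i.1) (fun i => i.2.1) (fun v =>
    ⟨κ v, h.mem v, fun i hi => (h.uniq v i hi).symm⟩) _
    (fun i => if i = a ∨ i = z then 1 else (ins κ f i).card) (fun i => (hℓ2 i).2 _ (hfits i))
  have hterm : ∀ i : G.Circs M, (if i = a ∨ i = z then 1 else (ins κ f i).card) +
        ((if i = a then 2 else 0) + (if i = z then 2 else 0)) ≤ 3 := by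
    intro i
    by_cases h6 : i = a
    · rw [if_pos (Or.inl h6), if_pos h6, if_neg (fun h7 => haz (h6.symm.trans h7))]
    · by_cases h7 : i = z
      · rw [if_pos (Or.inr h7), if_neg h6, if_pos h7]
      · rw [if_neg (by tauto), if_neg h6, if_neg h7]
        rcases (hℓ2 i).1 with h8 | h8
        · tauto
        · omega
  -- the number of darts with flow
  have hsupp : (supp f).card = ∑ i, ((ins κ f i).card + (outs κ f i).card) := by
    rw [Finset.card_eq_sum_card_fiberwise (t := univ) (f := κ) (fun _ _ => mem_coe.2 (mem_univ _))]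
    refine Finset.sum_congr rfl (fun i _ => ?_)
    rw [← Finset.card_union_of_disjoint]
    · congr 1
      ext d
      unfold supp ins outs
      simp only [mem_filter, mem_univ, true_and, mem_union]
      rcases hf3 d with h5 | h5 | h5 <;> rw [h5] <;> norm_num
    · rw [Finset.disjoint_left]
      intro d hd hd'
      rw [mem_ins] at hd
      rw [mem_outs, hd.2] at hd'
      exact absurd hd'.2 (by norm_num)
  have hterm2 : ∀ i : G.Circs M, 2 * (if i = a ∨ i = z then 1 else (ins κ f i).card) +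
      ((if i = a then 1 else 0) + (if i = z then 1 else 0)) =
        (ins κ f i).card + (outs κ f i).card := by
    intro i
    have h6 := A.dv_eq i
    rw [A.dv i] at h6
    by_cases h7 : i = a
    · have h8 : (ins κ f i).card = 0 := by
        rw [Finset.card_eq_zero, Finset.eq_empty_iff_forall_notMem]
        intro d hd
        rw [mem_ins] at hd
        exact A.ins_a d (hd.1.trans h7) hd.2
      have h9 : i ≠ z := fun h9 => haz (h7.symm.trans h9)
      rw [if_pos h7, if_neg h9, h8] at h6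
      rw [if_pos (Or.inl h7), if_pos h7, if_neg h9, h8]
      push_cast at h6
      omega
    · by_cases h8 : i = z
      · have h9 : (outs κ f i).card = 0 := by
          rw [Finset.card_eq_zero, Finset.eq_empty_iff_forall_notMem]
          intro d hd
          rw [mem_outs] at hd
          exact A.outs_z d (hd.1.trans h8) hd.2
        rw [if_neg h7, if_pos h8, h9] at h6
        rw [if_pos (Or.inr h8), if_neg h7, if_pos h8, h9]
        push_cast at h6
        omega
      · rw [if_neg h7, if_neg h8] at h6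
        rw [if_neg (by tauto), if_neg h7, if_neg h8]
        push_cast at h6
        omega
  have hsum1 := Finset.sum_le_sum (fun i (_ : i ∈ (univ : Finset (G.Circs M))) => hterm i)
  rw [Finset.sum_add_distrib, Finset.sum_add_distrib, Finset.sum_ite_eq', Finset.sum_ite_eq',
    if_pos (mem_univ _), if_pos (mem_univ _), Finset.sum_const, Finset.card_univ,
    smul_eq_mul] at hsum1
  have hsum2 := Finset.sum_congr rfl (fun i (_ : i ∈ (univ : Finset (G.Circs M))) => hterm2 i)
  rw [Finset.sum_add_distrib, Finset.sum_add_distrib, Finset.sum_ite_eq', Finset.sum_ite_eq',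
    if_pos (mem_univ _), if_pos (mem_univ _), ← hsupp, ← Finset.mul_sum] at hsum2
  refine ⟨D, hD, ?_, fun c hc => ?_⟩
  · rw [Nat.card_eq_fintype_card]
    omega
  · obtain ⟨g, g1, g2, g3, g4⟩ := short_flow (κ := κ) h.inv h.ne haz c (fun S haS hzS => by
      rw [h.darts_cut]
      exact hc S haS hzS)
    have g5 := hmin g g1 g2 g3
    rw [Nat.card_eq_fintype_card]
    have g6 : 2 * ({v | v ∉ G.verts (D 0)}.ncard + 1) ≤ (supp g).card := by omega
    calc 2 * (c + 3) * ({v | v ∉ G.verts (D 0)}.ncard + 1)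
        = (c + 3) * (2 * ({v | v ∉ G.verts (D 0)}.ncard + 1)) := by ring
      _ ≤ (c + 3) * (supp g).card := Nat.mul_le_mul_left _ g6
      _ ≤ 3 * Fintype.card V := g4

end FD

end Pool.Agent.CDC
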