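import Pool.Agent.CDC.Cover

/-!
# From labels to a double cover which contains a `2`-factor
-/

set_option autoImplicit false

namespace Pool.Agent.CDC

open Finset

variable {V E : Type} {G : MGraph V E}

/-- expansion of no vertex does not change anything -/
theorem coverable4_expand_empty (hG : G.Cubic) (h : G.Coverable4) :
    (G.expand hG ∅).Coverable4 := by
  obtain ⟨M, hM, hc⟩ := h
  refine ⟨fun j => {x | match x with
      | Sum.inl e => e ∈ M j
      | Sum.inr _ => False}, ?_, ?_⟩
  · intro j x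
    rcases x with ⟨w, hw⟩ | ⟨⟨w, e⟩, hw, he⟩
    · obtain ⟨e, ⟨he, hwe⟩, hu⟩ := hM j w
      refine ⟨Sum.inl e, ⟨he, hwe⟩, ?_⟩
      rintro (e' | q) ⟨hM', hinc⟩
      · rw [hu e' ⟨hM', hinc⟩]
      · exact absurd hM' id
    · exact absurd hw (Set.notMem_empty _)
  · rintro (e | ⟨⟨w, f⟩, hw, hf⟩)
    · exact hc e
    · exact absurd hw (Set.notMem_empty _)

/-- the labels of a double cover containing the complement of `M` at the vertex `v` -/
def LabelAt (G : MGraph V E) (M : Set E) (dd : E → ZMod 3) (c : E → ZMod 2) (xe : E → F4)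
    (v : V) : Prop :=
  ∃ a a' h, a ≠ a' ∧ a ≠ h ∧ a' ≠ h ∧ a ∉ M ∧ a' ∉ M ∧ h ∈ M ∧
    (∀ e, G.inc v e ↔ e = a ∨ e = a' ∨ e = h) ∧ xe a = xe a' + th (dd h) ∧
    c h = om (th (dd h)) (xe a')

/-- the double cover and the matchings from the labels -/
theorem cover_of_labels {M : Set E} (dd : E → ZMod 3) (c : E → ZMod 2) (xe : E → F4)
    (h3 : ∀ v, LabelAt G M dd c xe v) :
    (∃ D : Fin 5 → Set E, G.IsCDC D ∧ D 0 = Mᶜ) ∧ G.Coverable4 := by
  classical
  constructor
  · let P : F4 → E → Prop := fun z e => if e ∈ M then om (th (dd e)) z = c e else xe e = z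
    have hP1 : ∀ z e, e ∉ M → (P z e ↔ xe e = z) := fun z e he => by simp [P, he]
    have hP2 : ∀ z e, e ∈ M → (P z e ↔ om (th (dd e)) z = c e) := fun z e he => by simp [P, he]
    refine ⟨Fin.cons Mᶜ (fun j => {e | P (zz j) e}), ⟨?_, ?_⟩, rfl⟩
    · intro i
      refine Fin.cases ?_ (fun j => ?_) i
      · intro w
        rw [Fin.cons_zero]
        obtain ⟨a, a', h, h1, h2, h4, ha, ha', hh, hs, -, -⟩ := h3 w
        rw [ncard_star h1 h2 h4 hs, if_pos (show a ∈ Mᶜ from ha), if_pos (show a' ∈ Mᶜ from ha'),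
          if_neg (fun h' => h' hh)]
        decide
      · intro w
        rw [Fin.cons_succ]
        obtain ⟨a, a', h, h1, h2, h4, ha, ha', hh, hs, he1, he2⟩ := h3 w
        rw [ncard_star h1 h2 h4 hs]
        have h5 := chk_circ_even (xe a') (zz j) (dd h)
        rw [← he1, ← he2] at h5
        exact even_congr (hP1 _ _ ha) (hP1 _ _ ha') (hP2 _ _ hh) h5
    · intro e
      have h4 : {i : Fin 5 | e ∈ (Fin.cons Mᶜ (fun j => {e | P (zz j) e}) : Fin 5 → Set E) i} =
          ↑((univ : Finset (Fin 5)).filter (fun i =>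
            e ∈ (Fin.cons Mᶜ (fun j => {e | P (zz j) e}) : Fin 5 → Set E) i)) := by
        ext i; simp
      rw [h4, Set.ncard_coe_finset, Finset.card_filter, Fin.sum_univ_succ]
      simp only [Fin.cons_zero, Fin.cons_succ, Set.mem_ofPred_eq]
      by_cases he : e ∈ M
      · rw [if_neg (fun h' => h' he)]
        have h5 := chk_two_off (dd e) (c e)
        have h6 : (∑ j : Fin 4, if P (zz j) e then 1 else 0) =
            ∑ j : Fin 4, (if om (th (dd e)) (zz j) = c e then 1 else 0) :=
          Finset.sum_congr rfl (fun j _ => one_congr (hP2 (zz j) e he))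
        rw [h6, h5]
      · rw [if_pos (show e ∈ Mᶜ from he)]
        have h5 := chk_one_circ (xe e)
        have h6 : (∑ j : Fin 4, if P (zz j) e then 1 else 0) =
            ∑ j : Fin 4, (if xe e = zz j then 1 else 0) :=
          Finset.sum_congr rfl (fun j _ => one_congr (hP1 (zz j) e he))
        rw [h6, h5]
  · refine ⟨fun j => {e | (e ∉ M ∧ xe e = zz j) ∨ (e ∈ M ∧ om (th (dd e)) (zz j) ≠ c e)}, ?_, ?_⟩
    · intro j w
      obtain ⟨a, a', h, h1, h2, h4, ha, ha', hh, hs, he1, he2⟩ := h3 w
      by_cases hz1 : xe a' = zz j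
      · refine ⟨a', ⟨Or.inl ⟨ha', hz1⟩, (hs a').2 (by simp)⟩, ?_⟩
        rintro e ⟨hM, hinc⟩
        rcases (hs e).1 hinc with rfl | rfl | rfl
        · rcases hM with hM | hM
          · exact absurd (he1.symm.trans (hM.2.trans hz1.symm)) (chk_circ_a _ _)
          · exact absurd hM.1 ha
        · rfl
        · rcases hM with hM | hM
          · exact absurd hh hM.1
          · exact absurd (by rw [he2, hz1]) hM.2
      · by_cases hz2 : xe a = zz j
        · refine ⟨a, ⟨Or.inl ⟨ha, hz2⟩, (hs a).2 (by simp)⟩, ?_⟩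
          rintro e ⟨hM, hinc⟩
          rcases (hs e).1 hinc with rfl | rfl | rfl
          · rfl
          · rcases hM with hM | hM
            · exact absurd hM.2 hz1
            · exact absurd hM.1 ha'
          · rcases hM with hM | hM
            · exact absurd hh hM.1
            · exact absurd (by rw [he2, ← hz2, he1, chk_circ_b]) hM.2
        · refine ⟨h, ⟨Or.inr ⟨hh, ?_⟩, (hs h).2 (by simp)⟩, ?_⟩
          · rw [he2]
            exact chk_circ_c _ _ _ hz1 (by rw [← he1]; exact hz2)
          · rintro e ⟨hM, hinc⟩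
            rcases (hs e).1 hinc with rfl | rfl | rfl
            · rcases hM with hM | hM
              · exact absurd hM.2 hz2
              · exact absurd hM.1 ha
            · rcases hM with hM | hM
              · exact absurd hM.2 hz1
              · exact absurd hM.1 ha'
            · rfl
    · intro e
      by_cases he : e ∈ M
      · obtain ⟨j, hj⟩ := chk_cover_off (dd e) (c e)
        exact ⟨j, Or.inr ⟨he, hj⟩⟩
      · obtain ⟨j, hj⟩ := exists_zz (xe e)
        exact ⟨j, Or.inl ⟨he, hj.symm⟩⟩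

end Pool.Agent.CDC
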