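import Mathlib

/-!
# A parity lemma

`X` a finite set of odd size, `B i j x y = B j i y x` in `ZMod 2` for `i ≠ j`, with
`∑ x, B i j x y = 0`, and functions `w i` with `∑ x, w i x = 0`. Then the number of `δ : ι → X` with
`w i (δ i) + ∑_{j ≠ i} B i j (δ i) (δ j) = 0` for all `i` is odd.
-/

set_option autoImplicit false

namespace Pool.Agent.CDC

open Finset

variable {ι X : Type} [Fintype ι] [DecidableEq ι] [Fintype X]

/-- a symmetric double sum without diagonal vanishes mod `2` -/
theorem sum_erase_symm (s : Finset ι) (f : ι → ι → ZMod 2)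
    (hf : ∀ i j, i ≠ j → f i j = f j i) : ∑ i ∈ s, ∑ j ∈ s.erase i, f i j = 0 := by
  have h1 : ∀ i ∈ s, ∑ j ∈ s.erase i, f i j = ∑ j ∈ s, if j = i then 0 else f i j := by
    intro i hi
    rw [← Finset.add_sum_erase s _ hi]
    simp only [if_true, zero_add]
    refine Finset.sum_congr rfl (fun j hj => ?_)
    rw [if_neg (Finset.ne_of_mem_erase hj)]
  rw [Finset.sum_congr rfl h1, ← Finset.sum_product']
  refine Finset.sum_involution (fun p _ => (p.2, p.1)) ?_ ?_ ?_ ?_
  · rintro ⟨i, j⟩ _
    by_cases h : j = i
    · subst h; simp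
    · simp only [if_neg h, if_neg (Ne.symm h)]
      rw [hf i j (Ne.symm h)]
      exact CharTwo.add_self_eq_zero _
  · rintro ⟨i, j⟩ _ h
    simp only [ne_eq, ite_eq_left_iff, not_forall] at h
    intro h2
    simp only [Prod.mk.injEq] at h2
    obtain ⟨h3, -⟩ := h
    exact h3 h2.1
  · rintro ⟨i, j⟩ h
    rw [Finset.mem_product] at h ⊢
    exact ⟨h.2, h.1⟩
  · rintro ⟨i, j⟩ _
    rfl

/-- the sum over one coordinate can be done separately -/
theorem sum_split (hX : (Fintype.card X : ZMod 2) = 1) (e : ι) (F : X → (ι → X) → ZMod 2)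
    (hF : ∀ x δ y, F x (Function.update δ e y) = F x δ) :
    ∑ δ : ι → X, F (δ e) δ = ∑ x : X, ∑ δ : ι → X, F x δ := by
  have h1 : ∑ x : X, ∑ δ : ι → X, F x δ = ∑ p : X × (ι → X), F p.1 p.2 := by
    rw [Fintype.sum_prod_type]
  have h2 : ∑ p : X × (ι → X), F p.1 p.2 = ∑ p : X × (ι → X), F (p.2 e) p.2 := by
    refine Finset.sum_nbij' (fun p => (p.2 e, Function.update p.2 e p.1))
      (fun p => (p.2 e, Function.update p.2 e p.1)) ?_ ?_ ?_ ?_ ?_
    · intro p _; exact Finset.mem_univ _
    · intro p _; exact Finset.mem_univ _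
    · intro p _
      simp
    · intro p _
      simp
    · intro p _
      simp [hF]
  rw [h1, h2, Fintype.sum_prod_type]
  simp only [Finset.sum_const, Finset.card_univ, nsmul_eq_mul, hX, one_mul]

/-- the term of index `i` in the counting product -/
def tm (B : ι → ι → X → X → ZMod 2) (w : ι → X → ZMod 2) (s : Finset ι) (δ : ι → X) (i : ι) :
    ZMod 2 := 1 + (w i (δ i) + ∑ j ∈ s.erase i, B i j (δ i) (δ j))

/-- the number of solutions mod `2` -/
def cnt (B : ι → ι → X → X → ZMod 2) (w : ι → X → ZMod 2) (s : Finset ι) : ZMod 2 :=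
  ∑ δ : ι → X, ∏ i ∈ s, tm B w s δ i

theorem tm_erase (B : ι → ι → X → X → ZMod 2) (w : ι → X → ZMod 2) {s : Finset ι} {e i : ι}
    (he : e ∈ s) (hi : i ∈ s.erase e) (δ : ι → X) :
    tm B w s δ i = tm B (fun i x => w i x + B i e x (δ e)) (s.erase e) δ i := by
  unfold tm
  have h1 : e ∈ s.erase i := Finset.mem_erase.2 ⟨(Finset.ne_of_mem_erase hi).symm, he⟩
  rw [← Finset.add_sum_erase (s.erase i) _ h1, Finset.erase_right_comm]
  ring

theorem sum_tm (hX : (Fintype.card X : ZMod 2) = 1) (B : ι → ι → X → X → ZMod 2)
    (w : ι → X → ZMod 2) {s : Finset ι} {e : ι} (he : e ∈ s) (h : X → ZMod 2) :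
    ∑ δ : ι → X, h (δ e) * ∏ i ∈ s.erase e, tm B w s δ i =
      ∑ x : X, h x * cnt B (fun i y => w i y + B i e y x) (s.erase e) := by
  have h1 : ∀ δ : ι → X, h (δ e) * ∏ i ∈ s.erase e, tm B w s δ i =
      (fun (x : X) (δ : ι → X) => h x *
        ∏ i ∈ s.erase e, tm B (fun i y => w i y + B i e y x) (s.erase e) δ i) (δ e) δ := by
    intro δ
    beta_reduce
    congr 1
    exact Finset.prod_congr rfl (fun i hi => tm_erase B w he hi δ)
  rw [Finset.sum_congr rfl (fun δ _ => h1 δ), sum_split hX e (fun (x : X) (δ : ι → X) => h x *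
        ∏ i ∈ s.erase e, tm B (fun i y => w i y + B i e y x) (s.erase e) δ i)]
  · refine Finset.sum_congr rfl (fun x _ => ?_)
    rw [cnt, Finset.mul_sum]
  · intro x δ y
    beta_reduce
    congr 1
    refine Finset.prod_congr rfl (fun i hi => ?_)
    unfold tm
    rw [Function.update_of_ne (Finset.ne_of_mem_erase hi)]
    congr 2
    refine Finset.sum_congr rfl (fun j hj => ?_)
    rw [Function.update_of_ne (Finset.ne_of_mem_erase (Finset.mem_of_mem_erase hj))]

theorem cnt_eq_one (hX : (Fintype.card X : ZMod 2) = 1) (B : ι → ι → X → X → ZMod 2)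
    (hB : ∀ i j x y, i ≠ j → B i j x y = B j i y x)
    (hB0 : ∀ i j y, i ≠ j → ∑ x, B i j x y = 0) :
    ∀ (n : ℕ) (s : Finset ι), s.card = n → ∀ w : ι → X → ZMod 2, (∀ i, ∑ x, w i x = 0) →
      cnt B w s = 1 := by
  intro n
  induction n with
  | zero =>
    intro s hs w _
    rw [Finset.card_eq_zero] at hs
    subst hs
    simp [cnt, hX]
  | succ n ih =>
    intro s hs w hw
    -- invariance under a change of `w`
    have inv : ∀ (w : ι → X → ZMod 2), (∀ i, ∑ x, w i x = 0) → ∀ e ∈ s,
        cnt B (Function.update w e 0) s = cnt B w s := by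
      intro w hw e he
      have hw' : ∀ i, ∑ x, (Function.update w e 0) i x = 0 := by
        intro i
        by_cases hie : i = e
        · subst hie; simp
        · rw [Function.update_of_ne hie]; exact hw i
      have key : cnt B w s = cnt B (Function.update w e 0) s +
          ∑ δ : ι → X, w e (δ e) * ∏ i ∈ s.erase e, tm B w s δ i := by
        unfold cnt
        rw [← Finset.sum_add_distrib]
        refine Finset.sum_congr rfl (fun δ _ => ?_)
        rw [← Finset.mul_prod_erase s _ he, ← Finset.mul_prod_erase s _ he]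
        have e1 : ∏ i ∈ s.erase e, tm B (Function.update w e 0) s δ i =
            ∏ i ∈ s.erase e, tm B w s δ i := by
          refine Finset.prod_congr rfl (fun i hi => ?_)
          unfold tm
          rw [Function.update_of_ne (Finset.ne_of_mem_erase hi)]
        have e2 : tm B w s δ e = tm B (Function.update w e 0) s δ e + w e (δ e) := by
          unfold tm
          rw [Function.update_self]
          simp only [Pi.zero_apply, zero_add]
          ring
        rw [e1, e2]
        ring
      rw [key, sum_tm hX B w he]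
      have hz : ∑ x : X, w e x * cnt B (fun i y => w i y + B i e y x) (s.erase e) = 0 := by
        have h1 : ∀ x : X, cnt B (fun i y => w i y + B i e y x) (s.erase e) =
            cnt B (fun i y => if i = e then 0 else w i y + B i e y x) (s.erase e) := by
          intro x
          unfold cnt
          refine Finset.sum_congr rfl (fun δ _ => Finset.prod_congr rfl (fun i hi => ?_))
          unfold tm
          simp only [if_neg (Finset.ne_of_mem_erase hi)]
        have h2 : ∀ x : X,
            cnt B (fun i y => if i = e then 0 else w i y + B i e y x) (s.erase e) = 1 := by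
          intro x
          refine ih (s.erase e) ?_ _ (fun i => ?_)
          · rw [Finset.card_erase_of_mem he, hs]; rfl
          · by_cases hie : i = e
            · simp [hie]
            · simp only [if_neg hie]
              rw [Finset.sum_add_distrib, hw i, hB0 i e x hie, add_zero]
        have h3 : ∀ x ∈ (Finset.univ : Finset X),
            w e x * cnt B (fun i y => w i y + B i e y x) (s.erase e) = w e x := by
          intro x _
          rw [h1 x, h2 x, mul_one]
        rw [Finset.sum_congr rfl h3, hw e]
      rw [hz, add_zero]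
    have inv2 : ∀ t : Finset ι, t ⊆ s →
        cnt B (fun i => if i ∈ t then 0 else w i) s = cnt B w s := by
      intro t
      induction t using Finset.induction_on with
      | empty => intro _; simp
      | @insert a t ha iht =>
        intro hts
        rw [← iht (fun x hx => hts (Finset.mem_insert_of_mem hx))]
        rw [← inv (fun i => if i ∈ t then 0 else w i) (fun i => by
          by_cases hi : i ∈ t
          · simp [hi]
          · simp only [if_neg hi]; exact hw i) a (hts (Finset.mem_insert_self a t))]
        congr 1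
        funext i
        by_cases hia : i = a
        · subst hia; simp
        · rw [Function.update_of_ne hia]
          simp [hia]
    obtain ⟨e, he⟩ : s.Nonempty := by
      rw [← Finset.card_pos, hs]; omega
    rw [← inv2 s (fun _ h => h)]
    have h0 : cnt B (fun i => if i ∈ s then (0 : X → ZMod 2) else w i) s =
        cnt B (fun _ _ => 0) s := by
      unfold cnt
      refine Finset.sum_congr rfl (fun δ _ => Finset.prod_congr rfl (fun i hi => ?_))
      unfold tm
      simp only [if_pos hi]
      rfl
    rw [h0]
    -- the condition of index `e` follows from the others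
    have h1 : cnt B (fun _ _ => 0) s =
        ∑ δ : ι → X, (fun _ => (1 : ZMod 2)) (δ e) * ∏ i ∈ s.erase e, tm B (fun _ _ => 0) s δ i := by
      unfold cnt
      refine Finset.sum_congr rfl (fun δ _ => ?_)
      rw [← Finset.mul_prod_erase s _ he]
      by_cases hall : ∀ i ∈ s.erase e, tm B (fun _ _ => 0) s δ i = 1
      · rw [Finset.prod_congr rfl hall]
        congr 1
        have h2 : ∑ i ∈ s, ∑ j ∈ s.erase i, B i j (δ i) (δ j) = 0 :=
          sum_erase_symm s (fun i j => B i j (δ i) (δ j)) (fun i j hij => hB i j _ _ hij)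
        rw [← Finset.add_sum_erase s _ he] at h2
        have h3 : ∑ i ∈ s.erase e, ∑ j ∈ s.erase i, B i j (δ i) (δ j) = 0 := by
          refine Finset.sum_eq_zero (fun i hi => ?_)
          have := hall i hi
          unfold tm at this
          simpa using this
        rw [h3, add_zero] at h2
        unfold tm
        rw [h2]
        simp
      · push Not at hall
        obtain ⟨i, hi, hi1⟩ := hall
        have hi0 : tm B (fun _ _ => 0) s δ i = 0 := by
          generalize tm B (fun _ _ => 0) s δ i = a at hi1 ⊢
          revert a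
          decide
        rw [Finset.prod_eq_zero hi hi0, mul_zero, mul_zero]
    rw [h1, sum_tm hX B _ he (fun _ => 1)]
    have h2 : ∀ x : X, cnt B (fun i y => (0 : ZMod 2) + B i e y x) (s.erase e) =
        cnt B (fun i y => if i = e then 0 else B i e y x) (s.erase e) := by
      intro x
      unfold cnt
      refine Finset.sum_congr rfl (fun δ _ => Finset.prod_congr rfl (fun i hi => ?_))
      unfold tm
      simp only [if_neg (Finset.ne_of_mem_erase hi), zero_add]
    have h3 : ∀ x ∈ (Finset.univ : Finset X),
        1 * cnt B (fun i y => (0 : ZMod 2) + B i e y x) (s.erase e) = 1 := by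
      intro x _
      rw [one_mul, h2 x]
      refine ih (s.erase e) ?_ _ (fun i => ?_)
      · rw [Finset.card_erase_of_mem he, hs]; rfl
      · by_cases hie : i = e
        · simp [hie]
        · simp only [if_neg hie]
          exact hB0 i e x hie
    rw [Finset.sum_congr rfl h3]
    simp [hX]

/-- existence of a solution -/
theorem exists_sol (hX : (Fintype.card X : ZMod 2) = 1) (B : ι → ι → X → X → ZMod 2)
    (hB : ∀ i j x y, i ≠ j → B i j x y = B j i y x)
    (hB0 : ∀ i j y, i ≠ j → ∑ x, B i j x y = 0) :
    ∃ δ : ι → X, ∀ i, ∑ j ∈ Finset.univ.erase i, B i j (δ i) (δ j) = 0 := by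
  have h := cnt_eq_one hX B hB hB0 _ Finset.univ rfl (fun _ _ => 0) (fun _ => by simp)
  have h2 : cnt B (fun _ _ => 0) Finset.univ ≠ 0 := by rw [h]; exact one_ne_zero
  obtain ⟨δ, -, hδ⟩ := Finset.exists_ne_zero_of_sum_ne_zero h2
  refine ⟨δ, fun i => ?_⟩
  have h3 : tm B (fun _ _ => 0) Finset.univ δ i ≠ 0 := by
    intro h4
    exact hδ (Finset.prod_eq_zero (Finset.mem_univ i) h4)
  unfold tm at h3
  rw [zero_add] at h3
  generalize ∑ j ∈ Finset.univ.erase i, B i j (δ i) (δ j) = a at h3 ⊢
  revert a
  decide

end Pool.Agent.CDC
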