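import Pool.Agent.CDC.Resist
import Pool.Agent.CDC.Oddness

/-!
# From circuits through `k` points to 5-cycle double covers: final form
-/

set_option autoImplicit false

namespace Pool.Agent.CDC

/-- the edges of `G` have a 3-colouring which is proper at all but at most `k` vertices -/
def MGraph.NearColourable {V E : Type} (G : MGraph V E) (k : ℕ) : Prop :=
  ∃ (X : Set V) (col : E → ZMod 3), X.ncard ≤ k ∧
    ∀ v, v ∉ X → ∀ e f, G.inc v e → G.inc v f → e ≠ f → col e ≠ col f

theorem near_of_matching {V E : Type} [Finite V] [Finite E] {G : MGraph V E} (hG : G.Cubic) {k : ℕ}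
    {M : Set E} (hM : G.IsPM M) (ho : (G.oddCircuits M).ncard ≤ k) : G.NearColourable k := by
  obtain ⟨X, col, hX, hcol⟩ := col_of_matching hG hM
  exact ⟨X, col, hX.trans ho, hcol⟩

theorem res_of_points (k : ℕ)
    (HP : ∀ (V E : Type) [Finite V] [Finite E] [Nonempty V] (G : MGraph V E), G.Cubic →
      (∀ S : Set V, S.Nonempty → Sᶜ.Nonempty → 3 ≤ (G.cut S).ncard) →
      ∀ X : Set V, X.ncard ≤ k → ∃ C, G.IsCircuit C ∧ X ⊆ G.verts C)
    {V E : Type} [Finite V] [Finite E] (G : MGraph V E) (hG : G.Cubic) (hb : G.Bridgeless)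
    (hk : G.NearColourable k) :
    (∃ D : Fin 5 → Set E, G.IsCDC D) ∧
      ∃ U : Set V, 5 * U.ncard ≤ 2 * Nat.card V ∧ (G.expand hG U).Coverable4 := by
  obtain ⟨X, col, hX, hcol⟩ := hk
  obtain ⟨D, hD⟩ := cdc_of_points k HP _ V E G hG hb rfl X col hX hcol
  exact ⟨⟨D, hD⟩, coverable_two_fifths hG D hD⟩

end Pool.Agent.CDC
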