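import Pool.Agent.CDC.Glue

/-!
# Double covers of cubic graphs with a colouring which is proper off few vertices
-/

set_option autoImplicit false

namespace Pool.Agent.CDC

open Finset

variable {V E : Type}

/-- a proper 3-edge-colouring gives a double cover -/
theorem cdc_of_col {G : MGraph V E} (hG : G.Cubic) (col : E → ZMod 3)
    (hcol : ∀ v, ProperAt G col v) : ∃ D : Fin 5 → Set E, G.IsCDC D := by
  classical
  have q1 : ∀ a b c : ZMod 3, a ≠ b → a ≠ c → b ≠ c → ∀ i : Fin 5,
      Even ((if (i.1 < 3 ∧ a ≠ (i.1 : ZMod 3)) then 1 else 0) +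
        (if (i.1 < 3 ∧ b ≠ (i.1 : ZMod 3)) then 1 else 0) +
        (if (i.1 < 3 ∧ c ≠ (i.1 : ZMod 3)) then 1 else 0)) := by decide
  have q2 : ∀ a : ZMod 3,
      (univ.filter (fun i : Fin 5 => (i.1 < 3 ∧ a ≠ (i.1 : ZMod 3)))).card = 2 := by decide
  refine ⟨fun i => {e | i.1 < 3 ∧ col e ≠ (i.1 : ZMod 3)}, ?_, ?_⟩
  · intro i v
    obtain ⟨e₁, e₂, e₃, h12, h13, h23, hs⟩ := star_off hG v
    rw [ncard_star h12 h13 h23 hs]
    exact even_congr Iff.rfl Iff.rfl Iff.rfl (q1 _ _ _
      (hcol v _ _ ((hs _).2 (by simp)) ((hs _).2 (by simp)) h12)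
      (hcol v _ _ ((hs _).2 (by simp)) ((hs _).2 (by simp)) h13)
      (hcol v _ _ ((hs _).2 (by simp)) ((hs _).2 (by simp)) h23) i)
  · intro e
    rw [← q2 (col e), ← Set.ncard_coe_finset]
    congr 1
    ext i
    simp

/-- two parallel edges inside a set of two vertices with a small cut -/
theorem exists_parallel [Finite E] {G : MGraph V E} (hG : G.Cubic) {S : Set V} {a b : V}
    (hab : a ≠ b) (hS : ∀ v, v ∈ S ↔ v = a ∨ v = b) (hc : (G.cut S).ncard ≤ 2) :
    ∃ p q, p ≠ q ∧ (∀ z, G.inc z p ↔ z = a ∨ z = b) ∧ (∀ z, G.inc z q ↔ z = a ∨ z = b) := by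
  have key : ∀ x, x ∈ S → {e | G.inc a e ∧ G.inc b e}.ncard +
      {e | e ∈ G.cut S ∧ G.inc x e}.ncard = 3 := by
    intro x hx
    rw [← hG x, ← Set.ncard_union_eq _ (Set.toFinite _) (Set.toFinite _)]
    · congr 1
      ext e
      simp only [Set.mem_union, Set.mem_setOf_eq]
      obtain ⟨u, w, huw, h⟩ := exists_ends G e
      rw [mem_cut_iff h, h a, h b, h x, hS u, hS w]
      have hx' := (hS x).1 hx
      constructor
      · rintro (⟨h1, h2⟩ | ⟨-, h2⟩)
        · rcases hx' with rfl | rfl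
          · exact h1
          · exact h2
        · exact h2
      · intro h1
        by_cases h2 : (a = u ∨ a = w) ∧ (b = u ∨ b = w)
        · exact Or.inl h2
        · refine Or.inr ⟨?_, h1⟩
          rcases hx' with rfl | rfl <;> rcases h1 with rfl | rfl
          · have : ¬ b = w := fun h => h2 ⟨Or.inl rfl, Or.inr h⟩
            left
            refine ⟨Or.inl rfl, ?_⟩
            rintro (h | h)
            · exact huw h.symm
            · exact this h.symm
          · have : ¬ b = u := fun h => h2 ⟨Or.inr rfl, Or.inl h⟩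
            right
            refine ⟨?_, Or.inl rfl⟩
            rintro (h | h)
            · exact huw h
            · exact this h.symm
          · have : ¬ a = w := fun h => h2 ⟨Or.inr h, Or.inl rfl⟩
            left
            refine ⟨Or.inr rfl, ?_⟩
            rintro (h | h)
            · exact this h.symm
            · exact huw h.symm
          · have : ¬ a = u := fun h => h2 ⟨Or.inl h, Or.inr rfl⟩
            right
            refine ⟨?_, Or.inr rfl⟩
            rintro (h | h)
            · exact this h.symm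
            · exact huw h
    · rw [Set.disjoint_left]
      rintro e ⟨h1, h2⟩ ⟨⟨-, z, hz, hz'⟩, -⟩
      obtain ⟨u, w, huw, h⟩ := exists_ends G e
      rw [h] at h1 h2 hz'
      rw [hS] at hz
      push Not at hz
      rcases h1 with rfl | rfl <;> rcases h2 with rfl | rfl <;> rcases hz' with rfl | rfl
      · exact hab rfl
      · exact hab rfl
      · exact hz.1 rfl
      · exact hz.2 rfl
      · exact hz.2 rfl
      · exact hz.1 rfl
      · exact hab rfl
      · exact hab rfl
  have h1 := key a ((hS a).2 (Or.inl rfl))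
  have h2 := key b ((hS b).2 (Or.inr rfl))
  have h3 : {e | e ∈ G.cut S ∧ G.inc a e}.ncard + {e | e ∈ G.cut S ∧ G.inc b e}.ncard ≤
      (G.cut S).ncard := by
    rw [← Set.ncard_union_eq _ (Set.toFinite _) (Set.toFinite _)]
    · refine Set.ncard_le_ncard ?_ (Set.toFinite _)
      rintro e (h | h)
      · exact h.1
      · exact h.1
    · rw [Set.disjoint_left]
      rintro e ⟨⟨-, z, hz, hz'⟩, h1⟩ ⟨-, h2⟩
      obtain ⟨u, w, huw, h⟩ := exists_ends G e
      rw [h] at h1 h2 hz'
      rw [hS] at hz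
      push Not at hz
      rcases h1 with rfl | rfl <;> rcases h2 with rfl | rfl <;> rcases hz' with rfl | rfl
      · exact hab rfl
      · exact hab rfl
      · exact hz.1 rfl
      · exact hz.2 rfl
      · exact hz.2 rfl
      · exact hz.1 rfl
      · exact hab rfl
      · exact hab rfl
  have h4 : 1 < {e | G.inc a e ∧ G.inc b e}.ncard := by omega
  obtain ⟨p, hp, q, hq, hpq⟩ := (Set.one_lt_ncard (Set.toFinite _)).1 h4
  have hends : ∀ p, G.inc a p ∧ G.inc b p → ∀ z, G.inc z p ↔ z = a ∨ z = b := by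
    rintro p ⟨ha, hb⟩ z
    obtain ⟨u, w, huw, h⟩ := exists_ends G p
    rw [h] at ha hb ⊢
    rcases ha with rfl | rfl <;> rcases hb with rfl | rfl
    · exact absurd rfl hab
    · exact Iff.rfl
    · exact or_comm
    · exact absurd rfl hab
  exact ⟨p, q, hpq, hends p hp, hends q hq⟩

/-- four vertices, a small cut in the middle -/
theorem cdc_four [Finite E] {G : MGraph V E} (hG : G.Cubic) {S : Set V} (hS : S.ncard = 2)
    (hS' : Sᶜ.ncard = 2) (hc : (G.cut S).ncard ≤ 2) : ∃ D : Fin 5 → Set E, G.IsCDC D := by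
  classical
  obtain ⟨a, b, hab, rfl⟩ := Set.ncard_eq_two.1 hS
  obtain ⟨a', b', hab', hS''⟩ := Set.ncard_eq_two.1 hS'
  obtain ⟨p, q, hpq, hp, hq⟩ := exists_parallel hG hab (fun v => by simp) hc
  obtain ⟨p', q', hpq', hp', hq'⟩ := exists_parallel (S := ({a, b} : Set V)ᶜ) hG hab'
    (fun v => by rw [hS'']; simp) (by rw [cut_compl]; exact hc)
  have hout : ∀ v, v = a' ∨ v = b' ↔ ¬ (v = a ∨ v = b) := by
    intro v
    have h1 : v ∈ ({a, b} : Set V)ᶜ ↔ v ∈ ({a', b'} : Set V) := by rw [hS'']
    simp only [Set.mem_compl_iff, Set.mem_insert_iff, Set.mem_singleton_iff] at h1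
    exact h1.symm
  have hne : ∀ x y, (∀ z, G.inc z x ↔ z = a ∨ z = b) → (∀ z, G.inc z y ↔ z = a' ∨ z = b') →
      x ≠ y := by
    rintro x y h1 h2 rfl
    have := (h2 a).1 ((h1 a).2 (Or.inl rfl))
    exact (hout a).1 this (Or.inl rfl)
  refine cdc_of_col hG (fun e => if e = p ∨ e = p' then 1 else if e = q ∨ e = q' then 2 else 0)
    (fun v => ?_)
  -- the star of a vertex
  have star : ∀ x y : E, x ≠ y → G.inc v x → G.inc v y → ∃ r, r ≠ x ∧ r ≠ y ∧
      ∀ e, G.inc v e ↔ e = x ∨ e = y ∨ e = r := by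
    intro x y hxy hx hy
    obtain ⟨r, h1, h2, h3⟩ := three_of_two (hG v) (p := x) (q := y) hx hy hxy
    exact ⟨r, h1, h2, h3⟩
  have fin : ∀ (c : E → ZMod 3) (x y r : E), (∀ e, G.inc v e ↔ e = x ∨ e = y ∨ e = r) →
      c x = 1 → c y = 2 → c r = 0 → ProperAt G c v := by
    intro c x y r hs h1 h2 h3 e f he hf hef
    rcases (hs e).1 he with rfl | rfl | rfl <;> rcases (hs f).1 hf with rfl | rfl | rfl
    · exact absurd rfl hef
    · rw [h1, h2]; decide
    · rw [h1, h3]; decide
    · rw [h2, h1]; decide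
    · exact absurd rfl hef
    · rw [h2, h3]; decide
    · rw [h3, h1]; decide
    · rw [h3, h2]; decide
    · exact absurd rfl hef
  by_cases hv : v = a ∨ v = b
  · obtain ⟨r, hr1, hr2, hs⟩ := star p q hpq ((hp v).2 hv) ((hq v).2 hv)
    have hr : G.inc v r := (hs r).2 (by simp)
    have hrp : r ≠ p' := by
      rintro rfl
      exact (hout v).1 ((hp' v).1 hr) hv
    have hrq : r ≠ q' := by
      rintro rfl
      exact (hout v).1 ((hq' v).1 hr) hv
    refine fin _ p q r hs ?_ ?_ ?_
    · rw [if_pos (Or.inl rfl)]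
    · rw [if_neg, if_pos (Or.inl rfl)]
      rintro (h | h)
      · exact hpq h.symm
      · exact hne q p' hq hp' h
    · rw [if_neg, if_neg]
      · rintro (h | h)
        · exact hr2 h
        · exact hrq h
      · rintro (h | h)
        · exact hr1 h
        · exact hrp h
  · have hv' := (hout v).2 hv
    obtain ⟨r, hr1, hr2, hs⟩ := star p' q' hpq' ((hp' v).2 hv') ((hq' v).2 hv')
    have hr : G.inc v r := (hs r).2 (by simp)
    have hrp : r ≠ p := by
      rintro rfl
      exact hv ((hp v).1 hr)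
    have hrq : r ≠ q := by
      rintro rfl
      exact hv ((hq v).1 hr)
    refine fin _ p' q' r hs ?_ ?_ ?_
    · rw [if_pos (Or.inr rfl)]
    · rw [if_neg, if_pos (Or.inr rfl)]
      rintro (h | h)
      · exact hne p q' hp hq' h.symm
      · exact hpq' h.symm
    · rw [if_neg, if_neg]
      · rintro (h | h)
        · exact hrq h
        · exact hr2 h
      · rintro (h | h)
        · exact hrp h
        · exact hr1 h

/-- **Reduction.** If in every 3-edge-connected cubic graph any `k` vertices lie on a circuit, then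
every bridgeless cubic graph with a colouring which is proper off at most `k` vertices has a
5-cycle double cover. -/
theorem cdc_of_points (k : ℕ)
    (HP : ∀ (V E : Type) [Finite V] [Finite E] [Nonempty V] (G : MGraph V E), G.Cubic →
      (∀ S : Set V, S.Nonempty → Sᶜ.Nonempty → 3 ≤ (G.cut S).ncard) →
      ∀ X : Set V, X.ncard ≤ k → ∃ C, G.IsCircuit C ∧ X ⊆ G.verts C) (n : ℕ) :
    ∀ (V E : Type) [Finite V] [Finite E] (G : MGraph V E), G.Cubic → G.Bridgeless →
      Nat.card V = n → ∀ (X : Set V) (col : E → ZMod 3), X.ncard ≤ k →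
      (∀ v, v ∉ X → ProperAt G col v) → ∃ D : Fin 5 → Set E, G.IsCDC D := by
  classical
  induction n using Nat.strong_induction_on with
  | _ n ih =>
  intro V E _ _ G hG hB hn X col hX hcol
  have := Fintype.ofFinite V
  have := Fintype.ofFinite E
  by_cases hne : Nonempty V
  swap
  · refine ⟨fun _ => ∅, fun i v => absurd ⟨v⟩ hne, fun e => ?_⟩
    obtain ⟨u, -⟩ := exists_ends G e
    exact absurd ⟨u⟩ hne
  by_cases hT : ∀ S : Set V, S.Nonempty → Sᶜ.Nonempty → 3 ≤ (G.cut S).ncard
  · obtain ⟨C, hC, hXC⟩ := HP V E G hG hT X hX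
    obtain ⟨m, ⟨K⟩⟩ := hC.circ
    obtain ⟨dd, c, xe, h1, h2, h3⟩ := core K hG col
      (fun w hw e f he hf hef => hcol w (fun h => hw (hXC h)) e f he hf hef)
    obtain ⟨⟨D, hD, -⟩, -⟩ := cover_of_core K hG dd c xe h1 h2 h3
    exact ⟨D, hD⟩
  · push Not at hT
    obtain ⟨S, hSne, hSne', hS3⟩ := hT
    have hpar : ∀ S : Set V, (G.cut S).ncard < 3 → Even S.ncard := by
      intro S hS
      have h1 := cut_parity hG S
      have h2 : Even (G.cut S).ncard := by
        have h3 := hB S
        have h4 : (G.cut S).ncard = 0 ∨ (G.cut S).ncard = 2 := by omega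
        rcases h4 with h4 | h4 <;> rw [h4] <;> decide
      rw [← ZMod.natCast_eq_zero_iff_even] at h2 ⊢
      rw [← h1, h2]
    have hS3' : (G.cut Sᶜ).ncard < 3 := by rw [cut_compl]; exact hS3
    have hE := hpar S hS3
    have hE' := hpar Sᶜ hS3'
    have hadd : S.ncard + Sᶜ.ncard = Nat.card V := Set.ncard_add_ncard_compl S
    have hp1 : 0 < S.ncard := (Set.ncard_pos (Set.toFinite _)).2 hSne
    have hp2 : 0 < Sᶜ.ncard := (Set.ncard_pos (Set.toFinite _)).2 hSne'
    by_cases h4 : Nat.card V ≤ 4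
    · obtain ⟨r, hr⟩ := hE
      obtain ⟨r', hr'⟩ := hE'
      exact cdc_four hG (S := S) (by omega) (by omega) (by omega)
    · -- a nontrivial 3-cut
      have hbig : ∃ S : Set V, (G.cut S).ncard < 3 ∧ 2 ≤ S.ncard ∧ 4 ≤ Sᶜ.ncard := by
        obtain ⟨r, hr⟩ := hE
        obtain ⟨r', hr'⟩ := hE'
        by_cases h5 : 4 ≤ Sᶜ.ncard
        · exact ⟨S, hS3, by omega, h5⟩
        · exact ⟨Sᶜ, hS3', by omega, by rw [compl_compl]; omega⟩
      obtain ⟨S, hS3, hS2, hS4⟩ := hbig
      have hB' := hB S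
      obtain ⟨v, hv, hcut⟩ : ∃ v, v ∉ S ∧ (G.cut (insert v S)).ncard = 3 := by
        have h5 : (G.cut S).ncard = 0 ∨ (G.cut S).ncard = 2 := by omega
        rcases h5 with h5 | h5
        · have h6 : (Sᶜ).Nonempty := by
            rw [← Set.ncard_pos (Set.toFinite _)]; omega
          obtain ⟨v, hv⟩ := h6
          refine ⟨v, hv, ?_⟩
          have h7 := card_cut_insert hG S hv
          have h8 : {e | e ∈ G.cut S ∧ G.inc v e}.ncard = 0 := by
            have h9 := (Set.ncard_eq_zero (Set.toFinite _)).1 h5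
            rw [Set.ncard_eq_zero (Set.toFinite _), h9]
            ext e; simp
          omega
        · have h6 : (G.cut S).Nonempty := by
            rw [← Set.ncard_pos (Set.toFinite _)]; omega
          obtain ⟨e, he⟩ := h6
          obtain ⟨v, hv, hve⟩ := he.2
          refine ⟨v, hv, ?_⟩
          have h7 := card_cut_insert hG S hv
          have h8 : 0 < {e | e ∈ G.cut S ∧ G.inc v e}.ncard := by
            rw [Set.ncard_pos (Set.toFinite _)]
            exact ⟨e, he, hve⟩
          have h9 : {e | e ∈ G.cut S ∧ G.inc v e}.ncard ≤ (G.cut S).ncard :=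
            Set.ncard_le_ncard (fun e he => he.1) (Set.toFinite _)
          have h10 := hB (insert v S)
          omega
      set T : Set V := insert v S with hTdef
      have hT1 : T.ncard = S.ncard + 1 := Set.ncard_insert_of_notMem hv (Set.toFinite _)
      have hT2 : T.ncard + Tᶜ.ncard = Nat.card V := Set.ncard_add_ncard_compl T
      have hST : S.ncard + Sᶜ.ncard = Nat.card V := Set.ncard_add_ncard_compl S
      have hcut' : (G.cut Tᶜ).ncard = 3 := by rw [cut_compl]; exact hcut
      obtain ⟨X₁, hX₁, hcol₁⟩ := ctr_col hG hcut col X hcol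
      obtain ⟨X₂, hX₂, hcol₂⟩ := ctr_col hG hcut' col X hcol
      obtain ⟨D₁, hD₁⟩ := ih (T.ncard + 1) (by omega) _ _ (G.ctr T) (MGraph.ctr_cubic hG hcut)
        (MGraph.ctr_bridgeless hB T) MGraph.ctr_card X₁ _ (hX₁.trans hX) hcol₁
      obtain ⟨D₂, hD₂⟩ := ih (Tᶜ.ncard + 1) (by omega) _ _ (G.ctr Tᶜ)
        (MGraph.ctr_cubic hG hcut') (MGraph.ctr_bridgeless hB Tᶜ) MGraph.ctr_card X₂ _
        (hX₂.trans hX) hcol₂
      exact glue_three hcut D₁ hD₁ D₂ hD₂

end Pool.Agent.CDC
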