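import Pool.Agent.CDC.OddTwo

/-!
# Three disjoint matchings of the odd circuits

`J 0`, `J 1`, `J 2` are pairwise disjoint subsets of the perfect matching `M`. Every odd circuit of
the 2-factor has exactly one vertex on every `J l`, every even circuit has vertices on at most one
of them, an even number.
-/

set_option autoImplicit false

namespace Pool.Agent.CDC

open Finset AFlow

variable {V E : Type} {G : MGraph V E}

/-- even circuits with all labels equal -/
theorem local_const {C : Set E} {n : ℕ} (hG : G.Cubic) (K : Circ G C n) (hn : Even n) (f : V → ℤ)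
    (x : ZMod 3) {k : ℕ} (hcard : (univ.filter (fun i => f (K.v i) ≠ 0)).card = k)
    (hk : Even k) (w : E → F4)
    (hw : ∀ i, w (K.h hG i) = if f (K.v i) = 0 then 0 else th x) :
    LocJ G C w (k / 2) := by
  classical
  obtain ⟨p, hp, hp1, hp2⟩ := exists_pos (fun i => f (K.v i) ≠ 0) k hcard
  have hcyc : ∀ q : ℕ, (∑ _r ∈ range q, th x : F4) = 0 ∨ (∑ _r ∈ range q, th x : F4) = th x := by
    intro q
    induction q with
    | zero => left; simp
    | succ q ih =>
      rw [Finset.sum_range_succ]
      rcases ih with h | h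
      · right; rw [h, zero_add]
      · left; rw [h]; exact f4_add_self _
  have hfin : ∀ q, q ≤ k → (∑ r ∈ univ.filter (fun r : Fin k => r.1 < q), (th x : F4)) =
      ∑ _r ∈ range q, th x := by
    intro q hq
    rw [Finset.sum_const, Finset.sum_const, Finset.card_range]
    congr 1
    have h1 : (univ.filter (fun r : Fin k => r.1 < q)).card = (range q).card := by
      refine Finset.card_bij (fun r _ => r.1) ?_ ?_ ?_
      · intro r hr
        rw [mem_filter] at hr
        rw [Finset.mem_range]
        exact hr.2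
      · intro r _ r' _ h
        exact Fin.ext h
      · intro r hr
        rw [Finset.mem_range] at hr
        exact ⟨⟨r, by omega⟩, by rw [mem_filter]; exact ⟨mem_univ _, hr⟩, rfl⟩
    rw [h1, Finset.card_range]
  refine locJ_half hG K w p hp (fun _ => th x) (fun _ => th_ne _)
    (fun i => ?_) (th (x + 1)) (fun q hq => ?_) ?_ ?_
  · exact hw_of_pos hG K (ℓ := fun _ => x) hp hp1 hp2 hw i
  · have h3 : ∀ x : ZMod 3, th (x + 1) + 0 ≠ 0 ∧ th (x + 1) + th x ≠ 0 := by decide
    show th (x + 1) + (∑ r ∈ univ.filter (fun r : Fin k => r.1 < q), (th x : F4)) ≠ 0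
    rw [hfin q hq]
    rcases hcyc q with h | h
    · rw [h]; exact (h3 x).1
    · rw [h]; exact (h3 x).2
  · rw [Finset.sum_const, Finset.card_univ, Fintype.card_fin]
    obtain ⟨m, rfl⟩ := hk
    rw [← two_mul, mul_nsmul, two_nsmul, f4_add_self, nsmul_zero]
  · obtain ⟨m, hm⟩ := hn
    obtain ⟨m', hm'⟩ := hk
    exact ⟨m + m', by omega⟩

namespace FD

variable {M : Set E} {κ : V → G.Circs M} {me : V → E} {μ : V → V}

open Classical in
/-- the vertices on `J` -/
theorem card_on [Fintype V] [Finite E] (h : FD G M κ me μ) {J : Set E} (hJ : J ⊆ M) :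
    (univ.filter (fun v => me v ∈ J)).card = 2 * J.ncard := by
  have := Fintype.ofFinite E
  have h1 : J.ncard = (univ.filter (fun e : E => e ∈ J)).card := by
    rw [← Set.ncard_coe_finset]
    congr 1
    ext v; simp
  rw [h1, Finset.card_eq_sum_card_fiberwise (f := me) (t := univ.filter (fun e : E => e ∈ J)) (by
    intro v hv
    rw [Finset.mem_coe, mem_filter] at hv ⊢
    exact ⟨mem_univ _, hv.2⟩)]
  have h2 : ∀ e ∈ univ.filter (fun e : E => e ∈ J),
      ((univ.filter (fun v => me v ∈ J)).filter (fun v => me v = e)).card = 2 := by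
    intro e he
    rw [mem_filter] at he
    obtain ⟨u, w, huw, hu⟩ := exists_ends G e
    have h3 : (univ.filter (fun v => me v ∈ J)).filter (fun v => me v = e) = {u, w} := by
      ext v
      simp only [mem_filter, mem_univ, true_and, mem_insert, mem_singleton]
      rw [← hu v]
      constructor
      · rintro ⟨-, h4⟩
        rw [← h4]
        exact h.inc_me v
      · intro h4
        have h5 := h.eqme v e (hJ he.2) h4
        rw [← h5]
        exact ⟨he.2, rfl⟩
    rw [h3, Finset.card_pair huw]
  rw [Finset.sum_congr rfl h2, Finset.sum_const, smul_eq_mul, mul_comm]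

theorem on_iff (h : FD G M κ me μ) {J : Set E} (hJ : J ⊆ M) (v : V) :
    v ∈ G.verts J ↔ me v ∈ J := by
  constructor
  · rintro ⟨e, he, hv⟩
    rwa [← h.eqme v e (hJ he) hv]
  · intro h'
    exact ⟨_, h', h.inc_me v⟩

/-- **three disjoint matchings** -/
theorem three_J [Fintype V] [Finite E] (h : FD G M κ me μ) (hG : G.Cubic) (J : Fin 3 → Set E)
    (hJ : ∀ l, J l ⊆ M) (hdis : ∀ k l, k ≠ l → Disjoint (J k) (J l))
    (hodd : ∀ i : G.Circs M, Odd i.1.ncard → ∀ l, (G.verts i.1 ∩ G.verts (J l)).ncard = 1)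
    (heven : ∀ i : G.Circs M, Even i.1.ncard → ∃ l,
      Even (G.verts i.1 ∩ G.verts (J l)).ncard ∧ ∀ k, k ≠ l → G.verts i.1 ∩ G.verts (J k) = ∅) :
    ∃ D : Fin 5 → Set E, G.IsCDC D ∧
      2 * {v | v ∉ G.verts (D 0)}.ncard + {i : G.Circs M | Odd i.1.ncard}.ncard ≤
        2 * (⋃ l, J l).ncard ∧
      ((∀ i : G.Circs M, Even i.1.ncard → ∀ l, G.verts i.1 ∩ G.verts (J l) = ∅) →
        2 * (⋃ l, J l).ncard = 3 * {i : G.Circs M | Odd i.1.ncard}.ncard) := by
  classical
  have := Fintype.ofFinite (G.Circs M)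
  have hdat : ∀ i : G.Circs M, ∃ n, Nonempty (Circ G i.1 n) := fun i => i.2.1.circ
  choose N hN using hdat
  let K : ∀ i : G.Circs M, Circ G i.1 (N i) := fun i => (hN i).some
  have hpar : ∀ i : G.Circs M, i.1.ncard = N i + 2 := fun i => (K i).ncard_eq
  -- labels
  let ll : E → ZMod 3 := fun e => if hl : ∃ l, e ∈ J l then (hl.choose : Fin 3) else 0
  have hll : ∀ e (l : Fin 3), e ∈ J l → ll e = l := by
    intro e l he
    have hl : ∃ l, e ∈ J l := ⟨l, he⟩
    simp only [ll, dif_pos hl]
    by_contra hc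
    exact Set.disjoint_left.1 (hdis _ _ hc) hl.choose_spec he
  let f : V → ℤ := fun v => if me v ∈ ⋃ l, J l then 1 else 0
  have hf0 : ∀ v, f v = 0 ↔ me v ∉ ⋃ l, J l := by
    intro v
    show (if me v ∈ ⋃ l, J l then (1 : ℤ) else 0) = 0 ↔ _
    by_cases hv : me v ∈ ⋃ l, J l
    · rw [if_pos hv]
      exact ⟨fun h' => absurd h' one_ne_zero, fun h' => absurd hv h'⟩
    · rw [if_neg hv]
      exact ⟨fun _ => hv, fun _ => rfl⟩
  have hf1 : ∀ v, f v ≠ 0 ↔ ∃ l, me v ∈ J l := by
    intro v
    rw [Ne, hf0, not_not, Set.mem_iUnion]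
  let w : E → F4 := fun e => if e ∈ ⋃ l, J l then th (ll e) else 0
  have hw : ∀ i (j : Fin (N i + 2)), w ((K i).h hG j) =
      if f ((K i).v j) = 0 then 0 else th (ll (me ((K i).v j))) := by
    intro i j
    have h1 : (K i).h hG j = me ((K i).v j) :=
      h.eqme _ _ (h.h_mem hG (K i) j) ((K i).h_inc hG j)
    rw [h1]
    show (if me ((K i).v j) ∈ ⋃ l, J l then th (ll (me ((K i).v j))) else 0) = _
    by_cases hv : me ((K i).v j) ∈ ⋃ l, J l
    · rw [if_pos hv, if_neg]
      rw [hf0, not_not]
      exact hv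
    · rw [if_neg hv, if_pos]
      rw [hf0]
      exact hv
  -- number of positions
  let c : G.Circs M → ℕ := fun i => (univ.filter (fun v => κ v = i ∧ f v ≠ 0)).card
  have hc : ∀ i, (univ.filter (fun j => f ((K i).v j) ≠ 0)).card = c i := by
    intro i
    exact (h.pos_card (K i) (fun d => f d ≠ 0)).trans rfl
  have hinter : ∀ i l, (G.verts i.1 ∩ G.verts (J l)).ncard =
      (univ.filter (fun v => κ v = i ∧ me v ∈ J l)).card := by
    intro i l
    rw [← Set.ncard_coe_finset]
    congr 1
    ext v
    rw [Set.mem_inter_iff, h.mem_verts_iff, h.on_iff (hJ l), Finset.mem_coe, mem_filter]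
    simp
  have hcsum : ∀ i, c i = ∑ l, (univ.filter (fun v => κ v = i ∧ me v ∈ J l)).card := by
    intro i
    have h1 : univ.filter (fun v => κ v = i ∧ f v ≠ 0) =
        (univ : Finset (Fin 3)).biUnion (fun l => univ.filter (fun v => κ v = i ∧ me v ∈ J l)) := by
      ext v
      simp only [mem_filter, mem_univ, true_and, mem_biUnion]
      rw [hf1]
      constructor
      · rintro ⟨h2, l, h3⟩
        exact ⟨l, h2, h3⟩
      · rintro ⟨l, h2, h3⟩
        exact ⟨h2, l, h3⟩
    show (univ.filter (fun v => κ v = i ∧ f v ≠ 0)).card = _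
    rw [h1, Finset.card_biUnion]
    intro l _ l' _ hll'
    rw [Function.onFun, Finset.disjoint_left]
    intro v hv hv'
    rw [mem_filter] at hv hv'
    exact Set.disjoint_left.1 (hdis _ _ hll') hv.2.2 hv'.2.2
  have hcodd : ∀ i : G.Circs M, Odd i.1.ncard → c i = 3 := by
    intro i hi
    rw [hcsum]
    have h1 : ∀ l ∈ (univ : Finset (Fin 3)),
        (univ.filter (fun v => κ v = i ∧ me v ∈ J l)).card = 1 := fun l _ => by
      rw [← hinter]
      exact hodd i hi l
    rw [Finset.sum_congr rfl h1]
    simp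
  have hloc : ∀ i : G.Circs M, LocJ G i.1 w (if Odd i.1.ncard then 1 else c i / 2) := by
    intro i
    by_cases hi : Odd i.1.ncard
    · rw [if_pos hi]
      refine local_odd hG (K i) ?_ f ?_ (fun v => ll (me v)) ?_ w (hw i)
      · rw [hpar i] at hi
        obtain ⟨m, hm⟩ := hi
        exact ⟨m - 1, by omega⟩
      · rw [hc, hcodd i hi]
      · intro j j' hj hj' hjj
        rw [hf1] at hj hj'
        obtain ⟨l, hl⟩ := hj
        obtain ⟨l', hl'⟩ := hj'
        change ll (me _) = ll (me _) at hjj
        rw [hll _ l hl, hll _ l' hl'] at hjj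
        have hjj' : l = l' := hjj
        subst hjj'
        have h1 := hodd i hi l
        rw [hinter, Finset.card_eq_one] at h1
        obtain ⟨v₀, hv₀⟩ := h1
        have h2 : ∀ j, me ((K i).v j) ∈ J l → (K i).v j = v₀ := by
          intro j hj
          have h3 : (K i).v j ∈ univ.filter (fun v => κ v = i ∧ me v ∈ J l) := by
            rw [mem_filter]
            exact ⟨mem_univ _, h.kap_pos (K i) j, hj⟩
          rw [hv₀, mem_singleton] at h3
          exact h3
        exact (K i).vinj ((h2 j hl).trans (h2 j' hl').symm)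
    · rw [if_neg hi]
      rw [Nat.not_odd_iff_even] at hi
      obtain ⟨l, hl1, hl2⟩ := heven i hi
      have h1 : ∀ k, k ≠ l → (univ.filter (fun v => κ v = i ∧ me v ∈ J k)).card = 0 := by
        intro k hk
        rw [← hinter, hl2 k hk, Set.ncard_empty]
      have h2 : c i = (univ.filter (fun v => κ v = i ∧ me v ∈ J l)).card := by
        rw [hcsum, Finset.sum_eq_single l]
        · intro k _ hk
          exact h1 k hk
        · intro h3; exact absurd (mem_univ _) h3
      refine local_const hG (K i) ?_ f (l : Fin 3) (hc i) ?_ w ?_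
      · rw [hpar i] at hi
        obtain ⟨m, hm⟩ := hi
        exact ⟨m - 1, by omega⟩
      · rw [h2, ← hinter]
        exact hl1
      · intro j
        rw [hw i j]
        by_cases hj : f ((K i).v j) = 0
        · rw [if_pos hj, if_pos hj]
        · rw [if_neg hj, if_neg hj]
          obtain ⟨k, hk⟩ := (hf1 _).1 hj
          by_cases hkl : k = l
          · subst hkl
            rw [hll _ k hk]
          · have h3 := h1 k hkl
            rw [Finset.card_eq_zero, Finset.eq_empty_iff_forall_notMem] at h3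
            exact absurd (by rw [mem_filter]; exact ⟨mem_univ _, h.kap_pos (K i) j, hk⟩)
              (h3 ((K i).v j))
  obtain ⟨D, hD, hD'⟩ := jmain hG (fun i : G.Circs M => i.1) (fun i => i.2.1) (fun v =>
    ⟨κ v, h.mem v, fun i hi => (h.uniq v i hi).symm⟩) _ _ hloc
  refine ⟨D, hD, ?_⟩
  have hw' : {i : G.Circs M | Odd i.1.ncard}.ncard =
      ∑ i : G.Circs M, if Odd i.1.ncard then 1 else 0 := by
    rw [← Finset.card_filter, ← Set.ncard_coe_finset]
    congr 1
    ext i; simp
  have hsum : 2 * (∑ i : G.Circs M, if Odd i.1.ncard then 1 else c i / 2) +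
      (∑ i : G.Circs M, if Odd i.1.ncard then 1 else 0) ≤ ∑ i, c i := by
    rw [Finset.mul_sum, ← Finset.sum_add_distrib]
    refine Finset.sum_le_sum (fun i _ => ?_)
    by_cases hi : Odd i.1.ncard
    · rw [if_pos hi, if_pos hi, hcodd i hi]
      norm_num
    · rw [if_neg hi, if_neg hi]
      omega
  have hctot : ∑ i, c i = 2 * (⋃ l, J l).ncard := by
    have h1 : ∑ i, c i = (univ.filter (fun v => me v ∈ ⋃ l, J l)).card := by
      rw [Finset.card_eq_sum_card_fiberwise (t := univ) (f := κ) (fun _ _ => mem_coe.2 (mem_univ _))]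
      refine Finset.sum_congr rfl (fun i _ => ?_)
      show (univ.filter (fun v => κ v = i ∧ f v ≠ 0)).card = _
      congr 1
      ext v
      simp only [mem_filter, mem_univ, true_and]
      rw [Ne, hf0, not_not]
      exact and_comm
    rw [h1]
    exact (h.card_on (Set.iUnion_subset hJ))
  refine ⟨by omega, fun hno => ?_⟩
  rw [← hctot, hw', Finset.mul_sum]
  refine Finset.sum_congr rfl (fun i _ => ?_)
  by_cases hi : Odd i.1.ncard
  · rw [if_pos hi, hcodd i hi, mul_one]
  · rw [if_neg hi, hcsum]
    refine Finset.sum_eq_zero (fun l _ => ?_)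
    rw [← hinter, hno i (Nat.not_odd_iff_even.1 hi) l, Set.ncard_empty]

end FD

end Pool.Agent.CDC
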