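import Pool.Agent.CDC.TriPart
import Pool.Agent.CDC.F4

/-!
# The number of three-partitions modulo four, and closed solutions
-/

set_option autoImplicit false

namespace Pool.Agent.CDC

open Finset

/-- the sign -/
def chi (x : ZMod 2) : ZMod 4 := if x = 0 then 1 else -1

theorem chi_add_one (x : ZMod 2) : chi (x + 1) = - chi x := by revert x; decide

theorem chi_two (x : ZMod 2) : chi x + chi x ≠ 0 := by revert x; decide

section

variable {ι : Type} [Fintype ι] [LinearOrder ι]

/-- the number of edges modulo two -/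
def edg (A : ι → ι → ZMod 2) : ZMod 2 := ∑ i, ∑ j, if i < j then A i j else 0

theorem edg_tog (A : ι → ι → ZMod 2) {a b : ι} (hab : a < b) : edg (tog A a b) = edg A + 1 := by
  unfold edg tog
  have h1 : ∀ i j, (if i < j then (A i j + (if (i = a ∧ j = b) ∨ (i = b ∧ j = a) then 1 else 0))
      else (0 : ZMod 2)) = (if i < j then A i j else 0) + (if i = a then (if j = b then 1 else 0)
      else 0) := by
    intro i j
    by_cases hij : i < j
    · rw [if_pos hij, if_pos hij]
      congr 1
      by_cases hi : i = a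
      · by_cases hj : j = b
        · rw [if_pos (Or.inl ⟨hi, hj⟩), if_pos hi, if_pos hj]
        · rw [if_neg, if_pos hi, if_neg hj]
          rintro (⟨-, h⟩ | ⟨h, -⟩)
          · exact hj h
          · rw [hi] at h; exact absurd h hab.ne
      · rw [if_neg hi, if_neg]
        rintro (⟨h, -⟩ | ⟨h, h'⟩)
        · exact hi h
        · rw [h, h'] at hij; exact absurd hij (not_lt.2 hab.le)
    · rw [if_neg hij, if_neg hij, zero_add]
      by_cases hi : i = a
      · by_cases hj : j = b
        · rw [hi, hj] at hij; exact absurd hab hij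
        · rw [if_pos hi, if_neg hj]
      · rw [if_neg hi]
  simp only [h1, Finset.sum_add_distrib]
  congr 1
  simp

theorem tog_symm (A : ι → ι → ZMod 2) (hA : ∀ i j, A i j = A j i) (a b : ι) :
    ∀ i j, tog A a b i j = tog A a b j i := by
  intro i j
  unfold tog
  rw [hA i j]
  congr 1
  have : ((i = a ∧ j = b) ∨ (i = b ∧ j = a)) ↔ ((j = a ∧ i = b) ∨ (j = b ∧ i = a)) := by tauto
  simp only [this]

/-- the number of three-partitions modulo four -/
theorem card_Sol (n : ℕ) : ∀ A : ι → ι → ZMod 2, (∀ i j, A i j = A j i) →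
    (univ.filter (fun p : ι × ι => p.1 < p.2 ∧ A p.1 p.2 ≠ 0)).card = n →
    ((Sol A).card : ZMod 4) = (-1) ^ Fintype.card ι * chi (edg A) := by
  induction n with
  | zero =>
    intro A hA h0
    rw [Finset.card_eq_zero] at h0
    have h1 : ∀ i j, i < j → A i j = 0 := by
      intro i j hij
      by_contra hne
      have : (i, j) ∈ univ.filter (fun p : ι × ι => p.1 < p.2 ∧ A p.1 p.2 ≠ 0) := by
        simp [hij, hne]
      rw [h0] at this
      exact absurd this (Finset.notMem_empty _)
    have h2 : ∀ i j, i ≠ j → A i j = 0 := by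
      intro i j hij
      rcases lt_or_gt_of_ne hij with h | h
      · exact h1 i j h
      · rw [hA]; exact h1 j i h
    have h3 : Sol A = univ := by
      ext y
      rw [mem_Sol]
      simp only [mem_univ, iff_true]
      intro i
      unfold Cond
      refine Finset.sum_eq_zero (fun j _ => ?_)
      by_cases hij : i = j
      · rw [hij]; simp
      · rw [h2 i j hij, zero_mul]
    have h4 : edg A = 0 := by
      unfold edg
      refine Finset.sum_eq_zero (fun i _ => Finset.sum_eq_zero (fun j _ => ?_))
      split_ifs with h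
      · exact h1 i j h
      · rfl
    rw [h3, h4, Finset.card_univ, Fintype.card_fun, ZMod.card]
    have h5 : (3 : ZMod 4) = -1 := by decide
    push_cast
    rw [h5]
    simp [chi]
  | succ n ih =>
    intro A hA hn
    obtain ⟨⟨a, b⟩, hab⟩ : (univ.filter (fun p : ι × ι => p.1 < p.2 ∧ A p.1 p.2 ≠ 0)).Nonempty := by
      rw [← Finset.card_pos, hn]; omega
    have hab' := hab
    rw [mem_filter] at hab
    obtain ⟨-, hlt, hne⟩ := hab
    simp only at hlt hne
    have hAab : A a b = 1 := by
      generalize A a b = x at hne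
      revert x
      decide
    have h1 : (univ.filter (fun p : ι × ι => p.1 < p.2 ∧ tog A a b p.1 p.2 ≠ 0)) =
        (univ.filter (fun p : ι × ι => p.1 < p.2 ∧ A p.1 p.2 ≠ 0)).erase (a, b) := by
      ext ⟨i, j⟩
      simp only [mem_filter, mem_univ, true_and, mem_erase, ne_eq, Prod.mk.injEq]
      unfold tog
      by_cases h : i = a ∧ j = b
      · obtain ⟨rfl, rfl⟩ := h
        simp only [hAab, and_self, true_or, if_true, not_true, false_and, iff_false, not_and,
          not_not]
        intro _
        decide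
      · constructor
        · rintro ⟨h2, h3⟩
          refine ⟨h, h2, fun h4 => h3 ?_⟩
          rw [h4, if_neg]
          · simp
          · rintro (h5 | ⟨h5, h6⟩)
            · exact h h5
            · rw [h5, h6] at h2; exact absurd h2 (not_lt.2 hlt.le)
        · rintro ⟨-, h2, h3⟩
          refine ⟨h2, fun h4 => h3 ?_⟩
          rw [if_neg, add_zero] at h4
          · exact h4
          · rintro (h5 | ⟨h5, h6⟩)
            · exact h h5
            · rw [h5, h6] at h2; exact absurd h2 (not_lt.2 hlt.le)
    have h2 := ih (tog A a b) (tog_symm A hA a b) (by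
      rw [h1, Finset.card_erase_of_mem hab', hn]; rfl)
    have h3 : ((Sol A).card : ZMod 4) + ((Sol (tog A a b)).card : ZMod 4) = 0 := by
      have := four_dvd_tog A hA hlt.ne
      rw [← Nat.cast_add]
      exact (ZMod.natCast_eq_zero_iff _ 4).2 this
    rw [h2, edg_tog A hlt, chi_add_one] at h3
    linear_combination h3

theorem sum_sum_symm (f : ι → ι → ℕ) (hf : ∀ i j, f i j = f j i) :
    ∑ i, ∑ j, f i j = ∑ i, f i i + 2 * ∑ i, ∑ j, if i < j then f i j else 0 := by
  have h1 : ∀ i j, f i j = (if i = j then f i i else 0) + ((if i < j then f i j else 0) +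
      (if j < i then f j i else 0)) := by
    intro i j
    rcases lt_trichotomy i j with h | h | h
    · rw [if_neg h.ne, if_pos h, if_neg (not_lt.2 h.le)]; simp
    · subst h; simp
    · rw [if_neg h.ne', if_neg (not_lt.2 h.le), if_pos h, hf]; simp
  have h2 : ∑ i, ∑ j, f i j = ∑ i, ∑ j, ((if i = j then f i i else 0) +
      ((if i < j then f i j else 0) + (if j < i then f j i else 0))) :=
    Finset.sum_congr rfl (fun i _ => Finset.sum_congr rfl (fun j _ => h1 i j))
  rw [h2]
  simp only [Finset.sum_add_distrib]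
  rw [Finset.sum_comm (f := fun i j => if j < i then f j i else 0)]
  simp
  ring

end

theorem om_th_th (a b : ZMod 3) : om (th a) (th b) = ne3 a b := by revert a b; decide

theorem om_th_zero (a : ZMod 3) (w : F4) : om (th a) w = 0 ↔ w = 0 ∨ w = th a := by
  revert a w; decide

theorem exists_th (w : F4) (h : w ≠ 0) : ∃ a, th a = w := by
  revert w; decide

theorem th_inj {a b : ZMod 3} (h : th a = th b) : a = b := by
  revert a b; decide

section

variable {n : ℕ}

/-- total direction of the spokes -/
def tot (Z : Fin n → ZMod 2) (y : Fin n → ZMod 3) : F4 := ∑ i, if Z i = 0 then 0 else th (y i)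

theorem om_tot (Z : Fin n → ZMod 2) (y : Fin n → ZMod 3) (a : ZMod 3) :
    om (th a) (tot Z y) = ∑ j, Z j * ne3 a (y j) := by
  unfold tot
  rw [om_sum_right]
  refine Finset.sum_congr rfl (fun j _ => ?_)
  have h : ∀ z : ZMod 2, z = 0 ∨ z = 1 := by decide
  rcases h (Z j) with h | h
  · rw [h]; simp
  · rw [h, if_neg (by decide), om_th_th, one_mul]

/-- closed solutions -/
def Closed (β : Fin n → Fin n → ZMod 2) (Z : Fin n → ZMod 2) (y : Fin n → ZMod 3) (s : F4) : Prop :=
  tot Z y = 0 ∧ ∀ i, Cond β y i + Z i * om (th (y i)) s = 0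

/-- the graph with a new vertex joined to `Z` -/
def ext (β : Fin n → Fin n → ZMod 2) (Z : Fin n → ZMod 2) : Fin (n + 1) → Fin (n + 1) → ZMod 2 :=
  fun i j => Fin.cases (Fin.cases 0 Z j) (fun i' => Fin.cases (Z i') (β i') j) i

/-- the graph complemented inside `Z` -/
def lc (β : Fin n → Fin n → ZMod 2) (Z : Fin n → ZMod 2) : Fin n → Fin n → ZMod 2 :=
  fun i j => β i j + Z i * Z j

theorem Cond_ext_zero (β : Fin n → Fin n → ZMod 2) (Z : Fin n → ZMod 2) (x : ZMod 3)
    (y : Fin n → ZMod 3) : Cond (ext β Z) (Fin.cons x y) 0 = om (th x) (tot Z y) := by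
  unfold Cond
  rw [Fin.sum_univ_succ, om_tot]
  simp [ext]

theorem Cond_ext_succ (β : Fin n → Fin n → ZMod 2) (Z : Fin n → ZMod 2) (x : ZMod 3)
    (y : Fin n → ZMod 3) (i : Fin n) : Cond (ext β Z) (Fin.cons x y) i.succ =
    Cond β y i + Z i * ne3 (y i) x := by
  unfold Cond
  rw [Fin.sum_univ_succ]
  simp only [ext, Fin.cases_succ, Fin.cases_zero, Fin.cons_succ, Fin.cons_zero]
  rw [add_comm]

theorem Cond_lc (β : Fin n → Fin n → ZMod 2) (Z : Fin n → ZMod 2) (y : Fin n → ZMod 3)
    (i : Fin n) : Cond (lc β Z) y i = Cond β y i + Z i * om (th (y i)) (tot Z y) := by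
  unfold Cond lc
  rw [om_tot, Finset.mul_sum, ← Finset.sum_add_distrib]
  exact Finset.sum_congr rfl (fun j _ => by ring)

theorem card_eq_of_no_closed (β : Fin n → Fin n → ZMod 2) (Z : Fin n → ZMod 2)
    (h : ∀ y s, ¬ Closed β Z y s) : (Sol (ext β Z)).card = (Sol (lc β Z)).card := by
  have hmem : ∀ (x : ZMod 3) (y : Fin n → ZMod 3), (Fin.cons x y : Fin (n + 1) → ZMod 3) ∈
      Sol (ext β Z) → tot Z y = th x ∧ y ∈ Sol (lc β Z) := by
    intro x y hy
    rw [mem_Sol] at hy
    have h0 := hy 0
    rw [Cond_ext_zero, om_th_zero] at h0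
    have hs := fun i : Fin n => hy i.succ
    simp only [Cond_ext_succ] at hs
    rcases h0 with h0 | h0
    · exact absurd ⟨h0, fun i => by rw [om_th_th]; exact hs i⟩ (h y (th x))
    · refine ⟨h0, mem_Sol.2 (fun i => ?_)⟩
      rw [Cond_lc, h0, om_th_th]
      exact hs i
  refine Finset.card_bij (fun y _ => Fin.tail y) ?_ ?_ ?_
  · intro y hy
    rw [← Fin.cons_self_tail y] at hy
    exact (hmem _ _ hy).2
  · intro y hy y' hy' he
    rw [← Fin.cons_self_tail y] at hy ⊢
    rw [← Fin.cons_self_tail y'] at hy' ⊢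
    have h1 := (hmem _ _ hy).1
    have h2 := (hmem _ _ hy').1
    rw [he, h2] at h1
    rw [he, th_inj h1]
  · intro y hy
    rw [mem_Sol] at hy
    have h1 : tot Z y ≠ 0 := by
      intro h0
      refine h y 0 ⟨h0, fun i => ?_⟩
      have := hy i
      rw [Cond_lc, h0] at this
      exact this
    obtain ⟨x, hx⟩ := exists_th _ h1
    refine ⟨Fin.cons x y, ?_, by simp⟩
    rw [mem_Sol]
    intro i
    refine Fin.cases ?_ (fun i => ?_) i
    · rw [Cond_ext_zero, ← hx, om_th_th, ne3_self]
    · rw [Cond_ext_succ]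
      have := hy i
      rw [Cond_lc, ← hx, om_th_th] at this
      exact this

theorem edg_ext (β : Fin n → Fin n → ZMod 2) (Z : Fin n → ZMod 2) :
    edg (ext β Z) = ∑ i, Z i + edg β := by
  unfold edg
  rw [Fin.sum_univ_succ]
  congr 1
  · rw [Fin.sum_univ_succ]
    simp [ext]
  · refine Finset.sum_congr rfl (fun i _ => ?_)
    rw [Fin.sum_univ_succ]
    simp [ext]

theorem edg_lc (β : Fin n → Fin n → ZMod 2) (Z : Fin n → ZMod 2) :
    edg (lc β Z) = edg β + edg (fun i j => Z i * Z j) := by
  unfold edg lc
  rw [← Finset.sum_add_distrib]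
  refine Finset.sum_congr rfl (fun i _ => ?_)
  rw [← Finset.sum_add_distrib]
  refine Finset.sum_congr rfl (fun j _ => ?_)
  split_ifs
  · rfl
  · simp

theorem sum_Z (Z : Fin n → ZMod 2) :
    ∑ i, (if Z i = 0 then 0 else 1 : ℕ) = (univ.filter (fun i => Z i ≠ 0)).card := by
  rw [Finset.card_filter]
  exact Finset.sum_congr rfl (fun i _ => by split_ifs <;> tauto)

theorem cast_Z (z : ZMod 2) : (((if z = 0 then 0 else 1 : ℕ)) : ZMod 2) = z := by
  revert z; decide

/-- existence of closed solutions if the number of spokes is not `1` modulo `4` -/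
theorem exists_closed (β : Fin n → Fin n → ZMod 2) (hβ : ∀ i j, β i j = β j i)
    (Z : Fin n → ZMod 2) (hk : (univ.filter (fun i => Z i ≠ 0)).card % 4 ≠ 1) :
    ∃ y s, Closed β Z y s := by
  set k := (univ.filter (fun i => Z i ≠ 0)).card with hkdef
  have hsum : ((k : ℕ) : ZMod 2) = ∑ i, Z i := by
    rw [hkdef, ← sum_Z]
    push_cast
    refine Finset.sum_congr rfl (fun i _ => ?_)
    have := cast_Z (Z i)
    push_cast at this
    exact this
  by_cases heven : k % 2 = 0
  · refine ⟨fun _ => 0, 0, ?_, fun i => ?_⟩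
    · unfold tot
      have h1 : ∑ i, (if Z i = 0 then 0 else th 0) = k • th 0 := by
        rw [hkdef, ← Finset.sum_const, Finset.sum_filter]
        exact Finset.sum_congr rfl (fun i _ => by split_ifs <;> tauto)
      rw [h1]
      obtain ⟨m, hm⟩ : ∃ m, k = 2 * m := ⟨k / 2, by omega⟩
      rw [hm, mul_smul, two_smul]
      exact f4_add_self _
    · simp [Cond]
  · have hk3 : k % 4 = 3 := by omega
    by_contra hcon
    push Not at hcon
    have h1 := card_eq_of_no_closed β Z hcon
    have hsym1 : ∀ i j, ext β Z i j = ext β Z j i := by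
      intro i j
      refine Fin.cases ?_ (fun i => ?_) i
      · refine Fin.cases ?_ (fun j => ?_) j
        · rfl
        · simp [ext]
      · refine Fin.cases ?_ (fun j => ?_) j
        · simp [ext]
        · simp [ext, hβ i j]
    have hsym2 : ∀ i j, lc β Z i j = lc β Z j i := by
      intro i j
      unfold lc
      rw [hβ i j, mul_comm (Z i)]
    have h2 := card_Sol _ (ext β Z) hsym1 rfl
    have h3 := card_Sol _ (lc β Z) hsym2 rfl
    have hZ1 : ∑ i, Z i = 1 := by
      rw [← hsum]
      have : k = 2 * (k / 2) + 1 := by omega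
      rw [this]
      push_cast
      have h2 : (2 : ZMod 2) = 0 := by decide
      rw [h2]
      simp
    have hZ2 : edg (fun i j => Z i * Z j) = 1 := by
      set z : Fin n → ℕ := fun i => if Z i = 0 then 0 else 1 with hz
      have g1 := sum_sum_symm (fun i j => z i * z j) (fun i j => mul_comm _ _)
      have g2 : ∑ i, ∑ j, z i * z j = k * k := by
        simp only [← Finset.mul_sum, ← Finset.sum_mul]
        rw [hz, sum_Z]
      have g3 : ∑ i, z i * z i = k := by
        rw [hkdef, ← sum_Z]
        refine Finset.sum_congr rfl (fun i _ => ?_)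
        simp only [hz]
        split_ifs <;> rfl
      have g4 : ((∑ i, ∑ j, if i < j then z i * z j else 0 : ℕ) : ZMod 2) =
          edg (fun i j => Z i * Z j) := by
        unfold edg
        push_cast
        refine Finset.sum_congr rfl (fun i _ => Finset.sum_congr rfl (fun j _ => ?_))
        split_ifs with hij
        · simp only [hz]
          rw [cast_Z, cast_Z]
        · rfl
      rw [g2, g3] at g1
      rw [← g4]
      generalize (∑ i, ∑ j, if i < j then z i * z j else 0 : ℕ) = S at g1
      obtain ⟨q, hq⟩ : ∃ q, k = 4 * q + 3 := ⟨k / 4, by omega⟩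
      rw [hq] at g1
      have g5 : S = 2 * (4 * q * q + 5 * q + 1) + 1 := by nlinarith
      rw [g5]
      push_cast
      have h2 : (2 : ZMod 2) = 0 := by decide
      rw [h2]
      simp
    have hc1 : (1 : ZMod 2) + edg β = edg β + 1 := add_comm _ _
    rw [edg_ext, hZ1, hc1, chi_add_one, Fintype.card_fin] at h2
    rw [edg_lc, hZ2, chi_add_one, Fintype.card_fin] at h3
    rw [h1, h3, pow_succ] at h2
    have h4 : ((-1 : ZMod 4) ^ n) * ((-1 : ZMod 4) ^ n) = 1 := by
      rw [← mul_pow]; simp
    have h5 : chi (edg β) + chi (edg β) = 0 := by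
      linear_combination (-1 : ZMod 4) * (-1) ^ n * h2 + (-(chi (edg β) + chi (edg β))) * h4
    exact chi_two _ h5

end

end Pool.Agent.CDC
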