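import Pool.Agent.CDC.Parity

/-!
# Partitions into three classes, modulo four

`A` a symmetric matrix over `ZMod 2` (a graph). `Sol A` is the set of maps `y : ι → ZMod 3` such
that every `i` has an even number of neighbours `j` with `y j ≠ y i`. We show
`(Sol A).card ≡ (-1) ^ (vertices + edges)` modulo `4`.
-/

set_option autoImplicit false

namespace Pool.Agent.CDC

open Finset

/-- indicator of `x ≠ y` -/
def ne3 (x y : ZMod 3) : ZMod 2 := if x = y then 0 else 1

@[simp] theorem ne3_self (x : ZMod 3) : ne3 x x = 0 := by simp [ne3]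

theorem ne3_comm (x y : ZMod 3) : ne3 x y = ne3 y x := by
  simp only [ne3, eq_comm]

theorem ne3_neg (x y : ZMod 3) : ne3 (-x) (-y) = ne3 x y := by
  simp only [ne3, neg_inj]

theorem ne3_of_ne {x y : ZMod 3} (h : x ≠ y) : ne3 x y = 1 := by simp [ne3, h]

theorem ne3_sum (y : ZMod 3) : ∑ x : ZMod 3, ne3 x y = 0 := by revert y; decide

theorem ne3_sum' (y : ZMod 3) : ∑ x : ZMod 3, ne3 (x + 1) y = 0 := by revert y; decide

theorem ne3_sum'' (y : ZMod 3) : ∑ x : ZMod 3, ne3 x (y + 1) = 0 := by revert y; decide

variable {ι : Type} [Fintype ι] [DecidableEq ι]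

/-- parity of the number of neighbours in other classes -/
def Cond (A : ι → ι → ZMod 2) (y : ι → ZMod 3) (i : ι) : ZMod 2 := ∑ j, A i j * ne3 (y i) (y j)

/-- the solutions -/
def Sol (A : ι → ι → ZMod 2) : Finset (ι → ZMod 3) := univ.filter (fun y => ∀ i, Cond A y i = 0)

theorem mem_Sol {A : ι → ι → ZMod 2} {y : ι → ZMod 3} : y ∈ Sol A ↔ ∀ i, Cond A y i = 0 := by
  simp [Sol]

/-- the matrix with the entry `a b` changed -/
def tog (A : ι → ι → ZMod 2) (a b : ι) : ι → ι → ZMod 2 :=
  fun i j => A i j + (if (i = a ∧ j = b) ∨ (i = b ∧ j = a) then 1 else 0)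

theorem Cond_tog (A : ι → ι → ZMod 2) {a b : ι} (hab : a ≠ b) (y : ι → ZMod 3) (i : ι) :
    Cond (tog A a b) y i = Cond A y i + (if i = a ∨ i = b then ne3 (y a) (y b) else 0) := by
  unfold Cond tog
  have h1 : ∀ j, (A i j + (if (i = a ∧ j = b) ∨ (i = b ∧ j = a) then 1 else 0)) *
      ne3 (y i) (y j) = A i j * ne3 (y i) (y j) +
      (if (i = a ∧ j = b) ∨ (i = b ∧ j = a) then ne3 (y i) (y j) else 0) := by
    intro j
    split_ifs
    · ring
    · ring
  rw [Finset.sum_congr rfl (fun j _ => h1 j), Finset.sum_add_distrib]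
  congr 1
  by_cases hia : i = a
  · subst hia
    rw [if_pos (Or.inl rfl), Finset.sum_eq_single b]
    · simp
    · intro j _ hj
      rw [if_neg]
      rintro (⟨-, h⟩ | ⟨h, -⟩)
      · exact hj h
      · exact hab h
    · intro h; exact absurd (mem_univ _) h
  · by_cases hib : i = b
    · subst hib
      rw [if_pos (Or.inr rfl), Finset.sum_eq_single a]
      · rw [if_pos (Or.inr ⟨rfl, rfl⟩), ne3_comm]
      · intro j _ hj
        rw [if_neg]
        rintro (⟨h, -⟩ | ⟨-, h⟩)
        · exact hia h
        · exact hj h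
      · intro h; exact absurd (mem_univ _) h
    · rw [if_neg (by tauto), Finset.sum_eq_zero]
      intro j _
      rw [if_neg (by tauto)]

theorem Cond_neg (A : ι → ι → ZMod 2) (y : ι → ZMod 3) (i : ι) :
    Cond A (fun j => -y j) i = Cond A y i := by
  unfold Cond
  exact Finset.sum_congr rfl (fun j _ => by rw [ne3_neg])

/-- a set of maps closed under negation which contains `0` has odd size -/
theorem card_odd_of_neg (S : Finset (ι → ZMod 3)) (h0 : (fun _ => 0) ∈ S)
    (hS : ∀ y ∈ S, (fun j => -y j) ∈ S) : (S.card : ZMod 2) = 1 := by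
  have h1 : ∑ y ∈ S.erase (fun _ => 0), (1 : ZMod 2) = 0 := by
    refine Finset.sum_involution (fun y _ => fun j => -y j) ?_ ?_ ?_ ?_
    · intro y _; decide
    · intro y hy _ h
      apply Finset.ne_of_mem_erase hy
      funext j
      have := congrFun h j
      revert this
      generalize y j = x
      revert x
      decide
    · intro y hy
      rw [mem_erase] at hy ⊢
      refine ⟨fun h => hy.1 ?_, hS y hy.2⟩
      funext j
      have := congrFun h j
      exact neg_eq_zero.1 this
    · intro y _
      funext j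
      simp
  have h2 : (S.card : ZMod 2) = ∑ y ∈ S, (1 : ZMod 2) := by simp
  rw [h2, ← Finset.add_sum_erase S _ h0, h1, add_zero]

/-- the number of solutions with `y b = y a + 1` and a merged condition at `a` and `b` is odd -/
theorem merged_odd (A : ι → ι → ZMod 2) (hA : ∀ i j, A i j = A j i) {a b : ι} (hab : a ≠ b) :
    ((univ.filter (fun y : ι → ZMod 3 => y b = y a + 1 ∧
      (∀ i, i ≠ a → i ≠ b → Cond A y i = 0) ∧ Cond A y a + Cond A y b = 0)).card : ZMod 2) = 1 := by
  set B : ι → ι → ZMod 3 → ZMod 3 → ZMod 2 := fun i j x y =>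
    if i = a then A a j * ne3 x y + A b j * ne3 (x + 1) y else
    if j = a then A i a * ne3 x y + A i b * ne3 x (y + 1) else A i j * ne3 x y with hBdef
  have hB : ∀ i j x y, i ≠ j → B i j x y = B j i y x := by
    intro i j x y hij
    simp only [hBdef]
    by_cases hi : i = a
    · subst hi
      rw [if_pos rfl, if_neg (Ne.symm hij), if_pos rfl, hA j i, hA j b, ne3_comm x y,
        ne3_comm (x + 1) y]
    · rw [if_neg hi]
      by_cases hj : j = a
      · subst hj
        rw [if_pos rfl, if_pos rfl, hA i j, hA i b, ne3_comm x y, ne3_comm x (y + 1)]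
      · rw [if_neg hj, if_neg hj, if_neg hi, hA i j, ne3_comm x y]
  have hB0 : ∀ i j y, i ≠ j → ∑ x, B i j x y = 0 := by
    intro i j y hij
    simp only [hBdef]
    by_cases hi : i = a
    · simp only [if_pos hi]
      rw [Finset.sum_add_distrib, ← Finset.mul_sum, ← Finset.mul_sum, ne3_sum, ne3_sum']
      simp
    · simp only [if_neg hi]
      by_cases hj : j = a
      · simp only [if_pos hj]
        rw [Finset.sum_add_distrib, ← Finset.mul_sum, ← Finset.mul_sum, ne3_sum, ne3_sum'']
        simp
      · simp only [if_neg hj]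
        rw [← Finset.mul_sum, ne3_sum]
        simp
  have hcnt := cnt_eq_one (X := ZMod 3) (by decide) B hB hB0 _ (univ.erase b) rfl (fun _ _ => 0)
    (fun _ => by simp)
  -- the terms
  have hzero : ∀ y : ι → ZMod 3, ∀ i, Cond A y i = ∑ j ∈ univ.erase i, A i j * ne3 (y i) (y j) := by
    intro y i
    unfold Cond
    rw [← Finset.add_sum_erase univ _ (mem_univ i), ne3_self, mul_zero, zero_add]
  have hsplit : ∀ (s : Finset ι) (f : ι → ZMod 2) (j : ι), j ∈ s →
      ∑ i ∈ s, f i = f j + ∑ i ∈ s.erase j, f i := fun s f j hj =>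
    (Finset.add_sum_erase s f hj).symm
  have key : ∀ y : ι → ZMod 3, y b = y a + 1 →
      ((∀ i ∈ univ.erase b, tm B (fun _ _ => 0) (univ.erase b) y i = 1) ↔
      ((∀ i, i ≠ a → i ≠ b → Cond A y i = 0) ∧ Cond A y a + Cond A y b = 0)) := by
    intro y hy
    have k1 : ∀ i, i ≠ a → i ≠ b →
        ∑ j ∈ (univ.erase b).erase i, B i j (y i) (y j) = Cond A y i := by
      intro i hia hib
      rw [hzero, hsplit (univ.erase i) _ b (mem_erase.2 ⟨Ne.symm hib, mem_univ _⟩),
        hsplit ((univ.erase b).erase i) _ a
          (mem_erase.2 ⟨Ne.symm hia, mem_erase.2 ⟨hab, mem_univ _⟩⟩),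
        hsplit ((univ.erase i).erase b) _ a
          (mem_erase.2 ⟨hab, mem_erase.2 ⟨Ne.symm hia, mem_univ _⟩⟩)]
      have h1 : B i a (y i) (y a) = A i a * ne3 (y i) (y a) + A i b * ne3 (y i) (y b) := by
        simp only [hBdef]
        rw [if_neg hia, if_pos trivial, hy]
      have h2 : ∑ j ∈ ((univ.erase b).erase i).erase a, B i j (y i) (y j) =
          ∑ j ∈ ((univ.erase i).erase b).erase a, A i j * ne3 (y i) (y j) := by
        rw [Finset.erase_right_comm (s := univ)]
        refine Finset.sum_congr rfl (fun j hj => ?_)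
        simp only [hBdef]
        rw [if_neg hia, if_neg (ne_of_mem_erase hj)]
      rw [h1, h2]
      ring
    have k2 : ∑ j ∈ (univ.erase b).erase a, B a j (y a) (y j) = Cond A y a + Cond A y b := by
      rw [hzero y a, hzero y b, hsplit (univ.erase a) _ b (mem_erase.2 ⟨Ne.symm hab, mem_univ _⟩),
        hsplit (univ.erase b) _ a (mem_erase.2 ⟨hab, mem_univ _⟩)]
      have h1 : ∑ j ∈ (univ.erase b).erase a, B a j (y a) (y j) =
          ∑ j ∈ (univ.erase a).erase b, A a j * ne3 (y a) (y j) +
          ∑ j ∈ (univ.erase b).erase a, A b j * ne3 (y b) (y j) := by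
        rw [Finset.erase_right_comm (s := univ) (a := a) (b := b), ← Finset.sum_add_distrib]
        refine Finset.sum_congr rfl (fun j hj => ?_)
        simp only [hBdef]
        rw [if_pos trivial, hy]
      have h2 : A b a * ne3 (y b) (y a) = A a b * ne3 (y a) (y b) := by
        rw [hA b a, ne3_comm]
      rw [h1, h2]
      have h3 := CharTwo.add_self_eq_zero (A a b * ne3 (y a) (y b))
      linear_combination (-1 : ZMod 2) * h3
    constructor
    · intro h
      refine ⟨fun i hia hib => ?_, ?_⟩
      · have h1 := h i (mem_erase.2 ⟨hib, mem_univ _⟩)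
        unfold tm at h1
        rw [k1 i hia hib] at h1
        simpa using h1
      · have h1 := h a (mem_erase.2 ⟨hab, mem_univ _⟩)
        unfold tm at h1
        rw [k2] at h1
        simpa using h1
    · rintro ⟨h1, h2⟩ i hi
      unfold tm
      by_cases hia : i = a
      · subst hia
        rw [k2, h2]; simp
      · rw [k1 i hia (ne_of_mem_erase hi), h1 i hia (ne_of_mem_erase hi)]; simp
  have hprod : ∀ y : ι → ZMod 3, y b = y a + 1 →
      ∏ i ∈ univ.erase b, tm B (fun _ _ => 0) (univ.erase b) y i =
      if ((∀ i, i ≠ a → i ≠ b → Cond A y i = 0) ∧ Cond A y a + Cond A y b = 0) then 1 else 0 := by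
    intro y hy
    by_cases h : ∀ i ∈ univ.erase b, tm B (fun _ _ => 0) (univ.erase b) y i = 1
    · rw [if_pos ((key y hy).1 h), Finset.prod_congr rfl h]
      simp
    · rw [if_neg (fun h' => h ((key y hy).2 h'))]
      push Not at h
      obtain ⟨i, hi, hi1⟩ := h
      have hi0 : tm B (fun _ _ => 0) (univ.erase b) y i = 0 := by
        generalize tm B (fun _ _ => 0) (univ.erase b) y i = t at hi1 ⊢
        revert t
        decide
      exact Finset.prod_eq_zero hi hi0
  -- independence of `y b`
  have hindep : ∀ (y : ι → ZMod 3) (x : ZMod 3),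
      ∏ i ∈ univ.erase b, tm B (fun _ _ => 0) (univ.erase b) (Function.update y b x) i =
      ∏ i ∈ univ.erase b, tm B (fun _ _ => 0) (univ.erase b) y i := by
    intro y x
    refine Finset.prod_congr rfl (fun i hi => ?_)
    unfold tm
    rw [Function.update_of_ne (ne_of_mem_erase hi)]
    congr 2
    refine Finset.sum_congr rfl (fun j hj => ?_)
    rw [Function.update_of_ne (ne_of_mem_erase (mem_of_mem_erase hj))]
  have hrest : ∑ y ∈ univ.filter (fun y : ι → ZMod 3 => ¬ y b = y a + 1),
      ∏ i ∈ univ.erase b, tm B (fun _ _ => 0) (univ.erase b) y i = 0 := by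
    have hd : ∀ u v : ZMod 3, ¬ v = u + 1 → ¬ 2 * u + 2 - v = u + 1 ∧ 2 * u + 2 - v ≠ v ∧
        2 * u + 2 - (2 * u + 2 - v) = v := by decide
    refine Finset.sum_involution (fun y _ => Function.update y b (2 * y a + 2 - y b)) ?_ ?_ ?_ ?_
    · intro y _
      rw [hindep]
      exact CharTwo.add_self_eq_zero _
    · intro y hy _ h
      rw [mem_filter] at hy
      have := congrFun h b
      rw [Function.update_self] at this
      exact (hd _ _ hy.2).2.1 this
    · intro y hy
      rw [mem_filter] at hy ⊢
      refine ⟨mem_univ _, ?_⟩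
      rw [Function.update_self, Function.update_of_ne hab]
      exact (hd _ _ hy.2).1
    · intro y hy
      rw [mem_filter] at hy
      rw [Function.update_idem, Function.update_self, Function.update_of_ne hab,
        (hd _ _ hy.2).2.2, Function.update_eq_self]
  unfold cnt at hcnt
  rw [← Finset.sum_filter_add_sum_filter_not univ (fun y : ι → ZMod 3 => y b = y a + 1), hrest,
    add_zero, Finset.sum_congr rfl (fun y hy => hprod y (mem_filter.1 hy).2),
    Finset.sum_boole, Finset.filter_filter] at hcnt
  exact hcnt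

/-- changing one entry changes the sign modulo four -/
theorem four_dvd_tog (A : ι → ι → ZMod 2) (hA : ∀ i j, A i j = A j i) {a b : ι} (hab : a ≠ b) :
    4 ∣ (Sol A).card + (Sol (tog A a b)).card := by
  classical
  set C := (univ.filter (fun y : ι → ZMod 3 => y a = y b ∧ ∀ i, Cond A y i = 0)) with hC
  set P : (ι → ZMod 3) → Prop := fun y => ∀ i, i ≠ a → i ≠ b → Cond A y i = 0 with hP
  set T1 := (univ.filter (fun y : ι → ZMod 3 => y b = y a + 1 ∧ P y ∧
    Cond A y a + Cond A y b = 0)) with hT1
  set T2 := (univ.filter (fun y : ι → ZMod 3 => y b = y a + 2 ∧ P y ∧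
    Cond A y a + Cond A y b = 0)) with hT2
  have hCodd : (C.card : ZMod 2) = 1 := by
    refine card_odd_of_neg C ?_ ?_
    · simp [hC, Cond]
    · intro y hy
      rw [hC, mem_filter] at hy ⊢
      refine ⟨mem_univ _, congrArg Neg.neg hy.2.1, fun i => ?_⟩
      rw [Cond_neg, hy.2.2 i]
  have hT12 : T2.card = T1.card := by
    refine Finset.card_nbij' (fun y j => -y j) (fun y j => -y j) ?_ ?_ ?_ ?_
    · intro y hy
      simp only [hT1, hT2, coe_filter, Set.mem_ofPred_eq, mem_univ, true_and] at hy ⊢
      obtain ⟨h1, h2, h3⟩ := hy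
      refine ⟨?_, fun i hi hi' => by rw [Cond_neg]; exact h2 i hi hi', by
        rw [Cond_neg, Cond_neg, h3]⟩
      rw [h1]
      generalize y a = x
      revert x; decide
    · intro y hy
      simp only [hT1, hT2, coe_filter, Set.mem_ofPred_eq, mem_univ, true_and] at hy ⊢
      obtain ⟨h1, h2, h3⟩ := hy
      refine ⟨?_, fun i hi hi' => by rw [Cond_neg]; exact h2 i hi hi', by
        rw [Cond_neg, Cond_neg, h3]⟩
      rw [h1]
      generalize y a = x
      revert x; decide
    · intro y _; funext j; simp
    · intro y _; funext j; simp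
  -- counting
  have e1 : (Sol A).card = C.card + (univ.filter (fun y : ι → ZMod 3 => y a ≠ y b ∧
      P y ∧ Cond A y a = 0 ∧ Cond A y b = 0)).card := by
    rw [← Finset.card_filter_add_card_filter_not (s := Sol A) (fun y => y a = y b)]
    congr 1
    · congr 1
      ext y
      simp only [mem_filter, mem_Sol, hC, mem_univ, true_and]
      tauto
    · congr 1
      ext y
      simp only [mem_filter, mem_Sol, mem_univ, true_and, hP]
      constructor
      · rintro ⟨h1, h2⟩
        exact ⟨h2, fun i _ _ => h1 i, h1 a, h1 b⟩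
      · rintro ⟨h1, h2, h3, h4⟩
        refine ⟨fun i => ?_, h1⟩
        by_cases hia : i = a
        · rw [hia]; exact h3
        · by_cases hib : i = b
          · rw [hib]; exact h4
          · exact h2 i hia hib
  have e2 : (Sol (tog A a b)).card = C.card + (univ.filter (fun y : ι → ZMod 3 => y a ≠ y b ∧
      P y ∧ Cond A y a = 1 ∧ Cond A y b = 1)).card := by
    rw [← Finset.card_filter_add_card_filter_not (s := Sol (tog A a b)) (fun y => y a = y b)]
    congr 1
    · congr 1
      ext y
      simp only [mem_filter, mem_Sol, hC, mem_univ, true_and]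
      constructor
      · rintro ⟨h1, h2⟩
        refine ⟨h2, fun i => ?_⟩
        have := h1 i
        rw [Cond_tog A hab, h2, ne3_self] at this
        simpa using this
      · rintro ⟨h1, h2⟩
        refine ⟨fun i => ?_, h1⟩
        rw [Cond_tog A hab, h2 i, h1, ne3_self]
        simp
    · congr 1
      ext y
      simp only [mem_filter, mem_Sol, mem_univ, true_and, hP]
      constructor
      · rintro ⟨h1, h2⟩
        have hne := ne3_of_ne h2
        refine ⟨h2, fun i hia hib => ?_, ?_, ?_⟩
        · have := h1 i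
          rw [Cond_tog A hab, if_neg (by tauto), add_zero] at this
          exact this
        · have := h1 a
          rw [Cond_tog A hab, if_pos (Or.inl rfl), hne] at this
          exact CharTwo.add_eq_zero.1 this
        · have := h1 b
          rw [Cond_tog A hab, if_pos (Or.inr rfl), hne] at this
          exact CharTwo.add_eq_zero.1 this
      · rintro ⟨h1, h2, h3, h4⟩
        have hne := ne3_of_ne h1
        refine ⟨fun i => ?_, h1⟩
        rw [Cond_tog A hab, hne]
        by_cases hia : i = a
        · rw [hia, h3, if_pos (Or.inl rfl)]; decide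
        · by_cases hib : i = b
          · rw [hib, h4, if_pos (Or.inr rfl)]; decide
          · rw [h2 i hia hib, if_neg (by tauto)]; decide
  have e3 : (univ.filter (fun y : ι → ZMod 3 => y a ≠ y b ∧
      P y ∧ Cond A y a = 0 ∧ Cond A y b = 0)).card + (univ.filter (fun y : ι → ZMod 3 =>
      y a ≠ y b ∧ P y ∧ Cond A y a = 1 ∧ Cond A y b = 1)).card = T1.card + T2.card := by
    rw [← Finset.card_union_of_disjoint, ← Finset.card_union_of_disjoint]
    · congr 1
      ext y
      simp only [mem_union, mem_filter, mem_univ, true_and, hT1, hT2]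
      have h1 : ∀ u v : ZMod 2, u + v = 0 ↔ ((u = 0 ∧ v = 0) ∨ (u = 1 ∧ v = 1)) := by decide
      have h2 : ∀ u v : ZMod 3, u ≠ v ↔ (v = u + 1 ∨ v = u + 2) := by decide
      rw [h1, h2]
      tauto
    · rw [Finset.disjoint_filter]
      rintro y _ ⟨h1, -, -⟩ ⟨h2, -, -⟩
      rw [h1] at h2
      revert h2
      generalize y a = x
      revert x
      decide
    · rw [Finset.disjoint_filter]
      rintro y _ ⟨-, -, h1, -⟩ ⟨-, -, h2, -⟩
      rw [h1] at h2
      exact absurd h2 (by decide)
  have hT1odd : (T1.card : ZMod 2) = 1 := merged_odd A hA hab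
  have h4 : ((C.card + T1.card : ℕ) : ZMod 2) = 0 := by
    push_cast
    rw [hCodd, hT1odd]
    decide
  have h5 : 2 ∣ C.card + T1.card := (ZMod.natCast_eq_zero_iff _ 2).1 h4
  omega

end Pool.Agent.CDC
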