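import Pool.Agent.CDC.Acyclic

/-!
# Circuits of a two-regular subgraph

`F` a set of edges such that every vertex incident with an edge of `F` is incident with exactly two
of them (for example the complement of a perfect matching of a cubic graph). Every edge of `F` lies
in exactly one circuit contained in `F`.
-/

set_option autoImplicit false

namespace Pool.Agent.CDC

variable {V E : Type} {G : MGraph V E}

/-- every vertex is incident with no or exactly two edges of `F` -/
def MGraph.TwoReg (G : MGraph V E) (F : Set E) : Prop :=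
  ∀ v e, e ∈ F → G.inc v e → ∃ f ∈ F, f ≠ e ∧ G.inc v f ∧ ∀ x ∈ F, G.inc v x → x = e ∨ x = f

/-- every vertex is incident with an edge of `F`, and `F` is two-regular: a `2`-factor -/
def MGraph.TwoFactor (G : MGraph V E) (F : Set E) : Prop :=
  G.TwoReg F ∧ ∀ v, ∃ e ∈ F, G.inc v e

/-- the complement of a perfect matching of a cubic graph is a `2`-factor -/
theorem twoFactor_compl (hG : G.Cubic) {M : Set E} (hM : G.IsPM M) : G.TwoFactor Mᶜ := by
  constructor
  · intro v x hx hxv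
    obtain ⟨e, ⟨heM, hev⟩, hu⟩ := hM v
    have hxe : x ≠ e := fun h => hx (h ▸ heM)
    obtain ⟨f, g, hxf, hxg, hfg, hs⟩ := star_off' hG v hxv
    rcases (hs e).1 hev with h | h | h
    · exact absurd h.symm hxe
    · refine ⟨g, fun hg => hfg ?_, hxg.symm, (hs g).2 (by simp), fun y hy hyv => ?_⟩
      · rw [← h]; exact (hu g ⟨hg, (hs g).2 (by simp)⟩).symm
      · rcases (hs y).1 hyv with h' | h' | h'
        · exact Or.inl h'
        · exact absurd (by rw [h', ← h]; exact heM) hy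
        · exact Or.inr h'
    · refine ⟨f, fun hf => hfg ?_, hxf.symm, (hs f).2 (by simp), fun y hy hyv => ?_⟩
      · rw [← h]; exact hu f ⟨hf, (hs f).2 (by simp)⟩
      · rcases (hs y).1 hyv with h' | h' | h'
        · exact Or.inl h'
        · exact Or.inr h'
        · exact absurd (by rw [h', ← h]; exact heM) hy
  · intro v
    obtain ⟨e, ⟨heM, hev⟩, hu⟩ := hM v
    obtain ⟨f, g, hef, heg, hfg, hs⟩ := star_off' hG v hev
    exact ⟨f, fun h => hef (hu f ⟨h, (hs f).2 (by simp)⟩).symm, (hs f).2 (by simp)⟩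

/-- the circuit found in a sequence of vertices and edges without immediate reversal consists of
edges of the sequence -/
theorem circuit_of_seq' [Finite V] (v : ℕ → V) (e : ℕ → E)
    (h1 : ∀ i w, G.inc w (e i) ↔ w = v i ∨ w = v (i + 1)) (h2 : ∀ i, v i ≠ v (i + 1))
    (h3 : ∀ i, e i ≠ e (i + 1)) :
    ∃ D, G.IsCircuit D ∧ (∀ f ∈ D, ∃ i, f = e i) ∧ ∃ i, v i ∈ G.verts D := by
  classical
  have hex : ∃ j, ∃ i, i < j ∧ v i = v j := by
    obtain ⟨a, b, hab, h⟩ := Finite.exists_ne_map_eq_of_infinite v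
    rcases lt_or_gt_of_ne hab with h' | h'
    · exact ⟨b, a, h', h⟩
    · exact ⟨a, b, h', h.symm⟩
  obtain ⟨i, hij, hvij⟩ := Nat.find_spec hex
  set j := Nat.find hex with hj
  have hmin : ∀ a b, a < b → b < j → v a ≠ v b := by
    intro a b hab hbj h
    exact Nat.find_min hex hbj ⟨a, hab, h⟩
  have hlen : i + 2 ≤ j := by
    by_contra hcon
    have : j = i + 1 := by omega
    rw [this] at hvij
    exact h2 i hvij
  obtain ⟨n, hn⟩ : ∃ n, j = i + (n + 2) := ⟨j - i - 2, by omega⟩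
  refine ⟨Set.range (fun k : Fin (n + 2) => e (i + k.1)), ⟨n, fun k => v (i + k.1),
    fun k => e (i + k.1), ?_, ?_, ?_, rfl⟩, ?_, ⟨i, e (i + (0 : Fin (n + 2)).1), ⟨0, rfl⟩, ?_⟩⟩
  · intro a b hab
    by_contra hne
    have hne' : a.1 ≠ b.1 := fun h => hne (Fin.ext h)
    rcases lt_or_gt_of_ne hne' with h | h
    · exact hmin (i + a.1) (i + b.1) (by omega) (by have := b.2; omega) hab
    · exact hmin (i + b.1) (i + a.1) (by omega) (by have := a.2; omega) hab.symm
  · have key : ∀ a b : Fin (n + 2), a.1 < b.1 → e (i + a.1) ≠ e (i + b.1) := by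
      intro a b h hab
      have h4 : G.inc (v (i + b.1)) (e (i + a.1)) := by
        rw [hab, h1]; exact Or.inl rfl
      rw [h1] at h4
      rcases h4 with h4 | h4
      · exact hmin (i + a.1) (i + b.1) (by omega) (by have := b.2; omega) h4.symm
      · have h5 : i + a.1 + 1 = i + b.1 := by
          by_contra hne
          exact hmin (i + a.1 + 1) (i + b.1) (by omega) (by have := b.2; omega) h4.symm
        rw [← h5] at hab
        exact h3 _ hab
    intro a b hab
    by_contra hne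
    have hne' : a.1 ≠ b.1 := fun h => hne (Fin.ext h)
    rcases lt_or_gt_of_ne hne' with h | h
    · exact key a b h hab
    · exact key b a h hab.symm
  · intro k w
    rw [h1]
    by_cases hk : k = Fin.last (n + 1)
    · subst hk
      rw [Fin.last_add_one]
      have h4 : v (i + (Fin.last (n + 1)).1 + 1) = v (i + (0 : Fin (n + 2)).1) := by
        rw [show i + (Fin.last (n + 1)).1 + 1 = j by rw [hn]; simp [Fin.last]; omega]
        rw [← hvij]
        simp
      show w = v (i + (Fin.last (n + 1)).1) ∨ w = v (i + (Fin.last (n + 1)).1 + 1) ↔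
        w = v (i + (Fin.last (n + 1)).1) ∨ w = v (i + (0 : Fin (n + 2)).1)
      rw [h4]
    · have h4 : (k + 1).1 = k.1 + 1 := Fin.val_add_one_of_lt (Fin.lt_last_iff_ne_last.2 hk)
      show w = v (i + k.1) ∨ w = v (i + k.1 + 1) ↔ w = v (i + k.1) ∨ w = v (i + (k + 1).1)
      rw [h4, add_assoc]
  · rintro f ⟨k, rfl⟩
    exact ⟨_, rfl⟩
  · rw [h1]
    exact Or.inl (by simp)

/-- two edges of a circuit at each of its vertices -/
theorem Circ.two_at {C : Set E} {n : ℕ} (K : Circ G C n) {v : V} (hv : v ∈ G.verts C) :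
    ∃ e ∈ C, ∃ f ∈ C, e ≠ f ∧ G.inc v e ∧ G.inc v f := by
  obtain ⟨i, rfl⟩ := (K.mem_verts v).1 hv
  exact ⟨K.a i, K.mem i, K.a (i - 1), K.mem _, K.a_ne i, (K.hinc i _).2 (Or.inl rfl),
    (K.hinc _ _).2 (Or.inr (by rw [sub_add_cancel]))⟩

variable {F : Set E}

/-- the edges of `F` at a vertex of a circuit in `F` belong to the circuit -/
theorem MGraph.TwoReg.mem_circuit (hF : G.TwoReg F) {C : Set E} (hC : G.IsCircuit C)
    (hCF : C ⊆ F) {v : V} (hv : v ∈ G.verts C) {e : E} (he : e ∈ F) (hev : G.inc v e) :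
    e ∈ C := by
  obtain ⟨n, ⟨K⟩⟩ := hC.circ
  obtain ⟨f, hf, g, hg, hfg, hfv, hgv⟩ := K.two_at hv
  obtain ⟨x, hx, hxe, hxv, hu⟩ := hF v e he hev
  rcases hu f (hCF hf) hfv with h | h
  · exact h ▸ hf
  · rcases hu g (hCF hg) hgv with h' | h'
    · exact h' ▸ hg
    · exact absurd (h.trans h'.symm) hfg

/-- both ends of an edge of a circuit are vertices of the circuit -/
theorem mem_verts_of_mem {C : Set E} {e : E} (he : e ∈ C) {v : V} (hv : G.inc v e) :
    v ∈ G.verts C := ⟨e, he, hv⟩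

/-- a circuit contained in a circuit which is contained in a two-regular set is equal to it, more
generally two circuits in `F` with a common vertex are equal -/
theorem MGraph.TwoReg.circuit_subset (hF : G.TwoReg F) {C D : Set E} (hC : G.IsCircuit C)
    (hCF : C ⊆ F) (hD : G.IsCircuit D) (hDF : D ⊆ F) {v : V} (hv : v ∈ G.verts C)
    (hv' : v ∈ G.verts D) : D ⊆ C := by
  obtain ⟨m, ⟨L⟩⟩ := hD.circ
  obtain ⟨i₀, rfl⟩ := (L.mem_verts v).1 hv'
  -- all vertices of `D` are vertices of `C`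
  have step : ∀ i, L.v i ∈ G.verts C → L.v (i + 1) ∈ G.verts C := by
    intro i hi
    have h1 : L.a i ∈ C := hF.mem_circuit hC hCF hi (hDF (L.mem i)) ((L.hinc i _).2 (Or.inl rfl))
    exact ⟨L.a i, h1, (L.hinc i _).2 (Or.inr rfl)⟩
  have hall : ∀ k : ℕ, L.v (i₀ + Fin.ofNat (m + 2) k) ∈ G.verts C := by
    intro k
    induction k with
    | zero =>
      have h0 : Fin.ofNat (m + 2) 0 = 0 := rfl
      rw [h0, add_zero]
      exact hv
    | succ k ih =>
      have h1 := step _ ih
      have h2 : Fin.ofNat (m + 2) (k + 1) = Fin.ofNat (m + 2) k + 1 := by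
        apply Fin.ext
        simp [Fin.ofNat, Fin.val_add]
      rw [h2, ← add_assoc]
      exact h1
  intro e he
  obtain ⟨i, rfl⟩ := (L.mem_iff e).1 he
  have h2 := hall (i - i₀).1
  have h3 : Fin.ofNat (m + 2) (i - i₀).1 = i - i₀ := by
    apply Fin.ext
    exact Nat.mod_eq_of_lt (i - i₀).2
  rw [h3, add_sub_cancel] at h2
  exact hF.mem_circuit hC hCF h2 (hDF (L.mem i)) ((L.hinc i _).2 (Or.inl rfl))

/-- two circuits in `F` with a common vertex are equal -/
theorem MGraph.TwoReg.circuit_unique (hF : G.TwoReg F) {C D : Set E} (hC : G.IsCircuit C)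
    (hCF : C ⊆ F) (hD : G.IsCircuit D) (hDF : D ⊆ F) {v : V} (hv : v ∈ G.verts C)
    (hv' : v ∈ G.verts D) : C = D :=
  Set.Subset.antisymm (hF.circuit_subset hD hDF hC hCF hv' hv)
    (hF.circuit_subset hC hCF hD hDF hv hv')

/-- every edge of `F` lies in a circuit contained in `F` -/
theorem MGraph.TwoReg.exists_circuit [Finite V] (hF : G.TwoReg F) {e : E} (he : e ∈ F) :
    ∃ C, G.IsCircuit C ∧ C ⊆ F ∧ e ∈ C := by
  classical
  -- states: a vertex and an edge of `F` at this vertex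
  let St := {p : V × E // p.2 ∈ F ∧ G.inc p.1 p.2}
  have step : ∀ s : St, ∃ t : St, t.1.1 ≠ s.1.1 ∧ G.inc t.1.1 s.1.2 ∧ t.1.2 ≠ s.1.2 := by
    rintro ⟨⟨v, e⟩, he, hve⟩
    obtain ⟨w, hw, hx⟩ := other_end G hve
    have hwe : G.inc w e := (hx w).2 (Or.inr rfl)
    obtain ⟨f, hf, hfe, hwf, -⟩ := hF w e he hwe
    exact ⟨⟨(w, f), hf, hwf⟩, hw, hwe, hfe⟩
  choose nx hnx1 hnx2 hnx3 using step
  obtain ⟨v0, hv0⟩ : ∃ v, G.inc v e := by
    obtain ⟨u, w, -, hS⟩ := Set.ncard_eq_two.1 (G.two e)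
    refine ⟨u, ?_⟩
    have : u ∈ {v | G.inc v e} := by rw [hS]; simp
    exact this
  let s : ℕ → St := fun n => Nat.rec ⟨(v0, e), he, hv0⟩ (fun _ t => nx t) n
  have hs : ∀ n, s (n + 1) = nx (s n) := fun n => rfl
  have hs0 : (s 0).1.2 = e := rfl
  have g1 : ∀ i w, G.inc w (s i).1.2 ↔ w = (s i).1.1 ∨ w = (s (i + 1)).1.1 := by
    intro i w
    obtain ⟨w', hw', hx⟩ := other_end G (s i).2.2
    have h5 : (s (i + 1)).1.1 = w' := by
      rw [hs]
      rcases (hx _).1 (hnx2 (s i)) with h | h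
      · exact absurd h (hnx1 (s i))
      · exact h
    rw [h5]
    exact hx w
  have g2 : ∀ i, (s i).1.1 ≠ (s (i + 1)).1.1 := by
    intro i
    rw [hs]
    exact (hnx1 (s i)).symm
  have g3 : ∀ i, (s i).1.2 ≠ (s (i + 1)).1.2 := by
    intro i
    rw [hs]
    exact (hnx3 (s i)).symm
  obtain ⟨D, hD, hDe, i, hi⟩ := circuit_of_seq' (G := G) (fun n => (s n).1.1)
    (fun n => (s n).1.2) g1 g2 g3
  have hDF : D ⊆ F := by
    intro f hf
    obtain ⟨j, rfl⟩ := hDe f hf
    exact (s j).2.1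
  have back : ∀ i, (s i).1.1 ∈ G.verts D → (s 0).1.1 ∈ G.verts D := by
    intro i
    induction i with
    | zero => exact fun h => h
    | succ i ih =>
      intro h
      have h1 : G.inc (s (i + 1)).1.1 (s i).1.2 := (g1 i _).2 (Or.inr rfl)
      have h2 : (s i).1.2 ∈ D := hF.mem_circuit hD hDF h (s i).2.1 h1
      exact ih ⟨_, h2, (s i).2.2⟩
  refine ⟨D, hD, hDF, ?_⟩
  have h3 := hF.mem_circuit hD hDF (back i hi) (s 0).2.1 (s 0).2.2
  rwa [hs0] at h3

/-- every vertex lies on a circuit of a `2`-factor -/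
theorem MGraph.TwoFactor.exists_circuit [Finite V] (hF : G.TwoFactor F) (v : V) :
    ∃ C, G.IsCircuit C ∧ C ⊆ F ∧ v ∈ G.verts C := by
  obtain ⟨e, he, hv⟩ := hF.2 v
  obtain ⟨C, hC, hCF, heC⟩ := hF.1.exists_circuit he
  exact ⟨C, hC, hCF, e, heC, hv⟩

/-- a circuit has as many vertices as edges -/
theorem MGraph.IsCircuit.ncard_verts {C : Set E} (hC : G.IsCircuit C) :
    (G.verts C).ncard = C.ncard := by
  obtain ⟨n, ⟨K⟩⟩ := hC.circ
  have h1 : G.verts C = Set.range K.v := by
    ext w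
    rw [K.mem_verts]
    rfl
  have h2 : (Set.range K.v).ncard = (Set.range K.a).ncard := by
    rw [← Set.image_univ, ← Set.image_univ, Set.ncard_image_of_injective _ K.vinj,
      Set.ncard_image_of_injective _ K.ainj]
  rw [h1, h2]
  exact congrArg Set.ncard K.ran

/-- a circuit is two-regular -/
theorem MGraph.IsCircuit.twoReg {C : Set E} (hC : G.IsCircuit C) : G.TwoReg C := by
  obtain ⟨n, ⟨K⟩⟩ := hC.circ
  intro v e he hev
  obtain ⟨i, rfl⟩ := (K.mem_verts v).1 ⟨e, he, hev⟩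
  have hall : ∀ x ∈ C, G.inc (K.v i) x → x = K.a i ∨ x = K.a (i - 1) := by
    intro x hx hxv
    obtain ⟨j, rfl⟩ := (K.mem_iff x).1 hx
    rcases (K.hinc j _).1 hxv with h | h
    · exact Or.inl (by rw [K.vinj h])
    · exact Or.inr (by rw [K.vinj h]; simp)
  rcases hall e he hev with rfl | rfl
  · exact ⟨K.a (i - 1), K.mem _, (K.a_ne i).symm, (K.hinc _ _).2 (Or.inr (by rw [sub_add_cancel])),
      hall⟩
  · exact ⟨K.a i, K.mem i, K.a_ne i, (K.hinc i _).2 (Or.inl rfl), fun x hx hxv =>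
      (hall x hx hxv).symm⟩

end Pool.Agent.CDC
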