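import Pool.Agent.CDC.TwoLab
import Pool.Agent.CDC.PMCover
import Pool.Agent.CDC.TwoFactor

/-!
# `2`-factors with two circuits
-/

set_option autoImplicit false

namespace Pool.Agent.CDC

open Finset

/-- partial sums along a circuit -/
def psum {V : Type} {n : ℕ} (v : Fin (n + 2) → V) (g : V → F4) (i : Fin (n + 2)) : F4 :=
  ∑ j, if j < i then g (v j) else 0

theorem psum_step {V : Type} {n : ℕ} (v : Fin (n + 2) → V) (g : V → F4)
    (h0 : ∑ j, g (v j) = 0) (i : Fin (n + 2)) :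
    psum v g i = psum v g (i - 1) + g (v (i - 1)) := by
  unfold psum
  have h1 : g (v (i - 1)) = ∑ j, if j = i - 1 then g (v j) else 0 := by
    rw [Finset.sum_ite_eq' univ (i - 1)]
    simp
  rw [h1, ← Finset.sum_add_distrib]
  by_cases hi : i = 0
  · subst hi
    have hl : ((0 : Fin (n + 2)) - 1).1 = n + 1 := by
      rw [zero_sub]
      simp [Fin.val_neg]
    have h2 : ∑ j : Fin (n + 2), (if j < 0 then g (v j) else 0) = 0 :=
      Finset.sum_eq_zero (fun j _ => if_neg (by simp))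
    rw [h2]
    refine h0.symm.trans (Finset.sum_congr rfl (fun j _ => ?_))
    by_cases hj : j = 0 - 1
    · rw [if_neg (by rw [hj]; exact lt_irrefl _), if_pos hj, zero_add]
    · rw [if_pos, if_neg hj, add_zero]
      rw [Fin.lt_def, hl]
      have h3 : j.1 ≠ n + 1 := fun h => hj (Fin.ext (h.trans hl.symm))
      have := j.2
      omega
  · have h1 : 0 < i.1 := Nat.pos_of_ne_zero (fun h => hi (Fin.ext h))
    have h2 : (i - 1).1 = i.1 - 1 := by
      rw [Fin.sub_val_of_le]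
      · simp
      · rw [Fin.le_def]
        simp
        omega
    refine Finset.sum_congr rfl (fun j _ => ?_)
    by_cases hj : j = i - 1
    · have h3 : j.1 = i.1 - 1 := by rw [hj, h2]
      rw [if_pos (by rw [Fin.lt_def]; omega), if_neg (by rw [Fin.lt_def]; omega), if_pos hj,
        zero_add]
    · have h3 : j.1 ≠ i.1 - 1 := fun h => hj (Fin.ext (h.trans h2.symm))
      rw [if_neg hj, add_zero]
      refine if_congr ?_ rfl rfl
      rw [Fin.lt_def, Fin.lt_def]
      omega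

variable {V E : Type} [Fintype V] [Fintype E] {G : MGraph V E} {C : Set E} {n : ℕ}

theorem sum_circ (K : Circ G C n) (side : V → ZMod 2) (σ : ZMod 2)
    (hside : ∀ u, side u = σ ↔ u ∈ G.verts C) (g : V → F4) :
    ∑ u, (if side u = σ then g u else 0) = ∑ j, g (K.v j) := by
  symm
  refine Fintype.sum_of_injective K.v K.vinj _ _ (fun w hw => ?_) (fun i => ?_)
  · rw [if_neg]
    rw [hside, K.mem_verts]
    exact hw
  · rw [if_pos]
    rw [hside, K.mem_verts]
    exact ⟨i, rfl⟩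

theorem sum_bef (K : Circ G C n) (side : V → ZMod 2) (idx : V → ℕ) (σ : ZMod 2)
    (hside : ∀ u, side u = σ ↔ u ∈ G.verts C) (hidx : ∀ j, idx (K.v j) = j.1) (g : V → F4)
    (b : V → V → ZMod 2) (hb : ∀ u w, b u w = 0 ↔ ¬ (side u = side w ∧ idx u < idx w))
    (i : Fin (n + 2)) :
    ∑ u, (if b u (K.v i) = 0 then 0 else g u) = psum K.v g i := by
  unfold psum
  symm
  have hi : side (K.v i) = σ := (hside _).2 ((K.mem_verts _).2 ⟨i, rfl⟩)
  refine Fintype.sum_of_injective K.v K.vinj _ _ (fun w hw => ?_) (fun j => ?_)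
  · rw [if_pos]
    rw [hb, hi]
    rintro ⟨h, -⟩
    rw [hside, K.mem_verts] at h
    exact hw h
  · have hj : side (K.v j) = σ := (hside _).2 ((K.mem_verts _).2 ⟨j, rfl⟩)
    by_cases hji : j < i
    · rw [if_pos hji, if_neg]
      rw [hb, hi, hj, hidx, hidx]
      push Not
      exact ⟨rfl, hji⟩
    · rw [if_neg hji, if_pos]
      rw [hb, hi, hj, hidx, hidx]
      rintro ⟨-, h⟩
      exact hji h

/-- the labels at the vertices of one circuit -/
theorem labelAt_circ (hG : G.Cubic) {M : Set E} (K : Circ G C n) (hCM : C ⊆ Mᶜ)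
    (hM : G.IsPM M) (dd : E → ZMod 3) (c : E → ZMod 2) (xe : E → F4) (X : V → F4) (g : V → F4)
    (hg : ∀ v e, e ∈ M → G.inc v e → g v = th (dd e))
    (hc : ∀ v e, e ∈ M → G.inc v e → c e = om (th (dd e)) (X v))
    (t : F4) (hX : ∀ i, X (K.v i) = t + psum K.v g i) (h0 : ∑ j, g (K.v j) = 0)
    (hxe : ∀ i, xe (K.a i) = X (K.v i) + g (K.v i)) {v : V} (hv : v ∈ G.verts C) :
    LabelAt G M dd c xe v := by
  obtain ⟨i, rfl⟩ := (K.mem_verts v).1 hv
  have hne1 : K.a i ≠ K.h hG i := fun h => K.h_notMem hG i (h ▸ K.mem i)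
  have hne2 : K.a (i - 1) ≠ K.h hG i := fun h => K.h_notMem hG i (h ▸ K.mem _)
  have ha : K.a i ∉ M := hCM (K.mem i)
  have ha' : K.a (i - 1) ∉ M := hCM (K.mem _)
  have hh : K.h hG i ∈ M := by
    obtain ⟨e, ⟨heM, he⟩, -⟩ := hM (K.v i)
    rcases (K.inc_iff hG i e).1 he with rfl | rfl | rfl
    · exact absurd heM ha
    · exact absurd heM ha'
    · exact heM
  have hx1 : xe (K.a (i - 1)) = X (K.v i) := by
    rw [hxe, hX, hX, psum_step K.v g h0 i, add_assoc]
  refine ⟨K.a i, K.a (i - 1), K.h hG i, K.a_ne i, hne1, hne2, ha, ha', hh, K.inc_iff hG i, ?_, ?_⟩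
  · rw [hx1, hxe, hg _ _ hh (K.h_inc hG i)]
  · rw [hx1]
    exact hc _ _ hh (K.h_inc hG i)

/-- the number of edges joining the circuits is not `1` modulo `4`: labels exist -/
theorem exists_labels (hG : G.Cubic) {M : Set E} (hM : G.IsPM M) {C₁ C₂ : Set E} {n₁ n₂ : ℕ}
    (K₁ : Circ G C₁ n₁) (K₂ : Circ G C₂ n₂) (hd : Disjoint (G.verts C₁) (G.verts C₂))
    (hU : C₁ ∪ C₂ = Mᶜ)
    (hk : {e | (∃ u ∈ G.verts C₁, G.inc u e) ∧ ∃ w ∈ G.verts C₂, G.inc w e}.ncard % 4 ≠ 1) :
    ∃ (dd : E → ZMod 3) (c : E → ZMod 2) (xe : E → F4), ∀ v, LabelAt G M dd c xe v := by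
  classical
  have hC1 : C₁ ⊆ Mᶜ := hU ▸ Set.subset_union_left
  have hC2 : C₂ ⊆ Mᶜ := hU ▸ Set.subset_union_right
  have hF := twoFactor_compl hG hM
  have hall : ∀ v, v ∉ G.verts C₂ ↔ v ∈ G.verts C₁ := by
    intro v
    constructor
    · intro hv
      obtain ⟨e, he, hve⟩ := hF.2 v
      rw [← hU] at he
      rcases he with he | he
      · exact ⟨e, he, hve⟩
      · exact absurd ⟨e, he, hve⟩ hv
    · intro h1 h2
      exact Set.disjoint_left.1 hd h1 h2
  set side : V → ZMod 2 := fun v => if v ∈ G.verts C₂ then 1 else 0 with hside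
  have hs0 : ∀ u, side u = 0 ↔ u ∈ G.verts C₁ := by
    intro u
    rw [← hall]
    simp [hside]
  have hs1 : ∀ u, side u = 1 ↔ u ∈ G.verts C₂ := by
    intro u
    simp [hside]
  obtain ⟨idx, hi1, hi2⟩ : ∃ idx : V → ℕ, (∀ j, idx (K₁.v j) = j.1) ∧
      ∀ j, idx (K₂.v j) = j.1 := by
    refine ⟨fun w => if h : ∃ i, K₁.v i = w then h.choose.1 else
      if h : ∃ i, K₂.v i = w then h.choose.1 else 0, fun j => ?_, fun j => ?_⟩
    · have h : ∃ i, K₁.v i = K₁.v j := ⟨j, rfl⟩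
      simp only [dif_pos h]
      rw [K₁.vinj h.choose_spec]
    · have h : ∃ i, K₂.v i = K₂.v j := ⟨j, rfl⟩
      have h' : ¬ ∃ i, K₁.v i = K₂.v j := by
        intro h1
        rw [← K₁.mem_verts] at h1
        exact Set.disjoint_left.1 hd h1 ((K₂.mem_verts _).2 h)
      simp only [dif_neg h', dif_pos h]
      rw [K₂.vinj h.choose_spec]
  have hidx : ∀ u w, u ≠ w → side u = side w → idx u ≠ idx w := by
    intro u w huw hs h
    by_cases hu : u ∈ G.verts C₁
    · have hw : w ∈ G.verts C₁ := by rw [← hs0, ← hs, hs0]; exact hu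
      obtain ⟨i, rfl⟩ := (K₁.mem_verts u).1 hu
      obtain ⟨j, rfl⟩ := (K₁.mem_verts w).1 hw
      rw [hi1, hi1] at h
      exact huw (by rw [Fin.ext h])
    · have hu2 : u ∈ G.verts C₂ := by
        by_contra h'
        exact hu ((hall u).1 h')
      have hw : w ∈ G.verts C₂ := by rw [← hs1, ← hs, hs1]; exact hu2
      obtain ⟨i, rfl⟩ := (K₂.mem_verts u).1 hu2
      obtain ⟨j, rfl⟩ := (K₂.mem_verts w).1 hw
      rw [hi2, hi2] at h
      exact huw (by rw [Fin.ext h])
  set b : V → V → ZMod 2 := fun u w => if side u = side w ∧ idx u < idx w then 1 else 0 with hbdef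
  have hb : ∀ u w, u ≠ w → b u w + b w u = 1 + side u + side w := by
    intro u w huw
    simp only [hbdef]
    have h01 : ∀ z : ZMod 2, z = 0 ∨ z = 1 := by decide
    by_cases hs : side u = side w
    · have hne := hidx u w huw hs
      have h2 : (1 : ZMod 2) + side u + side w = 1 := by
        rw [hs, add_assoc, z2_add_self, add_zero]
      rw [h2]
      rcases lt_or_gt_of_ne hne with h | h
      · rw [if_pos ⟨hs, h⟩, if_neg (fun h' => absurd h'.2 (not_lt.2 h.le)), add_zero]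
      · rw [if_neg (fun h' => absurd h'.2 (not_lt.2 h.le)), if_pos ⟨hs.symm, h⟩, zero_add]
    · rw [if_neg (fun h => hs h.1), if_neg (fun h => hs h.1.symm)]
      revert hs
      generalize side u = s1
      generalize side w = s2
      revert s1 s2
      decide
  have hb0 : ∀ u w, b u w = 0 ↔ ¬ (side u = side w ∧ idx u < idx w) := by
    intro u w
    simp only [hbdef]
    split_ifs with h
    · simp [h]
    · simp [h]
  -- the edges of `M`
  let ME := {e : E // e ∈ M}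
  let φ : ME ≃ Fin (Fintype.card ME) := Fintype.equivFin ME
  have hME : ∀ v, ∃ e : ME, G.inc v e.1 := fun v => by
    obtain ⟨e, ⟨he, hve⟩, -⟩ := hM v
    exact ⟨⟨e, he⟩, hve⟩
  choose me hme using hME
  have hmeu : ∀ v (e : ME), G.inc v e.1 ↔ me v = e := by
    intro v e
    constructor
    · intro h
      exact Subtype.ext ((hM v).unique ⟨(me v).2, hme v⟩ ⟨e.2, h⟩)
    · rintro rfl
      exact hme v
  set ψ : V → Fin (Fintype.card ME) := fun v => φ (me v) with hψdef
  have hψi : ∀ v i, ψ v = i ↔ G.inc v (φ.symm i).1 := by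
    intro v i
    rw [hmeu]
    exact (Equiv.eq_symm_apply φ).symm
  have hψ : ∀ i, ∃ u w, u ≠ w ∧ ∀ x, ψ x = i ↔ x = u ∨ x = w := by
    intro i
    obtain ⟨u, w, huw, hS⟩ := Set.ncard_eq_two.1 (G.two (φ.symm i).1)
    refine ⟨u, w, huw, fun x => ?_⟩
    rw [hψi]
    have : x ∈ {v | G.inc v (φ.symm i).1} ↔ x ∈ ({u, w} : Set V) := by rw [hS]
    simpa using this
  have hcard : (univ.filter (fun i => labZ ψ side i ≠ 0)).card =
      {e | (∃ u ∈ G.verts C₁, G.inc u e) ∧ ∃ w ∈ G.verts C₂, G.inc w e}.ncard := by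
    have hinj : Function.Injective (fun i => ((φ.symm i).1 : E)) :=
      fun i j h => φ.symm.injective (Subtype.ext h)
    rw [← Finset.card_image_of_injective _ hinj, ← Set.ncard_coe_finset]
    congr 1
    ext e
    simp only [coe_image, coe_filter, mem_univ, true_and, Set.mem_image, Set.mem_ofPred_eq]
    have hZ : ∀ i, labZ ψ side i ≠ 0 ↔ ((∃ u ∈ G.verts C₁, G.inc u (φ.symm i).1) ∧
        ∃ w ∈ G.verts C₂, G.inc w (φ.symm i).1) := by
      intro i
      obtain ⟨u, w, huw, hi⟩ := hψ i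
      unfold labZ
      rw [sum_pair huw hi]
      simp only [← hψi, hi, ← hs0, ← hs1]
      have e1 : (∃ x, side x = 0 ∧ (x = u ∨ x = w)) ↔ (side u = 0 ∨ side w = 0) := by
        constructor
        · rintro ⟨x, h, rfl | rfl⟩
          · exact Or.inl h
          · exact Or.inr h
        · rintro (h | h)
          · exact ⟨u, h, Or.inl rfl⟩
          · exact ⟨w, h, Or.inr rfl⟩
      have e2 : (∃ x, side x = 1 ∧ (x = u ∨ x = w)) ↔ (side u = 1 ∨ side w = 1) := by
        constructor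
        · rintro ⟨x, h, rfl | rfl⟩
          · exact Or.inl h
          · exact Or.inr h
        · rintro (h | h)
          · exact ⟨u, h, Or.inl rfl⟩
          · exact ⟨w, h, Or.inr rfl⟩
      rw [e1, e2]
      generalize side u = s1
      generalize side w = s2
      revert s1 s2
      decide
    constructor
    · rintro ⟨i, hi, rfl⟩
      exact (hZ i).1 hi
    · rintro ⟨⟨u, hu, hue⟩, ⟨w, hw, hwe⟩⟩
      have heM : e ∈ M := by
        by_contra h
        have h' : e ∈ Mᶜ := h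
        rw [← hU] at h'
        rcases h' with h' | h'
        · exact Set.disjoint_left.1 hd ⟨e, h', hwe⟩ hw
        · exact Set.disjoint_left.1 hd hu ⟨e, h', hue⟩
      refine ⟨φ ⟨e, heM⟩, (hZ _).2 ?_, ?_⟩
      · rw [Equiv.symm_apply_apply]
        exact ⟨⟨u, hu, hue⟩, ⟨w, hw, hwe⟩⟩
      · rw [Equiv.symm_apply_apply]
  obtain ⟨y, s, hy1, hy2⟩ := closed_labels ψ hψ side b hb (by rw [hcard]; exact hk)
  set X : V → F4 := labX ψ side b y s with hXdef
  set g : V → F4 := fun v => th (y (ψ v)) with hgdef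
  obtain ⟨dd, hdd⟩ : ∃ dd : E → ZMod 3, ∀ e (he : e ∈ M), dd e = y (φ ⟨e, he⟩) :=
    ⟨fun e => if he : e ∈ M then y (φ ⟨e, he⟩) else 0, fun e he => dif_pos he⟩
  have hψe : ∀ v e (he : e ∈ M), G.inc v e → ψ v = φ ⟨e, he⟩ := by
    intro v e he hv
    exact congrArg φ ((hmeu v ⟨e, he⟩).1 hv)
  have hg : ∀ v e, e ∈ M → G.inc v e → g v = th (dd e) := by
    intro v e he hv
    simp only [hgdef]
    rw [hψe v e he hv, hdd e he]
  obtain ⟨c, hc⟩ : ∃ c : E → ZMod 2, ∀ v e, e ∈ M → G.inc v e → c e = om (th (dd e)) (X v) := by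
    refine ⟨fun e => om (th (dd e)) (X (exists_end G e).choose), fun v e he hv => ?_⟩
    have h1 := (exists_end G e).choose_spec
    have h2 := hy2 (exists_end G e).choose v (by rw [hψe _ e he h1, hψe _ e he hv])
    rw [hψe _ e he h1, hψe _ e he hv, ← hdd e he] at h2
    exact h2
  obtain ⟨xe, hx1, hx2⟩ : ∃ xe : E → F4, (∀ i, xe (K₁.a i) = X (K₁.v i) + g (K₁.v i)) ∧
      ∀ i, xe (K₂.a i) = X (K₂.v i) + g (K₂.v i) := by
    refine ⟨fun e => if h : ∃ i, K₁.a i = e then X (K₁.v h.choose) + g (K₁.v h.choose) else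
      if h : ∃ i, K₂.a i = e then X (K₂.v h.choose) + g (K₂.v h.choose) else 0,
      fun j => ?_, fun j => ?_⟩
    · have h : ∃ i, K₁.a i = K₁.a j := ⟨j, rfl⟩
      simp only [dif_pos h]
      rw [K₁.ainj h.choose_spec]
    · have h : ∃ i, K₂.a i = K₂.a j := ⟨j, rfl⟩
      have h' : ¬ ∃ i, K₁.a i = K₂.a j := by
        rintro ⟨i, h1⟩
        have h2 : G.inc (K₁.v i) (K₂.a j) := by
          rw [← h1, K₁.hinc]; exact Or.inl rfl
        exact Set.disjoint_left.1 hd ((K₁.mem_verts _).2 ⟨i, rfl⟩) ⟨_, K₂.mem j, h2⟩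
      simp only [dif_neg h', dif_pos h]
      rw [K₂.ainj h.choose_spec]
  have hX : ∀ {C : Set E} {n : ℕ} (K : Circ G C n) (σ : ZMod 2)
      (_ : ∀ u, side u = σ ↔ u ∈ G.verts C) (_ : ∀ j, idx (K.v j) = j.1) (i : Fin (n + 2)),
      X (K.v i) = (if σ = 0 then 0 else s) + psum K.v g i := by
    intro C n K σ h1 h2 i
    have hi : side (K.v i) = σ := (h1 _).2 ((K.mem_verts _).2 ⟨i, rfl⟩)
    simp only [hXdef]
    unfold labX
    rw [hi, sum_bef K side idx σ h1 h2 g b hb0 i]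
  refine ⟨dd, c, xe, fun v => ?_⟩
  by_cases hv : v ∈ G.verts C₁
  · refine labelAt_circ hG K₁ hC1 hM dd c xe X g hg hc _ (hX K₁ 0 hs0 hi1) ?_ hx1 hv
    rw [← sum_circ K₁ side 0 hs0 g]
    exact hy1 0
  · have hv2 : v ∈ G.verts C₂ := by
      by_contra h'
      exact hv ((hall v).1 h')
    refine labelAt_circ hG K₂ hC2 hM dd c xe X g hg hc _ (hX K₂ 1 hs1 hi2) ?_ hx2 hv2
    rw [← sum_circ K₂ side 1 hs1 g]
    exact hy1 1

/-- disjoint circuits of a `2`-factor have disjoint vertex sets -/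
theorem verts_disjoint (hG : G.Cubic) {M : Set E} (hM : G.IsPM M) {C₁ C₂ : Set E}
    (h1 : G.IsCircuit C₁) (h2 : G.IsCircuit C₂) (hd : Disjoint C₁ C₂) (hC1 : C₁ ⊆ Mᶜ)
    (hC2 : C₂ ⊆ Mᶜ) : Disjoint (G.verts C₁) (G.verts C₂) := by
  rw [Set.disjoint_left]
  intro v hv hv'
  have h3 := (twoFactor_compl hG hM).1.circuit_unique h1 hC1 h2 hC2 hv hv'
  obtain ⟨n, ⟨K⟩⟩ := h1.circ
  have h4 := K.mem 0
  exact Set.disjoint_left.1 hd h4 (h3 ▸ h4)

/-- a `2`-factor with two circuits which are joined by `k` edges, `k` not `1` modulo `4`: there is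
a double cover by five even subgraphs one of which is the `2`-factor, and the edges are covered by
four perfect matchings -/
theorem two_circuits (hG : G.Cubic) {M : Set E} (hM : G.IsPM M) {C₁ C₂ : Set E}
    (h1 : G.IsCircuit C₁) (h2 : G.IsCircuit C₂) (hd : Disjoint C₁ C₂) (hU : C₁ ∪ C₂ = Mᶜ)
    (hk : {e | (∃ u ∈ G.verts C₁, G.inc u e) ∧ ∃ w ∈ G.verts C₂, G.inc w e}.ncard % 4 ≠ 1) :
    (∃ D : Fin 5 → Set E, G.IsCDC D ∧ D 0 = Mᶜ) ∧ G.Coverable4 := by
  obtain ⟨n₁, ⟨K₁⟩⟩ := h1.circ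
  obtain ⟨n₂, ⟨K₂⟩⟩ := h2.circ
  have hd' := verts_disjoint hG hM h1 h2 hd (hU ▸ Set.subset_union_left)
    (hU ▸ Set.subset_union_right)
  obtain ⟨dd, c, xe, h⟩ := exists_labels hG hM K₁ K₂ hd' hU hk
  exact cover_of_labels dd c xe h

end Pool.Agent.CDC
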