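import Pool.Agent.CDC.TwoCirc
import Pool.Agent.CDC.JStruct

/-!
# `2`-factors with two circuits, second part: the remaining residue class
-/

set_option autoImplicit false

namespace Pool.Agent.CDC

open Finset

section

variable {V E : Type} [Fintype V] [Fintype E] {G : MGraph V E} {C : Set E} {n : ℕ}

/-- the circuit started at position `d` -/
def Circ.rot (K : Circ G C n) (d : Fin (n + 2)) : Circ G C n where
  v i := K.v (i + d)
  a i := K.a (i + d)
  vinj i j h := add_right_cancel (K.vinj h)
  ainj i j h := add_right_cancel (K.ainj h)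
  hinc i w := by rw [K.hinc, add_right_comm]
  ran := by
    refine Eq.trans ?_ K.ran
    ext e
    constructor
    · rintro ⟨i, rfl⟩
      exact ⟨i + d, rfl⟩
    · rintro ⟨i, rfl⟩
      exact ⟨i - d, by simp⟩

theorem Circ.rot_h (K : Circ G C n) (hG : G.Cubic) (d i : Fin (n + 2)) :
    (K.rot d).h hG i = K.h hG (i + d) :=
  (K.not_mem_inc hG (i + d) _).1 ⟨(K.rot d).h_notMem hG i, (K.rot d).h_inc hG i⟩

/-- the matching edges at the vertices of a circuit: spokes (edges of `S`) have one end on the
circuit, the others have two -/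
structure Spk (K : Circ G C n) (hG : G.Cubic) (S : Set E) : Prop where
  one : ∀ e ∈ S, ∃ i, K.h hG i = e
  uni : ∀ i j, K.h hG i ∈ S → K.h hG i = K.h hG j → i = j
  two : ∀ i, K.h hG i ∉ S → ∃ j, j ≠ i ∧ K.h hG j = K.h hG i
  only : ∀ i j l, K.h hG i = K.h hG j → K.h hG i = K.h hG l → i = j ∨ i = l ∨ j = l

theorem Spk.rot {K : Circ G C n} {hG : G.Cubic} {S : Set E} (h : Spk K hG S)
    (d : Fin (n + 2)) : Spk (K.rot d) hG S where
  one e he := by
    obtain ⟨i, hi⟩ := h.one e he
    exact ⟨i - d, by rw [K.rot_h, sub_add_cancel, hi]⟩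
  uni i j h1 h2 := by
    rw [K.rot_h] at h1 h2
    rw [K.rot_h] at h2
    exact add_right_cancel (h.uni _ _ h1 h2)
  two i h1 := by
    rw [K.rot_h] at h1
    obtain ⟨j, hj, hj'⟩ := h.two _ h1
    refine ⟨j - d, fun h' => hj ?_, ?_⟩
    · rw [← h', sub_add_cancel]
    · rw [K.rot_h, K.rot_h, sub_add_cancel, hj']
  only i j l h1 h2 := by
    rw [K.rot_h, K.rot_h] at h1 h2
    rcases h.only _ _ _ h1 h2 with h | h | h
    · exact Or.inl (add_right_cancel h)
    · exact Or.inr (Or.inl (add_right_cancel h))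
    · exact Or.inr (Or.inr (add_right_cancel h))

open Classical in
/-- positions of spokes -/
noncomputable def spos (K : Circ G C n) (hG : G.Cubic) (S : Set E) : Finset (Fin (n + 2)) :=
  univ.filter (fun i => K.h hG i ∈ S)

theorem mem_spos {K : Circ G C n} {hG : G.Cubic} {S : Set E} {i : Fin (n + 2)} :
    i ∈ spos K hG S ↔ K.h hG i ∈ S := by
  unfold spos
  simp

theorem card_spos {K : Circ G C n} {hG : G.Cubic} {S : Set E} (h : Spk K hG S) :
    (spos K hG S).card = S.ncard := by
  rw [← Set.ncard_coe_finset]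
  refine Set.ncard_congr (fun i _ => K.h hG i) ?_ ?_ ?_
  · intro i hi
    exact mem_spos.1 hi
  · intro i j hi hj hij
    exact h.uni i j (mem_spos.1 hi) hij
  · intro e he
    obtain ⟨i, hi⟩ := h.one e he
    exact ⟨i, mem_spos.2 (hi ▸ he), hi⟩

/-- the length of the circuit has the parity of the number of spokes -/
theorem parity_spos {K : Circ G C n} {hG : G.Cubic} {S : Set E} (h : Spk K hG S) :
    n % 2 = S.ncard % 2 := by
  classical
  have h1 : ∑ i ∈ univ.filter (fun i => K.h hG i ∉ S), (1 : ZMod 2) = 0 := by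
    choose! f hf hf' using h.two
    refine Finset.sum_involution (fun i _ => f i) ?_ ?_ ?_ ?_
    · intro i _; decide
    · intro i hi _
      exact hf i (mem_filter.1 hi).2
    · intro i hi
      rw [mem_filter]
      refine ⟨mem_univ _, ?_⟩
      rw [hf' i (mem_filter.1 hi).2]
      exact (mem_filter.1 hi).2
    · intro i hi
      have hi' := (mem_filter.1 hi).2
      have hfi : K.h hG (f i) ∉ S := by rw [hf' i hi']; exact hi'
      have e1 := hf' i hi'
      have e2 := hf' (f i) hfi
      rcases h.only (f i) (f (f i)) i e2.symm e1 with h | h | h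
      · exact absurd h.symm (hf _ hfi)
      · exact absurd h (hf _ hi')
      · exact h
  have h2 := card_spos h
  have h3 : (spos K hG S).card + (univ.filter (fun i => K.h hG i ∉ S)).card = n + 2 := by
    have := Finset.card_filter_add_card_filter_not (s := (univ : Finset (Fin (n + 2))))
      (fun i => K.h hG i ∈ S)
    rw [Finset.card_univ, Fintype.card_fin] at this
    refine Eq.trans ?_ this
    unfold spos
    congr!
  have h4 : ((univ.filter (fun i => K.h hG i ∉ S)).card : ZMod 2) = 0 := by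
    rw [← h1]; simp
  rw [ZMod.natCast_eq_zero_iff_even] at h4
  obtain ⟨m, hm⟩ := h4
  omega

/-- three spokes at positions of alternating parities -/
def Good3 (K : Circ G C n) (hG : G.Cubic) (S : Set E) : Prop :=
  ∃ p q r, p < q ∧ q < r ∧ K.h hG p ∈ S ∧ K.h hG q ∈ S ∧ K.h hG r ∈ S ∧
    p.1 % 2 ≠ q.1 % 2 ∧ q.1 % 2 ≠ r.1 % 2

/-- all spokes at even positions -/
def EvenPos (K : Circ G C n) (hG : G.Cubic) (S : Set E) : Prop :=
  ∀ i, K.h hG i ∈ S → i.1 % 2 = 0

theorem fin_add_val {m : ℕ} (i d : Fin (m + 2)) :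
    (i + d).1 = if i.1 + d.1 < m + 2 then i.1 + d.1 else i.1 + d.1 - (m + 2) := by
  rw [Fin.val_add]
  have := i.2
  have := d.2
  split_ifs with h
  · exact Nat.mod_eq_of_lt h
  · rw [Nat.mod_eq_sub_mod (by omega), Nat.mod_eq_of_lt (by omega)]

/-- an odd circuit with a spoke: there are three spokes at positions of alternating parities or
after a rotation all spokes are at even positions -/
theorem good3_or_even (K : Circ G C n) {hG : G.Cubic} {S : Set E} (hn : n % 2 = 1)
    (hS : ∃ i, K.h hG i ∈ S) : (∃ d, Good3 (K.rot d) hG S) ∨ ∃ d, EvenPos (K.rot d) hG S := by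
  classical
  obtain ⟨i₀, hi₀⟩ := hS
  by_cases hodd : ∃ u : Fin (n + 2), u.1 % 2 = 1 ∧ (K.rot i₀).h hG u ∈ S
  · have hex : ∃ m : ℕ, ∃ u : Fin (n + 2), u.1 = m ∧ u.1 % 2 = 1 ∧ (K.rot i₀).h hG u ∈ S := by
      obtain ⟨u, hu⟩ := hodd
      exact ⟨u.1, u, rfl, hu⟩
    obtain ⟨u, hu1, hu2, hu3⟩ := Nat.find_spec hex
    have hmin : ∀ j : Fin (n + 2), j.1 < u.1 → (K.rot i₀).h hG j ∈ S → j.1 % 2 = 0 := by
      intro j hj hjS
      by_contra hne
      exact Nat.find_min hex (by rw [← hu1]; exact hj) ⟨j, rfl, by omega, hjS⟩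
    by_cases hlate : ∃ r : Fin (n + 2), u < r ∧ r.1 % 2 = 0 ∧ (K.rot i₀).h hG r ∈ S
    · obtain ⟨r, hr1, hr2, hr3⟩ := hlate
      refine Or.inl ⟨i₀, 0, u, r, ?_, hr1, ?_, hu3, hr3, ?_, ?_⟩
      · rw [Fin.lt_def]
        have h0 : (0 : Fin (n + 2)).1 = 0 := rfl
        omega
      · rw [K.rot_h, zero_add]
        exact hi₀
      · have h0 : (0 : Fin (n + 2)).1 = 0 := rfl
        omega
      · omega
    · right
      refine ⟨u + i₀, fun i hi => ?_⟩
      have h1 : (K.rot i₀).h hG (i + u) ∈ S := by
        rw [K.rot_h, add_assoc, ← K.rot_h]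
        exact hi
      have hv := fin_add_val i u
      have hi2 := i.2
      have hu4 := u.2
      by_cases hc : i.1 + u.1 < n + 2
      · rw [if_pos hc] at hv
        by_contra hne
        refine hlate ⟨i + u, ?_, ?_, h1⟩
        · rw [Fin.lt_def, hv]
          omega
        · omega
      · rw [if_neg hc] at hv
        have := hmin (i + u) (by omega) h1
        omega
  · right
    refine ⟨i₀, fun i hi => ?_⟩
    by_contra hne
    exact hodd ⟨i, by omega, hi⟩

/-- spokes at even positions: there are at most half of them -/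
theorem card_even_pos {K : Circ G C n} {hG : G.Cubic} {S : Set E} (h : Spk K hG S)
    (he : EvenPos K hG S) : 2 * S.ncard ≤ n + 3 := by
  classical
  rw [← card_spos h]
  have h1 : (spos K hG S).card ≤ (range ((n + 3) / 2)).card := by
    refine Finset.card_le_card_of_injOn (fun i => i.1 / 2) ?_ ?_
    · intro i hi
      have := he i (mem_spos.1 hi)
      have := i.2
      simp only [coe_range, Set.mem_Iio]
      omega
    · intro i hi j hj hij
      have h1 := he i (mem_spos.1 hi)
      have h2 := he j (mem_spos.1 hj)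
      simp only at hij
      exact Fin.ext (by omega)
  rw [card_range] at h1
  omega

/-! ### local solutions -/

/-- the labels of three edges -/
def lab3 [DecidableEq E] (e : Fin 3 → E) (x : E) : F4 :=
  ∑ r : Fin 3, if x = e r then th (r : ZMod 3) else 0

theorem walk3 : ∀ a b c : ZMod 3, a ≠ b → a ≠ c → b ≠ c → ∀ q : Fin 4,
    th b + ∑ r ∈ univ.filter (fun r : Fin 3 => r.1 < q.1), th ((![a, b, c] : Fin 3 → ZMod 3) r) ≠ 0 := by
  decide

theorem th_ne_zero (a : ZMod 3) : th a ≠ 0 := by revert a; decide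

theorem cost3 (f : Fin 3 → ℕ) : ∃ τ : ZMod 2,
    (univ.filter (fun r : Fin 3 => ((f r : ℕ) : ZMod 2) = τ)).card ≤ 1 := by
  by_contra hcon
  push Not at hcon
  have h0 := hcon 0
  have h1 := hcon 1
  have h2 := Finset.card_filter_add_card_filter_not (s := (univ : Finset (Fin 3)))
    (fun r : Fin 3 => ((f r : ℕ) : ZMod 2) = 0)
  have h3 : univ.filter (fun r : Fin 3 => ¬ ((f r : ℕ) : ZMod 2) = 0) =
      univ.filter (fun r : Fin 3 => ((f r : ℕ) : ZMod 2) = 1) := by
    refine Finset.filter_congr (fun r _ => ?_)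
    generalize ((f r : ℕ) : ZMod 2) = z
    revert z
    decide
  rw [h3, Finset.card_univ, Fintype.card_fin] at h2
  omega

open Classical in
/-- three spokes: at most one missed vertex on an odd circuit -/
theorem loc3 (K : Circ G C n) {hG : G.Cubic} {S : Set E} (hS : Spk K hG S) (hn : n % 2 = 1)
    (e : Fin 3 → E) (he : Function.Injective e) (heS : ∀ r, e r ∈ S) (w : E → F4)
    (hw : ∀ i, w (K.h hG i) = lab3 e (K.h hG i)) : LocJ G C w 1 := by
  choose P hP using fun r => hS.one (e r) (heS r)
  have hPinj : Function.Injective P := by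
    intro r r' h
    apply he
    rw [← hP r, ← hP r', h]
  set σ := Tuple.sort P with hσ
  have hmono : StrictMono (P ∘ σ) :=
    (Tuple.monotone_sort P).strictMono_of_injective (hPinj.comp σ.injective)
  obtain ⟨τ, hτ⟩ := cost3 (fun r => ((P ∘ σ) r).1 + r.1)
  have hPe : ∀ i r, K.h hG i = e r ↔ P r = i := by
    intro i r
    constructor
    · intro h
      refine hS.uni _ _ (by rw [hP]; exact heS r) ?_
      rw [hP, h]
    · rintro rfl
      exact hP r
  have hσ3 : ∀ r r' : Fin 3, r ≠ r' → (σ r : ZMod 3) ≠ (σ r' : ZMod 3) := by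
    intro r r' h h'
    exact h (σ.injective h')
  have hcc : ∀ r : Fin 3, (σ r : ZMod 3) = (![σ 0, σ 1, σ 2] : Fin 3 → ZMod 3) r := by
    intro r
    fin_cases r <;> rfl
  have key := locJ_of_pos hG K w (P ∘ σ) hmono (fun r => th (σ r : ZMod 3))
    (fun r => th_ne_zero _) (fun i => ?_) (th (σ 1 : ZMod 3)) (fun q hq => ?_) ?_ ?_ τ
  · obtain ⟨x, t, h1, h2, h3⟩ := key
    exact ⟨x, t, h1, h2, h3.trans hτ⟩
  · rw [hw]
    unfold lab3
    rw [← Equiv.sum_comp σ]
    refine Finset.sum_congr rfl (fun r _ => if_congr ?_ rfl rfl)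
    rw [hPe]
    rfl
  · have h := walk3 (σ 0) (σ 1) (σ 2) (hσ3 0 1 (by decide)) (hσ3 0 2 (by decide))
      (hσ3 1 2 (by decide)) ⟨q, by omega⟩
    rw [Finset.sum_congr rfl (fun r _ => by rw [hcc r])]
    exact h
  · have h := Equiv.sum_comp σ (fun r : Fin 3 => th (r : ZMod 3))
    refine h.trans ?_
    decide
  · rw [Nat.even_add]
    constructor
    · intro h
      rw [Nat.even_iff] at h
      omega
    · intro h
      exact absurd h (by decide)

open Classical in
/-- three spokes at positions of alternating parities: no missed vertex -/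
theorem loc3_good (K : Circ G C n) {hG : G.Cubic} {S : Set E} (hS : Spk K hG S) (hn : n % 2 = 1)
    (h : Good3 K hG S) : ∃ e : Fin 3 → E, Function.Injective e ∧ (∀ r, e r ∈ S) ∧
      LocJ G C (lab3 e) 0 := by
  obtain ⟨p, q, r, hpq, hqr, hp, hq, hr, h1, h2⟩ := h
  have hinj : Function.Injective (![K.h hG p, K.h hG q, K.h hG r] : Fin 3 → E) := by
    have a1 : K.h hG p ≠ K.h hG q := fun h => hpq.ne (hS.uni _ _ hp h)
    have a2 : K.h hG p ≠ K.h hG r := fun h => (hpq.trans hqr).ne (hS.uni _ _ hp h)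
    have a3 : K.h hG q ≠ K.h hG r := fun h => hqr.ne (hS.uni _ _ hq h)
    intro i j hij
    fin_cases i <;> fin_cases j
    · rfl
    · exact absurd hij a1
    · exact absurd hij a2
    · exact absurd hij.symm a1
    · rfl
    · exact absurd hij a3
    · exact absurd hij.symm a2
    · exact absurd hij.symm a3
    · rfl
  refine ⟨![K.h hG p, K.h hG q, K.h hG r], hinj, ?_, ?_⟩
  · intro i
    fin_cases i
    · exact hp
    · exact hq
    · exact hr
  · have hmono : StrictMono (![p, q, r] : Fin 3 → Fin (n + 2)) := by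
      rw [Fin.strictMono_iff_lt_succ]
      intro i
      fin_cases i
      · exact hpq
      · exact hqr
    have key := locJ_of_pos hG K (lab3 ![K.h hG p, K.h hG q, K.h hG r]) ![p, q, r] hmono
      (fun r => th (r : ZMod 3)) (fun r => th_ne_zero _) (fun i => ?_) (th 1) (fun q hq => ?_) ?_ ?_
      (((p.1 + 1 : ℕ) : ZMod 2))
    · obtain ⟨x, t, h3, h4, h5⟩ := key
      refine ⟨x, t, h3, h4, h5.trans ?_⟩
      rw [Nat.le_zero, Finset.card_eq_zero, Finset.filter_eq_empty_iff]
      intro i _
      rw [ZMod.natCast_eq_natCast_iff, Nat.ModEq]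
      fin_cases i
      · show ¬ ((p.1 + 0) % 2 = (p.1 + 1) % 2)
        omega
      · show ¬ ((q.1 + 1) % 2 = (p.1 + 1) % 2)
        omega
      · show ¬ ((r.1 + 2) % 2 = (p.1 + 1) % 2)
        omega
    · unfold lab3
      refine Finset.sum_congr rfl (fun j _ => if_congr ?_ rfl rfl)
      fin_cases j
      · exact ⟨fun h => (hS.uni _ _ (by show K.h hG p ∈ S; exact hp) (Eq.symm h)), fun h => by
          rw [← h]; rfl⟩
      · exact ⟨fun h => (hS.uni _ _ (by show K.h hG q ∈ S; exact hq) (Eq.symm h)), fun h => by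
          rw [← h]; rfl⟩
      · exact ⟨fun h => (hS.uni _ _ (by show K.h hG r ∈ S; exact hr) (Eq.symm h)), fun h => by
          rw [← h]; rfl⟩
    · have h := walk3 0 1 2 (by decide) (by decide) (by decide) ⟨q, by omega⟩
      have h3 : ∀ r : Fin 3, th ((![0, 1, 2] : Fin 3 → ZMod 3) r) = th (r : ZMod 3) := by decide
      intro h'
      apply h
      refine Eq.trans ?_ h'
      congr 1
      exact Finset.sum_congr rfl (fun r _ => h3 r)
    · decide
    · rw [Nat.even_add]
      constructor
      · intro h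
        rw [Nat.even_iff] at h
        omega
      · intro h
        exact absurd h (by decide)

end

end Pool.Agent.CDC
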