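import Pool.Agent.CDC.TriForm

/-!
# Closed labels from pairs of positions on two circuits
-/

set_option autoImplicit false

namespace Pool.Agent.CDC

open Finset

section

variable {V : Type} [Fintype V] [DecidableEq V] {N : ℕ}

/-- partial sums of the labels -/
def labX (ψ : V → Fin N) (side : V → ZMod 2) (b : V → V → ZMod 2) (y : Fin N → ZMod 3) (s : F4)
    (u : V) : F4 :=
  (if side u = 0 then 0 else s) + ∑ u', if b u' u = 0 then 0 else th (y (ψ u'))

theorem om_labX (ψ : V → Fin N) (side : V → ZMod 2) (b : V → V → ZMod 2) (y : Fin N → ZMod 3)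
    (s : F4) (u : V) (a : ZMod 3) : om (th a) (labX ψ side b y s u) =
      side u * om (th a) s + ∑ u', b u' u * ne3 a (y (ψ u')) := by
  unfold labX
  have h : ∀ z : ZMod 2, z = 0 ∨ z = 1 := by decide
  rw [om_add_right, om_sum_right]
  congr 1
  · rcases h (side u) with h | h
    · rw [h]; simp
    · rw [h, if_neg (by decide), one_mul]
  · refine Finset.sum_congr rfl (fun u' _ => ?_)
    rcases h (b u' u) with h | h
    · rw [h]; simp
    · rw [h, if_neg (by decide), one_mul, om_th_th]

theorem sum_pair {A : Type} [AddCommMonoid A] {P : V → Prop} [DecidablePred P] {u w : V}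
    (huw : u ≠ w) (h : ∀ x, P x ↔ x = u ∨ x = w) (φ : V → A) :
    ∑ x ∈ univ.filter P, φ x = φ u + φ w := by
  have h1 : univ.filter P = {u, w} := by
    ext x
    rw [mem_filter, h x]
    simp
  rw [h1, Finset.sum_pair huw]

/-- the interaction matrix -/
def labB (ψ : V → Fin N) (b : V → V → ZMod 2) (i j : Fin N) : ZMod 2 :=
  ∑ u ∈ univ.filter (fun u => ψ u = i), ∑ u' ∈ univ.filter (fun u => ψ u = j), b u' u

/-- the vector of spokes -/
def labZ (ψ : V → Fin N) (side : V → ZMod 2) (i : Fin N) : ZMod 2 :=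
  ∑ u ∈ univ.filter (fun u => ψ u = i), side u

theorem closed_labels (ψ : V → Fin N)
    (hψ : ∀ i, ∃ u w, u ≠ w ∧ ∀ x, ψ x = i ↔ x = u ∨ x = w) (side : V → ZMod 2)
    (b : V → V → ZMod 2) (hb : ∀ u w, u ≠ w → b u w + b w u = 1 + side u + side w)
    (hk : (univ.filter (fun i => labZ ψ side i ≠ 0)).card % 4 ≠ 1) :
    ∃ (y : Fin N → ZMod 3) (s : F4),
      (∀ σ : ZMod 2, ∑ u, (if side u = σ then th (y (ψ u)) else 0) = 0) ∧
      ∀ u w, ψ u = ψ w → om (th (y (ψ u))) (labX ψ side b y s u) =
        om (th (y (ψ w))) (labX ψ side b y s w) := by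
  have hsym : ∀ i j, labB ψ b i j = labB ψ b j i := by
    intro i j
    by_cases hij : i = j
    · rw [hij]
    obtain ⟨u, w, huw, hi⟩ := hψ i
    obtain ⟨u', w', huw', hj⟩ := hψ j
    unfold labB
    rw [sum_pair huw hi, sum_pair huw' hj, sum_pair huw' hj, sum_pair huw' hj, sum_pair huw hi,
      sum_pair huw hi]
    have d1 : ∀ x x', ψ x = i → ψ x' = j → x' ≠ x := by
      intro x x' h1 h2 h3
      rw [h3, h1] at h2
      exact hij h2
    have c1 := hb _ _ (d1 u u' ((hi u).2 (Or.inl rfl)) ((hj u').2 (Or.inl rfl)))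
    have c2 := hb _ _ (d1 u w' ((hi u).2 (Or.inl rfl)) ((hj w').2 (Or.inr rfl)))
    have c3 := hb _ _ (d1 w u' ((hi w).2 (Or.inr rfl)) ((hj u').2 (Or.inl rfl)))
    have c4 := hb _ _ (d1 w w' ((hi w).2 (Or.inr rfl)) ((hj w').2 (Or.inr rfl)))
    revert c1 c2 c3 c4
    generalize b u' u = x1
    generalize b u u' = x2
    generalize b w' u = x3
    generalize b u w' = x4
    generalize b u' w = x5
    generalize b w u' = x6
    generalize b w' w = x7
    generalize b w w' = x8
    generalize side u = s1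
    generalize side w = s2
    generalize side u' = s3
    generalize side w' = s4
    intro c1 c2 c3 c4
    have h2 : (2 : ZMod 2) = 0 := by decide
    linear_combination c1 + c2 + c3 + c4 - (x2 + x4 + x6 + x8) * h2 + (2 + s1 + s2 + s3 + s4) * h2
  obtain ⟨y, s, hy1, hy2⟩ := exists_closed (labB ψ b) hsym (labZ ψ side) hk
  refine ⟨y, s, ?_, ?_⟩
  · intro σ
    rw [← Finset.sum_fiberwise univ ψ]
    refine Eq.trans ?_ hy1
    unfold tot
    refine Finset.sum_congr rfl (fun i _ => ?_)
    obtain ⟨u, w, huw, hi⟩ := hψ i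
    unfold labZ
    rw [sum_pair huw hi, sum_pair huw hi, (hi u).2 (Or.inl rfl), (hi w).2 (Or.inr rfl)]
    generalize side u = s1
    generalize side w = s2
    generalize y i = a
    revert σ s1 s2 a
    decide
  · intro u w huw
    by_cases hne : u = w
    · rw [hne]
    obtain ⟨u', w', huw', hi⟩ := hψ (ψ u)
    have h1 : ∑ x ∈ univ.filter (fun x => ψ x = ψ u), om (th (y (ψ u))) (labX ψ side b y s x) = 0 := by
      rw [← hy2 (ψ u)]
      have e1 : Cond (labB ψ b) y (ψ u) = ∑ x ∈ univ.filter (fun x => ψ x = ψ u),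
          ∑ u', b u' x * ne3 (y (ψ u)) (y (ψ u')) := by
        unfold Cond labB
        rw [Finset.sum_congr rfl (fun j _ => Finset.sum_mul _ _ _), Finset.sum_comm]
        refine Finset.sum_congr rfl (fun x _ => ?_)
        rw [← Finset.sum_fiberwise univ ψ (fun u' => b u' x * ne3 (y (ψ u)) (y (ψ u')))]
        refine Finset.sum_congr rfl (fun j _ => ?_)
        rw [Finset.sum_mul]
        refine Finset.sum_congr rfl (fun x' hx' => ?_)
        rw [(mem_filter.1 hx').2]
      have e2 : labZ ψ side (ψ u) * om (th (y (ψ u))) s =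
          ∑ x ∈ univ.filter (fun x => ψ x = ψ u), side x * om (th (y (ψ u))) s := by
        unfold labZ
        rw [Finset.sum_mul]
      rw [e1, e2, ← Finset.sum_add_distrib]
      refine Finset.sum_congr rfl (fun x _ => ?_)
      rw [om_labX, add_comm]
    have hi' : ∀ x, ψ x = ψ u ↔ x = u ∨ x = w := by
      intro x
      rw [hi x]
      have h3 := (hi u).1 rfl
      have h4 := (hi w).1 huw.symm
      rcases h3 with h3 | h3 <;> rcases h4 with h4 | h4
      · exact absurd (h3.trans h4.symm) hne
      · rw [h3, h4]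
      · rw [h3, h4]; exact or_comm
      · exact absurd (h3.trans h4.symm) hne
    rw [sum_pair hne hi'] at h1
    rw [← huw]
    exact CharTwo.add_eq_zero.1 h1

end

end Pool.Agent.CDC
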