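import Pool.Agent.CDC.TwoClass
import Pool.Agent.CDC.Cut

/-!
# `2`-factors with at most two circuits: the main theorem
-/

set_option autoImplicit false

namespace Pool.Agent.CDC

open Finset

namespace MGraph

variable {V E : Type} (G : MGraph V E)

/-- the edges with an end in `verts C₁` and an end in `verts C₂` -/
def joining (C₁ C₂ : Set E) : Set E :=
  {e | (∃ u ∈ G.verts C₁, G.inc u e) ∧ ∃ w ∈ G.verts C₂, G.inc w e}

end MGraph

section

variable {V E : Type} [Fintype V] [Fintype E] {G : MGraph V E} {C : Set E} {n : ℕ}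

open Classical in
/-- nine vertices, five spokes at the even positions: with a chord no vertex is missed -/
theorem loc_nine (K : Circ G C 7) {hG : G.Cubic} {S : Set E} (hS : Spk K hG S)
    (he : EvenPos K hG S) (hk : S.ncard = 5) :
    ∃ e : Fin 3 → E, Function.Injective e ∧ (∀ r, e r ∈ S) ∧ ∃ ch : E, ch ∉ S ∧
      (∃ i, K.h hG i = ch) ∧ LocJ G C (fun x => lab3 e x + if x = ch then th 0 else 0) 0 := by
  have hall : ∀ i : Fin 9, i.1 % 2 = 0 → K.h hG i ∈ S := by
    have h1 : spos K hG S ⊆ univ.filter (fun i : Fin 9 => i.1 % 2 = 0) := by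
      intro i hi
      rw [mem_filter]
      exact ⟨mem_univ _, he i (mem_spos.1 hi)⟩
    have h2 : (univ.filter (fun i : Fin 9 => i.1 % 2 = 0)).card = 5 := by decide
    have h3 := Finset.eq_of_subset_of_card_le h1 (by rw [h2, card_spos hS, hk])
    intro i hi
    have h4 : i ∈ spos K hG S := by
      rw [h3, mem_filter]
      exact ⟨mem_univ _, hi⟩
    exact mem_spos.1 h4
  have hc1 : K.h hG 1 ∉ S := fun h => absurd (he 1 h) (by decide)
  obtain ⟨j, hj1, hj2⟩ := hS.two 1 hc1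
  have hjS : K.h hG j ∉ S := by rw [hj2]; exact hc1
  have hjodd : j.1 % 2 = 1 := by
    by_contra h
    exact hjS (hall j (by omega))
  have hj3 : 3 ≤ j.1 := by
    have h1 : j.1 ≠ 1 := fun h => hj1 (Fin.ext h)
    omega
  have hj9 := j.2
  obtain ⟨j', hj'⟩ : ∃ j' : Fin 9, j'.1 = j.1 + 1 := ⟨⟨j.1 + 1, by omega⟩, rfl⟩
  have s0 : K.h hG 0 ∈ S := hall 0 (by decide)
  have s2 : K.h hG 2 ∈ S := hall 2 (by decide)
  have sj : K.h hG j' ∈ S := hall j' (by omega)
  have hmono : StrictMono (![0, 1, 2, j, j'] : Fin 5 → Fin 9) := by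
    rw [Fin.strictMono_iff_lt_succ]
    intro i
    fin_cases i
    · show (0 : Fin 9) < 1
      decide
    · show (1 : Fin 9) < 2
      decide
    · show (2 : Fin 9) < j
      rw [Fin.lt_def]
      show 2 < j.1
      omega
    · show j < j'
      rw [Fin.lt_def]
      omega
  have h20 : (2 : Fin 9) ≠ 0 := by decide
  have h2j : (2 : Fin 9) ≠ j' := by
    intro h
    have : (2 : Fin 9).1 = j'.1 := by rw [h]
    simp at this
    omega
  have h0j : j' ≠ (0 : Fin 9) := by
    intro h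
    have : (0 : Fin 9).1 = j'.1 := by rw [h]
    simp at this
    omega
  refine ⟨![K.h hG 2, K.h hG j', K.h hG 0], ?_, ?_, K.h hG 1, hc1, ⟨1, rfl⟩, ?_⟩
  · have a1 : K.h hG 2 ≠ K.h hG j' := fun h => h2j (hS.uni _ _ s2 h)
    have a2 : K.h hG 2 ≠ K.h hG 0 := fun h => h20 (hS.uni _ _ s2 h)
    have a3 : K.h hG j' ≠ K.h hG 0 := fun h => h0j (hS.uni _ _ sj h)
    intro i j hij
    fin_cases i <;> fin_cases j
    · rfl
    · exact absurd hij a1
    · exact absurd hij a2
    · exact absurd hij.symm a1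
    · rfl
    · exact absurd hij a3
    · exact absurd hij.symm a2
    · exact absurd hij.symm a3
    · rfl
  · intro i
    fin_cases i
    · exact s2
    · exact sj
    · exact s0
  · have key := locJ_of_pos hG K (fun x => lab3 ![K.h hG 2, K.h hG j', K.h hG 0] x +
      if x = K.h hG 1 then th 0 else 0) ![0, 1, 2, j, j'] hmono
      ![th 2, th 0, th 0, th 0, th 1] (by decide) (fun i => ?_) (th 0) (fun q hq => ?_)
      (by decide) (by decide) 1
    · obtain ⟨x, t, h3, h4, h5⟩ := key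
      refine ⟨x, t, h3, h4, h5.trans ?_⟩
      rw [Nat.le_zero, Finset.card_eq_zero, Finset.filter_eq_empty_iff]
      intro i _
      have h1 : ((1 : ℕ) : ZMod 2) = 1 := by simp
      rw [← h1, ZMod.natCast_eq_natCast_iff, Nat.ModEq]
      fin_cases i
      · show ¬ ((0 + 0) % 2 = 1 % 2)
        omega
      · show ¬ ((1 + 1) % 2 = 1 % 2)
        omega
      · show ¬ ((2 + 2) % 2 = 1 % 2)
        omega
      · show ¬ ((j.1 + 3) % 2 = 1 % 2)
        omega
      · show ¬ ((j'.1 + 4) % 2 = 1 % 2)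
        omega
    · have e0 : K.h hG i = K.h hG 0 ↔ (0 : Fin 9) = i :=
        ⟨fun h => hS.uni _ _ s0 h.symm, fun h => by rw [← h]⟩
      have e2 : K.h hG i = K.h hG 2 ↔ (2 : Fin 9) = i :=
        ⟨fun h => hS.uni _ _ s2 h.symm, fun h => by rw [← h]⟩
      have ej : K.h hG i = K.h hG j' ↔ j' = i :=
        ⟨fun h => hS.uni _ _ sj h.symm, fun h => by rw [← h]⟩
      have e1 : (if K.h hG i = K.h hG 1 then th 0 else 0) =
          (if (1 : Fin 9) = i then th 0 else 0) + (if j = i then th 0 else 0) := by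
        by_cases h1 : (1 : Fin 9) = i
        · rw [if_pos (by rw [← h1]), if_pos h1, if_neg (fun h => hj1 (h.trans h1.symm)), add_zero]
        · by_cases h2 : j = i
          · rw [if_pos (by rw [← h2, hj2]), if_neg h1, if_pos h2, zero_add]
          · rw [if_neg, if_neg h1, if_neg h2, add_zero]
            intro h
            rcases hS.only 1 j i hj2.symm h.symm with h' | h' | h'
            · exact hj1 h'.symm
            · exact h1 h'
            · exact h2 h'
      rw [e1]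
      unfold lab3
      rw [Fin.sum_univ_three, Fin.sum_univ_five]
      have g1 : (if K.h hG i = (![K.h hG 2, K.h hG j', K.h hG 0] : Fin 3 → E) 0 then
        th ((0 : Fin 3) : ZMod 3) else 0) = if (2 : Fin 9) = i then th 0 else 0 := if_congr e2 rfl rfl
      have g2 : (if K.h hG i = (![K.h hG 2, K.h hG j', K.h hG 0] : Fin 3 → E) 1 then
        th ((1 : Fin 3) : ZMod 3) else 0) = if j' = i then th 1 else 0 := if_congr ej rfl rfl
      have g3 : (if K.h hG i = (![K.h hG 2, K.h hG j', K.h hG 0] : Fin 3 → E) 2 then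
        th ((2 : Fin 3) : ZMod 3) else 0) = if (0 : Fin 9) = i then th 2 else 0 := if_congr e0 rfl rfl
      rw [g1, g2, g3]
      show _ = (if (0 : Fin 9) = i then th 2 else 0) + (if (1 : Fin 9) = i then th 0 else 0) +
        (if (2 : Fin 9) = i then th 0 else 0) + (if j = i then th 0 else 0) +
        (if j' = i then th 1 else 0)
      abel
    · have h : ∀ q : Fin 6, th 0 + ∑ r ∈ univ.filter (fun r : Fin 5 => r.1 < q.1),
          (![th 2, th 0, th 0, th 0, th 1] : Fin 5 → F4) r ≠ 0 := by decide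
      exact h ⟨q, by omega⟩

theorem jmain_two (hG : G.Cubic) {C₁ C₂ : Set E} (h1 : G.IsCircuit C₁) (h2 : G.IsCircuit C₂)
    (hall : ∀ v, v ∉ G.verts C₂ ↔ v ∈ G.verts C₁) (w : E → F4) {b₁ b₂ : ℕ}
    (l1 : LocJ G C₁ w b₁) (l2 : LocJ G C₂ w b₂) :
    ∃ D : Fin 5 → Set E, G.IsCDC D ∧ {v | v ∉ G.verts (D 0)}.ncard ≤ b₁ + b₂ := by
  have h := jmain hG (![C₁, C₂] : Fin 2 → Set E) (by
    intro i
    fin_cases i
    · exact h1
    · exact h2) (by
    intro v
    by_cases hv : v ∈ G.verts C₁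
    · refine ⟨0, hv, fun i hi => ?_⟩
      fin_cases i
      · rfl
      · exact absurd hi ((hall v).2 hv)
    · have hv2 : v ∈ G.verts C₂ := by
        by_contra h'
        exact hv ((hall v).1 h')
      refine ⟨1, hv2, fun i hi => ?_⟩
      fin_cases i
      · exact absurd hi hv
      · rfl) w ![b₁, b₂] (by
    intro i
    fin_cases i
    · exact l1
    · exact l2)
  obtain ⟨D, hD, hD'⟩ := h
  refine ⟨D, hD, hD'.trans ?_⟩
  rw [Fin.sum_univ_two]
  rfl

theorem MGraph.joining_comm (G : MGraph V E) (C₁ C₂ : Set E) :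
    G.joining C₁ C₂ = G.joining C₂ C₁ := by
  ext e
  exact and_comm

theorem three_ends {e : E} {a b c : V} (ha : G.inc a e) (hb : G.inc b e) (hc : G.inc c e) :
    a = b ∨ a = c ∨ b = c := by
  obtain ⟨u, w, -, hS⟩ := Set.ncard_eq_two.1 (G.two e)
  have h : ∀ x, G.inc x e → x = u ∨ x = w := by
    intro x hx
    have : x ∈ {v | G.inc v e} := hx
    rw [hS] at this
    simpa using this
  rcases h a ha with h1 | h1 <;> rcases h b hb with h2 | h2 <;> rcases h c hc with h3 | h3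
  · exact Or.inl (h1.trans h2.symm)
  · exact Or.inl (h1.trans h2.symm)
  · exact Or.inr (Or.inl (h1.trans h3.symm))
  · exact Or.inr (Or.inr (h2.trans h3.symm))
  · exact Or.inr (Or.inr (h2.trans h3.symm))
  · exact Or.inr (Or.inl (h1.trans h3.symm))
  · exact Or.inl (h1.trans h2.symm)
  · exact Or.inl (h1.trans h2.symm)

theorem spk_joining (K : Circ G C n) (hG : G.Cubic) {C' : Set E}
    (hall : ∀ v, v ∉ G.verts C' ↔ v ∈ G.verts C) : Spk K hG (G.joining C C') where
  one e he := by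
    obtain ⟨⟨u, hu, hue⟩, w, hw, hwe⟩ := he
    obtain ⟨i, rfl⟩ := (K.mem_verts u).1 hu
    have heC : e ∉ C := fun h => (hall w).2 ⟨e, h, hwe⟩ hw
    exact ⟨i, ((K.not_mem_inc hG i e).1 ⟨heC, hue⟩).symm⟩
  uni i j hi hij := by
    obtain ⟨-, w, hw, hwe⟩ := hi
    have h1 := K.h_inc hG i
    have h2 : G.inc (K.v j) (K.h hG i) := by
      rw [hij]; exact K.h_inc hG j
    rcases three_ends h1 h2 hwe with h | h | h
    · exact K.vinj h
    · exact absurd hw ((hall w).2 (h ▸ (K.mem_verts _).2 ⟨i, rfl⟩))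
    · exact absurd hw ((hall w).2 (h ▸ (K.mem_verts _).2 ⟨j, rfl⟩))
  two i hi := by
    obtain ⟨w, hw, hx⟩ := other_end G (K.h_inc hG i)
    have hwe : G.inc w (K.h hG i) := (hx w).2 (Or.inr rfl)
    have hw' : w ∈ G.verts C := by
      by_contra h
      apply hi
      refine ⟨⟨_, (K.mem_verts _).2 ⟨i, rfl⟩, K.h_inc hG i⟩, w, ?_, hwe⟩
      by_contra h'
      exact h ((hall w).1 h')
    obtain ⟨j, rfl⟩ := (K.mem_verts w).1 hw'
    exact ⟨j, fun h => hw (by rw [h]), ((K.not_mem_inc hG j _).1 ⟨K.h_notMem hG i, hwe⟩).symm⟩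
  only i j l hij hil := by
    have h1 := K.h_inc hG i
    have h2 : G.inc (K.v j) (K.h hG i) := by
      rw [hij]; exact K.h_inc hG j
    have h3 : G.inc (K.v l) (K.h hG i) := by
      rw [hil]; exact K.h_inc hG l
    rcases three_ends h1 h2 h3 with h | h | h
    · exact Or.inl (K.vinj h)
    · exact Or.inr (Or.inl (K.vinj h))
    · exact Or.inr (Or.inr (K.vinj h))

open Classical in
/-- at most one missed vertex if the spokes of one circuit are at positions of alternating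
parities -/
theorem class_good (hG : G.Cubic) {C₁ C₂ : Set E} (hall : ∀ v, v ∉ G.verts C₂ ↔ v ∈ G.verts C₁)
    {n₁ n₂ : ℕ} (K₁ : Circ G C₁ n₁) (K₂ : Circ G C₂ n₂) (h1 : n₁ % 2 = 1) (h2 : n₂ % 2 = 1)
    (s1 : Spk K₁ hG (G.joining C₁ C₂)) (s2 : Spk K₂ hG (G.joining C₁ C₂))
    (hg : Good3 K₁ hG (G.joining C₁ C₂)) (c1 : G.IsCircuit C₁) (c2 : G.IsCircuit C₂) :
    ∃ D : Fin 5 → Set E, G.IsCDC D ∧ {v | v ∉ G.verts (D 0)}.ncard ≤ 1 := by
  obtain ⟨e, he, heS, l1⟩ := loc3_good K₁ s1 h1 hg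
  exact jmain_two hG c1 c2 hall (lab3 e) l1 (loc3 K₂ s2 h2 e he heS (lab3 e) (fun _ => rfl))

theorem ncard_verts_circ (K : Circ G C n) : (G.verts C).ncard = n + 2 := by
  have h1 : G.verts C = Set.range K.v := by
    ext w
    rw [K.mem_verts]
    rfl
  rw [h1, ← Set.image_univ, Set.ncard_image_of_injective _ K.vinj, Set.ncard_univ]
  simp

/-- two circuits which cover all vertices, the number of joining edges is `1` modulo `4` but not
`1` -/
theorem class_one (hG : G.Cubic) {C₁ C₂ : Set E} (hall : ∀ v, v ∉ G.verts C₂ ↔ v ∈ G.verts C₁)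
    (c1 : G.IsCircuit C₁) (c2 : G.IsCircuit C₂) (hk : (G.joining C₁ C₂).ncard % 4 = 1)
    (hk1 : (G.joining C₁ C₂).ncard ≠ 1) :
    ∃ D : Fin 5 → Set E, G.IsCDC D ∧ {v | v ∉ G.verts (D 0)}.ncard ≤ 2 ∧
      10 * {v | v ∉ G.verts (D 0)}.ncard ≤ Fintype.card V := by
  classical
  obtain ⟨n₁, ⟨K₁⟩⟩ := c1.circ
  obtain ⟨n₂, ⟨K₂⟩⟩ := c2.circ
  have hall' : ∀ v, v ∉ G.verts C₁ ↔ v ∈ G.verts C₂ := by
    intro v
    rw [← hall, not_not]
  have s1 := spk_joining K₁ hG hall
  have s2 := spk_joining K₂ hG hall'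
  rw [G.joining_comm C₂ C₁] at s2
  set S := G.joining C₁ C₂ with hS
  have p1 := parity_spos s1
  have p2 := parity_spos s2
  have hn1 : n₁ % 2 = 1 := by omega
  have hn2 : n₂ % 2 = 1 := by omega
  have hcard : n₁ + 2 + (n₂ + 2) = Fintype.card V := by
    rw [← ncard_verts_circ K₁, ← ncard_verts_circ K₂, ← Set.ncard_union_eq]
    · rw [← Nat.card_eq_fintype_card, ← Set.ncard_univ]
      congr 1
      ext v
      simp only [Set.mem_union, Set.mem_univ, iff_true]
      by_cases h : v ∈ G.verts C₁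
      · exact Or.inl h
      · exact Or.inr ((hall' v).1 h)
    · rw [Set.disjoint_left]
      intro v h1 h2
      exact (hall v).2 h1 h2
  have l1 : S.ncard ≤ n₁ + 2 := by
    rw [← card_spos s1]
    exact (Finset.card_le_univ _).trans (by simp)
  have l2 : S.ncard ≤ n₂ + 2 := by
    rw [← card_spos s2]
    exact (Finset.card_le_univ _).trans (by simp)
  have hne : S.Nonempty := by
    rw [Set.nonempty_iff_ne_empty]
    intro h
    rw [h, Set.ncard_empty] at hk
    omega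
  obtain ⟨e₀, he₀⟩ := hne
  have fin1 : (∃ D : Fin 5 → Set E, G.IsCDC D ∧ {v | v ∉ G.verts (D 0)}.ncard ≤ 1) →
      ∃ D : Fin 5 → Set E, G.IsCDC D ∧ {v | v ∉ G.verts (D 0)}.ncard ≤ 2 ∧
      10 * {v | v ∉ G.verts (D 0)}.ncard ≤ Fintype.card V := by
    rintro ⟨D, hD, hD'⟩
    exact ⟨D, hD, by omega, by omega⟩
  rcases good3_or_even K₁ (hG := hG) hn1 (by
    obtain ⟨i, hi⟩ := s1.one e₀ he₀
    exact ⟨i, hi ▸ he₀⟩) with ⟨d, hd⟩ | ⟨d1, hd1⟩
  · exact fin1 (class_good hG hall (K₁.rot d) K₂ hn1 hn2 (s1.rot d) s2 hd c1 c2)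
  rcases good3_or_even K₂ (hG := hG) hn2 (by
    obtain ⟨i, hi⟩ := s2.one e₀ he₀
    exact ⟨i, hi ▸ he₀⟩) with ⟨d, hd⟩ | ⟨d2, hd2⟩
  · rw [hS, G.joining_comm C₁ C₂] at s1 s2 hd
    exact fin1 (class_good hG hall' (K₂.rot d) K₁ hn2 hn1 (s2.rot d) s1 hd c2 c1)
  have m1 := card_even_pos (s1.rot d1) hd1
  have m2 := card_even_pos (s2.rot d2) hd2
  by_cases h20 : 20 ≤ Fintype.card V
  · -- three arbitrary spokes
    obtain ⟨T, hTS, hT⟩ : ∃ T : Set E, T ⊆ S ∧ T.ncard = 3 :=
      Set.exists_subset_card_eq (by omega)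
    obtain ⟨x, y, z, hxy, hxz, hyz, rfl⟩ := Set.ncard_eq_three.1 hT
    have he : Function.Injective (![x, y, z] : Fin 3 → E) := by
      intro i j hij
      fin_cases i <;> fin_cases j
      · rfl
      · exact absurd hij hxy
      · exact absurd hij hxz
      · exact absurd hij.symm hxy
      · rfl
      · exact absurd hij hyz
      · exact absurd hij.symm hxz
      · exact absurd hij.symm hyz
      · rfl
    have heS : ∀ r, (![x, y, z] : Fin 3 → E) r ∈ S := by
      intro r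
      fin_cases r
      · exact hTS (by simp)
      · exact hTS (by simp)
      · exact hTS (by simp)
    obtain ⟨D, hD, hD'⟩ := jmain_two hG c1 c2 hall (lab3 ![x, y, z])
      (loc3 K₁ s1 hn1 _ he heS _ (fun _ => rfl)) (loc3 K₂ s2 hn2 _ he heS _ (fun _ => rfl))
    exact ⟨D, hD, hD', by omega⟩
  · have e5 : S.ncard = 5 := by omega
    have e1 : n₁ = 7 := by omega
    have e2 : n₂ = 7 := by omega
    subst e1
    obtain ⟨e, he, heS, ch, hch, ⟨i, hi⟩, l1⟩ := loc_nine (K₁.rot d1) (s1.rot d1) hd1 e5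
    refine fin1 (jmain_two hG c1 c2 hall _ l1 (loc3 K₂ s2 hn2 e he heS _ (fun j => ?_)))
    rw [if_neg, add_zero]
    intro h
    apply hch
    rw [← h]
    refine ⟨⟨(K₁.rot d1).v i, (K₁.rot d1 |>.mem_verts _).2 ⟨i, rfl⟩, ?_⟩,
      K₂.v j, (K₂.mem_verts _).2 ⟨j, rfl⟩, K₂.h_inc hG j⟩
    rw [h, ← hi]
    exact (K₁.rot d1).h_inc hG i

/-- one circuit through all vertices -/
theorem class_ham (hG : G.Cubic) {M : Set E} (hM : G.IsPM M) (c1 : G.IsCircuit Mᶜ) :
    (∃ D : Fin 5 → Set E, G.IsCDC D ∧ D 0 = Mᶜ) ∧ G.Coverable4 := by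
  obtain ⟨n, ⟨K⟩⟩ := c1.circ
  have hall : ∀ v, v ∈ G.verts Mᶜ := fun v => (twoFactor_compl hG hM).2 v
  obtain ⟨dd, c, xe, -, -, h3⟩ := core K hG (fun _ => 0) (fun w hw => absurd (hall w) hw)
  refine cover_of_labels dd c xe (fun v => ?_)
  obtain ⟨i, rfl⟩ := (K.mem_verts v).1 (hall v)
  have hh : K.h hG i ∈ M := by
    have := K.h_notMem hG i
    rwa [Set.notMem_compl_iff] at this
  exact ⟨K.a i, K.a (i - 1), K.h hG i, K.a_ne i, fun h => K.h_notMem hG i (h ▸ K.mem i),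
    fun h => K.h_notMem hG i (h ▸ K.mem _), K.mem i, K.mem _, hh, K.inc_iff hG i, (h3 i).1,
    (h3 i).2⟩

/-- **Main theorem.** -/
theorem two_class (hG : G.Cubic) (hb : G.Bridgeless) {M : Set E} (hM : G.IsPM M)
    {C₁ C₂ : Set E} (c1 : G.IsCircuit C₁) (c2 : G.IsCircuit C₂) (hU : C₁ ∪ C₂ = Mᶜ) :
    ((C₁ = C₂ ∨ (G.joining C₁ C₂).ncard % 4 ≠ 1) →
      (∃ D : Fin 5 → Set E, G.IsCDC D ∧ D 0 = Mᶜ) ∧ G.Coverable4) ∧
    ∃ D : Fin 5 → Set E, G.IsCDC D ∧ {v | v ∉ G.verts (D 0)}.ncard ≤ 2 ∧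
      10 * {v | v ∉ G.verts (D 0)}.ncard ≤ Fintype.card V := by
  have hF := twoFactor_compl hG hM
  have hC1 : C₁ ⊆ Mᶜ := hU ▸ Set.subset_union_left
  have hC2 : C₂ ⊆ Mᶜ := hU ▸ Set.subset_union_right
  have first : (C₁ = C₂ ∨ (G.joining C₁ C₂).ncard % 4 ≠ 1) →
      (∃ D : Fin 5 → Set E, G.IsCDC D ∧ D 0 = Mᶜ) ∧ G.Coverable4 := by
    intro h
    by_cases hC : C₁ = C₂
    · subst hC
      rw [Set.union_self] at hU
      subst hU
      exact class_ham hG hM c1
    · have hk : (G.joining C₁ C₂).ncard % 4 ≠ 1 := by tauto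
      have hd : Disjoint C₁ C₂ := by
        rw [Set.disjoint_left]
        intro e he1 he2
        obtain ⟨v, hv⟩ := exists_end G e
        exact hC (hF.1.circuit_unique c1 hC1 c2 hC2 ⟨e, he1, hv⟩ ⟨e, he2, hv⟩)
      exact two_circuits hG hM c1 c2 hd hU hk
  refine ⟨first, ?_⟩
  by_cases h : C₁ = C₂ ∨ (G.joining C₁ C₂).ncard % 4 ≠ 1
  · obtain ⟨⟨D, hD, hD0⟩, -⟩ := first h
    have hemp : {v | v ∉ G.verts (D 0)} = ∅ := by
      ext v
      simp only [Set.mem_ofPred_eq, Set.mem_empty_iff_false, iff_false, not_not]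
      rw [hD0]
      exact hF.2 v
    exact ⟨D, hD, by rw [hemp]; simp, by rw [hemp]; simp⟩
  · push Not at h
    obtain ⟨hne, hk⟩ := h
    have hall : ∀ v, v ∉ G.verts C₂ ↔ v ∈ G.verts C₁ := by
      intro v
      constructor
      · intro hv
        obtain ⟨e, he, hve⟩ := hF.2 v
        rw [← hU] at he
        rcases he with he | he
        · exact ⟨e, he, hve⟩
        · exact absurd ⟨e, he, hve⟩ hv
      · intro h1 h2
        exact hne (hF.1.circuit_unique c1 hC1 c2 hC2 h1 h2)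
    refine class_one hG hall c1 c2 hk (fun h1 => ?_)
    refine hb (G.verts C₁) (Eq.trans ?_ h1)
    congr 1
    ext e
    have h2 : ∀ w, w ∉ G.verts C₁ ↔ w ∈ G.verts C₂ := fun w => by rw [← hall, not_not]
    simp only [MGraph.cut, MGraph.joining, Set.mem_ofPred_eq, h2]

end

end Pool.Agent.CDC
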