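import Pool.Agent.CDC.TwoMain
import Pool.Agent.CDC.Arcs

/-!
# `2`-factors with at most two circuits: at most one missed vertex
-/

set_option autoImplicit false

namespace Pool.Agent.CDC

open Finset

section

variable {V E : Type} [Fintype V] [Fintype E] {G : MGraph V E} {C : Set E} {n : ℕ}

open Classical in
/-- two circuits which cover all vertices, the number of joining edges is odd and at least `3` -/
theorem class_odd
    (hG : G.Cubic) {C₁ C₂ : Set E} (hall : ∀ v, v ∉ G.verts C₂ ↔ v ∈ G.verts C₁)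
    (c1 : G.IsCircuit C₁) (c2 : G.IsCircuit C₂) (hk : (G.joining C₁ C₂).ncard % 2 = 1)
    (hk3 : 3 ≤ (G.joining C₁ C₂).ncard) :
    ∃ D : Fin 5 → Set E, G.IsCDC D ∧ {v | v ∉ G.verts (D 0)}.ncard ≤ 1 := by
  obtain ⟨n₁, ⟨K₁⟩⟩ := c1.circ
  obtain ⟨n₂, ⟨K₂⟩⟩ := c2.circ
  have hall' : ∀ v, v ∉ G.verts C₁ ↔ v ∈ G.verts C₂ := by
    intro v
    rw [← hall, not_not]
  have s1 := spk_joining K₁ hG hall
  have s2 := spk_joining K₂ hG hall'
  rw [G.joining_comm C₂ C₁] at s2
  have p1 := parity_spos s1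
  have p2 := parity_spos s2
  obtain ⟨e, w, he, heS, hw, l1⟩ := arcs K₁ hG s1 (by omega) hk3
  refine jmain_two hG c1 c2 hall w l1 (loc3 K₂ s2 (by omega) e he heS w (fun j => hw _ ?_))
  by_cases h : K₂.h hG j ∈ G.joining C₁ C₂
  · exact Or.inr h
  · refine Or.inl (fun i hi => h ⟨⟨K₁.v i, (K₁.mem_verts _).2 ⟨i, rfl⟩, ?_⟩,
      K₂.v j, (K₂.mem_verts _).2 ⟨j, rfl⟩, K₂.h_inc hG j⟩)
    rw [hi]
    exact K₁.h_inc hG i

/-- two circuits which cover all vertices: there are at least twice as many vertices as joining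
edges -/
theorem card_joining (hG : G.Cubic) {C₁ C₂ : Set E} (hall : ∀ v, v ∉ G.verts C₂ ↔ v ∈ G.verts C₁)
    (c1 : G.IsCircuit C₁) (c2 : G.IsCircuit C₂) :
    2 * (G.joining C₁ C₂).ncard ≤ Fintype.card V := by
  classical
  obtain ⟨n₁, ⟨K₁⟩⟩ := c1.circ
  obtain ⟨n₂, ⟨K₂⟩⟩ := c2.circ
  have hall' : ∀ v, v ∉ G.verts C₁ ↔ v ∈ G.verts C₂ := by
    intro v
    rw [← hall, not_not]
  have s1 := spk_joining K₁ hG hall
  have s2 := spk_joining K₂ hG hall'
  rw [G.joining_comm C₂ C₁] at s2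
  have hcard : n₁ + 2 + (n₂ + 2) = Fintype.card V := by
    rw [← ncard_verts_circ K₁, ← ncard_verts_circ K₂, ← Set.ncard_union_eq]
    · rw [← Nat.card_eq_fintype_card, ← Set.ncard_univ]
      congr 1
      ext v
      simp only [Set.mem_union, Set.mem_univ, iff_true]
      by_cases h : v ∈ G.verts C₁
      · exact Or.inl h
      · exact Or.inr ((hall' v).1 h)
    · rw [Set.disjoint_left]
      intro v h1 h2
      exact (hall v).2 h1 h2
  have l1 : (G.joining C₁ C₂).ncard ≤ n₁ + 2 := by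
    rw [← card_spos s1]
    exact (Finset.card_le_univ _).trans (by simp)
  have l2 : (G.joining C₁ C₂).ncard ≤ n₂ + 2 := by
    rw [← card_spos s2]
    exact (Finset.card_le_univ _).trans (by simp)
  omega

open Classical in
/-- **Main theorem.** -/
theorem two_one
    (hG : G.Cubic) (hb : G.Bridgeless) {M : Set E} (hM : G.IsPM M)
    {C₁ C₂ : Set E} (c1 : G.IsCircuit C₁) (c2 : G.IsCircuit C₂) (hU : C₁ ∪ C₂ = Mᶜ) :
    ∃ D : Fin 5 → Set E, G.IsCDC D ∧ {v | v ∉ G.verts (D 0)}.ncard ≤ 1 ∧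
      10 * {v | v ∉ G.verts (D 0)}.ncard ≤ Fintype.card V := by
  have hF := twoFactor_compl hG hM
  have hC1 : C₁ ⊆ Mᶜ := hU ▸ Set.subset_union_left
  have hC2 : C₂ ⊆ Mᶜ := hU ▸ Set.subset_union_right
  have first := (two_class hG hb hM c1 c2 hU).1
  by_cases h : C₁ = C₂ ∨ (G.joining C₁ C₂).ncard % 4 ≠ 1
  · obtain ⟨⟨D, hD, hD0⟩, -⟩ := first h
    have hemp : {v | v ∉ G.verts (D 0)} = ∅ := by
      ext v
      simp only [Set.mem_ofPred_eq, Set.mem_empty_iff_false, iff_false, not_not]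
      rw [hD0]
      exact hF.2 v
    exact ⟨D, hD, by rw [hemp]; simp, by rw [hemp]; simp⟩
  · push Not at h
    obtain ⟨hne, hk⟩ := h
    have hall : ∀ v, v ∉ G.verts C₂ ↔ v ∈ G.verts C₁ := by
      intro v
      constructor
      · intro hv
        obtain ⟨e, he, hve⟩ := hF.2 v
        rw [← hU] at he
        rcases he with he | he
        · exact ⟨e, he, hve⟩
        · exact absurd ⟨e, he, hve⟩ hv
      · intro h1 h2
        exact hne (hF.1.circuit_unique c1 hC1 c2 hC2 h1 h2)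
    have hk1 : (G.joining C₁ C₂).ncard ≠ 1 := by
      intro h1
      refine hb (G.verts C₁) (Eq.trans ?_ h1)
      congr 1
      ext e
      have h2 : ∀ w, w ∉ G.verts C₁ ↔ w ∈ G.verts C₂ := fun w => by rw [← hall, not_not]
      simp only [MGraph.cut, MGraph.joining, Set.mem_ofPred_eq, h2]
    obtain ⟨D, hD, hD'⟩ := class_odd hG hall c1 c2 (by omega) (by omega)
    have := card_joining hG hall c1 c2
    exact ⟨D, hD, hD', by omega⟩

end

end Pool.Agent.CDC
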