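import Pool.Agent.CDC.F4

/-!
# Closed walks in a triangle

A cyclic word of `2 k`, `k ≤ 3`, letters in which `k` letters (the incoming ones) carry different
labels; the other letters can be labelled by the same labels such that the word is a closed walk in
the triangle. Finite check (the cases are generated).
-/

set_option autoImplicit false

namespace Pool.Agent.CDC

open Finset

/-- the statement for words of length `m`; `b r = true` for the incoming letters -/
def Pat (m : ℕ) : Prop :=
  ∀ b : Fin m → Bool,
    (univ.filter (fun r => b r = true)).card = (univ.filter (fun r => b r = false)).card →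
    ∃ σ : Fin m → Fin m, (∀ r, b r = true → σ r = r) ∧ (∀ r, b (σ r) = true) ∧
      (∀ r s, b r = false → b s = false → σ r = σ s → r = s) ∧
      ∀ α : Fin m → ZMod 3, (∀ r s, b r = true → b s = true → α r = α s → r = s) →
        (∃ s₀ : F4, ∀ q : ℕ, q ≤ m →
          s₀ + ∑ r ∈ univ.filter (fun r : Fin m => r.1 < q), th (α (σ r)) ≠ 0) ∧
        ∑ r, th (α (σ r)) = 0

/-- a closed walk of length `2` which avoids `0` -/
def W2 (c0 c1 : F4) : Prop :=
  (∃ s : F4, s ≠ 0 ∧ s + (c0) ≠ 0 ∧ s + (c0 + c1) ≠ 0) ∧
    c0 + c1 = 0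

instance (c0 c1 : F4) : Decidable (W2 c0 c1) := by unfold W2; infer_instance

theorem w2_0 : ∀ x : ZMod 3, W2 (th x) (th x) := by decide

theorem w2_1 : ∀ x : ZMod 3, W2 (th x) (th x) := by decide

/-- the conclusion for a given word -/
def Con2 (b : Fin 2 → Bool) : Prop :=
  ∃ σ : Fin 2 → Fin 2, (∀ r, b r = true → σ r = r) ∧ (∀ r, b (σ r) = true) ∧
    (∀ r s, b r = false → b s = false → σ r = σ s → r = s) ∧
    ∀ α : Fin 2 → ZMod 3, (∀ r s, b r = true → b s = true → α r = α s → r = s) →
      W2 (th (α (σ 0))) (th (α (σ 1)))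

theorem con2_0 : Con2 ![true, false] :=
  ⟨![0, 0], by decide, by decide, by decide, fun α hα => w2_0 (α 0) ⟩

theorem con2_1 : Con2 ![false, true] :=
  ⟨![1, 1], by decide, by decide, by decide, fun α hα => w2_1 (α 1) ⟩

theorem conAll2 : ∀ b0 b1 : Bool, ((if b0 then 1 else 0) + (if b1 then 1 else 0) : ℕ) = 1 → Con2 ![b0, b1]
  | true, true, h => absurd h (by decide)
  | true, false, _ => con2_0
  | false, true, _ => con2_1
  | false, false, h => absurd h (by decide)

theorem walk_of_W2 (c : Fin 2 → F4) (h : W2 (c 0) (c 1)) :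
    (∃ s₀ : F4, ∀ q : ℕ, q ≤ 2 →
      s₀ + ∑ r ∈ univ.filter (fun r : Fin 2 => r.1 < q), c r ≠ 0) ∧ ∑ r, c r = 0 := by
  obtain ⟨⟨s, hs⟩, hsum⟩ := h
  refine ⟨⟨s, fun q hq => ?_⟩, ?_⟩
  · rw [Finset.sum_filter]
    simp only [Fin.sum_univ_succ, Fin.sum_univ_zero, Fin.val_zero, Fin.val_succ]
    obtain ⟨h0, h1, h2⟩ := hs
    interval_cases q
    all_goals simp only [Nat.lt_irrefl, Nat.reduceAdd, Nat.reduceLT, Nat.not_lt_zero, if_true,
      if_false, add_zero, Nat.zero_lt_succ, Nat.lt_add_one, ite_true, ite_false, ← add_assoc] at *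
    all_goals first | assumption | skip
  · simp only [Fin.sum_univ_succ, Fin.sum_univ_zero, add_zero, ← add_assoc]
    exact hsum

/-- a closed walk of length `4` which avoids `0` -/
def W4 (c0 c1 c2 c3 : F4) : Prop :=
  (∃ s : F4, s ≠ 0 ∧ s + (c0) ≠ 0 ∧ s + (c0 + c1) ≠ 0 ∧ s + (c0 + c1 + c2) ≠ 0 ∧ s + (c0 + c1 + c2 + c3) ≠ 0) ∧
    c0 + c1 + c2 + c3 = 0

instance (c0 c1 c2 c3 : F4) : Decidable (W4 c0 c1 c2 c3) := by unfold W4; infer_instance

theorem w4_0 : ∀ x y : ZMod 3, x ≠ y → W4 (th x) (th y) (th y) (th x) := by decide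

theorem w4_1 : ∀ x y : ZMod 3, x ≠ y → W4 (th x) (th x) (th y) (th y) := by decide

theorem w4_2 : ∀ x y : ZMod 3, x ≠ y → W4 (th x) (th x) (th y) (th y) := by decide

theorem w4_3 : ∀ x y : ZMod 3, x ≠ y → W4 (th x) (th x) (th y) (th y) := by decide

theorem w4_4 : ∀ x y : ZMod 3, x ≠ y → W4 (th x) (th x) (th y) (th y) := by decide

theorem w4_5 : ∀ x y : ZMod 3, x ≠ y → W4 (th y) (th x) (th x) (th y) := by decide

/-- the conclusion for a given word -/
def Con4 (b : Fin 4 → Bool) : Prop :=
  ∃ σ : Fin 4 → Fin 4, (∀ r, b r = true → σ r = r) ∧ (∀ r, b (σ r) = true) ∧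
    (∀ r s, b r = false → b s = false → σ r = σ s → r = s) ∧
    ∀ α : Fin 4 → ZMod 3, (∀ r s, b r = true → b s = true → α r = α s → r = s) →
      W4 (th (α (σ 0))) (th (α (σ 1))) (th (α (σ 2))) (th (α (σ 3)))

theorem con4_0 : Con4 ![true, true, false, false] :=
  ⟨![0, 1, 1, 0], by decide, by decide, by decide, fun α hα => w4_0 (α 0) (α 1) (fun h => absurd (hα 0 1 rfl rfl h) (by decide))⟩

theorem con4_1 : Con4 ![true, false, true, false] :=
  ⟨![0, 0, 2, 2], by decide, by decide, by decide, fun α hα => w4_1 (α 0) (α 2) (fun h => absurd (hα 0 2 rfl rfl h) (by decide))⟩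

theorem con4_2 : Con4 ![true, false, false, true] :=
  ⟨![0, 0, 3, 3], by decide, by decide, by decide, fun α hα => w4_2 (α 0) (α 3) (fun h => absurd (hα 0 3 rfl rfl h) (by decide))⟩

theorem con4_3 : Con4 ![false, true, true, false] :=
  ⟨![1, 1, 2, 2], by decide, by decide, by decide, fun α hα => w4_3 (α 1) (α 2) (fun h => absurd (hα 1 2 rfl rfl h) (by decide))⟩

theorem con4_4 : Con4 ![false, true, false, true] :=
  ⟨![1, 1, 3, 3], by decide, by decide, by decide, fun α hα => w4_4 (α 1) (α 3) (fun h => absurd (hα 1 3 rfl rfl h) (by decide))⟩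

theorem con4_5 : Con4 ![false, false, true, true] :=
  ⟨![3, 2, 2, 3], by decide, by decide, by decide, fun α hα => w4_5 (α 2) (α 3) (fun h => absurd (hα 2 3 rfl rfl h) (by decide))⟩

theorem conAll4 : ∀ b0 b1 b2 b3 : Bool, ((if b0 then 1 else 0) + (if b1 then 1 else 0) + (if b2 then 1 else 0) + (if b3 then 1 else 0) : ℕ) = 2 → Con4 ![b0, b1, b2, b3]
  | true, true, true, true, h => absurd h (by decide)
  | true, true, true, false, h => absurd h (by decide)
  | true, true, false, true, h => absurd h (by decide)
  | true, true, false, false, _ => con4_0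
  | true, false, true, true, h => absurd h (by decide)
  | true, false, true, false, _ => con4_1
  | true, false, false, true, _ => con4_2
  | true, false, false, false, h => absurd h (by decide)
  | false, true, true, true, h => absurd h (by decide)
  | false, true, true, false, _ => con4_3
  | false, true, false, true, _ => con4_4
  | false, true, false, false, h => absurd h (by decide)
  | false, false, true, true, _ => con4_5
  | false, false, true, false, h => absurd h (by decide)
  | false, false, false, true, h => absurd h (by decide)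
  | false, false, false, false, h => absurd h (by decide)

theorem walk_of_W4 (c : Fin 4 → F4) (h : W4 (c 0) (c 1) (c 2) (c 3)) :
    (∃ s₀ : F4, ∀ q : ℕ, q ≤ 4 →
      s₀ + ∑ r ∈ univ.filter (fun r : Fin 4 => r.1 < q), c r ≠ 0) ∧ ∑ r, c r = 0 := by
  obtain ⟨⟨s, hs⟩, hsum⟩ := h
  refine ⟨⟨s, fun q hq => ?_⟩, ?_⟩
  · rw [Finset.sum_filter]
    simp only [Fin.sum_univ_succ, Fin.sum_univ_zero, Fin.val_zero, Fin.val_succ]
    obtain ⟨h0, h1, h2, h3, h4⟩ := hs
    interval_cases q
    all_goals simp only [Nat.lt_irrefl, Nat.reduceAdd, Nat.reduceLT, Nat.not_lt_zero, if_true,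
      if_false, add_zero, Nat.zero_lt_succ, Nat.lt_add_one, ite_true, ite_false, ← add_assoc] at *
    all_goals first | assumption | skip
  · simp only [Fin.sum_univ_succ, Fin.sum_univ_zero, add_zero, ← add_assoc]
    exact hsum

/-- a closed walk of length `6` which avoids `0` -/
def W6 (c0 c1 c2 c3 c4 c5 : F4) : Prop :=
  (∃ s : F4, s ≠ 0 ∧ s + (c0) ≠ 0 ∧ s + (c0 + c1) ≠ 0 ∧ s + (c0 + c1 + c2) ≠ 0 ∧ s + (c0 + c1 + c2 + c3) ≠ 0 ∧ s + (c0 + c1 + c2 + c3 + c4) ≠ 0 ∧ s + (c0 + c1 + c2 + c3 + c4 + c5) ≠ 0) ∧
    c0 + c1 + c2 + c3 + c4 + c5 = 0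

instance (c0 c1 c2 c3 c4 c5 : F4) : Decidable (W6 c0 c1 c2 c3 c4 c5) := by unfold W6; infer_instance

theorem w6_0 : ∀ x y z : ZMod 3, x ≠ y → x ≠ z → y ≠ z → W6 (th x) (th y) (th z) (th x) (th y) (th z) := by decide

theorem w6_1 : ∀ x y z : ZMod 3, x ≠ y → x ≠ z → y ≠ z → W6 (th x) (th y) (th z) (th z) (th y) (th x) := by decide

theorem w6_2 : ∀ x y z : ZMod 3, x ≠ y → x ≠ z → y ≠ z → W6 (th x) (th y) (th y) (th x) (th z) (th z) := by decide

theorem w6_3 : ∀ x y z : ZMod 3, x ≠ y → x ≠ z → y ≠ z → W6 (th x) (th y) (th y) (th x) (th z) (th z) := by decide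

theorem w6_4 : ∀ x y z : ZMod 3, x ≠ y → x ≠ z → y ≠ z → W6 (th x) (th x) (th y) (th z) (th z) (th y) := by decide

theorem w6_5 : ∀ x y z : ZMod 3, x ≠ y → x ≠ z → y ≠ z → W6 (th x) (th x) (th y) (th z) (th z) (th y) := by decide

theorem w6_6 : ∀ x y z : ZMod 3, x ≠ y → x ≠ z → y ≠ z → W6 (th x) (th y) (th y) (th x) (th z) (th z) := by decide

theorem w6_7 : ∀ x y z : ZMod 3, x ≠ y → x ≠ z → y ≠ z → W6 (th x) (th z) (th y) (th y) (th z) (th x) := by decide

theorem w6_8 : ∀ x y z : ZMod 3, x ≠ y → x ≠ z → y ≠ z → W6 (th x) (th x) (th z) (th y) (th y) (th z) := by decide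

theorem w6_9 : ∀ x y z : ZMod 3, x ≠ y → x ≠ z → y ≠ z → W6 (th x) (th x) (th z) (th y) (th y) (th z) := by decide

theorem w6_10 : ∀ x y z : ZMod 3, x ≠ y → x ≠ z → y ≠ z → W6 (th x) (th x) (th y) (th z) (th z) (th y) := by decide

theorem w6_11 : ∀ x y z : ZMod 3, x ≠ y → x ≠ z → y ≠ z → W6 (th x) (th x) (th y) (th z) (th z) (th y) := by decide

theorem w6_12 : ∀ x y z : ZMod 3, x ≠ y → x ≠ z → y ≠ z → W6 (th z) (th x) (th y) (th y) (th x) (th z) := by decide

theorem w6_13 : ∀ x y z : ZMod 3, x ≠ y → x ≠ z → y ≠ z → W6 (th y) (th x) (th x) (th y) (th z) (th z) := by decide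

theorem w6_14 : ∀ x y z : ZMod 3, x ≠ y → x ≠ z → y ≠ z → W6 (th x) (th x) (th z) (th y) (th y) (th z) := by decide

theorem w6_15 : ∀ x y z : ZMod 3, x ≠ y → x ≠ z → y ≠ z → W6 (th x) (th x) (th z) (th y) (th y) (th z) := by decide

theorem w6_16 : ∀ x y z : ZMod 3, x ≠ y → x ≠ z → y ≠ z → W6 (th y) (th x) (th x) (th y) (th z) (th z) := by decide

theorem w6_17 : ∀ x y z : ZMod 3, x ≠ y → x ≠ z → y ≠ z → W6 (th y) (th x) (th x) (th y) (th z) (th z) := by decide

theorem w6_18 : ∀ x y z : ZMod 3, x ≠ y → x ≠ z → y ≠ z → W6 (th z) (th y) (th x) (th x) (th y) (th z) := by decide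

theorem w6_19 : ∀ x y z : ZMod 3, x ≠ y → x ≠ z → y ≠ z → W6 (th x) (th y) (th z) (th x) (th y) (th z) := by decide

/-- the conclusion for a given word -/
def Con6 (b : Fin 6 → Bool) : Prop :=
  ∃ σ : Fin 6 → Fin 6, (∀ r, b r = true → σ r = r) ∧ (∀ r, b (σ r) = true) ∧
    (∀ r s, b r = false → b s = false → σ r = σ s → r = s) ∧
    ∀ α : Fin 6 → ZMod 3, (∀ r s, b r = true → b s = true → α r = α s → r = s) →
      W6 (th (α (σ 0))) (th (α (σ 1))) (th (α (σ 2))) (th (α (σ 3))) (th (α (σ 4))) (th (α (σ 5)))

theorem con6_0 : Con6 ![true, true, true, false, false, false] :=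
  ⟨![0, 1, 2, 0, 1, 2], by decide, by decide, by decide, fun α hα => w6_0 (α 0) (α 1) (α 2) (fun h => absurd (hα 0 1 rfl rfl h) (by decide)) (fun h => absurd (hα 0 2 rfl rfl h) (by decide)) (fun h => absurd (hα 1 2 rfl rfl h) (by decide))⟩

theorem con6_1 : Con6 ![true, true, false, true, false, false] :=
  ⟨![0, 1, 3, 3, 1, 0], by decide, by decide, by decide, fun α hα => w6_1 (α 0) (α 1) (α 3) (fun h => absurd (hα 0 1 rfl rfl h) (by decide)) (fun h => absurd (hα 0 3 rfl rfl h) (by decide)) (fun h => absurd (hα 1 3 rfl rfl h) (by decide))⟩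

theorem con6_2 : Con6 ![true, true, false, false, true, false] :=
  ⟨![0, 1, 1, 0, 4, 4], by decide, by decide, by decide, fun α hα => w6_2 (α 0) (α 1) (α 4) (fun h => absurd (hα 0 1 rfl rfl h) (by decide)) (fun h => absurd (hα 0 4 rfl rfl h) (by decide)) (fun h => absurd (hα 1 4 rfl rfl h) (by decide))⟩

theorem con6_3 : Con6 ![true, true, false, false, false, true] :=
  ⟨![0, 1, 1, 0, 5, 5], by decide, by decide, by decide, fun α hα => w6_3 (α 0) (α 1) (α 5) (fun h => absurd (hα 0 1 rfl rfl h) (by decide)) (fun h => absurd (hα 0 5 rfl rfl h) (by decide)) (fun h => absurd (hα 1 5 rfl rfl h) (by decide))⟩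

theorem con6_4 : Con6 ![true, false, true, true, false, false] :=
  ⟨![0, 0, 2, 3, 3, 2], by decide, by decide, by decide, fun α hα => w6_4 (α 0) (α 2) (α 3) (fun h => absurd (hα 0 2 rfl rfl h) (by decide)) (fun h => absurd (hα 0 3 rfl rfl h) (by decide)) (fun h => absurd (hα 2 3 rfl rfl h) (by decide))⟩

theorem con6_5 : Con6 ![true, false, true, false, true, false] :=
  ⟨![0, 0, 2, 4, 4, 2], by decide, by decide, by decide, fun α hα => w6_5 (α 0) (α 2) (α 4) (fun h => absurd (hα 0 2 rfl rfl h) (by decide)) (fun h => absurd (hα 0 4 rfl rfl h) (by decide)) (fun h => absurd (hα 2 4 rfl rfl h) (by decide))⟩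

theorem con6_6 : Con6 ![true, false, true, false, false, true] :=
  ⟨![0, 2, 2, 0, 5, 5], by decide, by decide, by decide, fun α hα => w6_6 (α 0) (α 2) (α 5) (fun h => absurd (hα 0 2 rfl rfl h) (by decide)) (fun h => absurd (hα 0 5 rfl rfl h) (by decide)) (fun h => absurd (hα 2 5 rfl rfl h) (by decide))⟩

theorem con6_7 : Con6 ![true, false, false, true, true, false] :=
  ⟨![0, 4, 3, 3, 4, 0], by decide, by decide, by decide, fun α hα => w6_7 (α 0) (α 3) (α 4) (fun h => absurd (hα 0 3 rfl rfl h) (by decide)) (fun h => absurd (hα 0 4 rfl rfl h) (by decide)) (fun h => absurd (hα 3 4 rfl rfl h) (by decide))⟩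

theorem con6_8 : Con6 ![true, false, false, true, false, true] :=
  ⟨![0, 0, 5, 3, 3, 5], by decide, by decide, by decide, fun α hα => w6_8 (α 0) (α 3) (α 5) (fun h => absurd (hα 0 3 rfl rfl h) (by decide)) (fun h => absurd (hα 0 5 rfl rfl h) (by decide)) (fun h => absurd (hα 3 5 rfl rfl h) (by decide))⟩

theorem con6_9 : Con6 ![true, false, false, false, true, true] :=
  ⟨![0, 0, 5, 4, 4, 5], by decide, by decide, by decide, fun α hα => w6_9 (α 0) (α 4) (α 5) (fun h => absurd (hα 0 4 rfl rfl h) (by decide)) (fun h => absurd (hα 0 5 rfl rfl h) (by decide)) (fun h => absurd (hα 4 5 rfl rfl h) (by decide))⟩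

theorem con6_10 : Con6 ![false, true, true, true, false, false] :=
  ⟨![1, 1, 2, 3, 3, 2], by decide, by decide, by decide, fun α hα => w6_10 (α 1) (α 2) (α 3) (fun h => absurd (hα 1 2 rfl rfl h) (by decide)) (fun h => absurd (hα 1 3 rfl rfl h) (by decide)) (fun h => absurd (hα 2 3 rfl rfl h) (by decide))⟩

theorem con6_11 : Con6 ![false, true, true, false, true, false] :=
  ⟨![1, 1, 2, 4, 4, 2], by decide, by decide, by decide, fun α hα => w6_11 (α 1) (α 2) (α 4) (fun h => absurd (hα 1 2 rfl rfl h) (by decide)) (fun h => absurd (hα 1 4 rfl rfl h) (by decide)) (fun h => absurd (hα 2 4 rfl rfl h) (by decide))⟩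

theorem con6_12 : Con6 ![false, true, true, false, false, true] :=
  ⟨![5, 1, 2, 2, 1, 5], by decide, by decide, by decide, fun α hα => w6_12 (α 1) (α 2) (α 5) (fun h => absurd (hα 1 2 rfl rfl h) (by decide)) (fun h => absurd (hα 1 5 rfl rfl h) (by decide)) (fun h => absurd (hα 2 5 rfl rfl h) (by decide))⟩

theorem con6_13 : Con6 ![false, true, false, true, true, false] :=
  ⟨![3, 1, 1, 3, 4, 4], by decide, by decide, by decide, fun α hα => w6_13 (α 1) (α 3) (α 4) (fun h => absurd (hα 1 3 rfl rfl h) (by decide)) (fun h => absurd (hα 1 4 rfl rfl h) (by decide)) (fun h => absurd (hα 3 4 rfl rfl h) (by decide))⟩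

theorem con6_14 : Con6 ![false, true, false, true, false, true] :=
  ⟨![1, 1, 5, 3, 3, 5], by decide, by decide, by decide, fun α hα => w6_14 (α 1) (α 3) (α 5) (fun h => absurd (hα 1 3 rfl rfl h) (by decide)) (fun h => absurd (hα 1 5 rfl rfl h) (by decide)) (fun h => absurd (hα 3 5 rfl rfl h) (by decide))⟩

theorem con6_15 : Con6 ![false, true, false, false, true, true] :=
  ⟨![1, 1, 5, 4, 4, 5], by decide, by decide, by decide, fun α hα => w6_15 (α 1) (α 4) (α 5) (fun h => absurd (hα 1 4 rfl rfl h) (by decide)) (fun h => absurd (hα 1 5 rfl rfl h) (by decide)) (fun h => absurd (hα 4 5 rfl rfl h) (by decide))⟩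

theorem con6_16 : Con6 ![false, false, true, true, true, false] :=
  ⟨![3, 2, 2, 3, 4, 4], by decide, by decide, by decide, fun α hα => w6_16 (α 2) (α 3) (α 4) (fun h => absurd (hα 2 3 rfl rfl h) (by decide)) (fun h => absurd (hα 2 4 rfl rfl h) (by decide)) (fun h => absurd (hα 3 4 rfl rfl h) (by decide))⟩

theorem con6_17 : Con6 ![false, false, true, true, false, true] :=
  ⟨![3, 2, 2, 3, 5, 5], by decide, by decide, by decide, fun α hα => w6_17 (α 2) (α 3) (α 5) (fun h => absurd (hα 2 3 rfl rfl h) (by decide)) (fun h => absurd (hα 2 5 rfl rfl h) (by decide)) (fun h => absurd (hα 3 5 rfl rfl h) (by decide))⟩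

theorem con6_18 : Con6 ![false, false, true, false, true, true] :=
  ⟨![5, 4, 2, 2, 4, 5], by decide, by decide, by decide, fun α hα => w6_18 (α 2) (α 4) (α 5) (fun h => absurd (hα 2 4 rfl rfl h) (by decide)) (fun h => absurd (hα 2 5 rfl rfl h) (by decide)) (fun h => absurd (hα 4 5 rfl rfl h) (by decide))⟩

theorem con6_19 : Con6 ![false, false, false, true, true, true] :=
  ⟨![3, 4, 5, 3, 4, 5], by decide, by decide, by decide, fun α hα => w6_19 (α 3) (α 4) (α 5) (fun h => absurd (hα 3 4 rfl rfl h) (by decide)) (fun h => absurd (hα 3 5 rfl rfl h) (by decide)) (fun h => absurd (hα 4 5 rfl rfl h) (by decide))⟩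

theorem conAll6 : ∀ b0 b1 b2 b3 b4 b5 : Bool, ((if b0 then 1 else 0) + (if b1 then 1 else 0) + (if b2 then 1 else 0) + (if b3 then 1 else 0) + (if b4 then 1 else 0) + (if b5 then 1 else 0) : ℕ) = 3 → Con6 ![b0, b1, b2, b3, b4, b5]
  | true, true, true, true, true, true, h => absurd h (by decide)
  | true, true, true, true, true, false, h => absurd h (by decide)
  | true, true, true, true, false, true, h => absurd h (by decide)
  | true, true, true, true, false, false, h => absurd h (by decide)
  | true, true, true, false, true, true, h => absurd h (by decide)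
  | true, true, true, false, true, false, h => absurd h (by decide)
  | true, true, true, false, false, true, h => absurd h (by decide)
  | true, true, true, false, false, false, _ => con6_0
  | true, true, false, true, true, true, h => absurd h (by decide)
  | true, true, false, true, true, false, h => absurd h (by decide)
  | true, true, false, true, false, true, h => absurd h (by decide)
  | true, true, false, true, false, false, _ => con6_1
  | true, true, false, false, true, true, h => absurd h (by decide)
  | true, true, false, false, true, false, _ => con6_2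
  | true, true, false, false, false, true, _ => con6_3
  | true, true, false, false, false, false, h => absurd h (by decide)
  | true, false, true, true, true, true, h => absurd h (by decide)
  | true, false, true, true, true, false, h => absurd h (by decide)
  | true, false, true, true, false, true, h => absurd h (by decide)
  | true, false, true, true, false, false, _ => con6_4
  | true, false, true, false, true, true, h => absurd h (by decide)
  | true, false, true, false, true, false, _ => con6_5
  | true, false, true, false, false, true, _ => con6_6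
  | true, false, true, false, false, false, h => absurd h (by decide)
  | true, false, false, true, true, true, h => absurd h (by decide)
  | true, false, false, true, true, false, _ => con6_7
  | true, false, false, true, false, true, _ => con6_8
  | true, false, false, true, false, false, h => absurd h (by decide)
  | true, false, false, false, true, true, _ => con6_9
  | true, false, false, false, true, false, h => absurd h (by decide)
  | true, false, false, false, false, true, h => absurd h (by decide)
  | true, false, false, false, false, false, h => absurd h (by decide)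
  | false, true, true, true, true, true, h => absurd h (by decide)
  | false, true, true, true, true, false, h => absurd h (by decide)
  | false, true, true, true, false, true, h => absurd h (by decide)
  | false, true, true, true, false, false, _ => con6_10
  | false, true, true, false, true, true, h => absurd h (by decide)
  | false, true, true, false, true, false, _ => con6_11
  | false, true, true, false, false, true, _ => con6_12
  | false, true, true, false, false, false, h => absurd h (by decide)
  | false, true, false, true, true, true, h => absurd h (by decide)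
  | false, true, false, true, true, false, _ => con6_13
  | false, true, false, true, false, true, _ => con6_14
  | false, true, false, true, false, false, h => absurd h (by decide)
  | false, true, false, false, true, true, _ => con6_15
  | false, true, false, false, true, false, h => absurd h (by decide)
  | false, true, false, false, false, true, h => absurd h (by decide)
  | false, true, false, false, false, false, h => absurd h (by decide)
  | false, false, true, true, true, true, h => absurd h (by decide)
  | false, false, true, true, true, false, _ => con6_16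
  | false, false, true, true, false, true, _ => con6_17
  | false, false, true, true, false, false, h => absurd h (by decide)
  | false, false, true, false, true, true, _ => con6_18
  | false, false, true, false, true, false, h => absurd h (by decide)
  | false, false, true, false, false, true, h => absurd h (by decide)
  | false, false, true, false, false, false, h => absurd h (by decide)
  | false, false, false, true, true, true, _ => con6_19
  | false, false, false, true, true, false, h => absurd h (by decide)
  | false, false, false, true, false, true, h => absurd h (by decide)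
  | false, false, false, true, false, false, h => absurd h (by decide)
  | false, false, false, false, true, true, h => absurd h (by decide)
  | false, false, false, false, true, false, h => absurd h (by decide)
  | false, false, false, false, false, true, h => absurd h (by decide)
  | false, false, false, false, false, false, h => absurd h (by decide)

theorem walk_of_W6 (c : Fin 6 → F4) (h : W6 (c 0) (c 1) (c 2) (c 3) (c 4) (c 5)) :
    (∃ s₀ : F4, ∀ q : ℕ, q ≤ 6 →
      s₀ + ∑ r ∈ univ.filter (fun r : Fin 6 => r.1 < q), c r ≠ 0) ∧ ∑ r, c r = 0 := by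
  obtain ⟨⟨s, hs⟩, hsum⟩ := h
  refine ⟨⟨s, fun q hq => ?_⟩, ?_⟩
  · rw [Finset.sum_filter]
    simp only [Fin.sum_univ_succ, Fin.sum_univ_zero, Fin.val_zero, Fin.val_succ]
    obtain ⟨h0, h1, h2, h3, h4, h5, h6⟩ := hs
    interval_cases q
    all_goals simp only [Nat.lt_irrefl, Nat.reduceAdd, Nat.reduceLT, Nat.not_lt_zero, if_true,
      if_false, add_zero, Nat.zero_lt_succ, Nat.lt_add_one, ite_true, ite_false, ← add_assoc] at *
    all_goals first | assumption | skip
  · simp only [Fin.sum_univ_succ, Fin.sum_univ_zero, add_zero, ← add_assoc]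
    exact hsum

end Pool.Agent.CDC
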